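import Pool.Agent.Lib.MP_9d6c91_an.Seq

/-!
# JOB ACT : the action of `Gv` on `Gd`

`(n + m)^β ≤ n^β + m^β`, so all double sums converge absolutely.
* `act_cmul` : `act (cmul a b) c m = ∑_{k,l} a_k b_l c_(k+l+m)`.
* `Gv_hh` : `|a_(j+1+i) b_i| ≤ A exp (-δ (j+i)^β + ε i^β)`, take `ε = δ / 2`.
* `cmul_hh_comm` : with `B = ∑ b_i z^(-i-1)` the Laurent coefficients of `a B` are `hh a b j`
  (index `j ≥ 0`) and `act a b m = 0` (index `-m-1`), so `a' (a B) = a (a' B)`.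
-/

set_option autoImplicit false

open MeasureTheory Complex Filter Topology Set
open scoped ENNReal Real

namespace MP_9d6c91_an

variable {β : ℝ}

private theorem act_rpow_add (hβ : 0 < β) (hβ1 : β ≤ 1) (n m : ℕ) :
    ((n + m : ℕ) : ℝ) ^ β ≤ (n : ℝ) ^ β + (m : ℝ) ^ β := by
  push_cast
  exact Real.rpow_add_le_add_rpow (Nat.cast_nonneg n) (Nat.cast_nonneg m) hβ.le hβ1

private theorem act_rpow_nonneg (n : ℕ) : 0 ≤ (n : ℝ) ^ β := Real.rpow_nonneg (Nat.cast_nonneg n) _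

private theorem act_const_nonneg {A : ℝ} {a : ℕ → ℂ} {f : ℕ → ℝ}
    (h : ∀ n, ‖a n‖ ≤ A * Real.exp (f n)) : 0 ≤ A := by
  have h0 := (norm_nonneg (a 0)).trans (h 0)
  by_contra hA
  push Not at hA
  have := mul_neg_of_neg_of_pos hA (Real.exp_pos (f 0))
  linarith

/-- pointwise bound of the terms -/
private theorem act_term (hβ : 0 < β) (hβ1 : β ≤ 1) {A δ ε B : ℝ} {g c : ℕ → ℂ}
    (hg : ∀ n : ℕ, ‖g n‖ ≤ A * Real.exp (-δ * (n : ℝ) ^ β))
    (hε : 0 ≤ ε) (hc : ∀ n : ℕ, ‖c n‖ ≤ B * Real.exp (ε * (n : ℝ) ^ β)) (n m : ℕ) :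
    ‖g n * c (n + m)‖ ≤ (A * B * Real.exp (ε * (m : ℝ) ^ β)) *
      Real.exp (-(δ - ε) * (n : ℝ) ^ β) := by
  have hA : 0 ≤ A := act_const_nonneg hg
  have hB : 0 ≤ B := act_const_nonneg hc
  rw [norm_mul]
  calc ‖g n‖ * ‖c (n + m)‖
      ≤ (A * Real.exp (-δ * (n : ℝ) ^ β)) * (B * Real.exp (ε * ((n + m : ℕ) : ℝ) ^ β)) := by
        gcongr
        · exact hg n
        · exact hc (n + m)
    _ ≤ (A * Real.exp (-δ * (n : ℝ) ^ β)) *
        (B * Real.exp (ε * ((n : ℝ) ^ β + (m : ℝ) ^ β))) := by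
        gcongr
        exact act_rpow_add hβ hβ1 n m
    _ = (A * B * Real.exp (ε * (m : ℝ) ^ β)) * Real.exp (-(δ - ε) * (n : ℝ) ^ β) := by
        rw [show ε * ((n : ℝ) ^ β + (m : ℝ) ^ β) = ε * (n : ℝ) ^ β + ε * (m : ℝ) ^ β by ring,
          Real.exp_add, show -(δ - ε) * (n : ℝ) ^ β = -δ * (n : ℝ) ^ β + ε * (n : ℝ) ^ β by ring,
          Real.exp_add]
        ring

theorem summable_act (hβ : 0 < β) (hβ1 : β ≤ 1) {g c : ℕ → ℂ} (hg : Gv β g) (hc : Gd β c) (m : ℕ) :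
    Summable fun n => ‖g n * c (n + m)‖ := by
  obtain ⟨A, δ, hδ, hA⟩ := hg
  obtain ⟨B, hB⟩ := hc (δ / 2) (by linarith)
  refine Summable.of_nonneg_of_le (fun n => norm_nonneg _)
    (fun n => act_term hβ hβ1 hA (by linarith) hB n m) ?_
  exact (summable_exp_neg hβ (by linarith : 0 < δ - δ / 2)).mul_left _

theorem Gd_act (hβ : 0 < β) (hβ1 : β ≤ 1) {g c : ℕ → ℂ} (hg : Gv β g) (hc : Gd β c) :
    Gd β (act g c) := by
  intro ε hε
  obtain ⟨A, δ, hδ, hA⟩ := id hg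
  have hε' : 0 < min ε (δ / 2) := lt_min hε (by linarith)
  obtain ⟨B, hB⟩ := hc (min ε (δ / 2)) hε'
  have hle : min ε (δ / 2) ≤ δ / 2 := min_le_right _ _
  have hs := summable_exp_neg hβ (by linarith : 0 < δ - min ε (δ / 2))
  refine ⟨A * B * ∑' n : ℕ, Real.exp (-(δ - min ε (δ / 2)) * (n : ℝ) ^ β), fun m => ?_⟩
  have hA0 : 0 ≤ A := act_const_nonneg hA
  have hB0 : 0 ≤ B := act_const_nonneg hB
  have hS0 : 0 ≤ ∑' n : ℕ, Real.exp (-(δ - min ε (δ / 2)) * (n : ℝ) ^ β) :=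
    tsum_nonneg fun n => (Real.exp_pos _).le
  calc ‖act g c m‖ ≤ ∑' n, ‖g n * c (n + m)‖ :=
        norm_tsum_le_tsum_norm (summable_act hβ hβ1 hg hc m)
    _ ≤ ∑' n : ℕ, (A * B * Real.exp (min ε (δ / 2) * (m : ℝ) ^ β)) *
        Real.exp (-(δ - min ε (δ / 2)) * (n : ℝ) ^ β) :=
        (summable_act hβ hβ1 hg hc m).tsum_le_tsum
          (fun n => act_term hβ hβ1 hA hε'.le hB n m) (hs.mul_left _)
    _ = A * B * (∑' n : ℕ, Real.exp (-(δ - min ε (δ / 2)) * (n : ℝ) ^ β)) *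
        Real.exp (min ε (δ / 2) * (m : ℝ) ^ β) := by rw [tsum_mul_left]; ring
    _ ≤ A * B * (∑' n : ℕ, Real.exp (-(δ - min ε (δ / 2)) * (n : ℝ) ^ β)) *
        Real.exp (ε * (m : ℝ) ^ β) := by
        have h1 := act_rpow_nonneg (β := β) m
        have h2 : min ε (δ / 2) ≤ ε := min_le_left _ _
        gcongr

private theorem act_tsum_antidiag {F : ℕ × ℕ → ℂ} (hF : Summable F) :
    ∑' n, ∑ k ∈ Finset.range (n + 1), F (k, n - k) = ∑' k, ∑' l, F (k, l) := by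
  rw [← hF.tsum_prod' (fun k => hF.prod_factor k),
    ← Finset.HasAntidiagonal.sigmaAntidiagonalEquivProd.tsum_eq F]
  have h2 : Summable (fun x : (Σ n : ℕ, Finset.HasAntidiagonal.antidiagonal n) =>
      F (Finset.HasAntidiagonal.sigmaAntidiagonalEquivProd x)) :=
    (Finset.HasAntidiagonal.sigmaAntidiagonalEquivProd.summable_iff).2 hF
  rw [h2.tsum_sigma' (fun n => (Summable.of_finite))]
  refine tsum_congr fun n => ?_
  rw [tsum_fintype]
  rw [← Finset.Nat.sum_antidiagonal_eq_sum_range_succ (fun i j => F (i, j)) n]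
  exact (Finset.sum_coe_sort (Finset.HasAntidiagonal.antidiagonal n) (fun x => F (x.1, x.2))).symm

private theorem act_summable2 (hβ : 0 < β) {A B C δ δ' ε : ℝ} (hδ : ε < δ) (hδ' : ε < δ')
    {F : ℕ × ℕ → ℂ} (hF : ∀ k l : ℕ, ‖F (k, l)‖ ≤
      (A * Real.exp (-(δ - ε) * (k : ℝ) ^ β)) * (B * Real.exp (-(δ' - ε) * (l : ℝ) ^ β)) * C) :
    Summable F := by
  have h1 := summable_exp_neg hβ (by linarith : 0 < δ - ε)
  have h2 := summable_exp_neg hβ (by linarith : 0 < δ' - ε)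
  have h3 : Summable fun x : ℕ × ℕ => (Real.exp (-(δ - ε) * (x.1 : ℝ) ^ β)) *
      (Real.exp (-(δ' - ε) * (x.2 : ℝ) ^ β)) :=
    h1.mul_of_nonneg h2 (fun n => (Real.exp_pos _).le) (fun n => (Real.exp_pos _).le)
  refine Summable.of_norm_bounded (h3.mul_left (A * B * C)) (fun x => ?_)
  calc ‖F x‖ = ‖F (x.1, x.2)‖ := rfl
    _ ≤ _ := hF x.1 x.2
    _ = _ := by ring

theorem act_cmul (hβ : 0 < β) (hβ1 : β ≤ 1) {a b c : ℕ → ℂ} (ha : Gv β a) (hb : Gv β b)
    (hc : Gd β c) : act (cmul a b) c = act a (act b c) := by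
  funext m
  obtain ⟨A, δ, hδ, hA⟩ := id ha
  obtain ⟨B, δ', hδ', hB⟩ := id hb
  have hε : 0 < min δ δ' / 2 := by have := lt_min hδ hδ'; linarith
  obtain ⟨D, hD⟩ := hc (min δ δ' / 2) hε
  have h1 : min δ δ' ≤ δ := min_le_left _ _
  have h2 : min δ δ' ≤ δ' := min_le_right _ _
  have hA0 : 0 ≤ A := act_const_nonneg hA
  have hB0 : 0 ≤ B := act_const_nonneg hB
  have hD0 : 0 ≤ D := act_const_nonneg hD
  set ε := min δ δ' / 2 with hεd
  set F : ℕ × ℕ → ℂ := fun x => a x.1 * b x.2 * c (x.1 + x.2 + m) with hFd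
  have hF : Summable F := by
    refine act_summable2 hβ (A := A) (B := B) (C := D * Real.exp (ε * (m : ℝ) ^ β))
      (δ := δ) (δ' := δ') (ε := ε) (by linarith) (by linarith) (fun k l => ?_)
    have h3 : ((k + l + m : ℕ) : ℝ) ^ β ≤ (k : ℝ) ^ β + (l : ℝ) ^ β + (m : ℝ) ^ β := by
      have := act_rpow_add hβ hβ1 (k + l) m
      have := act_rpow_add hβ hβ1 k l
      linarith
    calc ‖F (k, l)‖ = ‖a k‖ * ‖b l‖ * ‖c (k + l + m)‖ := by simp only [hFd, norm_mul]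
      _ ≤ (A * Real.exp (-δ * (k : ℝ) ^ β)) * (B * Real.exp (-δ' * (l : ℝ) ^ β)) *
          (D * Real.exp (ε * ((k : ℝ) ^ β + (l : ℝ) ^ β + (m : ℝ) ^ β))) := by
          gcongr
          · exact hA k
          · exact hB l
          · exact (hD _).trans (by gcongr)
      _ = _ := by
          rw [show ε * ((k : ℝ) ^ β + (l : ℝ) ^ β + (m : ℝ) ^ β) =
            ε * (k : ℝ) ^ β + ε * (l : ℝ) ^ β + ε * (m : ℝ) ^ β by ring, Real.exp_add, Real.exp_add,
            show -(δ - ε) * (k : ℝ) ^ β = -δ * (k : ℝ) ^ β + ε * (k : ℝ) ^ β by ring,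
            show -(δ' - ε) * (l : ℝ) ^ β = -δ' * (l : ℝ) ^ β + ε * (l : ℝ) ^ β by ring,
            Real.exp_add, Real.exp_add]
          ring
  have hL : act (cmul a b) c m = ∑' n, ∑ k ∈ Finset.range (n + 1), F (k, n - k) := by
    simp only [act, cmul]
    refine tsum_congr fun n => ?_
    rw [Finset.sum_mul]
    refine Finset.sum_congr rfl fun k hk => ?_
    have : k ≤ n := Nat.lt_succ_iff.mp (Finset.mem_range.mp hk)
    simp only [hFd]
    rw [show k + (n - k) + m = n + m by omega]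
  rw [hL, act_tsum_antidiag hF]
  simp only [act]
  refine tsum_congr fun k => ?_
  rw [← tsum_mul_left]
  refine tsum_congr fun l => ?_
  simp only [hFd]
  rw [show k + l + m = l + (k + m) by omega]
  ring

private theorem act_tsum_shift {f : ℕ → ℂ} (k : ℕ) (hf : ∀ n, n < k → f n = 0) :
    ∑' n, f n = ∑' n, f (n + k) := by
  have hinj : Function.Injective (fun n : ℕ => n + k) := add_left_injective k
  rw [← hinj.tsum_eq (f := f)]
  intro n hn
  rw [Function.mem_support] at hn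
  have : k ≤ n := by
    by_contra h
    push Not at h
    exact hn (hf n h)
  exact ⟨n - k, by simp [Nat.sub_add_cancel this]⟩

theorem act_sh (hβ : 0 < β) (hβ1 : β ≤ 1) {a c : ℕ → ℂ} (ha : Gv β a) (hc : Gd β c) (k m : ℕ) :
    act (sh k a) c m = act a c (m + k) := by
  simp only [act]
  rw [act_tsum_shift k]
  · refine tsum_congr fun n => ?_
    simp only [sh, Nat.le_add_left, if_true, Nat.add_sub_cancel]
    rw [show n + k + m = n + (m + k) by omega]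
  · intro n hn
    simp only [sh, not_le.mpr hn, if_false, zero_mul]

theorem pr_eq_act (a c : ℕ → ℂ) : pr c a = act a c 0 := by
  simp [pr, act]

private theorem act_half_add (hβ : 0 < β) (j i : ℕ) :
    ((j : ℝ) ^ β + (i : ℝ) ^ β) / 2 ≤ ((j + 1 + i : ℕ) : ℝ) ^ β := by
  have h1 : (j : ℝ) ^ β ≤ ((j + 1 + i : ℕ) : ℝ) ^ β := by
    apply Real.rpow_le_rpow (Nat.cast_nonneg _) _ hβ.le
    push_cast; have := Nat.cast_nonneg (α := ℝ) i; linarith
  have h2 : (i : ℝ) ^ β ≤ ((j + 1 + i : ℕ) : ℝ) ^ β := by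
    apply Real.rpow_le_rpow (Nat.cast_nonneg _) _ hβ.le
    push_cast; have := Nat.cast_nonneg (α := ℝ) j; linarith
  linarith

private theorem act_hh_term (hβ : 0 < β) {A δ B : ℝ} {a b : ℕ → ℂ} (hδ : 0 < δ)
    (ha : ∀ n : ℕ, ‖a n‖ ≤ A * Real.exp (-δ * (n : ℝ) ^ β))
    (hb : ∀ n : ℕ, ‖b n‖ ≤ B * Real.exp (δ / 4 * (n : ℝ) ^ β)) (j i : ℕ) :
    ‖a (j + 1 + i) * b i‖ ≤ (A * B * Real.exp (-(δ / 2) * (j : ℝ) ^ β)) *
      Real.exp (-(δ / 4) * (i : ℝ) ^ β) := by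
  have hA : 0 ≤ A := act_const_nonneg ha
  have hB : 0 ≤ B := act_const_nonneg hb
  rw [norm_mul]
  calc ‖a (j + 1 + i)‖ * ‖b i‖
      ≤ (A * Real.exp (-δ * ((j + 1 + i : ℕ) : ℝ) ^ β)) * (B * Real.exp (δ / 4 * (i : ℝ) ^ β)) := by
        gcongr
        · exact ha _
        · exact hb i
    _ ≤ (A * Real.exp (-δ * (((j : ℝ) ^ β + (i : ℝ) ^ β) / 2))) *
        (B * Real.exp (δ / 4 * (i : ℝ) ^ β)) := by
        have h := act_half_add hβ j i
        have h2 : -δ * ((j + 1 + i : ℕ) : ℝ) ^ β ≤ -δ * (((j : ℝ) ^ β + (i : ℝ) ^ β) / 2) := by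
          nlinarith
        gcongr
    _ = _ := by
        rw [show -δ * (((j : ℝ) ^ β + (i : ℝ) ^ β) / 2) =
          -(δ / 2) * (j : ℝ) ^ β + -(δ / 2) * (i : ℝ) ^ β by ring, Real.exp_add,
          show -(δ / 4) * (i : ℝ) ^ β = -(δ / 2) * (i : ℝ) ^ β + δ / 4 * (i : ℝ) ^ β by ring,
          Real.exp_add]
        ring

private theorem act_hh_summable (hβ : 0 < β) {a b : ℕ → ℂ} (ha : Gv β a) (hb : Gd β b) (j : ℕ) :
    Summable fun i => a (j + 1 + i) * b i := by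
  obtain ⟨A, δ, hδ, hA⟩ := ha
  obtain ⟨B, hB⟩ := hb (δ / 4) (by linarith)
  refine Summable.of_norm_bounded ((summable_exp_neg hβ (by linarith : 0 < δ / 4)).mul_left _)
    (fun i => act_hh_term hβ hδ hA hB j i)

theorem Gv_hh (hβ : 0 < β) (hβ1 : β ≤ 1) {a b : ℕ → ℂ} (ha : Gv β a) (hb : Gd β b) :
    Gv β (hh a b) := by
  obtain ⟨A, δ, hδ, hA⟩ := id ha
  obtain ⟨B, hB⟩ := hb (δ / 4) (by linarith)
  have hs := summable_exp_neg hβ (by linarith : 0 < δ / 4)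
  refine ⟨A * B * ∑' i : ℕ, Real.exp (-(δ / 4) * (i : ℝ) ^ β), δ / 2, by linarith, fun j => ?_⟩
  calc ‖hh a b j‖ ≤ ∑' i : ℕ, (A * B * Real.exp (-(δ / 2) * (j : ℝ) ^ β)) *
      Real.exp (-(δ / 4) * (i : ℝ) ^ β) := by
        refine tsum_of_norm_bounded (hs.mul_left _).hasSum (fun i => ?_)
        exact act_hh_term hβ hδ hA hB j i
    _ = _ := by rw [tsum_mul_left]; ring

private theorem act_key (hβ : 0 < β) (hβ1 : β ≤ 1) {a a' b : ℕ → ℂ} (ha : InK β b a) (n : ℕ)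
    {F : ℕ × ℕ → ℂ} (hF : F = fun x : ℕ × ℕ => if n + 1 ≤ x.1 + x.2 then
      a' x.1 * a x.2 * b (x.1 + x.2 - (n + 1)) else 0) (hs : Summable F) :
    ∑' k, ∑' l, F (k, l) = cmul a' (hh a b) n := by
  have h1 : Summable fun k => ∑' l, F (k, l) := hs.prod
  rw [← h1.sum_add_tsum_nat_add (n + 1)]
  have h2 : ∀ k, ∑' l, F (k + (n + 1), l) = 0 := by
    intro k
    have : ∀ l, F (k + (n + 1), l) = a' (k + (n + 1)) * (a l * b (l + k)) := by
      intro l
      simp only [hF]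
      rw [if_pos (by omega), show k + (n + 1) + l - (n + 1) = l + k by omega]
      ring
    simp only [this, tsum_mul_left]
    have h3 := ha.2 k
    simp only [act] at h3
    rw [h3, mul_zero]
  simp only [h2, tsum_zero, add_zero]
  unfold cmul
  refine Finset.sum_congr rfl fun k hk => ?_
  have hk' : k ≤ n := Nat.lt_succ_iff.mp (Finset.mem_range.mp hk)
  rw [act_tsum_shift (n + 1 - k)]
  · unfold hh
    rw [← tsum_mul_left]
    refine tsum_congr fun i => ?_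
    simp only [hF]
    rw [if_pos (by omega), show k + (i + (n + 1 - k)) - (n + 1) = i by omega,
      show i + (n + 1 - k) = n - k + 1 + i by omega]
    ring
  · intro l hl
    simp only [hF]
    rw [if_neg (by omega)]

private theorem act_key_summable (hβ : 0 < β) (hβ1 : β ≤ 1) {a a' b : ℕ → ℂ} (hb : Gd β b)
    (ha : Gv β a) (ha' : Gv β a') (n : ℕ) :
    Summable (fun x : ℕ × ℕ => if n + 1 ≤ x.1 + x.2 then
      a' x.1 * a x.2 * b (x.1 + x.2 - (n + 1)) else 0) := by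
  obtain ⟨A, δ, hδ, hA⟩ := ha
  obtain ⟨B, δ', hδ', hB⟩ := ha'
  have hε : 0 < min δ δ' / 2 := by have := lt_min hδ hδ'; linarith
  obtain ⟨D, hD⟩ := hb (min δ δ' / 2) hε
  have h1 : min δ δ' ≤ δ := min_le_left _ _
  have h2 : min δ δ' ≤ δ' := min_le_right _ _
  have hA0 : 0 ≤ A := act_const_nonneg hA
  have hB0 : 0 ≤ B := act_const_nonneg hB
  have hD0 : 0 ≤ D := act_const_nonneg hD
  generalize hεd : min δ δ' / 2 = ε at *
  refine act_summable2 hβ (A := B) (B := A) (C := D)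
      (δ := δ') (δ' := δ) (ε := ε) (by linarith) (by linarith) (fun k l => ?_)
  have hnn : 0 ≤ B * Real.exp (-(δ' - ε) * (k : ℝ) ^ β) *
      (A * Real.exp (-(δ - ε) * (l : ℝ) ^ β)) * D := by positivity
  by_cases hkl : n + 1 ≤ k + l
  · have h3 : ((k + l - (n + 1) : ℕ) : ℝ) ^ β ≤ (k : ℝ) ^ β + (l : ℝ) ^ β := by
      refine le_trans ?_ (act_rpow_add hβ hβ1 k l)
      apply Real.rpow_le_rpow (Nat.cast_nonneg _) _ hβ.le
      exact_mod_cast Nat.sub_le _ _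
    simp only [if_pos hkl, norm_mul]
    calc ‖a' k‖ * ‖a l‖ * ‖b (k + l - (n + 1))‖
        ≤ (B * Real.exp (-δ' * (k : ℝ) ^ β)) * (A * Real.exp (-δ * (l : ℝ) ^ β)) *
          (D * Real.exp (ε * ((k : ℝ) ^ β + (l : ℝ) ^ β))) := by
          gcongr
          · exact hB k
          · exact hA l
          · exact (hD _).trans (by gcongr)
      _ = _ := by
          rw [show ε * ((k : ℝ) ^ β + (l : ℝ) ^ β) =
            ε * (k : ℝ) ^ β + ε * (l : ℝ) ^ β by ring, Real.exp_add,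
            show -(δ - ε) * (l : ℝ) ^ β = -δ * (l : ℝ) ^ β + ε * (l : ℝ) ^ β by ring,
            show -(δ' - ε) * (k : ℝ) ^ β = -δ' * (k : ℝ) ^ β + ε * (k : ℝ) ^ β by ring,
            Real.exp_add, Real.exp_add]
          ring
  · simp only [if_neg hkl, norm_zero]
    exact hnn

theorem cmul_hh_comm (hβ : 0 < β) (hβ1 : β ≤ 1) {a a' b : ℕ → ℂ} (hb : Gd β b) (ha : InK β b a)
    (ha' : InK β b a') : cmul a' (hh a b) = cmul a (hh a' b) := by
  funext n
  rw [← act_key hβ hβ1 (a' := a') ha n rfl (act_key_summable hβ hβ1 hb ha.1 ha'.1 n),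
    ← act_key hβ hβ1 (a' := a) ha' n rfl (act_key_summable hβ hβ1 hb ha'.1 ha.1 n)]
  have hcomm := (Summable.tsum_comm (f := fun k l : ℕ => if n + 1 ≤ k + l then
      a' k * a l * b (k + l - (n + 1)) else 0)
      (act_key_summable hβ hβ1 hb ha.1 ha'.1 n))
  simp only at hcomm ⊢
  rw [← hcomm]
  refine tsum_congr fun l => tsum_congr fun k => ?_
  rw [add_comm k l, mul_comm (a' k) (a l)]

end MP_9d6c91_an
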