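import Pool.Agent.Lib.MP_9d6c91_an.Maxi

/-!
# JOB COMP : comparison principle

`v = X/U`, `μ = U dt`.  For `t` let `m(t) = sup_{0<r≤π} X(B(t,r))/U(B(t,r))` (in `[0,∞]`).
By `Jr_ratio`, if `m(t) < ∞`, `Jr X ≤ 4 m Jr U`, so a.e. `v ≤ C₁ + C₁ (4m)^β (Jr U)^β / U ≤ A (1 + m^β)`, `A = A(C₁)`.
Hence for `τ ≥ 2A` (`1/β ≥ 2`): `v(t) > τ` implies `m(t) ≥ (τ/2A)²`, so there is `r ≤ π` with `X(B) ≥ (1/2)(τ/2A)² U(B) =: Λ U(B)`.
Split `X = X' + X''`, `X' = X 1_{v > Λ/2}`, `X'' ≤ (Λ/2) U` : `X'(B) ≥ (Λ/2) U(B)`; `weak_type` and periodicity give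
`(Λ/2) μ{v > τ, |t| ≤ π} ≤ N X'([-2π,2π]) ≤ 3 N ψ(Λ/2)` (or `2N`), `ψ(λ) = ∫_{|t|≤π, v>λ} X dt = ∫_{v>λ} v dμ`.
If `τ ≥ λ ≥ λ₀(A)` then `Λ/2 ≥ λ`, so `μ{v>τ} ≤ C A² τ^(-2) ψ(λ)` and
`ψ(λ) = λ μ{v>λ} + ∫_λ^∞ μ{v>τ} dτ ≤ (2 C A²/λ) ψ(λ) ≤ ψ(λ)/2` for `λ` large depending on `A`, `N`.  `ψ(λ) ≤ ∫ X < ∞`, so `ψ(λ) = 0`.
-/

set_option autoImplicit false

open MeasureTheory Complex Filter Topology Set
open scoped ENNReal Real

namespace MP_9d6c91_an

private theorem comp_period {F : ℝ → ℝ≥0∞} (hp : ∀ t, F (t + 2 * π) = F t) (a b : ℝ) :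
    ∫⁻ s in Icc (a + 2 * π) (b + 2 * π), F s = ∫⁻ s in Icc a b, F s := by
  have hmp : MeasurePreserving (fun s : ℝ => s + 2 * π) volume volume :=
    measurePreserving_add_right volume (2 * π)
  have hemb : MeasurableEmbedding (fun s : ℝ => s + 2 * π) := measurableEmbedding_addRight (2 * π)
  have h := hmp.setLIntegral_comp_preimage_emb hemb F (Icc (a + 2 * π) (b + 2 * π))
  rw [← h]
  have hpre : (fun s : ℝ => s + 2 * π) ⁻¹' Icc (a + 2 * π) (b + 2 * π) = Icc a b := by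
    ext s; simp
  rw [hpre]
  simp only [hp]

private theorem comp_triple {F : ℝ → ℝ≥0∞} (hp : ∀ t, F (t + 2 * π) = F t) :
    ∫⁻ s in Icc (-(2 * π)) (2 * π), F s ≤ 3 * ∫⁻ s in Icc (-π) π, F s := by
  have hpi := Real.pi_pos
  have h1 : ∫⁻ s in Icc (-π + 2 * π) (π + 2 * π), F s = ∫⁻ s in Icc (-π) π, F s := comp_period hp _ _
  have h2 : ∫⁻ s in Icc (-π) π, F s = ∫⁻ s in Icc (-π - 2 * π) (π - 2 * π), F s := by
    have := comp_period hp (-π - 2 * π) (π - 2 * π)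
    rwa [sub_add_cancel, sub_add_cancel] at this
  have hsub : Icc (-(2 * π)) (2 * π) ⊆
      (Icc (-π - 2 * π) (π - 2 * π) ∪ Icc (-π) π) ∪ Icc (-π + 2 * π) (π + 2 * π) := by
    intro s hs
    rcases hs with ⟨hs1, hs2⟩
    by_cases ha : s ≤ -π
    · left; left; constructor <;> linarith
    · by_cases hb : s ≤ π
      · left; right; constructor <;> linarith
      · right; constructor <;> linarith
  have e1 : ∫⁻ s in (Icc (-π - 2 * π) (π - 2 * π) ∪ Icc (-π) π) ∪ Icc (-π + 2 * π) (π + 2 * π), F s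
      ≤ (∫⁻ s in (Icc (-π - 2 * π) (π - 2 * π) ∪ Icc (-π) π), F s)
          + ∫⁻ s in Icc (-π + 2 * π) (π + 2 * π), F s :=
    lintegral_union_le F _ _
  have e2 : ∫⁻ s in (Icc (-π - 2 * π) (π - 2 * π) ∪ Icc (-π) π), F s
      ≤ (∫⁻ s in Icc (-π - 2 * π) (π - 2 * π), F s) + ∫⁻ s in Icc (-π) π, F s :=
    lintegral_union_le F _ _
  calc ∫⁻ s in Icc (-(2 * π)) (2 * π), F s
      ≤ _ := lintegral_mono_set hsub
    _ ≤ _ := e1
    _ ≤ _ := add_le_add_left e2 _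
    _ = 3 * ∫⁻ s in Icc (-π) π, F s := by
        rw [h1, ← h2]; ring

private theorem comp_finite {U : ℝ → ℝ} (hU : PX U) (a b : ℝ) :
    ∫⁻ s in Icc a b, ENNReal.ofReal (U s) < ∞ := by
  have hper : Function.Periodic U (2 * π) := hU.per
  have h0 : IntervalIntegrable U volume (-π) (-π + 2 * π) := by
    have : -π + 2 * π = π := by ring
    rw [this]; exact hU.int
  have h1 : IntervalIntegrable U volume a b := hper.intervalIntegrable (by positivity) h0 a b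
  by_cases hab : a ≤ b
  · have h2 : IntegrableOn U (Ioc a b) volume := by
      rwa [intervalIntegrable_iff_integrableOn_Ioc_of_le hab] at h1
    have h3 : IntegrableOn U (Icc a b) volume := by
      rwa [integrableOn_Icc_iff_integrableOn_Ioc]
    have h4 := h3.2
    rw [hasFiniteIntegral_iff_ofReal (Filter.Eventually.of_forall hU.nonneg)] at h4
    exact h4
  · rw [Icc_eq_empty (by linarith)]; simp

private theorem comp_point {β C₁ A : ℝ} (hβ : 0 < β) (hβ1 : β ≤ 1 / 2) (hC₁ : 0 ≤ C₁)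
    (hA : A = 2 * C₁ ^ 2 + C₁ + 1) {E : Set ℝ} (hE : GE E) (hne : E.Nonempty) {X U : ℝ → ℝ} (hX : PX X)
    (hU : PX U) (hpos : ∀ t, 0 < U t)
    {t : ℝ} (ht : t ∉ E) (h1 : X t ≤ C₁ * (U t + (Jr (dE E) X t) ^ β))
    (h2 : (Jr (dE E) U t) ^ β ≤ C₁ * U t) {τ : ℝ} (hτ : 2 * A ≤ τ) (hV : τ * U t < X t) :
    ∃ r : ℝ, 0 < r ∧ r ≤ π ∧ ENNReal.ofReal ((τ / (2 * A)) ^ 2) * ∫⁻ s in Metric.closedBall t r, ENNReal.ofReal (U s)
      < ∫⁻ s in Metric.closedBall t r, ENNReal.ofReal (X s) := by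
  by_contra hcon
  push Not at hcon
  have hA1 : 1 ≤ A := by rw [hA]; nlinarith [sq_nonneg C₁]
  have hA0 : 0 < A := by linarith
  have hm : 0 ≤ (τ / (2 * A)) ^ 2 := sq_nonneg _
  have hJ := Jr_ratio hE hne hX hU ht hm hcon
  have hJX : 0 ≤ Jr (dE E) X t := Jr_nonneg hX
  have hJU : 0 ≤ Jr (dE E) U t := Jr_nonneg hU
  have hUt := hpos t
  have hτA : 1 ≤ τ / A := by rw [le_div_iff₀ hA0]; linarith
  have h4m : 4 * (τ / (2 * A)) ^ 2 = (τ / A) ^ 2 := by field_simp; ring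
  have h3 : (Jr (dE E) X t) ^ β ≤ (τ / A) * (C₁ * U t) := by
    calc (Jr (dE E) X t) ^ β ≤ (4 * (τ / (2 * A)) ^ 2 * Jr (dE E) U t) ^ β :=
          Real.rpow_le_rpow hJX hJ hβ.le
      _ = ((τ / A) ^ 2) ^ β * (Jr (dE E) U t) ^ β := by
          rw [h4m, Real.mul_rpow (by positivity) hJU]
      _ ≤ ((τ / A) ^ 2) ^ (1 / 2 : ℝ) * (C₁ * U t) := by
          apply mul_le_mul
          · exact Real.rpow_le_rpow_of_exponent_le (by nlinarith) hβ1
          · exact h2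
          · exact Real.rpow_nonneg hJU _
          · exact Real.rpow_nonneg (by positivity) _
      _ = (τ / A) * (C₁ * U t) := by
          rw [← Real.sqrt_eq_rpow, Real.sqrt_sq (by linarith)]
  have h5 : X t ≤ C₁ * (1 + (τ / A) * C₁) * U t := by
    calc X t ≤ C₁ * (U t + (Jr (dE E) X t) ^ β) := h1
      _ ≤ C₁ * (U t + (τ / A) * (C₁ * U t)) := by gcongr
      _ = C₁ * (1 + (τ / A) * C₁) * U t := by ring
  have h6 : C₁ * (1 + (τ / A) * C₁) ≤ τ := by
    have h7 : (τ / A) * C₁ ^ 2 ≤ τ / 2 := by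
      rw [div_mul_eq_mul_div, div_le_div_iff₀ hA0 (by norm_num)]
      have : 2 * C₁ ^ 2 ≤ A := by rw [hA]; linarith
      have hτ0 : 0 ≤ τ := by linarith
      nlinarith
    have h8 : C₁ ≤ τ / 2 := by
      have : C₁ ≤ A := by rw [hA]; nlinarith [sq_nonneg C₁]
      linarith
    nlinarith
  have h9 : C₁ * (1 + (τ / A) * C₁) * U t ≤ τ * U t := mul_le_mul_of_nonneg_right h6 hUt.le
  linarith

private def compV (X U : ℝ → ℝ) (τ : ℝ) : Set ℝ := {t | τ * U t < X t}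

private theorem compV_meas {X U : ℝ → ℝ} (hX : PX X) (hU : PX U) (τ : ℝ) :
    MeasurableSet (compV X U τ) :=
  measurableSet_lt (hU.meas.const_mul τ) hX.meas

private theorem compV_anti {X U : ℝ → ℝ} (hpos : ∀ t, 0 < U t) {τ σ : ℝ} (h : τ ≤ σ) :
    compV X U σ ⊆ compV X U τ := by
  intro t ht
  have ht' : σ * U t < X t := ht
  have := mul_le_mul_of_nonneg_right h (hpos t).le
  show τ * U t < X t
  linarith

private theorem compV_per {X U : ℝ → ℝ} (hX : PX X) (hU : PX U) (τ t : ℝ) :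
    t + 2 * π ∈ compV X U τ ↔ t ∈ compV X U τ := by
  show τ * U (t + 2 * π) < X (t + 2 * π) ↔ τ * U t < X t
  rw [hX.per, hU.per]

/-- weak type inequality for the ratio -/
private theorem comp_weak {β C₁ A : ℝ} {N : ℕ} (hβ : 0 < β) (hβ1 : β ≤ 1 / 2) (hC₁ : 0 ≤ C₁)
    (hA : A = 2 * C₁ ^ 2 + C₁ + 1)
    (hN : ∀ (X U : ℝ → ℝ≥0∞), Measurable X → Measurable U → ∀ (Λ : ℝ≥0∞) (S : Set ℝ),
      S ⊆ Icc (-π) π →
      (∀ t ∈ S, ∃ r : ℝ, 0 < r ∧ r ≤ π ∧
        Λ * ∫⁻ s in Metric.closedBall t r, U s ≤ ∫⁻ s in Metric.closedBall t r, X s) →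
      Λ * ∫⁻ s in S, U s ≤ N * ∫⁻ s in Icc (-(2 * π)) (2 * π), X s)
    {E : Set ℝ} (hE : GE E) (hne : E.Nonempty) {X U : ℝ → ℝ} (hX : PX X)
    (hU : PX U) (hpos : ∀ t, 0 < U t)
    (h1 : ∀ᵐ t : ℝ, X t ≤ C₁ * (U t + (Jr (dE E) X t) ^ β))
    (h2 : ∀ᵐ t : ℝ, (Jr (dE E) U t) ^ β ≤ C₁ * U t) {lam τ : ℝ} (hlam : 8 * A ^ 2 ≤ lam) (hτ : lam ≤ τ) :
    ENNReal.ofReal (τ ^ 2 / (8 * A ^ 2)) * ∫⁻ s in compV X U τ ∩ Icc (-π) π, ENNReal.ofReal (U s)
      ≤ N * (3 * ∫⁻ s in Icc (-π) π, (compV X U lam).indicator (fun s => ENNReal.ofReal (X s)) s) := by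
  have hA1 : 1 ≤ A := by rw [hA]; nlinarith [sq_nonneg C₁]
  have hA0 : 0 < A := by linarith
  have hτA : 2 * A ≤ τ := by nlinarith
  have hτ0 : 0 ≤ τ := by linarith
  have hl0 : 0 < lam := by nlinarith
  set Λ : ℝ := (τ / (2 * A)) ^ 2 with hΛ
  have hΛ0 : 0 ≤ Λ := sq_nonneg _
  have hΛ2 : Λ / 2 = τ ^ 2 / (8 * A ^ 2) := by rw [hΛ]; field_simp; ring
  have hΛl : lam ≤ Λ / 2 := by
    rw [hΛ2, le_div_iff₀ (by positivity)]
    nlinarith
  have hUm : Measurable (fun s => ENNReal.ofReal (U s)) := hU.meas.ennreal_ofReal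
  have hXm : Measurable (fun s => ENNReal.ofReal (X s)) := hX.meas.ennreal_ofReal
  set F : ℝ → ℝ≥0∞ := (compV X U (Λ / 2)).indicator (fun s => ENNReal.ofReal (X s)) with hF
  have hFm : Measurable F := hXm.indicator (compV_meas hX hU _)
  have hFper : ∀ t, F (t + 2 * π) = F t := by
    intro t
    by_cases hs : t ∈ compV X U (Λ / 2)
    · have hs' : t + 2 * π ∈ compV X U (Λ / 2) := (compV_per hX hU _ _).mpr hs
      simp only [hF, indicator, hs, hs', hX.per, if_true]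
    · have hs' : t + 2 * π ∉ compV X U (Λ / 2) := fun h => hs ((compV_per hX hU _ _).mp h)
      simp only [hF, indicator, hs, hs', if_false]
  set S : Set ℝ := {t | t ∈ Icc (-π) π ∧ ∃ r : ℝ, 0 < r ∧ r ≤ π ∧
      ENNReal.ofReal (Λ / 2) * ∫⁻ s in Metric.closedBall t r, ENNReal.ofReal (U s)
        ≤ ∫⁻ s in Metric.closedBall t r, F s} with hS
  have hw := hN F (fun s => ENNReal.ofReal (U s)) hFm hUm (ENNReal.ofReal (Λ / 2)) S
    (fun t ht => ht.1) (fun t ht => ht.2)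
  -- almost every point of the superlevel set is in `S`
  have hae : ∀ᵐ t : ℝ, t ∈ compV X U τ ∩ Icc (-π) π → t ∈ S := by
    have hnull : ∀ᵐ t : ℝ, t ∉ E := by
      have := hE.null
      exact measure_eq_zero_iff_ae_notMem.mp this
    filter_upwards [hnull, h1, h2] with t ht ht1 ht2 htV
    refine ⟨htV.2, ?_⟩
    obtain ⟨r, hr0, hr1, hr⟩ := comp_point hβ hβ1 hC₁ hA hE hne hX hU hpos ht ht1 ht2 hτA htV.1
    refine ⟨r, hr0, hr1, ?_⟩
    set a : ℝ≥0∞ := ∫⁻ s in Metric.closedBall t r, ENNReal.ofReal (U s) with ha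
    have hafin : a ≠ ∞ := by
      rw [ha, Real.closedBall_eq_Icc]
      exact (comp_finite hU _ _).ne
    have hsplit : ∫⁻ s in Metric.closedBall t r, ENNReal.ofReal (X s)
        ≤ (∫⁻ s in Metric.closedBall t r, F s) + ENNReal.ofReal (Λ / 2) * a := by
      rw [ha, ← lintegral_const_mul _ hUm, ← lintegral_add_left hFm]
      apply lintegral_mono
      intro s
      by_cases hs : s ∈ compV X U (Λ / 2)
      · have : F s = ENNReal.ofReal (X s) := by simp only [hF, indicator, hs, if_true]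
        simp only [this]
        exact le_self_add
      · have : F s = 0 := by simp only [hF, indicator, hs, if_false]
        simp only [this, zero_add]
        rw [← ENNReal.ofReal_mul (by linarith)]
        apply ENNReal.ofReal_le_ofReal
        have : ¬ (Λ / 2 * U s < X s) := hs
        linarith
    have hdouble : ENNReal.ofReal Λ * a = ENNReal.ofReal (Λ / 2) * a + ENNReal.ofReal (Λ / 2) * a := by
      rw [← add_mul, ← ENNReal.ofReal_add (by linarith) (by linarith)]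
      congr 2; ring
    rw [hdouble] at hr
    have hlt := lt_of_lt_of_le hr hsplit
    have hfin : ENNReal.ofReal (Λ / 2) * a ≠ ∞ := ENNReal.mul_ne_top ENNReal.ofReal_ne_top hafin
    exact (ENNReal.add_lt_add_iff_right hfin).mp hlt |>.le
  have hmono : ∫⁻ s in compV X U τ ∩ Icc (-π) π, ENNReal.ofReal (U s)
      ≤ ∫⁻ s in S, ENNReal.ofReal (U s) := lintegral_mono_set' hae
  have hFle : ∫⁻ s in Icc (-π) π, F s
      ≤ ∫⁻ s in Icc (-π) π, (compV X U lam).indicator (fun s => ENNReal.ofReal (X s)) s := by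
    apply lintegral_mono
    intro s
    exact indicator_le_indicator_of_subset (compV_anti hpos hΛl) (fun _ => bot_le) s
  calc ENNReal.ofReal (τ ^ 2 / (8 * A ^ 2)) * ∫⁻ s in compV X U τ ∩ Icc (-π) π, ENNReal.ofReal (U s)
      ≤ ENNReal.ofReal (Λ / 2) * ∫⁻ s in S, ENNReal.ofReal (U s) := by
        rw [hΛ2]; gcongr
    _ ≤ N * ∫⁻ s in Icc (-(2 * π)) (2 * π), F s := hw
    _ ≤ N * (3 * ∫⁻ s in Icc (-π) π, F s) := by
        gcongr
        exact comp_triple hFper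
    _ ≤ _ := by gcongr

theorem comp {β C₁ : ℝ} (hβ : 0 < β) (hβ1 : β ≤ 1 / 2) (hC₁ : 0 ≤ C₁) :
    ∃ C₂ : ℝ, 0 < C₂ ∧ ∀ (E : Set ℝ) (X U : ℝ → ℝ), GE E → E.Nonempty → PX X → PX U → (∀ t, 0 < U t) →
      (∀ᵐ t : ℝ, X t ≤ C₁ * (U t + (Jr (dE E) X t) ^ β)) →
      (∀ᵐ t : ℝ, (Jr (dE E) U t) ^ β ≤ C₁ * U t) →
      ∀ᵐ t : ℝ, X t ≤ C₂ * U t := by
  obtain ⟨N, hN⟩ := weak_type
  set A : ℝ := 2 * C₁ ^ 2 + C₁ + 1 with hA
  have hA1 : 1 ≤ A := by rw [hA]; nlinarith [sq_nonneg C₁]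
  have hA0 : 0 < A := by linarith
  set lam : ℝ := 192 * N * A ^ 2 + 8 * A ^ 2 with hlam
  have hN0 : (0 : ℝ) ≤ N := Nat.cast_nonneg N
  have hl8 : 8 * A ^ 2 ≤ lam := by rw [hlam]; have : 0 ≤ 192 * N * A ^ 2 := by positivity
                                   linarith
  have hl192 : 192 * N * A ^ 2 ≤ lam := by rw [hlam]; nlinarith
  have hl0 : 0 < lam := by nlinarith
  refine ⟨lam, hl0, ?_⟩
  intro E X U hE hne hX hU hpos h1 h2
  have hUm : Measurable (fun s => ENNReal.ofReal (U s)) := hU.meas.ennreal_ofReal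
  have hXm : Measurable (fun s => ENNReal.ofReal (X s)) := hX.meas.ennreal_ofReal
  set F : ℝ → ℝ≥0∞ := (compV X U lam).indicator (fun s => ENNReal.ofReal (X s)) with hF
  set Ψ : ℝ≥0∞ := ∫⁻ s in Icc (-π) π, F s with hΨ
  have hFm : Measurable F := hXm.indicator (compV_meas hX hU _)
  have hΨfin : Ψ < ∞ := by
    refine lt_of_le_of_lt ?_ (comp_finite hX (-π) π)
    apply lintegral_mono
    intro s
    exact indicator_le_self _ _ s
  have hΨeq : Ψ = ∫⁻ s in compV X U lam ∩ Icc (-π) π, ENNReal.ofReal (X s) := by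
    rw [hΨ, hF, lintegral_indicator (compV_meas hX hU _), Measure.restrict_restrict (compV_meas hX hU _)]
  -- the dyadic pieces
  set D : ℕ → Set ℝ := fun k => (compV X U (2 ^ k * lam) \ compV X U (2 ^ (k + 1) * lam)) ∩ Icc (-π) π with hD
  have hcover : compV X U lam ∩ Icc (-π) π ⊆ ⋃ k, D k := by
    rintro t ⟨htV, htI⟩
    have hex : ∃ k : ℕ, t ∉ compV X U (2 ^ k * lam) := by
      obtain ⟨k, hk⟩ := pow_unbounded_of_one_lt (X t / (lam * U t)) (one_lt_two)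
      refine ⟨k, ?_⟩
      have hpos' : 0 < lam * U t := mul_pos hl0 (hpos t)
      rw [div_lt_iff₀ hpos'] at hk
      intro hcon
      have : 2 ^ k * lam * U t < X t := hcon
      nlinarith
    classical
    set k := Nat.find hex with hk
    have hk1 : t ∉ compV X U (2 ^ k * lam) := Nat.find_spec hex
    have hk0 : k ≠ 0 := by
      intro h0
      rw [h0] at hk1
      simp only [pow_zero, one_mul] at hk1
      exact hk1 htV
    obtain ⟨j, hj⟩ := Nat.exists_eq_succ_of_ne_zero hk0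
    have hj1 : t ∈ compV X U (2 ^ j * lam) := by
      by_contra hcon
      have := Nat.find_min' hex hcon
      omega
    rw [mem_iUnion]
    refine ⟨j, ⟨hj1, ?_⟩, htI⟩
    rw [hj] at hk1
    exact hk1
  have hpiece : ∀ k : ℕ, ∫⁻ s in D k, ENNReal.ofReal (X s)
      ≤ ENNReal.ofReal (16 * A ^ 2 / lam) * (N * (3 * Ψ)) * (2⁻¹ : ℝ≥0∞) ^ k := by
    intro k
    set τ : ℝ := 2 ^ k * lam with hτ
    have hpow : (1 : ℝ) ≤ 2 ^ k := one_le_pow₀ (by norm_num)
    have hlτ : lam ≤ τ := by rw [hτ]; nlinarith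
    have hτ0 : 0 < τ := by linarith
    have hw := comp_weak hβ hβ1 hC₁ hA hN hE hne hX hU hpos h1 h2 hl8 hlτ
    have hDm : MeasurableSet (D k) :=
      ((compV_meas hX hU _).diff (compV_meas hX hU _)).inter measurableSet_Icc
    have e1 : ∫⁻ s in D k, ENNReal.ofReal (X s) ≤ ∫⁻ s in D k, ENNReal.ofReal (2 * τ) * ENNReal.ofReal (U s) := by
      apply setLIntegral_mono' hDm
      intro s hs
      rw [← ENNReal.ofReal_mul (by linarith)]
      apply ENNReal.ofReal_le_ofReal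
      have h3 : ¬ (2 ^ (k + 1) * lam * U s < X s) := hs.1.2
      have h4 : 2 ^ (k + 1) * lam = 2 * τ := by rw [hτ]; ring
      rw [h4] at h3
      linarith
    have e2 : ∫⁻ s in D k, ENNReal.ofReal (2 * τ) * ENNReal.ofReal (U s)
        ≤ ENNReal.ofReal (2 * τ) * ∫⁻ s in compV X U τ ∩ Icc (-π) π, ENNReal.ofReal (U s) := by
      rw [lintegral_const_mul _ hUm]
      gcongr
      intro s hs
      exact ⟨hs.1.1, hs.2⟩
    have e3 : ENNReal.ofReal (2 * τ) = ENNReal.ofReal (16 * A ^ 2 / τ) * ENNReal.ofReal (τ ^ 2 / (8 * A ^ 2)) := by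
      rw [← ENNReal.ofReal_mul (by positivity)]
      congr 1
      field_simp
      ring
    have e4 : ENNReal.ofReal (16 * A ^ 2 / τ) = ENNReal.ofReal (16 * A ^ 2 / lam) * (2⁻¹ : ℝ≥0∞) ^ k := by
      have : 16 * A ^ 2 / τ = 16 * A ^ 2 / lam * (2⁻¹ : ℝ) ^ k := by
        rw [hτ, inv_pow]; field_simp
      rw [this, ENNReal.ofReal_mul (by positivity), ENNReal.ofReal_pow (by norm_num)]
      congr 2
      rw [ENNReal.ofReal_inv_of_pos (by norm_num)]
      norm_num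
    calc ∫⁻ s in D k, ENNReal.ofReal (X s)
        ≤ ENNReal.ofReal (2 * τ) * ∫⁻ s in compV X U τ ∩ Icc (-π) π, ENNReal.ofReal (U s) := e1.trans e2
      _ = ENNReal.ofReal (16 * A ^ 2 / τ) * (ENNReal.ofReal (τ ^ 2 / (8 * A ^ 2)) *
            ∫⁻ s in compV X U τ ∩ Icc (-π) π, ENNReal.ofReal (U s)) := by rw [e3, mul_assoc]
      _ ≤ ENNReal.ofReal (16 * A ^ 2 / τ) * (N * (3 * Ψ)) := by gcongr
      _ = _ := by rw [e4]; ring
  have hsum : Ψ ≤ ENNReal.ofReal (16 * A ^ 2 / lam) * (N * (3 * Ψ)) * 2 := by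
    calc Ψ = ∫⁻ s in compV X U lam ∩ Icc (-π) π, ENNReal.ofReal (X s) := hΨeq
      _ ≤ ∫⁻ s in ⋃ k, D k, ENNReal.ofReal (X s) := lintegral_mono_set hcover
      _ ≤ ∑' k, ∫⁻ s in D k, ENNReal.ofReal (X s) := lintegral_iUnion_le _ _
      _ ≤ ∑' k : ℕ, ENNReal.ofReal (16 * A ^ 2 / lam) * (N * (3 * Ψ)) * (2⁻¹ : ℝ≥0∞) ^ k :=
          ENNReal.tsum_le_tsum hpiece
      _ = ENNReal.ofReal (16 * A ^ 2 / lam) * (N * (3 * Ψ)) * 2 := by
          rw [ENNReal.tsum_mul_left, ENNReal.tsum_geometric, ENNReal.one_sub_inv_two, inv_inv]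
  have hhalf : Ψ ≤ Ψ / 2 := by
    refine hsum.trans ?_
    have e5 : ENNReal.ofReal (16 * A ^ 2 / lam) * (N * (3 * Ψ)) * 2
        = ENNReal.ofReal (96 * N * A ^ 2 / lam) * Ψ := by
      have : 96 * N * A ^ 2 / lam = 16 * A ^ 2 / lam * (N * (3 * 2)) := by ring
      rw [this, ENNReal.ofReal_mul (by positivity), ENNReal.ofReal_mul (by positivity),
        ENNReal.ofReal_mul (by norm_num), ENNReal.ofReal_natCast]
      have h3 : ENNReal.ofReal 3 = 3 := by norm_num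
      have h2' : ENNReal.ofReal 2 = 2 := by norm_num
      rw [h3, h2']
      ring
    rw [e5, ENNReal.div_eq_inv_mul]
    gcongr
    have : 96 * N * A ^ 2 / lam ≤ 2⁻¹ := by
      rw [div_le_iff₀ hl0]; linarith
    calc ENNReal.ofReal (96 * N * A ^ 2 / lam) ≤ ENNReal.ofReal 2⁻¹ := ENNReal.ofReal_le_ofReal this
      _ = 2⁻¹ := by rw [ENNReal.ofReal_inv_of_pos (by norm_num)]; norm_num
  have hΨ0 : Ψ = 0 := by
    by_contra hne0
    exact absurd (ENNReal.half_lt_self hne0 hΨfin.ne) (not_lt.mpr hhalf)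
  have hnullI : volume (compV X U lam ∩ Icc (-π) π) = 0 := by
    rw [hΨeq] at hΨ0
    rw [lintegral_eq_zero_iff hXm] at hΨ0
    have h3 : ∀ᵐ t : ℝ, t ∈ compV X U lam ∩ Icc (-π) π → ENNReal.ofReal (X t) = 0 := by
      have := (ae_restrict_iff' ((compV_meas hX hU lam).inter measurableSet_Icc)).mp hΨ0
      simpa using this
    have h4 : ∀ᵐ t : ℝ, t ∉ compV X U lam ∩ Icc (-π) π := by
      filter_upwards [h3] with t ht hmem
      have h5 := ht hmem
      rw [ENNReal.ofReal_eq_zero] at h5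
      have h6 : lam * U t < X t := hmem.1
      have h7 : 0 < lam * U t := mul_pos hl0 (hpos t)
      linarith
    exact measure_eq_zero_iff_ae_notMem.mpr h4
  -- periodicity
  have hperZ : ∀ (n : ℤ) (t : ℝ), t + n * (2 * π) ∈ compV X U lam ↔ t ∈ compV X U lam := by
    intro n t
    have hXp : X (t + n * (2 * π)) = X t := by
      have : Function.Periodic X (2 * π) := hX.per
      exact this.int_mul n t
    have hUp : U (t + n * (2 * π)) = U t := by
      have : Function.Periodic U (2 * π) := hU.per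
      exact this.int_mul n t
    show lam * U (t + n * (2 * π)) < X (t + n * (2 * π)) ↔ lam * U t < X t
    rw [hXp, hUp]
  have hall : volume (compV X U lam) = 0 := by
    have hsub : compV X U lam ⊆ ⋃ n : ℤ, (fun t : ℝ => t + n * (2 * π)) ⁻¹' (compV X U lam ∩ Icc (-π) π) := by
      intro t ht
      rw [mem_iUnion]
      refine ⟨-round (t / (2 * π)), ?_, ?_⟩
      · exact (hperZ _ t).mpr ht
      · have hr := abs_sub_round (t / (2 * π))
        have hpi := Real.pi_pos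
        rw [abs_le] at hr
        have e : t = t / (2 * π) * (2 * π) := by field_simp
        constructor
        · push_cast
          nlinarith [hr.1, hr.2]
        · push_cast
          nlinarith [hr.1, hr.2]
    refine measure_mono_null hsub ?_
    rw [measure_iUnion_null_iff]
    intro n
    rw [measure_preimage_add_right]
    exact hnullI
  have hfinal := measure_eq_zero_iff_ae_notMem.mp hall
  filter_upwards [hfinal] with t ht
  have : ¬ (lam * U t < X t) := ht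
  linarith

end MP_9d6c91_an
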