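import Pool.Agent.Lib.MP_9d6c91_an.Local
import Pool.Agent.Lib.MP_9d6c91_an.Comp

/-!
# JOB APRI : `log⁺ |Φ| ≤ λ W + C_λ` for every `λ > 0`

`β = α/(1+α)`, `X t = LL Φ t`, `W = WW α β E u`, hypothesis `W ≤ C₁ (u + 1)` a.e.
Fix `ε ∈ (0,1]`, `κ = κ_ε` from `PhiD.out`.  `local_est` with `y = 0`: `X ≤ C₀ (κ + ε d^(-α) + ε^(1-β) J[X]^β)` off `E`.  `X~ = X/ε` :
`X~ ≤ C₀ (κ/ε + d^(-α) + J[X~]^β)` (`J[X] = ε J[X~]`, `ε^(1-β) ε^β = ε`).  `U = u + 1 + κ/ε`: `X~ ≤ C (U + J[X~]^β)` a.e. because `d^(-α) ≤ W ≤ C₁ (u+1)`.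
`J[U]^β ≤ J[u]^β + ((1+κ/ε) 2/d)^β ≤ W + 2 (1 + κ/ε)` using `(K/d)^β ≤ K + d^(-α)` for `K, d > 0` (Young, `α = β/(1-β)`).
`comp` (constants independent of `ε`) : `X ≤ C₂ ε U` a.e., so `J[X] ≤ C₂ ε (J[u] + (1 + κ/ε) 2/d)` off `E`.
Insert in `local_est` (same `ε`; `ε^(1-β) ε^β = ε`):
`LL Φ (t-iy) ≤ C₀ (κ + ε d^(-α) + ε C₂^β (W + 2 (1+κ/ε)))`.  Choose `ε` small depending on `λ`.
-/

set_option autoImplicit false

open MeasureTheory Complex Filter Topology Set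
open scoped ENNReal Real

namespace MP_9d6c91_an

/-- Young -/
private theorem apri_young {α K d : ℝ} (hα : 0 < α) (hK : 0 ≤ K) (hd : 0 < d) :
    (K / d) ^ (α / (1 + α)) ≤ K + d ^ (-α) := by
  set β := α / (1 + α) with hβ
  have h1α : 0 < 1 + α := by linarith
  have hβ0 : 0 < β := by positivity
  have hβ1 : β < 1 := by rw [hβ, div_lt_one h1α]; linarith
  have hdp : 0 < d ^ (-α) := Real.rpow_pos_of_pos hd _
  have h := Real.geom_mean_le_arith_mean2_weighted hβ0.le (by linarith : 0 ≤ 1 - β) hK hdp.le (by ring)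
  have h2 : (d ^ (-α)) ^ (1 - β) = d ^ (-β) := by
    rw [← Real.rpow_mul hd.le]
    congr 1
    rw [hβ]
    field_simp
    ring
  have h3 : (K / d) ^ β = K ^ β * d ^ (-β) := by
    rw [Real.div_rpow hK hd.le, Real.rpow_neg hd.le, div_eq_mul_inv]
  rw [h2] at h
  rw [h3]
  refine h.trans ?_
  have e1 : β * K ≤ K := by nlinarith
  have e2 : (1 - β) * d ^ (-α) ≤ d ^ (-α) := by nlinarith
  linarith

theorem apriori {α C₁ : ℝ} (hα : 0 < α) (hα1 : α < 1) {E : Set ℝ} (hE : GE E) (hne : E.Nonempty)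
    {Φ : ℂ → ℂ} (hΦ : PhiD α E Φ) {u : ℝ → ℝ} (hu : PX u) (hC₁ : 1 ≤ C₁)
    (hW : ∀ᵐ t : ℝ, WW α (α / (1 + α)) E u t ≤ C₁ * (u t + 1)) (lam : ℝ) (hlam : 0 < lam) :
    ∃ C : ℝ, 0 ≤ C ∧ ∀ t y : ℝ, t ∉ E → 0 ≤ y → y ≤ 1 →
      LL Φ (Complex.mk t (-y)) ≤ lam * WW α (α / (1 + α)) E u t + C := by
  have h1α : 0 < 1 + α := by linarith
  obtain ⟨C₀, hC₀, hloc⟩ := local_est hα hα1
  have hβ0 : 0 < α / (1 + α) := by positivity
  have hβ2 : α / (1 + α) ≤ 1 / 2 := by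
    rw [div_le_div_iff₀ h1α (by norm_num)]
    linarith
  obtain ⟨C₂, hC₂, hcomp⟩ := comp hβ0 hβ2 (show 0 ≤ C₀ * C₁ + C₁ + 2 by positivity)
  have hyoung : ∀ K d : ℝ, 0 ≤ K → 0 < d → (K / d) ^ (α / (1 + α)) ≤ K + d ^ (-α) :=
    fun K d hK hd => apri_young hα hK hd
  set β := α / (1 + α) with hβ
  have hC₂β : 0 ≤ C₂ ^ β := Real.rpow_nonneg hC₂.le _
  -- choice of ε
  set D : ℝ := C₀ * (1 + C₂ ^ β) with hD
  have hD0 : 0 < D := by positivity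
  obtain ⟨ε, hε0, hε1, hεD⟩ : ∃ ε : ℝ, 0 < ε ∧ ε ≤ 1 ∧ D * ε ≤ lam := by
    refine ⟨min 1 (lam / D), lt_min one_pos (by positivity), min_le_left _ _, ?_⟩
    calc D * min 1 (lam / D) ≤ D * (lam / D) := mul_le_mul_of_nonneg_left (min_le_right _ _) hD0.le
      _ = lam := by field_simp
  obtain ⟨κ, hκ, hout⟩ := hΦ.out ε hε0
  have hstar := hloc E Φ hE hne hΦ ε κ hε0 hε1 hκ hout
  have hX := hΦ.px
  set X : ℝ → ℝ := fun s : ℝ => LL Φ (s : ℂ) with hXdef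
  have hεβ : ε ^ (1 - β) * ε ^ β = ε := by
    rw [← Real.rpow_add hε0]
    simp
  have hεβ0 : 0 ≤ ε ^ (1 - β) := Real.rpow_nonneg hε0.le _
  -- rescaled function
  set Y : ℝ → ℝ := fun s => ε⁻¹ * X s with hY
  have hYP : PX Y := PX.smul (by positivity) hX
  set K₁ : ℝ := 1 + κ / ε with hK₁
  have hK₁0 : 1 ≤ K₁ := by
    have : 0 ≤ κ / ε := by positivity
    linarith
  set U : ℝ → ℝ := fun s => u s + K₁ with hU
  have hUP : PX U := PX.add hu (PX.const (by linarith))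
  have hUpos : ∀ t, 0 < U t := fun t => by
    have := hu.nonneg t
    simp only [hU]
    linarith
  have hEae : ∀ᵐ t : ℝ, t ∉ E := by
    rw [ae_iff]
    simpa using hE.null
  have hJX : ∀ t, Jr (dE E) X t = ε * Jr (dE E) Y t := by
    intro t
    rw [hY, Jr_smul]
    field_simp
  have hJYn : ∀ t, 0 ≤ Jr (dE E) Y t := fun t => Jr_nonneg hYP
  have hJun : ∀ t, 0 ≤ Jr (dE E) u t := fun t => Jr_nonneg hu
  -- first inequality
  have hc1 : ∀ᵐ t : ℝ, Y t ≤ (C₀ * C₁ + C₁ + 2) * (U t + (Jr (dE E) Y t) ^ β) := by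
    filter_upwards [hW, hEae] with t htW htE
    have hd : 0 < dE E t := dE_pos hE hne htE
    have h0 := hstar t 0 htE le_rfl zero_le_one
    have h00 : (Complex.mk t (-0) : ℂ) = (t : ℂ) := by
      rw [neg_zero]; rfl
    rw [h00] at h0
    have hdW : (dE E t) ^ (-α) ≤ C₁ * (u t + 1) := by
      have : 0 ≤ (Jr (dE E) u t) ^ β := Real.rpow_nonneg (hJun t) _
      have h2 : (dE E t) ^ (-α) + (Jr (dE E) u t) ^ β ≤ C₁ * (u t + 1) := htW
      linarith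
    have hJY0 : 0 ≤ (Jr (dE E) Y t) ^ β := Real.rpow_nonneg (hJYn t) _
    have h3 : ε ^ (1 - β) * (Jr (dE E) X t) ^ β = ε * (Jr (dE E) Y t) ^ β := by
      rw [hJX t, Real.mul_rpow hε0.le (hJYn t), ← mul_assoc, hεβ]
    have h4 : X t ≤ C₀ * (κ + ε * (dE E t) ^ (-α) + ε * (Jr (dE E) Y t) ^ β) := by
      have : X t ≤ C₀ * (κ + ε * (dE E t) ^ (-α) + ε ^ (1 - β) * (Jr (dE E) X t) ^ β) := h0
      rwa [h3] at this
    have h5 : Y t ≤ C₀ * (κ / ε + (dE E t) ^ (-α) + (Jr (dE E) Y t) ^ β) := by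
      have : Y t ≤ ε⁻¹ * (C₀ * (κ + ε * (dE E t) ^ (-α) + ε * (Jr (dE E) Y t) ^ β)) :=
        mul_le_mul_of_nonneg_left h4 (by positivity)
      refine this.trans (le_of_eq ?_)
      field_simp
    have hu0 := hu.nonneg t
    have hκε : 0 ≤ κ / ε := by positivity
    have h6 : κ / ε + (dE E t) ^ (-α) + (Jr (dE E) Y t) ^ β ≤ C₁ * (U t + (Jr (dE E) Y t) ^ β) := by
      simp only [hU, hK₁]
      nlinarith
    have h7 : C₀ * (κ / ε + (dE E t) ^ (-α) + (Jr (dE E) Y t) ^ β) ≤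
        C₀ * (C₁ * (U t + (Jr (dE E) Y t) ^ β)) := mul_le_mul_of_nonneg_left h6 (by linarith)
    have h8 : 0 ≤ U t + (Jr (dE E) Y t) ^ β := add_nonneg (hUpos t).le hJY0
    nlinarith
  have hJU : ∀ t, t ∉ E → Jr (dE E) U t ≤ Jr (dE E) u t + 2 * K₁ / dE E t := by
    intro t htE
    have hd : 0 < dE E t := dE_pos hE hne htE
    have e1 : Jr (dE E) U t = Jr (dE E) u t + K₁ * Jr (dE E) (fun _ => 1) t := by
      have := Jr_add hE hne hu (PX.const (show 0 ≤ K₁ by linarith)) htE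
      rw [hU, this]
      congr 1
      have h2 := Jr_smul (E := E) (X := fun _ => 1) (t := t) K₁
      rw [← h2]
      simp
    have e2 := Jr_one_le hE hne htE
    have e3 : K₁ * Jr (dE E) (fun _ => 1) t ≤ K₁ * (2 / dE E t) := mul_le_mul_of_nonneg_left e2 (by linarith)
    rw [e1]
    have e4 : K₁ * (2 / dE E t) = 2 * K₁ / dE E t := by ring
    linarith
  have hpow : ∀ t, t ∉ E → (Jr (dE E) u t + 2 * K₁ / dE E t) ^ β ≤ WW α β E u t + 2 * K₁ := by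
    intro t htE
    have hd : 0 < dE E t := dE_pos hE hne htE
    have e1 : (Jr (dE E) u t + 2 * K₁ / dE E t) ^ β ≤ (Jr (dE E) u t) ^ β + (2 * K₁ / dE E t) ^ β :=
      Real.rpow_add_le_add_rpow (hJun t) (by positivity) hβ0.le (by linarith)
    have e2 := hyoung (2 * K₁) (dE E t) (by linarith) hd
    have e3 : WW α β E u t = (dE E t) ^ (-α) + (Jr (dE E) u t) ^ β := rfl
    rw [e3]
    linarith
  have hc2 : ∀ᵐ t : ℝ, (Jr (dE E) U t) ^ β ≤ (C₀ * C₁ + C₁ + 2) * U t := by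
    filter_upwards [hW, hEae] with t htW htE
    have e1 : (Jr (dE E) U t) ^ β ≤ (Jr (dE E) u t + 2 * K₁ / dE E t) ^ β :=
      Real.rpow_le_rpow (Jr_nonneg hUP) (hJU t htE) hβ0.le
    have e2 := hpow t htE
    have hu0 := hu.nonneg t
    have hκε : 0 ≤ κ / ε := by positivity
    have e3 : C₁ * (u t + 1) + 2 * K₁ ≤ (C₁ + 2) * U t := by
      simp only [hU, hK₁]
      nlinarith
    have e4 : (C₁ + 2) * U t ≤ (C₀ * C₁ + C₁ + 2) * U t := by
      apply mul_le_mul_of_nonneg_right _ (hUpos t).le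
      have : 0 ≤ C₀ * C₁ := by positivity
      linarith
    linarith
  have hYU := hcomp E Y U hE hne hYP hUP hUpos hc1 hc2
  have hXU : ∀ᵐ t : ℝ, X t ≤ (C₂ * ε) * U t := by
    filter_upwards [hYU] with t ht
    have : ε * Y t ≤ ε * (C₂ * U t) := mul_le_mul_of_nonneg_left ht hε0.le
    have e : ε * Y t = X t := by
      simp only [hY]
      field_simp
    rw [e] at this
    linarith
  have hJXle : ∀ t, t ∉ E → Jr (dE E) X t ≤ (C₂ * ε) * (Jr (dE E) u t + 2 * K₁ / dE E t) := by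
    intro t htE
    have e1 := Jr_mono_ae hE hne hX (PX.smul (show 0 ≤ C₂ * ε by positivity) hUP) htE hXU
    rw [Jr_smul] at e1
    exact e1.trans (mul_le_mul_of_nonneg_left (hJU t htE) (by positivity))
  refine ⟨C₀ * (κ + ε * (C₂ ^ β * (2 * K₁))), by positivity, ?_⟩
  intro t y htE hy0 hy1
  have hd : 0 < dE E t := dE_pos hE hne htE
  have h0 := hstar t y htE hy0 hy1
  have hWn : 0 ≤ WW α β E u t := by
    have e3 : WW α β E u t = (dE E t) ^ (-α) + (Jr (dE E) u t) ^ β := rfl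
    rw [e3]
    exact add_nonneg (Real.rpow_nonneg hd.le _) (Real.rpow_nonneg (hJun t) _)
  have hdW : (dE E t) ^ (-α) ≤ WW α β E u t := by
    have e3 : WW α β E u t = (dE E t) ^ (-α) + (Jr (dE E) u t) ^ β := rfl
    rw [e3]
    linarith [Real.rpow_nonneg (hJun t) β]
  have hS0 : 0 ≤ Jr (dE E) u t + 2 * K₁ / dE E t := add_nonneg (hJun t) (by positivity)
  have h1 : (Jr (dE E) X t) ^ β ≤ C₂ ^ β * ε ^ β * (WW α β E u t + 2 * K₁) := by
    calc (Jr (dE E) X t) ^ β ≤ ((C₂ * ε) * (Jr (dE E) u t + 2 * K₁ / dE E t)) ^ β :=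
          Real.rpow_le_rpow (Jr_nonneg hX) (hJXle t htE) hβ0.le
      _ = C₂ ^ β * ε ^ β * (Jr (dE E) u t + 2 * K₁ / dE E t) ^ β := by
          rw [Real.mul_rpow (by positivity) hS0, Real.mul_rpow hC₂.le hε0.le]
      _ ≤ C₂ ^ β * ε ^ β * (WW α β E u t + 2 * K₁) :=
          mul_le_mul_of_nonneg_left (hpow t htE) (by positivity)
  have h2 : ε ^ (1 - β) * (Jr (dE E) X t) ^ β ≤ ε * (C₂ ^ β * (WW α β E u t + 2 * K₁)) := by
    calc ε ^ (1 - β) * (Jr (dE E) X t) ^ β ≤ ε ^ (1 - β) * (C₂ ^ β * ε ^ β * (WW α β E u t + 2 * K₁)) :=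
          mul_le_mul_of_nonneg_left h1 hεβ0
      _ = (ε ^ (1 - β) * ε ^ β) * (C₂ ^ β * (WW α β E u t + 2 * K₁)) := by ring
      _ = ε * (C₂ ^ β * (WW α β E u t + 2 * K₁)) := by rw [hεβ]
  have h3 : κ + ε * (dE E t) ^ (-α) + ε ^ (1 - β) * (Jr (dE E) X t) ^ β ≤
      κ + ε * WW α β E u t + ε * (C₂ ^ β * (WW α β E u t + 2 * K₁)) := by
    have : ε * (dE E t) ^ (-α) ≤ ε * WW α β E u t := mul_le_mul_of_nonneg_left hdW hε0.le
    linarith
  have h4 : LL Φ (Complex.mk t (-y)) ≤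
      C₀ * (κ + ε * WW α β E u t + ε * (C₂ ^ β * (WW α β E u t + 2 * K₁))) :=
    h0.trans (mul_le_mul_of_nonneg_left h3 (by linarith))
  have h5 : C₀ * (κ + ε * WW α β E u t + ε * (C₂ ^ β * (WW α β E u t + 2 * K₁))) =
      (D * ε) * WW α β E u t + C₀ * (κ + ε * (C₂ ^ β * (2 * K₁))) := by
    rw [hD]; ring
  rw [h5] at h4
  have h6 : (D * ε) * WW α β E u t ≤ lam * WW α β E u t := mul_le_mul_of_nonneg_right hεD hWn
  linarith

end MP_9d6c91_an
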