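import Pool.Agent.Lib.MP_9d6c91_an.BeurA

/-!
# JOB BEURB : Beurling theorem in `ℓ²` (algebraic part)

`M` = closure of `I` in `ℓ²(ℕ)`; shift invariant, `≠ 0`; `M ≠ z M` (otherwise `M ⊆ ⋂ z^n ℓ² = 0`), so
there is a unit vector `s ∈ M ⊖ z M`; `(z^n s)` is orthonormal, so `‖s h‖ = ‖h‖` for all `h ∈ ℓ²`
(Cauchy products).  `M ⊖ z M = ℂ s`: if `s'` is another unit vector orthogonal to `s`, then
`z^n s ⊥ z^m s'` for all `n, m`, so `s * s' = ∑ s'_n z^n s` is orthogonal to `s' * s = ∑ s_n z^n s'`;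
these are equal and have norm one, contradiction.  So `M = {s h}` : if `a ∈ M` is orthogonal to all
`z^n s` then `a ∈ ⋂ z^n M = 0`.  The formula for `h` follows from the isometry (inner product of `a = s h` with
`z^j s`).
-/

set_option autoImplicit false

open MeasureTheory Complex Filter Topology Set
open scoped ENNReal Real ComplexConjugate

namespace MP_9d6c91_an

/-- the Hilbert space of square summable sequences -/
private abbrev HH : Type := ↥(lp (fun _ : ℕ => ℂ) 2)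

private theorem beurB_mem {f : ℕ → ℂ} (hf : Summable fun n => ‖f n‖ ^ 2) :
    Memℓp f (2 : ℝ≥0∞) := by
  apply memℓp_gen
  simpa using hf

private theorem beurB_summable (f : HH) : Summable fun n => ‖f n‖ ^ 2 := by
  have h := (lp.memℓp f).summable (by norm_num : 0 < (2 : ℝ≥0∞).toReal)
  simpa using h

private theorem beurB_norm (f : HH) : ‖f‖ ^ 2 = ∑' n, ‖f n‖ ^ 2 := by
  have h := lp.norm_rpow_eq_tsum (by norm_num : 0 < (2 : ℝ≥0∞).toReal) f
  simpa using h

private theorem beurB_sh_sum {f : ℕ → ℂ} (hf : Summable fun n => ‖f n‖ ^ 2) :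
    Summable fun n => ‖sh 1 f n‖ ^ 2 := by
  rw [← summable_nat_add_iff 1]
  simpa [sh] using hf

private theorem beurB_sh_tsum {f : ℕ → ℂ} (hf : Summable fun n => ‖f n‖ ^ 2) :
    ∑' n, ‖sh 1 f n‖ ^ 2 = ∑' n, ‖f n‖ ^ 2 := by
  rw [(beurB_sh_sum hf).tsum_eq_zero_add]
  simp [sh]

/-- the unilateral shift -/
private noncomputable def SS : HH →ₗᵢ[ℂ] HH where
  toFun f := ⟨sh 1 (f : ℕ → ℂ), beurB_mem (beurB_sh_sum (beurB_summable f))⟩
  map_add' f g := by
    apply lp.ext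
    funext n
    simp only [sh, lp.coeFn_add, Pi.add_apply]
    split_ifs <;> simp
  map_smul' c f := by
    apply lp.ext
    funext n
    simp only [sh, lp.coeFn_smul, Pi.smul_apply, RingHom.id_apply]
    split_ifs <;> simp
  norm_map' f := by
    have h1 := beurB_norm (⟨sh 1 (f : ℕ → ℂ), beurB_mem (beurB_sh_sum (beurB_summable f))⟩ : HH)
    have h2 := beurB_norm f
    have h3 := beurB_sh_tsum (beurB_summable f)
    have h4 : ‖(⟨sh 1 (f : ℕ → ℂ), beurB_mem (beurB_sh_sum (beurB_summable f))⟩ : HH)‖ ^ 2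
        = ‖f‖ ^ 2 := by
      rw [h1, h2, ← h3]
    exact (pow_left_inj₀ (norm_nonneg _) (norm_nonneg _) two_ne_zero).1 h4

private theorem SS_coe (f : HH) : ((SS f : HH) : ℕ → ℂ) = sh 1 (f : ℕ → ℂ) := rfl

private theorem SS_iter (f : HH) (n k : ℕ) :
    ((SS^[n] f : HH) : ℕ → ℂ) k = if n ≤ k then f (k - n) else 0 := by
  induction n generalizing k with
  | zero => simp
  | succ n ih =>
    rw [Function.iterate_succ_apply', SS_coe]
    simp only [sh]
    by_cases h : 1 ≤ k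
    · rw [if_pos h, ih]
      by_cases h2 : n + 1 ≤ k
      · rw [if_pos (by omega), if_pos h2, Nat.sub_sub, Nat.add_comm 1 n]
      · rw [if_neg (by omega), if_neg h2]
    · rw [if_neg h, if_neg (fun h3 => h (le_trans (Nat.le_add_left 1 n) h3))]

private theorem SS_inner (f g : HH) (n : ℕ) :
    inner ℂ (SS^[n] f) (SS^[n] g) = inner ℂ f g := by
  induction n with
  | zero => simp
  | succ n ih =>
    rw [Function.iterate_succ_apply', Function.iterate_succ_apply', LinearIsometry.inner_map_map, ih]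

private theorem SS_orth {s t : HH} (h0 : inner ℂ s t = 0)
    (h1 : ∀ n, 1 ≤ n → inner ℂ (SS^[n] s) t = 0) (h2 : ∀ n, 1 ≤ n → inner ℂ s (SS^[n] t) = 0)
    (n m : ℕ) : inner ℂ (SS^[n] s) (SS^[m] t) = 0 := by
  rcases lt_trichotomy n m with h | h | h
  · have : SS^[m] t = SS^[n] (SS^[m - n] t) := by
      rw [← Function.iterate_add_apply]; congr 1; omega
    rw [this, SS_inner]
    exact h2 _ (by omega)
  · subst h
    rw [SS_inner, h0]
  · have : SS^[n] s = SS^[m] (SS^[n - m] s) := by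
      rw [← Function.iterate_add_apply]; congr 1; omega
    rw [this, SS_inner]
    exact h1 _ (by omega)

private theorem SS_orthonormal {s : HH} (hs : ‖s‖ = 1)
    (h : ∀ n, 1 ≤ n → inner ℂ s (SS^[n] s) = 0) : Orthonormal ℂ (fun n : ℕ => SS^[n] s) := by
  constructor
  · intro n
    have h1 := SS_inner s s n
    have h3 : ‖SS^[n] s‖ ^ 2 = ‖s‖ ^ 2 := by
      rw [inner_self_eq_norm_sq_to_K, inner_self_eq_norm_sq_to_K] at h1
      exact_mod_cast h1
    rw [← hs]
    exact (pow_left_inj₀ (norm_nonneg _) (norm_nonneg _) two_ne_zero).1 h3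
  · intro n m hnm
    rcases lt_or_gt_of_ne hnm with h' | h'
    · have : SS^[m] s = SS^[n] (SS^[m - n] s) := by
        rw [← Function.iterate_add_apply]; congr 1; omega
      show inner ℂ (SS^[n] s) (SS^[m] s) = 0
      rw [this, SS_inner]
      exact h _ (by omega)
    · have : SS^[n] s = SS^[m] (SS^[n - m] s) := by
        rw [← Function.iterate_add_apply]; congr 1; omega
      show inner ℂ (SS^[n] s) (SS^[m] s) = 0
      rw [this, SS_inner, ← inner_conj_symm, h _ (by omega)]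
      simp

/-- multiplication by `s` -/
private noncomputable def TT {s : HH} (hv : Orthonormal ℂ (fun n : ℕ => SS^[n] s)) :
    HH →ₗᵢ[ℂ] HH := hv.orthogonalFamily.linearIsometry

private theorem TT_hasSum {s : HH} (hv : Orthonormal ℂ (fun n : ℕ => SS^[n] s)) (f : HH) :
    HasSum (fun i : ℕ => f i • SS^[i] s) (TT hv f) := by
  exact hv.orthogonalFamily.hasSum_linearIsometry f

private theorem TT_coe {s : HH} (hv : Orthonormal ℂ (fun n : ℕ => SS^[n] s)) (f : HH) :
    ((TT hv f : HH) : ℕ → ℂ) = cmul (s : ℕ → ℂ) (f : ℕ → ℂ) := by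
  funext k
  have h := (lp.evalCLM ℂ (fun _ : ℕ => ℂ) 2 k).hasSum (TT_hasSum hv f)
  have h2 : HasSum (fun i : ℕ => f i * (if i ≤ k then s (k - i) else 0)) ((TT hv f : HH) k) := by
    have h4 : (fun i : ℕ => f i * (if i ≤ k then s (k - i) else 0)) =
        fun b => (lp.evalCLM ℂ (fun _ : ℕ => ℂ) 2 k) (f b • SS^[b] s) := by
      funext i
      rw [← SS_iter]
      rfl
    rw [h4]
    exact h
  have h3 : HasSum (fun i : ℕ => f i * (if i ≤ k then s (k - i) else 0))
      (∑ i ∈ Finset.range (k + 1), f i * (if i ≤ k then s (k - i) else 0)) := by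
    apply hasSum_sum_of_ne_finset_zero
    intro i hi
    rw [if_neg (by simpa using hi)]
    simp
  rw [h2.unique h3, cmul_comm]
  unfold cmul
  apply Finset.sum_congr rfl
  intro i hi
  rw [if_pos (by simpa [Nat.lt_succ_iff] using hi)]

private theorem SS_descent {P : HH → Prop} (hP : ∀ x, P x → ∃ y, P y ∧ x = SS y) {x : HH}
    (hx : P x) : x = 0 := by
  have h1 : ∀ n : ℕ, ∀ x, P x → ∃ y, P y ∧ x = SS^[n] y := by
    intro n
    induction n with
    | zero => intro x hx; exact ⟨x, hx, rfl⟩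
    | succ n ih =>
      intro x hx
      obtain ⟨y, hy, hxy⟩ := ih x hx
      obtain ⟨z, hz, hyz⟩ := hP y hy
      exact ⟨z, hz, by rw [hxy, hyz, Function.iterate_succ_apply]⟩
  apply lp.ext
  funext k
  obtain ⟨y, -, hy⟩ := h1 (k + 1) x hx
  rw [hy, SS_iter, if_neg (by omega)]
  rfl

private theorem TT_inner {s : HH} (hv : Orthonormal ℂ (fun n : ℕ => SS^[n] s)) (f y : HH)
    (h : ∀ n, inner ℂ y (SS^[n] s) = 0) : inner ℂ y (TT hv f) = 0 := by
  have h1 := (innerSL ℂ y).hasSum (TT_hasSum hv f)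
  have h2 : (fun i : ℕ => innerSL ℂ y (f i • SS^[i] s)) = fun _ => 0 := by
    funext i
    rw [innerSL_apply_apply, inner_smul_right, h, mul_zero]
  rw [h2] at h1
  exact h1.unique hasSum_zero

private theorem TT_mem {s : HH} (hv : Orthonormal ℂ (fun n : ℕ => SS^[n] s)) (f : HH)
    {M : Submodule ℂ HH} (hM : IsClosed (M : Set HH)) (hs : ∀ n, SS^[n] s ∈ M) : TT hv f ∈ M := by
  apply hM.mem_of_tendsto (TT_hasSum hv f)
  exact Eventually.of_forall fun F => M.sum_mem fun i _ => M.smul_mem _ (hs i)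

theorem beurling (I : Set (ℕ → ℂ)) (h0 : (0 : ℕ → ℂ) ∈ I)
    (hadd : ∀ a ∈ I, ∀ b ∈ I, a + b ∈ I) (hsmul : ∀ (c : ℂ), ∀ a ∈ I, c • a ∈ I)
    (hL : ∀ a ∈ I, Summable fun n => ‖a n‖ ^ 2) (hsh : ∀ a ∈ I, sh 1 a ∈ I)
    (hne : ∃ a ∈ I, a ≠ 0) :
    ∃ s : ℕ → ℂ, (Summable fun n => ‖s n‖ ^ 2) ∧ IsoM s ∧
      (∀ a ∈ I, ∃ h : ℕ → ℂ, (Summable fun n => ‖h n‖ ^ 2) ∧ a = cmul s h) ∧
      (∀ ε : ℝ, 0 < ε → ∃ u ∈ I, ∑' n, ‖u n - s n‖ ^ 2 < ε) := by
  classical
  let M₀ : Submodule ℂ HH :=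
    { carrier := {f | (f : ℕ → ℂ) ∈ I}
      add_mem' := fun {a b} ha hb => hadd _ ha _ hb
      zero_mem' := h0
      smul_mem' := fun c a ha => hsmul c _ ha }
  have hM₀ : ∀ f : HH, f ∈ M₀ ↔ (f : ℕ → ℂ) ∈ I := fun f => Iff.rfl
  obtain ⟨M, hMdef⟩ : ∃ M : Submodule ℂ HH, M = M₀.topologicalClosure := ⟨_, rfl⟩
  have hMc : IsClosed (M : Set HH) := by rw [hMdef]; exact M₀.isClosed_topologicalClosure
  have hM0M : ∀ f ∈ M₀, f ∈ M := by
    intro f hf; rw [hMdef]; exact M₀.le_topologicalClosure hf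
  have hMcl : ∀ f ∈ M, f ∈ closure (M₀ : Set HH) := by
    intro f hf; rw [hMdef] at hf; exact hf
  have hSM : ∀ f ∈ M, SS f ∈ M := by
    intro f hf
    have h1 := map_mem_closure SS.continuous (hMcl f hf)
      (show MapsTo SS (M₀ : Set HH) (M₀ : Set HH) from fun x hx => hsh _ hx)
    rw [hMdef]; exact h1
  have hSnM : ∀ n : ℕ, ∀ f ∈ M, SS^[n] f ∈ M := by
    intro n
    induction n with
    | zero => intro f hf; exact hf
    | succ n ih =>
      intro f hf
      rw [Function.iterate_succ_apply']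
      exact hSM _ (ih f hf)
  obtain ⟨N, hN⟩ : ∃ N : Submodule ℂ HH, N = M.map SS.toLinearMap := ⟨_, rfl⟩
  have hNmem : ∀ f, f ∈ N ↔ ∃ g ∈ M, SS g = f := by
    intro f; rw [hN, Submodule.mem_map]; rfl
  have hNc : IsClosed (N : Set HH) := by
    have h1 : (N : Set HH) = SS '' (M : Set HH) := by
      ext f
      rw [SetLike.mem_coe, hNmem]; rfl
    rw [h1]
    exact SS.isometry.isClosedEmbedding.isClosedMap _ hMc
  have hNM : ∀ f ∈ N, f ∈ M := by
    intro f hf
    obtain ⟨g, hg, rfl⟩ := (hNmem f).1 hf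
    exact hSM g hg
  have : CompleteSpace N := hNc.completeSpace_coe
  have hex : ∀ x : HH, ∃ w ∈ N, x - w ∈ Nᗮ := fun x =>
    Submodule.HasOrthogonalProjection.exists_orthogonal (K := N) x
  have hNn : ∀ n, 1 ≤ n → ∀ f ∈ M, SS^[n] f ∈ N := by
    intro n hn f hf
    obtain ⟨m, rfl⟩ : ∃ m, n = m + 1 := ⟨n - 1, by omega⟩
    rw [Function.iterate_succ_apply']
    exact (hNmem _).2 ⟨_, hSnM m f hf, rfl⟩
  -- `M ≠ N`
  obtain ⟨x, hxM, hxN⟩ : ∃ x ∈ M, x ∉ N := by
    by_contra hcon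
    push Not at hcon
    obtain ⟨a, haI, ha0⟩ := hne
    have h1 : (⟨a, beurB_mem (hL a haI)⟩ : HH) = 0 := by
      apply SS_descent (P := fun x => x ∈ M)
      · intro x hx
        obtain ⟨y, hy, hyx⟩ := (hNmem x).1 (hcon x hx)
        exact ⟨y, hy, hyx.symm⟩
      · exact hM0M _ haI
    exact ha0 (congrArg (fun f : HH => (f : ℕ → ℂ)) h1)
  -- normalisation
  have hnorm : ∀ t : HH, t ≠ 0 → t ∈ M → t ∈ Nᗮ → ∃ c : ℂ, ‖c • t‖ = 1 ∧ c • t ∈ M ∧ c • t ∈ Nᗮ := by
    intro t ht htM htN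
    refine ⟨((‖t‖⁻¹ : ℝ) : ℂ), ?_, M.smul_mem _ htM, Nᗮ.smul_mem _ htN⟩
    rw [norm_smul]
    have : ‖t‖ ≠ 0 := norm_ne_zero_iff.2 ht
    simp [this]
  have horth : ∀ t : HH, ‖t‖ = 1 → t ∈ M → t ∈ Nᗮ → Orthonormal ℂ (fun n : ℕ => SS^[n] t) := by
    intro t ht htM htN
    apply SS_orthonormal ht
    intro n hn
    exact (Submodule.mem_orthogonal' N t).1 htN _ (hNn n hn t htM)
  obtain ⟨w, hwN, hxw⟩ := hex x
  have hs0 : x - w ≠ 0 := by
    intro h
    rw [sub_eq_zero] at h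
    exact hxN (h ▸ hwN)
  obtain ⟨c, hs1, hsM, hsN⟩ := hnorm (x - w) hs0 (M.sub_mem hxM (hNM w hwN)) hxw
  obtain ⟨s, hs⟩ : ∃ s : HH, s = c • (x - w) := ⟨_, rfl⟩
  rw [← hs] at hs1 hsM hsN
  have hv := horth s hs1 hsM hsN
  -- `M ⊖ N` is one-dimensional
  have hdim : ∀ t : HH, t ∈ M → t ∈ Nᗮ → inner ℂ s t = 0 → t = 0 := by
    intro t htM htN hst
    by_contra ht
    obtain ⟨c', ht1, htM', htN'⟩ := hnorm t ht htM htN
    obtain ⟨t', ht'⟩ : ∃ t' : HH, t' = c' • t := ⟨_, rfl⟩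
    rw [← ht'] at ht1 htM' htN'
    have hst' : inner ℂ s t' = 0 := by rw [ht', inner_smul_right, hst, mul_zero]
    have hv' := horth t' ht1 htM' htN'
    have hcross : ∀ n m, inner ℂ (SS^[n] s) (SS^[m] t') = 0 := by
      apply SS_orth hst'
      · intro n hn
        exact (Submodule.mem_orthogonal N t').1 htN' _ (hNn n hn s hsM)
      · intro n hn
        exact (Submodule.mem_orthogonal' N s).1 hsN _ (hNn n hn t' htM')
    have heq : TT hv t' = TT hv' s := by
      apply lp.ext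
      rw [TT_coe, TT_coe, cmul_comm]
    have h1 : inner ℂ (TT hv t') (TT hv' s) = 0 := by
      apply TT_inner
      intro n
      rw [← inner_conj_symm]
      rw [TT_inner]
      · simp
      · intro m
        rw [← inner_conj_symm, hcross, map_zero]
    rw [← heq, inner_self_eq_zero] at h1
    have h2 : ‖TT hv t'‖ = 1 := by rw [LinearIsometry.norm_map, ht1]
    rw [h1] at h2
    simp at h2
  -- `M` is the range of `TT`
  have hrange : ∀ a ∈ M, ∃ f : HH, a = TT hv f := by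
    intro a ha
    obtain ⟨R, hR⟩ : ∃ R : Submodule ℂ HH, R = LinearMap.range (TT hv).toLinearMap := ⟨_, rfl⟩
    have hRmem : ∀ f, f ∈ R ↔ ∃ g, TT hv g = f := by
      intro f; rw [hR, LinearMap.mem_range]; rfl
    have hRc : IsClosed (R : Set HH) := by
      have h1 : (R : Set HH) = Set.range (TT hv) := by
        ext f
        rw [SetLike.mem_coe, hRmem]; rfl
      rw [h1]
      exact (TT hv).isometry.isClosedEmbedding.isClosed_range
    have : CompleteSpace R := hRc.completeSpace_coe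
    obtain ⟨w', hw', haw'⟩ := Submodule.HasOrthogonalProjection.exists_orthogonal (K := R) a
    obtain ⟨g, hg⟩ := (hRmem w').1 hw'
    have hw'M : w' ∈ M := by
      rw [← hg]
      exact TT_mem hv g hMc fun n => hSnM n s hsM
    have hSR : ∀ n, SS^[n] s ∈ R := by
      intro n
      rw [hRmem]
      refine ⟨lp.single 2 n (1 : ℂ), ?_⟩
      unfold TT
      rw [OrthogonalFamily.linearIsometry_apply_single, LinearIsometry.toSpanSingleton_apply,
        one_smul]
    have hb : a - w' = 0 := by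
      apply SS_descent (P := fun b => b ∈ M ∧ ∀ n, inner ℂ (SS^[n] s) b = 0)
      · rintro b ⟨hbM, hb⟩
        obtain ⟨v, hvN, hbv⟩ := hex b
        have h3 : b - v = 0 := by
          apply hdim _ (M.sub_mem hbM (hNM v hvN)) hbv
          rw [inner_sub_right]
          have h4 := hb 0
          simp only [Function.iterate_zero, id_eq] at h4
          rw [h4, (Submodule.mem_orthogonal' N s).1 hsN v hvN, sub_zero]
        rw [sub_eq_zero] at h3
        rw [← h3] at hvN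
        obtain ⟨y, hy, hyb⟩ := (hNmem b).1 hvN
        refine ⟨y, ⟨hy, fun n => ?_⟩, hyb.symm⟩
        have h5 := hb (n + 1)
        rw [Function.iterate_succ_apply', ← hyb, LinearIsometry.inner_map_map] at h5
        exact h5
      · exact ⟨M.sub_mem ha hw'M, fun n => (Submodule.mem_orthogonal R _).1 haw' _ (hSR n)⟩
    rw [sub_eq_zero] at hb
    exact ⟨g, by rw [hb, hg]⟩
  refine ⟨s, beurB_summable s, ?_, ?_, ?_⟩
  · intro h hh
    have h1 : ((TT hv (⟨h, beurB_mem hh⟩ : HH) : HH) : ℕ → ℂ) = cmul (s : ℕ → ℂ) h := TT_coe hv _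
    rw [← h1]
    refine ⟨beurB_summable _, ?_⟩
    rw [← beurB_norm, LinearIsometry.norm_map, beurB_norm]
  · intro a ha
    obtain ⟨f, hf⟩ := hrange ⟨a, beurB_mem (hL a ha)⟩ (hM0M _ ha)
    refine ⟨f, beurB_summable f, ?_⟩
    rw [← TT_coe hv, ← hf]
  · intro ε hε
    obtain ⟨u, hu, hsu⟩ := Metric.mem_closure_iff.1 (hMcl s hsM) (Real.sqrt ε) (Real.sqrt_pos.2 hε)
    refine ⟨u, hu, ?_⟩
    have h1 : ∑' n, ‖(u : ℕ → ℂ) n - (s : ℕ → ℂ) n‖ ^ 2 = ‖u - s‖ ^ 2 := by
      rw [beurB_norm]; rfl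
    rw [h1, ← Real.sq_sqrt hε.le]
    rw [dist_comm, dist_eq_norm] at hsu
    exact pow_lt_pow_left₀ hsu (norm_nonneg _) two_ne_zero

end MP_9d6c91_an
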