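import Pool.Agent.Lib.MP_9d6c91_an.Seq

/-!
# JOB BEURA : Beurling theorem in `ℓ²` (algebraic part)

Tools for `ℓ² = lp (fun _ : ℕ => ℂ) 2` (prefix `beurA_`, `IsoM.li`), the formula for the second factor of a
product with an isometric multiplier, and the bound for the function of a contractive multiplier.
-/

set_option autoImplicit false

open MeasureTheory Complex Filter Topology Set
open scoped ENNReal Real ComplexConjugate

namespace MP_9d6c91_an

/-! ### tools: the Hilbert space `lp (fun _ => ℂ) 2` -/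

theorem beurA_mem_iff {a : ℕ → ℂ} : Memℓp a 2 ↔ Summable fun n => ‖a n‖ ^ 2 := by
  rw [memℓp_gen_iff (by norm_num)]
  simp

theorem beurA_norm_sq (f : lp (fun _ : ℕ => ℂ) 2) : ‖f‖ ^ 2 = ∑' n, ‖f n‖ ^ 2 := by
  have := lp.norm_rpow_eq_tsum (p := 2) (by norm_num) f
  simpa using this

theorem beurA_summable (f : lp (fun _ : ℕ => ℂ) 2) : Summable fun n => ‖f n‖ ^ 2 :=
  beurA_mem_iff.mp f.2

theorem beurA_cmul_add (s a b : ℕ → ℂ) : cmul s (a + b) = cmul s a + cmul s b := by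
  funext n
  simp [cmul, mul_add, Finset.sum_add_distrib]

theorem beurA_cmul_smul (c : ℂ) (s a : ℕ → ℂ) : cmul s (c • a) = c • cmul s a := by
  funext n
  simp only [cmul, Pi.smul_apply, smul_eq_mul, Finset.mul_sum]
  exact Finset.sum_congr rfl fun k _ => by ring

/-- an isometric multiplier as a linear isometry of `ℓ²` -/
noncomputable def IsoM.li {s : ℕ → ℂ} (hs : IsoM s) :
    lp (fun _ : ℕ => ℂ) 2 →ₗᵢ[ℂ] lp (fun _ : ℕ => ℂ) 2 where
  toFun f := ⟨cmul s f, beurA_mem_iff.mpr (hs f (beurA_summable f)).1⟩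
  map_add' f g := by
    ext n
    exact congrFun (beurA_cmul_add s f g) n
  map_smul' c f := by
    ext n
    exact congrFun (beurA_cmul_smul c s f) n
  norm_map' f := by
    have h1 := (hs f (beurA_summable f)).2
    rw [← beurA_norm_sq] at h1
    have h2 := beurA_norm_sq (⟨cmul s f, beurA_mem_iff.mpr (hs f (beurA_summable f)).1⟩ :
      lp (fun _ : ℕ => ℂ) 2)
    rw [← sq_eq_sq₀ (norm_nonneg _) (norm_nonneg _)]
    exact h2.trans h1

@[simp] theorem IsoM.li_apply {s : ℕ → ℂ} (hs : IsoM s) (f : lp (fun _ : ℕ => ℂ) 2) :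
    (hs.li f : ℕ → ℂ) = cmul s f := rfl

theorem beurA_cmul_single (s : ℕ → ℂ) (j : ℕ) :
    cmul s (fun n => if n = j then 1 else 0) = sh j s := by
  funext n
  simp only [cmul, sh]
  split_ifs with hjn
  · rw [Finset.sum_eq_single (n - j)]
    · have : n - (n - j) = j := by omega
      simp [this]
    · intro k hk hkj
      have hk' : k ≤ n := by
        have := Finset.mem_range.mp hk
        omega
      have : n - k ≠ j := by omega
      simp [this]
    · intro hn
      exact absurd (Finset.mem_range.mpr (by omega)) hn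
  · refine Finset.sum_eq_zero fun k hk => ?_
    have : n - k ≠ j := by omega
    simp [this]

theorem IsoM.formula {s h : ℕ → ℂ} (hs : IsoM s) (hh : Summable fun n => ‖h n‖ ^ 2) (j : ℕ) :
    h j = ∑' i, conj (s i) * cmul s h (i + j) := by
  set H : lp (fun _ : ℕ => ℂ) 2 := ⟨h, beurA_mem_iff.mpr hh⟩ with hH
  set D : lp (fun _ : ℕ => ℂ) 2 := lp.single 2 j (1 : ℂ) with hD
  have h1 := hs.li.inner_map_map D H
  have h2 : inner ℂ D H = h j := by
    rw [hD, lp.inner_single_left]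
    simp [hH]
  have h3 : (hs.li D : ℕ → ℂ) = sh j s := by
    rw [IsoM.li_apply, ← beurA_cmul_single]
    congr 1
    funext n
    simp [hD, lp.single_apply, Pi.single_apply]
  rw [h2, lp.inner_eq_tsum] at h1
  rw [← h1, h3]
  have hinj : Function.Injective (fun i : ℕ => i + j) := add_left_injective j
  rw [← hinj.tsum_eq]
  · refine tsum_congr fun i => ?_
    simp [sh, hH, mul_comm]
  · intro n hn
    simp only [Function.mem_support, ne_eq] at hn
    by_cases hjn : j ≤ n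
    · exact ⟨n - j, by simp; omega⟩
    · exact absurd (by simp [sh, hjn]) hn

/-- Cauchy-Schwarz for sequences -/
theorem beurA_cs {a b : ℕ → ℂ} (ha : Summable fun n => ‖a n‖ ^ 2) (hb : Summable fun n => ‖b n‖ ^ 2) :
    (Summable fun n => ‖a n * b n‖) ∧
      ‖∑' n, a n * b n‖ ^ 2 ≤ (∑' n, ‖a n‖ ^ 2) * ∑' n, ‖b n‖ ^ 2 := by
  have hs : Summable fun n => ‖a n * b n‖ := by
    refine Summable.of_nonneg_of_le (fun n => norm_nonneg _) (fun n => ?_) (ha.add hb)
    rw [norm_mul]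
    nlinarith [sq_nonneg (‖a n‖ - ‖b n‖), sq_nonneg (‖a n‖), sq_nonneg ‖b n‖]
  refine ⟨hs, ?_⟩
  have h1 : ‖∑' n, a n * b n‖ ≤ ∑' n, ‖a n * b n‖ := norm_tsum_le_tsum_norm hs
  have h2 : (∑' n, ‖a n * b n‖) ^ 2 ≤ (∑' n, ‖a n‖ ^ 2) * ∑' n, ‖b n‖ ^ 2 := by
    have h3 : Tendsto (fun N => (∑ n ∈ Finset.range N, ‖a n * b n‖) ^ 2) atTop
        (𝓝 ((∑' n, ‖a n * b n‖) ^ 2)) := (hs.hasSum.tendsto_sum_nat).pow 2
    refine le_of_tendsto' h3 fun N => ?_
    simp only [norm_mul]
    refine (Finset.sum_mul_sq_le_sq_mul_sq _ _ _).trans ?_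
    have e1 := ha.sum_le_tsum (Finset.range N) fun n _ => sq_nonneg ‖a n‖
    have e2 := hb.sum_le_tsum (Finset.range N) fun n _ => sq_nonneg ‖b n‖
    exact mul_le_mul e1 e2 (Finset.sum_nonneg fun n _ => sq_nonneg ‖b n‖)
      (tsum_nonneg fun n => sq_nonneg ‖a n‖)
  refine le_trans ?_ h2
  gcongr

theorem beurA_bdd {h : ℕ → ℂ} (hh : Summable fun n => ‖h n‖ ^ 2) (n : ℕ) :
    ‖h n‖ ≤ √(∑' n, ‖h n‖ ^ 2) := by
  refine Real.le_sqrt_of_sq_le ?_
  exact hh.le_tsum n fun _ _ => sq_nonneg _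

/-- contractive multipliers are bounded functions -/
theorem norm_ev_le_of_mult {h : ℕ → ℂ} {B : ℝ} (hB : 0 ≤ B) (hh : Summable fun n => ‖h n‖ ^ 2)
    (hm : ∀ p : ℕ → ℂ, (∃ N, ∀ n ≥ N, p n = 0) →
      (Summable fun n => ‖cmul h p n‖ ^ 2) ∧ ∑' n, ‖cmul h p n‖ ^ 2 ≤ B ^ 2 * ∑' n, ‖p n‖ ^ 2)
    {z : ℂ} (hz : z ∈ Metric.ball (0 : ℂ) 1) : ‖ev h z‖ ≤ B := by
  have hz1 : ‖z‖ < 1 := by simpa using hz
  set q : ℝ := ‖z‖ ^ 2 with hq
  have hq0 : 0 ≤ q := sq_nonneg _
  have hq1 : q < 1 := by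
    rw [hq]
    nlinarith [norm_nonneg z]
  have hgeo : Summable fun n : ℕ => q ^ n := summable_geometric_of_lt_one hq0 hq1
  set S : ℝ := ∑' n : ℕ, q ^ n with hS
  have hk : ∀ n : ℕ, ‖z ^ n‖ ^ 2 = q ^ n := fun n => by
    rw [norm_pow, hq, ← pow_mul, ← pow_mul, mul_comm]
  -- the finite estimate
  have key : ∀ N : ℕ, ‖ev h z‖ ^ 2 * ∑ n ∈ Finset.range N, q ^ n ≤ B ^ 2 * S := by
    intro N
    set K : ℝ := ∑ n ∈ Finset.range N, q ^ n with hK
    have hK0 : 0 ≤ K := Finset.sum_nonneg fun n _ => pow_nonneg hq0 n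
    set p : ℕ → ℂ := fun n => if n < N then conj z ^ n else 0 with hp
    have hpN : ∀ n ≥ N, p n = 0 := fun n hn => by simp [hp, not_lt.mpr hn]
    obtain ⟨hs1, hs2⟩ := hm p ⟨N, hpN⟩
    have hpsum : ∑' n, ‖p n‖ ^ 2 = K := by
      rw [tsum_eq_sum (s := Finset.range N)]
      · refine Finset.sum_congr rfl fun n hn => ?_
        have : n < N := Finset.mem_range.mp hn
        simp only [hp, this, if_true]
        rw [norm_pow, Complex.norm_conj, hq, ← pow_mul, ← pow_mul, mul_comm]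
      · intro n hn
        have : N ≤ n := by simpa using hn
        simp [hpN n this]
    have hpb : ∀ n, ‖p n‖ ≤ 1 := by
      intro n
      simp only [hp]
      split_ifs
      · rw [norm_pow, Complex.norm_conj]
        exact pow_le_one₀ (norm_nonneg _) hz1.le
      · simp
    have hev : ev p z = (K : ℂ) := by
      rw [ev, tsum_eq_sum (s := Finset.range N)]
      · rw [hK]
        push_cast
        refine Finset.sum_congr rfl fun n hn => ?_
        have : n < N := Finset.mem_range.mp hn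
        simp only [hp, this, if_true]
        rw [← mul_pow, Complex.conj_mul']
        simp [hq]
      · intro n hn
        have : N ≤ n := by simpa using hn
        simp [hpN n this]
    have hprod : ev (cmul h p) z = ev h z * K := by
      rw [ev_cmul_of_bdd (beurA_bdd hh) hpb hz, hev]
    have hcs := (beurA_cs (b := fun n => z ^ n) hs1 (by simpa only [hk] using hgeo)).2
    have hcs' : ‖ev h z * K‖ ^ 2 ≤ (B ^ 2 * K) * S := by
      rw [← hprod]
      refine hcs.trans ?_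
      simp only [hk]
      rw [← hS]
      have hS0 : 0 ≤ S := tsum_nonneg fun n => pow_nonneg hq0 n
      rw [← hpsum]
      gcongr
    rcases hK0.eq_or_lt with hK0' | hKpos
    · rw [← hK0', mul_zero]
      have hS0 : 0 ≤ S := tsum_nonneg fun n => pow_nonneg hq0 n
      positivity
    · rw [norm_mul, Complex.norm_real, Real.norm_eq_abs, abs_of_nonneg hK0, mul_pow] at hcs'
      have : (‖ev h z‖ ^ 2 * K) * K ≤ (B ^ 2 * S) * K := by nlinarith
      exact le_of_mul_le_mul_right this hKpos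
  have hlim : ‖ev h z‖ ^ 2 * S ≤ B ^ 2 * S := by
    have : Tendsto (fun N => ‖ev h z‖ ^ 2 * ∑ n ∈ Finset.range N, q ^ n) atTop
        (𝓝 (‖ev h z‖ ^ 2 * S)) := (hgeo.hasSum.tendsto_sum_nat).const_mul _
    exact le_of_tendsto' this key
  have hSpos : 0 < S := by
    have : (1 : ℝ) ≤ S := by
      simpa using hgeo.le_tsum 0 fun n _ => pow_nonneg hq0 n
    linarith
  have h2 : ‖ev h z‖ ^ 2 ≤ B ^ 2 := le_of_mul_le_mul_right hlim hSpos
  exact (sq_le_sq₀ (norm_nonneg _) hB).mp h2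

end MP_9d6c91_an
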