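import Pool.Agent.Lib.MP_9d6c91_an.PoisA1

/-!
# JOB POISA2 : elementary properties of the Poisson integral
-/

set_option autoImplicit false

open MeasureTheory Complex Filter Topology Set
open scoped ENNReal Real

namespace MP_9d6c91_an

theorem PX.integrableOn {X : ℝ → ℝ} (hX : PX X) (a b : ℝ) : IntervalIntegrable X volume a b := by
  have hper : Function.Periodic X (2 * π) := hX.per
  have h : IntervalIntegrable X volume (-π) (-π + 2 * π) := by
    have e : -π + 2 * π = π := by ring
    rw [e]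
    exact hX.int
  exact hper.intervalIntegrable (by positivity) h a b

theorem PX.intPk {X : ℝ → ℝ} (hX : PX X) {z : ℂ} (hz : z ∈ Metric.ball (0 : ℂ) 1) (a b : ℝ) :
    IntervalIntegrable (fun s => X s * Pk z s) volume a b :=
  (hX.integrableOn a b).mul_continuousOn (continuous_Pk hz).continuousOn

theorem PI_window {X : ℝ → ℝ} (hX : PX X) (z : ℂ) (t : ℝ) :
    PI X z = ∫ s in (t - π)..(t + π), X s * Pk z s := by
  have hper : Function.Periodic (fun s => X s * Pk z s) (2 * π) := by
    intro s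
    simp only [hX.per s, Pk_per z s]
  have h := hper.intervalIntegral_add_eq (-π) (t - π)
  have e1 : -π + 2 * π = π := by ring
  have e2 : t - π + 2 * π = t + π := by ring
  rw [e1, e2] at h
  exact h

theorem PI_nonneg {X : ℝ → ℝ} (hX : PX X) {z : ℂ} (hz : z ∈ Metric.ball (0 : ℂ) 1) : 0 ≤ PI X z := by
  have hz1 : ‖z‖ ≤ 1 := (mem_ball_zero_iff.1 hz).le
  exact intervalIntegral.integral_nonneg (by linarith [Real.pi_pos])
    (fun s _ => mul_nonneg (hX.nonneg s) (Pk_nonneg hz1 s))

theorem PI_const (C : ℝ) {z : ℂ} (hz : z ∈ Metric.ball (0 : ℂ) 1) : PI (fun _ => C) z = C := by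
  unfold PI
  rw [intervalIntegral.integral_const_mul, integral_Pk hz, mul_one]

theorem PI_mono_ae {X Y : ℝ → ℝ} (hX : PX X) (hY : PX Y) (h : ∀ᵐ t : ℝ, X t ≤ Y t) {z : ℂ}
    (hz : z ∈ Metric.ball (0 : ℂ) 1) : PI X z ≤ PI Y z := by
  have hz1 : ‖z‖ ≤ 1 := (mem_ball_zero_iff.1 hz).le
  apply intervalIntegral.integral_mono_ae (by linarith [Real.pi_pos]) (hX.intPk hz _ _) (hY.intPk hz _ _)
  filter_upwards [h] with s hs
  exact mul_le_mul_of_nonneg_right hs (Pk_nonneg hz1 s)

end MP_9d6c91_an
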