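import Pool.Agent.Lib.MP_9d6c91_an.CoreA
import Pool.Agent.Lib.MP_9d6c91_an.PoisA

/-!
# JOB COREB : the basic estimate

* `core` : circle with centre `w₀ = t - i y`, radius `ρ`, `w = w₀ + ρ e^{iθ}`.
  `Im w ≤ -ηρ` : `LL Φ w ≤ K`.  `-ηρ < Im w ≤ 0` : then `sin θ ∈ (-η, η]`, a set of `θ` of measure `≤ 4 arcsin η ≤ 2πη`, `LL Φ w ≤ B`.
  `Im w > 0` : then `sin θ > 0` (measure `≤ π`), and by `pl`, `LL Φ w ≤ PI X (ee w) = ∫_{|s-t|<R} X Pk + ∫_{R≤|s-t|≤π} X Pk ≤ B + C ρ T` since
  `∫ Pk = 1`, `X ≤ B` on the first set, and on the second `Pk (ee w) s ≤ 20 Im w / |s - Re w|²`, `Im w ≤ ρ`, `|s - Re w| ≥ (3/4) |s - t|` (`|Re w - t| ≤ ρ ≤ R/4`).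
-/

set_option autoImplicit false

open MeasureTheory Complex Filter Topology Set
open scoped ENNReal Real

namespace MP_9d6c91_an

private theorem core_LL_nonneg (Φ : ℂ → ℂ) (w : ℂ) : 0 ≤ LL Φ w := Real.posLog_nonneg

private theorem core_measS (R t : ℝ) : MeasurableSet {s : ℝ | R ≤ |s - t| ∧ |s - t| ≤ π} := by
  apply MeasurableSet.inter
  · exact measurableSet_le measurable_const (by fun_prop : Measurable fun s : ℝ => |s - t|)
  · exact measurableSet_le (by fun_prop : Measurable fun s : ℝ => |s - t|) measurable_const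

private theorem core_ee (θ : ℝ) : (ee (θ : ℂ)).re = Real.cos θ ∧ (ee (θ : ℂ)).im = Real.sin θ := by
  unfold ee
  rw [mul_comm]
  exact ⟨Complex.exp_ofReal_mul_I_re θ, Complex.exp_ofReal_mul_I_im θ⟩

private theorem core_intS {X : ℝ → ℝ} (hX : PX X) {R t : ℝ} (hR : 0 < R) :
    IntegrableOn (fun s => X s / |s - t| ^ 2) {s : ℝ | R ≤ |s - t| ∧ |s - t| ≤ π} := by
  have h1 : IntegrableOn X (Icc (t - π) (t + π)) := by
    rw [← intervalIntegrable_iff_integrableOn_Icc_of_le (by linarith [Real.pi_pos])]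
    exact hX.integrableOn _ _
  have h2 : IntegrableOn X {s : ℝ | R ≤ |s - t| ∧ |s - t| ≤ π} := by
    apply h1.mono_set
    rintro s ⟨-, hs⟩
    rw [abs_le] at hs
    exact ⟨by linarith [hs.1], by linarith [hs.2]⟩
  refine Integrable.mono' (h2.div_const (R ^ 2)) ?_ ?_
  · exact (hX.meas.div (by fun_prop)).aestronglyMeasurable
  · refine ae_restrict_of_forall_mem (core_measS R t) ?_
    rintro s ⟨hs, -⟩
    have hs0 : 0 < |s - t| := lt_of_lt_of_le hR hs
    rw [Real.norm_eq_abs, abs_div, abs_of_nonneg (hX.nonneg s), abs_of_pos (by positivity)]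
    apply div_le_div_of_nonneg_left (hX.nonneg s) (by positivity)
    exact pow_le_pow_left₀ hR.le hs 2

private theorem core_up {α : ℝ} {E : Set ℝ} {Φ : ℂ → ℂ} (hP : PhiD α E Φ) {t ρ R B : ℝ} (hρ : 0 < ρ)
    (hρR : 4 * ρ ≤ R) (hR1 : R ≤ 1) (hB : 0 ≤ B) (h1 : ∀ s : ℝ, |s - t| < R → LL Φ (s : ℂ) ≤ B)
    {w : ℂ} (hw : 0 < w.im) (hwρ : w.im ≤ ρ) (hwt : |w.re - t| ≤ ρ) :
    LL Φ w ≤ B + 36 * ρ * ∫ s in {s : ℝ | R ≤ |s - t| ∧ |s - t| ≤ π}, LL Φ (s : ℂ) / |s - t| ^ 2 := by
  set S : Set ℝ := {s : ℝ | R ≤ |s - t| ∧ |s - t| ≤ π} with hS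
  have hRpos : 0 < R := by linarith
  have hX := hP.px
  have hz : ee w ∈ Metric.ball (0 : ℂ) 1 := ee_mem_ball hw
  have hzn : ‖ee w‖ ≤ 1 := by
    have := mem_ball_zero_iff.mp hz
    exact this.le
  refine (hP.pl w hw).trans ?_
  rw [PI_window hX (ee w) t]
  have hIS := core_intS hX (t := t) hRpos
  have hpi := Real.pi_pos
  have hle : t - π ≤ t + π := by linarith
  have hIS2 : Integrable (S.indicator (fun s : ℝ => LL Φ (s : ℂ) / |s - t| ^ 2)) :=
    (integrable_indicator_iff (core_measS R t)).2 hIS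
  have hPk : IntervalIntegrable (fun s => B * Pk (ee w) s) volume (t - π) (t + π) :=
    ((continuous_Pk hz).const_smul B |>.intervalIntegrable _ _)
  have hInd : IntervalIntegrable (fun s => 36 * ρ * S.indicator (fun s : ℝ => LL Φ (s : ℂ) / |s - t| ^ 2) s)
      volume (t - π) (t + π) := (hIS2.const_mul (36 * ρ)).intervalIntegrable
  have hpt : ∀ s ∈ Icc (t - π) (t + π), LL Φ (s : ℂ) * Pk (ee w) s ≤
      B * Pk (ee w) s + 36 * ρ * S.indicator (fun s : ℝ => LL Φ (s : ℂ) / |s - t| ^ 2) s := by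
    intro s hs
    have hst : |s - t| ≤ π := by
      rw [abs_le]; exact ⟨by linarith [hs.1], by linarith [hs.2]⟩
    have hk := Pk_nonneg hzn s
    by_cases hsR : |s - t| < R
    · have hns : s ∉ S := fun h => absurd h.1 (not_le.2 hsR)
      rw [indicator_of_notMem hns, mul_zero, add_zero]
      exact mul_le_mul_of_nonneg_right (h1 s hsR) hk
    · have hsR' : R ≤ |s - t| := not_lt.1 hsR
      have hmem : s ∈ S := ⟨hsR', hst⟩
      rw [indicator_of_mem hmem]
      have hst0 : 0 < |s - t| := lt_of_lt_of_le hRpos hsR'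
      have h34 : 3 / 4 * |s - t| ≤ |s - w.re| := by
        have : |s - t| ≤ |s - w.re| + |w.re - t| := abs_sub_le s w.re t
        linarith
      have h4 : |s - w.re| ≤ 4 := by
        have h5 : |s - w.re| ≤ |s - t| + |t - w.re| := abs_sub_le s t w.re
        rw [abs_sub_comm t w.re] at h5
        linarith [Real.pi_lt_d2]
      have hb := Pk_le hw (by linarith : w.im ≤ 1) h4
      have hb2 : w.im / (w.im + |s - w.re|) ^ 2 ≤ ρ / (3 / 4 * |s - t|) ^ 2 := by
        apply div_le_div₀ hρ.le hwρ (by positivity)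
        apply pow_le_pow_left₀ (by positivity)
        linarith
      have hX0 : 0 ≤ LL Φ (s : ℂ) := core_LL_nonneg _ _
      have hb3 : Pk (ee w) s ≤ 36 * ρ / |s - t| ^ 2 := by
        calc Pk (ee w) s ≤ 20 * (w.im / (w.im + |s - w.re|) ^ 2) := hb
          _ ≤ 20 * (ρ / (3 / 4 * |s - t|) ^ 2) := by linarith
          _ = (320 / 9) * ρ / |s - t| ^ 2 := by field_simp; ring
          _ ≤ 36 * ρ / |s - t| ^ 2 := by
              apply div_le_div_of_nonneg_right _ (by positivity)
              nlinarith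
      have h6 : LL Φ (s : ℂ) * Pk (ee w) s ≤ LL Φ (s : ℂ) * (36 * ρ / |s - t| ^ 2) :=
        mul_le_mul_of_nonneg_left hb3 hX0
      have h7 : LL Φ (s : ℂ) * (36 * ρ / |s - t| ^ 2) = 36 * ρ * (LL Φ (s : ℂ) / |s - t| ^ 2) := by ring
      have h8 : 0 ≤ B * Pk (ee w) s := mul_nonneg hB hk
      linarith
  have hmono := intervalIntegral.integral_mono_on hle (hX.intPk hz _ _) (hPk.add hInd) hpt
  refine hmono.trans ?_
  rw [intervalIntegral.integral_add hPk hInd]
  have hone : ∫ s in (t - π)..(t + π), B * Pk (ee w) s = B := by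
    have hc : PX (fun _ : ℝ => (B : ℝ)) :=
      ⟨measurable_const, fun _ => hB, fun _ => rfl, intervalIntegrable_const⟩
    rw [← PI_window hc (ee w) t, PI_const B hz]
  rw [hone, intervalIntegral.integral_const_mul]
  have hlast : ∫ s in (t - π)..(t + π), S.indicator (fun s : ℝ => LL Φ (s : ℂ) / |s - t| ^ 2) s ≤
      ∫ s in S, LL Φ (s : ℂ) / |s - t| ^ 2 := by
    rw [intervalIntegral.integral_of_le hle, ← integral_indicator (core_measS R t)]
    apply setIntegral_le_integral hIS2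
    filter_upwards with s
    apply indicator_nonneg
    intro x _
    exact div_nonneg (core_LL_nonneg _ _) (by positivity)
  have : 36 * ρ * ∫ s in (t - π)..(t + π), S.indicator (fun s : ℝ => LL Φ (s : ℂ) / |s - t| ^ 2) s ≤
      36 * ρ * ∫ s in S, LL Φ (s : ℂ) / |s - t| ^ 2 := mul_le_mul_of_nonneg_left hlast (by positivity)
  linarith

/-- integral of the indicator function of an interval -/
private theorem core_ind {a b : ℝ} (hab : a ≤ b) :
    IntervalIntegrable ((Icc a b).indicator (fun _ => (1 : ℝ))) volume (-π) π ∧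
      ∫ θ in (-π)..π, (Icc a b).indicator (fun _ => (1 : ℝ)) θ ≤ b - a := by
  have hint : Integrable ((Icc a b).indicator (fun _ => (1 : ℝ))) :=
    (integrable_indicator_iff measurableSet_Icc).2 (integrableOn_const (by simp) (by simp))
  refine ⟨hint.intervalIntegrable, ?_⟩
  rw [intervalIntegral.integral_of_le (by linarith [Real.pi_pos])]
  refine (setIntegral_le_integral hint ?_).trans ?_
  · filter_upwards with s
    exact indicator_nonneg (fun _ _ => zero_le_one) s
  · rw [integral_indicator measurableSet_Icc]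
    simp [hab]

/-- the set where the sine is small -/
private theorem core_sin {η θ : ℝ} (hθ : θ ∈ Icc (-π) π) (hs : |Real.sin θ| ≤ η) :
    θ ∈ Icc (-(π / 2 * η)) (π / 2 * η) ∨ θ ∈ Icc (π - π / 2 * η) π ∨ θ ∈ Icc (-π) (-π + π / 2 * η) := by
  have hpi := Real.pi_pos
  have key : ∀ x : ℝ, 0 ≤ x → x ≤ π / 2 → Real.sin x ≤ η → x ≤ π / 2 * η := by
    intro x hx0 hx1 hx2
    have := Real.mul_le_sin hx0 hx1
    have h3 : 2 / π * x ≤ η := this.trans hx2
    have h4 : x = π / 2 * (2 / π * x) := by field_simp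
    rw [h4]
    exact mul_le_mul_of_nonneg_left h3 (by positivity)
  rcases le_total 0 θ with h0 | h0
  · rcases le_total θ (π / 2) with h1 | h1
    · left
      have := key θ h0 h1 ((le_abs_self _).trans hs)
      exact ⟨by nlinarith, this⟩
    · right; left
      have h2 : Real.sin (π - θ) ≤ η := by rw [Real.sin_pi_sub]; exact (le_abs_self _).trans hs
      have := key (π - θ) (by linarith [hθ.2]) (by linarith) h2
      exact ⟨by linarith, hθ.2⟩
  · rcases le_total (-(π / 2)) θ with h1 | h1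
    · left
      have h2 : Real.sin (-θ) ≤ η := by rw [Real.sin_neg]; exact (neg_le_abs _).trans hs
      have := key (-θ) (by linarith) (by linarith) h2
      exact ⟨by linarith, by nlinarith⟩
    · right; right
      have h2 : Real.sin (π + θ) ≤ η := by
        rw [add_comm, Real.sin_add_pi]; exact (neg_le_abs _).trans hs
      have := key (π + θ) (by linarith [hθ.1]) (by linarith) h2
      exact ⟨hθ.1, by linarith⟩

theorem core : ∃ C : ℝ, 0 < C ∧ ∀ (α : ℝ) (E : Set ℝ) (Φ : ℂ → ℂ), GE E → E.Nonempty → PhiD α E Φ →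
    ∀ t ρ R η y B K : ℝ, 0 < η → η ≤ 1 → 0 < ρ → 4 * ρ ≤ R → R ≤ dE E t → R ≤ 1 → 0 ≤ y → y ≤ η * ρ →
      0 ≤ B → 0 ≤ K →
      (∀ t' y' : ℝ, |t' - t| < R → 0 ≤ y' → y' ≤ 1 → LL Φ (Complex.mk t' (-y')) ≤ B) →
      (∀ t' y' : ℝ, |t' - t| ≤ 2 * ρ → η * ρ ≤ y' → y' ≤ 2 * ρ → LL Φ (Complex.mk t' (-y')) ≤ K) →
      LL Φ (Complex.mk t (-y)) ≤ (1 / 2 + η) * B + K +
        C * ρ * ∫ s in {s : ℝ | R ≤ |s - t| ∧ |s - t| ≤ π}, LL Φ (s : ℂ) / |s - t| ^ 2 := by
  refine ⟨36, by norm_num, ?_⟩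
  intro α E Φ hE hne hP t ρ R η y B K hη hη1 hρ hρR hRd hR1 hy hyη hB hK h1 h2
  have hpi := Real.pi_pos
  set T : ℝ := ∫ s in {s : ℝ | R ≤ |s - t| ∧ |s - t| ≤ π}, LL Φ (s : ℂ) / |s - t| ^ 2 with hT
  have hT0 : 0 ≤ T := by
    apply setIntegral_nonneg (core_measS R t)
    intro s _
    exact div_nonneg (core_LL_nonneg _ _) (by positivity)
  have hyρ : y ≤ ρ := hyη.trans (by nlinarith)
  have hrange : ∀ s : ℝ, |s - t| < R → LL Φ (s : ℂ) ≤ B := by
    intro s hs
    have := h1 s 0 hs le_rfl zero_le_one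
    rw [neg_zero] at this
    exact this
  set w₀ : ℂ := Complex.mk t (-y) with hw₀
  set U : Set ℂ := {w : ℂ | w.im ≠ 0 ∨ w.re ∉ E} with hU
  have hsub : Metric.closedBall w₀ ρ ⊆ U := by
    intro w hw
    right
    have h3 : |w.re - t| ≤ ρ := by
      have h4 : |(w - w₀).re| ≤ ‖w - w₀‖ := Complex.abs_re_le_norm _
      have h5 : ‖w - w₀‖ ≤ ρ := by simpa [Metric.mem_closedBall, dist_eq_norm] using hw
      simpa [hw₀] using h4.trans h5
    exact notMem_of_lt_dE hE (by linarith : |w.re - t| < dE E t)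
  have hdiff : DifferentiableOn ℂ (fun w => Φ (ee w)) U := differentiableOn_comp_ee hE hP.dif
  have hmean := posLog_le_mean hρ (isOpen_good hE) hsub hdiff
  have hgoal : LL Φ w₀ ≤ (1 / (2 * π)) * ∫ θ in (-π)..π, LL Φ (w₀ + ρ * ee (θ : ℂ)) := hmean
  -- coordinates on the circle
  have hre : ∀ θ : ℝ, (w₀ + ρ * ee (θ : ℂ)).re = t + ρ * Real.cos θ := by
    intro θ
    simp [hw₀, (core_ee θ).1, (core_ee θ).2]
  have him : ∀ θ : ℝ, (w₀ + ρ * ee (θ : ℂ)).im = -y + ρ * Real.sin θ := by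
    intro θ
    simp [hw₀, (core_ee θ).1, (core_ee θ).2]
  set a : ℝ := π / 2 * η with ha
  have ha0 : 0 < a := by positivity
  set I1 : ℝ → ℝ := (Icc (-a) a).indicator (fun _ => (1 : ℝ)) with hI1
  set I2 : ℝ → ℝ := (Icc (π - a) π).indicator (fun _ => (1 : ℝ)) with hI2
  set I3 : ℝ → ℝ := (Icc (-π) (-π + a)).indicator (fun _ => (1 : ℝ)) with hI3
  set I4 : ℝ → ℝ := (Icc 0 π).indicator (fun _ => (1 : ℝ)) with hI4
  have hI1n : ∀ θ, 0 ≤ I1 θ := fun θ => indicator_nonneg (fun _ _ => zero_le_one) θ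
  have hI2n : ∀ θ, 0 ≤ I2 θ := fun θ => indicator_nonneg (fun _ _ => zero_le_one) θ
  have hI3n : ∀ θ, 0 ≤ I3 θ := fun θ => indicator_nonneg (fun _ _ => zero_le_one) θ
  have hI4n : ∀ θ, 0 ≤ I4 θ := fun θ => indicator_nonneg (fun _ _ => zero_le_one) θ
  have hpt : ∀ θ ∈ Icc (-π) π, LL Φ (w₀ + ρ * ee (θ : ℂ)) ≤
      K + B * (I1 θ + I2 θ + I3 θ) + (B + 36 * ρ * T) * I4 θ := by
    intro θ hθ
    set w : ℂ := w₀ + ρ * ee (θ : ℂ) with hw
    have hwre : w.re = t + ρ * Real.cos θ := hre θ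
    have hwim : w.im = -y + ρ * Real.sin θ := him θ
    have hc1 : |w.re - t| ≤ ρ := by
      rw [hwre, add_sub_cancel_left, abs_mul, abs_of_pos hρ]
      exact mul_le_of_le_one_right hρ.le (Real.abs_cos_le_one θ)
    have hweq : w = Complex.mk w.re (-(-w.im)) := by rw [neg_neg]
    have hbr : 0 ≤ B * (I1 θ + I2 θ + I3 θ) :=
      mul_nonneg hB (by linarith [hI1n θ, hI2n θ, hI3n θ])
    have hCT : 0 ≤ B + 36 * ρ * T := by positivity
    have hbr4 : 0 ≤ (B + 36 * ρ * T) * I4 θ := mul_nonneg hCT (hI4n θ)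
    rcases le_or_gt w.im (-(η * ρ)) with hA | hA
    · -- far below
      have hs1 : -1 ≤ Real.sin θ := Real.neg_one_le_sin θ
      have : LL Φ w ≤ K := by
        rw [hweq]
        apply h2 _ _ (by linarith) (by linarith)
        rw [hwim]
        nlinarith
      linarith
    · rcases le_or_gt w.im 0 with hBc | hCc
      · -- close below
        have hle : LL Φ w ≤ B := by
          rw [hweq]
          apply h1 _ _ (by linarith) (by linarith)
          nlinarith
        have hsin : |Real.sin θ| ≤ η := by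
          rw [abs_le]
          constructor
          · have : -(η * ρ) < ρ * Real.sin θ := by linarith
            nlinarith
          · have : ρ * Real.sin θ ≤ η * ρ := by linarith
            nlinarith
        have hone : 1 ≤ I1 θ + I2 θ + I3 θ := by
          rcases core_sin hθ hsin with h | h | h
          · have : I1 θ = 1 := indicator_of_mem h _
            linarith [hI2n θ, hI3n θ]
          · have : I2 θ = 1 := indicator_of_mem h _
            linarith [hI1n θ, hI3n θ]
          · have : I3 θ = 1 := indicator_of_mem h _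
            linarith [hI1n θ, hI2n θ]
        nlinarith
      · -- above
        have hsin : 0 < Real.sin θ := by
          have : 0 < ρ * Real.sin θ := by linarith
          exact (mul_pos_iff_of_pos_left hρ).1 this
        have hθ0 : 0 ≤ θ := by
          by_contra hneg
          have hneg := not_le.1 hneg
          have := Real.sin_nonpos_of_nonpos_of_neg_pi_le hneg.le hθ.1
          linarith
        have hI41 : I4 θ = 1 := indicator_of_mem (show θ ∈ Icc 0 π from ⟨hθ0, hθ.2⟩) _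
        have hwρ : w.im ≤ ρ := by
          rw [hwim]
          have := Real.sin_le_one θ
          nlinarith
        have hup := core_up hP hρ hρR hR1 hB hrange hCc hwρ hc1
        rw [hI41]
        linarith
  -- integrate
  have hcont : IntervalIntegrable (fun θ : ℝ => LL Φ (w₀ + ρ * ee (θ : ℂ))) volume (-π) π := by
    apply Continuous.intervalIntegrable
    have hc : ContinuousOn (fun w => Φ (ee w)) U := hdiff.continuousOn
    have hm : Continuous (fun θ : ℝ => w₀ + ρ * ee (θ : ℂ)) := by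
      have := differentiable_ee.continuous
      fun_prop
    have hcomp : Continuous (fun θ : ℝ => Φ (ee (w₀ + ρ * ee (θ : ℂ)))) := by
      apply hc.comp_continuous hm
      intro θ
      apply hsub
      rw [Metric.mem_closedBall, dist_eq_norm, add_sub_cancel_left, norm_mul, norm_ee_real, mul_one,
        Complex.norm_real, Real.norm_eq_abs, abs_of_pos hρ]
    unfold LL
    exact Real.continuous_posLog.comp hcomp.norm
  obtain ⟨i1, j1⟩ := core_ind (show -a ≤ a by linarith)
  obtain ⟨i2, j2⟩ := core_ind (show π - a ≤ π by linarith)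
  obtain ⟨i3, j3⟩ := core_ind (show -π ≤ -π + a by linarith)
  obtain ⟨i4, j4⟩ := core_ind (show (0 : ℝ) ≤ π by linarith)
  have hiK : IntervalIntegrable (fun _ : ℝ => K) volume (-π) π := intervalIntegrable_const
  have hi123 : IntervalIntegrable (fun θ => B * (I1 θ + I2 θ + I3 θ)) volume (-π) π :=
    ((i1.add i2).add i3).const_mul B
  have hi4 : IntervalIntegrable (fun θ => (B + 36 * ρ * T) * I4 θ) volume (-π) π := i4.const_mul _
  have hint := intervalIntegral.integral_mono_on (by linarith : -π ≤ π) hcont ((hiK.add hi123).add hi4) hpt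
  have hval : ∫ θ in (-π)..π, (K + B * (I1 θ + I2 θ + I3 θ) + (B + 36 * ρ * T) * I4 θ) ≤
      2 * π * K + B * (4 * a) + (B + 36 * ρ * T) * π := by
    rw [intervalIntegral.integral_add (hiK.add hi123) hi4, intervalIntegral.integral_add hiK hi123,
      intervalIntegral.integral_const, intervalIntegral.integral_const_mul,
      intervalIntegral.integral_const_mul, intervalIntegral.integral_add (i1.add i2) i3,
      intervalIntegral.integral_add i1 i2]
    have hCT : 0 ≤ B + 36 * ρ * T := by positivity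
    have e1 : (∫ θ in (-π)..π, I1 θ) + (∫ θ in (-π)..π, I2 θ) + (∫ θ in (-π)..π, I3 θ) ≤ 4 * a := by
      linarith
    have e2 : B * ((∫ θ in (-π)..π, I1 θ) + (∫ θ in (-π)..π, I2 θ) + (∫ θ in (-π)..π, I3 θ)) ≤
        B * (4 * a) := mul_le_mul_of_nonneg_left e1 hB
    have e3 : (B + 36 * ρ * T) * (∫ θ in (-π)..π, I4 θ) ≤ (B + 36 * ρ * T) * π :=
      mul_le_mul_of_nonneg_left (by linarith) hCT
    have e4 : (π - -π) • K = 2 * π * K := by rw [smul_eq_mul]; ring
    rw [e4]
    linarith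
  have hfin : (∫ θ in (-π)..π, LL Φ (w₀ + ρ * ee (θ : ℂ))) ≤
      2 * π * K + B * (4 * a) + (B + 36 * ρ * T) * π := hint.trans hval
  have hsc : (1 / (2 * π)) * (∫ θ in (-π)..π, LL Φ (w₀ + ρ * ee (θ : ℂ))) ≤
      (1 / (2 * π)) * (2 * π * K + B * (4 * a) + (B + 36 * ρ * T) * π) :=
    mul_le_mul_of_nonneg_left hfin (by positivity)
  have hcalc : (1 / (2 * π)) * (2 * π * K + B * (4 * a) + (B + 36 * ρ * T) * π) =
      K + η * B + (B + 36 * ρ * T) / 2 := by
    rw [ha]
    field_simp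
    ring
  have hρT : 0 ≤ 36 * ρ * T := by positivity
  have := hgoal.trans hsc
  rw [hcalc] at this
  linarith

end MP_9d6c91_an
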