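import Pool.Agent.Lib.MP_9d6c91_an.Geo

/-!
# JOB COREA : mean value inequality for `log⁺ |f|` and the basic estimate

* `posLog_le_mean` : if `‖f c‖ ≤ 1` the left side is `0`; otherwise `f c ≠ 0` and Jensen
  (`AnalyticOnNhd.circleAverage_log_norm`, the divisor sum is `≥ 0` because `f` is analytic) gives
  `log ‖f c‖ ≤ circleAverage (log ‖f ·‖) c R ≤ circleAverage (log⁺ ‖f ·‖) c R`.
* `log_le_mean_arc` : same for a bound of the modulus: `‖f‖ ≤ C` on the circle, `‖f‖ ≤ m` (`m ≤ C`) on the arc `θ ∈ [π/3, 2π/3]` (one sixth of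
  the circle) `⇒ ‖f c‖ ≤ C^(5/6) m^(1/6)` (apply Jensen to `f / m`).
-/

set_option autoImplicit false

open MeasureTheory Complex Filter Topology Set
open scoped ENNReal Real

namespace MP_9d6c91_an

private theorem corea_map (c : ℂ) (R θ : ℝ) : circleMap c R θ = c + R * ee (θ : ℂ) := by
  unfold circleMap ee
  rw [mul_comm I]

private theorem corea_per (c : ℂ) (R : ℝ) {h : ℂ → ℝ} :
    Function.Periodic (fun θ : ℝ => h (c + R * ee (θ : ℂ))) (2 * π) := by
  intro θ
  have : ee ((θ + 2 * π : ℝ) : ℂ) = ee (θ : ℂ) := by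
    have := ee_periodic (θ : ℂ)
    push_cast
    exact this
  simp only [this]

/-- Jensen -/
private theorem corea_jensen {f : ℂ → ℂ} {c : ℂ} {R : ℝ} (hR : 0 < R) {U : Set ℂ} (hU : IsOpen U)
    (hsub : Metric.closedBall c R ⊆ U) (hf : DifferentiableOn ℂ f U) (hfc : f c ≠ 0) :
    IntervalIntegrable (fun θ : ℝ => Real.log ‖f (c + R * ee (θ : ℂ))‖) volume (-π) π ∧
    Real.log ‖f c‖ ≤ (1 / (2 * π)) * ∫ θ in (-π)..π, Real.log ‖f (c + R * ee (θ : ℂ))‖ := by
  have hpi := Real.pi_pos
  have habs : |R| = R := abs_of_pos hR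
  have han : AnalyticOnNhd ℂ f (Metric.closedBall c |R|) := by
    rw [habs]
    exact (hf.analyticOnNhd hU).mono hsub
  have hJ := AnalyticOnNhd.circleAverage_log_norm hR.ne' han hfc
  have hnn : 0 ≤ ∑ᶠ u, (MeromorphicOn.divisor f (Metric.closedBall c |R|) u : ℝ) * Real.log (R * ‖c - u‖⁻¹) := by
    apply finsum_nonneg
    intro u
    by_cases hu : u ∈ Metric.closedBall c |R|
    · apply mul_nonneg (mod_cast MeromorphicOn.AnalyticOnNhd.divisor_nonneg han u)
      rcases eq_or_ne u c with rfl | hne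
      · simp
      · apply Real.log_nonneg
        have h1 : 0 < ‖c - u‖ := norm_pos_iff.2 (sub_ne_zero.2 hne.symm)
        rw [← div_eq_mul_inv, le_div_iff₀ h1, one_mul]
        rw [habs, Metric.mem_closedBall, dist_comm, dist_eq_norm] at hu
        exact hu
    · rw [Function.locallyFinsuppWithin.apply_eq_zero_of_notMem _ hu]
      simp
  have hci : CircleIntegrable (fun z => Real.log ‖f z‖) c R :=
    (han.mono Metric.sphere_subset_closedBall).meromorphicOn.circleIntegrable_log_norm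
  have hper := corea_per c R (h := fun z => Real.log ‖f z‖)
  have hii : IntervalIntegrable (fun θ : ℝ => Real.log ‖f (c + R * ee (θ : ℂ))‖) volume 0 (0 + 2 * π) := by
    rw [zero_add]
    have : IntervalIntegrable (fun θ : ℝ => Real.log ‖f (circleMap c R θ)‖) volume 0 (2 * π) := hci
    simpa only [corea_map] using this
  refine ⟨hper.intervalIntegrable (by positivity) hii _ _, ?_⟩
  have h1 : Real.log ‖f c‖ ≤ Real.circleAverage (fun z => Real.log ‖f z‖) c R := by
    rw [hJ]
    linarith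
  refine h1.trans (le_of_eq ?_)
  rw [Real.circleAverage_def, smul_eq_mul, one_div]
  congr 1
  simp only [corea_map]
  have h2 := hper.intervalIntegral_add_eq 0 (-π)
  rw [zero_add] at h2
  rw [h2]
  congr 1
  ring

theorem posLog_le_mean {f : ℂ → ℂ} {c : ℂ} {R : ℝ} (hR : 0 < R) {U : Set ℂ} (hU : IsOpen U)
    (hsub : Metric.closedBall c R ⊆ U) (hf : DifferentiableOn ℂ f U) :
    Real.posLog ‖f c‖ ≤ (1 / (2 * π)) * ∫ θ in (-π)..π, Real.posLog ‖f (c + R * ee (θ : ℂ))‖ := by
  have hpi := Real.pi_pos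
  have hnn : 0 ≤ ∫ θ in (-π)..π, Real.posLog ‖f (c + R * ee (θ : ℂ))‖ :=
    intervalIntegral.integral_nonneg (by linarith) (fun _ _ => Real.posLog_nonneg)
  rcases le_or_gt ‖f c‖ 1 with h1 | h1
  · have : Real.posLog ‖f c‖ = 0 := by
      rw [Real.posLog_eq_zero_iff, abs_of_nonneg (norm_nonneg _)]
      exact h1
    rw [this]
    positivity
  · have hfc : f c ≠ 0 := by
      intro h
      rw [h, norm_zero] at h1
      linarith
    obtain ⟨hii, hle⟩ := corea_jensen hR hU hsub hf hfc
    have h2 : Real.posLog ‖f c‖ = Real.log ‖f c‖ := by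
      apply Real.posLog_eq_log
      rw [abs_of_nonneg (norm_nonneg _)]
      exact h1.le
    rw [h2]
    refine hle.trans ?_
    apply mul_le_mul_of_nonneg_left _ (by positivity)
    have hcont : IntervalIntegrable (fun θ : ℝ => Real.posLog ‖f (c + R * ee (θ : ℂ))‖) volume (-π) π := by
      apply Continuous.intervalIntegrable
      have hm : Continuous (fun θ : ℝ => c + R * ee (θ : ℂ)) := by
        have := differentiable_ee.continuous
        fun_prop
      have hcomp : Continuous (fun θ : ℝ => f (c + R * ee (θ : ℂ))) := by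
        apply hf.continuousOn.comp_continuous hm
        intro θ
        apply hsub
        rw [Metric.mem_closedBall, dist_eq_norm, add_sub_cancel_left, norm_mul, norm_ee_real, mul_one,
          Complex.norm_real, Real.norm_eq_abs, abs_of_pos hR]
      exact Real.continuous_posLog.comp hcomp.norm
    apply intervalIntegral.integral_mono_on (by linarith) hii hcont
    intro θ _
    exact le_max_right _ _

theorem log_le_mean_arc {f : ℂ → ℂ} {c : ℂ} {R : ℝ} (hR : 0 < R) {U : Set ℂ} (hU : IsOpen U)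
    (hsub : Metric.closedBall c R ⊆ U) (hf : DifferentiableOn ℂ f U) {C m : ℝ} (hm : 0 < m) (hmC : m ≤ C)
    (hC : ∀ w ∈ Metric.sphere c R, ‖f w‖ ≤ C)
    (hm' : ∀ θ : ℝ, π / 3 ≤ θ → θ ≤ 2 * π / 3 → ‖f (c + R * ee (θ : ℂ))‖ ≤ m) :
    ‖f c‖ ≤ C ^ (5 / 6 : ℝ) * m ^ (1 / 6 : ℝ) := by
  have hpi := Real.pi_pos
  have hC0 : 0 < C := lt_of_lt_of_le hm hmC
  by_cases hfc : f c = 0
  · rw [hfc, norm_zero]
    positivity
  set g : ℂ → ℂ := fun z => f z / (m : ℂ) with hg
  have hmc : (m : ℂ) ≠ 0 := by exact_mod_cast hm.ne'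
  have hgn : ∀ z, ‖g z‖ = ‖f z‖ / m := by
    intro z
    rw [hg]
    simp only [norm_div, Complex.norm_real, Real.norm_eq_abs, abs_of_pos hm]
  have hgd : DifferentiableOn ℂ g U := hf.div_const _
  have hgc : g c ≠ 0 := div_ne_zero hfc hmc
  obtain ⟨hii, hle⟩ := corea_jensen hR hU hsub hgd hgc
  set L : ℝ := Real.log (C / m) with hL
  have hL0 : 0 ≤ L := Real.log_nonneg ((one_le_div hm).2 hmC)
  set I1 : ℝ → ℝ := (Icc (π / 3) (2 * π / 3)).indicator (fun _ => (1 : ℝ)) with hI1
  have hInt : Integrable I1 :=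
    (integrable_indicator_iff measurableSet_Icc).2 (integrableOn_const (by simp) (by simp))
  have hI1i : IntervalIntegrable (fun θ => L * I1 θ) volume (-π) π := (hInt.const_mul L).intervalIntegrable
  have hcL : IntervalIntegrable (fun _ : ℝ => L) volume (-π) π := intervalIntegrable_const
  have hpt : ∀ θ ∈ Icc (-π) π, Real.log ‖g (c + R * ee (θ : ℂ))‖ ≤ L - L * I1 θ := by
    intro θ _
    have hlog : ∀ x y : ℝ, 0 ≤ x → 1 ≤ y → x ≤ y → Real.log x ≤ Real.log y := by
      intro x y hx hy hxy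
      rcases hx.eq_or_lt with h0 | h0
      · rw [← h0, Real.log_zero]
        exact Real.log_nonneg hy
      · exact Real.log_le_log h0 hxy
    by_cases hθ : θ ∈ Icc (π / 3) (2 * π / 3)
    · have h1 : I1 θ = 1 := indicator_of_mem hθ _
      rw [h1, mul_one, sub_self, ← Real.log_one]
      apply hlog _ _ (norm_nonneg _) le_rfl
      rw [hgn, div_le_one hm]
      exact hm' θ hθ.1 hθ.2
    · have h1 : I1 θ = 0 := indicator_of_notMem hθ _
      rw [h1, mul_zero, sub_zero, hL]
      apply hlog _ _ (norm_nonneg _) ((one_le_div hm).2 hmC)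
      rw [hgn]
      apply div_le_div_of_nonneg_right _ hm.le
      apply hC
      rw [mem_sphere_iff_norm, add_sub_cancel_left, norm_mul, norm_ee_real, mul_one,
        Complex.norm_real, Real.norm_eq_abs, abs_of_pos hR]
  have hmono := intervalIntegral.integral_mono_on (by linarith : -π ≤ π) hii (hcL.sub hI1i) hpt
  have hval : ∫ θ in (-π)..π, (L - L * I1 θ) = 2 * π * L - L * (π / 3) := by
    rw [intervalIntegral.integral_sub hcL hI1i, intervalIntegral.integral_const,
      intervalIntegral.integral_const_mul]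
    have e1 : ∫ θ in (-π)..π, I1 θ = π / 3 := by
      rw [intervalIntegral.integral_of_le (by linarith), hI1, setIntegral_indicator measurableSet_Icc]
      have e2 : Ioc (-π) π ∩ Icc (π / 3) (2 * π / 3) = Icc (π / 3) (2 * π / 3) := by
        apply inter_eq_right.2
        rintro x ⟨h1, h2⟩
        exact ⟨by linarith, by linarith⟩
      rw [e2]
      have e3 : π / 3 ≤ 2 * π / 3 := by linarith
      simp [Real.volume_real_Icc_of_le e3]
      ring
    rw [e1, smul_eq_mul]
    ring
  rw [hval] at hmono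
  have hfin : Real.log ‖g c‖ ≤ 5 / 6 * L := by
    refine hle.trans ?_
    calc (1 / (2 * π)) * ∫ θ in (-π)..π, Real.log ‖g (c + R * ee (θ : ℂ))‖
        ≤ (1 / (2 * π)) * (2 * π * L - L * (π / 3)) := mul_le_mul_of_nonneg_left hmono (by positivity)
      _ = 5 / 6 * L := by field_simp; ring
  have hgcpos : 0 < ‖g c‖ := norm_pos_iff.2 hgc
  have h5 : ‖g c‖ ≤ (C / m) ^ (5 / 6 : ℝ) := by
    rw [Real.rpow_def_of_pos (by positivity), ← Real.exp_log hgcpos]
    apply Real.exp_le_exp.2
    linarith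
  rw [hgn, div_le_iff₀ hm, Real.div_rpow hC0.le hm.le] at h5
  refine h5.trans (le_of_eq ?_)
  have h6 : m ^ (5 / 6 : ℝ) * m ^ (1 / 6 : ℝ) = m := by
    rw [← Real.rpow_add hm]
    norm_num
  have hmp : 0 < m ^ (5 / 6 : ℝ) := Real.rpow_pos_of_pos hm _
  calc C ^ (5 / 6 : ℝ) / m ^ (5 / 6 : ℝ) * m
      = C ^ (5 / 6 : ℝ) / m ^ (5 / 6 : ℝ) * (m ^ (5 / 6 : ℝ) * m ^ (1 / 6 : ℝ)) := by rw [h6]
    _ = C ^ (5 / 6 : ℝ) * m ^ (1 / 6 : ℝ) := by field_simp

end MP_9d6c91_an
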