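import Mathlib

/-!
# MP_9d6c91_an : definitions

`0 < α < 1`, `β = α / (1 + α)`.  Functions of the Gevrey class are given by their Taylor coefficients
`a : ℕ → ℂ`, `|a n| ≤ A exp (-δ n^β)` (`Gv β a`), continuous functionals by sequences `b` with
`|b n| ≤ A_ε exp (ε n^β)` for all `ε > 0` (`Gd β b`), pairing `∑ a n * b n`.
`ee w = exp (i w)` (a point of the unit circle for real `w`, of the disc for `Im w > 0`).
The exceptional set is a closed `2π`-periodic set `E` of real numbers; `dE E t` is the distance to `E`.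
-/

set_option autoImplicit false

open MeasureTheory Complex Filter Topology Set
open scoped ENNReal Real

namespace MP_9d6c91_an

noncomputable section

/-- decay of coefficients with given constants -/
def GvC (β A δ : ℝ) (a : ℕ → ℂ) : Prop := ∀ n : ℕ, ‖a n‖ ≤ A * Real.exp (-δ * (n : ℝ) ^ β)

/-- coefficients of functions of the Gevrey class -/
def Gv (β : ℝ) (a : ℕ → ℂ) : Prop := ∃ A δ : ℝ, 0 < δ ∧ GvC β A δ a

/-- coefficients of continuous functionals -/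
def Gd (β : ℝ) (b : ℕ → ℂ) : Prop :=
  ∀ ε : ℝ, 0 < ε → ∃ A : ℝ, ∀ n : ℕ, ‖b n‖ ≤ A * Real.exp (ε * (n : ℝ) ^ β)

/-- the sum of the power series -/
def ev (a : ℕ → ℂ) (z : ℂ) : ℂ := ∑' n, a n * z ^ n

/-- the `j`-th derivative of the power series -/
def dv (j : ℕ) (a : ℕ → ℂ) (z : ℂ) : ℂ := ∑' n, (n.descFactorial j : ℂ) * a n * z ^ (n - j)

/-- Cauchy product -/
def cmul (a b : ℕ → ℂ) (n : ℕ) : ℂ := ∑ k ∈ Finset.range (n + 1), a k * b (n - k)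

/-- coefficients of `z^m * a` -/
def sh (m : ℕ) (a : ℕ → ℂ) (n : ℕ) : ℂ := if m ≤ n then a (n - m) else 0

/-- truncation -/
def tr (N : ℕ) (a : ℕ → ℂ) (n : ℕ) : ℂ := if n ≤ N then a n else 0

/-- degree of the truncation used at scale `y` -/
def NN (α δ y : ℝ) : ℕ := ⌊(δ / (16 * y)) ^ (1 + α)⌋₊

/-- coefficients of the constant function `1` -/
def one1 (n : ℕ) : ℂ := if n = 0 then 1 else 0

/-- the pairing -/
def pr (c a : ℕ → ℂ) : ℂ := ∑' n, a n * c n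

/-- the functional `g c`, i.e. `(act g c) m = ⟨c, z^m g⟩` -/
def act (g c : ℕ → ℂ) (m : ℕ) : ℂ := ∑' n, g n * c (n + m)

/-- `s` is an isometric multiplier of `ℓ²` -/
def IsoM (s : ℕ → ℂ) : Prop := ∀ h : ℕ → ℂ, (Summable fun n => ‖h n‖ ^ 2) →
  (Summable fun n => ‖cmul s h n‖ ^ 2) ∧ ∑' n, ‖cmul s h n‖ ^ 2 = ∑' n, ‖h n‖ ^ 2

/-- the analytic part of the product `a * ∑ b i z^(-i-1)` -/
def hh (a b : ℕ → ℂ) (j : ℕ) : ℂ := ∑' i, a (j + 1 + i) * b i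

/-- `a` is in the annihilator ideal of the functional `b` -/
def InK (β : ℝ) (b a : ℕ → ℂ) : Prop := Gv β a ∧ ∀ m, act a b m = 0

/-- the Cauchy transform of the functional outside of the disc -/
def outF (b : ℕ → ℂ) (z : ℂ) : ℂ := ∑' n, b n * (z⁻¹) ^ (n + 1)

/-- `exp (i w)` -/
def ee (w : ℂ) : ℂ := Complex.exp (I * w)

/-- distance to `E` -/
def dE (E : Set ℝ) (t : ℝ) : ℝ := Metric.infDist t E

/-- closed periodic null sets -/
structure GE (E : Set ℝ) : Prop where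
  closed : IsClosed E
  per : ∀ x : ℝ, x ∈ E ↔ x + 2 * π ∈ E
  null : volume E = 0

/-- the subset of the unit circle -/
def EE (E : Set ℝ) : Set ℂ := (fun x : ℝ => ee (x : ℂ)) '' E

/-- all derivatives vanish on `E` -/
def Flat (E : Set ℝ) (a : ℕ → ℂ) : Prop := ∀ x ∈ E, ∀ j : ℕ, dv j a (ee (x : ℂ)) = 0

/-- the nonlocal operator -/
def Jr (d : ℝ → ℝ) (X : ℝ → ℝ) (t : ℝ) : ℝ := ∫ s, X s * (1 / (d t + |t - s|) ^ 2)

/-- nonnegative periodic locally integrable functions -/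
structure PX (X : ℝ → ℝ) : Prop where
  meas : Measurable X
  nonneg : ∀ t, 0 ≤ X t
  per : ∀ t, X (t + 2 * π) = X t
  int : IntervalIntegrable X volume (-π) π

/-- Poisson kernel -/
def Pk (z : ℂ) (s : ℝ) : ℝ := (1 - ‖z‖ ^ 2) / ‖ee (s : ℂ) - z‖ ^ 2 / (2 * π)

/-- Poisson integral -/
def PI (X : ℝ → ℝ) (z : ℂ) : ℝ := ∫ s in (-π)..π, X s * Pk z s

/-- Herglotz integral -/
def HI (X : ℝ → ℝ) (z : ℂ) : ℂ :=
  ∫ s in (-π)..π, (X s : ℂ) * ((ee (s : ℂ) + z) / (ee (s : ℂ) - z) / (2 * π))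

/-- `log⁺ |Φ (e^{iw})|` -/
def LL (Φ : ℂ → ℂ) (w : ℂ) : ℝ := Real.posLog ‖Φ (ee w)‖

/-- `log (M / |g (e^{it})|)` -/
def uu (M : ℝ) (g : ℕ → ℂ) (t : ℝ) : ℝ := Real.log (M / ‖ev g (ee (t : ℂ))‖)

/-- the weight `W = d^(-α) + J[u]^β` -/
def WW (α β : ℝ) (E : Set ℝ) (u : ℝ → ℝ) (t : ℝ) : ℝ := (dE E t) ^ (-α) + (Jr (dE E) u t) ^ β

/-- the properties of the Cauchy transform used in the analytic part of the proof -/
structure PhiD (α : ℝ) (E : Set ℝ) (Φ : ℂ → ℂ) : Prop where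
  dif : DifferentiableOn ℂ Φ (EE E)ᶜ
  zer : ∀ z ∈ EE E, Φ z = 0
  out : ∀ ε : ℝ, 0 < ε → ∃ κ : ℝ, 0 ≤ κ ∧
    ∀ w : ℂ, -1 ≤ w.im → w.im < 0 → LL Φ w ≤ κ + ε * (-w.im) ^ (-α)
  px : PX (fun t : ℝ => LL Φ (t : ℂ))
  pl : ∀ w : ℂ, 0 < w.im → LL Φ w ≤ PI (fun t : ℝ => LL Φ (t : ℂ)) (ee w)

end

end MP_9d6c91_an
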