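import Pool.Agent.Lib.MP_9d6c91_an.Seq

/-!
# JOB DERIVB : derivative bounds and coefficient bounds

`β = α / (1 + α)`, so `1 / β = 1 + 1 / α` and `1 - β = 1 / (1 + α)`.
* `exists_coeff` : `|a_k| r^k ≤ ...`; Cauchy for `f^{(n)}`: `|a_k| k (k-1) ... (k-n+1) ≤ C Q^n n! n^(n/α)` for
  `n ≤ k` (the coefficient of `z^(k-n)` of `f^{(n)}` is `a_k k!/(k-n)!`), and for `n ≤ k / 2` the falling
  factorial is `≥ (k/2)^n`; `n! ≤ n^n`.  So `|a_k| ≤ C (2 Q n^(1/β) / k)^n`; take `n = ⌊c k^β⌋`.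
* `deriv_bound` : `|f^{(n)}(z)| ≤ ∑_k k^n A exp (-δ k^β)` and `x^n exp (-(δ/2) x^β) ≤ (2 n / (e β δ))^(n/β)`,
  `n^(n/β) = n^n n^(n/α) ≤ e^n n! n^(n/α)`.
* `tendsto_iteratedDeriv` : the series for the `j`-th derivative converges uniformly on the closed disc.
-/

set_option autoImplicit false

open MeasureTheory Complex Filter Topology Set
open scoped ENNReal Real

namespace MP_9d6c91_an

private theorem derivB_term_deriv (a : ℕ → ℂ) (n k : ℕ) (z : ℂ) :
    HasDerivAt (fun z : ℂ => (k.descFactorial n : ℂ) * a k * z ^ (k - n))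
      ((k.descFactorial (n + 1) : ℂ) * a k * z ^ (k - (n + 1))) z := by
  have h1 := (hasDerivAt_pow (k - n) z).const_mul ((k.descFactorial n : ℂ) * a k)
  have h2 : (k.descFactorial n : ℂ) * a k * (((k - n : ℕ) : ℂ) * z ^ (k - n - 1))
      = (k.descFactorial (n + 1) : ℂ) * a k * z ^ (k - (n + 1)) := by
    rw [Nat.descFactorial_succ, Nat.sub_sub, Nat.cast_mul]
    ring
  rw [h2] at h1
  exact h1

private theorem derivB_descFactorial_le (n k : ℕ) :
    (k.descFactorial n : ℝ) ≤ ((k : ℝ) + 1) ^ n := by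
  have h1 : (k.descFactorial n : ℝ) ≤ (k : ℝ) ^ n := by
    exact_mod_cast Nat.descFactorial_le_pow k n
  exact h1.trans (pow_le_pow_left₀ (Nat.cast_nonneg k) (by linarith) n)

private theorem derivB_norm_term (a : ℕ → ℂ) (n k : ℕ) {z : ℂ} (hz : ‖z‖ ≤ 1) :
    ‖(k.descFactorial n : ℂ) * a k * z ^ (k - n)‖ ≤ ((k : ℝ) + 1) ^ n * ‖a k‖ := by
  rw [norm_mul, norm_mul, Complex.norm_natCast, norm_pow]
  have h1 : ‖z‖ ^ (k - n) ≤ 1 := pow_le_one₀ (norm_nonneg z) hz
  have h2 := derivB_descFactorial_le n k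
  calc (k.descFactorial n : ℝ) * ‖a k‖ * ‖z‖ ^ (k - n)
      ≤ (k.descFactorial n : ℝ) * ‖a k‖ * 1 := mul_le_mul_of_nonneg_left h1 (by positivity)
    _ = (k.descFactorial n : ℝ) * ‖a k‖ := mul_one _
    _ ≤ ((k : ℝ) + 1) ^ n * ‖a k‖ := mul_le_mul_of_nonneg_right h2 (norm_nonneg _)

private theorem derivB_hasDerivAt {a : ℕ → ℂ}
    (ha : ∀ j : ℕ, Summable fun n : ℕ => ((n : ℝ) + 1) ^ j * ‖a n‖) (n : ℕ) {z : ℂ}
    (hz : z ∈ Metric.ball (0 : ℂ) 1) : HasDerivAt (dv n a) (dv (n + 1) a z) z := by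
  have h0 : (0 : ℂ) ∈ Metric.ball (0 : ℂ) 1 := Metric.mem_ball_self one_pos
  refine hasDerivAt_tsum_of_isPreconnected (u := fun k : ℕ => ((k : ℝ) + 1) ^ (n + 1) * ‖a k‖)
    (g := fun k z => (k.descFactorial n : ℂ) * a k * z ^ (k - n))
    (g' := fun k z => (k.descFactorial (n + 1) : ℂ) * a k * z ^ (k - (n + 1)))
    (ha (n + 1)) Metric.isOpen_ball (convex_ball (0 : ℂ) 1).isPreconnected
    (fun k y _ => derivB_term_deriv a n k y) (fun k y hy => ?_) h0 ?_ hz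
  · rw [mem_ball_zero_iff] at hy
    exact derivB_norm_term a (n + 1) k hy.le
  · refine Summable.of_norm_bounded (ha n) (fun k => ?_)
    exact derivB_norm_term a n k (by rw [norm_zero]; exact zero_le_one)

private theorem derivB_iteratedDeriv {a : ℕ → ℂ}
    (ha : ∀ j : ℕ, Summable fun n : ℕ => ((n : ℝ) + 1) ^ j * ‖a n‖) {f : ℂ → ℂ}
    (hf : ∀ z ∈ Metric.ball (0 : ℂ) 1, f z = ev a z) (n : ℕ) :
    ∀ z ∈ Metric.ball (0 : ℂ) 1, iteratedDeriv n f z = dv n a z := by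
  induction n with
  | zero =>
    intro z hz
    rw [iteratedDeriv_zero, hf z hz]
    unfold ev dv
    refine tsum_congr (fun k => ?_)
    rw [Nat.descFactorial_zero, Nat.cast_one, one_mul, Nat.sub_zero]
  | succ n ih =>
    intro z hz
    rw [iteratedDeriv_succ]
    have h1 : iteratedDeriv n f =ᶠ[𝓝 z] dv n a := by
      filter_upwards [Metric.isOpen_ball.mem_nhds hz] with y hy
      exact ih y hy
    rw [h1.deriv_eq]
    exact (derivB_hasDerivAt ha n hz).deriv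

private theorem derivB_pow_le {c y m : ℝ} (hc : 0 < c) (hy : 0 ≤ y) (hm : 0 < m) :
    y ^ m * Real.exp (-c * y) ≤ (m / c) ^ m := by
  have h1 : c * y / m ≤ Real.exp (c * y / m) := by
    have := Real.add_one_le_exp (c * y / m)
    linarith
  have h2 : (c * y / m) ^ m ≤ Real.exp (c * y / m) ^ m :=
    Real.rpow_le_rpow (by positivity) h1 hm.le
  have h3 : Real.exp (c * y / m) ^ m = Real.exp (c * y) := by
    rw [← Real.exp_mul]
    congr 1
    field_simp
  rw [h3] at h2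
  have h4 : y = (m / c) * (c * y / m) := by field_simp
  have h5 : y ^ m = (m / c) ^ m * (c * y / m) ^ m := by
    rw [← Real.mul_rpow (by positivity) (by positivity), ← h4]
  rw [h5, mul_assoc]
  have h6 : (c * y / m) ^ m * Real.exp (-c * y) ≤ 1 := by
    calc (c * y / m) ^ m * Real.exp (-c * y) ≤ Real.exp (c * y) * Real.exp (-c * y) :=
          mul_le_mul_of_nonneg_right h2 (Real.exp_pos _).le
      _ = 1 := by rw [← Real.exp_add]; simp
  have h7 : 0 ≤ (m / c) ^ m := Real.rpow_nonneg (by positivity) m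
  calc (m / c) ^ m * ((c * y / m) ^ m * Real.exp (-c * y)) ≤ (m / c) ^ m * 1 :=
        mul_le_mul_of_nonneg_left h6 h7
    _ = (m / c) ^ m := mul_one _

theorem deriv_bound {α δ : ℝ} (hα : 0 < α) (hδ : 0 < δ) :
    ∃ C Q : ℝ, 0 < C ∧ 0 < Q ∧ ∀ (a : ℕ → ℂ) (A : ℝ), GvC (α / (1 + α)) A δ a → ∀ f : ℂ → ℂ,
      (∀ z ∈ Metric.ball (0 : ℂ) 1, f z = ev a z) → ∀ n : ℕ, ∀ z ∈ Metric.ball (0 : ℂ) 1,
        ‖iteratedDeriv n f z‖ ≤ C * A * Q ^ n * (n.factorial : ℝ) * (n : ℝ) ^ ((n : ℝ) / α) := by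
  set β : ℝ := α / (1 + α) with hβ
  have hβ0 : 0 < β := by rw [hβ]; positivity
  set c : ℝ := δ / 2 with hc
  have hc0 : 0 < c := by rw [hc]; positivity
  have hsum := summable_exp_neg hβ0 hc0
  set S : ℝ := ∑' k : ℕ, Real.exp (-c * (k : ℝ) ^ β) with hS
  have hS0 : 0 ≤ S := tsum_nonneg (fun k => (Real.exp_pos _).le)
  set q : ℝ := (1 / (β * c)) ^ (1 / β) with hq
  have hq0 : 0 < q := Real.rpow_pos_of_pos (by positivity) _
  refine ⟨S + 1, Real.exp 1 * q, by linarith, by positivity, ?_⟩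
  intro a A ha f hf n z hz
  have hA : 0 ≤ A := by
    have h1 := ha 0
    have h2 := norm_nonneg (a 0)
    have h3 : 0 ≤ A * Real.exp (-δ * ((0 : ℕ) : ℝ) ^ β) := h2.trans h1
    exact nonneg_of_mul_nonneg_left h3 (Real.exp_pos _)
  have hGv : Gv β a := ⟨A, δ, hδ, ha⟩
  rw [derivB_iteratedDeriv (fun j => Gv.summable_dv hβ0 hGv j) hf n z hz]
  -- bound of the single terms
  set M : ℝ := q ^ n * (Real.exp 1 ^ n * (n.factorial : ℝ)) * (n : ℝ) ^ ((n : ℝ) / α) with hM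
  have hkey : ∀ k : ℕ, (k : ℝ) ^ n * Real.exp (-c * (k : ℝ) ^ β) ≤ M := by
    intro k
    rcases Nat.eq_zero_or_pos n with rfl | hn
    · have h1 : M = 1 := by
        rw [hM]
        simp
      rw [h1, pow_zero, one_mul]
      apply Real.exp_le_one_iff.2
      have := Real.rpow_nonneg (Nat.cast_nonneg k : (0 : ℝ) ≤ (k : ℝ)) β
      nlinarith
    · have hn0 : (0 : ℝ) < n := Nat.cast_pos.2 hn
      have hk0 : (0 : ℝ) ≤ k := Nat.cast_nonneg k
      have hm : 0 < (n : ℝ) / β := by positivity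
      have h1 := derivB_pow_le hc0 (Real.rpow_nonneg hk0 β) hm
      have h2 : ((k : ℝ) ^ β) ^ ((n : ℝ) / β) = (k : ℝ) ^ n := by
        rw [← Real.rpow_mul hk0, mul_div_cancel₀ _ hβ0.ne', Real.rpow_natCast]
      rw [h2] at h1
      refine h1.trans ?_
      have h3 : ((n : ℝ) / β / c) ^ ((n : ℝ) / β)
          = q ^ n * ((n : ℝ) ^ n * (n : ℝ) ^ ((n : ℝ) / α)) := by
        have e1 : (n : ℝ) / β / c = (1 / (β * c)) * n := by field_simp
        rw [e1, Real.mul_rpow (by positivity) hn0.le]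
        congr 1
        · rw [hq, ← Real.rpow_natCast, ← Real.rpow_mul (by positivity)]
          congr 1
          ring
        · rw [← Real.rpow_natCast, ← Real.rpow_add hn0]
          congr 1
          rw [hβ]
          field_simp
          ring
      rw [h3, hM]
      have h4 : (n : ℝ) ^ n ≤ Real.exp 1 ^ n * (n.factorial : ℝ) := by
        have h5 := Real.pow_div_factorial_le_exp (n : ℝ) hn0.le n
        rw [div_le_iff₀ (by positivity)] at h5
        rw [← Real.exp_nat_mul, mul_one]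
        exact h5
      have h6 : 0 ≤ (n : ℝ) ^ ((n : ℝ) / α) := Real.rpow_nonneg hn0.le _
      calc q ^ n * ((n : ℝ) ^ n * (n : ℝ) ^ ((n : ℝ) / α))
          ≤ q ^ n * (Real.exp 1 ^ n * (n.factorial : ℝ) * (n : ℝ) ^ ((n : ℝ) / α)) :=
            mul_le_mul_of_nonneg_left (mul_le_mul_of_nonneg_right h4 h6) (by positivity)
        _ = _ := by ring
  have hM0 : 0 ≤ M := by
    rw [hM]
    have h6 : 0 ≤ (n : ℝ) ^ ((n : ℝ) / α) := Real.rpow_nonneg (Nat.cast_nonneg n) _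
    positivity
  have hterm : ∀ k : ℕ, ‖(k.descFactorial n : ℂ) * a k * z ^ (k - n)‖
      ≤ A * M * Real.exp (-c * (k : ℝ) ^ β) := by
    intro k
    rw [mem_ball_zero_iff] at hz
    rw [norm_mul, norm_mul, Complex.norm_natCast, norm_pow]
    have h1 : ‖z‖ ^ (k - n) ≤ 1 := pow_le_one₀ (norm_nonneg z) hz.le
    have h2 : (k.descFactorial n : ℝ) ≤ (k : ℝ) ^ n := by
      exact_mod_cast Nat.descFactorial_le_pow k n
    have h3 : ‖a k‖ ≤ A * (Real.exp (-c * (k : ℝ) ^ β) * Real.exp (-c * (k : ℝ) ^ β)) := by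
      rw [← Real.exp_add]
      have : -c * (k : ℝ) ^ β + -c * (k : ℝ) ^ β = -δ * (k : ℝ) ^ β := by rw [hc]; ring
      rw [this]
      exact ha k
    have he := (Real.exp_pos (-c * (k : ℝ) ^ β)).le
    calc (k.descFactorial n : ℝ) * ‖a k‖ * ‖z‖ ^ (k - n)
        ≤ (k.descFactorial n : ℝ) * ‖a k‖ * 1 := mul_le_mul_of_nonneg_left h1 (by positivity)
      _ = (k.descFactorial n : ℝ) * ‖a k‖ := mul_one _
      _ ≤ (k : ℝ) ^ n * (A * (Real.exp (-c * (k : ℝ) ^ β) * Real.exp (-c * (k : ℝ) ^ β))) :=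
          mul_le_mul h2 h3 (norm_nonneg _) (by positivity)
      _ = A * ((k : ℝ) ^ n * Real.exp (-c * (k : ℝ) ^ β)) * Real.exp (-c * (k : ℝ) ^ β) := by ring
      _ ≤ A * M * Real.exp (-c * (k : ℝ) ^ β) :=
          mul_le_mul_of_nonneg_right (mul_le_mul_of_nonneg_left (hkey k) hA) he
  have hfin : ‖dv n a z‖ ≤ A * M * S := by
    unfold dv
    rw [hS, ← tsum_mul_left]
    exact tsum_of_norm_bounded ((hsum.mul_left (A * M)).hasSum) hterm
  refine hfin.trans ?_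
  have h7 : A * M * S ≤ A * M * (S + 1) :=
    mul_le_mul_of_nonneg_left (by linarith) (mul_nonneg hA hM0)
  refine h7.trans (le_of_eq ?_)
  rw [hM, mul_pow]
  ring

theorem tendsto_iteratedDeriv {β : ℝ} (hβ : 0 < β) {a : ℕ → ℂ} (ha : Gv β a) {f : ℂ → ℂ}
    (hf : ∀ z ∈ Metric.ball (0 : ℂ) 1, f z = ev a z) (j : ℕ) {z : ℂ}
    (hz : z ∈ Metric.closedBall (0 : ℂ) 1) :
    Tendsto (iteratedDeriv j f) (𝓝[Metric.ball (0 : ℂ) 1] z) (𝓝 (dv j a z)) := by
  have hcont : ContinuousOn (dv j a) (Metric.closedBall (0 : ℂ) 1) := by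
    refine continuousOn_tsum (u := fun k : ℕ => ((k : ℝ) + 1) ^ j * ‖a k‖)
      (fun k => (continuous_const.mul (continuous_pow _)).continuousOn)
      (Gv.summable_dv hβ ha j) (fun k y hy => ?_)
    rw [mem_closedBall_zero_iff] at hy
    exact derivB_norm_term a j k hy
  have h1 : Tendsto (dv j a) (𝓝[Metric.ball (0 : ℂ) 1] z) (𝓝 (dv j a z)) :=
    (hcont z hz).mono_left (nhdsWithin_mono z Metric.ball_subset_closedBall)
  refine h1.congr' ?_
  filter_upwards [self_mem_nhdsWithin] with y hy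
  exact (derivB_iteratedDeriv (fun j => Gv.summable_dv hβ ha j) hf j y hy).symm

theorem nhdsWithin_ball_neBot {z : ℂ} (hz : z ∈ Metric.closedBall (0 : ℂ) 1) :
    (𝓝[Metric.ball (0 : ℂ) 1] z).NeBot := by
  rw [← mem_closure_iff_nhdsWithin_neBot, closure_ball (0 : ℂ) one_ne_zero]
  exact hz

end MP_9d6c91_an
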