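import Pool.Agent.Lib.MP_9d6c91_an.Seq

/-!
# JOB DERIVA : derivative bounds and coefficient bounds

`β = α / (1 + α)`, so `1 / β = 1 + 1 / α` and `1 - β = 1 / (1 + α)`.
* `exists_coeff` : `|a_k| r^k ≤ ...`; Cauchy for `f^{(n)}`: `|a_k| k (k-1) ... (k-n+1) ≤ C Q^n n! n^(n/α)` for
  `n ≤ k` (the coefficient of `z^(k-n)` of `f^{(n)}` is `a_k k!/(k-n)!`), and for `n ≤ k / 2` the falling
  factorial is `≥ (k/2)^n`; `n! ≤ n^n`.  So `|a_k| ≤ C (2 Q n^(1/β) / k)^n`; take `n = ⌊c k^β⌋`.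
-/

set_option autoImplicit false

open MeasureTheory Complex Filter Topology Set
open scoped ENNReal Real

namespace MP_9d6c91_an

private theorem derivA_diff {f : ℂ → ℂ} (hf : DifferentiableOn ℂ f (Metric.ball (0 : ℂ) 1))
    (n : ℕ) : DifferentiableOn ℂ (iteratedDeriv n f) (Metric.ball (0 : ℂ) 1) := by
  induction n with
  | zero => simpa using hf
  | succ n ih =>
    rw [iteratedDeriv_succ]
    exact ih.deriv Metric.isOpen_ball

private theorem derivA_cauchy {f : ℂ → ℂ} (hf : DifferentiableOn ℂ f (Metric.ball (0 : ℂ) 1))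
    (n k : ℕ) (hnk : n ≤ k) (M : ℝ)
    (hM : ∀ z ∈ Metric.ball (0 : ℂ) 1, ‖iteratedDeriv n f z‖ ≤ M) :
    ‖iteratedDeriv k f 0‖ ≤ ((k - n).factorial : ℝ) * M := by
  have e : iteratedDeriv k f = iteratedDeriv (k - n) (iteratedDeriv n f) := by
    rw [iteratedDeriv_eq_iterate, iteratedDeriv_eq_iterate, iteratedDeriv_eq_iterate,
      ← Function.iterate_add_apply, Nat.sub_add_cancel hnk]
  rw [e]
  have h1 : ∀ r : ℝ, 0 < r → r < 1 →
      ‖iteratedDeriv (k - n) (iteratedDeriv n f) 0‖ ≤ ((k - n).factorial : ℝ) * M / r ^ (k - n) := by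
    intro r hr0 hr1
    apply Complex.norm_iteratedDeriv_le_of_forall_mem_sphere_norm_le _ hr0
    · have hsub : Metric.closedBall (0 : ℂ) r ⊆ Metric.ball 0 1 :=
        Metric.closedBall_subset_ball hr1
      exact ((derivA_diff hf n).mono hsub).diffContOnCl_ball Subset.rfl
    · intro z hz
      apply hM
      rw [mem_sphere_zero_iff_norm] at hz
      rw [mem_ball_zero_iff, hz]
      exact hr1
  have h2 : Tendsto (fun r : ℝ => ((k - n).factorial : ℝ) * M / r ^ (k - n)) (𝓝[<] 1)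
      (𝓝 (((k - n).factorial : ℝ) * M / 1 ^ (k - n))) := by
    have : ContinuousAt (fun r : ℝ => ((k - n).factorial : ℝ) * M / r ^ (k - n)) 1 := by
      apply ContinuousAt.div
      · exact continuousAt_const
      · fun_prop
      · simp
    exact this.tendsto.mono_left nhdsWithin_le_nhds
  have h3 := ge_of_tendsto h2 (b := ‖iteratedDeriv (k - n) (iteratedDeriv n f) 0‖) (by
    have : Ioo (0 : ℝ) 1 ∈ 𝓝[<] (1 : ℝ) := Ioo_mem_nhdsLT (by norm_num)
    filter_upwards [this] with r hr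
    exact h1 r hr.1 hr.2)
  simpa using h3

private theorem derivA_desc (n k : ℕ) (h : 2 * n ≤ k) :
    ((k : ℝ) / 2) ^ n * ((k - n).factorial : ℝ) ≤ (k.factorial : ℝ) := by
  have h1 : (k + 1 - n) ^ n ≤ k.descFactorial n := Nat.pow_sub_le_descFactorial k n
  have h2 : (k - n).factorial * k.descFactorial n = k.factorial :=
    Nat.factorial_mul_descFactorial (by omega)
  have h3 : ((k : ℝ) / 2) ^ n ≤ (k.descFactorial n : ℝ) := by
    have h4 : ((k : ℝ) / 2) ≤ ((k + 1 - n : ℕ) : ℝ) := by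
      rw [Nat.cast_sub (by omega)]
      have : (2 : ℝ) * n ≤ k := by exact_mod_cast h
      push_cast
      linarith
    calc ((k : ℝ) / 2) ^ n ≤ ((k + 1 - n : ℕ) : ℝ) ^ n := by gcongr
      _ ≤ (k.descFactorial n : ℝ) := by exact_mod_cast h1
  calc ((k : ℝ) / 2) ^ n * ((k - n).factorial : ℝ)
      ≤ (k.descFactorial n : ℝ) * ((k - n).factorial : ℝ) := by gcongr
    _ = (k.factorial : ℝ) := by rw [mul_comm]; exact_mod_cast h2

theorem exists_coeff {α : ℝ} (hα : 0 < α) {f : ℂ → ℂ} (hf : DifferentiableOn ℂ f (Metric.ball (0 : ℂ) 1))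
    (hb : ∃ C Q : ℝ, ∀ n : ℕ, ∀ z ∈ Metric.ball (0 : ℂ) 1,
        ‖iteratedDeriv n f z‖ ≤ C * Q ^ n * (n.factorial : ℝ) * (n : ℝ) ^ ((n : ℝ) / α)) :
    ∃ a : ℕ → ℂ, Gv (α / (1 + α)) a ∧ ∀ z ∈ Metric.ball (0 : ℂ) 1, f z = ev a z := by
  obtain ⟨C, Q, hb⟩ := hb
  set β : ℝ := α / (1 + α) with hβ
  have hβ0 : 0 < β := by positivity
  have hβinv : 1 / β = 1 + 1 / α := by
    rw [hβ]; field_simp; ring
  set q : ℝ := max |Q| 1 with hq
  have hq1 : 1 ≤ q := le_max_right _ _
  have hq0 : 0 < q := by linarith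
  set M : ℕ → ℝ := fun n => |C| * q ^ n * (n.factorial : ℝ) * (n : ℝ) ^ ((n : ℝ) / α) with hMdef
  have hM : ∀ n : ℕ, ∀ z ∈ Metric.ball (0 : ℂ) 1, ‖iteratedDeriv n f z‖ ≤ M n := by
    intro n z hz
    refine (hb n z hz).trans ?_
    have h1 : (0 : ℝ) ≤ (n : ℝ) ^ ((n : ℝ) / α) := by positivity
    have h2 : C * Q ^ n ≤ |C| * q ^ n := by
      calc C * Q ^ n ≤ |C * Q ^ n| := le_abs_self _
        _ = |C| * |Q| ^ n := by rw [abs_mul, abs_pow]
        _ ≤ |C| * q ^ n := by
          gcongr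
          exact le_max_left _ _
    simp only [hMdef]
    gcongr
  set c : ℝ := (2 * q * Real.exp 1)⁻¹ ^ β with hc
  have hc0 : 0 < c := by positivity
  refine ⟨fun k => ((k.factorial : ℂ))⁻¹ * iteratedDeriv k f 0, ⟨|C| * Real.exp 1, c, hc0, ?_⟩, ?_⟩
  · intro k
    set n : ℕ := ⌊c * (k : ℝ) ^ β⌋₊ with hn
    have hkβ : (0 : ℝ) ≤ c * (k : ℝ) ^ β := by positivity
    have hn1 : (n : ℝ) ≤ c * (k : ℝ) ^ β := Nat.floor_le hkβ
    have hn2 : c * (k : ℝ) ^ β < n + 1 := Nat.lt_floor_add_one _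
    -- `n ^ (1 / β) ≤ k / (2 q e)`
    have hn3 : (n : ℝ) ^ (1 / β) ≤ (2 * q * Real.exp 1)⁻¹ * k := by
      calc (n : ℝ) ^ (1 / β) ≤ (c * (k : ℝ) ^ β) ^ (1 / β) := by
            gcongr
        _ = (2 * q * Real.exp 1)⁻¹ * k := by
          rw [Real.mul_rpow hc0.le (by positivity), hc, ← Real.rpow_mul (by positivity),
            ← Real.rpow_mul (by positivity), mul_one_div_cancel hβ0.ne', Real.rpow_one,
            Real.rpow_one]
    have he1 : (1 : ℝ) ≤ Real.exp 1 := by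
      have := Real.add_one_le_exp (1 : ℝ); linarith
    have hinv : (2 * q * Real.exp 1)⁻¹ ≤ 1 / 2 := by
      rw [one_div]
      apply inv_anti₀ (by norm_num)
      nlinarith
    have h2n : 2 * n ≤ k := by
      rcases Nat.eq_zero_or_pos n with h0 | h0
      · omega
      · have h1n : (1 : ℝ) ≤ n := by exact_mod_cast h0
        have h3 : (n : ℝ) ≤ (n : ℝ) ^ (1 / β) := by
          calc (n : ℝ) = (n : ℝ) ^ (1 : ℝ) := (Real.rpow_one _).symm
            _ ≤ (n : ℝ) ^ (1 / β) := by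
              apply Real.rpow_le_rpow_of_exponent_le h1n
              rw [hβinv]
              have : 0 < 1 / α := by positivity
              linarith
        have h4 : (2 * n : ℝ) ≤ k := by
          have hk : (0 : ℝ) ≤ k := by positivity
          nlinarith
        exact_mod_cast h4
    -- bound of `M n`
    have hMn : M n ≤ |C| * ((k : ℝ) / 2) ^ n * Real.exp (-(n : ℝ)) := by
      have h1 : (n : ℝ) ^ ((n : ℝ) / α) = ((n : ℝ) ^ (1 / α)) ^ n := by
        rw [← Real.rpow_natCast, ← Real.rpow_mul (by positivity)]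
        congr 1
        field_simp
      have h2 : (n.factorial : ℝ) ≤ (n : ℝ) ^ n := by
        exact_mod_cast Nat.factorial_le_pow n
      have h3 : (n : ℝ) * (n : ℝ) ^ (1 / α) = (n : ℝ) ^ (1 / β) := by
        rcases Nat.eq_zero_or_pos n with h0 | h0
        · rw [h0]
          have : 1 / β ≠ 0 := by positivity
          rw [Nat.cast_zero, Real.zero_rpow this, zero_mul]
        · have h1n : (0 : ℝ) < n := by exact_mod_cast h0
          rw [hβinv, Real.rpow_add h1n, Real.rpow_one]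
      have h5 : q * (n : ℝ) ^ (1 / β) ≤ ((k : ℝ) / 2) * Real.exp (-1) := by
        calc q * (n : ℝ) ^ (1 / β) ≤ q * ((2 * q * Real.exp 1)⁻¹ * k) := by gcongr
          _ = ((k : ℝ) / 2) * Real.exp (-1) := by
            rw [Real.exp_neg]; field_simp
      calc M n = |C| * q ^ n * (n.factorial : ℝ) * ((n : ℝ) ^ (1 / α)) ^ n := by
            simp only [hMdef, h1]
        _ ≤ |C| * q ^ n * (n : ℝ) ^ n * ((n : ℝ) ^ (1 / α)) ^ n := by gcongr
        _ = |C| * (q * ((n : ℝ) * (n : ℝ) ^ (1 / α))) ^ n := by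
            rw [mul_pow, mul_pow]; ring
        _ = |C| * (q * (n : ℝ) ^ (1 / β)) ^ n := by rw [h3]
        _ ≤ |C| * (((k : ℝ) / 2) * Real.exp (-1)) ^ n := by gcongr
        _ = |C| * ((k : ℝ) / 2) ^ n * Real.exp (-(n : ℝ)) := by
            rw [mul_pow, ← Real.exp_nat_mul, mul_assoc]
            congr 3
            ring
    have hcau := derivA_cauchy hf n k (by omega) (M n) (hM n)
    have hdesc := derivA_desc n k h2n
    have hfac : (0 : ℝ) < (k.factorial : ℝ) := by exact_mod_cast k.factorial_pos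
    have hfac2 : (0 : ℝ) < ((k - n).factorial : ℝ) := by exact_mod_cast (k - n).factorial_pos
    have hkn : (0 : ℝ) < ((k : ℝ) / 2) ^ n := by
      rcases Nat.eq_zero_or_pos n with h0 | h0
      · rw [h0]; simp
      · have : (0 : ℝ) < k := by
          have : 0 < k := by omega
          exact_mod_cast this
        positivity
    have hnorm : ‖((k.factorial : ℂ))⁻¹ * iteratedDeriv k f 0‖
        = (k.factorial : ℝ)⁻¹ * ‖iteratedDeriv k f 0‖ := by
      rw [norm_mul, norm_inv]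
      simp
    have h6 : (k.factorial : ℝ)⁻¹ * ‖iteratedDeriv k f 0‖ ≤ |C| * Real.exp (-(n : ℝ)) := by
      rw [inv_mul_le_iff₀ hfac]
      calc ‖iteratedDeriv k f 0‖ ≤ ((k - n).factorial : ℝ) * M n := hcau
        _ ≤ ((k - n).factorial : ℝ) * (|C| * ((k : ℝ) / 2) ^ n * Real.exp (-(n : ℝ))) := by
            gcongr
        _ = (((k : ℝ) / 2) ^ n * ((k - n).factorial : ℝ)) * (|C| * Real.exp (-(n : ℝ))) := by
            ring
        _ ≤ (k.factorial : ℝ) * (|C| * Real.exp (-(n : ℝ))) := by gcongr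
    show ‖((k.factorial : ℂ))⁻¹ * iteratedDeriv k f 0‖ ≤ _
    rw [hnorm]
    refine h6.trans ?_
    rw [mul_assoc]
    gcongr
    rw [← Real.exp_add]
    apply Real.exp_le_exp.2
    linarith
  · intro z hz
    have h := Complex.taylorSeries_eq_on_ball' hz hf
    rw [← h]
    unfold ev
    congr 1
    funext k
    rw [sub_zero]

end MP_9d6c91_an
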