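import Pool.Agent.Lib.MP_9d6c91_an.Key
import Pool.Agent.Lib.MP_9d6c91_an.Deriv

/-!
# FINAL : from coefficients to functions
-/

set_option autoImplicit false

open MeasureTheory Complex Filter Topology Set
open scoped ENNReal Real

namespace MP_9d6c91_an

/-- the Gevrey bounds with given constants -/
def ClsQ (α C Q : ℝ) (f : ℂ → ℂ) : Prop := ∀ n : ℕ, ∀ z ∈ Metric.ball (0:ℂ) 1,
  ‖iteratedDeriv n f z‖ ≤ C * Q ^ n * (n.factorial : ℝ) * (n : ℝ) ^ ((n : ℝ) / α)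

/-- the class -/
def Cls (α : ℝ) (f : ℂ → ℂ) : Prop := DifferentiableOn ℂ f (Metric.ball (0:ℂ) 1) ∧
  ∃ C Q : ℝ, ClsQ α C Q f

/-- the sequence-level ideal -/
def coeffI (α : ℝ) (I : Set (ℂ → ℂ)) : Set (ℕ → ℂ) :=
  {a | Gv (α / (1 + α)) a ∧ ∃ f ∈ I, ∀ z ∈ Metric.ball (0 : ℂ) 1, f z = ev a z}

theorem Gv.bdd {β : ℝ} {a : ℕ → ℂ} (ha : Gv β a) : ∃ B : ℝ, 0 ≤ B ∧ ∀ n, ‖a n‖ ≤ B := by
  obtain ⟨A, δ, hδ, h⟩ := ha
  refine ⟨|A|, abs_nonneg _, fun n => ?_⟩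
  have h1 := h n
  have h2 : Real.exp (-δ * (n : ℝ) ^ β) ≤ 1 := by
    apply Real.exp_le_one_iff.mpr
    have : 0 ≤ (n : ℝ) ^ β := Real.rpow_nonneg (Nat.cast_nonneg n) _
    nlinarith
  calc ‖a n‖ ≤ A * Real.exp (-δ * (n : ℝ) ^ β) := h1
    _ ≤ |A| * 1 := mul_le_mul (le_abs_self A) h2 (Real.exp_pos _).le (abs_nonneg _)
    _ = |A| := mul_one _

theorem summable_sq {a : ℕ → ℂ} (ha : Summable fun n => ‖a n‖) : Summable fun n => ‖a n‖ ^ 2 := by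
  have h := ha.mul_norm ha
  have h2 := (summable_norm_iff.mpr ha)
  have hb : ∃ B : ℝ, ∀ n, ‖a n‖ ≤ B := by
    obtain ⟨B, hB⟩ := ha.tendsto_atTop_zero.bddAbove_range
    exact ⟨B, fun n => hB ⟨n, rfl⟩⟩
  obtain ⟨B, hB⟩ := hb
  refine Summable.of_nonneg_of_le (fun n => by positivity) (fun n => ?_) (ha.mul_left B)
  rw [sq]
  exact mul_le_mul_of_nonneg_right (hB n) (norm_nonneg _)

theorem cls_of_coeff {α : ℝ} (hα : 0 < α) {a : ℕ → ℂ} (ha : Gv (α / (1 + α)) a) {f : ℂ → ℂ}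
    (hf : ∀ z ∈ Metric.ball (0 : ℂ) 1, f z = ev a z) : Cls α f := by
  have hβ : 0 < α / (1 + α) := by positivity
  obtain ⟨A, δ, hδ, h⟩ := ha
  obtain ⟨C, Q, hC, hQ, hb⟩ := deriv_bound hα hδ
  refine ⟨?_, C * A, Q, fun n z hz => hb a A h f hf n z hz⟩
  have hd := differentiableOn_ev (Gv.summable_norm hβ ⟨A, δ, hδ, h⟩)
  exact hd.congr hf

/-- the closedness hypothesis -/
def Closed (α : ℝ) (I : Set (ℂ → ℂ)) : Prop :=
  ∀ Q : ℝ, 0 < Q → ∀ (u : ℕ → ℂ → ℂ) (f : ℂ → ℂ),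
      (∀ m, u m ∈ I) →
      DifferentiableOn ℂ f (Metric.ball (0:ℂ) 1) →
      (∃ C : ℝ, ClsQ α C Q f) →
      (∀ m, ∃ C : ℝ, ClsQ α C Q (u m)) →
      (∀ ε : ℝ, 0 < ε → ∃ M : ℕ, ∀ m ≥ M, ∀ n : ℕ, ∀ z ∈ Metric.ball (0:ℂ) 1,
        ‖iteratedDeriv n (u m) z - iteratedDeriv n f z‖ ≤
          ε * Q ^ n * (n.factorial : ℝ) * (n : ℝ) ^ ((n : ℝ) / α)) →
      f ∈ I

theorem iteratedDeriv_congr_ball {f g : ℂ → ℂ} (h : ∀ z ∈ Metric.ball (0 : ℂ) 1, f z = g z) (n : ℕ) {z : ℂ}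
    (hz : z ∈ Metric.ball (0 : ℂ) 1) : iteratedDeriv n f z = iteratedDeriv n g z := by
  have : f =ᶠ[𝓝 z] g := by
    filter_upwards [Metric.isOpen_ball.mem_nhds hz] with w hw using h w hw
  exact this.iteratedDeriv_eq n

/-- `I` is saturated off the ball -/
theorem mem_of_eq {α : ℝ} (hα : 0 < α) {I : Set (ℂ → ℂ)} (hcl : Closed α I) {a : ℕ → ℂ}
    (ha : a ∈ coeffI α I) {f : ℂ → ℂ} (hf : ∀ z ∈ Metric.ball (0 : ℂ) 1, f z = ev a z) : f ∈ I := by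
  obtain ⟨⟨A, δ, hδ, h⟩, f₀, hf₀, hf₀'⟩ := ha
  obtain ⟨C, Q, hC, hQ, hb⟩ := deriv_bound hα hδ
  refine hcl Q hQ (fun _ => f₀) f (fun _ => hf₀) (cls_of_coeff hα ⟨A, δ, hδ, h⟩ hf).1
    ⟨C * A, fun n z hz => hb a A h f hf n z hz⟩ (fun _ => ⟨C * A, fun n z hz => hb a A h f₀ hf₀' n z hz⟩) ?_
  intro ε hε
  refine ⟨0, fun m _ n z hz => ?_⟩
  have : iteratedDeriv n f₀ z = iteratedDeriv n f z :=
    iteratedDeriv_congr_ball (fun w hw => by rw [hf₀' w hw, hf w hw]) n hz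
  rw [this, sub_self, norm_zero]
  positivity

theorem coeffI_closed {α : ℝ} (hα : 0 < α) {I : Set (ℂ → ℂ)} (hcl : Closed α I) (A δ : ℝ) (hδ : 0 < δ)
    (u : ℕ → ℕ → ℂ) (a : ℕ → ℂ) (hu : ∀ m, u m ∈ coeffI α I) (ha : GvC (α / (1 + α)) A δ a)
    (hlim : ∀ ε : ℝ, 0 < ε → ∃ M : ℕ, ∀ m ≥ M, ∀ n : ℕ,
        ‖u m n - a n‖ ≤ ε * Real.exp (-δ * (n : ℝ) ^ (α / (1 + α)))) : a ∈ coeffI α I := by
  have hβ : 0 < α / (1 + α) := by positivity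
  refine ⟨⟨A, δ, hδ, ha⟩, ev a, ?_, fun z _ => rfl⟩
  obtain ⟨C, Q, hC, hQ, hb⟩ := deriv_bound hα hδ
  obtain ⟨M₁, hM₁⟩ := hlim 1 one_pos
  have hfa : ∀ z ∈ Metric.ball (0 : ℂ) 1, ev a z = ev a z := fun _ _ => rfl
  choose f hfI hf using fun m => (hu m).2
  have hGvC : ∀ m ≥ M₁, GvC (α / (1 + α)) (A + 1) δ (u m) := by
    intro m hm n
    have h1 := hM₁ m hm n
    have h2 := ha n
    calc ‖u m n‖ = ‖(u m n - a n) + a n‖ := by ring_nf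
      _ ≤ ‖u m n - a n‖ + ‖a n‖ := norm_add_le _ _
      _ ≤ 1 * Real.exp (-δ * (n : ℝ) ^ (α / (1 + α))) + A * Real.exp (-δ * (n : ℝ) ^ (α / (1 + α))) :=
          add_le_add h1 h2
      _ = (A + 1) * Real.exp (-δ * (n : ℝ) ^ (α / (1 + α))) := by ring
  refine hcl Q hQ (fun m => f (m + M₁)) (ev a) (fun m => hfI _)
    (cls_of_coeff hα ⟨A, δ, hδ, ha⟩ hfa).1 ⟨C * A, fun n z hz => hb a A ha _ hfa n z hz⟩
    (fun m => ⟨C * (A + 1), fun n z hz => hb (u (m + M₁)) (A + 1) (hGvC _ (Nat.le_add_left _ _)) _ (hf _) n z hz⟩) ?_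
  intro ε hε
  obtain ⟨M, hM⟩ := hlim (ε / C) (by positivity)
  refine ⟨M, fun m hm n z hz => ?_⟩
  have hmM : m + M₁ ≥ M := le_trans hm (Nat.le_add_right _ _)
  have hdiffC : GvC (α / (1 + α)) (ε / C) δ (u (m + M₁) - a) := fun n => hM _ hmM n
  have hGu : Gv (α / (1 + α)) (u (m + M₁)) := (hu _).1
  have hGa : Gv (α / (1 + α)) a := ⟨A, δ, hδ, ha⟩
  have hfd : ∀ z ∈ Metric.ball (0 : ℂ) 1, (fun z => f (m + M₁) z - ev a z) z = ev (u (m + M₁) - a) z := by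
    intro z hz
    have hz1 : ‖z‖ ≤ 1 := by
      have := mem_ball_zero_iff.mp hz
      exact this.le
    rw [ev_sub (Gv.summable_norm hβ hGu) (Gv.summable_norm hβ hGa) hz1, ← hf _ z hz]
  have h1 := hb _ _ hdiffC _ hfd n z hz
  have hsub : iteratedDeriv n (fun z => f (m + M₁) z - ev a z) z =
      iteratedDeriv n (f (m + M₁)) z - iteratedDeriv n (ev a) z := by
    have hdf : DifferentiableOn ℂ (f (m + M₁)) (Metric.ball (0 : ℂ) 1) := (cls_of_coeff hα hGu (hf _)).1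
    have hda : DifferentiableOn ℂ (ev a) (Metric.ball (0 : ℂ) 1) := (cls_of_coeff hα hGa hfa).1
    have h1 : ContDiffAt ℂ n (f (m + M₁)) z :=
      ((hdf.analyticOnNhd Metric.isOpen_ball) z hz).contDiffAt
    have h2 : ContDiffAt ℂ n (ev a) z :=
      ((hda.analyticOnNhd Metric.isOpen_ball) z hz).contDiffAt
    exact iteratedDeriv_fun_sub h1 h2
  rw [hsub] at h1
  calc ‖iteratedDeriv n (f (m + M₁)) z - iteratedDeriv n (ev a) z‖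
      ≤ C * (ε / C) * Q ^ n * (n.factorial : ℝ) * (n : ℝ) ^ ((n : ℝ) / α) := h1
    _ = ε * Q ^ n * (n.factorial : ℝ) * (n : ℝ) ^ ((n : ℝ) / α) := by
        rw [mul_div_cancel₀ _ hC.ne']

/-- the statement `T` divides `f` with bounded quotient -/
def Dvd' (T f : ℂ → ℂ) : Prop := ∃ h : ℂ → ℂ, DifferentiableOn ℂ h (Metric.ball (0:ℂ) 1) ∧
        (∃ B : ℝ, ∀ z ∈ Metric.ball (0:ℂ) 1, ‖h z‖ ≤ B) ∧
        ∀ z ∈ Metric.ball (0:ℂ) 1, f z = T z * h z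

/-- inner functions -/
def Inn (S : ℂ → ℂ) : Prop := DifferentiableOn ℂ S (Metric.ball (0:ℂ) 1) ∧
        (∀ z ∈ Metric.ball (0:ℂ) 1, ‖S z‖ ≤ 1) ∧
        ∀ᵐ θ : ℝ ∂MeasureTheory.volume, ∃ w : ℂ, ‖w‖ = 1 ∧
          Filter.Tendsto (fun r : ℝ => S ((r : ℂ) * Complex.exp ((θ : ℂ) * Complex.I)))
            (nhdsWithin 1 (Set.Iio 1)) (nhds w)

theorem norm_ev_le_of_Gv {β : ℝ} (hβ : 0 < β) {a : ℕ → ℂ} (ha : Gv β a) :
    ∃ B : ℝ, ∀ z ∈ Metric.ball (0:ℂ) 1, ‖ev a z‖ ≤ B :=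
  ⟨_, fun z hz => norm_ev_le (Gv.summable_norm hβ ha) (mem_ball_zero_iff.mp hz).le⟩

theorem bdd_of_sq {h : ℕ → ℂ} (hh : Summable fun n => ‖h n‖ ^ 2) : ∃ B : ℝ, ∀ n, ‖h n‖ ≤ B := by
  refine ⟨Real.sqrt (∑' n, ‖h n‖ ^ 2), fun n => ?_⟩
  apply Real.le_sqrt_of_sq_le
  exact hh.le_tsum n (fun m _ => by positivity)

theorem final {α : ℝ} (hα : 0 < α) (hα1 : α < 1) (I : Set (ℂ → ℂ)) (hI : ∀ f ∈ I, Cls α f)
    (h0 : (0 : ℂ → ℂ) ∈ I) (hadd : ∀ f ∈ I, ∀ g ∈ I, f + g ∈ I)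
    (hmul : ∀ f ∈ I, ∀ g : ℂ → ℂ, Cls α g → g * f ∈ I) (hcl : Closed α I)
    (hne : ∃ f ∈ I, ∃ z ∈ Metric.ball (0:ℂ) 1, f z ≠ 0) :
    ∃ S : ℂ → ℂ, Inn S ∧ (∀ f ∈ I, Dvd' S f) ∧
      (∀ T : ℂ → ℂ, Inn T → (∀ f ∈ I, Dvd' T f) → Dvd' T S) ∧
      ∀ f : ℂ → ℂ, f ∈ I ↔ (Cls α f ∧ Dvd' S f ∧
         ∀ k : ℕ∞, ∀ z ∈ Metric.closedBall (0:ℂ) 1,
          (∀ g ∈ I, ∀ j : ℕ, (j : ℕ∞) ≤ k →
            Filter.Tendsto (iteratedDeriv j g) (nhdsWithin z (Metric.ball (0:ℂ) 1)) (nhds 0)) →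
          ∀ j : ℕ, (j : ℕ∞) ≤ k →
            Filter.Tendsto (iteratedDeriv j f) (nhdsWithin z (Metric.ball (0:ℂ) 1)) (nhds 0)) := by
  have hβ : 0 < α / (1 + α) := by positivity
  have hβ1 : α / (1 + α) ≤ 1 := by rw [div_le_one (by positivity)]; linarith
  -- elements of I have coefficients
  have hco : ∀ f ∈ I, ∃ a ∈ coeffI α I, ∀ z ∈ Metric.ball (0 : ℂ) 1, f z = ev a z := by
    intro f hf
    obtain ⟨a, ha, hfa⟩ := exists_coeff hα (hI f hf).1 (hI f hf).2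
    exact ⟨a, ⟨ha, f, hf, hfa⟩, hfa⟩
  -- properties of coeffI
  have I0 : (0 : ℕ → ℂ) ∈ coeffI α I := ⟨Gv.zero _, 0, h0, fun z _ => by simp [ev_zero']⟩
  have Igv : ∀ a ∈ coeffI α I, Gv (α / (1 + α)) a := fun a ha => ha.1
  have Iadd : ∀ a ∈ coeffI α I, ∀ b ∈ coeffI α I, a + b ∈ coeffI α I := by
    rintro a ⟨ha, f, hf, hfa⟩ b ⟨hb, g, hg, hgb⟩
    refine ⟨ha.add hb, f + g, hadd f hf g hg, fun z hz => ?_⟩
    rw [Pi.add_apply, hfa z hz, hgb z hz, ev_add (Gv.summable_norm hβ ha) (Gv.summable_norm hβ hb)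
      (mem_ball_zero_iff.mp hz).le]
  have Imul : ∀ a ∈ coeffI α I, ∀ k : ℕ → ℂ, Gv (α / (1 + α)) k → cmul k a ∈ coeffI α I := by
    rintro a ⟨ha, f, hf, hfa⟩ k hk
    refine ⟨hk.cmul hβ hβ1 ha, ev k * f, hmul f hf _ (cls_of_coeff hα hk (fun _ _ => rfl)), fun z hz => ?_⟩
    rw [Pi.mul_apply, hfa z hz, ev_cmul (Gv.summable_norm hβ hk) (Gv.summable_norm hβ ha)
      (mem_ball_zero_iff.mp hz).le]
  have Ismul : ∀ (c : ℂ), ∀ a ∈ coeffI α I, c • a ∈ coeffI α I := by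
    intro c a ha
    have h1 := Imul a ha (c • one1) ((Gv_one1 _).smul c)
    have h2 : cmul (c • one1) a = c • a := by
      rw [cmul_comm]
      funext n
      have := congrFun (cmul_one1 a) n
      simp only [cmul, Pi.smul_apply, smul_eq_mul] at this ⊢
      rw [← this, Finset.mul_sum]
      exact Finset.sum_congr rfl (fun i _ => by ring)
    rwa [h2] at h1
  have Ish : ∀ a ∈ coeffI α I, sh 1 a ∈ coeffI α I := by
    intro a ha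
    have h1 := Imul a ha (sh 1 one1) ((Gv_one1 _).sh hβ hβ1 1)
    rwa [cmul_comm, cmul_sh, cmul_one1] at h1
  have Icl := coeffI_closed hα hcl
  have IL : ∀ a ∈ coeffI α I, Summable fun n => ‖a n‖ ^ 2 :=
    fun a ha => summable_sq (Gv.summable_norm hβ ha.1)
  have Ine : ∃ a ∈ coeffI α I, a ≠ 0 := by
    obtain ⟨f, hf, z, hz, hfz⟩ := hne
    obtain ⟨a, ha, hfa⟩ := hco f hf
    refine ⟨a, ha, ?_⟩
    rintro rfl
    exact hfz (by rw [hfa z hz, ev_zero'])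
  obtain ⟨s, hs2, hs, hfac, happ⟩ := beurling _ I0 Iadd Ismul IL Ish Ine
  have hs1 : ∀ n, ‖s n‖ ≤ 1 := hs.norm_le
  have hfacG : ∀ a ∈ coeffI α I, ∃ h : ℕ → ℂ, Gv (α / (1 + α)) h ∧ a = cmul s h := by
    intro a ha
    obtain ⟨h, hh, hah⟩ := hfac a ha
    refine ⟨h, hs.div_Gv hβ hβ1 hh ?_, hah⟩
    rw [← hah]; exact ha.1
  have hevs : ∀ h : ℕ → ℂ, (∃ B : ℝ, ∀ n, ‖h n‖ ≤ B) → ∀ z ∈ Metric.ball (0 : ℂ) 1,
      ev (cmul s h) z = ev s z * ev h z := by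
    rintro h ⟨B, hB⟩ z hz
    exact ev_cmul_of_bdd hs1 hB hz
  have hdivS : ∀ f ∈ I, Dvd' (ev s) f := by
    intro f hf
    obtain ⟨a, ha, hfa⟩ := hco f hf
    obtain ⟨h, hh, hah⟩ := hfacG a ha
    refine ⟨ev h, differentiableOn_ev (Gv.summable_norm hβ hh), norm_ev_le_of_Gv hβ hh, fun z hz => ?_⟩
    obtain ⟨B, -, hB⟩ := hh.bdd
    rw [hfa z hz, hah, hevs h ⟨B, hB⟩ z hz]
  refine ⟨ev s, ⟨differentiableOn_ev_of_bdd hs1, fun z hz => hs.ev_le hz, ?_⟩, hdivS, ?_, ?_⟩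
  · obtain ⟨a, ha, hane⟩ := Ine
    obtain ⟨h, hh, hah⟩ := hfacG a ha
    refine hs.radial hβ hβ1 hh ?_ ?_
    · rw [← hah]; exact ha.1
    · rw [← hah]; exact hane
  · -- gcd
    rintro T ⟨hT, hT1, hrad⟩ hTI
    obtain ⟨τ, hτT, hτ⟩ := isoM_of_inner hT hT1 hrad
    have hgcd := gcd_step hτ hs (fun ε hε => by
      obtain ⟨u, hu, hus⟩ := happ ε hε
      obtain ⟨hGu, f, hf, hfu⟩ := hu
      obtain ⟨h, hh, ⟨B, hB⟩, hfh⟩ := hTI f hf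
      obtain ⟨v, hv2, hvB, hhv⟩ := exists_coeff_of_bdd hh hB
      refine ⟨v, hv2, ?_⟩
      have huv : u = cmul τ v := by
        obtain ⟨Bu, -, hBu⟩ := hGu.bdd
        have hτv : Summable fun n => ‖cmul τ v n‖ ^ 2 := (hτ v hv2).1
        obtain ⟨Bc, hBc⟩ := bdd_of_sq hτv
        refine ev_injective_of_bdd (B := max Bu Bc) (fun n => (hBu n).trans (le_max_left _ _))
          (fun n => (hBc n).trans (le_max_right _ _)) (fun z hz => ?_)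
        rw [← hfu z hz, hfh z hz, hτT z hz, hhv z hz]
        exact (ev_cmul_of_bdd hτ.norm_le hvB hz).symm
      rw [← huv]; exact hus)
    obtain ⟨v, hv2, hsv, hv1⟩ := hgcd
    obtain ⟨Bv, hBv⟩ := bdd_of_sq hv2
    refine ⟨ev v, differentiableOn_ev_of_bdd hBv, ⟨1, hv1⟩, fun z hz => ?_⟩
    rw [hτT z hz, ← ev_cmul_of_bdd hτ.norm_le hBv hz, ← hsv]
  · intro f
    constructor
    · intro hf
      exact ⟨hI f hf, hdivS f hf, fun k z _ h j hj => h f hf j hj⟩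
    · rintro ⟨hfC, ⟨h, hhd, ⟨B, hhB⟩, hfh⟩, hk⟩
      obtain ⟨a, ha, hfa⟩ := exists_coeff hα hfC.1 hfC.2
      obtain ⟨g', hg'2, hg'B, hhg'⟩ := exists_coeff_of_bdd hhd hhB
      have hag : a = cmul s g' := by
        obtain ⟨Ba, -, hBa⟩ := ha.bdd
        obtain ⟨Bc, hBc⟩ := bdd_of_sq (hs g' hg'2).1
        refine ev_injective_of_bdd (B := max Ba Bc) (fun n => (hBa n).trans (le_max_left _ _))
          (fun n => (hBc n).trans (le_max_right _ _)) (fun z hz => ?_)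
        rw [← hfa z hz, hfh z hz, hhg' z hz, hevs g' ⟨B, hg'B⟩ z hz]
      have hord : ∀ z : ℂ, ‖z‖ ≤ 1 → ∀ m : ℕ, (∀ b ∈ coeffI α I, ∀ j < m, dv j b z = 0) →
          ∀ j < m, dv j a z = 0 := by
        intro z hz m hm j hj
        have hzc : z ∈ Metric.closedBall (0 : ℂ) 1 := by simpa using hz
        have hm1 : 1 ≤ m := by omega
        have hlim := hk ((m - 1 : ℕ) : ℕ∞) z hzc (fun g hg i hi => by
          obtain ⟨b, hb, hgb⟩ := hco g hg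
          have hi' : i < m := by
            have : i ≤ m - 1 := by exact_mod_cast hi
            omega
          have := tendsto_iteratedDeriv hβ hb.1 hgb i hzc
          rwa [hm b hb i hi'] at this) j (by
            have : j ≤ m - 1 := by omega
            exact_mod_cast this)
        have h2 := tendsto_iteratedDeriv hβ ha hfa j hzc
        have := nhdsWithin_ball_neBot hzc
        exact tendsto_nhds_unique h2 hlim
      have := key hα hα1 _ I0 Iadd Imul Igv Icl Ine hs hfac happ ha hg'2 hag hord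
      exact mem_of_eq hα hcl this hfa

end MP_9d6c91_an
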