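import Pool.Agent.Lib.MP_9d6c91_an.Seq

/-!
# JOB FLATA : division by `z - e` and the flat bound

* `dvd1` : `a₁ n = ∑_{k>n} a_k z₀^(k-n-1)`, `‖a₁ n‖ ≤ ∑_{k>n} ‖a_k‖ ≤ C exp (-(δ/2) n^β)`; `a = (z - z₀) a₁` means
  `a n = a₁ (n-1) - z₀ a₁ n` (uses `ev a z₀ = 0` for `n = 0`); the derivative formula is Leibniz:
  `n descFactorial (j+1) ...`: coefficientwise `∑ n^{(j+1)} a_n z₀^(n-j-1) = (j+1) ∑ n^{(j)} a₁_n z₀^(n-j)`.
* `dvdm` : iterate `m` times.
* `flat_bound` : `sup |g_m| ≤ ∑_n |(g_m)_n| ≤ ∑_k (k choose m) |g_k| ≤ A ∑_k (k^m/m!) exp (-δ k^β) ≤ C Q^m m^(m/β) / m! ≤ C Q'^m m^(m/α)` where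
  `g = (z-e)^m g_m` (the bound for the iterated quotients: `∑_n |(a₁)_n| (n choose j) ≤ ∑_k |a_k| (k choose (j+1))`), so
  `|g(z)| ≤ C (Q' m^(1/α) |z-e|)^m`; `m = ⌊c |z-e|^(-α)⌋`.
-/

set_option autoImplicit false

open MeasureTheory Complex Filter Topology Set
open scoped ENNReal Real

namespace MP_9d6c91_an

private theorem flata_aux_exp {β A δ : ℝ} (hβ : 0 < β) (hδ : 0 < δ) {a : ℕ → ℂ}
    (ha : GvC β A δ a) (n : ℕ) :
    ∑' k, ‖a (n + 1 + k)‖ ≤ (A * ∑' k : ℕ, Real.exp (-(δ / 2) * (k : ℝ) ^ β)) *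
      Real.exp (-(δ / 2) * (n : ℝ) ^ β) := by
  have hA : 0 ≤ A := by
    have h := ha 0
    have h2 : 0 < Real.exp (-δ * ((0 : ℕ) : ℝ) ^ β) := Real.exp_pos _
    by_contra h3
    rw [not_le] at h3
    nlinarith [norm_nonneg (a 0)]
  have hs : Summable fun k : ℕ => Real.exp (-(δ / 2) * (k : ℝ) ^ β) :=
    summable_exp_neg hβ (by linarith)
  have hs' : Summable fun k : ℕ => Real.exp (-(δ / 2) * ((n + 1 + k : ℕ) : ℝ) ^ β) := by
    have := (summable_nat_add_iff (f := fun k : ℕ => Real.exp (-(δ / 2) * (k : ℝ) ^ β)) (n + 1)).2 hs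
    simpa [add_comm] using this
  have hb : ∀ k : ℕ, ‖a (n + 1 + k)‖ ≤ A * Real.exp (-(δ / 2) * (n : ℝ) ^ β) *
      Real.exp (-(δ / 2) * ((n + 1 + k : ℕ) : ℝ) ^ β) := by
    intro k
    refine (ha _).trans ?_
    rw [mul_assoc, ← Real.exp_add]
    refine mul_le_mul_of_nonneg_left ?_ hA
    rw [Real.exp_le_exp]
    have h1 : (n : ℝ) ^ β ≤ ((n + 1 + k : ℕ) : ℝ) ^ β := by
      refine Real.rpow_le_rpow (by positivity) ?_ hβ.le
      push_cast
      linarith [(Nat.cast_nonneg k : (0 : ℝ) ≤ k)]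
    nlinarith
  have hsb : Summable fun k : ℕ => A * Real.exp (-(δ / 2) * (n : ℝ) ^ β) *
      Real.exp (-(δ / 2) * ((n + 1 + k : ℕ) : ℝ) ^ β) := hs'.mul_left _
  have hsa : Summable fun k : ℕ => ‖a (n + 1 + k)‖ :=
    Summable.of_nonneg_of_le (fun _ => norm_nonneg _) hb hsb
  calc ∑' k, ‖a (n + 1 + k)‖ ≤ ∑' k : ℕ, A * Real.exp (-(δ / 2) * (n : ℝ) ^ β) *
      Real.exp (-(δ / 2) * ((n + 1 + k : ℕ) : ℝ) ^ β) := hsa.tsum_le_tsum hb hsb
    _ = A * Real.exp (-(δ / 2) * (n : ℝ) ^ β) *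
      ∑' k : ℕ, Real.exp (-(δ / 2) * ((n + 1 + k : ℕ) : ℝ) ^ β) := tsum_mul_left
    _ ≤ A * Real.exp (-(δ / 2) * (n : ℝ) ^ β) *
      ∑' k : ℕ, Real.exp (-(δ / 2) * (k : ℝ) ^ β) := by
        refine mul_le_mul_of_nonneg_left ?_ (by positivity)
        refine hs'.tsum_le_tsum (fun k => ?_) hs
        rw [Real.exp_le_exp]
        have h1 : (k : ℝ) ^ β ≤ ((n + 1 + k : ℕ) : ℝ) ^ β := by
          refine Real.rpow_le_rpow (by positivity) ?_ hβ.le
          push_cast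
          linarith [(Nat.cast_nonneg n : (0 : ℝ) ≤ n)]
        nlinarith
    _ = _ := by ring

private theorem flata_desc (n j : ℕ) :
    (n + 1).descFactorial (j + 1) = n.descFactorial (j + 1) + (j + 1) * n.descFactorial j := by
  rw [Nat.succ_descFactorial_succ, Nat.descFactorial_succ]
  by_cases h : j ≤ n
  · rw [← add_mul]
    congr 1
    omega
  · rw [not_le] at h
    rw [Nat.descFactorial_eq_zero_iff_lt.2 h]
    simp

private theorem flata_summable_dv {β : ℝ} (hβ : 0 < β) {a : ℕ → ℂ} (ha : Gv β a) (j : ℕ) {z : ℂ}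
    (hz : ‖z‖ ≤ 1) (e : ℕ → ℕ) :
    Summable fun n : ℕ => (n.descFactorial j : ℂ) * a n * z ^ (e n) := by
  refine Summable.of_norm_bounded (ha.summable_dv hβ j) fun n => ?_
  rw [norm_mul, norm_mul, norm_pow, Complex.norm_natCast]
  have h1 : ‖z‖ ^ (e n) ≤ 1 := pow_le_one₀ (norm_nonneg z) hz
  have h2 : (n.descFactorial j : ℝ) ≤ ((n : ℝ) + 1) ^ j := by
    have h3 : n.descFactorial j ≤ n ^ j := Nat.descFactorial_le_pow n j
    calc (n.descFactorial j : ℝ) ≤ (n : ℝ) ^ j := by exact_mod_cast h3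
      _ ≤ ((n : ℝ) + 1) ^ j := pow_le_pow_left₀ (Nat.cast_nonneg n) (by linarith) j
  calc (n.descFactorial j : ℝ) * ‖a n‖ * ‖z‖ ^ (e n) ≤ (n.descFactorial j : ℝ) * ‖a n‖ * 1 :=
        mul_le_mul_of_nonneg_left h1 (by positivity)
    _ ≤ ((n : ℝ) + 1) ^ j * ‖a n‖ := by
        rw [mul_one]
        exact mul_le_mul_of_nonneg_right h2 (norm_nonneg _)

theorem dvd1 {β : ℝ} (hβ : 0 < β) (hβ1 : β ≤ 1) {a : ℕ → ℂ} (ha : Gv β a) {z₀ : ℂ} (hz : ‖z₀‖ ≤ 1)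
    (h0 : ev a z₀ = 0) :
    ∃ a₁ : ℕ → ℂ, Gv β a₁ ∧ (∀ z : ℂ, ‖z‖ ≤ 1 → ev a z = (z - z₀) * ev a₁ z) ∧
      (∀ j : ℕ, dv (j + 1) a z₀ = (j + 1) * dv j a₁ z₀) ∧
      ∀ n, ‖a₁ n‖ ≤ ∑' k, ‖a (n + 1 + k)‖ := by
  obtain ⟨A, δ, hδ, hA⟩ := ha
  have ha : Gv β a := ⟨A, δ, hδ, hA⟩
  have hsn : Summable fun n => ‖a n‖ := ha.summable_norm hβ
  have hsn' : ∀ n, Summable fun k => ‖a (n + 1 + k)‖ := by
    intro n
    have := (summable_nat_add_iff (f := fun k : ℕ => ‖a k‖) (n + 1)).2 hsn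
    simpa [add_comm] using this
  have hle : ∀ n k, ‖a (n + 1 + k) * z₀ ^ k‖ ≤ ‖a (n + 1 + k)‖ := by
    intro n k
    rw [norm_mul, norm_pow]
    exact mul_le_of_le_one_right (norm_nonneg _) (pow_le_one₀ (norm_nonneg _) hz)
  have hs : ∀ n, Summable fun k => a (n + 1 + k) * z₀ ^ k := fun n =>
    Summable.of_norm_bounded (hsn' n) (hle n)
  let a₁ : ℕ → ℂ := fun n => ∑' k, a (n + 1 + k) * z₀ ^ k
  have hnorm : ∀ n, ‖a₁ n‖ ≤ ∑' k, ‖a (n + 1 + k)‖ := fun n =>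
    tsum_of_norm_bounded (hsn' n).hasSum (hle n)
  have hG : Gv β a₁ := ⟨_, δ / 2, by linarith, fun n => (hnorm n).trans (flata_aux_exp hβ hδ hA n)⟩
  have hrec : ∀ n, a₁ n = a (n + 1) + z₀ * a₁ (n + 1) := by
    intro n
    simp only [a₁]
    rw [(hs n).tsum_eq_zero_add, ← tsum_mul_left]
    simp only [add_zero, pow_zero, mul_one]
    congr 1
    refine tsum_congr fun k => ?_
    rw [show n + 1 + (k + 1) = n + 1 + 1 + k by ring, pow_succ]
    ring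
  have hz0 : a 0 + z₀ * a₁ 0 = 0 := by
    rw [← h0]
    unfold ev
    have h1 : Summable fun n => a n * z₀ ^ n := by
      refine Summable.of_norm_bounded hsn fun n => ?_
      rw [norm_mul, norm_pow]
      exact mul_le_of_le_one_right (norm_nonneg _) (pow_le_one₀ (norm_nonneg _) hz)
    rw [h1.tsum_eq_zero_add]
    simp only [a₁]
    rw [← tsum_mul_left]
    simp only [pow_zero, mul_one]
    congr 1
    refine tsum_congr fun k => ?_
    rw [show 0 + 1 + k = k + 1 by ring, pow_succ]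
    ring
  have hdec : a = sh 1 a₁ - z₀ • a₁ := by
    funext n
    rcases n with _ | n
    · simp only [Pi.sub_apply, Pi.smul_apply, smul_eq_mul, sh]
      simp
      linear_combination hz0
    · simp only [Pi.sub_apply, Pi.smul_apply, smul_eq_mul, sh]
      simp
      linear_combination -(hrec n)
  refine ⟨a₁, hG, ?_, ?_, hnorm⟩
  · intro z hz'
    have hG1 := (hG.sh hβ hβ1 1).summable_norm hβ
    have hG2 := (hG.smul z₀).summable_norm hβ
    calc ev a z = ev (sh 1 a₁ - z₀ • a₁) z := by rw [← hdec]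
      _ = (z - z₀) * ev a₁ z := by
        rw [ev_sub hG1 hG2 hz', ev_sh, ev_smul]
        ring
  · intro j
    have hs1 := flata_summable_dv hβ ha (j + 1) hz (fun n => n - (j + 1))
    unfold dv
    rw [hs1.tsum_eq_zero_add]
    have hd0 : (0 : ℕ).descFactorial (j + 1) = 0 :=
      Nat.descFactorial_eq_zero_iff_lt.2 (Nat.succ_pos j)
    rw [hd0]
    simp only [Nat.cast_zero, zero_mul, zero_add]
    have h1 : ∀ n : ℕ, ((n + 1).descFactorial (j + 1) : ℂ) * a (n + 1) * z₀ ^ (n + 1 - (j + 1)) =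
        ((n.descFactorial (j + 1) : ℂ) * a₁ n * z₀ ^ (n - j)
          + (j + 1) * ((n.descFactorial j : ℂ) * a₁ n * z₀ ^ (n - j)))
        - z₀ * (((n + 1).descFactorial (j + 1) : ℂ) * a₁ (n + 1) * z₀ ^ ((n + 1) - (j + 1))) := by
      intro n
      rw [Nat.add_sub_add_right]
      have h2 : a (n + 1) = a₁ n - z₀ * a₁ (n + 1) := by rw [hrec n]; ring
      rw [h2]
      have h3 : ((n + 1).descFactorial (j + 1) : ℂ) =
        n.descFactorial (j + 1) + (j + 1) * n.descFactorial j := by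
        rw [flata_desc]; push_cast; ring
      linear_combination (a₁ n * z₀ ^ (n - j)) * h3
    have e1 := flata_summable_dv hβ hG (j + 1) hz (fun n => n - j)
    have e2 := flata_summable_dv hβ hG j hz (fun n => n - j)
    have e3 := flata_summable_dv hβ hG (j + 1) hz (fun n => n - (j + 1))
    have e3' := (summable_nat_add_iff 1).2 e3
    rw [tsum_congr h1, ((e1.add (e2.mul_left _))).tsum_sub (e3'.mul_left _), e1.tsum_add
      (e2.mul_left _), tsum_mul_left, tsum_mul_left]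
    have h4 : z₀ * ∑' n : ℕ, ((n + 1).descFactorial (j + 1) : ℂ) * a₁ (n + 1) *
        z₀ ^ ((n + 1) - (j + 1)) = ∑' n : ℕ, (n.descFactorial (j + 1) : ℂ) * a₁ n * z₀ ^ (n - j) := by
      have h5 : ∑' n : ℕ, (n.descFactorial (j + 1) : ℂ) * a₁ n * z₀ ^ (n - (j + 1)) =
          ∑' n : ℕ, ((n + 1).descFactorial (j + 1) : ℂ) * a₁ (n + 1) * z₀ ^ ((n + 1) - (j + 1)) := by
        rw [e3.tsum_eq_zero_add]
        simp
      rw [← h5, ← tsum_mul_left]
      refine tsum_congr fun n => ?_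
      by_cases hn : j + 1 ≤ n
      · rw [show n - j = (n - (j + 1)) + 1 by omega, pow_succ]
        ring
      · rw [Nat.descFactorial_eq_zero_iff_lt.2 (by omega)]
        simp
    rw [h4]
    ring

theorem dvdm {β : ℝ} (hβ : 0 < β) (hβ1 : β ≤ 1) (m : ℕ) {a : ℕ → ℂ} (ha : Gv β a) {z₀ : ℂ} (hz : ‖z₀‖ ≤ 1)
    (h0 : ∀ j < m, dv j a z₀ = 0) :
    ∃ a₁ : ℕ → ℂ, Gv β a₁ ∧ (∀ z : ℂ, ‖z‖ ≤ 1 → ev a z = (z - z₀) ^ m * ev a₁ z) ∧
      dv m a z₀ = (m.factorial : ℂ) * ev a₁ z₀ := by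
  have hdv0 : ∀ (b : ℕ → ℂ) (z : ℂ), dv 0 b z = ev b z := by
    intro b z
    simp [dv, ev]
  induction m generalizing a with
  | zero => exact ⟨a, ha, fun z _ => by simp, by simp [hdv0]⟩
  | succ m ih =>
    obtain ⟨a', hG, he, hd, -⟩ := dvd1 hβ hβ1 ha hz (by rw [← hdv0]; exact h0 0 (Nat.succ_pos m))
    have h1 : ∀ j < m, dv j a' z₀ = 0 := by
      intro j hj
      have := hd j
      rw [h0 (j + 1) (Nat.succ_lt_succ hj)] at this
      have hne : ((j : ℂ) + 1) ≠ 0 := by exact_mod_cast Nat.succ_ne_zero j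
      exact (mul_eq_zero.1 this.symm).resolve_left hne
    obtain ⟨a₁, hG1, he1, hd1⟩ := ih hG h1
    refine ⟨a₁, hG1, fun z hz' => ?_, ?_⟩
    · rw [he z hz', he1 z hz', pow_succ]
      ring
    · rw [hd m, hd1, Nat.factorial_succ]
      push_cast
      ring

end MP_9d6c91_an
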