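import Pool.Agent.Lib.MP_9d6c91_an.FlatA

/-!
# JOB FLATB : division by `z - e` and the flat bound

* `dvd1` : `a₁ n = ∑_{k>n} a_k z₀^(k-n-1)`, `‖a₁ n‖ ≤ ∑_{k>n} ‖a_k‖ ≤ C exp (-(δ/2) n^β)`; `a = (z - z₀) a₁` means
  `a n = a₁ (n-1) - z₀ a₁ n` (uses `ev a z₀ = 0` for `n = 0`); the derivative formula is Leibniz:
  `n descFactorial (j+1) ...`: coefficientwise `∑ n^{(j+1)} a_n z₀^(n-j-1) = (j+1) ∑ n^{(j)} a₁_n z₀^(n-j)`.
* `dvdm` : iterate `m` times.
* `flat_bound` : `sup |g_m| ≤ ∑_n |(g_m)_n| ≤ ∑_k (k choose m) |g_k| ≤ A ∑_k (k^m/m!) exp (-δ k^β) ≤ C Q^m m^(m/β) / m! ≤ C Q'^m m^(m/α)` where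
  `g = (z-e)^m g_m` (the bound for the iterated quotients: `∑_n |(a₁)_n| (n choose j) ≤ ∑_k |a_k| (k choose (j+1))`), so
  `|g(z)| ≤ C (Q' m^(1/α) |z-e|)^m`; `m = ⌊c |z-e|^(-α)⌋`.
-/

set_option autoImplicit false

open MeasureTheory Complex Filter Topology Set
open scoped ENNReal Real

namespace MP_9d6c91_an

private theorem flatb_hockey (j m : ℕ) : ∑ n ∈ Finset.range m, n.choose j = m.choose (j + 1) := by
  induction m with
  | zero => simp
  | succ m ih => rw [Finset.sum_range_succ, ih, Nat.choose_succ_succ, add_comm]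

private theorem flatb_swap (b c : ℕ → ℝ≥0∞) (h : ∀ n, c n ≤ ∑' k, b (n + 1 + k)) (j : ℕ) :
    ∑' n, c n * (n.choose j : ℝ≥0∞) ≤ ∑' n, b n * (n.choose (j + 1) : ℝ≥0∞) := by
  have h1 : ∀ n, ∑' k, b (n + 1 + k) = ∑' m, if n < m then b m else 0 := by
    intro n
    have hinj : Function.Injective fun k : ℕ => n + 1 + k := fun x y hxy => by
      simpa using hxy
    rw [← hinj.tsum_eq (f := fun m => if n < m then b m else 0)]
    · refine tsum_congr fun k => ?_
      rw [if_pos (by omega)]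
    · intro m hm
      simp only [Function.mem_support, ne_eq, ite_eq_right_iff, not_forall] at hm
      obtain ⟨hm, -⟩ := hm
      exact ⟨m - (n + 1), by simp only; omega⟩
  calc ∑' n, c n * (n.choose j : ℝ≥0∞)
      ≤ ∑' n, (∑' m, if n < m then b m else 0) * (n.choose j : ℝ≥0∞) := by
        refine ENNReal.tsum_le_tsum fun n => ?_
        rw [← h1 n]
        exact mul_le_mul_left (h n) _
    _ = ∑' n, ∑' m, (if n < m then b m else 0) * (n.choose j : ℝ≥0∞) := by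
        refine tsum_congr fun n => ?_
        rw [ENNReal.tsum_mul_right]
    _ = ∑' m, ∑' n, (if n < m then b m else 0) * (n.choose j : ℝ≥0∞) := ENNReal.tsum_comm
    _ = ∑' m, b m * (m.choose (j + 1) : ℝ≥0∞) := by
        refine tsum_congr fun m => ?_
        rw [tsum_eq_sum (s := Finset.range m)]
        · rw [← flatb_hockey, Nat.cast_sum, Finset.mul_sum]
          refine Finset.sum_congr rfl fun n hn => ?_
          rw [if_pos (Finset.mem_range.1 hn)]
        · intro n hn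
          rw [if_neg (fun h => hn (Finset.mem_range.2 h)), zero_mul]

private theorem flatb_iter {β : ℝ} (hβ : 0 < β) (hβ1 : β ≤ 1) {g : ℕ → ℂ} (hg : Gv β g) {e : ℂ}
    (he : ‖e‖ ≤ 1) (h0 : ∀ j, dv j g e = 0) (m : ℕ) :
    ∃ q : ℕ → ℂ, Gv β q ∧ (∀ z : ℂ, ‖z‖ ≤ 1 → ev g z = (z - e) ^ m * ev q z) ∧
      (∀ j, dv j q e = 0) ∧
      ∀ j, ∑' n, ‖q n‖ₑ * (n.choose j : ℝ≥0∞) ≤ ∑' n, ‖g n‖ₑ * (n.choose (j + m) : ℝ≥0∞) := by
  induction m with
  | zero => exact ⟨g, hg, fun z _ => by simp, h0, fun j => by simp⟩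
  | succ m ih =>
    obtain ⟨q, hq, hqe, hqd, hqs⟩ := ih
    have hev0 : ev q e = 0 := by
      rw [← hqd 0]
      simp [dv, ev]
    obtain ⟨q₁, hq1, hqe1, hqd1, hqn⟩ := dvd1 hβ hβ1 hq he hev0
    refine ⟨q₁, hq1, fun z hz => ?_, fun j => ?_, fun j => ?_⟩
    · rw [hqe z hz, hqe1 z hz, pow_succ]
      ring
    · have := hqd1 j
      rw [hqd (j + 1)] at this
      have hne : ((j : ℂ) + 1) ≠ 0 := by exact_mod_cast Nat.succ_ne_zero j
      exact (mul_eq_zero.1 this.symm).resolve_left hne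
    · have h1 : ∀ n, ‖q₁ n‖ₑ ≤ ∑' k, ‖q (n + 1 + k)‖ₑ := by
        intro n
        have hs : Summable fun k => ‖q (n + 1 + k)‖ := by
          have := (summable_nat_add_iff (f := fun k : ℕ => ‖q k‖) (n + 1)).2
            (hq.summable_norm hβ)
          simpa [add_comm] using this
        have h2 := ENNReal.ofReal_le_ofReal (hqn n)
        rw [ENNReal.ofReal_tsum_of_nonneg (fun _ => norm_nonneg _) hs] at h2
        simpa only [ofReal_norm] using h2
      refine (flatb_swap (fun n => ‖q n‖ₑ) _ h1 j).trans ?_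
      have := hqs (j + 1)
      rwa [show j + 1 + m = j + (m + 1) by ring] at this

private theorem flatb_rpow {t p c : ℝ} (ht : 0 ≤ t) (hp : 0 < p) (hc : 0 < c) :
    t ^ p ≤ (p / c) ^ p * Real.exp (c * t) := by
  have h1 : t = (p / c) * (c * t / p) := by field_simp
  have h2 : 0 ≤ c * t / p := by positivity
  have h3 : c * t / p ≤ Real.exp (c * t / p) := by
    have := Real.add_one_le_exp (c * t / p)
    linarith
  calc t ^ p = ((p / c) * (c * t / p)) ^ p := by rw [← h1]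
    _ = (p / c) ^ p * (c * t / p) ^ p := Real.mul_rpow (by positivity) h2
    _ ≤ (p / c) ^ p * (Real.exp (c * t / p)) ^ p := by
        refine mul_le_mul_of_nonneg_left ?_ (by positivity)
        exact Real.rpow_le_rpow h2 h3 hp.le
    _ = (p / c) ^ p * Real.exp (c * t) := by
        rw [← Real.exp_mul]
        congr 2
        field_simp

private theorem flatb_coef {α δ : ℝ} (hα : 0 < α) (hδ : 0 < δ) (m n : ℕ) :
    (n.choose m : ℝ) ≤ ((2 / (α / (1 + α) * δ)) ^ (1 / (α / (1 + α))) * Real.exp 1 *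
      (m : ℝ) ^ (1 / α)) ^ m * Real.exp (δ / 2 * (n : ℝ) ^ (α / (1 + α))) := by
  set β : ℝ := α / (1 + α) with hβdef
  have hβ : 0 < β := by positivity
  rcases Nat.eq_zero_or_pos m with hm | hm
  · subst hm
    simp only [Nat.choose_zero_right, Nat.cast_one, pow_zero, one_mul]
    exact Real.one_le_exp (by positivity)
  have hm' : (0 : ℝ) < m := by exact_mod_cast hm
  have h1 : (n.choose m : ℝ) ≤ (n : ℝ) ^ m / m.factorial := Nat.choose_le_pow_div m n
  have h2 : (n : ℝ) ^ m = ((n : ℝ) ^ β) ^ ((m : ℝ) / β) := by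
    rw [← Real.rpow_mul (Nat.cast_nonneg n), mul_div_cancel₀ _ hβ.ne', Real.rpow_natCast]
  have h3 := flatb_rpow (t := (n : ℝ) ^ β) (p := (m : ℝ) / β) (c := δ / 2) (by positivity)
    (by positivity) (by positivity)
  have h4 : (m : ℝ) ^ m / m.factorial ≤ Real.exp m := Real.pow_div_factorial_le_exp m hm'.le m
  have h5 : (1 : ℝ) / m.factorial ≤ Real.exp m / (m : ℝ) ^ m := by
    rw [le_div_iff₀ (by positivity)]
    calc (1 : ℝ) / m.factorial * (m : ℝ) ^ m = (m : ℝ) ^ m / m.factorial := by ring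
      _ ≤ Real.exp m := h4
  have h6 : ((m : ℝ) / β / (δ / 2)) ^ ((m : ℝ) / β) * (Real.exp m / (m : ℝ) ^ m) =
      ((2 / (β * δ)) ^ (1 / β) * Real.exp 1 * (m : ℝ) ^ (1 / α)) ^ m := by
    have e1 : (m : ℝ) / β / (δ / 2) = (2 / (β * δ)) * m := by field_simp
    have e2 : (m : ℝ) / β = (1 / β) * m := by ring
    have e3 : 1 / β = 1 / α + 1 := by
      rw [hβdef]; field_simp
    rw [e1, Real.mul_rpow (by positivity) hm'.le, e2, Real.rpow_mul (by positivity),
      Real.rpow_natCast, Real.rpow_mul hm'.le, Real.rpow_natCast, e3, Real.rpow_add hm',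
      Real.rpow_one, mul_pow ((m : ℝ) ^ (1 / α)), mul_pow, mul_pow, ← Real.exp_nat_mul, mul_one]
    field_simp
  calc (n.choose m : ℝ) ≤ (n : ℝ) ^ m / m.factorial := h1
    _ = ((n : ℝ) ^ β) ^ ((m : ℝ) / β) * (1 / m.factorial) := by rw [← h2]; ring
    _ ≤ (((m : ℝ) / β / (δ / 2)) ^ ((m : ℝ) / β) * Real.exp (δ / 2 * (n : ℝ) ^ β)) *
        (Real.exp m / (m : ℝ) ^ m) := mul_le_mul h3 h5 (by positivity) (by positivity)
    _ = _ := by rw [← h6]; ring

theorem flat_bound {α : ℝ} (hα : 0 < α) {g : ℕ → ℂ} (hg : Gv (α / (1 + α)) g) :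
    ∃ C c : ℝ, 1 ≤ C ∧ 0 < c ∧ ∀ e : ℂ, ‖e‖ = 1 → (∀ j, dv j g e = 0) → ∀ z : ℂ, ‖z‖ ≤ 1 →
      ‖ev g z‖ ≤ C * Real.exp (-c * ‖z - e‖ ^ (-α)) := by
  have hβ : 0 < α / (1 + α) := by positivity
  have hβ1 : α / (1 + α) ≤ 1 := by rw [div_le_one (by positivity)]; linarith
  obtain ⟨A, δ, hδ, hA⟩ := id hg
  have hA0 : 0 ≤ A := by
    have h := hA 0
    have h2 : 0 < Real.exp (-δ * ((0 : ℕ) : ℝ) ^ (α / (1 + α))) := Real.exp_pos _
    by_contra h3
    rw [not_le] at h3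
    nlinarith [norm_nonneg (g 0)]
  set Q : ℝ := (2 / (α / (1 + α) * δ)) ^ (1 / (α / (1 + α))) * Real.exp 1 with hQdef
  have hQ : 0 < Q := by positivity
  set S : ℝ := ∑' n : ℕ, Real.exp (-(δ / 2) * (n : ℝ) ^ (α / (1 + α))) with hSdef
  have hsS : Summable fun n : ℕ => Real.exp (-(δ / 2) * (n : ℝ) ^ (α / (1 + α))) :=
    summable_exp_neg hβ (by linarith)
  have hS0 : 0 ≤ S := tsum_nonneg fun _ => (Real.exp_pos _).le
  set c₀ : ℝ := (Real.exp 1 * Q) ^ (-α) with hc₀def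
  have hc₀ : 0 < c₀ := by positivity
  refine ⟨max 1 (A * S * Real.exp 1), c₀, le_max_left _ _, hc₀, ?_⟩
  intro e he hflat z hz
  -- the bound for all `m`
  have hkey : ∀ m : ℕ, ‖ev g z‖ ≤ A * S * (Q * (m : ℝ) ^ (1 / α) * ‖z - e‖) ^ m := by
    intro m
    obtain ⟨q, hq, hqe, -, hqs⟩ := flatb_iter hβ hβ1 hg he.le hflat m
    have h1 : ‖ev q z‖ ≤ ∑' n, ‖q n‖ := norm_ev_le (hq.summable_norm hβ) hz
    have h2 : ∑' n, ‖q n‖ ≤ A * S * (Q * (m : ℝ) ^ (1 / α)) ^ m := by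
      have h3 : ENNReal.ofReal (∑' n, ‖q n‖) = ∑' n, ‖q n‖ₑ := by
        rw [ENNReal.ofReal_tsum_of_nonneg (fun _ => norm_nonneg _) (hq.summable_norm hβ)]
        simp only [ofReal_norm]
      have h4 : ∑' n, ‖q n‖ₑ ≤ ∑' n, ‖g n‖ₑ * (n.choose m : ℝ≥0∞) := by
        have := hqs 0
        simpa using this
      have h5 : ∑' n, ‖g n‖ₑ * (n.choose m : ℝ≥0∞) ≤
          ENNReal.ofReal (A * S * (Q * (m : ℝ) ^ (1 / α)) ^ m) := by
        have h6 : ∀ n : ℕ, ‖g n‖ₑ * (n.choose m : ℝ≥0∞) ≤ ENNReal.ofReal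
            (A * (Q * (m : ℝ) ^ (1 / α)) ^ m *
              Real.exp (-(δ / 2) * (n : ℝ) ^ (α / (1 + α)))) := by
          intro n
          rw [← ofReal_norm, ← ENNReal.ofReal_natCast, ← ENNReal.ofReal_mul (norm_nonneg _)]
          refine ENNReal.ofReal_le_ofReal ?_
          calc ‖g n‖ * (n.choose m : ℝ) ≤ (A * Real.exp (-δ * (n : ℝ) ^ (α / (1 + α)))) *
              ((Q * (m : ℝ) ^ (1 / α)) ^ m * Real.exp (δ / 2 * (n : ℝ) ^ (α / (1 + α)))) :=
                mul_le_mul (hA n) (flatb_coef hα hδ m n) (Nat.cast_nonneg _) (by positivity)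
            _ = A * (Q * (m : ℝ) ^ (1 / α)) ^ m * (Real.exp (-δ * (n : ℝ) ^ (α / (1 + α))) *
                Real.exp (δ / 2 * (n : ℝ) ^ (α / (1 + α)))) := by ring
            _ = _ := by
                rw [← Real.exp_add]
                congr 2
                ring
        refine (ENNReal.tsum_le_tsum h6).trans ?_
        rw [← ENNReal.ofReal_tsum_of_nonneg (fun n => by positivity) (hsS.mul_left _),
          tsum_mul_left]
        refine ENNReal.ofReal_le_ofReal (le_of_eq ?_)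
        rw [← hSdef]
        ring
      have h7 := h3.le.trans (h4.trans h5)
      exact (ENNReal.ofReal_le_ofReal_iff (by positivity)).1 h7
    calc ‖ev g z‖ = ‖z - e‖ ^ m * ‖ev q z‖ := by rw [hqe z hz, norm_mul, norm_pow]
      _ ≤ ‖z - e‖ ^ m * (A * S * (Q * (m : ℝ) ^ (1 / α)) ^ m) :=
          mul_le_mul_of_nonneg_left (h1.trans h2) (by positivity)
      _ = _ := by rw [mul_pow (Q * (m : ℝ) ^ (1 / α))]; ring
  rcases (norm_nonneg (z - e)).eq_or_lt with hD | hD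
  · have hze : z = e := by
      rw [← sub_eq_zero]; exact norm_eq_zero.1 hD.symm
    have : ev g z = 0 := by
      rw [hze, ← hflat 0]
      simp [dv, ev]
    rw [this, norm_zero]
    positivity
  · set D : ℝ := ‖z - e‖ with hDdef
    set m : ℕ := ⌊c₀ * D ^ (-α)⌋₊ with hmdef
    have hDα : 0 < D ^ (-α) := Real.rpow_pos_of_pos hD _
    have hm1 : (m : ℝ) ≤ c₀ * D ^ (-α) := Nat.floor_le (by positivity)
    have hm2 : c₀ * D ^ (-α) < m + 1 := Nat.lt_floor_add_one _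
    have h8 : Q * (m : ℝ) ^ (1 / α) * D ≤ Real.exp (-1) := by
      have h9 : (m : ℝ) ^ (1 / α) ≤ (c₀ * D ^ (-α)) ^ (1 / α) :=
        Real.rpow_le_rpow (Nat.cast_nonneg _) hm1 (by positivity)
      have h10 : (c₀ * D ^ (-α)) ^ (1 / α) = (Real.exp 1 * Q)⁻¹ * D⁻¹ := by
        rw [Real.mul_rpow hc₀.le hDα.le, hc₀def, ← Real.rpow_mul (by positivity),
          ← Real.rpow_mul hD.le]
        have : -α * (1 / α) = -1 := by field_simp
        rw [this, Real.rpow_neg_one, Real.rpow_neg_one]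
      rw [h10] at h9
      calc Q * (m : ℝ) ^ (1 / α) * D ≤ Q * ((Real.exp 1 * Q)⁻¹ * D⁻¹) * D := by
            refine mul_le_mul_of_nonneg_right (mul_le_mul_of_nonneg_left h9 hQ.le) hD.le
        _ = Real.exp (-1) := by
            rw [Real.exp_neg]
            field_simp
    have h11 : (Q * (m : ℝ) ^ (1 / α) * D) ^ m ≤ Real.exp (-(m : ℝ)) := by
      calc (Q * (m : ℝ) ^ (1 / α) * D) ^ m ≤ (Real.exp (-1)) ^ m :=
            pow_le_pow_left₀ (by positivity) h8 m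
        _ = Real.exp (-(m : ℝ)) := by
            rw [← Real.exp_nat_mul]
            congr 1
            ring
    calc ‖ev g z‖ ≤ A * S * (Q * (m : ℝ) ^ (1 / α) * D) ^ m := hkey m
      _ ≤ A * S * Real.exp (-(m : ℝ)) := mul_le_mul_of_nonneg_left h11 (by positivity)
      _ ≤ A * S * Real.exp (1 - c₀ * D ^ (-α)) := by
          refine mul_le_mul_of_nonneg_left (Real.exp_le_exp.2 (by linarith)) (by positivity)
      _ = A * S * Real.exp 1 * Real.exp (-c₀ * D ^ (-α)) := by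
          rw [sub_eq_add_neg, Real.exp_add, neg_mul]
          ring
      _ ≤ max 1 (A * S * Real.exp 1) * Real.exp (-c₀ * D ^ (-α)) :=
          mul_le_mul_of_nonneg_right (le_max_right _ _) (Real.exp_pos _).le

end MP_9d6c91_an
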