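import Pool.Agent.Lib.MP_9d6c91_an.Beur

/-!
# JOB GCDB : the gcd property of isometric multipliers

If `s` is in the `ℓ²`-closure of the multiples of an isometric multiplier `τ`, then `s = τ v` with `v` bounded by
one in the disc.
-/

set_option autoImplicit false

open MeasureTheory Complex Filter Topology Set
open scoped ENNReal Real ComplexConjugate

namespace MP_9d6c91_an

theorem gcdB_sh {v : ℕ → ℂ} (hv : Summable fun n => ‖v n‖ ^ 2) (k : ℕ) :
    Summable fun n => ‖sh k v n‖ ^ 2 := by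
  rw [← summable_nat_add_iff k]
  simpa [sh] using hv

/-- multiplication by finitely supported sequences -/
theorem gcdB_cmul_fin {v p : ℕ → ℂ} (hv : Summable fun n => ‖v n‖ ^ 2)
    (hp : ∃ N, ∀ n ≥ N, p n = 0) : Summable fun n => ‖cmul v p n‖ ^ 2 := by
  obtain ⟨N, hN⟩ := hp
  have hp' : p = ∑ k ∈ Finset.range N, p k • (fun n => if n = k then (1 : ℂ) else 0) := by
    funext n
    simp only [Finset.sum_apply, Pi.smul_apply, smul_eq_mul, mul_ite, mul_one, mul_zero]
    rw [Finset.sum_ite_eq]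
    split_ifs with h
    · rfl
    · exact hN n (by simpa using h)
  let L : (ℕ → ℂ) →ₗ[ℂ] (ℕ → ℂ) :=
    { toFun := cmul v
      map_add' := beurA_cmul_add v
      map_smul' := fun c a => beurA_cmul_smul c v a }
  have h1 : cmul v p = ∑ k ∈ Finset.range N, p k • sh k v := by
    have : L p = ∑ k ∈ Finset.range N, p k • L (fun n => if n = k then (1 : ℂ) else 0) := by
      conv_lhs => rw [hp']
      rw [map_sum]
      exact Finset.sum_congr rfl fun k _ => by rw [map_smul]
    change L p = _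
    rw [this]
    refine Finset.sum_congr rfl fun k _ => ?_
    change p k • cmul v _ = _
    rw [beurA_cmul_single]
  rw [← beurA_mem_iff (a := cmul v p), h1]
  refine Finset.sum_induction (fun k => p k • sh k v)
    (fun f : ℕ → ℂ => Memℓp (E := fun _ : ℕ => ℂ) f 2) (fun a b ha hb => ha.add hb) ?_ ?_
  · rw [beurA_mem_iff]
    simp
  · intro k _
    rw [beurA_mem_iff]
    have := (gcdB_sh hv k).mul_left (‖p k‖ ^ 2)
    simpa [mul_pow] using this

theorem gcdB_one1 : Summable fun n => ‖one1 n‖ ^ 2 := by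
  refine summable_of_ne_finset_zero (s := {0}) fun n hn => ?_
  have : n ≠ 0 := by simpa using hn
  simp [one1, this]

theorem gcd_step {τ s : ℕ → ℂ} (hτ : IsoM τ) (hs : IsoM s)
    (happ : ∀ ε : ℝ, 0 < ε → ∃ v : ℕ → ℂ, (Summable fun n => ‖v n‖ ^ 2) ∧
      ∑' n, ‖cmul τ v n - s n‖ ^ 2 < ε) :
    ∃ v : ℕ → ℂ, (Summable fun n => ‖v n‖ ^ 2) ∧ s = cmul τ v ∧
      ∀ z ∈ Metric.ball (0 : ℂ) 1, ‖ev v z‖ ≤ 1 := by
  have hsL : Summable fun n => ‖s n‖ ^ 2 := by
    have := (hs one1 gcdB_one1).1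
    rwa [cmul_one1] at this
  set S : lp (fun _ : ℕ => ℂ) 2 := ⟨s, beurA_mem_iff.mpr hsL⟩ with hS
  have hclosed : IsClosed (Set.range hτ.li) := hτ.li.isometry.isClosedEmbedding.isClosed_range
  have hmem : S ∈ Set.range hτ.li := by
    rw [← hclosed.closure_eq, Metric.mem_closure_iff]
    intro ε hε
    obtain ⟨v, hv, hlt⟩ := happ (ε ^ 2) (by positivity)
    set V : lp (fun _ : ℕ => ℂ) 2 := ⟨v, beurA_mem_iff.mpr hv⟩ with hV
    refine ⟨hτ.li V, ⟨V, rfl⟩, ?_⟩
    rw [dist_comm, dist_eq_norm]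
    have h1 := beurA_norm_sq (hτ.li V - S)
    have h2 : ∑' n, ‖(hτ.li V - S : lp (fun _ : ℕ => ℂ) 2) n‖ ^ 2
        = ∑' n, ‖cmul τ v n - s n‖ ^ 2 := rfl
    rw [h2] at h1
    rw [← h1] at hlt
    exact lt_of_pow_lt_pow_left₀ 2 hε.le hlt
  obtain ⟨V, hV⟩ := hmem
  have hsv : s = cmul τ V := by
    have := congrArg (fun f : lp (fun _ : ℕ => ℂ) 2 => (f : ℕ → ℂ)) hV
    simpa [hS] using this.symm
  refine ⟨V, beurA_summable V, hsv, fun z hz => ?_⟩
  refine norm_ev_le_of_mult zero_le_one (beurA_summable V) (fun p hp => ?_) hz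
  have h1 := gcdB_cmul_fin (beurA_summable V) hp
  refine ⟨h1, ?_⟩
  have hpsum : Summable fun n => ‖p n‖ ^ 2 := by
    obtain ⟨N, hN⟩ := hp
    refine summable_of_ne_finset_zero (s := Finset.range N) fun n hn => ?_
    rw [hN n (by simpa using hn)]
    simp
  rw [← (hτ _ h1).2, ← cmul_assoc, ← hsv, (hs _ hpsum).2]
  simp

end MP_9d6c91_an
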