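import Pool.Agent.Lib.MP_9d6c91_an.Beur
import Pool.Agent.Lib.MP_9d6c91_an.GcdB

/-!
# JOB GCDA : inner functions are isometric multipliers

Parseval on the circle (`gcdA_parseval`), the isometry on finitely supported sequences by dominated convergence
(`gcdA_fin`), and its extension to `ℓ²` (`gcdA_extend`).
-/

set_option autoImplicit false

open MeasureTheory Complex Filter Topology Set
open scoped ENNReal Real ComplexConjugate

namespace MP_9d6c91_an

theorem gcdA_int_exp (k : ℤ) :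
    ∫ θ in (0 : ℝ)..2 * π, Complex.exp ((k * I : ℂ) * θ) = if k = 0 then 2 * π else 0 := by
  split_ifs with hk
  · simp [hk]
  · have hk' : (k * I : ℂ) ≠ 0 := by simp [hk]
    rw [integral_exp_mul_complex hk']
    have h1 : Complex.exp ((k * I : ℂ) * ((2 * π : ℝ) : ℂ)) = 1 := by
      rw [Complex.exp_eq_one_iff]
      exact ⟨k, by push_cast; ring⟩
    rw [h1]
    simp

theorem gcdA_norm_exp (θ : ℝ) : ‖Complex.exp ((θ : ℂ) * I)‖ = 1 := Complex.norm_exp_ofReal_mul_I θ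

theorem gcdA_hasSum {c : ℕ → ℂ} (hc : Summable fun n => ‖c n‖) (θ : ℝ) :
    HasSum (fun n => c n * Complex.exp ((θ : ℂ) * I) ^ n) (ev c (Complex.exp ((θ : ℂ) * I))) := by
  have : Summable fun n => c n * Complex.exp ((θ : ℂ) * I) ^ n := by
    refine Summable.of_norm ?_
    simpa [norm_mul, norm_pow, gcdA_norm_exp] using hc
  exact this.hasSum

theorem gcdA_cont {c : ℕ → ℂ} (hc : Summable fun n => ‖c n‖) :
    Continuous fun θ : ℝ => ev c (Complex.exp ((θ : ℂ) * I)) := by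
  unfold ev
  refine continuous_tsum (u := fun n => ‖c n‖) (fun n => by fun_prop) hc fun n θ => ?_
  simp [norm_pow]

theorem gcdA_coeff {c : ℕ → ℂ} (hc : Summable fun n => ‖c n‖) (n : ℕ) :
    ∫ θ in (0 : ℝ)..2 * π, conj (ev c (Complex.exp ((θ : ℂ) * I))) * Complex.exp ((θ : ℂ) * I) ^ n
      = 2 * π * conj (c n) := by
  have h := intervalIntegral.hasSum_integral_of_dominated_convergence
    (a := 0) (b := 2 * π) (μ := volume)
    (F := fun (m : ℕ) (θ : ℝ) => conj (c m * Complex.exp ((θ : ℂ) * I) ^ m) *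
      Complex.exp ((θ : ℂ) * I) ^ n)
    (f := fun θ : ℝ => conj (ev c (Complex.exp ((θ : ℂ) * I))) * Complex.exp ((θ : ℂ) * I) ^ n)
    (fun m _ => ‖c m‖)
    (fun m => by
      apply Continuous.aestronglyMeasurable
      fun_prop)
    (fun m => by
      refine Eventually.of_forall fun θ _ => ?_
      simp [norm_pow])
    (Eventually.of_forall fun θ _ => hc)
    (by simp)
    (Eventually.of_forall fun θ _ => by
      have h1 := (gcdA_hasSum hc θ)
      have h2 : HasSum (fun m => conj (c m * Complex.exp ((θ : ℂ) * I) ^ m))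
          (conj (ev c (Complex.exp ((θ : ℂ) * I)))) := by
        simpa using h1.star
      exact h2.mul_right _)
  have h3 : ∀ m : ℕ, ∫ θ in (0 : ℝ)..2 * π, conj (c m * Complex.exp ((θ : ℂ) * I) ^ m) *
      Complex.exp ((θ : ℂ) * I) ^ n = if m = n then 2 * π * conj (c n) else 0 := by
    intro m
    have h4 : ∀ θ : ℝ, conj (c m * Complex.exp ((θ : ℂ) * I) ^ m) * Complex.exp ((θ : ℂ) * I) ^ n
        = conj (c m) * Complex.exp ((((n : ℤ) - (m : ℤ) : ℤ) * I : ℂ) * θ) := by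
      intro θ
      rw [map_mul, map_pow, ← Complex.exp_conj, ← Complex.exp_nat_mul, ← Complex.exp_nat_mul,
        mul_assoc, ← Complex.exp_add]
      congr 2
      simp
      ring
    simp_rw [h4]
    rw [intervalIntegral.integral_const_mul, gcdA_int_exp]
    by_cases hmn : m = n
    · subst hmn
      simp
      ring
    · have : (n : ℤ) - (m : ℤ) ≠ 0 := by omega
      simp [this, hmn]
  simp_rw [h3] at h
  have h5 := h.tsum_eq
  rw [tsum_ite_eq] at h5
  exact h5.symm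

theorem gcdA_parseval {c : ℕ → ℂ} (hc : Summable fun n => ‖c n‖) :
    ∫ θ in (0 : ℝ)..2 * π, ‖ev c (Complex.exp ((θ : ℂ) * I))‖ ^ 2 = 2 * π * ∑' n, ‖c n‖ ^ 2 := by
  have hb : ∀ θ : ℝ, ‖ev c (Complex.exp ((θ : ℂ) * I))‖ ≤ ∑' n, ‖c n‖ := fun θ =>
    norm_ev_le hc (gcdA_norm_exp θ).le
  have h := intervalIntegral.hasSum_integral_of_dominated_convergence
    (a := 0) (b := 2 * π) (μ := volume)
    (F := fun (m : ℕ) (θ : ℝ) => conj (ev c (Complex.exp ((θ : ℂ) * I))) *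
      (c m * Complex.exp ((θ : ℂ) * I) ^ m))
    (f := fun θ : ℝ => conj (ev c (Complex.exp ((θ : ℂ) * I))) * ev c (Complex.exp ((θ : ℂ) * I)))
    (fun m _ => (∑' n, ‖c n‖) * ‖c m‖)
    (fun m => by
      apply Continuous.aestronglyMeasurable
      have := gcdA_cont hc
      fun_prop)
    (fun m => by
      refine Eventually.of_forall fun θ _ => ?_
      rw [norm_mul, norm_mul, norm_pow, gcdA_norm_exp, one_pow, mul_one, Complex.norm_conj]
      exact mul_le_mul_of_nonneg_right (hb θ) (norm_nonneg _))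
    (Eventually.of_forall fun θ _ => hc.mul_left _)
    (by simp)
    (Eventually.of_forall fun θ _ => (gcdA_hasSum hc θ).mul_left _)
  have h3 : ∀ m : ℕ, ∫ θ in (0 : ℝ)..2 * π, conj (ev c (Complex.exp ((θ : ℂ) * I))) *
      (c m * Complex.exp ((θ : ℂ) * I) ^ m) = ((2 * π * ‖c m‖ ^ 2 : ℝ) : ℂ) := by
    intro m
    have h4 : ∀ θ : ℝ, conj (ev c (Complex.exp ((θ : ℂ) * I))) *
        (c m * Complex.exp ((θ : ℂ) * I) ^ m) = c m * (conj (ev c (Complex.exp ((θ : ℂ) * I))) *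
        Complex.exp ((θ : ℂ) * I) ^ m) := fun θ => by ring
    simp_rw [h4]
    rw [intervalIntegral.integral_const_mul, gcdA_coeff hc]
    have := Complex.mul_conj' (c m)
    push_cast
    rw [← this]
    ring
  simp_rw [h3] at h
  have h5 : ∀ θ : ℝ, conj (ev c (Complex.exp ((θ : ℂ) * I))) * ev c (Complex.exp ((θ : ℂ) * I))
      = ((‖ev c (Complex.exp ((θ : ℂ) * I))‖ ^ 2 : ℝ) : ℂ) := fun θ => by
    rw [Complex.conj_mul']
    push_cast
    rfl
  simp_rw [h5] at h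
  rw [intervalIntegral.integral_ofReal] at h
  have h6 := (Complex.hasSum_ofReal.mp h).tsum_eq
  rw [← h6, tsum_mul_left]

theorem gcdA_fin {T : ℂ → ℂ} {τ : ℕ → ℂ} (hT1 : ∀ z ∈ Metric.ball (0 : ℂ) 1, ‖T z‖ ≤ 1)
    (hrad : ∀ᵐ θ : ℝ ∂MeasureTheory.volume, ∃ w : ℂ, ‖w‖ = 1 ∧
      Filter.Tendsto (fun r : ℝ => T ((r : ℂ) * Complex.exp ((θ : ℂ) * Complex.I)))
        (nhdsWithin 1 (Set.Iio 1)) (nhds w))
    (hτ2 : Summable fun n => ‖τ n‖ ^ 2)
    (hτev : ∀ z ∈ Metric.ball (0 : ℂ) 1, T z = ev τ z)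
    (p : ℕ → ℂ) (hp : ∃ N, ∀ n ≥ N, p n = 0) :
    (Summable fun n => ‖cmul τ p n‖ ^ 2) ∧ ∑' n, ‖cmul τ p n‖ ^ 2 = ∑' n, ‖p n‖ ^ 2 := by
  have hg2 := gcdB_cmul_fin hτ2 hp
  refine ⟨hg2, ?_⟩
  set g := cmul τ p with hg
  obtain ⟨N, hN⟩ := hp
  have hps : Summable fun n => ‖p n‖ := by
    refine summable_of_ne_finset_zero (s := Finset.range N) fun n hn => ?_
    rw [hN n (by simpa using hn)]
    simp
  have hp2 : Summable fun n => ‖p n‖ ^ 2 := by
    refine summable_of_ne_finset_zero (s := Finset.range N) fun n hn => ?_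
    rw [hN n (by simpa using hn)]
    simp
  have hpcont : Continuous (ev p) := by
    have : ev p = fun z => ∑ n ∈ Finset.range N, p n * z ^ n := by
      funext z
      rw [ev, tsum_eq_sum (s := Finset.range N)]
      intro n hn
      rw [hN n (by simpa using hn)]
      simp
    rw [this]
    fun_prop
  have hIoo : ∀ᶠ r : ℝ in 𝓝[<] 1, 0 < r ∧ r < 1 := by
    have := Ioo_mem_nhdsLT (show (0 : ℝ) < 1 by norm_num)
    filter_upwards [this] with r hr using hr
  have hball : ∀ r : ℝ, 0 < r → r < 1 → ∀ θ : ℝ,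
      (r : ℂ) * Complex.exp ((θ : ℂ) * I) ∈ Metric.ball (0 : ℂ) 1 := by
    intro r hr0 hr1 θ
    rw [mem_ball_zero_iff, norm_mul, gcdA_norm_exp, mul_one, Complex.norm_real,
      Real.norm_eq_abs, abs_of_pos hr0]
    exact hr1
  have hsumr : ∀ r : ℝ, 0 < r → r < 1 → Summable fun n => ‖g n * (r : ℂ) ^ n‖ := by
    intro r hr0 hr1
    refine (beurA_cs (b := fun n => (r : ℂ) ^ n) hg2 ?_).1
    have : Summable fun n : ℕ => (r ^ 2) ^ n :=
      summable_geometric_of_lt_one (by positivity) (by nlinarith)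
    refine this.congr fun n => ?_
    rw [norm_pow, Complex.norm_real, Real.norm_eq_abs, abs_of_pos hr0, ← pow_mul, ← pow_mul,
      mul_comm]
  have hevr : ∀ r : ℝ, 0 < r → r < 1 → ∀ θ : ℝ,
      ev (fun n => g n * (r : ℂ) ^ n) (Complex.exp ((θ : ℂ) * I))
        = T ((r : ℂ) * Complex.exp ((θ : ℂ) * I)) * ev p ((r : ℂ) * Complex.exp ((θ : ℂ) * I)) := by
    intro r hr0 hr1 θ
    rw [hτev _ (hball r hr0 hr1 θ),
      ← ev_cmul_of_bdd (beurA_bdd hτ2) (beurA_bdd hp2) (hball r hr0 hr1 θ)]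
    unfold ev
    refine tsum_congr fun n => ?_
    rw [mul_pow]
    ring
  -- the integrals converge
  have hlim1 : Tendsto (fun r : ℝ => ∫ θ in (0 : ℝ)..2 * π,
      ‖ev (fun n => g n * (r : ℂ) ^ n) (Complex.exp ((θ : ℂ) * I))‖ ^ 2) (𝓝[<] 1)
      (𝓝 (∫ θ in (0 : ℝ)..2 * π, ‖ev p (Complex.exp ((θ : ℂ) * I))‖ ^ 2)) := by
    refine intervalIntegral.tendsto_integral_filter_of_dominated_convergence
      (fun _ => (∑' n, ‖p n‖) ^ 2) ?_ ?_ (by simp) ?_
    · filter_upwards [hIoo] with r hr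
      apply Continuous.aestronglyMeasurable
      have := gcdA_cont (hsumr r hr.1 hr.2)
      fun_prop
    · filter_upwards [hIoo] with r hr
      refine Eventually.of_forall fun θ _ => ?_
      rw [hevr r hr.1 hr.2, norm_pow, norm_norm, norm_mul]
      have h1 := hT1 _ (hball r hr.1 hr.2 θ)
      have h2 := norm_ev_le hps (mem_ball_zero_iff.mp (hball r hr.1 hr.2 θ)).le
      have h3 : ‖T ((r : ℂ) * Complex.exp ((θ : ℂ) * I))‖ *
          ‖ev p ((r : ℂ) * Complex.exp ((θ : ℂ) * I))‖ ≤ ∑' n, ‖p n‖ := by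
        calc _ ≤ 1 * ∑' n, ‖p n‖ := by gcongr
          _ = _ := one_mul _
      gcongr
    · filter_upwards [hrad] with θ hθ _
      obtain ⟨w, hw, hlim⟩ := hθ
      have h1 : Tendsto (fun r : ℝ => (r : ℂ) * Complex.exp ((θ : ℂ) * I)) (𝓝[<] 1)
          (𝓝 (Complex.exp ((θ : ℂ) * I))) := by
        have : Continuous fun r : ℝ => (r : ℂ) * Complex.exp ((θ : ℂ) * I) := by fun_prop
        have h := this.tendsto 1
        simp only [Complex.ofReal_one, one_mul] at h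
        exact h.mono_left nhdsWithin_le_nhds
      have h2 := (hpcont.tendsto _).comp h1
      have h3 := ((hlim.mul h2).norm).pow 2
      rw [norm_mul, hw, one_mul] at h3
      refine h3.congr' ?_
      filter_upwards [hIoo] with r hr
      rw [hevr r hr.1 hr.2]
      rfl
  -- the sums converge
  have hlim2 : Tendsto (fun r : ℝ => ∑' n, ‖g n * (r : ℂ) ^ n‖ ^ 2) (𝓝[<] 1)
      (𝓝 (∑' n, ‖g n‖ ^ 2)) := by
    refine tendsto_tsum_of_dominated_convergence (bound := fun n => ‖g n‖ ^ 2) hg2 ?_ ?_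
    · intro n
      have : Continuous fun r : ℝ => ‖g n * (r : ℂ) ^ n‖ ^ 2 := by fun_prop
      have h := this.tendsto 1
      simp only [Complex.ofReal_one, one_pow, mul_one] at h
      exact h.mono_left nhdsWithin_le_nhds
    · filter_upwards [hIoo] with r hr n
      rw [norm_pow, norm_norm, norm_mul, norm_pow, Complex.norm_real, Real.norm_eq_abs,
        abs_of_pos hr.1]
      have : ‖g n‖ * r ^ n ≤ ‖g n‖ :=
        mul_le_of_le_one_right (norm_nonneg _) (pow_le_one₀ hr.1.le hr.2.le)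
      gcongr
      exact mul_nonneg (norm_nonneg _) (pow_nonneg hr.1.le _)
  have hlim3 : Tendsto (fun r : ℝ => ∫ θ in (0 : ℝ)..2 * π,
      ‖ev (fun n => g n * (r : ℂ) ^ n) (Complex.exp ((θ : ℂ) * I))‖ ^ 2) (𝓝[<] 1)
      (𝓝 (2 * π * ∑' n, ‖g n‖ ^ 2)) := by
    refine (hlim2.const_mul (2 * π)).congr' ?_
    filter_upwards [hIoo] with r hr
    rw [gcdA_parseval (hsumr r hr.1 hr.2)]
  have heq := tendsto_nhds_unique hlim1 hlim3
  rw [gcdA_parseval hps] at heq
  have hpi : (2 * π : ℝ) ≠ 0 := by positivity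
  exact (mul_left_cancel₀ hpi heq).symm

/-- extension of the isometry from finitely supported sequences to `ℓ²` -/
theorem gcdA_extend {τ : ℕ → ℂ} (fin : ∀ p : ℕ → ℂ, (∃ N, ∀ n ≥ N, p n = 0) →
    (Summable fun n => ‖cmul τ p n‖ ^ 2) ∧ ∑' n, ‖cmul τ p n‖ ^ 2 = ∑' n, ‖p n‖ ^ 2) :
    IsoM τ := by
  have hle : ∀ h : ℕ → ℂ, (Summable fun n => ‖h n‖ ^ 2) →
      (Summable fun n => ‖cmul τ h n‖ ^ 2) ∧ ∑' n, ‖cmul τ h n‖ ^ 2 ≤ ∑' n, ‖h n‖ ^ 2 := by
    intro h hh
    have hM : ∀ M : ℕ, ∑ n ∈ Finset.range M, ‖cmul τ h n‖ ^ 2 ≤ ∑' n, ‖h n‖ ^ 2 := by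
      intro M
      set p : ℕ → ℂ := fun n => if n < M then h n else 0 with hp
      obtain ⟨h1, h2⟩ := fin p ⟨M, fun n hn => by simp [hp, not_lt.mpr hn]⟩
      have h3 : ∑ n ∈ Finset.range M, ‖cmul τ h n‖ ^ 2 = ∑ n ∈ Finset.range M, ‖cmul τ p n‖ ^ 2 := by
        refine Finset.sum_congr rfl fun n hn => ?_
        have hn' : n < M := Finset.mem_range.mp hn
        have : cmul τ h n = cmul τ p n := by
          unfold cmul
          refine Finset.sum_congr rfl fun k _ => ?_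
          have : n - k < M := by omega
          simp [hp, this]
        rw [this]
      rw [h3]
      refine (h1.sum_le_tsum _ fun n _ => sq_nonneg _).trans ?_
      rw [h2]
      have hle' : ∀ n, ‖p n‖ ^ 2 ≤ ‖h n‖ ^ 2 := by
        intro n
        simp only [hp]
        split_ifs
        · exact le_rfl
        · simp
      exact (Summable.of_nonneg_of_le (fun n => sq_nonneg _) hle' hh).tsum_le_tsum hle' hh
    exact ⟨summable_of_sum_range_le (fun n => sq_nonneg _) hM,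
      Real.tsum_le_of_sum_range_le (fun n => sq_nonneg _) hM⟩
  let L₀ : lp (fun _ : ℕ => ℂ) 2 →ₗ[ℂ] lp (fun _ : ℕ => ℂ) 2 :=
    { toFun := fun f => ⟨cmul τ f, beurA_mem_iff.mpr (hle f (beurA_summable f)).1⟩
      map_add' := fun f g => by
        ext n
        exact congrFun (beurA_cmul_add τ f g) n
      map_smul' := fun c f => by
        ext n
        exact congrFun (beurA_cmul_smul c τ f) n }
  have hL₀ : ∀ f, ‖L₀ f‖ ≤ 1 * ‖f‖ := by
    intro f
    rw [one_mul, ← sq_le_sq₀ (norm_nonneg _) (norm_nonneg _), beurA_norm_sq, beurA_norm_sq]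
    exact (hle f (beurA_summable f)).2
  let L := L₀.mkContinuous 1 hL₀
  have hclosed : IsClosed {f : lp (fun _ : ℕ => ℂ) 2 | ‖L f‖ = ‖f‖} :=
    isClosed_eq (L.continuous.norm) continuous_norm
  have hall : ∀ f : lp (fun _ : ℕ => ℂ) 2, ‖L f‖ = ‖f‖ := by
    intro f
    refine hclosed.mem_of_tendsto (lp.hasSum_single (by norm_num) f)
      (Eventually.of_forall fun s => ?_)
    have hfin : ∃ N, ∀ n ≥ N, (∑ i ∈ s, lp.single 2 i (f i) : lp (fun _ : ℕ => ℂ) 2) n = 0 := by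
      refine ⟨s.sup id + 1, fun n hn => ?_⟩
      rw [lp.coeFn_sum, Finset.sum_apply]
      refine Finset.sum_eq_zero fun i hi => ?_
      have : i ≤ s.sup id := Finset.le_sup (f := id) hi
      have hni : n ≠ i := by omega
      simp [lp.single_apply, hni]
    have h1 := (fin _ hfin).2
    change ‖L _‖ = ‖_‖
    rw [← sq_eq_sq₀ (norm_nonneg _) (norm_nonneg _), beurA_norm_sq, beurA_norm_sq]
    exact h1
  intro h hh
  refine ⟨(hle h hh).1, ?_⟩
  have h1 := hall ⟨h, beurA_mem_iff.mpr hh⟩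
  rw [← sq_eq_sq₀ (norm_nonneg _) (norm_nonneg _), beurA_norm_sq, beurA_norm_sq] at h1
  exact h1

theorem isoM_of_inner {T : ℂ → ℂ} (hT : DifferentiableOn ℂ T (Metric.ball (0 : ℂ) 1))
    (hT1 : ∀ z ∈ Metric.ball (0 : ℂ) 1, ‖T z‖ ≤ 1)
    (hrad : ∀ᵐ θ : ℝ ∂MeasureTheory.volume, ∃ w : ℂ, ‖w‖ = 1 ∧
      Filter.Tendsto (fun r : ℝ => T ((r : ℂ) * Complex.exp ((θ : ℂ) * Complex.I)))
        (nhdsWithin 1 (Set.Iio 1)) (nhds w)) :
    ∃ τ : ℕ → ℂ, (∀ z ∈ Metric.ball (0 : ℂ) 1, T z = ev τ z) ∧ IsoM τ := by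
  obtain ⟨τ, hτ2, _, hτev⟩ := exists_coeff_of_bdd hT hT1
  exact ⟨τ, hτev, gcdA_extend (gcdA_fin hT1 hrad hτ2 hτev)⟩

end MP_9d6c91_an
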