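import Pool.Agent.Lib.MP_9d6c91_an.Defs

/-!
# JOB GEO : the map `ee`, the sets `E` and `EE E`, the distance `dE`

All elementary.  `‖ee w‖ = exp (-Im w)`, `|e^{is} - e^{it}| = 2 |sin ((s-t)/2)|`; for `Im w, Im w' ≥ 0` the
map `ee` is 1-Lipschitz (derivative of norm `≤ 1` on the closed upper half plane, convex).
`sin u ≥ (2/5) u` for `0 ≤ u ≤ 2` gives `norm_ee_sub_ge`.
-/

set_option autoImplicit false

open MeasureTheory Complex Filter Topology Set
open scoped ENNReal Real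

namespace MP_9d6c91_an

theorem norm_ee (w : ℂ) : ‖ee w‖ = Real.exp (-w.im) := by
  unfold ee
  rw [Complex.norm_exp]
  simp

theorem norm_ee_real (t : ℝ) : ‖ee (t : ℂ)‖ = 1 := by
  rw [norm_ee]
  simp

theorem ee_ne_zero (w : ℂ) : ee w ≠ 0 := Complex.exp_ne_zero _

theorem ee_add (w w' : ℂ) : ee (w + w') = ee w * ee w' := by
  unfold ee
  rw [mul_add, Complex.exp_add]

theorem ee_periodic (w : ℂ) : ee (w + 2 * π) = ee w := by
  unfold ee
  rw [mul_add, show I * (2 * (π : ℂ)) = 2 * π * I by ring]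
  exact Complex.exp_periodic _

theorem differentiable_ee : Differentiable ℂ ee := by
  unfold ee
  fun_prop

theorem ee_mem_ball {w : ℂ} (hw : 0 < w.im) : ee w ∈ Metric.ball (0 : ℂ) 1 := by
  rw [mem_ball_zero_iff, norm_ee, Real.exp_lt_one_iff]
  linarith

/-- polar coordinates -/
theorem exists_ee {z : ℂ} (hz : z ≠ 0) : ∃ w : ℂ, ee w = z ∧ -π < w.re ∧ w.re ≤ π ∧
    w.im = -Real.log ‖z‖ := by
  refine ⟨-I * Complex.log z, ?_, ?_, ?_, ?_⟩
  · unfold ee
    rw [show I * (-I * Complex.log z) = Complex.log z by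
      rw [← mul_assoc, mul_neg, I_mul_I, neg_neg, one_mul]]
    exact Complex.exp_log hz
  · have h1 : (-I * Complex.log z).re = Complex.arg z := by simp [Complex.log_im]
    rw [h1]
    exact Complex.neg_pi_lt_arg z
  · have h1 : (-I * Complex.log z).re = Complex.arg z := by simp [Complex.log_im]
    rw [h1]
    exact Complex.arg_le_pi z
  · simp [Complex.log_re]

theorem norm_ee_sub_le {w w' : ℂ} (hw : 0 ≤ w.im) (hw' : 0 ≤ w'.im) : ‖ee w - ee w'‖ ≤ ‖w - w'‖ := by
  have hd : ∀ x ∈ {w : ℂ | 0 ≤ w.im}, HasDerivWithinAt ee (ee x * I) {w : ℂ | 0 ≤ w.im} x := by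
    intro x _
    have h1 : HasDerivAt (fun w : ℂ => I * w) I x := by
      simpa using (hasDerivAt_id x).const_mul I
    exact h1.cexp.hasDerivWithinAt
  have hb : ∀ x ∈ {w : ℂ | 0 ≤ w.im}, ‖ee x * I‖ ≤ 1 := by
    intro x hx
    have hx' : 0 ≤ x.im := hx
    rw [norm_mul, norm_I, mul_one, norm_ee, Real.exp_le_one_iff]
    linarith
  have hc : Convex ℝ {w : ℂ | 0 ≤ w.im} := convex_halfSpace_im_ge 0
  have := hc.norm_image_sub_le_of_norm_hasDerivWithin_le hd hb (x := w') (y := w) hw' hw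
  simpa using this

theorem norm_ee_sub_real_le (s t : ℝ) : ‖ee (s : ℂ) - ee (t : ℂ)‖ ≤ |s - t| := by
  have := norm_ee_sub_le (w := (s : ℂ)) (w' := (t : ℂ)) (by simp) (by simp)
  rwa [← Complex.ofReal_sub, Complex.norm_real, Real.norm_eq_abs] at this

private theorem norm_ee_sub_eq (s t : ℝ) :
    ‖ee (s : ℂ) - ee (t : ℂ)‖ = 2 * |Real.sin ((s - t) / 2)| := by
  have h1 : ee (s : ℂ) - ee (t : ℂ) = ee (t : ℂ) * (Complex.exp (I * ((s - t : ℝ) : ℂ)) - 1) := by
    have : (s : ℂ) = t + ((s - t : ℝ) : ℂ) := by push_cast; ring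
    rw [mul_sub, mul_one, this, ee_add]
    rfl
  rw [h1, norm_mul, norm_ee_real, one_mul, Complex.norm_exp_I_mul_ofReal_sub_one,
    Real.norm_eq_abs, abs_mul]
  norm_num

private theorem sin_ge {v : ℝ} (h0 : 0 ≤ v) (h2 : v ≤ 2) : (2 / 5) * v ≤ Real.sin v := by
  have hpi := Real.pi_gt_three
  have hpi4 := Real.pi_lt_d2
  by_cases h : v ≤ π / 2
  · have h3 := Real.mul_le_sin h0 h
    have h4 : (2 / 5 : ℝ) * v ≤ 2 / π * v := by
      apply mul_le_mul_of_nonneg_right _ h0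
      rw [div_le_div_iff₀ (by norm_num) Real.pi_pos]
      linarith
    linarith
  · push Not at h
    have h3 : Real.sin v = Real.cos (v - π / 2) := by
      rw [Real.cos_sub_pi_div_two]
    rw [h3]
    have h4 := Real.one_sub_sq_div_two_le_cos (x := v - π / 2)
    have h5 : (v - π / 2) ^ 2 ≤ (1 / 2) ^ 2 := by
      apply pow_le_pow_left₀ (by linarith)
      linarith
    nlinarith

/-- the chord is comparable to the arc -/
theorem norm_ee_sub_ge {s t : ℝ} (h : |s - t| ≤ 4) : (2 / 5) * |s - t| ≤ ‖ee (s : ℂ) - ee (t : ℂ)‖ := by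
  rw [norm_ee_sub_eq]
  have h1 := sin_ge (v := |s - t| / 2) (by positivity) (by linarith)
  have h2 : Real.sin (|s - t| / 2) ≤ |Real.sin ((s - t) / 2)| := by
    rcases le_total 0 (s - t) with h0 | h0
    · rw [abs_of_nonneg h0]
      exact le_abs_self _
    · rw [abs_of_nonpos h0, neg_div, Real.sin_neg]
      exact neg_le_abs _
  linarith

private theorem per_int {E : Set ℝ} (hE : GE E) (x : ℝ) (n : ℤ) : x ∈ E ↔ x + n * (2 * π) ∈ E := by
  induction n using Int.induction_on with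
  | zero => simp
  | succ k ih =>
    rw [ih, hE.per (x + ((k : ℤ) : ℝ) * (2 * π))]
    have : x + ((k : ℤ) : ℝ) * (2 * π) + 2 * π = x + (((k : ℤ) + 1 : ℤ) : ℝ) * (2 * π) := by
      push_cast
      ring
    rw [this]
  | pred k ih =>
    rw [ih]
    have : x + ((-(k : ℤ) : ℤ) : ℝ) * (2 * π) = x + ((-(k : ℤ) - 1 : ℤ) : ℝ) * (2 * π) + 2 * π := by
      push_cast
      ring
    rw [this, ← hE.per]

private theorem ee_eq_ee {x y : ℝ} (h : ee (x : ℂ) = ee (y : ℂ)) : ∃ n : ℤ, x = y + n * (2 * π) := by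
  unfold ee at h
  rw [Complex.exp_eq_exp_iff_exists_int] at h
  obtain ⟨n, hn⟩ := h
  refine ⟨n, ?_⟩
  have h1 := congrArg Complex.im hn
  simpa using h1

theorem ee_mem_EE_iff {E : Set ℝ} (hE : GE E) (x : ℝ) : ee (x : ℂ) ∈ EE E ↔ x ∈ E := by
  constructor
  · rintro ⟨y, hy, hxy⟩
    obtain ⟨n, hn⟩ := ee_eq_ee hxy
    rw [per_int hE x n, ← hn]
    exact hy
  · intro h
    exact ⟨x, h, rfl⟩

theorem norm_of_mem_EE {E : Set ℝ} {z : ℂ} (hz : z ∈ EE E) : ‖z‖ = 1 := by
  obtain ⟨x, _, rfl⟩ := hz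
  exact norm_ee_real x

theorem isClosed_EE {E : Set ℝ} (hE : GE E) : IsClosed (EE E) := by
  have h1 : EE E = (fun x : ℝ => ee (x : ℂ)) '' (E ∩ Set.Icc 0 (2 * π)) := by
    apply Set.Subset.antisymm
    · rintro z ⟨x, hx, rfl⟩
      obtain ⟨n, hn, -⟩ := existsUnique_add_zsmul_mem_Ico Real.two_pi_pos x 0
      rw [zero_add, zsmul_eq_mul] at hn
      refine ⟨x + n * (2 * π), ⟨(per_int hE x n).1 hx, hn.1, hn.2.le⟩, ?_⟩
      show ee _ = ee _
      unfold ee
      rw [Complex.exp_eq_exp_iff_exists_int]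
      refine ⟨n, ?_⟩
      push_cast
      ring
    · exact Set.image_mono Set.inter_subset_left
  rw [h1]
  apply IsCompact.isClosed
  apply IsCompact.image
  · exact isCompact_Icc.inter_left hE.closed
  · exact differentiable_ee.continuous.comp Complex.continuous_ofReal

/-- `ee w` is not in `EE E` if `Im w ≠ 0` or `Re w ∉ E` -/
theorem ee_notMem_EE {E : Set ℝ} (hE : GE E) {w : ℂ} (h : w.im ≠ 0 ∨ w.re ∉ E) : ee w ∉ EE E := by
  intro hw
  have h1 := norm_of_mem_EE hw
  rw [norm_ee, Real.exp_eq_one_iff, neg_eq_zero] at h1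
  rcases h with h | h
  · exact h h1
  · apply h
    rw [← ee_mem_EE_iff hE]
    have : ((w.re : ℝ) : ℂ) = w := by
      apply Complex.ext
      · simp
      · simp [h1]
    rw [this]
    exact hw

variable {E : Set ℝ}

theorem dE_nonneg (E : Set ℝ) (t : ℝ) : 0 ≤ dE E t := Metric.infDist_nonneg

theorem dE_pos (hE : GE E) (hne : E.Nonempty) {t : ℝ} (ht : t ∉ E) : 0 < dE E t :=
  (hE.closed.notMem_iff_infDist_pos hne).1 ht

theorem dE_eq_zero (E : Set ℝ) {t : ℝ} (ht : t ∈ E) : dE E t = 0 := Metric.infDist_zero_of_mem ht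

theorem dE_lip (E : Set ℝ) (s t : ℝ) : |dE E s - dE E t| ≤ |s - t| := by
  have h := (Metric.lipschitz_infDist_pt E).dist_le_mul s t
  simpa [Real.dist_eq, dE] using h

theorem dE_le_pi (hE : GE E) (hne : E.Nonempty) (t : ℝ) : dE E t ≤ π := by
  obtain ⟨x, hx⟩ := hne
  obtain ⟨n, hn, -⟩ := existsUnique_add_zsmul_mem_Ico Real.two_pi_pos x (t - π)
  rw [zsmul_eq_mul] at hn
  have hmem := (per_int hE x n).1 hx
  refine (Metric.infDist_le_dist_of_mem hmem).trans ?_
  rw [Real.dist_eq, abs_le]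
  constructor
  · linarith [hn.2]
  · linarith [hn.1]

theorem dE_per (hE : GE E) (t : ℝ) : dE E (t + 2 * π) = dE E t := by
  rcases E.eq_empty_or_nonempty with rfl | hne
  · simp [dE]
  · apply le_antisymm
    · apply (Metric.le_infDist hne).2
      intro y hy
      have h1 := Metric.infDist_le_dist_of_mem (x := t + 2 * π) ((hE.per y).1 hy)
      refine h1.trans (le_of_eq ?_)
      rw [Real.dist_eq, Real.dist_eq]
      congr 1
      ring
    · apply (Metric.le_infDist hne).2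
      intro y hy
      have h0 : y - 2 * π ∈ E := (hE.per (y - 2 * π)).2 (by simpa using hy)
      have h1 := Metric.infDist_le_dist_of_mem (x := t) h0
      refine h1.trans (le_of_eq ?_)
      rw [Real.dist_eq, Real.dist_eq]
      congr 1
      ring

theorem exists_dE (hE : GE E) (hne : E.Nonempty) (t : ℝ) : ∃ x ∈ E, |t - x| = dE E t := by
  obtain ⟨x, hx, h⟩ := hE.closed.exists_infDist_eq_dist hne t
  refine ⟨x, hx, ?_⟩
  rw [← Real.dist_eq]
  exact h.symm

theorem notMem_of_lt_dE (hE : GE E) {s t : ℝ} (h : |s - t| < dE E t) : s ∉ E := by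
  have _ := hE
  intro hs
  have := Metric.infDist_le_dist_of_mem (x := t) hs
  rw [Real.dist_eq, abs_sub_comm] at this
  exact absurd this (not_le.2 h)

/-- `Φ ∘ ee` is differentiable in a neighbourhood of closed balls that avoid `E` -/
theorem differentiableOn_comp_ee {Φ : ℂ → ℂ} (hE : GE E) (hΦ : DifferentiableOn ℂ Φ (EE E)ᶜ) :
    DifferentiableOn ℂ (fun w => Φ (ee w)) {w : ℂ | w.im ≠ 0 ∨ w.re ∉ E} := by
  apply hΦ.comp differentiable_ee.differentiableOn
  intro w hw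
  exact ee_notMem_EE hE hw

theorem isOpen_good (hE : GE E) : IsOpen {w : ℂ | w.im ≠ 0 ∨ w.re ∉ E} := by
  have h1 : {w : ℂ | w.im ≠ 0 ∨ w.re ∉ E} = {w : ℂ | w.im ≠ 0} ∪ {w : ℂ | w.re ∉ E} := rfl
  rw [h1]
  apply IsOpen.union
  · exact (isOpen_compl_singleton (x := (0:ℝ))).preimage Complex.continuous_im
  · exact hE.closed.isOpen_compl.preimage Complex.continuous_re

end MP_9d6c91_an
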