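import Pool.Agent.Lib.MP_9d6c91_an.TruncA

/-!
# JOB TRUNCB : truncated power series near the circle

`β = α/(1+α)`, `(1+α)(1-β) = 1`, `(1+α) β = α`, `N = NN α δ y = ⌊(δ/(16 y))^(1+α)⌋`.
* `n ≤ N` : `n^(1-β) ≤ δ/(16 y)`, so `4 y n = 4 y n^(1-β) n^β ≤ (δ/4) n^β` : the terms of the truncation are
  `≤ A exp (-(3δ/4) n^β)` on `|Im w| ≤ 4 y` (`trunc_upper`).
* `n > N` : `n ≥ (δ/(16y))^(1+α)`, `n^β ≥ (δ/16)^α y^(-α)`, so `|g_n| ≤ A exp (-(δ/2) n^β) exp (-c y^(-α))` (`trunc_tail`).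
* `out_split` : `outF (act g c) z = ∑_m z^(-m-1) ∑_n g_n c_(n+m)`; for each `n`,
  `∑_m c_(n+m) z^(-m-1) = z^n outF c z - ∑_{l<n} c_l z^(n-1-l)`.  For `n ≤ N` the finite sum is
  `≤ |g_n| n C exp (ε n^β + y n) ≤ C n exp (-(δ/4) n^β)`; for `n > N` use `|c_(n+m)| ≤ C exp (ε n^β + ε m^β)` and
  `∑_m exp (ε m^β - y m) ≤ exp (κ + ε' y^(-α))` (as in `outF_bound`, `ε'` small compared to the `c` of the tail).
* `out_limit` : same computation with `act k b = 0`: `ev (tr N k) z * outF b z - ∑_{j<N} hh (tr N k) b j z^j =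
  ∑_m z^(-m-1) act (tr N k) b m = - ∑_m z^(-m-1) ∑_{n>N} k_n b_(n+m) → 0`, and
  `ev (tr N k) (ee w) → ev k (ee t)`, `∑_{j<N} hh (tr N k) b j (ee w)^j → ev (hh k b) (ee t)` as `w → t`
  (dominated convergence, terms `≤ C exp (-c n^β)` uniformly).
-/

set_option autoImplicit false

open MeasureTheory Complex Filter Topology Set
open scoped ENNReal Real

namespace MP_9d6c91_an

theorem truncB_nat_eq {α : ℝ} (hα : 0 < α) {x : ℝ} (hx : 0 < x) :
    x = x ^ (α / (1 + α)) * x ^ (1 / (1 + α)) := by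
  have h : α / (1 + α) + 1 / (1 + α) = 1 := by
    field_simp
    ring
  rw [← Real.rpow_add hx, h, Real.rpow_one]

theorem truncB_floor_le {α δ y : ℝ} (hα : 0 < α) (hδ : 0 < δ) (hy : 0 < y) {n : ℕ}
    (hn : n ≤ NN α δ y) : y * n ≤ (δ / 16) * (n : ℝ) ^ (α / (1 + α)) := by
  rcases Nat.eq_zero_or_pos n with rfl | hpos
  · simp only [Nat.cast_zero, mul_zero]
    positivity
  have hn0 : (0 : ℝ) < n := by exact_mod_cast hpos
  have h0 : 0 < δ / (16 * y) := by positivity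
  have h1 : (n : ℝ) ≤ (δ / (16 * y)) ^ (1 + α) := by
    rw [NN, Nat.le_floor_iff (by positivity)] at hn
    exact hn
  have h2 : (n : ℝ) ^ (1 / (1 + α)) ≤ δ / (16 * y) := by
    have h := Real.rpow_le_rpow hn0.le h1 (z := 1 / (1 + α)) (by positivity)
    rwa [← Real.rpow_mul h0.le, mul_one_div_cancel (by positivity), Real.rpow_one] at h
  calc y * n = y * ((n : ℝ) ^ (α / (1 + α)) * (n : ℝ) ^ (1 / (1 + α))) := by
        rw [← truncB_nat_eq hα hn0]
    _ ≤ y * ((n : ℝ) ^ (α / (1 + α)) * (δ / (16 * y))) := by gcongr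
    _ = (δ / 16) * (n : ℝ) ^ (α / (1 + α)) := by
        field_simp

theorem truncB_lt {α δ y : ℝ} (hα : 0 < α) (hδ : 0 < δ) (hy : 0 < y) {n : ℕ}
    (hn : NN α δ y < n) : (δ / 16) ^ α * y ^ (-α) ≤ (n : ℝ) ^ (α / (1 + α)) := by
  have h0 : 0 < δ / (16 * y) := by positivity
  have h1 : (δ / (16 * y)) ^ (1 + α) < n := Nat.lt_of_floor_lt hn
  have h2 := Real.rpow_le_rpow (by positivity) h1.le (z := α / (1 + α)) (by positivity)
  rw [← Real.rpow_mul h0.le, mul_div_cancel₀ _ (by positivity)] at h2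
  refine le_trans (le_of_eq ?_) h2
  rw [Real.rpow_neg hy.le, ← div_eq_mul_inv, ← Real.div_rpow (by positivity) hy.le]
  congr 1
  field_simp

theorem truncB_young {α ε y : ℝ} (hα : 0 < α) (hε : 0 < ε) (hy : 0 < y) (m : ℕ) :
    ε * (m : ℝ) ^ (α / (1 + α)) ≤ y * m / 2 + 2 ^ α * ε ^ (1 + α) * y ^ (-α) := by
  by_cases h : ε * (m : ℝ) ^ (α / (1 + α)) ≤ y * m / 2
  · have : 0 ≤ 2 ^ α * ε ^ (1 + α) * y ^ (-α) := by positivity
    linarith
  push Not at h
  rcases Nat.eq_zero_or_pos m with rfl | hpos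
  · rw [Nat.cast_zero, Real.zero_rpow (by positivity)] at h
    simp at h
  have hm0 : (0 : ℝ) < m := by exact_mod_cast hpos
  have h1 : (m : ℝ) ^ (1 / (1 + α)) ≤ 2 * ε / y := by
    rw [le_div_iff₀ hy]
    have h2 : y * ((m : ℝ) ^ (α / (1 + α)) * (m : ℝ) ^ (1 / (1 + α))) / 2 <
        ε * (m : ℝ) ^ (α / (1 + α)) := by
      rwa [← truncB_nat_eq hα hm0]
    have h3 : 0 < (m : ℝ) ^ (α / (1 + α)) := by positivity
    by_contra hc
    push Not at hc
    have h4 : ε * (m : ℝ) ^ (α / (1 + α)) <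
        y * ((m : ℝ) ^ (α / (1 + α)) * (m : ℝ) ^ (1 / (1 + α))) / 2 := by
      have := mul_lt_mul_of_pos_right hc h3
      linarith
    exact lt_asymm h2 h4
  have h2 : (m : ℝ) ^ (α / (1 + α)) ≤ (2 * ε / y) ^ α := by
    have h := Real.rpow_le_rpow (by positivity) h1 hα.le
    rwa [← Real.rpow_mul hm0.le, one_div_mul_eq_div] at h
  have h3 : ε * (2 * ε / y) ^ α = 2 ^ α * ε ^ (1 + α) * y ^ (-α) := by
    rw [Real.div_rpow (by positivity) hy.le, Real.mul_rpow (by norm_num) hε.le,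
      Real.rpow_add hε, Real.rpow_one, Real.rpow_neg hy.le]
    ring
  calc ε * (m : ℝ) ^ (α / (1 + α)) ≤ ε * (2 * ε / y) ^ α := by gcongr
    _ = 2 ^ α * ε ^ (1 + α) * y ^ (-α) := h3
    _ ≤ _ := by
      have : 0 ≤ y * m / 2 := by positivity
      linarith

theorem truncB_term {α ε y : ℝ} (hα : 0 < α) (hε : 0 < ε) (hy : 0 < y) (m : ℕ) :
    Real.exp (ε * (m : ℝ) ^ (α / (1 + α)) - y * ((m : ℝ) + 1)) ≤
      Real.exp (2 ^ α * ε ^ (1 + α) * y ^ (-α)) * Real.exp (-(y / 2)) ^ m := by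
  rw [← Real.exp_nat_mul, ← Real.exp_add, Real.exp_le_exp]
  have := truncB_young hα hε hy m
  nlinarith

theorem truncB_geom {y : ℝ} (hy : 0 < y) (hy1 : y ≤ 1) :
    Summable (fun m : ℕ => Real.exp (-(y / 2)) ^ m) ∧
      ∑' m : ℕ, Real.exp (-(y / 2)) ^ m ≤ 4 / y := by
  have h0 : 0 ≤ Real.exp (-(y / 2)) := (Real.exp_pos _).le
  have h1 : Real.exp (-(y / 2)) < 1 := by
    rw [Real.exp_lt_one_iff]
    linarith
  refine ⟨summable_geometric_of_lt_one h0 h1, ?_⟩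
  rw [tsum_geometric_of_lt_one h0 h1, inv_eq_one_div, div_le_div_iff₀ (by linarith) hy]
  have h2 : 1 - y / 2 ≤ Real.exp (-(y / 2)) := by
    have := Real.add_one_le_exp (-(y / 2))
    linarith
  have h3 : y / 2 + 1 ≤ Real.exp (y / 2) := Real.add_one_le_exp (y / 2)
  have h4 : Real.exp (-(y / 2)) * Real.exp (y / 2) = 1 := by
    rw [← Real.exp_add]
    simp
  have h5 : Real.exp (-(y / 2)) * (y / 2 + 1) ≤ 1 :=
    le_trans (mul_le_mul_of_nonneg_left h3 h0) h4.le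
  nlinarith

theorem truncB_summable {α ε y : ℝ} (hα : 0 < α) (hε : 0 < ε) (hy : 0 < y) (hy1 : y ≤ 1) :
    Summable (fun m : ℕ => Real.exp (ε * (m : ℝ) ^ (α / (1 + α)) - y * ((m : ℝ) + 1))) :=
  Summable.of_nonneg_of_le (fun _ => (Real.exp_pos _).le) (fun m => truncB_term hα hε hy m)
    ((truncB_geom hy hy1).1.mul_left _)

theorem truncB_tsum_le {α ε y : ℝ} (hα : 0 < α) (hε : 0 < ε) (hy : 0 < y) (hy1 : y ≤ 1) :
    ∑' m : ℕ, Real.exp (ε * (m : ℝ) ^ (α / (1 + α)) - y * ((m : ℝ) + 1)) ≤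
      Real.exp (2 ^ α * ε ^ (1 + α) * y ^ (-α)) * (4 / y) := by
  refine le_trans ((truncB_summable hα hε hy hy1).tsum_le_tsum
    (fun m => truncB_term hα hε hy m) ((truncB_geom hy hy1).1.mul_left _)) ?_
  rw [tsum_mul_left]
  gcongr
  exact (truncB_geom hy hy1).2

/-- `1 / y` is bounded by an exponential of `y ^ (-α)` -/
theorem truncB_inv {α c : ℝ} (hα : 0 < α) (hc : 0 < c) :
    ∃ K : ℝ, 0 < K ∧ ∀ y : ℝ, 0 < y → y ≤ 1 → 1 / y ≤ K * Real.exp (c * y ^ (-α)) := by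
  obtain ⟨k, hk⟩ := exists_nat_ge (1 / α)
  refine ⟨(k.factorial : ℝ) / c ^ k, by positivity, ?_⟩
  intro y hy hy1
  have h1 : 1 ≤ y ^ (-α) := Real.one_le_rpow_of_pos_of_le_one_of_nonpos hy hy1 (by linarith)
  have h2 : 1 / y = (y ^ (-α)) ^ (1 / α) := by
    rw [← Real.rpow_mul hy.le, neg_mul, mul_one_div_cancel hα.ne', Real.rpow_neg_one, one_div]
  have h3 : (y ^ (-α)) ^ (1 / α) ≤ (y ^ (-α)) ^ k := by
    rw [← Real.rpow_natCast]
    exact Real.rpow_le_rpow_of_exponent_le h1 hk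
  have h4 := Real.pow_div_factorial_le_exp (c * y ^ (-α)) (by positivity) k
  rw [h2]
  refine le_trans h3 ?_
  calc (y ^ (-α)) ^ k = (k.factorial : ℝ) / c ^ k * ((c * y ^ (-α)) ^ k / (k.factorial : ℝ)) := by
        rw [mul_pow]
        field_simp
    _ ≤ _ := by gcongr

theorem out_split {α A δ : ℝ} (hα : 0 < α) (hδ : 0 < δ) {g c : ℕ → ℂ} (hg : GvC (α / (1 + α)) A δ g)
    (hc : Gd (α / (1 + α)) c) :
    ∃ C : ℝ, 0 ≤ C ∧ ∀ y : ℝ, 0 < y → y ≤ 1 → ∀ w : ℂ, w.im = -y →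
      ‖outF (act g c) (ee w) - ev (tr (NN α δ y) g) (ee w) * outF c (ee w)‖ ≤ C := by
  set β : ℝ := α / (1 + α) with hβd
  have hβ : 0 < β := by positivity
  have hβ1 : β ≤ 1 := by
    rw [hβd, div_le_one (by positivity)]
    linarith
  have hA : 0 ≤ A := by
    have h := hg 0
    rw [Nat.cast_zero, Real.zero_rpow hβ.ne', mul_zero, Real.exp_zero, mul_one] at h
    exact le_trans (norm_nonneg _) h
  set c₁ : ℝ := δ / 4 * (δ / 16) ^ α with hc₁
  have hc₁0 : 0 < c₁ := by positivity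
  -- the choice of `ε`
  obtain ⟨ε, hε, hεδ, hεc⟩ : ∃ ε : ℝ, 0 < ε ∧ ε ≤ δ / 4 ∧ 2 ^ α * ε ^ (1 + α) ≤ c₁ / 2 := by
    have ht : Tendsto (fun ε : ℝ => 2 ^ α * ε ^ (1 + α)) (𝓝[>] 0) (𝓝 (2 ^ α * 0 ^ (1 + α))) := by
      refine Tendsto.mono_left ?_ nhdsWithin_le_nhds
      exact ((Real.continuousAt_rpow_const 0 (1 + α) (Or.inr (by linarith))).tendsto.const_mul _)
    rw [Real.zero_rpow (by positivity), mul_zero] at ht
    have h1 := ht.eventually (ge_mem_nhds (show (0 : ℝ) < c₁ / 2 by positivity))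
    have h2 : ∀ᶠ ε : ℝ in 𝓝[>] 0, 0 < ε := self_mem_nhdsWithin
    have h3 : ∀ᶠ ε : ℝ in 𝓝[>] 0, ε ≤ δ / 4 :=
      nhdsWithin_le_nhds (ge_mem_nhds (show (0 : ℝ) < δ / 4 by positivity))
    obtain ⟨ε, h4, h5, h6⟩ := (h2.and (h3.and h1)).exists
    exact ⟨ε, h4, h5, h6⟩
  obtain ⟨B, hB⟩ := hc ε hε
  have hB0 : 0 ≤ B := by
    have h := hB 0
    rw [Nat.cast_zero, Real.zero_rpow hβ.ne', mul_zero, Real.exp_zero, mul_one] at h
    exact le_trans (norm_nonneg _) h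
  obtain ⟨K, hK, hKy⟩ := truncB_inv hα (show (0 : ℝ) < c₁ / 2 by positivity)
  have hsub : ∀ n m : ℕ, (((n + m : ℕ) : ℝ)) ^ β ≤ (n : ℝ) ^ β + (m : ℝ) ^ β := by
    intro n m
    rw [Nat.cast_add]
    exact Real.rpow_add_le_add_rpow (Nat.cast_nonneg n) (Nat.cast_nonneg m) hβ.le hβ1
  have hmono : ∀ l n : ℕ, l ≤ n → (l : ℝ) ^ β ≤ (n : ℝ) ^ β := by
    intro l n hln
    exact Real.rpow_le_rpow (Nat.cast_nonneg l) (by exact_mod_cast hln) hβ.le
  -- the majorant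
  have hS : Summable (fun n : ℕ => (A * B * (1 + 4 * K)) *
      (((n : ℝ) + 1) ^ 1 * Real.exp (-(δ / 2) * (n : ℝ) ^ β))) :=
    (summable_pow_exp_neg hβ (by positivity : (0 : ℝ) < δ / 2) 1).mul_left _
  refine ⟨∑' n : ℕ, (A * B * (1 + 4 * K)) *
      (((n : ℝ) + 1) ^ 1 * Real.exp (-(δ / 2) * (n : ℝ) ^ β)),
      tsum_nonneg fun n => by positivity, ?_⟩
  intro y hy hy1 w hw
  set z : ℂ := ee w with hz
  have hnz : ‖z‖ = Real.exp y := by
    rw [hz, norm_ee, hw, neg_neg]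
  have hz0 : z ≠ 0 := ee_ne_zero w
  have hz1 : 1 < ‖z‖ := by
    rw [hnz]
    exact Real.one_lt_exp_iff.mpr hy
  have hnzi : ‖z⁻¹‖ = Real.exp (-y) := by
    rw [norm_inv, hnz, Real.exp_neg]
  set N := NN α δ y with hN
  -- the terms of the double series
  set F : ℕ → ℕ → ℂ := fun n m => g n * c (n + m) * (z⁻¹) ^ (m + 1) with hF
  have hcnm : ∀ n m : ℕ, ‖c (n + m)‖ ≤ B * Real.exp (ε * (n : ℝ) ^ β) * Real.exp (ε * (m : ℝ) ^ β) := by
    intro n m
    refine le_trans (hB (n + m)) ?_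
    rw [mul_assoc, ← Real.exp_add]
    gcongr
    have := mul_le_mul_of_nonneg_left (hsub n m) hε.le
    linarith
  have hzi : ∀ m : ℕ, ‖(z⁻¹) ^ (m + 1)‖ = Real.exp (-(y * ((m : ℝ) + 1))) := by
    intro m
    rw [norm_pow, hnzi, ← Real.exp_nat_mul]
    congr 1
    push_cast
    ring
  have hFle : ∀ n m : ℕ, ‖F n m‖ ≤ (A * B * Real.exp (-(δ - ε) * (n : ℝ) ^ β)) *
      Real.exp (ε * (m : ℝ) ^ β - y * ((m : ℝ) + 1)) := by
    intro n m
    rw [hF]
    simp only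
    rw [norm_mul, norm_mul, hzi]
    calc ‖g n‖ * ‖c (n + m)‖ * Real.exp (-(y * ((m : ℝ) + 1)))
        ≤ (A * Real.exp (-δ * (n : ℝ) ^ β)) *
          (B * Real.exp (ε * (n : ℝ) ^ β) * Real.exp (ε * (m : ℝ) ^ β)) *
          Real.exp (-(y * ((m : ℝ) + 1))) := by
          gcongr
          · exact hg n
          · exact hcnm n m
      _ = (A * B * (Real.exp (-δ * (n : ℝ) ^ β) * Real.exp (ε * (n : ℝ) ^ β))) *
          (Real.exp (ε * (m : ℝ) ^ β) * Real.exp (-(y * ((m : ℝ) + 1)))) := by ring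
      _ = _ := by
          rw [← Real.exp_add, ← Real.exp_add]
          congr 3
          ring
  have hsum_n : Summable (fun n : ℕ => A * B * Real.exp (-(δ - ε) * (n : ℝ) ^ β)) :=
    (summable_exp_neg hβ (by linarith : (0 : ℝ) < δ - ε)).mul_left _
  have hsum_m := truncB_summable hα hε hy hy1
  have hFsum : Summable (Function.uncurry F) := by
    refine Summable.of_norm_bounded (g := fun p : ℕ × ℕ =>
      (A * B * Real.exp (-(δ - ε) * (p.1 : ℝ) ^ β)) *
      Real.exp (ε * (p.2 : ℝ) ^ β - y * ((p.2 : ℝ) + 1))) ?_ ?_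
    · exact hsum_n.mul_of_nonneg hsum_m (fun n => by positivity) (fun m => (Real.exp_pos _).le)
    · rintro ⟨n, m⟩
      exact hFle n m
  -- first expression
  have h1 : outF (act g c) z = ∑' n, ∑' m, F n m := by
    rw [outF, ← hFsum.tsum_comm]
    refine tsum_congr fun m => ?_
    rw [act, ← tsum_mul_right]
  have hFn : ∀ n, Summable (F n) := fun n => hFsum.prod_factor n
  have hsumn : Summable (fun n => ∑' m, F n m) := hFsum.prod
  have houtc := summable_outF hα hc hz1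
  have houtc' : Summable (fun l => c l * (z⁻¹) ^ (l + 1)) := houtc.of_norm
  have h2 : ev (tr N g) z * outF c z = ∑' n, tr N g n * z ^ n * outF c z := by
    rw [ev, tsum_mul_right]
  have hfin : Summable (fun n => tr N g n * z ^ n * outF c z) := by
    refine summable_of_ne_finset_zero (s := Finset.range (N + 1)) ?_
    intro n hn
    rw [Finset.mem_range] at hn
    rw [tr, if_neg (by omega)]
    ring
  rw [h1, h2, ← hsumn.tsum_sub hfin]
  refine tsum_of_norm_bounded hS.hasSum ?_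
  intro n
  rcases le_or_gt n N with hn | hn
  · -- `n ≤ N`
    rw [tr, if_pos hn]
    have h3 : ∑' m, F n m - g n * z ^ n * outF c z =
        -(g n * ∑ l ∈ Finset.range n, c l * z ^ (n - 1 - l)) := by
      have h4 : outF c z = ∑ l ∈ Finset.range n, c l * (z⁻¹) ^ (l + 1) +
          ∑' m, c (m + n) * (z⁻¹) ^ (m + n + 1) := by
        rw [outF, houtc'.sum_add_tsum_nat_add n]
      have h5 : ∑' m, F n m = g n * z ^ n * ∑' m, c (m + n) * (z⁻¹) ^ (m + n + 1) := by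
        rw [← tsum_mul_left]
        refine tsum_congr fun m => ?_
        rw [hF]
        simp only
        have e1 : (z⁻¹) ^ (m + n + 1) = (z⁻¹) ^ n * (z⁻¹) ^ (m + 1) := by
          rw [← pow_add]
          congr 1
          ring
        have e2 : z ^ n * (z⁻¹) ^ n = 1 := by
          rw [← mul_pow, mul_inv_cancel₀ hz0, one_pow]
        rw [add_comm n m, e1]
        linear_combination (-(g n * c (m + n) * (z⁻¹) ^ (m + 1))) * e2
      have h6 : z ^ n * ∑ l ∈ Finset.range n, c l * (z⁻¹) ^ (l + 1) =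
          ∑ l ∈ Finset.range n, c l * z ^ (n - 1 - l) := by
        rw [Finset.mul_sum]
        refine Finset.sum_congr rfl fun l hl => ?_
        rw [Finset.mem_range] at hl
        have h7 : z ^ n = z ^ (n - 1 - l) * z ^ (l + 1) := by
          rw [← pow_add]
          congr 1
          omega
        rw [h7, inv_pow]
        field_simp
      rw [h5, h4, ← h6]
      ring
    rw [h3, norm_neg, norm_mul]
    have h8 : ‖∑ l ∈ Finset.range n, c l * z ^ (n - 1 - l)‖ ≤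
        n * (B * Real.exp (ε * (n : ℝ) ^ β) * Real.exp (y * n)) := by
      refine le_trans (norm_sum_le _ _) ?_
      refine le_trans (Finset.sum_le_card_nsmul _ _
        (B * Real.exp (ε * (n : ℝ) ^ β) * Real.exp (y * n)) ?_) ?_
      · intro l hl
        rw [Finset.mem_range] at hl
        rw [norm_mul, norm_pow, hnz, ← Real.exp_nat_mul]
        have h9 : ‖c l‖ ≤ B * Real.exp (ε * (n : ℝ) ^ β) := by
          refine le_trans (hB l) ?_
          gcongr
        have h10 : ((n - 1 - l : ℕ) : ℝ) * y ≤ y * n := by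
          have : ((n - 1 - l : ℕ) : ℝ) ≤ n := by
            exact_mod_cast (by omega : n - 1 - l ≤ n)
          nlinarith
        gcongr
      · rw [Finset.card_range, nsmul_eq_mul]
    have h11 := truncB_floor_le hα hδ hy hn
    rw [← hβd] at h11
    have hnβ : (0 : ℝ) ≤ (n : ℝ) ^ β := by positivity
    calc ‖g n‖ * ‖∑ l ∈ Finset.range n, c l * z ^ (n - 1 - l)‖
        ≤ (A * Real.exp (-δ * (n : ℝ) ^ β)) *
          (n * (B * Real.exp (ε * (n : ℝ) ^ β) * Real.exp (y * n))) := by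
          gcongr
          exact hg n
      _ = A * B * (n * (Real.exp (-δ * (n : ℝ) ^ β) * Real.exp (ε * (n : ℝ) ^ β) *
          Real.exp (y * n))) := by ring
      _ = A * B * (n * Real.exp (-δ * (n : ℝ) ^ β + ε * (n : ℝ) ^ β + y * n)) := by
          rw [Real.exp_add, Real.exp_add]
      _ ≤ A * B * (((n : ℝ) + 1) * Real.exp (-(δ / 2) * (n : ℝ) ^ β)) := by
          gcongr
          · linarith
          · nlinarith
      _ ≤ (A * B * (1 + 4 * K)) * (((n : ℝ) + 1) ^ 1 * Real.exp (-(δ / 2) * (n : ℝ) ^ β)) := by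
          rw [pow_one]
          have : 0 ≤ A * B * (((n : ℝ) + 1) * Real.exp (-(δ / 2) * (n : ℝ) ^ β)) := by positivity
          nlinarith [mul_nonneg hK.le this]
  · -- `N < n`
    rw [tr, if_neg (by omega), zero_mul, zero_mul, sub_zero]
    have h3 : ‖∑' m, F n m‖ ≤ (A * B * Real.exp (-(δ - ε) * (n : ℝ) ^ β)) *
        ∑' m : ℕ, Real.exp (ε * (m : ℝ) ^ β - y * ((m : ℝ) + 1)) := by
      rw [← tsum_mul_left]
      exact tsum_of_norm_bounded (hsum_m.mul_left _).hasSum (hFle n)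
    have h4 := truncB_lt hα hδ hy hn
    rw [← hβd] at h4
    have hnβ : (0 : ℝ) ≤ (n : ℝ) ^ β := by positivity
    have hyα : 0 < y ^ (-α) := by positivity
    have h5 : ∑' m : ℕ, Real.exp (ε * (m : ℝ) ^ β - y * ((m : ℝ) + 1)) ≤
        Real.exp (c₁ / 2 * y ^ (-α)) * (4 * (K * Real.exp (c₁ / 2 * y ^ (-α)))) := by
      refine le_trans (truncB_tsum_le hα hε hy hy1) ?_
      have h6 := hKy y hy hy1
      have h7 : 4 / y = 4 * (1 / y) := by ring
      rw [h7]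
      gcongr
    have h6 : Real.exp (-(δ - ε) * (n : ℝ) ^ β) ≤
        Real.exp (-(δ / 2) * (n : ℝ) ^ β) * Real.exp (-(c₁ * y ^ (-α))) := by
      rw [← Real.exp_add, Real.exp_le_exp]
      have h7 : c₁ * y ^ (-α) ≤ δ / 4 * (n : ℝ) ^ β := by
        rw [hc₁, mul_assoc]
        gcongr
      nlinarith
    refine le_trans h3 ?_
    calc (A * B * Real.exp (-(δ - ε) * (n : ℝ) ^ β)) *
        ∑' m : ℕ, Real.exp (ε * (m : ℝ) ^ β - y * ((m : ℝ) + 1))
        ≤ (A * B * (Real.exp (-(δ / 2) * (n : ℝ) ^ β) * Real.exp (-(c₁ * y ^ (-α))))) *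
          (Real.exp (c₁ / 2 * y ^ (-α)) * (4 * (K * Real.exp (c₁ / 2 * y ^ (-α))))) := by
          gcongr
      _ = A * B * (4 * K) * Real.exp (-(δ / 2) * (n : ℝ) ^ β) *
          (Real.exp (-(c₁ * y ^ (-α))) * Real.exp (c₁ / 2 * y ^ (-α)) *
            Real.exp (c₁ / 2 * y ^ (-α))) := by ring
      _ = A * B * (4 * K) * Real.exp (-(δ / 2) * (n : ℝ) ^ β) := by
          rw [← Real.exp_add, ← Real.exp_add]
          have : -(c₁ * y ^ (-α)) + c₁ / 2 * y ^ (-α) + c₁ / 2 * y ^ (-α) = 0 := by ring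
          rw [this, Real.exp_zero, mul_one]
      _ ≤ (A * B * (1 + 4 * K)) * (((n : ℝ) + 1) ^ 1 * Real.exp (-(δ / 2) * (n : ℝ) ^ β)) := by
          rw [pow_one]
          have e0 : 0 ≤ Real.exp (-(δ / 2) * (n : ℝ) ^ β) := (Real.exp_pos _).le
          have e1 : 0 ≤ A * B := by positivity
          have e2 : A * B * (4 * K) ≤ A * B * (1 + 4 * K) :=
            mul_le_mul_of_nonneg_left (by linarith) e1
          have e3 : Real.exp (-(δ / 2) * (n : ℝ) ^ β) ≤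
              ((n : ℝ) + 1) * Real.exp (-(δ / 2) * (n : ℝ) ^ β) :=
            le_mul_of_one_le_left e0 (by linarith [(Nat.cast_nonneg n : (0 : ℝ) ≤ n)])
          exact mul_le_mul e2 e3 e0 (mul_nonneg e1 (by linarith))

end MP_9d6c91_an
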