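import Pool.Agent.Lib.MP_9d6c91_an.TruncA

/-!
# JOB TRUNCC : truncated power series near the circle

`β = α/(1+α)`, `(1+α)(1-β) = 1`, `(1+α) β = α`, `N = NN α δ y = ⌊(δ/(16 y))^(1+α)⌋`.
`out_limit` : `z^n outF b z = ∑_{l<n} b_l z^(n-1-l) + ∑_m b_(n+m) z^(-m-1)`.  Multiply by `k_n` and sum over `n ≤ N`:
the first part converges to `ev (hh k b)`, the second part is
`- ∑_m z^(-m-1) ∑_{n>N} k_n b_(n+m)` because `act k b = 0`, and it tends to zero.
-/

set_option autoImplicit false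

open MeasureTheory Complex Filter Topology Set
open scoped ENNReal Real

namespace MP_9d6c91_an

private theorem truncC_beta {α : ℝ} (hα : 0 < α) : 0 < α / (1 + α) ∧ α / (1 + α) ≤ 1 := by
  constructor
  · positivity
  · rw [div_le_one (by positivity)]; linarith

/-- the polynomial part -/
private noncomputable def tcP (b : ℕ → ℂ) (n : ℕ) (z : ℂ) : ℂ :=
  ∑ l ∈ Finset.range n, b l * z ^ (n - 1 - l)

/-- the remainder -/
private noncomputable def tcR (b : ℕ → ℂ) (n : ℕ) (z : ℂ) : ℂ := ∑' m, b (n + m) * (z⁻¹) ^ (m + 1)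

private theorem tc_split {b : ℕ → ℂ} {z : ℂ} (hz : z ≠ 0)
    (hb : Summable fun n => b n * (z⁻¹) ^ (n + 1)) (n : ℕ) :
    z ^ n * outF b z = tcP b n z + tcR b n z := by
  unfold outF tcP tcR
  rw [← hb.sum_add_tsum_nat_add n, mul_add, Finset.mul_sum, ← tsum_mul_left]
  congr 1
  · apply Finset.sum_congr rfl
    intro l hl
    rw [Finset.mem_range] at hl
    have h1 : z ^ n = z ^ (n - 1 - l) * z ^ (l + 1) := by
      rw [← pow_add]; congr 1; omega
    rw [h1, inv_pow]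
    have h2 : z ^ (l + 1) ≠ 0 := pow_ne_zero _ hz
    field_simp
  · apply tsum_congr
    intro m
    rw [Nat.add_comm n m]
    have h1 : z ^ (m + n + 1) = z ^ n * z ^ (m + 1) := by
      rw [← pow_add]; congr 1; omega
    rw [inv_pow, inv_pow, h1]
    have h2 : z ^ (m + 1) ≠ 0 := pow_ne_zero _ hz
    have h3 : z ^ n ≠ 0 := pow_ne_zero _ hz
    field_simp

private theorem tc_summable_shift {b : ℕ → ℂ} {z : ℂ} (hz : z ≠ 0)
    (hb : Summable fun n => b n * (z⁻¹) ^ (n + 1)) (n : ℕ) :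
    Summable fun m => b (n + m) * (z⁻¹) ^ (m + 1) := by
  have h1 := ((summable_nat_add_iff n).2 hb).mul_left (z ^ n)
  refine h1.congr (fun m => ?_)
  rw [Nat.add_comm n m]
  have h1 : z ^ (m + n + 1) = z ^ n * z ^ (m + 1) := by
    rw [← pow_add]; congr 1; omega
  rw [inv_pow, inv_pow, h1]
  have h2 : z ^ (m + 1) ≠ 0 := pow_ne_zero _ hz
  have h3 : z ^ n ≠ 0 := pow_ne_zero _ hz
  field_simp

/-- `ev` of a truncation is a finite sum -/
private theorem tc_ev_tr (N : ℕ) (k : ℕ → ℂ) (z : ℂ) :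
    ev (tr N k) z = ∑ n ∈ Finset.range (N + 1), k n * z ^ n := by
  unfold ev tr
  rw [tsum_eq_sum (s := Finset.range (N + 1))]
  · apply Finset.sum_congr rfl
    intro n hn
    rw [Finset.mem_range] at hn
    rw [if_pos (by omega)]
  · intro n hn
    rw [Finset.mem_range] at hn
    rw [if_neg (by omega), zero_mul]

private theorem tc_main {b k : ℕ → ℂ} {z : ℂ} (hz : z ≠ 0)
    (hb : Summable fun n => b n * (z⁻¹) ^ (n + 1)) (N : ℕ) :
    (∑ n ∈ Finset.range (N + 1), k n * z ^ n) * outF b z =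
      (∑ n ∈ Finset.range (N + 1), k n * tcP b n z) +
        ∑' m, (∑ n ∈ Finset.range (N + 1), k n * b (n + m)) * (z⁻¹) ^ (m + 1) := by
  have h1 : ∑' m, (∑ n ∈ Finset.range (N + 1), k n * b (n + m)) * (z⁻¹) ^ (m + 1) =
      ∑ n ∈ Finset.range (N + 1), k n * tcR b n z := by
    have h2 : ∀ n ∈ Finset.range (N + 1), Summable fun m => k n * (b (n + m) * (z⁻¹) ^ (m + 1)) :=
      fun n _ => (tc_summable_shift hz hb n).mul_left (k n)
    have h3 := Summable.tsum_finsetSum h2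
    have h4 : ∀ n, ∑' m, k n * (b (n + m) * (z⁻¹) ^ (m + 1)) = k n * tcR b n z := by
      intro n
      rw [tcR, tsum_mul_left]
    simp only [h4] at h3
    rw [← h3]
    apply tsum_congr
    intro m
    rw [Finset.sum_mul]
    apply Finset.sum_congr rfl
    intro n _
    ring
  rw [h1, Finset.sum_mul, ← Finset.sum_add_distrib]
  apply Finset.sum_congr rfl
  intro n _
  rw [mul_assoc, tc_split hz hb n, mul_add]


private theorem tc_le {α δ y : ℝ} (hα : 0 < α) (hδ : 0 < δ) (hy : 0 < y) {n : ℕ}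
    (hn : n ≤ NN α δ y) : y * n ≤ δ / 16 * (n : ℝ) ^ (α / (1 + α)) := by
  rcases Nat.eq_zero_or_pos n with h0 | h0
  · subst h0
    simp only [Nat.cast_zero, mul_zero]
    have : (0 : ℝ) ≤ (0 : ℝ) ^ (α / (1 + α)) := Real.rpow_nonneg le_rfl _
    positivity
  · have hn0 : (0 : ℝ) < n := by exact_mod_cast h0
    have hq : 0 < δ / (16 * y) := by positivity
    have h1 : (n : ℝ) ≤ (δ / (16 * y)) ^ (1 + α) :=
      (Nat.cast_le.2 hn).trans (Nat.floor_le (Real.rpow_nonneg hq.le _))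
    have h2 : (n : ℝ) ^ (1 / (1 + α)) ≤ δ / (16 * y) := by
      have h3 := Real.rpow_le_rpow hn0.le h1 (by positivity : 0 ≤ 1 / (1 + α))
      rwa [← Real.rpow_mul hq.le, mul_one_div_cancel (by positivity), Real.rpow_one] at h3
    have h4 : (n : ℝ) = (n : ℝ) ^ (1 / (1 + α)) * (n : ℝ) ^ (α / (1 + α)) := by
      rw [← Real.rpow_add hn0, ← add_div, div_self (by positivity), Real.rpow_one]
    have h5 : (0 : ℝ) ≤ (n : ℝ) ^ (α / (1 + α)) := Real.rpow_nonneg hn0.le _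
    calc y * (n : ℝ) = y * (n : ℝ) ^ (1 / (1 + α)) * (n : ℝ) ^ (α / (1 + α)) := by
          rw [mul_assoc, ← h4]
      _ ≤ y * (δ / (16 * y)) * (n : ℝ) ^ (α / (1 + α)) := by gcongr
      _ = δ / 16 * (n : ℝ) ^ (α / (1 + α)) := by field_simp

private theorem tc_gt {α δ y : ℝ} (hα : 0 < α) (hδ : 0 < δ) (hy : 0 < y) {n : ℕ}
    (hn : NN α δ y < n) : (δ / 16) ^ α * y ^ (-α) ≤ (n : ℝ) ^ (α / (1 + α)) := by
  have hq : 0 < δ / (16 * y) := by positivity
  have h1 : (δ / (16 * y)) ^ (1 + α) < n := (Nat.floor_lt (Real.rpow_nonneg hq.le _)).1 hn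
  have h3 := Real.rpow_le_rpow (Real.rpow_nonneg hq.le _) h1.le
    (by positivity : 0 ≤ α / (1 + α))
  rw [← Real.rpow_mul hq.le, mul_div_cancel₀ _ (by positivity : (1 + α) ≠ 0)] at h3
  refine le_trans (le_of_eq ?_) h3
  rw [Real.rpow_neg hy.le, ← div_eq_mul_inv, ← Real.div_rpow (by positivity) hy.le, div_div]

private theorem tc_NN_atTop {α δ : ℝ} (hα : 0 < α) (hδ : 0 < δ) (t : ℝ) :
    Tendsto (fun w : ℂ => NN α δ (-w.im)) (𝓝[{w : ℂ | w.im < 0}] (t : ℂ)) atTop := by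
  have h1 : Tendsto (fun w : ℂ => -w.im) (𝓝[{w : ℂ | w.im < 0}] (t : ℂ)) (𝓝[>] 0) := by
    apply tendsto_nhdsWithin_iff.2
    constructor
    · have : Tendsto (fun w : ℂ => -w.im) (𝓝 (t : ℂ)) (𝓝 (-(t : ℂ).im)) :=
        (Complex.continuous_im.neg).tendsto _
      rw [Complex.ofReal_im, neg_zero] at this
      exact this.mono_left nhdsWithin_le_nhds
    · filter_upwards [self_mem_nhdsWithin] with w hw
      simpa using hw
  have h2 : Tendsto (fun y : ℝ => NN α δ y) (𝓝[>] 0) atTop := by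
    unfold NN
    apply tendsto_nat_floor_atTop.comp
    apply (tendsto_rpow_atTop (by positivity : 0 < 1 + α)).comp
    have h3 : Tendsto (fun y : ℝ => y⁻¹ * (δ / 16)) (𝓝[>] 0) atTop :=
      tendsto_inv_nhdsGT_zero.atTop_mul_const (by positivity)
    refine h3.congr' ?_
    filter_upwards [self_mem_nhdsWithin] with y hy
    have : (0 : ℝ) < y := hy
    field_simp
  exact h2.comp h1


private theorem tc_coef {α A δ : ℝ} (hα : 0 < α) (hδ : 0 < δ) {k b : ℕ → ℂ}
    (hkC : GvC (α / (1 + α)) A δ k) (hA : 0 ≤ A) (hkv : Gv (α / (1 + α)) k)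
    (hb : Gd (α / (1 + α)) b) {m : ℕ} (hk0 : act k b m = 0)
    (hS : Summable fun n : ℕ => Real.exp (-(δ / 2) * (n : ℝ) ^ (α / (1 + α))) * ‖b (n + m)‖)
    {y : ℝ} (hy : 0 < y) :
    ‖∑ n ∈ Finset.range (NN α δ y + 1), k n * b (n + m)‖ ≤
      A * Real.exp (-(δ / 2 * (δ / 16) ^ α) * y ^ (-α)) *
        ∑' n : ℕ, Real.exp (-(δ / 2) * (n : ℝ) ^ (α / (1 + α))) * ‖b (n + m)‖ := by
  obtain ⟨hβ, hβ1⟩ := truncC_beta hα
  set N := NN α δ y with hN
  set c0 := δ / 2 * (δ / 16) ^ α with hc0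
  have hsum : Summable fun n => k n * b (n + m) := (summable_act hβ hβ1 hkv hb m).of_norm
  have h1 := hsum.sum_add_tsum_nat_add (N + 1)
  have h2 : ∑' n, k n * b (n + m) = 0 := hk0
  rw [h2] at h1
  have h3 : ∑ n ∈ Finset.range (N + 1), k n * b (n + m) =
      -∑' n, k (n + (N + 1)) * b (n + (N + 1) + m) := eq_neg_of_add_eq_zero_left h1
  rw [h3, norm_neg]
  have h4 : ∀ n : ℕ, ‖k (n + (N + 1)) * b (n + (N + 1) + m)‖ ≤
      A * Real.exp (-c0 * y ^ (-α)) *
        (Real.exp (-(δ / 2) * ((n + (N + 1) : ℕ) : ℝ) ^ (α / (1 + α))) *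
          ‖b (n + (N + 1) + m)‖) := by
    intro n
    rw [norm_mul]
    have h5 : ‖k (n + (N + 1))‖ ≤ A * Real.exp (-c0 * y ^ (-α)) *
        Real.exp (-(δ / 2) * ((n + (N + 1) : ℕ) : ℝ) ^ (α / (1 + α))) := by
      refine (hkC (n + (N + 1))).trans ?_
      rw [mul_assoc, ← Real.exp_add]
      apply mul_le_mul_of_nonneg_left _ hA
      apply Real.exp_le_exp.2
      have h6 := tc_gt (α := α) (δ := δ) (y := y) hα hδ hy (n := n + (N + 1)) (by omega)
      rw [hc0]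
      nlinarith [h6]
    calc ‖k (n + (N + 1))‖ * ‖b (n + (N + 1) + m)‖ ≤ (A * Real.exp (-c0 * y ^ (-α)) *
        Real.exp (-(δ / 2) * ((n + (N + 1) : ℕ) : ℝ) ^ (α / (1 + α)))) *
          ‖b (n + (N + 1) + m)‖ := by gcongr
      _ = _ := by ring
  have h7 : Summable fun n : ℕ => A * Real.exp (-c0 * y ^ (-α)) *
        (Real.exp (-(δ / 2) * ((n + (N + 1) : ℕ) : ℝ) ^ (α / (1 + α))) *
          ‖b (n + (N + 1) + m)‖) :=
    ((summable_nat_add_iff (N + 1)).2 hS).mul_left _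
  refine (tsum_of_norm_bounded h7.hasSum h4).trans ?_
  rw [tsum_mul_left]
  apply mul_le_mul_of_nonneg_left _ (by positivity)
  have h8 := hS.sum_add_tsum_nat_add (N + 1)
  rw [← h8]
  have h9 : 0 ≤ ∑ n ∈ Finset.range (N + 1),
      Real.exp (-(δ / 2) * (n : ℝ) ^ (α / (1 + α))) * ‖b (n + m)‖ :=
    Finset.sum_nonneg (fun n _ => by positivity)
  linarith

private theorem tc_y_tendsto (t : ℝ) :
    Tendsto (fun w : ℂ => -w.im) (𝓝[{w : ℂ | w.im < 0}] (t : ℂ)) (𝓝[>] 0) := by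
  apply tendsto_nhdsWithin_iff.2
  constructor
  · have : Tendsto (fun w : ℂ => -w.im) (𝓝 (t : ℂ)) (𝓝 (-(t : ℂ).im)) :=
      (Complex.continuous_im.neg).tendsto _
    rw [Complex.ofReal_im, neg_zero] at this
    exact this.mono_left nhdsWithin_le_nhds
  · filter_upwards [self_mem_nhdsWithin] with w hw
    simpa using hw

private theorem tc_rem {α A δ : ℝ} (hα : 0 < α) (hδ : 0 < δ) {k b : ℕ → ℂ}
    (hkC : GvC (α / (1 + α)) A δ k) (hb : Gd (α / (1 + α)) b)
    (hk : InK (α / (1 + α)) b k) (t : ℝ) :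
    Tendsto (fun w : ℂ => ∑' m, (∑ n ∈ Finset.range (NN α δ (-w.im) + 1), k n * b (n + m)) *
      ((ee w)⁻¹) ^ (m + 1)) (𝓝[{w : ℂ | w.im < 0}] (t : ℂ)) (𝓝 0) := by
  obtain ⟨hβ, hβ1⟩ := truncC_beta hα
  have hA : 0 ≤ A := by
    have h := hkC 0
    have h1 := (norm_nonneg (k 0)).trans h
    exact nonneg_of_mul_nonneg_left h1 (Real.exp_pos _)
  -- auxiliary sequences
  set G : ℕ → ℂ := fun n => ((Real.exp (-(δ / 2) * (n : ℝ) ^ (α / (1 + α))) : ℝ) : ℂ) with hG
  set B : ℕ → ℂ := fun n => ((‖b n‖ : ℝ) : ℂ) with hB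
  have hGv : Gv (α / (1 + α)) G := by
    refine ⟨1, δ / 2, by positivity, fun n => ?_⟩
    rw [hG]
    simp only [Complex.norm_real, Real.norm_eq_abs, Real.abs_exp, one_mul]
    exact le_rfl
  have hBd : Gd (α / (1 + α)) B := by
    intro ε hε
    obtain ⟨A', hA'⟩ := hb ε hε
    refine ⟨A', fun n => ?_⟩
    rw [hB]
    simp only [Complex.norm_real, norm_norm]
    exact hA' n
  have hS : ∀ m : ℕ, Summable fun n : ℕ => Real.exp (-(δ / 2) * (n : ℝ) ^ (α / (1 + α))) * ‖b (n + m)‖ := by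
    intro m
    refine (summable_act hβ hβ1 hGv hBd m).congr (fun n => ?_)
    rw [norm_mul, hG, hB]
    simp only [Complex.norm_real, Real.norm_eq_abs, Real.abs_exp, abs_norm]
  set D : ℕ → ℝ := fun m => ∑' n : ℕ, Real.exp (-(δ / 2) * (n : ℝ) ^ (α / (1 + α))) * ‖b (n + m)‖
    with hD
  have hD0 : ∀ m, 0 ≤ D m := fun m => tsum_nonneg (fun n => by positivity)
  have hact : act G B = fun m => ((D m : ℝ) : ℂ) := by
    funext m
    rw [hD, act, hG, hB]
    simp only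
    rw [Complex.ofReal_tsum]
    apply tsum_congr
    intro n
    push_cast
    ring
  have hDd : Gd (α / (1 + α)) (fun m => ((D m : ℝ) : ℂ)) := hact ▸ Gd_act hβ hβ1 hGv hBd
  set c0 := δ / 2 * (δ / 16) ^ α with hc0
  have hc0p : 0 < c0 := by positivity
  obtain ⟨κ, hκ, hout⟩ := outF_bound hα hDd (ε := c0 / 2) (by positivity)
  -- pointwise bound
  have hbound : ∀ w : ℂ, -1 ≤ w.im → w.im < 0 →
      ‖∑' m, (∑ n ∈ Finset.range (NN α δ (-w.im) + 1), k n * b (n + m)) *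
        ((ee w)⁻¹) ^ (m + 1)‖ ≤ A * Real.exp (κ - c0 / 2 * (-w.im) ^ (-α)) := by
    intro w hw1 hw0
    obtain ⟨y, hy⟩ : ∃ y : ℝ, y = -w.im := ⟨_, rfl⟩
    have hy0 : 0 < y := by rw [hy]; linarith
    rw [← hy]
    set z0 : ℂ := ee (((-y : ℝ) : ℂ) * I) with hz0
    have him : (((-y : ℝ) : ℂ) * I).im = -y := by simp
    have hz0e : z0 = ((Real.exp y : ℝ) : ℂ) := by
      rw [hz0, ee]
      push_cast
      congr 1
      linear_combination (-(y : ℂ)) * Complex.I_sq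
    have hz0n : 1 < ‖z0‖ := by
      rw [hz0e, Complex.norm_real, Real.norm_eq_abs, Real.abs_exp]
      exact Real.one_lt_exp_iff.2 hy0
    have hsO := summable_outF hα hDd hz0n
    have hterm : ∀ m, ‖((D m : ℝ) : ℂ) * (z0⁻¹) ^ (m + 1)‖ = D m * Real.exp (-y) ^ (m + 1) := by
      intro m
      rw [norm_mul, norm_pow, norm_inv, hz0e, Complex.norm_real, Complex.norm_real,
        Real.norm_eq_abs, Real.norm_eq_abs, Real.abs_exp, abs_of_nonneg (hD0 m), Real.exp_neg]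
    have hsR : Summable fun m => D m * Real.exp (-y) ^ (m + 1) := hsO.congr hterm
    have hval : outF (fun m => ((D m : ℝ) : ℂ)) z0 =
        ((∑' m, D m * Real.exp (-y) ^ (m + 1) : ℝ) : ℂ) := by
      rw [outF, Complex.ofReal_tsum]
      apply tsum_congr
      intro m
      rw [hz0e, Real.exp_neg]
      push_cast
      ring
    have hR0 : 0 ≤ ∑' m, D m * Real.exp (-y) ^ (m + 1) :=
      tsum_nonneg (fun m => mul_nonneg (hD0 m) (by positivity))
    have hRle : ∑' m, D m * Real.exp (-y) ^ (m + 1) ≤ Real.exp (κ + c0 / 2 * y ^ (-α)) := by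
      have h := hout (((-y : ℝ) : ℂ) * I) (by rw [him]; linarith) (by rw [him]; linarith)
      rw [← hz0, hval, Complex.norm_real, Real.norm_eq_abs, abs_of_nonneg hR0, him, neg_neg] at h
      exact h
    have hb1 : ∀ m, ‖(∑ n ∈ Finset.range (NN α δ y + 1), k n * b (n + m)) *
        ((ee w)⁻¹) ^ (m + 1)‖ ≤
        (A * Real.exp (-c0 * y ^ (-α))) * (D m * Real.exp (-y) ^ (m + 1)) := by
      intro m
      have h1 := tc_coef hα hδ hkC hA hk.1 hb (hk.2 m) (hS m) hy0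
      rw [norm_mul, norm_pow, norm_inv, norm_ee, ← hy]
      have h2 : (Real.exp y)⁻¹ = Real.exp (-y) := (Real.exp_neg y).symm
      rw [h2]
      calc _ ≤ (A * Real.exp (-c0 * y ^ (-α)) * D m) * Real.exp (-y) ^ (m + 1) := by
            apply mul_le_mul_of_nonneg_right _ (by positivity)
            exact h1
        _ = _ := by ring
    refine (tsum_of_norm_bounded (hsR.mul_left _).hasSum hb1).trans ?_
    rw [tsum_mul_left]
    calc A * Real.exp (-c0 * y ^ (-α)) * ∑' m, D m * Real.exp (-y) ^ (m + 1)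
        ≤ A * Real.exp (-c0 * y ^ (-α)) * Real.exp (κ + c0 / 2 * y ^ (-α)) := by gcongr
      _ = A * Real.exp (κ - c0 / 2 * y ^ (-α)) := by
          rw [mul_assoc, ← Real.exp_add]; congr 2; ring
  have hlim : Tendsto (fun w : ℂ => A * Real.exp (κ - c0 / 2 * (-w.im) ^ (-α)))
      (𝓝[{w : ℂ | w.im < 0}] (t : ℂ)) (𝓝 0) := by
    have h1 : Tendsto (fun y : ℝ => y ^ (-α)) (𝓝[>] 0) atTop :=
      tendsto_rpow_neg_nhdsGT_zero (by linarith)
    have h2 := h1.comp (tc_y_tendsto t)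
    have h3 : Tendsto (fun w : ℂ => κ - c0 / 2 * (-w.im) ^ (-α))
        (𝓝[{w : ℂ | w.im < 0}] (t : ℂ)) atBot := by
      have h4 := (h2.const_mul_atTop (by positivity : 0 < c0 / 2))
      have h5 := tendsto_neg_atTop_atBot.comp h4
      have h6 := tendsto_atBot_add_const_left _ κ h5
      refine h6.congr (fun w => ?_)
      simp only [Function.comp_apply]
      ring
    have h7 := (Real.tendsto_exp_atBot.comp h3).const_mul A
    rw [mul_zero] at h7
    exact h7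
  apply squeeze_zero_norm' _ hlim
  have hev : ∀ᶠ w : ℂ in 𝓝[{w : ℂ | w.im < 0}] (t : ℂ), -1 < w.im := by
    have h1 : ∀ᶠ w : ℂ in 𝓝 (t : ℂ), -1 < w.im := by
      have h2 : ContinuousAt Complex.im (t : ℂ) := Complex.continuous_im.continuousAt
      apply h2.eventually_const_lt
      simp
    exact nhdsWithin_le_nhds h1
  filter_upwards [self_mem_nhdsWithin, hev] with w hw hw1
  exact hbound w hw1.le hw


private theorem tc_dom {α δ : ℝ} (hα : 0 < α) (hδ : 0 < δ) {f : ℕ → ℂ → ℂ} {bound : ℕ → ℝ}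
    (hs : Summable bound) (h0 : ∀ n, 0 ≤ bound n) (hc : ∀ n, Continuous (f n))
    (hb : ∀ y : ℝ, 0 < y → ∀ w : ℂ, w.im = -y → ∀ n : ℕ, n ≤ NN α δ y → ‖f n w‖ ≤ bound n)
    (t : ℝ) :
    Tendsto (fun w : ℂ => ∑ n ∈ Finset.range (NN α δ (-w.im) + 1), f n w)
      (𝓝[{w : ℂ | w.im < 0}] (t : ℂ)) (𝓝 (∑' n, f n (t : ℂ))) := by
  have h1 : ∀ w : ℂ, ∑ n ∈ Finset.range (NN α δ (-w.im) + 1), f n w =
      ∑' n, if n ≤ NN α δ (-w.im) then f n w else 0 := by
    intro w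
    rw [tsum_eq_sum (s := Finset.range (NN α δ (-w.im) + 1))]
    · apply Finset.sum_congr rfl
      intro n hn
      rw [Finset.mem_range] at hn
      rw [if_pos (by omega)]
    · intro n hn
      rw [Finset.mem_range] at hn
      rw [if_neg (by omega)]
  simp only [h1]
  apply tendsto_tsum_of_dominated_convergence hs
  · intro n
    have h2 : Tendsto (fun w : ℂ => f n w) (𝓝[{w : ℂ | w.im < 0}] (t : ℂ)) (𝓝 (f n t)) :=
      ((hc n).tendsto _).mono_left nhdsWithin_le_nhds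
    refine h2.congr' ?_
    filter_upwards [(tc_NN_atTop hα hδ t).eventually_ge_atTop n] with w hw
    rw [if_pos hw]
  · filter_upwards [self_mem_nhdsWithin] with w hw n
    have hw' : 0 < -w.im := by
      have : w.im < 0 := hw
      linarith
    split_ifs with h
    · exact hb (-w.im) hw' w (by ring) n h
    · rw [norm_zero]; exact h0 n

private theorem tc_P_bound {α A δ Bc : ℝ} (hα : 0 < α) (hδ : 0 < δ) {k b : ℕ → ℂ}
    (hkC : GvC (α / (1 + α)) A δ k) (hA : 0 ≤ A) (hBc : 0 ≤ Bc)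
    (hbC : ∀ n : ℕ, ‖b n‖ ≤ Bc * Real.exp (δ / 4 * (n : ℝ) ^ (α / (1 + α))))
    {y : ℝ} (hy : 0 ≤ y) {z : ℂ} (hz : ‖z‖ = Real.exp y) {n : ℕ}
    (hn : y * n ≤ δ / 16 * (n : ℝ) ^ (α / (1 + α))) :
    ‖k n * tcP b n z‖ ≤ A * Bc * (((n : ℝ) + 1) ^ 1 *
      Real.exp (-(δ / 2) * (n : ℝ) ^ (α / (1 + α)))) := by
  obtain ⟨hβ, hβ1⟩ := truncC_beta hα
  have h1 : ‖tcP b n z‖ ≤ n * (Bc * Real.exp (δ / 4 * (n : ℝ) ^ (α / (1 + α)) +
      δ / 16 * (n : ℝ) ^ (α / (1 + α)))) := by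
    unfold tcP
    refine (norm_sum_le _ _).trans ?_
    have h2 : ∀ l ∈ Finset.range n, ‖b l * z ^ (n - 1 - l)‖ ≤
        Bc * Real.exp (δ / 4 * (n : ℝ) ^ (α / (1 + α)) + δ / 16 * (n : ℝ) ^ (α / (1 + α))) := by
      intro l hl
      rw [Finset.mem_range] at hl
      rw [norm_mul, norm_pow, hz, Real.exp_add, ← mul_assoc]
      apply mul_le_mul
      · refine (hbC l).trans ?_
        have h3 : (l : ℝ) ^ (α / (1 + α)) ≤ (n : ℝ) ^ (α / (1 + α)) :=
          Real.rpow_le_rpow (by positivity) (by exact_mod_cast hl.le) hβ.le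
        gcongr
      · rw [← Real.exp_nat_mul]
        apply Real.exp_le_exp.2
        refine le_trans ?_ hn
        have h4 : ((n - 1 - l : ℕ) : ℝ) ≤ n := by
          exact_mod_cast (by omega : n - 1 - l ≤ n)
        nlinarith
      · positivity
      · positivity
    refine (Finset.sum_le_sum h2).trans ?_
    rw [Finset.sum_const, Finset.card_range, nsmul_eq_mul]
  rw [norm_mul]
  have hr : 0 ≤ (n : ℝ) ^ (α / (1 + α)) := by positivity
  calc ‖k n‖ * ‖tcP b n z‖ ≤ (A * Real.exp (-δ * (n : ℝ) ^ (α / (1 + α)))) *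
        (n * (Bc * Real.exp (δ / 4 * (n : ℝ) ^ (α / (1 + α)) +
          δ / 16 * (n : ℝ) ^ (α / (1 + α))))) := by
        apply mul_le_mul (hkC n) h1 (norm_nonneg _) (by positivity)
    _ = A * Bc * (n * (Real.exp (-δ * (n : ℝ) ^ (α / (1 + α))) *
        Real.exp (δ / 4 * (n : ℝ) ^ (α / (1 + α)) + δ / 16 * (n : ℝ) ^ (α / (1 + α))))) := by ring
    _ ≤ A * Bc * (((n : ℝ) + 1) ^ 1 * Real.exp (-(δ / 2) * (n : ℝ) ^ (α / (1 + α)))) := by
        rw [← Real.exp_add, pow_one]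
        have h5 : -δ * (n : ℝ) ^ (α / (1 + α)) + (δ / 4 * (n : ℝ) ^ (α / (1 + α)) +
          δ / 16 * (n : ℝ) ^ (α / (1 + α))) ≤ -(δ / 2) * (n : ℝ) ^ (α / (1 + α)) := by nlinarith
        have h6 : (n : ℝ) ≤ (n : ℝ) + 1 := by linarith
        gcongr

private theorem tc_hh {α : ℝ} (hα : 0 < α) {A δ Bc : ℝ} (hδ : 0 < δ) {k b : ℕ → ℂ}
    (hkC : GvC (α / (1 + α)) A δ k) (hA : 0 ≤ A) (hBc : 0 ≤ Bc)
    (hbC : ∀ n : ℕ, ‖b n‖ ≤ Bc * Real.exp (δ / 4 * (n : ℝ) ^ (α / (1 + α))))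
    {z : ℂ} (hz : ‖z‖ = 1) :
    ∑' n, k n * tcP b n z = ev (hh k b) z := by
  obtain ⟨hβ, hβ1⟩ := truncC_beta hα
  set f : ℕ × ℕ → ℂ := fun p => k (p.2 + 1 + p.1) * b p.1 * z ^ p.2 with hf
  have hsf : Summable f := by
    have hE1 := summable_exp_neg hβ (by positivity : 0 < δ / 4)
    have hE2 := summable_exp_neg hβ (by positivity : 0 < δ / 2)
    have h1 := (hE1.mul_of_nonneg hE2 (fun n => (Real.exp_pos _).le)
      (fun n => (Real.exp_pos _).le)).mul_left (A * Bc)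
    refine Summable.of_norm_bounded h1 (fun p => ?_)
    obtain ⟨i, j⟩ := p
    rw [hf]
    simp only
    rw [norm_mul, norm_mul, norm_pow, hz, one_pow, mul_one]
    have hi : (i : ℝ) ^ (α / (1 + α)) ≤ ((j + 1 + i : ℕ) : ℝ) ^ (α / (1 + α)) :=
      Real.rpow_le_rpow (by positivity) (by exact_mod_cast (by omega : i ≤ j + 1 + i)) hβ.le
    have hj : (j : ℝ) ^ (α / (1 + α)) ≤ ((j + 1 + i : ℕ) : ℝ) ^ (α / (1 + α)) :=
      Real.rpow_le_rpow (by positivity) (by exact_mod_cast (by omega : j ≤ j + 1 + i)) hβ.le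
    calc ‖k (j + 1 + i)‖ * ‖b i‖ ≤ (A * Real.exp (-δ * ((j + 1 + i : ℕ) : ℝ) ^ (α / (1 + α)))) *
          (Bc * Real.exp (δ / 4 * (i : ℝ) ^ (α / (1 + α)))) := by
          apply mul_le_mul (hkC _) (hbC i) (norm_nonneg _) (by positivity)
      _ = A * Bc * Real.exp (-δ * ((j + 1 + i : ℕ) : ℝ) ^ (α / (1 + α)) +
          δ / 4 * (i : ℝ) ^ (α / (1 + α))) := by rw [Real.exp_add]; ring
      _ ≤ A * Bc * (Real.exp (-(δ / 4) * (i : ℝ) ^ (α / (1 + α))) *
          Real.exp (-(δ / 2) * (j : ℝ) ^ (α / (1 + α)))) := by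
          rw [← Real.exp_add]
          have : -δ * ((j + 1 + i : ℕ) : ℝ) ^ (α / (1 + α)) + δ / 4 * (i : ℝ) ^ (α / (1 + α)) ≤
              -(δ / 4) * (i : ℝ) ^ (α / (1 + α)) + -(δ / 2) * (j : ℝ) ^ (α / (1 + α)) := by
            nlinarith
          gcongr
  -- left side
  have hsP : Summable fun n => k n * tcP b n z := by
    have h1 := (summable_pow_exp_neg hβ (by positivity : 0 < δ / 2) 1).mul_left (A * Bc)
    refine Summable.of_norm_bounded h1 (fun n => ?_)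
    apply tc_P_bound hα hδ hkC hA hBc hbC le_rfl (by rw [hz, Real.exp_zero])
    rw [zero_mul]
    positivity
  have hL : ∑' n, k n * tcP b n z = ∑' n, ∑ p ∈ Finset.HasAntidiagonal.antidiagonal n, f p := by
    rw [hsP.tsum_eq_zero_add]
    have h0 : tcP b 0 z = 0 := by simp [tcP]
    rw [h0, mul_zero, zero_add]
    apply tsum_congr
    intro n
    rw [Finset.Nat.sum_antidiagonal_eq_sum_range_succ_mk, tcP, Finset.mul_sum]
    apply Finset.sum_congr rfl
    intro i hi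
    rw [Finset.mem_range] at hi
    rw [hf]
    simp only
    have h1 : n - i + 1 + i = n + 1 := by omega
    have h2 : n + 1 - 1 - i = n - i := by omega
    rw [h1, h2]
    ring
  have hM : ∑' n, ∑ p ∈ Finset.HasAntidiagonal.antidiagonal n, f p = ∑' p, f p := by
    conv_lhs => congr; ext; rw [← Finset.sum_finset_coe, ← tsum_fintype (L := .unconditional _)]
    rw [← Finset.HasAntidiagonal.sigmaAntidiagonalEquivProd.tsum_eq f]
    exact ((Finset.HasAntidiagonal.sigmaAntidiagonalEquivProd.summable_iff.2 hsf).tsum_sigma'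
      fun n ↦ (hasSum_fintype _).summable).symm
  have hR : ev (hh k b) z = ∑' p, f p := by
    have h1 : Summable (f ∘ Prod.swap) := hsf.prod_symm
    have h2 : ∑' p, f p = ∑' p, f (Prod.swap p) :=
      ((Equiv.prodComm ℕ ℕ).tsum_eq f).symm
    rw [h2, Summable.tsum_prod (f := fun p => f (Prod.swap p)) h1, ev]
    apply tsum_congr
    intro j
    rw [hh, ← tsum_mul_right]
    rfl
  rw [hL, hM, hR]

theorem out_limit {α : ℝ} (hα : 0 < α) {k b : ℕ → ℂ} (hb : Gd (α / (1 + α)) b)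
    (hk : InK (α / (1 + α)) b k) {t : ℝ} (ht : ev k (ee (t : ℂ)) ≠ 0) :
    Tendsto (fun w : ℂ => outF b (ee w)) (𝓝[{w : ℂ | w.im < 0}] (t : ℂ))
      (𝓝 (ev (hh k b) (ee (t : ℂ)) / ev k (ee (t : ℂ)))) := by
  obtain ⟨hβ, hβ1⟩ := truncC_beta hα
  obtain ⟨A, δ, hδ, hkC⟩ := hk.1
  have hA : 0 ≤ A := by
    have h := hkC 0
    have h1 := (norm_nonneg (k 0)).trans h
    exact nonneg_of_mul_nonneg_left h1 (Real.exp_pos _)
  obtain ⟨Bc, hbC⟩ := hb (δ / 4) (by positivity)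
  have hBc : 0 ≤ Bc := by
    have h := hbC 0
    have h1 := (norm_nonneg (b 0)).trans h
    exact nonneg_of_mul_nonneg_left h1 (Real.exp_pos _)
  have hcee : Continuous ee := differentiable_ee.continuous
  have hnee : ∀ (y : ℝ) (w : ℂ), w.im = -y → ‖ee w‖ = Real.exp y := by
    intro y w hw
    rw [norm_ee, hw, neg_neg]
  -- first limit
  have hlim1 : Tendsto (fun w : ℂ => ∑ n ∈ Finset.range (NN α δ (-w.im) + 1), k n * (ee w) ^ n)
      (𝓝[{w : ℂ | w.im < 0}] (t : ℂ)) (𝓝 (ev k (ee (t : ℂ)))) := by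
    have hs := (summable_exp_neg hβ (by positivity : 0 < δ / 2)).mul_left A
    refine tc_dom hα hδ (f := fun n w => k n * (ee w) ^ n) hs (fun n => by positivity)
      (fun n => by fun_prop) ?_ t
    intro y hy w hw n hn
    have h1 := tc_le hα hδ hy hn
    rw [norm_mul, norm_pow, hnee y w hw, ← Real.exp_nat_mul]
    have hr : 0 ≤ (n : ℝ) ^ (α / (1 + α)) := by positivity
    calc ‖k n‖ * Real.exp (n * y) ≤ (A * Real.exp (-δ * (n : ℝ) ^ (α / (1 + α)))) *
          Real.exp (δ / 16 * (n : ℝ) ^ (α / (1 + α))) := by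
          apply mul_le_mul (hkC n) _ (by positivity) (by positivity)
          apply Real.exp_le_exp.2
          linarith [mul_comm y (n : ℝ)]
      _ ≤ A * Real.exp (-(δ / 2) * (n : ℝ) ^ (α / (1 + α))) := by
          rw [mul_assoc, ← Real.exp_add]
          apply mul_le_mul_of_nonneg_left _ hA
          apply Real.exp_le_exp.2
          nlinarith
  have hlim2 : Tendsto (fun w : ℂ => ∑ n ∈ Finset.range (NN α δ (-w.im) + 1),
      k n * tcP b n (ee w)) (𝓝[{w : ℂ | w.im < 0}] (t : ℂ)) (𝓝 (ev (hh k b) (ee (t : ℂ)))) := by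
    have hs := (summable_pow_exp_neg hβ (by positivity : 0 < δ / 2) 1).mul_left (A * Bc)
    rw [← tc_hh hα hδ hkC hA hBc hbC (norm_ee_real t)]
    refine tc_dom hα hδ (f := fun n w => k n * tcP b n (ee w)) hs (fun n => by positivity)
      (fun n => ?_) ?_ t
    · unfold tcP
      fun_prop
    · intro y hy w hw n hn
      exact tc_P_bound hα hδ hkC hA hBc hbC hy.le (hnee y w hw) (tc_le hα hδ hy hn)
  have hlim3 := tc_rem hα hδ hkC hb hk t
  have hlim4 := (hlim2.add hlim3).div hlim1 ht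
  rw [add_zero] at hlim4
  refine hlim4.congr' ?_
  have hne : ∀ᶠ w : ℂ in 𝓝[{w : ℂ | w.im < 0}] (t : ℂ),
      ∑ n ∈ Finset.range (NN α δ (-w.im) + 1), k n * (ee w) ^ n ≠ 0 := hlim1.eventually_ne ht
  filter_upwards [self_mem_nhdsWithin, hne] with w hw hw1
  have hw0 : w.im < 0 := hw
  have hz : 1 < ‖ee w‖ := by
    rw [norm_ee]
    exact Real.one_lt_exp_iff.2 (by linarith)
  have h1 := tc_main (k := k) (ee_ne_zero w) (summable_outF hα hb hz).of_norm (NN α δ (-w.im))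
  simp only [Pi.div_apply]
  rw [← h1, mul_div_cancel_left₀ _ hw1]

end MP_9d6c91_an
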