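import Pool.Agent.Lib.MP_9d6c91_an.GlueA
import Pool.Agent.Lib.MP_9d6c91_an.Trunc

/-!
# JOB GLUEB : the Cauchy transform of the functional `b` extended to the complement of `EE E`

* `glue_line` (Morera): on a ball contained in `U` the integral over every rectangle vanishes: split the rectangle
  at the real axis and use `Complex.integral_boundary_rect_eq_zero_of_continuousOn_of_differentiableOn` on both halves;
  then `Complex.isConservativeOn_and_continuousOn_iff_isDifferentiableOn`.
* `glue` : `Φ z = outF b z` for `|z| > 1`, `Φ z = ev (hh a b) z / ev a z` for `|z| ≤ 1`, `z ∉ EE E`, where `a` is any element of `K(b)`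
  with `ev a z ≠ 0` (independent of `a` by `cmul_hh_comm` and `ev_cmul`), `Φ = 0` on `EE E`.
  In the open disc `Φ` is locally a quotient of analytic functions; near `ee t`, `t ∉ E`, in the `w`-plane the function
  `Φ (ee w)` is continuous (from `Im w ≥ 0`: quotient of continuous functions on the closed disc; from
  `Im w < 0`: `out_limit` at all nearby real points gives continuity of the glued function) and analytic off the real line, so
  `glue_line` applies; `ee` is a local biholomorphism.
-/

set_option autoImplicit false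

open MeasureTheory Complex Filter Topology Set
open scoped ENNReal Real

namespace MP_9d6c91_an

theorem glue {α : ℝ} (hα : 0 < α) {b : ℕ → ℂ} (hb : Gd (α / (1 + α)) b) {E : Set ℝ} (hE : GE E)
    (H1 : ∀ z : ℂ, ‖z‖ ≤ 1 → z ∉ EE E → ∃ a, InK (α / (1 + α)) b a ∧ ev a z ≠ 0) :
    ∃ Φ : ℂ → ℂ, DifferentiableOn ℂ Φ (EE E)ᶜ ∧ (∀ z ∈ EE E, Φ z = 0) ∧
      (∀ z : ℂ, 1 < ‖z‖ → Φ z = outF b z) ∧
      ∀ a, InK (α / (1 + α)) b a → ∀ z : ℂ, ‖z‖ ≤ 1 → z ∉ EE E → Φ z * ev a z = ev (hh a b) z := by
  classical
  set β : ℝ := α / (1 + α) with hβdef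
  have hβ : 0 < β := by positivity
  have hβ1 : β ≤ 1 := by
    rw [hβdef, div_le_one (by linarith)]; linarith
  -- choice of the denominators
  have H1' : ∀ z : ℂ, ∃ a : ℕ → ℂ, ‖z‖ ≤ 1 → z ∉ EE E → InK β b a ∧ ev a z ≠ 0 := by
    intro z
    by_cases h : ‖z‖ ≤ 1 ∧ z ∉ EE E
    · obtain ⟨a, ha⟩ := H1 z h.1 h.2
      exact ⟨a, fun _ _ => ha⟩
    · exact ⟨0, fun h1 h2 => absurd ⟨h1, h2⟩ h⟩
  choose A hA using H1'
  let Φ : ℂ → ℂ := fun z => if z ∈ EE E then 0 else
    if 1 < ‖z‖ then outF b z else ev (hh (A z) b) z / ev (A z) z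
  have hΦE : ∀ z ∈ EE E, Φ z = 0 := fun z hz => if_pos hz
  have hΦout : ∀ z : ℂ, 1 < ‖z‖ → Φ z = outF b z := by
    intro z hz
    have h1 : z ∉ EE E := fun h => by
      have := norm_of_mem_EE h
      linarith
    show (if z ∈ EE E then 0 else if 1 < ‖z‖ then outF b z else ev (hh (A z) b) z / ev (A z) z) = _
    rw [if_neg h1, if_pos hz]
  have hΦin : ∀ a, InK β b a → ∀ z : ℂ, ‖z‖ ≤ 1 → z ∉ EE E → Φ z * ev a z = ev (hh a b) z := by
    intro a ha z hz hzE
    have hval : Φ z = ev (hh (A z) b) z / ev (A z) z := by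
      show (if z ∈ EE E then 0 else if 1 < ‖z‖ then outF b z else
        ev (hh (A z) b) z / ev (A z) z) = _
      rw [if_neg hzE, if_neg (not_lt.2 hz)]
    obtain ⟨hAK, hAz⟩ := hA z hz hzE
    have hc := cmul_hh_comm hβ hβ1 hb ha hAK
    have h2 : ev (cmul (A z) (hh a b)) z = ev (cmul a (hh (A z) b)) z :=
      congrArg (fun s => ev s z) hc
    rw [ev_cmul (hAK.1.summable_norm hβ) ((Gv_hh hβ hβ1 ha.1 hb).summable_norm hβ) hz,
      ev_cmul (ha.1.summable_norm hβ) ((Gv_hh hβ hβ1 hAK.1 hb).summable_norm hβ) hz] at h2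
    rw [hval, div_mul_eq_mul_div, div_eq_iff hAz]
    linear_combination -h2
  -- the quotient formula
  have hΦq : ∀ a, InK β b a → ∀ z : ℂ, ‖z‖ ≤ 1 → z ∉ EE E → ev a z ≠ 0 →
      Φ z = ev (hh a b) z / ev a z := by
    intro a ha z hz hzE hne
    rw [eq_div_iff hne]
    exact hΦin a ha z hz hzE
  -- differentiability off the circle
  have hdin : ∀ z : ℂ, ‖z‖ < 1 → DifferentiableAt ℂ Φ z := by
    intro z hz
    have hzE : z ∉ EE E := fun h => by
      have := norm_of_mem_EE h
      linarith
    obtain ⟨a, haK, haz⟩ := H1 z hz.le hzE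
    have hball : Metric.ball (0 : ℂ) 1 ∈ 𝓝 z :=
      Metric.isOpen_ball.mem_nhds (by simpa using hz)
    have hda : DifferentiableAt ℂ (ev a) z :=
      (differentiableOn_ev (haK.1.summable_norm hβ)).differentiableAt hball
    have hdh : DifferentiableAt ℂ (ev (hh a b)) z :=
      (differentiableOn_ev ((Gv_hh hβ hβ1 haK.1 hb).summable_norm hβ)).differentiableAt hball
    have hne : ∀ᶠ z' in 𝓝 z, ev a z' ≠ 0 := hda.continuousAt.eventually_ne haz
    have heq : Φ =ᶠ[𝓝 z] fun z' => ev (hh a b) z' / ev a z' := by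
      filter_upwards [hball, hne] with z' h1 h2
      have h1' : ‖z'‖ < 1 := by simpa using h1
      refine hΦq a haK z' h1'.le (fun h => ?_) h2
      have := norm_of_mem_EE h
      linarith
    exact (hdh.div hda haz).congr_of_eventuallyEq heq
  have hdout : ∀ z : ℂ, 1 < ‖z‖ → DifferentiableAt ℂ Φ z := by
    intro z hz
    have hopen : IsOpen {z : ℂ | 1 < ‖z‖} := isOpen_lt continuous_const continuous_norm
    have hd : DifferentiableAt ℂ (outF b) z :=
      (differentiableOn_outF hα hb).differentiableAt (hopen.mem_nhds hz)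
    have heq : Φ =ᶠ[𝓝 z] outF b := by
      filter_upwards [hopen.mem_nhds hz] with z' h1
      exact hΦout z' h1
    exact hd.congr_of_eventuallyEq heq
  -- the function in the `w`-plane
  have hee_in : ∀ w : ℂ, 0 ≤ w.im → ‖ee w‖ ≤ 1 := by
    intro w hw
    rw [norm_ee]
    exact Real.exp_le_one_iff.2 (by linarith)
  have hline : DifferentiableOn ℂ (fun w => Φ (ee w)) {w : ℂ | w.im ≠ 0 ∨ w.re ∉ E} := by
    have hoff : ∀ w : ℂ, w.im ≠ 0 → DifferentiableAt ℂ (fun w => Φ (ee w)) w := by
      intro w hw
      have h1 : DifferentiableAt ℂ Φ (ee w) := by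
        rcases lt_or_gt_of_ne hw with h | h
        · refine hdout _ ?_
          rw [norm_ee]
          exact Real.one_lt_exp_iff.2 (by linarith)
        · refine hdin _ ?_
          rw [norm_ee]
          exact Real.exp_lt_one_iff.2 (by linarith)
      exact h1.comp w (differentiable_ee w)
    refine glue_line (isOpen_good hE) ?_ (fun w _ hw => hoff w hw)
    intro w hw
    refine ContinuousAt.continuousWithinAt ?_
    by_cases him : w.im = 0
    · -- a real point outside of `E`
      have hre : w.re ∉ E := by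
        rcases hw with h | h
        · exact absurd him h
        · exact h
      set t : ℝ := w.re with ht
      have hwt : w = (t : ℂ) := by
        apply Complex.ext <;> simp [him, ht]
      rw [hwt]
      have htE : ee (t : ℂ) ∉ EE E := fun h => hre ((ee_mem_EE_iff hE t).1 h)
      obtain ⟨a, haK, hat⟩ := H1 (ee (t : ℂ)) (norm_ee_real t).le htE
      have hft : Φ (ee (t : ℂ)) = ev (hh a b) (ee (t : ℂ)) / ev a (ee (t : ℂ)) :=
        hΦq a haK _ (norm_ee_real t).le htE hat
      have hlow : Tendsto (fun w : ℂ => Φ (ee w)) (𝓝[{w : ℂ | w.im < 0}] (t : ℂ))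
          (𝓝 (Φ (ee (t : ℂ)))) := by
        rw [hft]
        refine (out_limit hα hb haK hat).congr' ?_
        filter_upwards [self_mem_nhdsWithin] with w' hw'
        refine (hΦout _ ?_).symm
        rw [norm_ee]
        have : w'.im < 0 := hw'
        exact Real.one_lt_exp_iff.2 (by linarith)
      have hup : Tendsto (fun w : ℂ => Φ (ee w)) (𝓝[{w : ℂ | 0 ≤ w.im}] (t : ℂ))
          (𝓝 (Φ (ee (t : ℂ)))) := by
        have htends : Tendsto ee (𝓝[{w : ℂ | 0 ≤ w.im}] (t : ℂ))
            (𝓝[Metric.closedBall (0 : ℂ) 1] (ee (t : ℂ))) := by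
          refine tendsto_nhdsWithin_iff.2 ⟨?_, ?_⟩
          · exact (differentiable_ee.continuous.tendsto _).mono_left nhdsWithin_le_nhds
          · filter_upwards [self_mem_nhdsWithin] with w' hw'
            simpa using hee_in w' hw'
        have hmem : ee (t : ℂ) ∈ Metric.closedBall (0 : ℂ) 1 := by
          simpa using (norm_ee_real t).le
        have hca : Tendsto (fun w => ev a (ee w)) (𝓝[{w : ℂ | 0 ≤ w.im}] (t : ℂ))
            (𝓝 (ev a (ee (t : ℂ)))) :=
          Tendsto.comp (continuousOn_ev (haK.1.summable_norm hβ) _ hmem) htends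
        have hch : Tendsto (fun w => ev (hh a b) (ee w)) (𝓝[{w : ℂ | 0 ≤ w.im}] (t : ℂ))
            (𝓝 (ev (hh a b) (ee (t : ℂ)))) :=
          Tendsto.comp (continuousOn_ev ((Gv_hh hβ hβ1 haK.1 hb).summable_norm hβ) _ hmem) htends
        rw [hft]
        refine (hch.div hca hat).congr' ?_
        have hgood : ∀ᶠ w' in 𝓝[{w : ℂ | 0 ≤ w.im}] (t : ℂ), w' ∈ {w : ℂ | w.im ≠ 0 ∨ w.re ∉ E} :=
          nhdsWithin_le_nhds ((isOpen_good hE).mem_nhds (by right; simpa using hre))
        filter_upwards [self_mem_nhdsWithin, hgood, hca.eventually_ne hat] with w' h1 h2 h3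
        exact (hΦq a haK _ (hee_in w' h1) (ee_notMem_EE hE h2) h3).symm
      have huniv : ({w : ℂ | w.im < 0} ∪ {w : ℂ | 0 ≤ w.im}) = Set.univ := by
        ext w'
        simp only [Set.mem_union, Set.mem_univ, iff_true]
        exact lt_or_ge w'.im 0
      have hall := hlow.sup hup
      rw [← nhdsWithin_union, huniv, nhdsWithin_univ] at hall
      exact hall
    · exact (hoff w him).continuousAt
  refine ⟨Φ, ?_, hΦE, hΦout, hΦin⟩
  intro z hz
  refine DifferentiableAt.differentiableWithinAt ?_
  rcases lt_trichotomy ‖z‖ 1 with h | h | h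
  · exact hdin z h
  · -- a point of the circle
    have hz0 : z ≠ 0 := by
      intro h0
      rw [h0, norm_zero] at h
      exact zero_ne_one h
    obtain ⟨w, hw, -, -, hwim⟩ := exists_ee hz0
    have him : w.im = 0 := by rw [hwim, h]; simp
    have hre : w.re ∉ E := by
      intro hmem
      apply hz
      refine ⟨w.re, hmem, ?_⟩
      show ee ((w.re : ℝ) : ℂ) = z
      rw [← hw]
      congr 1
      apply Complex.ext <;> simp [him]
    -- local inverse of `ee`
    let v : ℂ → ℂ := fun z' => w - I * Complex.log (z' / z)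
    have hvz : v z = w := by
      show w - I * Complex.log (z / z) = w
      rw [div_self hz0, Complex.log_one]; ring
    have hvd : DifferentiableAt ℂ v z := by
      have h1 : DifferentiableAt ℂ (fun z' : ℂ => z' / z) z :=
        differentiableAt_id.div_const z
      have h2 : DifferentiableAt ℂ (fun z' : ℂ => Complex.log (z' / z)) z := by
        refine h1.clog ?_
        rw [div_self hz0]
        exact Complex.one_mem_slitPlane
      exact (differentiableAt_const w).sub ((differentiableAt_const I).mul h2)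
    have hev : ∀ z' : ℂ, z' ≠ 0 → ee (v z') = z' := by
      intro z' hz'
      have h1 : ee (v z') = ee w * Complex.exp (Complex.log (z' / z)) := by
        show Complex.exp (I * (w - I * Complex.log (z' / z))) =
          Complex.exp (I * w) * Complex.exp (Complex.log (z' / z))
        rw [← Complex.exp_add]
        congr 1
        have : I * I = -1 := Complex.I_mul_I
        linear_combination (-Complex.log (z' / z)) * this
      rw [h1, hw, Complex.exp_log (div_ne_zero hz' hz0)]
      field_simp
    have hdv : DifferentiableAt ℂ (fun w => Φ (ee w)) (v z) := by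
      rw [hvz]
      exact hline.differentiableAt ((isOpen_good hE).mem_nhds (Or.inr hre))
    have hcomp : DifferentiableAt ℂ ((fun w => Φ (ee w)) ∘ v) z := hdv.comp z hvd
    refine hcomp.congr_of_eventuallyEq ?_
    filter_upwards [isOpen_ne.mem_nhds hz0] with z' hz'
    show Φ z' = Φ (ee (v z'))
    rw [hev z' hz']
  · exact hdout z h

end MP_9d6c91_an
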