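import Pool.Agent.Lib.MP_9d6c91_an.Defs

/-!
# JOB GLUEA : the Cauchy transform of the functional `b` extended to the complement of `EE E`

* `glue_line` (Morera): on a ball contained in `U` the integral over every rectangle vanishes: split the rectangle
  at the real axis and use `Complex.integral_boundary_rect_eq_zero_of_continuousOn_of_differentiableOn` on both halves;
  then `Complex.isConservativeOn_and_continuousOn_iff_isDifferentiableOn`.
-/

set_option autoImplicit false

open MeasureTheory Complex Filter Topology Set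
open scoped ENNReal Real Interval

namespace MP_9d6c91_an

/-- a rectangle whose open part avoids the real line -/
private theorem glueA_rect {U : Set ℂ} {f : ℂ → ℂ} (hc : ContinuousOn f U)
    (hd : ∀ w ∈ U, w.im ≠ 0 → DifferentiableAt ℂ f w) (z w : ℂ)
    (hR : [[z.re, w.re]] ×ℂ [[z.im, w.im]] ⊆ U)
    (h0 : (0 : ℝ) ∉ Ioo (min z.im w.im) (max z.im w.im)) :
    (∫ x : ℝ in z.re..w.re, f (x + z.im * I)) - (∫ x : ℝ in z.re..w.re, f (x + w.im * I)) +
      I • (∫ y : ℝ in z.im..w.im, f (re w + y * I)) -
      I • (∫ y : ℝ in z.im..w.im, f (re z + y * I)) = 0 := by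
  refine Complex.integral_boundary_rect_eq_zero_of_continuousOn_of_differentiableOn f z w
    (hc.mono hR) ?_
  intro p hp
  have hp' : p ∈ [[z.re, w.re]] ×ℂ [[z.im, w.im]] :=
    ⟨Ioo_subset_Icc_self hp.1, Ioo_subset_Icc_self hp.2⟩
  refine (hd p (hR hp') ?_).differentiableWithinAt
  intro h
  apply h0
  have := hp.2
  rw [mem_preimage, h] at this
  exact this

theorem glue_line {U : Set ℂ} (hU : IsOpen U) {f : ℂ → ℂ} (hc : ContinuousOn f U)
    (hd : ∀ w ∈ U, w.im ≠ 0 → DifferentiableAt ℂ f w) : DifferentiableOn ℂ f U := by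
  rw [← Complex.isConservativeOn_and_continuousOn_iff_isDifferentiableOn hU]
  refine ⟨?_, hc⟩
  intro z w hzw
  have hR : [[z.re, w.re]] ×ℂ [[z.im, w.im]] ⊆ U := hzw
  rw [← add_eq_zero_iff_eq_neg, Complex.wedgeIntegral_add_wedgeIntegral_eq]
  by_cases h0 : (0 : ℝ) ∈ Ioo (min z.im w.im) (max z.im w.im)
  · have h0' : (0 : ℝ) ∈ [[z.im, w.im]] := Ioo_subset_Icc_self h0
    -- the two halves
    have hA : [[z.re, w.re]] ×ℂ [[z.im, (0 : ℝ)]] ⊆ U := by
      refine Subset.trans ?_ hR
      intro p hp
      exact ⟨hp.1, uIcc_subset_uIcc left_mem_uIcc h0' hp.2⟩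
    have hB : [[z.re, w.re]] ×ℂ [[(0 : ℝ), w.im]] ⊆ U := by
      refine Subset.trans ?_ hR
      intro p hp
      exact ⟨hp.1, uIcc_subset_uIcc h0' right_mem_uIcc hp.2⟩
    have e1 := glueA_rect hc hd z ⟨w.re, 0⟩ hA (by
      intro h
      rcases le_total z.im 0 with h1 | h1
      · rw [max_eq_right h1] at h
        exact lt_irrefl _ h.2
      · rw [min_eq_right h1] at h
        exact lt_irrefl _ h.1)
    have e2 := glueA_rect hc hd ⟨z.re, 0⟩ w hB (by
      intro h
      rcases le_total 0 w.im with h1 | h1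
      · have h2 : min (0 : ℝ) w.im = 0 := min_eq_left h1
        exact absurd h.1 (by simp only; rw [h2]; exact lt_irrefl _)
      · have h2 : max (0 : ℝ) w.im = 0 := max_eq_left h1
        exact absurd h.2 (by simp only; rw [h2]; exact lt_irrefl _))
    simp only at e1 e2
    -- integrability on the vertical sides
    have vert : ∀ a b c : ℝ, a ∈ [[z.re, w.re]] → [[b, c]] ⊆ [[z.im, w.im]] →
        IntervalIntegrable (fun y : ℝ => f (a + y * I)) volume b c := by
      intro a b c ha hbc
      refine ContinuousOn.intervalIntegrable ?_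
      refine hc.comp (by fun_prop) ?_
      intro y hy
      apply hR
      refine ⟨?_, ?_⟩
      · simpa using ha
      · simpa using hbc hy
    have s1 : [[z.im, (0 : ℝ)]] ⊆ [[z.im, w.im]] := uIcc_subset_uIcc left_mem_uIcc h0'
    have s2 : [[(0 : ℝ), w.im]] ⊆ [[z.im, w.im]] := uIcc_subset_uIcc h0' right_mem_uIcc
    have i1 := intervalIntegral.integral_add_adjacent_intervals
      (vert w.re z.im 0 right_mem_uIcc s1) (vert w.re 0 w.im right_mem_uIcc s2)
    have i2 := intervalIntegral.integral_add_adjacent_intervals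
      (vert z.re z.im 0 left_mem_uIcc s1) (vert z.re 0 w.im left_mem_uIcc s2)
    rw [← i1, ← i2, smul_add, smul_add]
    have e3 := congrArg₂ (· + ·) e1 e2
    simp only [add_zero] at e3
    rw [← e3]
    ring
  · exact glueA_rect hc hd z w hR h0

end MP_9d6c91_an
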