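import Pool.Agent.Lib.MP_9d6c91_an.Act

/-!
# JOB HB : Hahn-Banach for closed subspaces of the Gevrey class

Let `w k n = exp (-n^β / (k+1))`.  Claim: there are `ε_1, ε_2, ... > 0` such that with
`ρ n = max_k ε_k w k n` no `a ∈ I` satisfies `|a n - g n| ≤ ρ n` for all `n`.  The `ε_k` are chosen
one after the other, by compactness for pointwise convergence (on sets bounded by `C w k` it is
convergence in the norm with weight `w (k+1)`).
Then the weighted sup norm `sup |a n| / ρ n` is finite on `Gv β`, `g` has distance at least `1` from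
`I`, and the Hahn-Banach theorem in the Banach space of bounded sequences gives the functional.
-/

set_option autoImplicit false

open MeasureTheory Complex Filter Topology Set
open scoped ENNReal Real

namespace MP_9d6c91_an

/-- a point at positive distance from a subspace is separated from it -/
private theorem hb_normed {E : Type*} [NormedAddCommGroup E] [NormedSpace ℂ E]
    (p : Submodule ℂ E) (x : E) (r : ℝ) (hr : 0 < r) (hx : ∀ y ∈ p, r ≤ ‖x - y‖) :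
    ∃ f : StrongDual ℂ E, (∀ y ∈ p, f y = 0) ∧ f x ≠ 0 := by
  have hne : ‖(Submodule.Quotient.mk x : E ⧸ p)‖ ≠ 0 := by
    intro h0
    obtain ⟨m, hm, hlt⟩ := Submodule.Quotient.norm_mk_lt (Submodule.Quotient.mk x : E ⧸ p) hr
    rw [h0, zero_add] at hlt
    have h1 : x - m ∈ p := (Submodule.Quotient.eq p).1 hm.symm
    have h2 := hx _ h1
    rw [sub_sub_cancel] at h2
    linarith
  obtain ⟨f, hf, hfx⟩ := exists_dual_vector ℂ (Submodule.Quotient.mk x : E ⧸ p) hne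
  refine ⟨f.comp p.mkQL, ?_, ?_⟩
  · intro y hy
    have h1 : p.mkQL y = 0 := by
      rw [Submodule.mkQL_apply, Submodule.mkQ_apply]
      exact (Submodule.Quotient.mk_eq_zero p).2 hy
    rw [ContinuousLinearMap.comp_apply, h1, map_zero]
  · rw [ContinuousLinearMap.comp_apply, Submodule.mkQL_apply, Submodule.mkQ_apply, hfx]
    intro h
    exact hne (RCLike.ofReal_eq_zero.1 h)

/-- Hahn-Banach for a weighted sup norm -/
private theorem hb_weight (I : Set (ℕ → ℂ)) (h0 : (0 : ℕ → ℂ) ∈ I)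
    (hadd : ∀ a ∈ I, ∀ b ∈ I, a + b ∈ I) (hsmul : ∀ (c : ℂ), ∀ a ∈ I, c • a ∈ I)
    (ρ : ℕ → ℝ) (hρ : ∀ n, 0 < ρ n) (hI : ∀ a ∈ I, Summable fun n => ‖a n‖ / ρ n)
    (g : ℕ → ℂ) (hg : Summable fun n => ‖g n‖ / ρ n)
    (hd : ∀ a ∈ I, ∃ n, ρ n < ‖a n - g n‖) :
    ∃ (c : ℕ → ℂ) (K : ℝ), (∀ n, ‖c n‖ ≤ K / ρ n) ∧ (∀ a ∈ I, ∑' n, a n * c n = 0) ∧
      ∑' n, g n * c n ≠ 0 := by
  classical
  -- the bounded sequence attached to a summable one
  have hT : ∀ a : ℕ → ℂ, (Summable fun n => ‖a n‖ / ρ n) →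
      ∃ x : lp (fun _ : ℕ => ℂ) ∞, ∀ n, x n = a n / (ρ n : ℂ) := by
    intro a ha
    have hb : Memℓp (fun n => a n / (ρ n : ℂ)) ∞ := by
      refine memℓp_infty ⟨∑' n, ‖a n‖ / ρ n, ?_⟩
      rintro _ ⟨n, rfl⟩
      have h1 : ‖a n / (ρ n : ℂ)‖ = ‖a n‖ / ρ n := by
        rw [norm_div, Complex.norm_real, Real.norm_of_nonneg (hρ n).le]
      change ‖a n / (ρ n : ℂ)‖ ≤ _
      rw [h1]
      exact ha.le_tsum n (fun m _ => div_nonneg (norm_nonneg _) (hρ m).le)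
    exact ⟨⟨_, hb⟩, fun n => rfl⟩
  let p : Submodule ℂ (lp (fun _ : ℕ => ℂ) ∞) :=
    { carrier := {x | ∃ a ∈ I, ∀ n, x n = a n / (ρ n : ℂ)}
      add_mem' := by
        rintro x y ⟨a, ha, hxa⟩ ⟨b, hb, hyb⟩
        refine ⟨a + b, hadd a ha b hb, fun n => ?_⟩
        rw [lp.coeFn_add, Pi.add_apply, hxa, hyb, Pi.add_apply, add_div]
      zero_mem' := ⟨0, h0, fun n => by simp⟩
      smul_mem' := by
        rintro c x ⟨a, ha, hxa⟩
        refine ⟨c • a, hsmul c a ha, fun n => ?_⟩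
        rw [lp.coeFn_smul, Pi.smul_apply, hxa, Pi.smul_apply, smul_eq_mul, smul_eq_mul,
          mul_div_assoc] }
  obtain ⟨G, hG⟩ := hT g hg
  have hdist : ∀ y ∈ p, (1 : ℝ) ≤ ‖G - y‖ := by
    rintro y ⟨a, ha, hya⟩
    obtain ⟨n, hn⟩ := hd a ha
    have h1 := lp.norm_apply_le_norm ENNReal.top_ne_zero (G - y) n
    refine le_trans ?_ h1
    rw [lp.coeFn_sub, Pi.sub_apply, hG, hya, ← sub_div, norm_div, Complex.norm_real,
      Real.norm_of_nonneg (hρ n).le, le_div_iff₀ (hρ n), one_mul, norm_sub_rev]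
    exact hn.le
  obtain ⟨f, hfp, hfG⟩ := hb_normed p G 1 one_pos hdist
  let e : ℕ → lp (fun _ : ℕ => ℂ) ∞ := fun n => lp.single ∞ n (1 : ℂ)
  have he : ∀ n, ‖e n‖ = 1 := by
    intro n
    rw [lp.norm_single (by simp)]
    simp
  have heval : ∀ (n k : ℕ), e n k = if k = n then 1 else 0 := by
    intro n k
    by_cases h : k = n
    · subst h
      rw [if_pos rfl]
      exact lp.single_apply_self _ _ _
    · rw [if_neg h]
      exact lp.single_apply_ne _ _ _ h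
  have hsum : ∀ a : ℕ → ℂ, (Summable fun n => ‖a n‖ / ρ n) →
      ∀ x : lp (fun _ : ℕ => ℂ) ∞, (∀ n, x n = a n / (ρ n : ℂ)) →
      HasSum (fun n => a n * (f (e n) / (ρ n : ℂ))) (f x) := by
    intro a ha x hx
    have h1 : Summable fun n => ((a n / (ρ n : ℂ)) • e n) := by
      refine Summable.of_norm ?_
      refine ha.congr (fun n => ?_)
      rw [norm_smul, he, mul_one, norm_div, Complex.norm_real, Real.norm_of_nonneg (hρ n).le]
    have h2 : ∑' n, ((a n / (ρ n : ℂ)) • e n) = x := by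
      ext k
      have h3 := (h1.hasSum.mapL (lp.evalCLM ℂ (fun _ : ℕ => ℂ) ∞ k)).tsum_eq
      have h4 : ∀ y : lp (fun _ : ℕ => ℂ) ∞, lp.evalCLM ℂ (fun _ : ℕ => ℂ) ∞ k y = y k :=
        fun y => rfl
      rw [h4] at h3
      rw [← h3, tsum_eq_single k]
      · rw [h4, lp.coeFn_smul, Pi.smul_apply, heval, if_pos rfl, hx, smul_eq_mul, mul_one]
      · intro n hn
        rw [h4, lp.coeFn_smul, Pi.smul_apply, heval, if_neg hn.symm, smul_zero]
    have h5 := h1.hasSum.mapL f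
    rw [h2] at h5
    refine h5.congr_fun ?_ |> id
    intro n
    rw [map_smul, smul_eq_mul]
    ring
  refine ⟨fun n => f (e n) / (ρ n : ℂ), ‖f‖, ?_, ?_, ?_⟩
  · intro n
    rw [norm_div, Complex.norm_real, Real.norm_of_nonneg (hρ n).le]
    gcongr
    · exact (hρ n).le
    · have := f.le_opNorm (e n)
      rwa [he, mul_one] at this
  · intro a ha
    obtain ⟨x, hx⟩ := hT a (hI a ha)
    rw [(hsum a (hI a ha) x hx).tsum_eq]
    exact hfp x ⟨a, ha, hx⟩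
  · rw [(hsum g hg G hG).tsum_eq]
    exact hfG

/-- the weights -/
private noncomputable def hbw (β : ℝ) (k : ℕ) (n : ℕ) : ℝ := Real.exp (-(1 / ((k : ℝ) + 1)) * (n : ℝ) ^ β)

private theorem hbw_pos (β : ℝ) (k n : ℕ) : 0 < hbw β k n := Real.exp_pos _

private theorem hbw_mono (β : ℝ) (k n : ℕ) : hbw β k n ≤ hbw β (k + 1) n := by
  unfold hbw
  apply Real.exp_le_exp.2
  have h1 : (0 : ℝ) ≤ (n : ℝ) ^ β := Real.rpow_nonneg (Nat.cast_nonneg n) β
  have h2 : 1 / (((k + 1 : ℕ) : ℝ) + 1) ≤ 1 / ((k : ℝ) + 1) := by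
    apply one_div_le_one_div_of_le (by positivity)
    push_cast
    linarith
  nlinarith

/-- a weight with larger exponent is eventually small with respect to another one -/
private theorem hb_small {β : ℝ} (hβ : 0 < β) {δ δ' : ℝ} (hδ : δ < δ') (D ε : ℝ) (hε : 0 < ε) :
    ∃ N : ℕ, ∀ n ≥ N, D * Real.exp (-δ' * (n : ℝ) ^ β) ≤ ε * Real.exp (-δ * (n : ℝ) ^ β) := by
  have h1 : Tendsto (fun n : ℕ => D * Real.exp (-(δ' - δ) * (n : ℝ) ^ β)) atTop (𝓝 (D * 0)) := by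
    refine Tendsto.const_mul _ (Real.tendsto_exp_atBot.comp ?_)
    have h2 : Tendsto (fun n : ℕ => (n : ℝ) ^ β) atTop atTop :=
      (tendsto_rpow_atTop hβ).comp tendsto_natCast_atTop_atTop
    exact h2.const_mul_atTop_of_neg (by linarith)
  rw [mul_zero] at h1
  obtain ⟨N, hN⟩ := Filter.eventually_atTop.1 (h1.eventually_lt_const hε)
  refine ⟨N, fun n hn => ?_⟩
  have h3 := (hN n hn).le
  have h4 : Real.exp (-δ' * (n : ℝ) ^ β) =
      Real.exp (-(δ' - δ) * (n : ℝ) ^ β) * Real.exp (-δ * (n : ℝ) ^ β) := by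
    rw [← Real.exp_add]
    congr 1
    ring
  rw [h4, ← mul_assoc]
  exact mul_le_mul_of_nonneg_right h3 (Real.exp_pos _).le

private theorem hb_step {β : ℝ} (hβ : 0 < β) {I : Set (ℕ → ℂ)}
    (hcl : ∀ (A δ : ℝ), 0 < δ → ∀ (u : ℕ → ℕ → ℂ) (a : ℕ → ℂ), (∀ m, u m ∈ I) → GvC β A δ a →
      (∀ ε : ℝ, 0 < ε → ∃ M : ℕ, ∀ m ≥ M, ∀ n : ℕ,
        ‖u m n - a n‖ ≤ ε * Real.exp (-δ * (n : ℝ) ^ β)) → a ∈ I)
    {g : ℕ → ℂ} (hg : Gv β g) (k : ℕ) (ρ : ℕ → ℝ) (C : ℝ) (hρ0 : ∀ n, 0 ≤ ρ n)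
    (hρ : ∀ n, ρ n ≤ C * hbw β k n) (hI : ∀ a ∈ I, ∃ n, ρ n < ‖a n - g n‖) (η : ℝ) (hη : 0 < η) :
    ∃ ε : ℝ, 0 < ε ∧ ε ≤ η ∧ ∀ a ∈ I, ∃ n, max (ρ n) (ε * hbw β (k + 1) n) < ‖a n - g n‖ := by
  by_contra hcon
  push Not at hcon
  have hex : ∀ m : ℕ, ∃ a ∈ I, ∀ n, ‖a n - g n‖ ≤
      max (ρ n) (η / ((m : ℝ) + 1) * hbw β (k + 1) n) := by
    intro m
    refine hcon _ (by positivity) ?_
    apply div_le_self hη.le
    linarith [(Nat.cast_nonneg m : (0 : ℝ) ≤ m)]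
  choose u huI hu using hex
  set w : ℕ → ℝ := hbw β (k + 1) with hw
  have hw0 : ∀ n, 0 < w n := fun n => hbw_pos _ _ _
  have hu1 : ∀ m n, ‖u m n - g n‖ ≤ max (ρ n) (η * w n) := by
    intro m n
    refine (hu m n).trans (max_le_max le_rfl ?_)
    apply mul_le_mul_of_nonneg_right _ (hw0 n).le
    apply div_le_self hη.le
    linarith [(Nat.cast_nonneg m : (0 : ℝ) ≤ m)]
  have hK : IsCompact (Set.pi Set.univ fun n => Metric.closedBall (g n) (max (ρ n) (η * w n))) :=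
    isCompact_univ_pi fun n => isCompact_closedBall _ _
  obtain ⟨a, -, φ, hφ, hlim⟩ := hK.tendsto_subseq (x := u) (by
    intro m n _
    rw [Metric.mem_closedBall, dist_eq_norm]
    exact hu1 m n)
  have hpt : ∀ n, Tendsto (fun m => u (φ m) n) atTop (𝓝 (a n)) := fun n => tendsto_pi_nhds.1 hlim n
  have hρa : ∀ n, ‖a n - g n‖ ≤ ρ n := by
    intro n
    have h1 : Tendsto (fun m => ‖u (φ m) n - g n‖) atTop (𝓝 ‖a n - g n‖) :=
      ((hpt n).sub_const _).norm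
    have h2 : Tendsto (fun m : ℕ => max (ρ n) (η / (((φ m : ℕ) : ℝ) + 1) * w n)) atTop
        (𝓝 (max (ρ n) (0 * w n))) := by
      refine tendsto_const_nhds.max (Tendsto.mul_const _ ?_)
      have h3 : Tendsto (fun m : ℕ => ((φ m : ℕ) : ℝ) + 1) atTop atTop :=
        tendsto_atTop_add_const_right _ _ (tendsto_natCast_atTop_atTop.comp hφ.tendsto_atTop)
      exact h3.const_div_atTop η
    rw [zero_mul, max_eq_left (hρ0 n)] at h2
    exact le_of_tendsto_of_tendsto' h1 h2 (fun m => hu (φ m) n)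
  -- the limit is in `I`
  have hC : 0 ≤ C := by
    by_contra h
    push Not at h
    have h1 := hρ 0
    have h2 := hρ0 0
    have h3 := mul_neg_of_neg_of_pos h (hbw_pos β k 0)
    linarith
  obtain ⟨A, δg, hδg, hgA⟩ := hg
  have hA : 0 ≤ A := by
    by_contra h
    push Not at h
    have h1 := (norm_nonneg _).trans (hgA 0)
    have h3 := mul_neg_of_neg_of_pos h (Real.exp_pos (-δg * ((0 : ℕ) : ℝ) ^ β))
    linarith
  set δ : ℝ := min δg (1 / ((k : ℝ) + 3)) with hδ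
  have hδ0 : 0 < δ := lt_min hδg (by positivity)
  have hδ1 : δ < 1 / (((k + 1 : ℕ) : ℝ) + 1) := by
    refine (min_le_right _ _).trans_lt ?_
    apply one_div_lt_one_div_of_lt (by positivity)
    push_cast
    linarith
  have hρw : ∀ n, ρ n ≤ C * w n := fun n =>
    (hρ n).trans (mul_le_mul_of_nonneg_left (hbw_mono β k n) hC)
  have hexp : ∀ (δ' : ℝ), δ ≤ δ' → ∀ n : ℕ,
      Real.exp (-δ' * (n : ℝ) ^ β) ≤ Real.exp (-δ * (n : ℝ) ^ β) := by
    intro δ' h n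
    apply Real.exp_le_exp.2
    have h1 : (0 : ℝ) ≤ (n : ℝ) ^ β := Real.rpow_nonneg (Nat.cast_nonneg n) β
    nlinarith
  have haI : a ∈ I := by
    refine hcl (A + C) δ hδ0 (fun m => u (φ m)) a (fun m => huI _) ?_ ?_
    · intro n
      calc ‖a n‖ = ‖g n + (a n - g n)‖ := by congr 1; ring
        _ ≤ ‖g n‖ + ‖a n - g n‖ := norm_add_le _ _
        _ ≤ A * Real.exp (-δg * (n : ℝ) ^ β) + C * w n :=
            add_le_add (hgA n) ((hρa n).trans (hρw n))
        _ ≤ A * Real.exp (-δ * (n : ℝ) ^ β) + C * Real.exp (-δ * (n : ℝ) ^ β) :=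
            add_le_add (mul_le_mul_of_nonneg_left (hexp _ (min_le_left _ _) n) hA)
              (mul_le_mul_of_nonneg_left (hexp _ hδ1.le n) hC)
        _ = _ := by ring
    · intro ε hε
      obtain ⟨N, hN⟩ := hb_small hβ hδ1 (2 * (C + η)) ε hε
      have h1 : ∀ᶠ m in atTop, ∀ n ∈ Finset.range N,
          ‖u (φ m) n - a n‖ ≤ ε * Real.exp (-δ * (n : ℝ) ^ β) := by
        rw [Filter.eventually_all_finset]
        intro n _
        have h2 : Tendsto (fun m => ‖u (φ m) n - a n‖) atTop (𝓝 ‖a n - a n‖) :=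
          ((hpt n).sub_const _).norm
        rw [sub_self, norm_zero] at h2
        exact (h2.eventually_lt_const (mul_pos hε (Real.exp_pos _))).mono fun m hm => hm.le
      obtain ⟨M, hM⟩ := Filter.eventually_atTop.1 h1
      refine ⟨M, fun m hm n => ?_⟩
      by_cases hn : n < N
      · exact hM m hm n (Finset.mem_range.2 hn)
      · push Not at hn
        refine le_trans ?_ (hN n hn)
        have h3 : max (ρ n) (η * w n) ≤ (C + η) * w n := by
          have := hρw n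
          have := (hw0 n).le
          have h4 : 0 ≤ C * w n := mul_nonneg hC this
          have h5 : 0 ≤ η * w n := mul_nonneg hη.le this
          apply max_le
          · linarith
          · linarith
        have h4 : ‖a n - g n‖ ≤ (C + η) * w n :=
          ((hρa n).trans (le_max_left _ _)).trans h3
        have h5 := (hu1 (φ m) n).trans h3
        calc ‖u (φ m) n - a n‖ = ‖(u (φ m) n - g n) - (a n - g n)‖ := by congr 1; ring
          _ ≤ ‖u (φ m) n - g n‖ + ‖a n - g n‖ := norm_sub_le _ _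
          _ ≤ (C + η) * w n + (C + η) * w n := add_le_add h5 h4
          _ = 2 * (C + η) * w n := by ring
  obtain ⟨n, hn⟩ := hI a haI
  exact absurd (hρa n) (not_le.2 hn)

/-- a stage of the construction -/
private structure HBS (β : ℝ) (I : Set (ℕ → ℂ)) (g : ℕ → ℂ) (k : ℕ) where
  r : ℕ → ℝ
  C : ℝ
  nonneg : ∀ n, 0 ≤ r n
  le : ∀ n, r n ≤ C * hbw β k n
  sep : ∀ a ∈ I, ∃ n, r n < ‖a n - g n‖

private theorem hb_next {β : ℝ} (hβ : 0 < β) {I : Set (ℕ → ℂ)}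
    (hcl : ∀ (A δ : ℝ), 0 < δ → ∀ (u : ℕ → ℕ → ℂ) (a : ℕ → ℂ), (∀ m, u m ∈ I) → GvC β A δ a →
      (∀ ε : ℝ, 0 < ε → ∃ M : ℕ, ∀ m ≥ M, ∀ n : ℕ,
        ‖u m n - a n‖ ≤ ε * Real.exp (-δ * (n : ℝ) ^ β)) → a ∈ I)
    {g : ℕ → ℂ} (hg : Gv β g) (k : ℕ) (S : HBS β I g k) :
    ∃ (T : HBS β I g (k + 1)) (ε : ℝ), 0 < ε ∧ ε ≤ (1 / 2 : ℝ) ^ k ∧
      ∀ n, T.r n = max (S.r n) (ε * hbw β (k + 1) n) := by
  obtain ⟨ε, hε, hεk, hsep⟩ := hb_step hβ hcl hg k S.r S.C S.nonneg S.le S.sep ((1 / 2 : ℝ) ^ k)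
    (by positivity)
  refine ⟨⟨fun n => max (S.r n) (ε * hbw β (k + 1) n), |S.C| + ε,
    fun n => (S.nonneg n).trans (le_max_left _ _), ?_, hsep⟩, ε, hε, hεk, fun n => rfl⟩
  intro n
  have h1 := hbw_pos β k n
  have h2 := hbw_pos β (k + 1) n
  have h3 : S.r n ≤ |S.C| * hbw β (k + 1) n :=
    (S.le n).trans ((mul_le_mul_of_nonneg_right (le_abs_self _) h1.le).trans
      (mul_le_mul_of_nonneg_left (hbw_mono β k n) (abs_nonneg _)))
  have h4 : 0 ≤ |S.C| * hbw β (k + 1) n := mul_nonneg (abs_nonneg _) h2.le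
  have h5 : 0 ≤ ε * hbw β (k + 1) n := mul_nonneg hε.le h2.le
  rw [add_mul]
  apply max_le <;> linarith

/-- the final weight -/
private theorem hb_final {β : ℝ} (hβ : 0 < β) {I : Set (ℕ → ℂ)}
    (hGv : ∀ a ∈ I, Gv β a)
    (hcl : ∀ (A δ : ℝ), 0 < δ → ∀ (u : ℕ → ℕ → ℂ) (a : ℕ → ℂ), (∀ m, u m ∈ I) → GvC β A δ a →
      (∀ ε : ℝ, 0 < ε → ∃ M : ℕ, ∀ m ≥ M, ∀ n : ℕ,
        ‖u m n - a n‖ ≤ ε * Real.exp (-δ * (n : ℝ) ^ β)) → a ∈ I)
    {g : ℕ → ℂ} (hg : Gv β g) (hgI : g ∉ I) :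
    ∃ r : ℕ → ℝ, (∀ n, 0 < r n) ∧
      (∀ δ : ℝ, 0 < δ → ∃ ε : ℝ, 0 < ε ∧ ∀ n : ℕ, ε * Real.exp (-δ * (n : ℝ) ^ β) ≤ r n) ∧
      ∀ a ∈ I, ∃ n, r n < ‖a n - g n‖ := by
  classical
  have S0 : HBS β I g 0 := by
    refine ⟨fun _ => 0, 0, fun _ => le_rfl, fun n => by simp, ?_⟩
    intro a ha
    by_contra hcon
    push Not at hcon
    apply hgI
    have : a = g := by
      funext n
      exact sub_eq_zero.1 (norm_le_zero_iff.1 (hcon n))
    rwa [← this]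
  let R : ∀ k, HBS β I g k := fun k =>
    Nat.rec S0 (fun k S => Classical.choose (hb_next hβ hcl hg k S)) k
  have hR : ∀ k, ∃ ε : ℝ, 0 < ε ∧ ε ≤ (1 / 2 : ℝ) ^ k ∧
      ∀ n, (R (k + 1)).r n = max ((R k).r n) (ε * hbw β (k + 1) n) := fun k =>
    Classical.choose_spec (hb_next hβ hcl hg k (R k))
  choose ε hε hεk hRn using hR
  have hmono : ∀ n, Monotone fun k => (R k).r n := fun n =>
    monotone_nat_of_le_succ fun k => by
      rw [hRn]
      exact le_max_left _ _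
  have hlow : ∀ k n, ε k * hbw β (k + 1) n ≤ (R (k + 1)).r n := fun k n => by
    rw [hRn]
    exact le_max_right _ _
  have hw1 : ∀ k n, hbw β k n ≤ 1 := by
    intro k n
    unfold hbw
    apply Real.exp_le_one_iff.2
    have h1 : (0 : ℝ) ≤ (n : ℝ) ^ β := Real.rpow_nonneg (Nat.cast_nonneg n) β
    have h2 : (0 : ℝ) ≤ 1 / ((k : ℝ) + 1) := by positivity
    nlinarith
  have hpos : ∀ n, 0 < (R 1).r n := fun n =>
    (mul_pos (hε 0) (hbw_pos β 1 n)).trans_le (hlow 0 n)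
  -- the stages stabilise at each `n`
  have hstab : ∀ n, ∃ K, ∀ k ≥ K, (R k).r n = (R K).r n := by
    intro n
    obtain ⟨K, hK⟩ := exists_pow_lt_of_lt_one (hpos n) (by norm_num : (1 / 2 : ℝ) < 1)
    refine ⟨K + 1, fun k hk => ?_⟩
    induction k, hk using Nat.le_induction with
    | base => rfl
    | succ k hk ih =>
      rw [hRn, ih]
      apply max_eq_left
      have h1 : ε k * hbw β (k + 1) n ≤ (1 / 2 : ℝ) ^ k * 1 :=
        mul_le_mul (hεk k) (hw1 _ _) (hbw_pos _ _ _).le (by positivity)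
      have h2 : (1 / 2 : ℝ) ^ k ≤ (1 / 2 : ℝ) ^ K :=
        pow_le_pow_of_le_one (by norm_num) (by norm_num) (by omega)
      have h3 : (R 1).r n ≤ (R (K + 1)).r n := hmono n (by omega)
      linarith
  choose K hK using hstab
  have hup : ∀ k n, (R k).r n ≤ (R (K n)).r n := by
    intro k n
    rcases le_total k (K n) with h | h
    · exact hmono n h
    · exact (hK n k h).le
  refine ⟨fun n => (R (K n)).r n, fun n => (hpos n).trans_le (hup 1 n), ?_, ?_⟩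
  · intro δ hδ
    obtain ⟨k, hk⟩ := exists_nat_one_div_lt hδ
    refine ⟨ε k, hε k, fun n => ?_⟩
    refine le_trans ?_ ((hlow k n).trans (hup (k + 1) n))
    apply mul_le_mul_of_nonneg_left _ (hε k).le
    unfold hbw
    apply Real.exp_le_exp.2
    have h1 : (0 : ℝ) ≤ (n : ℝ) ^ β := Real.rpow_nonneg (Nat.cast_nonneg n) β
    have h2 : 1 / (((k + 1 : ℕ) : ℝ) + 1) ≤ 1 / ((k : ℝ) + 1) := by
      apply one_div_le_one_div_of_le (by positivity)
      push_cast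
      linarith
    nlinarith
  · intro a ha
    by_contra hcon
    push Not at hcon
    obtain ⟨A, δ, hδ, hA⟩ := (hGv a ha).sub hg
    obtain ⟨k, hk⟩ := exists_nat_one_div_lt hδ
    have hk' : 1 / (((k + 1 : ℕ) : ℝ) + 1) < δ := by
      refine lt_of_le_of_lt ?_ hk
      apply one_div_le_one_div_of_le (by positivity)
      push_cast
      linarith
    obtain ⟨N, hN⟩ := hb_small hβ hk' A (ε k) (hε k)
    obtain ⟨n, hn⟩ := (R (max (k + 1) ((Finset.range N).sup K))).sep a ha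
    apply absurd hn (not_lt.2 _)
    by_cases h : n < N
    · refine (hcon n).trans (hmono n ?_)
      exact (Finset.le_sup (Finset.mem_range.2 h)).trans (le_max_right _ _)
    · push Not at h
      have h1 := hA n
      rw [Pi.sub_apply] at h1
      exact h1.trans ((hN n h).trans ((hlow k n).trans (hmono n (le_max_left _ _))))

theorem hahn {β : ℝ} (hβ : 0 < β) (hβ1 : β ≤ 1) (I : Set (ℕ → ℂ)) (h0 : (0 : ℕ → ℂ) ∈ I)
    (hadd : ∀ a ∈ I, ∀ b ∈ I, a + b ∈ I) (hsmul : ∀ (c : ℂ), ∀ a ∈ I, c • a ∈ I)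
    (hGv : ∀ a ∈ I, Gv β a)
    (hcl : ∀ (A δ : ℝ), 0 < δ → ∀ (u : ℕ → ℕ → ℂ) (a : ℕ → ℂ), (∀ m, u m ∈ I) → GvC β A δ a →
      (∀ ε : ℝ, 0 < ε → ∃ M : ℕ, ∀ m ≥ M, ∀ n : ℕ,
        ‖u m n - a n‖ ≤ ε * Real.exp (-δ * (n : ℝ) ^ β)) → a ∈ I)
    {g : ℕ → ℂ} (hg : Gv β g) (hgI : g ∉ I) :
    ∃ c : ℕ → ℂ, Gd β c ∧ (∀ a ∈ I, act a c 0 = 0) ∧ act g c 0 ≠ 0 := by
  have _ := hβ1
  obtain ⟨r, hr0, hrlow, hsep⟩ := hb_final hβ hGv hcl hg hgI
  have hsum : ∀ a : ℕ → ℂ, Gv β a → Summable fun n => ‖a n‖ / r n := by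
    rintro a ⟨A, δ, hδ, hA⟩
    obtain ⟨ε, hε, hεr⟩ := hrlow (δ / 2) (half_pos hδ)
    refine Summable.of_nonneg_of_le (fun n => div_nonneg (norm_nonneg _) (hr0 n).le) (fun n => ?_)
      ((summable_exp_neg hβ (half_pos hδ)).mul_left (A / ε))
    have h1 : 0 < ε * Real.exp (-(δ / 2) * (n : ℝ) ^ β) := mul_pos hε (Real.exp_pos _)
    calc ‖a n‖ / r n ≤ ‖a n‖ / (ε * Real.exp (-(δ / 2) * (n : ℝ) ^ β)) :=
          div_le_div_of_nonneg_left (norm_nonneg _) h1 (hεr n)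
      _ ≤ (A * Real.exp (-δ * (n : ℝ) ^ β)) / (ε * Real.exp (-(δ / 2) * (n : ℝ) ^ β)) :=
          div_le_div_of_nonneg_right (hA n) h1.le
      _ = A / ε * Real.exp (-(δ / 2) * (n : ℝ) ^ β) := by
          have h2 : Real.exp (-δ * (n : ℝ) ^ β) =
              Real.exp (-(δ / 2) * (n : ℝ) ^ β) * Real.exp (-(δ / 2) * (n : ℝ) ^ β) := by
            rw [← Real.exp_add]
            congr 1
            ring
          rw [h2]
          field_simp
  obtain ⟨c, K, hcK, hcI, hcg⟩ := hb_weight I h0 hadd hsmul r hr0 (fun a ha => hsum a (hGv a ha))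
    g (hsum g hg) hsep
  refine ⟨c, ?_, hcI, hcg⟩
  intro ε hε
  obtain ⟨η, hη, hηr⟩ := hrlow ε hε
  have hK : 0 ≤ K := by
    have h1 := (norm_nonneg _).trans (hcK 0)
    rwa [le_div_iff₀ (hr0 0), zero_mul] at h1
  refine ⟨K / η, fun n => (hcK n).trans ?_⟩
  have h1 : 0 < η * Real.exp (-ε * (n : ℝ) ^ β) := mul_pos hη (Real.exp_pos _)
  calc K / r n ≤ K / (η * Real.exp (-ε * (n : ℝ) ^ β)) :=
        div_le_div_of_nonneg_left hK h1 (hηr n)
    _ = K / η * Real.exp (ε * (n : ℝ) ^ β) := by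
        have h2 : Real.exp (ε * (n : ℝ) ^ β) = (Real.exp (-ε * (n : ℝ) ^ β))⁻¹ := by
          rw [← Real.exp_neg]
          congr 1
          ring
        rw [h2]
        field_simp

end MP_9d6c91_an
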