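import Pool.Agent.Lib.MP_9d6c91_an.Defs

/-!
# JOB SEQB : power series with rapidly decreasing coefficients

All elementary.  `(x + y)^β ≤ x^β + y^β` for `0 < β ≤ 1` gives the product estimate
`|∑_{k≤n} a_k b_(n-k)| ≤ (n+1) A A' exp (-min δ δ' n^β) ≤ C exp (-(min δ δ' / 2) n^β)`.
-/

set_option autoImplicit false

open MeasureTheory Complex Filter Topology Set
open scoped ENNReal Real

namespace MP_9d6c91_an

theorem ev_zero' (z : ℂ) : ev 0 z = 0 := by
  simp [ev]

theorem ev_one1 (z : ℂ) : ev one1 z = 1 := by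
  unfold ev
  rw [tsum_eq_single 0]
  · simp [one1]
  · intro n hn
    simp [one1, hn]

private theorem seqB_summable {a : ℕ → ℂ} (ha : Summable fun n => ‖a n‖) {z : ℂ} (hz : ‖z‖ ≤ 1) :
    Summable fun n => ‖a n * z ^ n‖ := by
  refine Summable.of_nonneg_of_le (fun n => norm_nonneg _) (fun n => ?_) ha
  rw [norm_mul, norm_pow]
  exact mul_le_of_le_one_right (norm_nonneg _) (pow_le_one₀ (norm_nonneg _) hz)

private theorem seqB_summable_bdd {a : ℕ → ℂ} {B : ℝ} (ha : ∀ n, ‖a n‖ ≤ B) {z : ℂ}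
    (hz : ‖z‖ < 1) : Summable fun n => ‖a n * z ^ n‖ := by
  refine Summable.of_nonneg_of_le (fun n => norm_nonneg _) (fun n => ?_)
    ((summable_geometric_of_lt_one (norm_nonneg z) hz).mul_left B)
  rw [norm_mul, norm_pow]
  exact mul_le_mul_of_nonneg_right (ha n) (pow_nonneg (norm_nonneg _) _)

theorem ev_add {a b : ℕ → ℂ} (ha : Summable fun n => ‖a n‖) (hb : Summable fun n => ‖b n‖) {z : ℂ}
    (hz : ‖z‖ ≤ 1) : ev (a + b) z = ev a z + ev b z := by
  unfold ev
  rw [← (seqB_summable ha hz).of_norm.tsum_add (seqB_summable hb hz).of_norm]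
  congr 1
  funext n
  simp [add_mul]

theorem ev_sub {a b : ℕ → ℂ} (ha : Summable fun n => ‖a n‖) (hb : Summable fun n => ‖b n‖) {z : ℂ}
    (hz : ‖z‖ ≤ 1) : ev (a - b) z = ev a z - ev b z := by
  unfold ev
  rw [← (seqB_summable ha hz).of_norm.tsum_sub (seqB_summable hb hz).of_norm]
  congr 1
  funext n
  simp [sub_mul]

theorem ev_smul (c : ℂ) (a : ℕ → ℂ) (z : ℂ) : ev (c • a) z = c * ev a z := by
  unfold ev
  rw [← tsum_mul_left]
  congr 1
  funext n
  simp [mul_assoc]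

private theorem seqB_ev_cmul {a b : ℕ → ℂ} {z : ℂ} (ha : Summable fun n => ‖a n * z ^ n‖)
    (hb : Summable fun n => ‖b n * z ^ n‖) : ev (cmul a b) z = ev a z * ev b z := by
  unfold ev
  rw [tsum_mul_tsum_eq_tsum_sum_range_of_summable_norm ha hb]
  congr 1
  funext n
  unfold cmul
  rw [Finset.sum_mul]
  refine Finset.sum_congr rfl fun k hk => ?_
  have hk' : k ≤ n := Nat.lt_succ_iff.1 (Finset.mem_range.1 hk)
  have h2 : z ^ n = z ^ k * z ^ (n - k) := by rw [← pow_add, Nat.add_sub_cancel' hk']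
  rw [h2]
  ring

theorem ev_cmul {a b : ℕ → ℂ} (ha : Summable fun n => ‖a n‖) (hb : Summable fun n => ‖b n‖) {z : ℂ}
    (hz : ‖z‖ ≤ 1) : ev (cmul a b) z = ev a z * ev b z :=
  seqB_ev_cmul (seqB_summable ha hz) (seqB_summable hb hz)

theorem ev_sh (m : ℕ) (a : ℕ → ℂ) (z : ℂ) : ev (sh m a) z = z ^ m * ev a z := by
  unfold ev
  rw [← tsum_mul_left]
  have hinj : Function.Injective (fun n : ℕ => n + m) := add_left_injective m
  have h1 : ∑' n, sh m a n * z ^ n = ∑' n, sh m a (n + m) * z ^ (n + m) := by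
    symm
    refine hinj.tsum_eq (f := fun n => sh m a n * z ^ n) ?_
    intro n hn
    have h2 : m ≤ n := by
      by_contra h
      apply hn
      simp [sh, h]
    exact ⟨n - m, Nat.sub_add_cancel h2⟩
  rw [h1]
  congr 1
  funext n
  simp only [sh, Nat.le_add_left, if_true, Nat.add_sub_cancel, pow_add]
  ring

theorem norm_ev_le {a : ℕ → ℂ} (ha : Summable fun n => ‖a n‖) {z : ℂ} (hz : ‖z‖ ≤ 1) :
    ‖ev a z‖ ≤ ∑' n, ‖a n‖ := by
  refine (norm_tsum_le_tsum_norm (seqB_summable ha hz)).trans ?_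
  refine (seqB_summable ha hz).tsum_le_tsum (fun n => ?_) ha
  rw [norm_mul, norm_pow]
  exact mul_le_of_le_one_right (norm_nonneg _) (pow_le_one₀ (norm_nonneg _) hz)

theorem continuousOn_ev {a : ℕ → ℂ} (ha : Summable fun n => ‖a n‖) :
    ContinuousOn (ev a) (Metric.closedBall 0 1) := by
  refine continuousOn_tsum (u := fun n => ‖a n‖) (fun n => by fun_prop) ha ?_
  intro n z hz
  rw [mem_closedBall_zero_iff] at hz
  rw [norm_mul, norm_pow]
  exact mul_le_of_le_one_right (norm_nonneg _) (pow_le_one₀ (norm_nonneg _) hz)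

/-- analyticity on the disc only needs bounded (here: square summable or any bounded) coefficients -/
theorem differentiableOn_ev_of_bdd {a : ℕ → ℂ} {B : ℝ} (ha : ∀ n, ‖a n‖ ≤ B) :
    DifferentiableOn ℂ (ev a) (Metric.ball 0 1) := by
  intro z hz
  rw [mem_ball_zero_iff] at hz
  obtain ⟨r, hzr, hr1⟩ := exists_between hz
  have hr0 : 0 ≤ r := (norm_nonneg z).trans hzr.le
  have h1 : DifferentiableOn ℂ (ev a) (Metric.ball 0 r) := by
    refine differentiableOn_tsum_of_summable_norm (u := fun n => B * r ^ n)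
      ((summable_geometric_of_lt_one hr0 hr1).mul_left B) (fun n => by fun_prop)
      Metric.isOpen_ball ?_
    intro n w hw
    rw [mem_ball_zero_iff] at hw
    rw [norm_mul, norm_pow]
    exact mul_le_mul (ha n) (pow_le_pow_left₀ (norm_nonneg _) hw.le _)
      (pow_nonneg (norm_nonneg _) _) ((norm_nonneg _).trans (ha n))
  exact (h1.differentiableAt (Metric.isOpen_ball.mem_nhds
    (mem_ball_zero_iff.2 hzr))).differentiableWithinAt

theorem differentiableOn_ev {a : ℕ → ℂ} (ha : Summable fun n => ‖a n‖) :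
    DifferentiableOn ℂ (ev a) (Metric.ball 0 1) :=
  differentiableOn_ev_of_bdd (B := ∑' n, ‖a n‖)
    fun n => ha.le_tsum n (fun _ _ => norm_nonneg _)

private theorem seqB_hasFPowerSeriesAt {a : ℕ → ℂ} {B : ℝ} (ha : ∀ n, ‖a n‖ ≤ B) {f : ℂ → ℂ}
    (h : ∀ z ∈ Metric.ball (0 : ℂ) 1, f z = ev a z) :
    HasFPowerSeriesAt f (FormalMultilinearSeries.ofScalars ℂ a) 0 := by
  rw [hasFPowerSeriesAt_iff]
  filter_upwards [Metric.ball_mem_nhds (0 : ℂ) one_pos] with z hz
  rw [zero_add, h z hz]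
  have hz' : ‖z‖ < 1 := by simpa using hz
  have h2 := (seqB_summable_bdd ha hz').of_norm.hasSum
  have h3 : (fun n => z ^ n • (FormalMultilinearSeries.ofScalars ℂ a).coeff n)
      = fun n => a n * z ^ n := by
    funext n
    rw [FormalMultilinearSeries.coeff_ofScalars, smul_eq_mul, mul_comm]
  rw [h3]
  exact h2

/-- uniqueness of coefficients -/
theorem ev_injective_of_bdd {a b : ℕ → ℂ} {B : ℝ} (ha : ∀ n, ‖a n‖ ≤ B) (hb : ∀ n, ‖b n‖ ≤ B)
    (h : ∀ z ∈ Metric.ball (0 : ℂ) 1, ev a z = ev b z) : a = b := by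
  have h1 := seqB_hasFPowerSeriesAt ha (f := ev a) (fun z _ => rfl)
  have h2 := seqB_hasFPowerSeriesAt hb (f := ev a) h
  have h3 := h1.eq_formalMultilinearSeries h2
  funext n
  have h4 := congrArg (fun p : FormalMultilinearSeries ℂ ℂ ℂ => p.coeff n) h3
  simpa only [FormalMultilinearSeries.coeff_ofScalars] using h4

private theorem seqB_poly_bound (p : Polynomial ℂ) (C : ℝ)
    (hC : ∀ z : ℂ, ‖z‖ = 1 → ‖p.eval z‖ ≤ C) : ∑ i ∈ p.support, ‖p.coeff i‖ ^ 2 ≤ C ^ 2 := by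
  rw [Polynomial.sum_sq_norm_coeff_eq_circleAverage]
  refine Real.circleAverage_mono_on_of_le_circle ?_ ?_
  · refine Continuous.continuousOn ?_ |>.circleIntegrable'
    fun_prop
  · intro z hz
    have hz1 : ‖z‖ = 1 := by simpa using hz
    exact pow_le_pow_left₀ (norm_nonneg _) (hC z hz1) 2

private theorem seqB_sum_le {b : ℕ → ℂ} (hb : Summable fun n => ‖b n‖) {B : ℝ}
    (hB : ∀ z : ℂ, ‖z‖ = 1 → ‖ev b z‖ ≤ B) (M : ℕ) :
    ∑ n ∈ Finset.range M, ‖b n‖ ^ 2 ≤ B ^ 2 := by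
  -- truncated polynomial
  obtain ⟨p, hcoef, heval⟩ : ∃ p : ℕ → Polynomial ℂ,
      (∀ N n, (p N).coeff n = if n < N then b n else 0) ∧
      (∀ N z, (p N).eval z = ∑ n ∈ Finset.range N, b n * z ^ n) := by
    refine ⟨fun N => ∑ n ∈ Finset.range N, Polynomial.monomial n (b n), ?_, ?_⟩
    · intro N n
      simp only [Polynomial.finsetSum_coeff, Polynomial.coeff_monomial]
      rw [Finset.sum_ite_eq' (Finset.range N) n b]
      simp
    · intro N z
      simp [Polynomial.eval_finsetSum, Polynomial.eval_monomial]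
  obtain ⟨ε, hεd, hε⟩ : ∃ ε : ℕ → ℝ, (∀ N, ε N = ∑' n, ‖b (n + N)‖) ∧
      Tendsto ε atTop (𝓝 0) :=
    ⟨fun N => ∑' n, ‖b (n + N)‖, fun _ => rfl, tendsto_sum_nat_add fun n => ‖b n‖⟩
  have hbd : ∀ N, ∀ z : ℂ, ‖z‖ = 1 → ‖(p N).eval z‖ ≤ B + ε N := by
    intro N z hz
    have hs := seqB_summable hb hz.le
    have h1 : ev b z = (p N).eval z + ∑' n, b (n + N) * z ^ (n + N) := by
      rw [heval]
      exact (hs.of_norm.sum_add_tsum_nat_add (f := fun n => b n * z ^ n) N).symm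
    have h2 : ‖∑' n, b (n + N) * z ^ (n + N)‖ ≤ ε N := by
      have h4 : Summable fun n => ‖b (n + N) * z ^ (n + N)‖ :=
        (summable_nat_add_iff (f := fun n => ‖b n * z ^ n‖) N).2 hs
      refine (norm_tsum_le_tsum_norm h4).trans (le_of_eq ?_)
      rw [hεd]
      congr 1
      funext n
      rw [norm_mul, norm_pow, hz, one_pow, mul_one]
    have h3 : (p N).eval z = ev b z - ∑' n, b (n + N) * z ^ (n + N) := by
      rw [h1]; ring
    rw [h3]
    exact (norm_sub_le _ _).trans (add_le_add (hB z hz) h2)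
  have hfin : ∀ N, M ≤ N → ∑ n ∈ Finset.range M, ‖b n‖ ^ 2 ≤ (B + ε N) ^ 2 := by
    intro N hMN
    refine le_trans ?_ (seqB_poly_bound (p N) (B + ε N) (hbd N))
    have h1 : ∑ n ∈ Finset.range M, ‖b n‖ ^ 2 = ∑ n ∈ Finset.range M, ‖(p N).coeff n‖ ^ 2 := by
      refine Finset.sum_congr rfl fun n hn => ?_
      rw [hcoef, if_pos (lt_of_lt_of_le (Finset.mem_range.1 hn) hMN)]
    rw [h1, ← Finset.sum_filter_add_sum_filter_not (Finset.range M) (fun n => (p N).coeff n ≠ 0)]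
    have h2 : ∑ n ∈ (Finset.range M).filter (fun n => ¬ (p N).coeff n ≠ 0), ‖(p N).coeff n‖ ^ 2
        = 0 := by
      refine Finset.sum_eq_zero fun n hn => ?_
      have := (Finset.mem_filter.1 hn).2
      push Not at this
      simp [this]
    rw [h2, add_zero]
    refine Finset.sum_le_sum_of_subset_of_nonneg ?_ (fun _ _ _ => by positivity)
    intro n hn
    exact Polynomial.mem_support_iff.2 (Finset.mem_filter.1 hn).2
  have hlim : Tendsto (fun N => (B + ε N) ^ 2) atTop (𝓝 ((B + 0) ^ 2)) :=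
    (tendsto_const_nhds.add hε).pow 2
  rw [add_zero] at hlim
  refine ge_of_tendsto hlim ?_
  filter_upwards [eventually_ge_atTop M] with N hN
  exact hfin N hN

/-- a bounded analytic function on the disc is `ev` of a bounded (square summable) sequence -/
theorem exists_coeff_of_bdd {f : ℂ → ℂ} {B : ℝ} (hf : DifferentiableOn ℂ f (Metric.ball 0 1))
    (hB : ∀ z ∈ Metric.ball (0 : ℂ) 1, ‖f z‖ ≤ B) :
    ∃ a : ℕ → ℂ, (Summable fun n => ‖a n‖ ^ 2) ∧ (∀ n, ‖a n‖ ≤ B) ∧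
      ∀ z ∈ Metric.ball (0 : ℂ) 1, f z = ev a z := by
  have hB0 : 0 ≤ B := (norm_nonneg _).trans (hB 0 (by simp))
  obtain ⟨a, hsum⟩ : ∃ a : ℕ → ℂ,
      ∀ z ∈ Metric.ball (0 : ℂ) 1, HasSum (fun n => a n * z ^ n) (f z) := by
    refine ⟨fun n => (n.factorial : ℂ)⁻¹ * iteratedDeriv n f 0, ?_⟩
    intro z hz
    have h1 := Complex.hasSum_taylorSeries_on_ball hf hz
    convert! h1 using 2 with n
    simp only [smul_eq_mul, sub_zero]
    ring
  have hpart : ∀ M, ∀ R : ℝ, 0 ≤ R → R < 1 →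
      ∑ n ∈ Finset.range M, ‖a n‖ ^ 2 * (R ^ n) ^ 2 ≤ B ^ 2 := by
    intro M R hR0 hR1
    have hRz : ∀ z : ℂ, ‖z‖ = 1 → (R : ℂ) * z ∈ Metric.ball (0 : ℂ) 1 := by
      intro z hz
      rw [mem_ball_zero_iff, norm_mul, hz, mul_one, Complex.norm_real, Real.norm_eq_abs,
        abs_of_nonneg hR0]
      exact hR1
    have hb : Summable fun n => ‖a n * (R : ℂ) ^ n‖ := by
      have := (hsum _ (hRz 1 (by simp))).summable.norm
      simpa using this
    have h1 := seqB_sum_le (b := fun n => a n * (R : ℂ) ^ n) hb (B := B) (fun z hz => by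
      have h2 : ev (fun n => a n * (R : ℂ) ^ n) z = f ((R : ℂ) * z) := by
        rw [← (hsum _ (hRz z hz)).tsum_eq]
        unfold ev
        congr 1
        funext n
        rw [mul_pow]
        ring
      rw [h2]
      exact hB _ (hRz z hz)) M
    refine le_trans (le_of_eq ?_) h1
    refine Finset.sum_congr rfl fun n _ => ?_
    rw [norm_mul, mul_pow, norm_pow, Complex.norm_real, Real.norm_eq_abs, abs_of_nonneg hR0]
  have hpart1 : ∀ M, ∑ n ∈ Finset.range M, ‖a n‖ ^ 2 ≤ B ^ 2 := by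
    intro M
    have hcont : Continuous fun R : ℝ => ∑ n ∈ Finset.range M, ‖a n‖ ^ 2 * (R ^ n) ^ 2 := by
      fun_prop
    have hlim : Tendsto (fun R : ℝ => ∑ n ∈ Finset.range M, ‖a n‖ ^ 2 * (R ^ n) ^ 2)
        (𝓝[<] 1) (𝓝 (∑ n ∈ Finset.range M, ‖a n‖ ^ 2 * ((1 : ℝ) ^ n) ^ 2)) :=
      (hcont.tendsto 1).mono_left nhdsWithin_le_nhds
    have h2 : ∀ᶠ R : ℝ in 𝓝[<] 1, ∑ n ∈ Finset.range M, ‖a n‖ ^ 2 * (R ^ n) ^ 2 ≤ B ^ 2 := by
      have h3 : ∀ᶠ R : ℝ in 𝓝[<] 1, 0 < R :=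
        nhdsWithin_le_nhds (lt_mem_nhds one_pos)
      filter_upwards [self_mem_nhdsWithin, h3] with R hR1 hR0
      exact hpart M R hR0.le hR1
    have := le_of_tendsto hlim h2
    simpa using this
  refine ⟨a, summable_of_sum_range_le (fun n => by positivity) hpart1, fun n => ?_, fun z hz => ?_⟩
  · have h1 := hpart1 (n + 1)
    have h2 : ‖a n‖ ^ 2 ≤ B ^ 2 := by
      refine le_trans ?_ h1
      exact Finset.single_le_sum (f := fun n => ‖a n‖ ^ 2) (fun _ _ => by positivity)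
        (Finset.self_mem_range_succ n)
    exact le_of_sq_le_sq h2 hB0
  · exact (hsum z hz).tsum_eq.symm

/-- product formula inside of the disc for bounded coefficients -/
theorem ev_cmul_of_bdd {a b : ℕ → ℂ} {A B : ℝ} (ha : ∀ n, ‖a n‖ ≤ A) (hb : ∀ n, ‖b n‖ ≤ B) {z : ℂ}
    (hz : z ∈ Metric.ball (0 : ℂ) 1) : ev (cmul a b) z = ev a z * ev b z :=
  seqB_ev_cmul (seqB_summable_bdd ha (by simpa using hz)) (seqB_summable_bdd hb (by simpa using hz))

private theorem seqB_mk_cmul (a b : ℕ → ℂ) :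
    PowerSeries.mk (cmul a b) = PowerSeries.mk a * PowerSeries.mk b := by
  ext n
  rw [PowerSeries.coeff_mk, PowerSeries.coeff_mul]
  simp only [PowerSeries.coeff_mk]
  rw [Finset.Nat.sum_antidiagonal_eq_sum_range_succ (fun i j => a i * b j)]
  rfl

private theorem seqB_mk_inj {a b : ℕ → ℂ} (h : PowerSeries.mk a = PowerSeries.mk b) : a = b := by
  funext n
  have := congrArg (PowerSeries.coeff n) h
  simpa using this

theorem cmul_comm (a b : ℕ → ℂ) : cmul a b = cmul b a :=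
  seqB_mk_inj (by rw [seqB_mk_cmul, seqB_mk_cmul, mul_comm])

theorem cmul_assoc (a b c : ℕ → ℂ) : cmul (cmul a b) c = cmul a (cmul b c) :=
  seqB_mk_inj (by simp only [seqB_mk_cmul, mul_assoc])

theorem cmul_one1 (a : ℕ → ℂ) : cmul a one1 = a := by
  refine seqB_mk_inj ?_
  have h1 : PowerSeries.mk one1 = (1 : PowerSeries ℂ) := by
    ext n
    rw [PowerSeries.coeff_mk, PowerSeries.coeff_one]
    rfl
  rw [seqB_mk_cmul, h1, mul_one]

theorem cmul_sub (a b c : ℕ → ℂ) : cmul a (b - c) = cmul a b - cmul a c := by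
  funext n
  simp only [cmul, Pi.sub_apply, mul_sub, Finset.sum_sub_distrib]

theorem cmul_sh (m : ℕ) (a b : ℕ → ℂ) : cmul a (sh m b) = sh m (cmul a b) := by
  have h1 : ∀ c : ℕ → ℂ, PowerSeries.mk (sh m c) = PowerSeries.X ^ m * PowerSeries.mk c := by
    intro c
    ext n
    rw [PowerSeries.coeff_mk, PowerSeries.coeff_X_pow_mul']
    simp only [sh, PowerSeries.coeff_mk]
  refine seqB_mk_inj ?_
  rw [seqB_mk_cmul, h1, h1, seqB_mk_cmul]
  ring

end MP_9d6c91_an
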