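import Pool.Agent.Lib.MP_9d6c91_an.PoisB
import Pool.Agent.Lib.MP_9d6c91_an.Seq

/-!
# JOB PJ : Poisson-Jensen inequality for functions with absolutely summable coefficients

`G t = ‖ev g (ee t)‖` is continuous, `≤ M`.  For `K ≥ 0` let `u_K t = K` if `G t ≤ M e^{-K}` and `log (M / G t)` otherwise, i.e.
`u_K t = log (M / max (G t) (M e^{-K}))`; continuous, `0 ≤ u_K ≤ K`, periodic.
`q z = ev g z * exp (HI u_K z)` is bounded by `M e^K` and for all `t` the radial limit of `‖q‖` is `G t * exp (u_K t) ≤ M` (`tendsto_PI`, `re_HI`),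
so `norm_le_PI` gives `‖ev g z‖ ≤ M exp (- PI u_K z)`.
Take `z₀` in the disc with `ev g z₀ ≠ 0` : `∫ u_K Pk z₀ ≤ log (M / ‖ev g z₀‖)` for all `K`; monotone convergence (`lintegral_iSup`,
`Pk z₀ ≥ c > 0`): the zero set of `G` is null and `uu M g` is integrable on `(-π, π)`; then `PI u_K z → PI (uu M g) z`.
-/

set_option autoImplicit false

open MeasureTheory Complex Filter Topology Set
open scoped ENNReal Real

namespace MP_9d6c91_an

/-- the truncated logarithm -/
private noncomputable def pjU (M : ℝ) (G : ℝ → ℝ) (K t : ℝ) : ℝ :=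
  Real.log (M / max (G t) (M * Real.exp (-K)))

private theorem pj_max_pos {M : ℝ} (hM : 0 < M) (G : ℝ → ℝ) (K t : ℝ) :
    0 < max (G t) (M * Real.exp (-K)) :=
  lt_max_of_lt_right (by positivity)

private theorem pj_U_nonneg {M : ℝ} (hM : 0 < M) {G : ℝ → ℝ} (hG : ∀ t, G t ≤ M) {K : ℝ}
    (hK : 0 ≤ K) (t : ℝ) : 0 ≤ pjU M G K t := by
  apply Real.log_nonneg
  rw [le_div_iff₀ (pj_max_pos hM G K t), one_mul]
  apply max_le (hG t)
  calc M * Real.exp (-K) ≤ M * 1 :=
        mul_le_mul_of_nonneg_left (Real.exp_le_one_iff.mpr (by linarith)) hM.le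
    _ = M := mul_one M

private theorem pj_U_le {M : ℝ} (hM : 0 < M) {G : ℝ → ℝ} (K t : ℝ) : pjU M G K t ≤ K := by
  have h0 := pj_max_pos hM G K t
  unfold pjU
  rw [Real.log_le_iff_le_exp (by positivity), div_le_iff₀ h0]
  calc M = Real.exp K * (M * Real.exp (-K)) := by
        rw [mul_left_comm, ← Real.exp_add, add_neg_cancel, Real.exp_zero, mul_one]
    _ ≤ Real.exp K * max (G t) (M * Real.exp (-K)) :=
        mul_le_mul_of_nonneg_left (le_max_right _ _) (Real.exp_pos _).le

private theorem pj_U_mono {M : ℝ} (hM : 0 < M) {G : ℝ → ℝ} {K K' : ℝ} (h : K ≤ K') (t : ℝ) :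
    pjU M G K t ≤ pjU M G K' t := by
  apply Real.log_le_log (div_pos hM (pj_max_pos hM G K t))
  apply div_le_div_of_nonneg_left hM.le (pj_max_pos hM G K' t)
  apply max_le_max le_rfl
  exact mul_le_mul_of_nonneg_left (Real.exp_le_exp.mpr (by linarith)) hM.le

private theorem pj_U_zero {M : ℝ} (hM : 0 < M) {G : ℝ → ℝ} (K : ℝ) {t : ℝ} (ht : G t = 0) :
    pjU M G K t = K := by
  unfold pjU
  rw [ht, max_eq_right (by positivity), div_mul_eq_div_div, div_self hM.ne', one_div,
    ← Real.exp_neg, neg_neg, Real.log_exp]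

private theorem pj_U_eq {M : ℝ} (hM : 0 < M) {G : ℝ → ℝ} {K : ℝ} {t : ℝ} (ht : 0 < G t)
    (hK : Real.log (M / G t) ≤ K) : pjU M G K t = Real.log (M / G t) := by
  unfold pjU
  rw [max_eq_left]
  rw [Real.log_le_iff_le_exp (by positivity), div_le_iff₀ ht] at hK
  calc M * Real.exp (-K) ≤ (Real.exp K * G t) * Real.exp (-K) :=
        mul_le_mul_of_nonneg_right hK (Real.exp_pos _).le
    _ = G t := by
        rw [mul_right_comm, ← Real.exp_add, add_neg_cancel, Real.exp_zero, one_mul]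

private theorem pj_U_le_log {M : ℝ} (hM : 0 < M) {G : ℝ → ℝ} {K : ℝ} {t : ℝ} (ht : 0 < G t) :
    pjU M G K t ≤ Real.log (M / G t) := by
  apply Real.log_le_log (div_pos hM (pj_max_pos hM G K t))
  exact div_le_div_of_nonneg_left hM.le ht (le_max_left _ _)

private theorem pj_U_exp {M : ℝ} (hM : 0 < M) {G : ℝ → ℝ} (K : ℝ) (t : ℝ) :
    G t * Real.exp (pjU M G K t) ≤ M := by
  have h0 := pj_max_pos hM G K t
  unfold pjU
  rw [Real.exp_log (by positivity), mul_div_assoc', div_le_iff₀ h0, mul_comm]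
  exact mul_le_mul_of_nonneg_left (le_max_left _ _) hM.le

private theorem pj_U_cont {M : ℝ} (hM : 0 < M) {G : ℝ → ℝ} (hG : Continuous G) (K : ℝ) :
    Continuous (pjU M G K) := by
  unfold pjU
  apply Continuous.log
  · exact continuous_const.div (hG.max continuous_const) fun t => (pj_max_pos hM G K t).ne'
  · intro t
    exact (div_pos hM (pj_max_pos hM G K t)).ne'

private theorem pj_const_PX {C : ℝ} (hC : 0 ≤ C) : PX (fun _ : ℝ => C) :=
  ⟨measurable_const, fun _ => hC, fun _ => rfl, continuous_const.intervalIntegrable _ _⟩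

private theorem pj_U_PX {M : ℝ} (hM : 0 < M) {G : ℝ → ℝ} (hG : Continuous G) (hGM : ∀ t, G t ≤ M)
    (hper : ∀ t, G (t + 2 * π) = G t) {K : ℝ} (hK : 0 ≤ K) : PX (pjU M G K) where
  meas := (pj_U_cont hM hG K).measurable
  nonneg := pj_U_nonneg hM hGM hK
  per := fun t => by simp only [pjU, hper]
  int := (pj_U_cont hM hG K).intervalIntegrable _ _

private theorem pj_ee_closed (t : ℝ) : ee (t : ℂ) ∈ Metric.closedBall (0 : ℂ) 1 := by
  rw [mem_closedBall_zero_iff, norm_ee_real]

private theorem pj_continuous_ee_real : Continuous fun t : ℝ => ee (t : ℂ) :=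
  differentiable_ee.continuous.comp continuous_ofReal

private theorem pj_G_cont {g : ℕ → ℂ} (hg : Summable fun n => ‖g n‖) :
    Continuous fun t : ℝ => ‖ev g (ee (t : ℂ))‖ := by
  apply Continuous.norm
  exact (continuousOn_ev hg).comp_continuous pj_continuous_ee_real pj_ee_closed

private theorem pj_G_per (g : ℕ → ℂ) (t : ℝ) :
    ‖ev g (ee ((t + 2 * π : ℝ) : ℂ))‖ = ‖ev g (ee (t : ℂ))‖ := by
  have h : ((t + 2 * π : ℝ) : ℂ) = (t : ℂ) + 2 * π := by push_cast; ring
  rw [h, ee_periodic]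

private theorem pj_r_mem {t r : ℝ} (h0 : 0 < r) (h1 : r < 1) :
    (r : ℂ) * ee (t : ℂ) ∈ Metric.ball (0 : ℂ) 1 := by
  rw [mem_ball_zero_iff, norm_mul, norm_ee_real, mul_one, norm_real, Real.norm_eq_abs,
    abs_of_pos h0]
  exact h1

private theorem pj_eventually : ∀ᶠ r : ℝ in 𝓝[<] (1 : ℝ), 0 < r ∧ r < 1 := by
  have h1 : ∀ᶠ r : ℝ in 𝓝[<] (1 : ℝ), r ∈ Ioo (0 : ℝ) 1 := Ioo_mem_nhdsLT one_pos
  exact h1

/-- the estimate with the truncated logarithm -/
private theorem pj_trunc {g : ℕ → ℂ} (hg : Summable fun n => ‖g n‖) {M : ℝ} (hM0 : 0 < M)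
    (hM : ∀ z : ℂ, ‖z‖ ≤ 1 → ‖ev g z‖ ≤ M) {K : ℝ} (hK : 0 ≤ K) {z : ℂ}
    (hz : z ∈ Metric.ball (0 : ℂ) 1) :
    ‖ev g z‖ * Real.exp (PI (pjU M (fun t : ℝ => ‖ev g (ee (t : ℂ))‖) K) z) ≤ M := by
  set G : ℝ → ℝ := fun t : ℝ => ‖ev g (ee (t : ℂ))‖ with hGdef
  have hGc : Continuous G := pj_G_cont hg
  have hGM : ∀ t, G t ≤ M := fun t => hM _ (by rw [norm_ee_real])
  have hGp : ∀ t, G (t + 2 * π) = G t := pj_G_per g
  have hPX := pj_U_PX hM0 hGc hGM hGp hK
  have hnorm : ∀ z ∈ Metric.ball (0 : ℂ) 1, ‖ev g z * Complex.exp (HI (pjU M G K) z)‖ =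
      ‖ev g z‖ * Real.exp (PI (pjU M G K) z) := by
    intro z hz
    rw [norm_mul, Complex.norm_exp, re_HI hPX hz]
  have hPIle : ∀ z ∈ Metric.ball (0 : ℂ) 1, PI (pjU M G K) z ≤ K := by
    intro z hz
    have := PI_mono_ae hPX (pj_const_PX hK) (ae_of_all _ fun t => pj_U_le hM0 K t) hz
    rwa [PI_const K hz] at this
  have key := norm_le_PI (q := fun z => ev g z * Complex.exp (HI (pjU M G K) z)) (B := M * Real.exp K)
    ((differentiableOn_ev hg).mul (differentiableOn_HI hPX).cexp)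
    (fun z hz => by
      rw [hnorm z hz]
      have hz1 : ‖z‖ ≤ 1 := (mem_ball_zero_iff.mp hz).le
      exact mul_le_mul (hM z hz1) (Real.exp_le_exp.mpr (hPIle z hz)) (Real.exp_pos _).le hM0.le)
    (v := fun _ => M) (pj_const_PX hM0.le)
    (ae_of_all _ fun t η hη => by
      have h1 : Tendsto (fun r : ℝ => ‖ev g ((r : ℂ) * ee (t : ℂ))‖ *
          Real.exp (PI (pjU M G K) ((r : ℂ) * ee (t : ℂ)))) (𝓝[<] 1)
          (𝓝 (G t * Real.exp (pjU M G K t))) := by
        apply Tendsto.mul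
        · apply Tendsto.norm
          have hc := (continuousOn_ev hg) (ee (t : ℂ)) (pj_ee_closed t)
          apply hc.tendsto.comp
          rw [tendsto_nhdsWithin_iff]
          constructor
          · have hc2 : Continuous fun r : ℝ => (r : ℂ) * ee (t : ℂ) :=
              continuous_ofReal.mul continuous_const
            have h2 := hc2.tendsto 1
            simp only [ofReal_one, one_mul] at h2
            exact h2.mono_left nhdsWithin_le_nhds
          · filter_upwards [pj_eventually] with r hr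
            exact Metric.ball_subset_closedBall (pj_r_mem hr.1 hr.2)
        · exact (Real.continuous_exp.tendsto _).comp
            (tendsto_PI hPX (pj_U_cont hM0 hGc K).continuousAt)
      have h3 : G t * Real.exp (pjU M G K t) < M + η :=
        lt_of_le_of_lt (pj_U_exp hM0 K t) (by linarith)
      filter_upwards [h1.eventually_lt_const h3, pj_eventually] with r hr hr2
      rw [hnorm _ (pj_r_mem hr2.1 hr2.2)]
      exact hr.le) hz
  rw [PI_const M hz] at key
  rwa [hnorm z hz] at key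

/-- a set of real numbers that is `2π`-periodic and null in one period is null -/
private theorem pj_null {A : Set ℝ} (hA : ∀ t, t + 2 * π ∈ A ↔ t ∈ A)
    (h : volume (A ∩ Ioc (-π) π) = 0) : volume A = 0 := by
  have hp : (0 : ℝ) < 2 * π := by positivity
  have hz : ∀ (n : ℤ) (t : ℝ), t + n • (2 * π) ∈ A ↔ t ∈ A := by
    intro n
    induction n using Int.induction_on with
    | zero => intro t; simp
    | succ n ih =>
      intro t
      rw [add_smul, one_smul, ← add_assoc, hA]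
      exact ih t
    | pred n ih =>
      intro t
      have h1 := hA (t + (-(n : ℤ) - 1) • (2 * π))
      rw [← h1, sub_smul, one_smul]
      have h2 : t + (-(n : ℤ) • (2 * π) - 2 * π) + 2 * π = t + -(n : ℤ) • (2 * π) := by ring
      rw [h2]
      exact ih t
  have hsub : A ⊆ ⋃ n : ℤ, (fun x : ℝ => x + n • (2 * π)) ⁻¹' (A ∩ Ioc (-π) π) := by
    intro t ht
    rw [mem_iUnion]
    refine ⟨-toIocDiv hp (-π) t, ?_⟩
    have h1 : t + (-toIocDiv hp (-π) t) • (2 * π) = toIocMod hp (-π) t := by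
      rw [neg_smul, ← sub_eq_add_neg]
      rfl
    refine ⟨(hz _ t).mpr ht, ?_⟩
    simp only []
    rw [h1]
    have h2 := toIocMod_mem_Ioc hp (-π) t
    have h3 : -π + 2 * π = π := by ring
    rwa [h3] at h2
  refine measure_mono_null hsub (measure_iUnion_null fun n => ?_)
  rw [measure_preimage_add_right]
  exact h

theorem pj {g : ℕ → ℂ} (hg : Summable fun n => ‖g n‖) (hg0 : g ≠ 0) {M : ℝ} (hM0 : 0 < M)
    (hM : ∀ z : ℂ, ‖z‖ ≤ 1 → ‖ev g z‖ ≤ M) :
    PX (uu M g) ∧ (∀ᵐ t : ℝ, ev g (ee (t : ℂ)) ≠ 0) ∧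
      ∀ z ∈ Metric.ball (0 : ℂ) 1, ‖ev g z‖ ≤ M * Real.exp (-PI (uu M g) z) := by
  set G : ℝ → ℝ := fun t : ℝ => ‖ev g (ee (t : ℂ))‖ with hGdef
  have hGc : Continuous G := pj_G_cont hg
  have hGM : ∀ t, G t ≤ M := fun t => hM _ (by rw [norm_ee_real])
  have hGp : ∀ t, G (t + 2 * π) = G t := pj_G_per g
  have hG0 : ∀ t, 0 ≤ G t := fun t => norm_nonneg _
  have huu : ∀ t, uu M g t = Real.log (M / G t) := fun t => rfl
  have hPXn : ∀ n : ℕ, PX (pjU M G n) := fun n => pj_U_PX hM0 hGc hGM hGp (Nat.cast_nonneg n)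
  -- a point where `ev g` does not vanish
  obtain ⟨z0, hz0, hz0'⟩ : ∃ z0 ∈ Metric.ball (0 : ℂ) 1, ev g z0 ≠ 0 := by
    by_contra hcon
    push Not at hcon
    apply hg0
    have hB : ∀ n, ‖g n‖ ≤ ∑' n, ‖g n‖ := fun n => hg.le_tsum n fun _ _ => norm_nonneg _
    have hB0 : ∀ n, ‖(0 : ℕ → ℂ) n‖ ≤ ∑' n, ‖g n‖ := by
      intro n
      simp only [Pi.zero_apply, norm_zero]
      exact tsum_nonneg fun _ => norm_nonneg _
    exact ev_injective_of_bdd hB hB0 fun z hz => by rw [hcon z hz, ev_zero']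
  have hz1 : ‖z0‖ < 1 := mem_ball_zero_iff.mp hz0
  have hev : 0 < ‖ev g z0‖ := norm_pos_iff.mpr hz0'
  set L : ℝ := Real.log (M / ‖ev g z0‖) with hL
  have hPIL : ∀ n : ℕ, PI (pjU M G n) z0 ≤ L := by
    intro n
    have h1 := pj_trunc hg hM0 hM (Nat.cast_nonneg n) hz0 (K := (n : ℝ))
    rw [hL, Real.le_log_iff_exp_le (by positivity), le_div_iff₀ hev, mul_comm]
    exact h1
  -- lower bound of the kernel
  set c : ℝ := (1 - ‖z0‖ ^ 2) / 4 / (2 * π) with hc
  have hc0 : 0 < c := by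
    have : ‖z0‖ ^ 2 < 1 := by
      have := norm_nonneg z0
      nlinarith
    rw [hc]
    have h2 : 0 < 1 - ‖z0‖ ^ 2 := by linarith
    positivity
  have hPk : ∀ s, c ≤ Pk z0 s := by
    intro s
    unfold Pk
    have h1 : ‖ee (s : ℂ) - z0‖ ≤ 2 := by
      calc ‖ee (s : ℂ) - z0‖ ≤ ‖ee (s : ℂ)‖ + ‖z0‖ := norm_sub_le _ _
        _ ≤ 1 + 1 := by rw [norm_ee_real]; linarith
        _ = 2 := by norm_num
    have h2 : 0 < ‖ee (s : ℂ) - z0‖ := by
      rw [norm_pos_iff, sub_ne_zero]
      intro h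
      rw [← h, norm_ee_real] at hz1
      exact lt_irrefl _ hz1
    have h3 : ‖ee (s : ℂ) - z0‖ ^ 2 ≤ 4 := by nlinarith
    have h4 : 0 ≤ 1 - ‖z0‖ ^ 2 := by
      have := norm_nonneg z0
      nlinarith
    rw [hc]
    apply div_le_div_of_nonneg_right _ (by positivity)
    exact div_le_div_of_nonneg_left h4 (by positivity) h3
  have hint : ∀ n : ℕ, ∫ s in (-π)..π, pjU M G n s ≤ L / c := by
    intro n
    rw [le_div_iff₀ hc0]
    refine le_trans ?_ (hPIL n)
    unfold PI
    rw [← intervalIntegral.integral_mul_const]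
    apply intervalIntegral.integral_mono_on (by linarith [Real.pi_pos])
    · exact ((pj_U_cont hM0 hGc n).mul continuous_const).intervalIntegrable _ _
    · exact (hPXn n).intPk hz0 _ _
    · intro s _
      exact mul_le_mul_of_nonneg_left (hPk s) ((hPXn n).nonneg s)
  -- monotone convergence
  have hlin : ∀ n : ℕ, ∫⁻ s in Ioc (-π) π, ENNReal.ofReal (pjU M G n s) ≤ ENNReal.ofReal (L / c) := by
    intro n
    have hi : Integrable (pjU M G n) (volume.restrict (Ioc (-π) π)) := by
      have := (hPXn n).int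
      rwa [intervalIntegrable_iff_integrableOn_Ioc_of_le (by linarith [Real.pi_pos])] at this
    rw [← ofReal_integral_eq_lintegral_ofReal hi (ae_of_all _ (hPXn n).nonneg)]
    apply ENNReal.ofReal_le_ofReal
    have := hint n
    rwa [intervalIntegral.integral_of_le (by linarith [Real.pi_pos])] at this
  have hsup : ∫⁻ s in Ioc (-π) π, ⨆ n : ℕ, ENNReal.ofReal (pjU M G n s) ≤ ENNReal.ofReal (L / c) := by
    rw [lintegral_iSup]
    · exact iSup_le hlin
    · intro n
      exact (hPXn n).meas.ennreal_ofReal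
    · intro m n hmn s
      exact ENNReal.ofReal_le_ofReal (pj_U_mono hM0 (Nat.cast_le.mpr hmn) s)
  have hmeas : Measurable fun s => ⨆ n : ℕ, ENNReal.ofReal (pjU M G n s) :=
    Measurable.iSup fun n => (hPXn n).meas.ennreal_ofReal
  have hfin : ∀ᵐ s ∂(volume.restrict (Ioc (-π) π)),
      (⨆ n : ℕ, ENNReal.ofReal (pjU M G n s)) < ⊤ :=
    ae_lt_top hmeas (lt_of_le_of_lt hsup ENNReal.ofReal_lt_top).ne
  have hne : ∀ s, (⨆ n : ℕ, ENNReal.ofReal (pjU M G n s)) < ⊤ → G s ≠ 0 := by
    intro s hs h0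
    have h1 : ∀ n : ℕ, ENNReal.ofReal (pjU M G n s) = n := by
      intro n
      rw [pj_U_zero hM0 _ h0, ENNReal.ofReal_natCast]
    simp only [h1] at hs
    rw [ENNReal.iSup_natCast] at hs
    exact lt_irrefl _ hs
  have hae : volume {t : ℝ | G t = 0} = 0 := by
    apply pj_null
    · intro t
      change G (t + 2 * π) = 0 ↔ G t = 0
      rw [hGp]
    · have h1 : ∀ᵐ s ∂(volume.restrict (Ioc (-π) π)), G s ≠ 0 := hfin.mono hne
      rw [ae_restrict_iff' measurableSet_Ioc, ae_iff] at h1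
      refine measure_mono_null ?_ h1
      rintro t ⟨ht1, ht2⟩
      intro hcon
      exact hcon ht2 ht1
  have hae' : ∀ᵐ t : ℝ, G t ≠ 0 := by
    rw [ae_iff]
    simpa using hae
  have hnonneg : ∀ t, 0 ≤ uu M g t := by
    intro t
    rw [huu]
    rcases (hG0 t).eq_or_lt with h | h
    · rw [← h, div_zero, Real.log_zero]
    · apply Real.log_nonneg
      rw [le_div_iff₀ h, one_mul]
      exact hGM t
  have hmuu : Measurable (uu M g) := by
    have h1 : Measurable fun t => Real.log (M / G t) :=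
      Real.measurable_log.comp (measurable_const.div hGc.measurable)
    exact h1
  have hle : ∀ s, ENNReal.ofReal (uu M g s) ≤ ⨆ n : ℕ, ENNReal.ofReal (pjU M G n s) := by
    intro s
    rcases (hG0 s).eq_or_lt with h | h
    · rw [huu, ← h, div_zero, Real.log_zero, ENNReal.ofReal_zero]
      exact bot_le
    · obtain ⟨n, hn⟩ := exists_nat_ge (Real.log (M / G s))
      rw [huu, ← pj_U_eq hM0 h hn]
      exact le_iSup (fun n : ℕ => ENNReal.ofReal (pjU M G n s)) n
  have hPX : PX (uu M g) := by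
    refine ⟨hmuu, hnonneg, ?_, ?_⟩
    · intro t
      rw [huu, huu, hGp]
    · rw [intervalIntegrable_iff_integrableOn_Ioc_of_le (by linarith [Real.pi_pos])]
      refine ⟨hmuu.aestronglyMeasurable, ?_⟩
      rw [hasFiniteIntegral_iff_ofReal (ae_of_all _ hnonneg)]
      exact lt_of_le_of_lt ((lintegral_mono hle).trans hsup) ENNReal.ofReal_lt_top
  refine ⟨hPX, ?_, ?_⟩
  · filter_upwards [hae'] with t ht h0
    apply ht
    simp only [hGdef, h0, norm_zero]
  · intro z hz
    have hlim : Tendsto (fun n : ℕ => PI (pjU M G n) z) atTop (𝓝 (PI (uu M g) z)) := by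
      unfold PI
      apply intervalIntegral.tendsto_integral_filter_of_dominated_convergence
        (fun s => uu M g s * Pk z s)
      · refine Eventually.of_forall fun n => ?_
        exact ((hPXn n).meas.mul (continuous_Pk hz).measurable).aestronglyMeasurable
      · refine Eventually.of_forall fun n => ?_
        filter_upwards [hae'] with s hs _
        have hpk := Pk_nonneg (mem_ball_zero_iff.mp hz).le s
        rw [Real.norm_eq_abs, abs_of_nonneg (mul_nonneg ((hPXn n).nonneg s) hpk)]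
        apply mul_le_mul_of_nonneg_right _ hpk
        rw [huu]
        exact pj_U_le_log hM0 (lt_of_le_of_ne (hG0 s) (Ne.symm hs))
      · exact hPX.intPk hz _ _
      · filter_upwards [hae'] with s hs _
        apply Tendsto.mul_const
        obtain ⟨n0, hn0⟩ := exists_nat_ge (Real.log (M / G s))
        apply tendsto_const_nhds.congr'
        filter_upwards [eventually_ge_atTop n0] with n hn
        rw [huu, pj_U_eq hM0 (lt_of_le_of_ne (hG0 s) (Ne.symm hs))
          (hn0.trans (Nat.cast_le.mpr hn))]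
    have hlim2 : Tendsto (fun n : ℕ => ‖ev g z‖ * Real.exp (PI (pjU M G n) z)) atTop
        (𝓝 (‖ev g z‖ * Real.exp (PI (uu M g) z))) :=
      ((Real.continuous_exp.tendsto _).comp hlim).const_mul _
    have h5 := le_of_tendsto' hlim2 fun n =>
      pj_trunc hg hM0 hM (Nat.cast_nonneg n) hz (K := (n : ℝ))
    rw [Real.exp_neg, ← div_eq_mul_inv, le_div_iff₀ (Real.exp_pos _)]
    exact h5

end MP_9d6c91_an
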