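import Pool.Agent.Lib.MP_9d6c91_an.Beur
import Pool.Agent.Lib.MP_9d6c91_an.PJ

/-!
# JOB INNER : the inner function `ev s` of an isometric multiplier `s`

* `IsoM.norm_le` : `∑ ‖s n‖² = 1` (take `h = one1`).
* `IsoM.ev_le` : `norm_ev_le_of_mult` with `B = 1`.
* `IsoM.div_Gv` : `h j = ∑ conj (s i) f (i+j)`, `f = s h ∈ Gv`: `‖h j‖ ≤ ∑_i A exp (-δ (i+j)^β)`, `(i+j)^β ≥ (i^β + j^β)/2`.
* `IsoM.norm_eq` : polarisation of the isometry: `∑_n f (n+k) conj (f n) = ∑_n h (n+k) conj (h n)` for all `k` (apply it to `h` and `sh k h`); for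
  `‖z‖ = 1`, `‖ev f z‖² = ∑_{m,n} f m conj (f n) z^m conj(z)^n = ∑_k (...)` (absolutely convergent) depends only on these numbers.
* `IsoM.radial` : for `ev h (e^{iθ}) ≠ 0` (a.e. `θ` by `pj`): `ev s (r e^{iθ}) = ev f (r e^{iθ}) / ev h (r e^{iθ}) → ev f / ev h`, of modulus one.
-/

set_option autoImplicit false

open MeasureTheory Complex Filter Topology Set
open scoped ENNReal Real ComplexConjugate

namespace MP_9d6c91_an

/-! ### the Hilbert space and the isometry -/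

private abbrev HI2 : Type := ↥(lp (fun _ : ℕ => ℂ) 2)

private theorem inner_mem {f : ℕ → ℂ} (hf : Summable fun n => ‖f n‖ ^ 2) :
    Memℓp f (2 : ℝ≥0∞) := by
  apply memℓp_gen
  simpa using hf

private theorem inner_summable (f : HI2) : Summable fun n => ‖f n‖ ^ 2 := by
  have h := (lp.memℓp f).summable (by norm_num : 0 < (2 : ℝ≥0∞).toReal)
  simpa using h

private theorem inner_norm (f : HI2) : ‖f‖ ^ 2 = ∑' n, ‖f n‖ ^ 2 := by
  have h := lp.norm_rpow_eq_tsum (by norm_num : 0 < (2 : ℝ≥0∞).toReal) f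
  simpa using h

private theorem inner_cmul_add (s a b : ℕ → ℂ) : cmul s (a + b) = cmul s a + cmul s b := by
  funext n
  simp only [cmul, Pi.add_apply, mul_add, Finset.sum_add_distrib]

private theorem inner_cmul_smul (c : ℂ) (s a : ℕ → ℂ) : cmul s (c • a) = c • cmul s a := by
  funext n
  simp only [cmul, Pi.smul_apply, smul_eq_mul, Finset.mul_sum]
  apply Finset.sum_congr rfl
  intro i _
  ring

/-- multiplication by `s` as an isometry -/
private noncomputable def TI {s : ℕ → ℂ} (hs : IsoM s) : HI2 →ₗᵢ[ℂ] HI2 where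
  toFun f := ⟨cmul s (f : ℕ → ℂ), inner_mem (hs _ (inner_summable f)).1⟩
  map_add' f g := by
    apply lp.ext
    exact inner_cmul_add s f g
  map_smul' c f := by
    apply lp.ext
    exact inner_cmul_smul c s f
  norm_map' f := by
    have h4 : ‖(⟨cmul s (f : ℕ → ℂ), inner_mem (hs _ (inner_summable f)).1⟩ : HI2)‖ ^ 2
        = ‖f‖ ^ 2 := by
      rw [inner_norm, inner_norm]
      exact (hs _ (inner_summable f)).2
    exact (pow_left_inj₀ (norm_nonneg _) (norm_nonneg _) two_ne_zero).1 h4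

private theorem inner_sh_sum {f : ℕ → ℂ} (k : ℕ) (hf : Summable fun n => ‖f n‖ ^ 2) :
    Summable fun n => ‖sh k f n‖ ^ 2 := by
  rw [← summable_nat_add_iff k]
  simpa [sh] using hf

/-- the correlations of `h` and of `s h` agree -/
private theorem inner_corr {s h : ℕ → ℂ} (hs : IsoM s) (hh : Summable fun n => ‖h n‖ ^ 2) (k : ℕ) :
    ∑' n, cmul s h (n + k) * conj (cmul s h n) = ∑' n, h (n + k) * conj (h n) := by
  have key : ∀ g : ℕ → ℂ, ∀ hg : Summable fun n => ‖g n‖ ^ 2,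
      inner ℂ (⟨sh k g, inner_mem (inner_sh_sum k hg)⟩ : HI2) (⟨g, inner_mem hg⟩ : HI2) =
        ∑' n, g (n + k) * conj (g n) := by
    intro g hg
    have h1 := lp.hasSum_inner (𝕜 := ℂ) (⟨sh k g, inner_mem (inner_sh_sum k hg)⟩ : HI2)
      (⟨g, inner_mem hg⟩ : HI2)
    have h2 : HasSum (fun i : ℕ => g i * conj (sh k g i))
        (inner ℂ (⟨sh k g, inner_mem (inner_sh_sum k hg)⟩ : HI2) (⟨g, inner_mem hg⟩ : HI2)) := h1
    rw [← hasSum_nat_add_iff' k] at h2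
    have h3 : ∑ i ∈ Finset.range k, g i * conj (sh k g i) = 0 := by
      apply Finset.sum_eq_zero
      intro i hi
      have : ¬ k ≤ i := by simpa using hi
      simp [sh, this]
    rw [h3, sub_zero] at h2
    rw [← h2.tsum_eq]
    congr 1
    funext n
    simp [sh]
  have hf := (hs h hh).1
  rw [← key h hh, ← key (cmul s h) hf]
  have h5 : (TI hs) (⟨sh k h, inner_mem (inner_sh_sum k hh)⟩ : HI2) =
      (⟨sh k (cmul s h), inner_mem (inner_sh_sum k hf)⟩ : HI2) := by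
    apply lp.ext
    exact cmul_sh k s h
  have h6 : (TI hs) (⟨h, inner_mem hh⟩ : HI2) = (⟨cmul s h, inner_mem hf⟩ : HI2) := rfl
  rw [← h5, ← h6, LinearIsometry.inner_map_map]

/-! ### extension by zero to the integers -/

private noncomputable def zz (f : ℕ → ℂ) (m : ℤ) : ℂ := if 0 ≤ m then f m.toNat else 0

private theorem zz_nat (f : ℕ → ℂ) (n : ℕ) : zz f (n : ℤ) = f n := by simp [zz]

private theorem zz_neg (f : ℕ → ℂ) {m : ℤ} (hm : m < 0) : zz f m = 0 := by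
  simp [zz, not_le.2 hm]

private theorem zz_range (f : ℕ → ℂ) {m : ℤ} (hm : m ∉ Set.range (Nat.cast : ℕ → ℤ)) :
    zz f m = 0 := by
  apply zz_neg
  by_contra h
  push Not at h
  exact hm ⟨m.toNat, by simp [h]⟩

private theorem zz_summable {f : ℕ → ℂ} (hf : Summable fun n => ‖f n‖) :
    Summable fun m : ℤ => ‖zz f m‖ := by
  rw [← Function.Injective.summable_iff (g := (Nat.cast : ℕ → ℤ)) Nat.cast_injective]
  · simpa [Function.comp_def, zz_nat] using hf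
  · intro m hm
    rw [zz_range f hm, norm_zero]

private theorem zz_ev (f : ℕ → ℂ) (z : ℂ) : ev f z = ∑' m : ℤ, zz f m * z ^ m := by
  rw [← Function.Injective.tsum_eq (g := (Nat.cast : ℕ → ℤ)) Nat.cast_injective]
  · simp [ev, zz_nat]
  · intro m hm
    by_contra h
    exact hm (by simp [zz_range f h])

private def zzE : ℤ × ℤ ≃ ℤ × ℤ where
  toFun := fun p => (p.2 + p.1, p.2)
  invFun := fun p => (p.1 - p.2, p.2)
  left_inv := fun p => by simp
  right_inv := fun p => by simp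

private theorem zzE_fst (p : ℤ × ℤ) : (zzE p).1 = p.2 + p.1 := rfl

private theorem zzE_snd (p : ℤ × ℤ) : (zzE p).2 = p.2 := rfl

private theorem zz_mul {a b : ℤ → ℂ} (ha : Summable fun m => ‖a m‖)
    (hb : Summable fun m => ‖b m‖) : (Summable fun p : ℤ × ℤ => a p.1 * b p.2) ∧
    (∑' m, a m) * (∑' m, b m) = ∑' p : ℤ × ℤ, a p.1 * b p.2 :=
  ⟨summable_mul_of_summable_norm ha hb, tsum_mul_tsum_of_summable_norm ha hb⟩

private theorem zz_sq {f : ℕ → ℂ} (hf : Summable fun n => ‖f n‖) {z : ℂ} (hz : ‖z‖ = 1) :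
    ev f z * conj (ev f z) = ∑' k : ℤ, (∑' n : ℤ, zz f (n + k) * conj (zz f n)) * z ^ k := by
  have hz0 : z ≠ 0 := by
    intro h; rw [h, norm_zero] at hz; exact zero_ne_one hz
  have hzz : z * conj z = 1 := by
    rw [Complex.mul_conj, Complex.normSq_eq_norm_sq, hz]; simp
  have hn : ∀ m : ℤ, ‖zz f m * z ^ m‖ = ‖zz f m‖ := by
    intro m; rw [norm_mul, norm_zpow, hz, one_zpow, mul_one]
  have h1 : Summable fun m : ℤ => ‖zz f m * z ^ m‖ := by
    simpa only [hn] using zz_summable hf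
  have h2 : Summable fun m : ℤ => ‖conj (zz f m * z ^ m)‖ := by
    simpa only [RCLike.norm_conj] using h1
  have h3 : ev f z * conj (ev f z) =
      ∑' p : ℤ × ℤ, (zz f p.1 * z ^ p.1) * conj (zz f p.2 * z ^ p.2) := by
    rw [zz_ev, Complex.conj_tsum]
    exact (zz_mul h1 h2).2
  have h4 : Summable fun p : ℤ × ℤ => (zz f p.1 * z ^ p.1) * conj (zz f p.2 * z ^ p.2) :=
    (zz_mul h1 h2).1
  have h5 : ∀ p : ℤ × ℤ, (zz f (zzE p).1 * z ^ (zzE p).1) * conj (zz f (zzE p).2 * z ^ (zzE p).2) =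
      zz f (p.2 + p.1) * conj (zz f p.2) * z ^ p.1 := by
    intro p
    have h6 : z ^ (p.2) * conj (z ^ p.2) = 1 := by
      rw [map_zpow₀, ← mul_zpow, hzz, one_zpow]
    rw [zzE_fst, zzE_snd, zpow_add₀ hz0, map_mul]
    calc zz f (p.2 + p.1) * (z ^ p.2 * z ^ p.1) * (conj (zz f p.2) * conj (z ^ p.2)) =
        zz f (p.2 + p.1) * conj (zz f p.2) * z ^ p.1 * (z ^ p.2 * conj (z ^ p.2)) := by ring
      _ = _ := by rw [h6, mul_one]
  have h8 : (fun p : ℤ × ℤ => zz f (p.2 + p.1) * conj (zz f p.2) * z ^ p.1) =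
      (fun p : ℤ × ℤ => (zz f p.1 * z ^ p.1) * conj (zz f p.2 * z ^ p.2)) ∘ zzE := by
    funext p
    exact (h5 p).symm
  have h7 : Summable fun p : ℤ × ℤ => zz f (p.2 + p.1) * conj (zz f p.2) * z ^ p.1 := by
    rw [h8]
    exact (zzE.summable_iff).2 h4
  have h9 : ∑' p : ℤ × ℤ, (zz f p.1 * z ^ p.1) * conj (zz f p.2 * z ^ p.2) =
      ∑' p : ℤ × ℤ, zz f (p.2 + p.1) * conj (zz f p.2) * z ^ p.1 := by
    rw [h8]
    exact (zzE.tsum_eq _).symm
  rw [h3, h9, h7.tsum_prod]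
  apply tsum_congr
  intro k
  simp only [tsum_mul_right]

private theorem zz_corr_nat (f : ℕ → ℂ) (k : ℕ) :
    ∑' n : ℤ, zz f (n + k) * conj (zz f n) = ∑' n : ℕ, f (n + k) * conj (f n) := by
  rw [← Function.Injective.tsum_eq (g := (Nat.cast : ℕ → ℤ)) Nat.cast_injective]
  · apply tsum_congr
    intro n
    rw [zz_nat, ← Nat.cast_add, zz_nat]
  · intro m hm
    by_contra h
    exact hm (by simp [zz_range f h])

private theorem zz_corr_neg (f : ℕ → ℂ) (k : ℕ) :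
    ∑' n : ℤ, zz f (n + -(k : ℤ)) * conj (zz f n) = conj (∑' n : ℕ, f (n + k) * conj (f n)) := by
  rw [← zz_corr_nat, ← (Equiv.addRight (k : ℤ)).tsum_eq, Complex.conj_tsum]
  congr 1
  funext n
  simp only [Equiv.coe_addRight, add_neg_cancel_right, map_mul, Complex.conj_conj]
  ring

/-! ### the theorems -/

theorem IsoM.norm_le {s : ℕ → ℂ} (hs : IsoM s) (n : ℕ) : ‖s n‖ ≤ 1 := by
  have h1 : Summable fun n => ‖one1 n‖ ^ 2 := by
    apply summable_of_ne_finset_zero (s := {0})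
    intro b hb
    have : b ≠ 0 := by simpa using hb
    simp [one1, this]
  have h2 := hs one1 h1
  rw [cmul_one1] at h2
  have h3 : ∑' n, ‖one1 n‖ ^ 2 = 1 := by
    rw [tsum_eq_single 0]
    · simp [one1]
    · intro b hb
      simp [one1, hb]
  have h4 : ‖s n‖ ^ 2 ≤ 1 := by
    rw [← h3, ← h2.2]
    exact h2.1.le_tsum n fun _ _ => by positivity
  nlinarith [norm_nonneg (s n)]

private theorem IsoM.sum_sq {s : ℕ → ℂ} (hs : IsoM s) : Summable fun n => ‖s n‖ ^ 2 := by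
  have h1 : Summable fun n => ‖one1 n‖ ^ 2 := by
    apply summable_of_ne_finset_zero (s := {0})
    intro b hb
    have : b ≠ 0 := by simpa using hb
    simp [one1, this]
  have h2 := hs one1 h1
  rw [cmul_one1] at h2
  exact h2.1

theorem IsoM.ev_le {s : ℕ → ℂ} (hs : IsoM s) {z : ℂ} (hz : z ∈ Metric.ball (0 : ℂ) 1) : ‖ev s z‖ ≤ 1 := by
  apply norm_ev_le_of_mult zero_le_one hs.sum_sq _ hz
  rintro p ⟨N, hN⟩
  have hp : Summable fun n => ‖p n‖ ^ 2 := by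
    apply summable_of_ne_finset_zero (s := Finset.range N)
    intro b hb
    rw [hN b (by simpa using hb)]
    simp
  obtain ⟨h1, h2⟩ := hs p hp
  exact ⟨h1, by rw [h2]; simp⟩

theorem IsoM.div_Gv {β : ℝ} (hβ : 0 < β) (hβ1 : β ≤ 1) {s h : ℕ → ℂ} (hs : IsoM s)
    (hh : Summable fun n => ‖h n‖ ^ 2) (hf : Gv β (cmul s h)) : Gv β h := by
  obtain ⟨A, δ, hδ, hA⟩ := hf
  have hA0 : 0 ≤ A := by
    have h1 := hA 0
    have h2 : 0 ≤ A * Real.exp (-δ * ((0 : ℕ) : ℝ) ^ β) := (norm_nonneg _).trans h1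
    exact nonneg_of_mul_nonneg_left h2 (Real.exp_pos _)
  have hδ2 : 0 < δ / 2 := by positivity
  have hS := summable_exp_neg hβ hδ2
  refine ⟨A * ∑' i : ℕ, Real.exp (-(δ / 2) * (i : ℝ) ^ β), δ / 2, hδ2, ?_⟩
  intro j
  have hterm : ∀ i : ℕ, ‖conj (s i) * cmul s h (i + j)‖ ≤
      A * Real.exp (-(δ / 2) * (j : ℝ) ^ β) * Real.exp (-(δ / 2) * (i : ℝ) ^ β) := by
    intro i
    rw [norm_mul, RCLike.norm_conj]
    have h1 : ‖s i‖ * ‖cmul s h (i + j)‖ ≤ 1 * (A * Real.exp (-δ * ((i + j : ℕ) : ℝ) ^ β)) :=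
      mul_le_mul (hs.norm_le i) (hA _) (norm_nonneg _) zero_le_one
    have h2 : (i : ℝ) ^ β ≤ ((i + j : ℕ) : ℝ) ^ β :=
      Real.rpow_le_rpow (by positivity) (by push_cast; linarith [(Nat.cast_nonneg j : (0 : ℝ) ≤ j)])
        hβ.le
    have h3 : (j : ℝ) ^ β ≤ ((i + j : ℕ) : ℝ) ^ β :=
      Real.rpow_le_rpow (by positivity) (by push_cast; linarith [(Nat.cast_nonneg i : (0 : ℝ) ≤ i)])
        hβ.le
    calc ‖s i‖ * ‖cmul s h (i + j)‖ ≤ A * Real.exp (-δ * ((i + j : ℕ) : ℝ) ^ β) := by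
          simpa using h1
      _ ≤ A * Real.exp (-(δ / 2) * (j : ℝ) ^ β + -(δ / 2) * (i : ℝ) ^ β) := by
          apply mul_le_mul_of_nonneg_left _ hA0
          apply Real.exp_le_exp.2
          nlinarith
      _ = _ := by rw [Real.exp_add]; ring
  rw [hs.formula hh j]
  calc ‖∑' i, conj (s i) * cmul s h (i + j)‖ ≤
      ∑' i : ℕ, A * Real.exp (-(δ / 2) * (j : ℝ) ^ β) * Real.exp (-(δ / 2) * (i : ℝ) ^ β) :=
        tsum_of_norm_bounded ((hS.mul_left _).hasSum) hterm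
    _ = A * (∑' i : ℕ, Real.exp (-(δ / 2) * (i : ℝ) ^ β)) * Real.exp (-(δ / 2) * (j : ℝ) ^ β) := by
        rw [tsum_mul_left]; ring

private theorem Gv.sum_sq {β : ℝ} (hβ : 0 < β) {h : ℕ → ℂ} (hh : Gv β h) :
    Summable fun n => ‖h n‖ ^ 2 := by
  have h1 := hh.summable_norm hβ
  have h2 : ∀ n, ‖h n‖ ^ 2 ≤ (∑' m, ‖h m‖) * ‖h n‖ := by
    intro n
    rw [sq]
    exact mul_le_mul_of_nonneg_right (h1.le_tsum n fun _ _ => norm_nonneg _) (norm_nonneg _)
  exact Summable.of_nonneg_of_le (fun n => by positivity) h2 (h1.mul_left _)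

theorem IsoM.norm_eq {β : ℝ} (hβ : 0 < β) (hβ1 : β ≤ 1) {s h : ℕ → ℂ} (hs : IsoM s)
    (hh : Gv β h) (hf : Gv β (cmul s h)) {z : ℂ} (hz : ‖z‖ = 1) : ‖ev (cmul s h) z‖ = ‖ev h z‖ := by
  have h1 := zz_sq (hf.summable_norm hβ) hz
  have h2 := zz_sq (hh.summable_norm hβ) hz
  have h3 : ev (cmul s h) z * conj (ev (cmul s h) z) = ev h z * conj (ev h z) := by
    rw [h1, h2]
    congr 1
    funext k
    congr 1
    obtain ⟨n, rfl | rfl⟩ := k.eq_nat_or_neg
    · rw [zz_corr_nat, zz_corr_nat, inner_corr hs (Gv.sum_sq hβ hh)]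
    · rw [zz_corr_neg, zz_corr_neg, inner_corr hs (Gv.sum_sq hβ hh)]
  rw [Complex.mul_conj, Complex.mul_conj, Complex.normSq_eq_norm_sq, Complex.normSq_eq_norm_sq] at h3
  have h4 : ‖ev (cmul s h) z‖ ^ 2 = ‖ev h z‖ ^ 2 := by exact_mod_cast h3
  exact (pow_left_inj₀ (norm_nonneg _) (norm_nonneg _) two_ne_zero).1 h4

theorem IsoM.radial {β : ℝ} (hβ : 0 < β) (hβ1 : β ≤ 1) {s h : ℕ → ℂ} (hs : IsoM s)
    (hh : Gv β h) (hf : Gv β (cmul s h)) (hne : cmul s h ≠ 0) :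
    ∀ᵐ θ : ℝ ∂MeasureTheory.volume, ∃ w : ℂ, ‖w‖ = 1 ∧
      Filter.Tendsto (fun r : ℝ => ev s ((r : ℂ) * Complex.exp ((θ : ℂ) * Complex.I)))
        (nhdsWithin 1 (Set.Iio 1)) (nhds w) := by
  have hh1 := hh.summable_norm hβ
  have hf1 := hf.summable_norm hβ
  have hh0 : h ≠ 0 := by
    intro h0
    apply hne
    funext n
    simp [cmul, h0]
  have hM : ∀ z : ℂ, ‖z‖ ≤ 1 → ‖ev h z‖ ≤ (∑' n, ‖h n‖) + 1 := fun z hz =>
    (norm_ev_le hh1 hz).trans (by linarith)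
  have hM0 : 0 < (∑' n, ‖h n‖) + 1 := by
    have : 0 ≤ ∑' n, ‖h n‖ := tsum_nonneg fun _ => norm_nonneg _
    linarith
  filter_upwards [(pj hh1 hh0 hM0 hM).2.1] with θ hθ
  have hee : ee (θ : ℂ) = Complex.exp ((θ : ℂ) * Complex.I) := by
    unfold ee; rw [mul_comm]
  rw [hee] at hθ
  obtain ⟨e, he⟩ : ∃ e : ℂ, e = Complex.exp ((θ : ℂ) * Complex.I) := ⟨_, rfl⟩
  have he1 : ‖e‖ = 1 := by rw [he, Complex.norm_exp_ofReal_mul_I]
  rw [← he] at hθ ⊢
  refine ⟨ev (cmul s h) e / ev h e, ?_, ?_⟩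
  · rw [norm_div, hs.norm_eq hβ hβ1 hh hf he1, div_self]
    exact norm_ne_zero_iff.2 hθ
  have hin : ∀ r : ℝ, 0 < r → r < 1 → (r : ℂ) * e ∈ Metric.ball (0 : ℂ) 1 := by
    intro r hr0 hr1
    rw [mem_ball_zero_iff, norm_mul, he1, mul_one, Complex.norm_real, Real.norm_eq_abs,
      abs_of_pos hr0]
    exact hr1
  have hlim : Tendsto (fun r : ℝ => (r : ℂ) * e) (𝓝[<] 1) (𝓝[Metric.closedBall 0 1] e) := by
    apply tendsto_nhdsWithin_of_tendsto_nhds_of_eventually_within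
    · have hc : Continuous fun r : ℝ => (r : ℂ) * e := by fun_prop
      have h1 := (hc.tendsto 1).mono_left (nhdsWithin_le_nhds (s := Set.Iio 1))
      simpa using h1
    · filter_upwards [Ioo_mem_nhdsLT (zero_lt_one' ℝ)] with r hr
      exact Metric.ball_subset_closedBall (hin r hr.1 hr.2)
  have hcl : e ∈ Metric.closedBall (0 : ℂ) 1 := by simp [he1]
  have hcf := ((continuousOn_ev hf1) e hcl).tendsto.comp hlim
  have hch := ((continuousOn_ev hh1) e hcl).tendsto.comp hlim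
  have hdiv := hcf.div hch hθ
  refine hdiv.congr' ?_
  have hne0 : ∀ᶠ r : ℝ in 𝓝[<] 1, (ev h ∘ fun r : ℝ => (r : ℂ) * e) r ≠ 0 :=
    hch.eventually_ne hθ
  filter_upwards [hne0, Ioo_mem_nhdsLT (zero_lt_one' ℝ)] with r hr0 hr
  simp only [Function.comp_apply, Pi.div_apply] at hr0 ⊢
  obtain ⟨B, hB⟩ : ∃ B : ℝ, ∀ n, ‖h n‖ ≤ B :=
    ⟨∑' n, ‖h n‖, fun n => hh1.le_tsum n fun _ _ => norm_nonneg _⟩
  rw [ev_cmul_of_bdd hs.norm_le hB (hin r hr.1 hr.2)]
  field_simp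

end MP_9d6c91_an
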