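import Pool.Agent.Lib.MP_9d6c91_an.JJA

/-!
# JOB JJB : elementary properties of the nonlocal operator `Jr (dE E) X t = ∫ X(s) / (d(t) + |t-s|)² ds`

`d(t) > 0` for `t ∉ E`, `d ≤ π`, `d` is 1-Lipschitz and periodic.
* integrability: split `ℝ` in the intervals `t + (2k-1)π, t + (2k+1)π)`; on the `k`-th one, `k ≠ 0`, the kernel is `≤ 1/(π² k²)`.
* `Jr_one_le` : `∫ ds / (d + |t-s|)² = 2 / d`.
* `Jr_harnack` : `|t' - t| ≤ θ d(t)` implies `d(t') + |t'-s| ≥ (1 - 2θ)(d(t) + |t-s|)`.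
* `Jr_window` : constant `15` because `∑_{k≠0} 1/(π² k²) = 1/3` and `1/(d + |t-s|)² ≥ 1/(2π)²`.
* `tail_le_Jr` : for `|s - t| ≥ R` : `d₀ + |s - t₀| ≤ d₀ + |t - t₀| + |s - t| ≤ ...`.
-/

set_option autoImplicit false

open MeasureTheory Complex Filter Topology Set
open scoped ENNReal Real

namespace MP_9d6c91_an

variable {E : Set ℝ} {X Y : ℝ → ℝ} {t : ℝ}

/-- comparison of the kernels at two points -/
private theorem jjb_kernel {t' θ : ℝ} (hd : 0 < dE E t) (hθ1 : θ < 1 / 2)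
    (h : |t' - t| ≤ θ * dE E t) (s : ℝ) :
    1 / (dE E t' + |t' - s|) ^ 2 ≤ 1 / (dE E t + |t - s|) ^ 2 / (1 - 2 * θ) ^ 2 := by
  have hθ0 : 0 ≤ θ := by
    by_contra hcon
    push Not at hcon
    nlinarith [abs_nonneg (t' - t)]
  have h1 : dE E t - |t' - t| ≤ dE E t' := by
    have := dE_lip E t' t
    have h2 := abs_le.1 this
    linarith [h2.1]
  have h2 : |t - s| - |t' - t| ≤ |t' - s| := by
    have := abs_sub_abs_le_abs_sub (t - s) (t - t')
    have h3 : t - s - (t - t') = t' - s := by ring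
    rw [h3] at this
    rw [abs_sub_comm t' t]
    exact this
  have h3 : (1 - 2 * θ) * (dE E t + |t - s|) ≤ dE E t' + |t' - s| := by
    nlinarith [abs_nonneg (t - s)]
  have hc : 0 < 1 - 2 * θ := by linarith
  have hk : 0 < dE E t + |t - s| := by positivity
  rw [div_div, ← mul_pow]
  apply one_div_le_one_div_of_le (by positivity)
  rw [mul_comm]
  gcongr

theorem Jr_harnack (hE : GE E) (hne : E.Nonempty) (hX : PX X) (ht : t ∉ E) {t' θ : ℝ} (hθ : 0 ≤ θ)
    (hθ1 : θ < 1 / 2) (h : |t' - t| ≤ θ * dE E t) :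
    Jr (dE E) X t' ≤ Jr (dE E) X t / (1 - 2 * θ) ^ 2 := by
  have hd : 0 < dE E t := dE_pos hE hne ht
  unfold Jr
  rw [← integral_div]
  apply integral_mono_of_nonneg
  · exact Eventually.of_forall fun s => mul_nonneg (hX.nonneg s) (by positivity)
  · exact (Jr_integrable hE hne hX ht).div_const _
  · refine Eventually.of_forall fun s => ?_
    show X s * (1 / (dE E t' + |t' - s|) ^ 2) ≤ X s * (1 / (dE E t + |t - s|) ^ 2) / (1 - 2 * θ) ^ 2
    rw [mul_div_assoc]
    exact mul_le_mul_of_nonneg_left (jjb_kernel hd hθ1 h s) (hX.nonneg s)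

theorem ofReal_Jr (hE : GE E) (hne : E.Nonempty) (hX : PX X) (ht : t ∉ E) :
    ENNReal.ofReal (Jr (dE E) X t) =
      ∫⁻ s, ENNReal.ofReal (X s) * ENNReal.ofReal (1 / (dE E t + |t - s|) ^ 2) := by
  unfold Jr
  rw [ofReal_integral_eq_lintegral_ofReal (Jr_integrable hE hne hX ht)
    (Eventually.of_forall fun s => mul_nonneg (hX.nonneg s) (by positivity))]
  congr 1
  funext s
  rw [ENNReal.ofReal_mul (hX.nonneg s)]

private theorem jjb_shift {f : ℝ → ℝ≥0∞} (hf : Measurable f) (hper : ∀ x, f (x + 2 * π) = f x)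
    (a b : ℝ) : ∫⁻ x in Ioc (a + 2 * π) (b + 2 * π), f x = ∫⁻ x in Ioc a b, f x := by
  have h := (measurePreserving_add_right (volume : Measure ℝ) (2 * π)).setLIntegral_comp_preimage
    (measurableSet_Ioc (a := a + 2 * π) (b := b + 2 * π)) hf
  have h2 : (fun x : ℝ => x + 2 * π) ⁻¹' Ioc (a + 2 * π) (b + 2 * π) = Ioc a b := by
    ext x
    simp only [mem_preimage, mem_Ioc]
    constructor
    · rintro ⟨h1, h2⟩
      exact ⟨by linarith, by linarith⟩
    · rintro ⟨h1, h2⟩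
      exact ⟨by linarith, by linarith⟩
  rw [h2] at h
  rw [← h]
  simp only [hper]

private theorem jjb_shift_nat {f : ℝ → ℝ≥0∞} (hf : Measurable f)
    (hper : ∀ x, f (x + 2 * π) = f x) (a b : ℝ) (n : ℕ) :
    ∫⁻ x in Ioc (a + n * (2 * π)) (b + n * (2 * π)), f x = ∫⁻ x in Ioc a b, f x := by
  induction n with
  | zero => simp
  | succ n ih =>
    rw [← ih, ← jjb_shift hf hper (a + n * (2 * π)) (b + n * (2 * π))]
    congr 2
    push_cast
    congr 1 <;> ring

private theorem jjb_shift_int {f : ℝ → ℝ≥0∞} (hf : Measurable f)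
    (hper : ∀ x, f (x + 2 * π) = f x) (a b : ℝ) (n : ℤ) :
    ∫⁻ x in Ioc (a + n * (2 * π)) (b + n * (2 * π)), f x = ∫⁻ x in Ioc a b, f x := by
  obtain ⟨k, rfl | rfl⟩ := n.eq_nat_or_neg
  · exact_mod_cast jjb_shift_nat hf hper a b k
  · rw [← jjb_shift_nat hf hper (a + ((-(k : ℤ) : ℤ) : ℝ) * (2 * π)) _ k]
    congr 2
    push_cast
    congr 1 <;> ring

/-- one piece of the kernel integral -/
private theorem jjb_piece {f : ℝ → ℝ≥0∞} (hf : Measurable f) (hper : ∀ x, f (x + 2 * π) = f x)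
    (t d : ℝ) (hd : 0 < d) (n : ℤ) (m : ℕ)
    (h : ∀ s ∈ Ioc (t - π + n * (2 * π)) (t + π + n * (2 * π)), (m + 1 : ℝ) * π ≤ |t - s|) :
    ∫⁻ s in Ioc (t - π + n * (2 * π)) (t + π + n * (2 * π)),
      f s * ENNReal.ofReal (1 / (d + |t - s|) ^ 2) ≤
    (∫⁻ s in Ioc (t - π) (t + π), f s) * ENNReal.ofReal (1 / ((m + 1 : ℕ) : ℝ) ^ 2 / π ^ 2) := by
  have hpi := Real.pi_pos
  rw [← jjb_shift_int hf hper (t - π) (t + π) n, ← lintegral_mul_const _ hf]
  apply setLIntegral_mono' measurableSet_Ioc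
  intro s hs
  have h1 := h s hs
  refine mul_le_mul' le_rfl (ENNReal.ofReal_le_ofReal ?_)
  rw [div_div, ← mul_pow]
  apply one_div_le_one_div_of_le (by positivity)
  push_cast
  gcongr
  linarith

private theorem jjb_tsum :
    ∑' m : ℕ, ENNReal.ofReal (1 / ((m + 1 : ℕ) : ℝ) ^ 2 / π ^ 2) = ENNReal.ofReal (1 / 6) := by
  have hpi := Real.pi_pos
  have h1 : HasSum (fun m : ℕ => 1 / ((m + 1 : ℕ) : ℝ) ^ 2) (π ^ 2 / 6) := by
    have h2 := (hasSum_nat_add_iff' 1).2 hasSum_zeta_two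
    simpa using h2
  have h3 := h1.div_const (π ^ 2)
  rw [← ENNReal.ofReal_tsum_of_nonneg (fun m => by positivity) h3.summable, h3.tsum_eq]
  congr 1
  field_simp

private theorem jjb_window {f : ℝ → ℝ≥0∞} (hf : Measurable f)
    (hper : ∀ x, f (x + 2 * π) = f x) (t d : ℝ) (hd : 0 < d) (hdπ : d ≤ π) :
    ∫⁻ s, f s * ENNReal.ofReal (1 / (d + |t - s|) ^ 2) ≤
      ENNReal.ofReal 15 *
        ∫⁻ s in Ioc (t - π) (t + π), f s * ENNReal.ofReal (1 / (d + |t - s|) ^ 2) := by
  have hpi := Real.pi_pos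
  set F : ℝ → ℝ≥0∞ := fun s => f s * ENNReal.ofReal (1 / (d + |t - s|) ^ 2) with hF
  set A : ℝ≥0∞ := ∫⁻ s in Ioc (t - π) (t + π), f s with hA
  set W : ℝ≥0∞ := ∫⁻ s in Ioc (t - π) (t + π), F s with hW
  have hkm : Measurable fun s : ℝ => ENNReal.ofReal (1 / (d + |t - s|) ^ 2) :=
    ENNReal.measurable_ofReal.comp (by fun_prop)
  -- comparison of `A` and `W`
  have hAW : A ≤ ENNReal.ofReal (4 * π ^ 2) * W := by
    have hFm : Measurable F := hf.mul hkm
    rw [hA, hW, ← lintegral_const_mul _ hFm]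
    apply setLIntegral_mono' measurableSet_Ioc
    intro s hs
    rw [hF]
    show f s ≤ ENNReal.ofReal (4 * π ^ 2) * (f s * ENNReal.ofReal (1 / (d + |t - s|) ^ 2))
    have h1 : |t - s| ≤ π := by
      rw [abs_le]
      exact ⟨by linarith [hs.2], by linarith [hs.1]⟩
    have h2 : 1 ≤ 4 * π ^ 2 * (1 / (d + |t - s|) ^ 2) := by
      have h3 : 0 < d + |t - s| := by positivity
      rw [mul_one_div, le_div_iff₀ (by positivity), one_mul]
      have : d + |t - s| ≤ 2 * π := by linarith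
      nlinarith
    calc f s = f s * ENNReal.ofReal 1 := by rw [ENNReal.ofReal_one, mul_one]
      _ ≤ f s * ENNReal.ofReal (4 * π ^ 2 * (1 / (d + |t - s|) ^ 2)) := by gcongr
      _ = ENNReal.ofReal (4 * π ^ 2) * (f s * ENNReal.ofReal (1 / (d + |t - s|) ^ 2)) := by
          rw [ENNReal.ofReal_mul (by positivity)]; ring
  -- decomposition
  have hsets : ∀ n : ℤ, Ioc (t - π + n • (2 * π)) (t - π + (n + 1) • (2 * π)) =
      Ioc (t - π + n * (2 * π)) (t + π + n * (2 * π)) := by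
    intro n
    simp only [zsmul_eq_mul]
    push_cast
    congr 1
    ring
  have hdec : ∫⁻ s, F s = ∑' n : ℤ, ∫⁻ s in Ioc (t - π + n * (2 * π)) (t + π + n * (2 * π)), F s := by
    rw [← setLIntegral_univ, ← iUnion_Ioc_add_zsmul (p := 2 * π) (by positivity) (t - π),
      lintegral_iUnion (fun n => measurableSet_Ioc) (pairwise_disjoint_Ioc_add_zsmul (t - π) (2 * π))]
    congr 1
    funext n
    rw [hsets n]
  rw [hdec, tsum_of_nat_of_neg_add_one ENNReal.summable ENNReal.summable,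
    tsum_eq_zero_add' ENNReal.summable]
  have h0 : ∫⁻ s in Ioc (t - π + ((0 : ℕ) : ℤ) * (2 * π)) (t + π + (((0 : ℕ) : ℤ) : ℝ) * (2 * π)), F s = W := by
    rw [hW]
    congr 2
    simp
  have h1 : ∑' m : ℕ, ∫⁻ s in Ioc (t - π + ((m + 1 : ℕ) : ℤ) * (2 * π))
      (t + π + (((m + 1 : ℕ) : ℤ) : ℝ) * (2 * π)), F s ≤ A * ENNReal.ofReal (1 / 6) := by
    rw [← jjb_tsum, ← ENNReal.tsum_mul_left]
    apply ENNReal.tsum_le_tsum
    intro m
    apply jjb_piece hf hper t d hd
    intro s hs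
    have h2 := hs.1
    push_cast at h2
    have hm : (0 : ℝ) ≤ m := Nat.cast_nonneg m
    have h3 : (m + 1 : ℝ) * π ≤ s - t := by nlinarith
    rw [abs_sub_comm]
    exact h3.trans (le_abs_self _)
  have h2 : ∑' m : ℕ, ∫⁻ s in Ioc (t - π + ((-((m : ℤ) + 1) : ℤ) : ℝ) * (2 * π))
      (t + π + ((-((m : ℤ) + 1) : ℤ) : ℝ) * (2 * π)), F s ≤ A * ENNReal.ofReal (1 / 6) := by
    rw [← jjb_tsum, ← ENNReal.tsum_mul_left]
    apply ENNReal.tsum_le_tsum
    intro m
    apply jjb_piece hf hper t d hd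
    intro s hs
    have h2 := hs.2
    push_cast at h2
    have hm : (0 : ℝ) ≤ m := Nat.cast_nonneg m
    have h3 : (m + 1 : ℝ) * π ≤ t - s := by nlinarith
    exact h3.trans (le_abs_self _)
  rw [h0]
  refine (add_le_add (add_le_add le_rfl h1) h2).trans ?_
  calc W + A * ENNReal.ofReal (1 / 6) + A * ENNReal.ofReal (1 / 6)
      = W + A * ENNReal.ofReal (1 / 3) := by
        rw [add_assoc, ← mul_add, ← ENNReal.ofReal_add (by norm_num) (by norm_num)]
        norm_num
    _ ≤ W + (ENNReal.ofReal (4 * π ^ 2) * W) * ENNReal.ofReal (1 / 3) := by gcongr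
    _ = ENNReal.ofReal (1 + 4 * π ^ 2 / 3) * W := by
        rw [ENNReal.ofReal_add (by norm_num) (by positivity), add_mul, ENNReal.ofReal_one, one_mul]
        congr 1
        rw [mul_right_comm, ← ENNReal.ofReal_mul (by positivity)]
        congr 2
        ring
    _ ≤ ENNReal.ofReal 15 * W := by
        gcongr
        nlinarith [Real.pi_lt_d2, Real.pi_pos]

theorem Jr_window (hE : GE E) (hne : E.Nonempty) (hX : PX X) (ht : t ∉ E) :
    Jr (dE E) X t ≤ 15 * ∫ s in (t - π)..(t + π), X s * (1 / (dE E t + |t - s|) ^ 2) := by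
  have hpi := Real.pi_pos
  have hd : 0 < dE E t := dE_pos hE hne ht
  have hnn : 0 ≤ ∫ s in Ioc (t - π) (t + π), X s * (1 / (dE E t + |t - s|) ^ 2) :=
    setIntegral_nonneg measurableSet_Ioc fun s _ => mul_nonneg (hX.nonneg s) (by positivity)
  rw [intervalIntegral.integral_of_le (by linarith)]
  rw [← ENNReal.ofReal_le_ofReal_iff (by positivity), ofReal_Jr hE hne hX ht,
    ENNReal.ofReal_mul (by norm_num),
    ofReal_integral_eq_lintegral_ofReal (Jr_integrable hE hne hX ht).integrableOn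
      (Eventually.of_forall fun s => mul_nonneg (hX.nonneg s) (by positivity))]
  refine (jjb_window (f := fun s => ENNReal.ofReal (X s)) (ENNReal.measurable_ofReal.comp hX.meas)
    (fun x => by rw [hX.per]) t (dE E t) hd (dE_le_pi hE hne t)).trans ?_
  gcongr with s
  rw [ENNReal.ofReal_mul (hX.nonneg s)]

/-- the tail integral of `core` in terms of `Jr` at a possibly different point -/
theorem tail_le_Jr (hE : GE E) (hne : E.Nonempty) (hX : PX X) {t₀ t R A : ℝ} (ht₀ : t₀ ∉ E) (hR : 0 < R)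
    (hA : dE E t₀ + |t - t₀| ≤ A * R) :
    ∫ s in {s : ℝ | R ≤ |s - t| ∧ |s - t| ≤ π}, X s / |s - t| ^ 2 ≤ (A + 1) ^ 2 * Jr (dE E) X t₀ := by
  have hd : 0 < dE E t₀ := dE_pos hE hne ht₀
  have hA0 : 0 ≤ A := by
    by_contra hcon
    push Not at hcon
    nlinarith [abs_nonneg (t - t₀)]
  have hint : Integrable fun s => (A + 1) ^ 2 * (X s * (1 / (dE E t₀ + |t₀ - s|) ^ 2)) :=
    (Jr_integrable hE hne hX ht₀).const_mul _
  have hmeas : MeasurableSet {s : ℝ | R ≤ |s - t| ∧ |s - t| ≤ π} := by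
    have h1 : Measurable fun s : ℝ => |s - t| := by fun_prop
    exact (measurableSet_le measurable_const h1).inter (measurableSet_le h1 measurable_const)
  calc ∫ s in {s : ℝ | R ≤ |s - t| ∧ |s - t| ≤ π}, X s / |s - t| ^ 2
      ≤ ∫ s in {s : ℝ | R ≤ |s - t| ∧ |s - t| ≤ π},
          (A + 1) ^ 2 * (X s * (1 / (dE E t₀ + |t₀ - s|) ^ 2)) := by
        apply integral_mono_of_nonneg
        · exact Eventually.of_forall fun s => div_nonneg (hX.nonneg s) (by positivity)
        · exact hint.integrableOn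
        · refine (ae_restrict_iff' hmeas).2 (Eventually.of_forall fun s hs => ?_)
          show X s / |s - t| ^ 2 ≤ (A + 1) ^ 2 * (X s * (1 / (dE E t₀ + |t₀ - s|) ^ 2))
          have h1 : R ≤ |s - t| := hs.1
          have h2 : |t₀ - s| ≤ |t - t₀| + |s - t| := by
            have := abs_sub_le t₀ t s
            rw [abs_sub_comm t₀ t, abs_sub_comm t s] at this
            exact this
          have h3 : dE E t₀ + |t₀ - s| ≤ (A + 1) * |s - t| := by nlinarith
          have h4 : 0 < |s - t| := hR.trans_le h1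
          have h5 : 0 < dE E t₀ + |t₀ - s| := by positivity
          have h6 : 1 / |s - t| ^ 2 ≤ (A + 1) ^ 2 * (1 / (dE E t₀ + |t₀ - s|) ^ 2) := by
            rw [mul_one_div, div_le_div_iff₀ (by positivity) (by positivity), one_mul, ← mul_pow]
            gcongr
          calc X s / |s - t| ^ 2 = X s * (1 / |s - t| ^ 2) := by rw [mul_one_div]
            _ ≤ X s * ((A + 1) ^ 2 * (1 / (dE E t₀ + |t₀ - s|) ^ 2)) :=
                mul_le_mul_of_nonneg_left h6 (hX.nonneg s)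
            _ = (A + 1) ^ 2 * (X s * (1 / (dE E t₀ + |t₀ - s|) ^ 2)) := by ring
    _ ≤ ∫ s, (A + 1) ^ 2 * (X s * (1 / (dE E t₀ + |t₀ - s|) ^ 2)) := by
        apply setIntegral_le_integral hint
        exact Eventually.of_forall fun s =>
          mul_nonneg (by positivity) (mul_nonneg (hX.nonneg s) (by positivity))
    _ = (A + 1) ^ 2 * Jr (dE E) X t₀ := by
        rw [integral_const_mul]
        rfl

/-- joint measurability -/
theorem measurable_Jr (hX : PX X) : Measurable (Jr (dE E) X) := by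
  have hdm : Measurable (dE E) := (Metric.continuous_infDist_pt E).measurable
  have h1 : Measurable (Function.uncurry fun (t s : ℝ) => X s * (1 / (dE E t + |t - s|) ^ 2)) := by
    have h2 : Measurable fun p : ℝ × ℝ => X p.2 := hX.meas.comp measurable_snd
    have h3 : Measurable fun p : ℝ × ℝ => dE E p.1 := hdm.comp measurable_fst
    have h4 : Measurable fun p : ℝ × ℝ => |p.1 - p.2| := by fun_prop
    exact h2.mul (measurable_const.div ((h3.add h4).pow_const 2))
  exact (StronglyMeasurable.integral_prod_right (ν := volume) h1.stronglyMeasurable).measurable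

theorem Jr_per (hE : GE E) (hX : PX X) (t : ℝ) : Jr (dE E) X (t + 2 * π) = Jr (dE E) X t := by
  unfold Jr
  rw [← integral_add_right_eq_self _ (2 * π)]
  congr 1
  funext s
  rw [hX.per, dE_per hE]
  have : t + 2 * π - (s + 2 * π) = t - s := by ring
  rw [this]

/-- Harnack inequality for `W = d^(-α) + J[u]^β` -/
theorem WW_harnack {α β : ℝ} (hα : 0 < α) (hα1 : α < 1) (hβ : 0 < β) (hβ1 : β ≤ 1 / 2) (hE : GE E)
    (hne : E.Nonempty) (hX : PX X) (ht : t ∉ E) {t' θ : ℝ} (hθ : 0 ≤ θ)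
    (hθ1 : θ < 1 / 2) (h : |t' - t| ≤ θ * dE E t) :
    WW α β E X t' ≤ WW α β E X t / (1 - 2 * θ) := by
  have hd : 0 < dE E t := dE_pos hE hne ht
  have hc : 0 < 1 - 2 * θ := by linarith
  have hc1 : 1 - 2 * θ ≤ 1 := by linarith
  have h1 : (1 - 2 * θ) * dE E t ≤ dE E t' := by
    have := dE_lip E t' t
    have h2 := abs_le.1 this
    nlinarith [h2.1]
  unfold WW
  rw [add_div]
  apply add_le_add
  · calc dE E t' ^ (-α) ≤ ((1 - 2 * θ) * dE E t) ^ (-α) :=
          Real.rpow_le_rpow_of_nonpos (by positivity) h1 (by linarith)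
      _ = (1 - 2 * θ) ^ (-α) * dE E t ^ (-α) := Real.mul_rpow hc.le hd.le
      _ ≤ (1 - 2 * θ) ^ (-1 : ℝ) * dE E t ^ (-α) := by
          gcongr ?_ * _
          exact Real.rpow_le_rpow_of_exponent_ge hc hc1 (by linarith)
      _ = dE E t ^ (-α) / (1 - 2 * θ) := by
          rw [Real.rpow_neg_one, mul_comm, ← div_eq_mul_inv]
  · have hJ := Jr_harnack hE hne hX ht hθ hθ1 h
    have hJ0 : 0 ≤ Jr (dE E) X t := Jr_nonneg hX
    have hJ0' : 0 ≤ Jr (dE E) X t' := Jr_nonneg hX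
    calc Jr (dE E) X t' ^ β ≤ (Jr (dE E) X t / (1 - 2 * θ) ^ 2) ^ β :=
          Real.rpow_le_rpow hJ0' hJ hβ.le
      _ = Jr (dE E) X t ^ β * ((1 - 2 * θ) ^ (-2 : ℝ)) ^ β := by
          rw [div_eq_mul_inv, Real.mul_rpow hJ0 (by positivity)]
          congr 2
          rw [Real.rpow_neg hc.le]
          norm_num
      _ = Jr (dE E) X t ^ β * (1 - 2 * θ) ^ (-2 * β) := by
          rw [← Real.rpow_mul hc.le]
      _ ≤ Jr (dE E) X t ^ β * (1 - 2 * θ) ^ (-1 : ℝ) := by
          gcongr _ * ?_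
          exact Real.rpow_le_rpow_of_exponent_ge hc hc1 (by linarith)
      _ = Jr (dE E) X t ^ β / (1 - 2 * θ) := by
          rw [Real.rpow_neg_one, ← div_eq_mul_inv]

end MP_9d6c91_an
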