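import Pool.Agent.Lib.MP_9d6c91_an.Geo

/-!
# JOB JJA : elementary properties of the nonlocal operator `Jr (dE E) X t = ∫ X(s) / (d(t) + |t-s|)² ds`

`d(t) > 0` for `t ∉ E`, `d ≤ π`, `d` is 1-Lipschitz and periodic.
* integrability: split `ℝ` in the intervals `t + (2k-1)π, t + (2k+1)π)`; on the `k`-th one, `k ≠ 0`, the kernel is `≤ 1/(π² k²)`.
* `Jr_one_le` : `∫ ds / (d + |t-s|)² = 2 / d`.
* `Jr_harnack` : `|t' - t| ≤ θ d(t)` implies `d(t') + |t'-s| ≥ (1 - 2θ)(d(t) + |t-s|)`.
* `Jr_window` : constant `15` because `∑_{k≠0} 1/(π² k²) = 1/3` and `1/(d + |t-s|)² ≥ 1/(2π)²`.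
* `tail_le_Jr` : for `|s - t| ≥ R` : `d₀ + |s - t₀| ≤ d₀ + |t - t₀| + |s - t| ≤ ...`.
-/

set_option autoImplicit false

open MeasureTheory Complex Filter Topology Set
open scoped ENNReal Real

namespace MP_9d6c91_an

variable {E : Set ℝ} {X Y : ℝ → ℝ} {t : ℝ}

theorem PX.add (hX : PX X) (hY : PX Y) : PX (fun t => X t + Y t) where
  meas := hX.meas.add hY.meas
  nonneg t := add_nonneg (hX.nonneg t) (hY.nonneg t)
  per t := by rw [hX.per, hY.per]
  int := hX.int.add hY.int

theorem PX.const {c : ℝ} (hc : 0 ≤ c) : PX (fun _ => c) where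
  meas := measurable_const
  nonneg _ := hc
  per _ := rfl
  int := intervalIntegrable_const

theorem PX.smul {c : ℝ} (hc : 0 ≤ c) (hX : PX X) : PX (fun t => c * X t) where
  meas := hX.meas.const_mul c
  nonneg t := mul_nonneg hc (hX.nonneg t)
  per t := by rw [hX.per]
  int := hX.int.const_mul c

/-- decomposition of an integral over the line in translates of a period -/
theorem jja_lintegral_eq_tsum (F : ℝ → ℝ≥0∞) (a : ℝ) :
    ∫⁻ s, F s = ∑' k : ℤ, ∫⁻ s in Ioc a (a + 2 * π), F (s + k * (2 * π)) := by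
  have hp : (0 : ℝ) < 2 * π := by positivity
  have hU : (⋃ n : ℤ, Ioc (a + n • (2 * π)) (a + (n + 1) • (2 * π))) = univ :=
    iUnion_Ioc_add_zsmul hp a
  calc ∫⁻ s, F s = ∫⁻ s in ⋃ n : ℤ, Ioc (a + n • (2 * π)) (a + (n + 1) • (2 * π)), F s := by
        rw [hU, setLIntegral_univ]
    _ = ∑' n : ℤ, ∫⁻ s in Ioc (a + n • (2 * π)) (a + (n + 1) • (2 * π)), F s :=
        lintegral_iUnion (fun _ => measurableSet_Ioc) (pairwise_disjoint_Ioc_add_zsmul a (2 * π)) F
    _ = ∑' k : ℤ, ∫⁻ s in Ioc a (a + 2 * π), F (s + k * (2 * π)) := by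
        refine tsum_congr fun k => ?_
        rw [← lintegral_indicator measurableSet_Ioc, ← lintegral_indicator measurableSet_Ioc,
          ← lintegral_add_right_eq_self _ ((k : ℝ) * (2 * π))]
        refine lintegral_congr fun s => ?_
        by_cases hs : s ∈ Ioc a (a + 2 * π)
        · rw [indicator_of_mem hs, indicator_of_mem]
          simp only [zsmul_eq_mul, mem_Ioc] at hs ⊢
          push_cast
          constructor <;> linarith [hs.1, hs.2]
        · rw [indicator_of_notMem hs, indicator_of_notMem]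
          intro h
          apply hs
          simp only [zsmul_eq_mul, mem_Ioc] at h ⊢
          push_cast at h
          constructor <;> linarith [h.1, h.2]

theorem jja_per_int (hX : PX X) (k : ℤ) (s : ℝ) : X (s + k * (2 * π)) = X s := by
  have h : Function.Periodic X (2 * π) := hX.per
  have := (h.int_mul k) s
  simpa using this

theorem jja_lintegral_period_lt_top (hX : PX X) (a : ℝ) :
    ∫⁻ s in Ioc a (a + 2 * π), ENNReal.ofReal (X s) < ⊤ := by
  have hp : (0 : ℝ) < 2 * π := by positivity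
  have h : Function.Periodic X (2 * π) := hX.per
  have h1 : IntervalIntegrable X volume a (a + 2 * π) := by
    have h0 : IntervalIntegrable X volume (-π) (-π + 2 * π) := by
      have : -π + 2 * π = π := by ring
      rw [this]
      exact hX.int
    exact h.intervalIntegrable hp.ne' h0 a (a + 2 * π)
  rw [intervalIntegrable_iff_integrableOn_Ioc_of_le (by linarith)] at h1
  have h2 := h1.2
  have h3 : ∀ s, ENNReal.ofReal (X s) = ‖X s‖ₑ := fun s => by
    rw [Real.enorm_eq_ofReal (hX.nonneg s)]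
  simp only [h3]
  exact h2

theorem Jr_integrable (hE : GE E) (hne : E.Nonempty) (hX : PX X) (ht : t ∉ E) :
    Integrable fun s => X s * (1 / (dE E t + |t - s|) ^ 2) := by
  have hd : 0 < dE E t := dE_pos hE hne ht
  set d : ℝ := dE E t with hddef
  have hKm : Measurable fun s : ℝ => 1 / (d + |t - s|) ^ 2 := by
    fun_prop
  have hm : Measurable fun s => X s * (1 / (d + |t - s|) ^ 2) := hX.meas.mul hKm
  refine ⟨hm.aestronglyMeasurable, ?_⟩
  have hen : ∀ s, ‖X s * (1 / (d + |t - s|) ^ 2)‖ₑ =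
      ENNReal.ofReal (X s) * ENNReal.ofReal (1 / (d + |t - s|) ^ 2) := fun s => by
    rw [Real.enorm_eq_ofReal (mul_nonneg (hX.nonneg s) (by positivity)),
      ENNReal.ofReal_mul (hX.nonneg s)]
  unfold HasFiniteIntegral
  simp only [hen]
  rw [jja_lintegral_eq_tsum _ (t - π)]
  set c : ℤ → ℝ := fun k => (if k = 0 then 1 / d ^ 2 else 0) + 1 / π ^ 2 * (1 / (k : ℝ) ^ 2) with hcdef
  have hc0 : ∀ k, 0 ≤ c k := fun k => by
    simp only [hcdef]
    have : 0 ≤ (if k = 0 then 1 / d ^ 2 else 0) := by split_ifs <;> positivity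
    positivity
  have hcs : Summable c := by
    refine Summable.add ?_ ?_
    · exact summable_of_hasFiniteSupport ((finite_singleton (0 : ℤ)).subset (by
        intro k hk
        by_contra h
        apply hk
        simp only [mem_singleton_iff] at h
        simp [h]))
    · exact (Real.summable_one_div_int_pow.mpr (by norm_num)).mul_left _
  have hle : ∀ k : ℤ, ∫⁻ s in Ioc (t - π) (t - π + 2 * π),
      ENNReal.ofReal (X (s + k * (2 * π))) * ENNReal.ofReal (1 / (d + |t - (s + k * (2 * π))|) ^ 2) ≤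
      ENNReal.ofReal (c k) * ∫⁻ s in Ioc (t - π) (t - π + 2 * π), ENNReal.ofReal (X s) := by
    intro k
    rw [← lintegral_const_mul _ hX.meas.ennreal_ofReal]
    refine setLIntegral_mono' measurableSet_Ioc fun s hs => ?_
    rw [jja_per_int hX, mul_comm]
    gcongr
    have h1 : |t - s| ≤ π := by
      rw [abs_le]
      constructor <;> linarith [hs.1, hs.2]
    by_cases hk : k = 0
    · subst hk
      simp only [hcdef, if_true]
      have : (1 : ℝ) / (d + |t - (s + ((0 : ℤ) : ℝ) * (2 * π))|) ^ 2 ≤ 1 / d ^ 2 := by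
        apply one_div_le_one_div_of_le (by positivity)
        have : 0 ≤ |t - (s + ((0 : ℤ) : ℝ) * (2 * π))| := abs_nonneg _
        gcongr
        linarith
      have h2 : (0 : ℝ) ≤ 1 / π ^ 2 * (1 / ((0 : ℤ) : ℝ) ^ 2) := by positivity
      linarith
    · simp only [hcdef, if_neg hk, zero_add]
      have hk1 : (1 : ℝ) ≤ |(k : ℝ)| := by
        have : (1 : ℤ) ≤ |k| := Int.one_le_abs hk
        exact_mod_cast this
      have h2 : π * |(k : ℝ)| ≤ |t - (s + k * (2 * π))| := by
        have h3 : |(k : ℝ) * (2 * π)| ≤ |t - (s + k * (2 * π))| + |t - s| := by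
          have : (k : ℝ) * (2 * π) = -(t - (s + k * (2 * π))) + (t - s) := by ring
          calc |(k : ℝ) * (2 * π)| = |-(t - (s + k * (2 * π))) + (t - s)| := by rw [← this]
            _ ≤ |-(t - (s + k * (2 * π)))| + |t - s| := abs_add_le _ _
            _ = _ := by rw [abs_neg]
        rw [abs_mul, abs_of_pos (by positivity : (0 : ℝ) < 2 * π)] at h3
        nlinarith [Real.pi_pos]
      have h4 : 1 / π ^ 2 * (1 / (k : ℝ) ^ 2) = 1 / (π * |(k : ℝ)|) ^ 2 := by
        rw [mul_pow, sq_abs]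
        field_simp
      rw [h4]
      apply one_div_le_one_div_of_le
      · have : 0 < π * |(k : ℝ)| := mul_pos Real.pi_pos (by linarith)
        positivity
      · have : 0 ≤ π * |(k : ℝ)| := by positivity
        gcongr
        linarith
  refine lt_of_le_of_lt (ENNReal.tsum_le_tsum hle) ?_
  rw [ENNReal.tsum_mul_right]
  refine ENNReal.mul_lt_top ?_ (jja_lintegral_period_lt_top hX _)
  rw [← ENNReal.ofReal_tsum_of_nonneg hc0 hcs]
  exact ENNReal.ofReal_lt_top

theorem Jr_nonneg (hX : PX X) : 0 ≤ Jr (dE E) X t :=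
  integral_nonneg fun s => mul_nonneg (hX.nonneg s) (by positivity)

theorem Jr_mono_ae (hE : GE E) (hne : E.Nonempty) (hX : PX X) (hY : PX Y) (ht : t ∉ E)
    (h : ∀ᵐ s : ℝ, X s ≤ Y s) : Jr (dE E) X t ≤ Jr (dE E) Y t := by
  refine integral_mono_ae (Jr_integrable hE hne hX ht) (Jr_integrable hE hne hY ht) ?_
  filter_upwards [h] with s hs
  exact mul_le_mul_of_nonneg_right hs (by positivity)

theorem Jr_add (hE : GE E) (hne : E.Nonempty) (hX : PX X) (hY : PX Y) (ht : t ∉ E) :
    Jr (dE E) (fun s => X s + Y s) t = Jr (dE E) X t + Jr (dE E) Y t := by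
  unfold Jr
  rw [← integral_add (Jr_integrable hE hne hX ht) (Jr_integrable hE hne hY ht)]
  refine integral_congr_ae (Eventually.of_forall fun s => ?_)
  simp only
  ring

theorem Jr_smul (c : ℝ) : Jr (dE E) (fun s => c * X s) t = c * Jr (dE E) X t := by
  unfold Jr
  rw [← integral_const_mul]
  refine integral_congr_ae (Eventually.of_forall fun s => ?_)
  simp only
  ring

theorem Jr_one_le (hE : GE E) (hne : E.Nonempty) (ht : t ∉ E) :
    Jr (dE E) (fun _ => 1) t ≤ 2 / dE E t := by
  have hd : 0 < dE E t := dE_pos hE hne ht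
  unfold Jr
  set d : ℝ := dE E t with hddef
  apply le_of_eq
  have h1 : ∫ s : ℝ, (1 : ℝ) * (1 / (d + |t - s|) ^ 2) = ∫ s : ℝ, 1 / (d + |s|) ^ 2 := by
    simp only [one_mul]
    exact integral_sub_left_eq_self (fun s : ℝ => 1 / (d + |s|) ^ 2) volume t
  rw [h1]
  have h2 : ∫ s : ℝ, 1 / (d + |s|) ^ 2 = 2 * ∫ s in Ioi (0 : ℝ), 1 / (d + s) ^ 2 :=
    integral_comp_abs (f := fun s : ℝ => 1 / (d + s) ^ 2)
  rw [h2]
  have h3 : ∫ s in Ioi (0 : ℝ), 1 / (d + s) ^ 2 = 0 - (-(1 / (d + 0))) := by
    refine integral_Ioi_of_hasDerivAt_of_nonneg' (g := fun s : ℝ => -(1 / (d + s)))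
      (g' := fun s : ℝ => 1 / (d + s) ^ 2) (l := 0) (a := 0) ?_ ?_ ?_
    · intro x hx
      have hx0 : 0 ≤ x := hx
      have hne0 : d + x ≠ 0 := by positivity
      have hder : HasDerivAt (fun s : ℝ => d + s) 1 x := by
        simpa using (hasDerivAt_id x).const_add d
      have h4 := (hder.inv hne0).neg
      have h5 : (fun s : ℝ => -(1 / (d + s))) = -(fun s : ℝ => d + s)⁻¹ := by
        funext s
        simp
      have h6 : (1 : ℝ) / (d + x) ^ 2 = -(-1 / (d + x) ^ 2) := by ring
      rw [h5, h6]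
      exact h4
    · intro x _
      positivity
    · have ht1 : Tendsto (fun s : ℝ => d + s) atTop atTop := tendsto_atTop_add_const_left _ _ tendsto_id
      have := (tendsto_inv_atTop_zero.comp ht1).neg
      rw [neg_zero] at this
      refine this.congr fun s => ?_
      simp
  rw [h3, add_zero]
  ring

end MP_9d6c91_an
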