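import Pool.Agent.Lib.MP_9d6c91_an.ThmM
import Pool.Agent.Lib.MP_9d6c91_an.HB
import Pool.Agent.Lib.MP_9d6c91_an.Inner
import Pool.Agent.Lib.MP_9d6c91_an.Gcd
import Pool.Agent.Lib.MP_9d6c91_an.Flatb

/-!
# JOB KEY : the theorem on the level of coefficients
-/

set_option autoImplicit false

open MeasureTheory Complex Filter Topology Set
open scoped ENNReal Real

namespace MP_9d6c91_an

private theorem key_sq {a : ℕ → ℂ} (ha : Summable fun n => ‖a n‖) : Summable fun n => ‖a n‖ ^ 2 := by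
  obtain ⟨B, hB⟩ := ha.tendsto_atTop_zero.bddAbove_range
  refine Summable.of_nonneg_of_le (fun n => by positivity) (fun n => ?_) (ha.mul_left B)
  rw [sq]
  exact mul_le_mul_of_nonneg_right (hB ⟨n, rfl⟩) (norm_nonneg _)

private theorem key_bdd {β : ℝ} (hβ : 0 < β) {a : ℕ → ℂ} (ha : Gv β a) : ∃ B : ℝ, ∀ n, ‖a n‖ ≤ B := by
  obtain ⟨B, hB⟩ := (Gv.summable_norm hβ ha).tendsto_atTop_zero.bddAbove_range
  exact ⟨B, fun n => hB ⟨n, rfl⟩⟩

private theorem key_ev_inj {β : ℝ} (hβ : 0 < β) {a b : ℕ → ℂ} (ha : Gv β a) (hb : Gv β b)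
    (h : ∀ z : ℂ, ‖z‖ ≤ 1 → ev a z = ev b z) : a = b := by
  obtain ⟨A, hA⟩ := key_bdd hβ ha
  obtain ⟨B, hB⟩ := key_bdd hβ hb
  exact ev_injective_of_bdd (B := max A B) (fun n => (hA n).trans (le_max_left _ _))
    (fun n => (hB n).trans (le_max_right _ _)) (fun z hz => h z (mem_ball_zero_iff.mp hz).le)

private theorem key_continuous_dv {β : ℝ} (hβ : 0 < β) {a : ℕ → ℂ} (ha : Gv β a) (j : ℕ) :
    Continuous fun x : ℝ => dv j a (ee (x : ℂ)) := by
  unfold dv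
  refine continuous_tsum (u := fun n : ℕ => ((n : ℝ) + 1) ^ j * ‖a n‖) (fun n => ?_)
    (Gv.summable_dv hβ ha j) (fun n x => ?_)
  · exact continuous_const.mul ((differentiable_ee.continuous.comp Complex.continuous_ofReal).pow _)
  · rw [norm_mul, norm_mul, norm_pow, norm_ee_real, one_pow, mul_one]
    refine mul_le_mul_of_nonneg_right ?_ (norm_nonneg _)
    rw [Complex.norm_natCast]
    calc ((n.descFactorial j : ℕ) : ℝ) ≤ ((n ^ j : ℕ) : ℝ) := by exact_mod_cast Nat.descFactorial_le_pow n j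
      _ = (n : ℝ) ^ j := by push_cast; ring
      _ ≤ ((n : ℝ) + 1) ^ j := pow_le_pow_left₀ (Nat.cast_nonneg n) (by linarith) j

/-- iterated division at a point of the open disc: not all `dv j a z` vanish -/
private theorem key_exists_dv {β : ℝ} (hβ : 0 < β) (hβ1 : β ≤ 1) {a : ℕ → ℂ} (ha : Gv β a) (hne : a ≠ 0)
    {z₀ : ℂ} (hz : ‖z₀‖ < 1) : ∃ j, dv j a z₀ ≠ 0 := by
  by_contra hcon
  push Not at hcon
  -- `ev a` vanishes to infinite order at `z₀`
  have hd : DifferentiableOn ℂ (ev a) (Metric.ball (0 : ℂ) 1) := differentiableOn_ev (Gv.summable_norm hβ ha)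
  have hz0 : z₀ ∈ Metric.ball (0 : ℂ) 1 := by simpa using hz
  have han : AnalyticOnNhd ℂ (ev a) (Metric.ball (0 : ℂ) 1) := hd.analyticOnNhd Metric.isOpen_ball
  have hord : ∀ m : ℕ, (m : ℕ∞) ≤ analyticOrderAt (ev a) z₀ := by
    intro m
    rw [natCast_le_analyticOrderAt (han z₀ hz0)]
    obtain ⟨a₁, ha₁, h1, -⟩ := dvdm hβ hβ1 m ha hz.le (fun j _ => hcon j)
    refine ⟨ev a₁, ?_, ?_⟩
    · exact ((differentiableOn_ev (Gv.summable_norm hβ ha₁)).analyticOnNhd Metric.isOpen_ball) z₀ hz0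
    · filter_upwards [Metric.isOpen_ball.mem_nhds hz0] with z hz
      rw [h1 z (mem_ball_zero_iff.mp hz).le, smul_eq_mul]
  have htop : analyticOrderAt (ev a) z₀ = ⊤ := by
    rw [ENat.eq_top_iff_forall_ge]
    exact hord
  rw [analyticOrderAt_eq_top] at htop
  have hzero : EqOn (ev a) 0 (Metric.ball (0 : ℂ) 1) :=
    han.eqOn_zero_of_preconnected_of_eventuallyEq_zero (convex_ball _ _).isPreconnected hz0 htop
  apply hne
  obtain ⟨B, hB⟩ := key_bdd hβ ha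
  refine ev_injective_of_bdd (B := max B 0) (fun n => (hB n).trans (le_max_left _ _))
    (fun n => by simp) (fun z hz => ?_)
  rw [ev_zero']
  exact hzero hz

theorem key {α : ℝ} (hα : 0 < α) (hα1 : α < 1) (I : Set (ℕ → ℂ)) (h0 : (0 : ℕ → ℂ) ∈ I)
    (hadd : ∀ a ∈ I, ∀ b ∈ I, a + b ∈ I)
    (hmul : ∀ a ∈ I, ∀ k : ℕ → ℂ, Gv (α / (1 + α)) k → cmul k a ∈ I)
    (hGv : ∀ a ∈ I, Gv (α / (1 + α)) a)
    (hcl : ∀ (A δ : ℝ), 0 < δ → ∀ (u : ℕ → ℕ → ℂ) (a : ℕ → ℂ), (∀ m, u m ∈ I) →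
      GvC (α / (1 + α)) A δ a →
      (∀ ε : ℝ, 0 < ε → ∃ M : ℕ, ∀ m ≥ M, ∀ n : ℕ,
        ‖u m n - a n‖ ≤ ε * Real.exp (-δ * (n : ℝ) ^ (α / (1 + α)))) → a ∈ I)
    (hne : ∃ a ∈ I, a ≠ 0) {s : ℕ → ℂ} (hs : IsoM s)
    (hfac : ∀ a ∈ I, ∃ h : ℕ → ℂ, (Summable fun n => ‖h n‖ ^ 2) ∧ a = cmul s h)
    (happ : ∀ ε : ℝ, 0 < ε → ∃ u ∈ I, ∑' n, ‖u n - s n‖ ^ 2 < ε)
    {g g' : ℕ → ℂ} (hg : Gv (α / (1 + α)) g) (hg' : Summable fun n => ‖g' n‖ ^ 2) (hgg : g = cmul s g')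
    (hord : ∀ z : ℂ, ‖z‖ ≤ 1 → ∀ m : ℕ, (∀ a ∈ I, ∀ j < m, dv j a z = 0) → ∀ j < m, dv j g z = 0) :
    g ∈ I := by
  have hβ : 0 < α / (1 + α) := by positivity
  have hβ1 : α / (1 + α) ≤ 1 := by rw [div_le_one (by positivity)]; linarith
  by_contra hgI
  have hg0 : g ≠ 0 := fun h => hgI (h ▸ h0)
  have hsmul : ∀ (c : ℂ), ∀ a ∈ I, c • a ∈ I := by
    intro c a ha
    have h1 := hmul a ha (c • one1) ((Gv_one1 _).smul c)
    have h2 : cmul (c • one1) a = c • a := by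
      rw [cmul_comm]
      funext n
      have := congrFun (cmul_one1 a) n
      simp only [cmul, Pi.smul_apply, smul_eq_mul] at this ⊢
      rw [← this, Finset.mul_sum]
      exact Finset.sum_congr rfl (fun i _ => by ring)
    rwa [h2] at h1
  have hshift : ∀ m : ℕ, ∀ a ∈ I, sh m a ∈ I := by
    intro m a ha
    have h1 := hmul a ha (sh m one1) ((Gv_one1 _).sh hβ hβ1 m)
    rwa [cmul_comm, cmul_sh, cmul_one1] at h1
  obtain ⟨c, hc, hcI, hcg⟩ := hahn hβ hβ1 I h0 hadd hsmul hGv hcl hg hgI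
  -- annihilator
  have hcI' : ∀ a ∈ I, act a c = 0 := by
    intro a ha
    funext m
    have h1 := hcI _ (hshift m a ha)
    rw [act_sh hβ hβ1 (hGv a ha) hc m 0] at h1
    simpa using h1
  have hInK : ∀ k : ℕ → ℂ, Gv (α / (1 + α)) k → cmul k g ∈ I → InK (α / (1 + α)) (act g c) k := by
    intro k hk hkg
    refine ⟨hk, fun m => ?_⟩
    have h1 := hcI' _ hkg
    rw [act_cmul hβ hβ1 hk hg hc] at h1
    exact congrFun h1 m
  -- the exceptional set
  set E : Set ℝ := {x : ℝ | ∀ a ∈ I, ∀ j : ℕ, dv j a (ee (x : ℂ)) = 0} with hEdef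
  have hnull : volume E = 0 := by
    obtain ⟨a, ha, hane⟩ := hne
    have hsum := Gv.summable_norm hβ (hGv a ha)
    obtain ⟨-, hae, -⟩ := pj (M := (∑' n, ‖a n‖) + 1) hsum hane
      (by have : 0 ≤ ∑' n, ‖a n‖ := tsum_nonneg (fun n => norm_nonneg _); linarith)
      (fun z hz => by have := norm_ev_le hsum hz; linarith)
    have hsub : E ⊆ {t : ℝ | ¬ ev a (ee (t : ℂ)) ≠ 0} := by
      intro x hx
      simp only [mem_ofPred_eq, not_not]
      have := hx a ha 0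
      simpa [dv, ev] using this
    exact measure_mono_null hsub (ae_iff.mp hae)
  have hclosed : IsClosed E := by
    have : E = ⋂ a ∈ I, ⋂ j : ℕ, {x : ℝ | dv j a (ee (x : ℂ)) = 0} := by
      ext x; simp [hEdef]
    rw [this]
    refine isClosed_biInter (fun a ha => isClosed_iInter (fun j => ?_))
    exact isClosed_eq (key_continuous_dv hβ (hGv a ha) j) continuous_const
  have hper : ∀ x : ℝ, x ∈ E ↔ x + 2 * π ∈ E := by
    intro x
    have : ee ((x + 2 * π : ℝ) : ℂ) = ee (x : ℂ) := by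
      have := ee_periodic (x : ℂ)
      rw [← this]; congr 1; push_cast; ring
    simp only [hEdef, mem_ofPred_eq, this]
  have hE : GE E := ⟨hclosed, hper, hnull⟩
  have hflat : Flat E g := by
    intro x hx j
    have hz : ‖ee (x : ℂ)‖ ≤ 1 := (norm_ee_real x).le
    exact hord _ hz (j + 1) (fun a ha i _ => hx a ha i) j (Nat.lt_succ_self j)
  -- (H1)
  have H1 : ∀ z : ℂ, ‖z‖ ≤ 1 → z ∉ EE E → ∃ a, InK (α / (1 + α)) (act g c) a ∧ ev a z ≠ 0 := by
    intro z hz hzE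
    have hex : ∃ j : ℕ, ∃ f ∈ I, dv j f z ≠ 0 := by
      rcases hz.lt_or_eq with hlt | heq
      · obtain ⟨a, ha, hane⟩ := hne
        obtain ⟨j, hj⟩ := key_exists_dv hβ hβ1 (hGv a ha) hane hlt
        exact ⟨j, a, ha, hj⟩
      · by_contra hcon
        push Not at hcon
        apply hzE
        have hz0 : z ≠ 0 := by rintro rfl; simp at heq
        obtain ⟨w, hw, -, -, hwim⟩ := exists_ee hz0
        have him : w.im = 0 := by rw [hwim, heq]; simp
        have hwr : w = (w.re : ℂ) := by apply Complex.ext <;> simp [him]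
        refine ⟨w.re, ?_, ?_⟩
        · intro a ha j
          rw [← hwr, hw]; exact hcon j a ha
        · simp only; rw [← hwr, hw]
    classical
    obtain ⟨f, hf, hfm⟩ := Nat.find_spec hex
    set m := Nat.find hex with hm
    have hmin : ∀ a ∈ I, ∀ j < m, dv j a z = 0 := by
      intro a ha j hj
      by_contra hne'
      exact Nat.find_min hex hj ⟨a, ha, hne'⟩
    obtain ⟨f₁, hf₁, hff₁, hdvf⟩ := dvdm hβ hβ1 m (hGv f hf) hz (fun j hj => hmin f hf j hj)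
    obtain ⟨g₁, hg₁, hgg₁, -⟩ := dvdm hβ hβ1 m hg hz (hord z hz m hmin)
    refine ⟨f₁, hInK f₁ hf₁ ?_, ?_⟩
    · have heq : cmul f₁ g = cmul g₁ f := by
        apply key_ev_inj hβ (hf₁.cmul hβ hβ1 hg) (hg₁.cmul hβ hβ1 (hGv f hf))
        intro w hw
        rw [ev_cmul (Gv.summable_norm hβ hf₁) (Gv.summable_norm hβ hg) hw,
          ev_cmul (Gv.summable_norm hβ hg₁) (Gv.summable_norm hβ (hGv f hf)) hw, hff₁ w hw, hgg₁ w hw]
        ring
      rw [heq]
      exact hmul f hf g₁ hg₁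
    · intro h
      apply hfm
      rw [hdvf, h, mul_zero]
  -- (H2)
  have hg'G : Gv (α / (1 + α)) g' := hs.div_Gv hβ hβ1 hg' (hgg ▸ hg)
  have H2 : ∀ ε : ℝ, 0 < ε → ∃ a, InK (α / (1 + α)) (act g c) a ∧ ∑' n, ‖a n - one1 n‖ ^ 2 < ε := by
    intro ε hε
    obtain ⟨u, hu, hus⟩ := happ ε hε
    obtain ⟨h, hh, huh⟩ := hfac u hu
    have hhG : Gv (α / (1 + α)) h := hs.div_Gv hβ hβ1 hh (huh ▸ hGv u hu)
    refine ⟨h, hInK h hhG ?_, ?_⟩
    · have : cmul h g = cmul g' u := by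
        rw [hgg, huh, ← cmul_assoc, cmul_comm h s, cmul_comm g' (cmul s h)]
      rw [this]
      exact hmul u hu g' hg'G
    · have hsub : Gv (α / (1 + α)) (h - one1) := hhG.sub (Gv_one1 _)
      have hsq := key_sq (Gv.summable_norm hβ hsub)
      have h1 := (hs (h - one1) hsq).2
      have h2 : cmul s (h - one1) = u - s := by
        rw [cmul_sub, cmul_one1, ← huh]
      rw [h2] at h1
      simp only [Pi.sub_apply] at h1
      rw [← h1]
      exact hus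
  have := thmM hα hα1 hg hg0 hc hE hflat H1 H2
  exact hcg (congrFun this 0)

end MP_9d6c91_an
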