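import Pool.Agent.Lib.MP_9d6c91_an.Core
import Pool.Agent.Lib.MP_9d6c91_an.JJ

/-!
# JOB LAST : `Φ` is bounded near the circle

`β = α/(1+α)`, `1/β = 1 + 1/α`, `W = WW α β E u > 0` off `E`, `W ≥ d^(-α)`, `W ≥ J[u]^β`.
Let `0 < λ ≤ 1`, `m = sup {(LL Φ (t-iy) - λ W(t))⁺ : t ∉ E, 0 ≤ y ≤ 1}`, finite by `hap`.  Fix `(t, y)`.
`θ = 1/32`, `R = θ d(t) ≤ 1`, `ρ = η₁ W(t)^(-1/α)` with `η₁ ≤ θ/4` (so `4ρ ≤ R`), `η = 1/16`.
* `y ≥ ηρ` : `LL ≤ K` by `hout` with `η η₁`.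
* `y < ηρ` : `core` with `B = (16/15) (λ W(t) + m)` ((i): `W(t') ≤ W(t)/(1-2θ) = (16/15) W(t)`), `K` from `hout` with `η₂` slightly smaller than `η η₁`
  ((ii): `W(t) ≤ (16/15) W(t')`, so `y' ≥ ηρ ≥ η η₁ (16/15)^(-1/α) W(t')^(-1/α)`).
  Tail: `tail_le_Jr` (`t₀ = t`, `A = 1/θ`): `T ≤ 33² J[X](t)`; `X ≤ λ W + m ≤ λ C₁ (u+1) + m` a.e., so
  `J[X] ≤ λ C₁ (J[u] + 2/d) + 2m/d ≤ λ C W^(1+1/α) + 2 m/d`, `ρ T ≤ C₄ η₁ (λ W + m)`; choose `η₁` with `C C₄ η₁ ≤ 1/16`.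
  Total: `LL ≤ (9/16)(16/15)(λW + m) + K + (1/16)(λW + m) ≤ (3/4)(λ W + m) + K`.
So `m ≤ (3/4) m + K`, `m ≤ 4K`, with `K` independent of `λ`; let `λ → 0`.
-/

set_option autoImplicit false

open MeasureTheory Complex Filter Topology Set
open scoped ENNReal Real

namespace MP_9d6c91_an

private theorem last_mk (t : ℝ) : (t : ℂ) = Complex.mk t (-0) := by
  apply Complex.ext <;> simp

/-- one improvement step -/
private theorem last_improve {α C₁ : ℝ} (hα : 0 < α) (hα1 : α < 1) {E : Set ℝ} (hE : GE E)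
    (hne : E.Nonempty) {Φ : ℂ → ℂ} (hΦ : PhiD α E Φ) {u : ℝ → ℝ} (hu : PX u) (hC₁ : 1 ≤ C₁)
    (hW : ∀ᵐ t : ℝ, WW α (α / (1 + α)) E u t ≤ C₁ * (u t + 1))
    (hout : ∀ η : ℝ, 0 < η → ∃ C : ℝ, 0 ≤ C ∧ ∀ t y : ℝ, t ∉ E → 0 < y → y ≤ 1 →
      η * (WW α (α / (1 + α)) E u t) ^ (-(1 / α)) ≤ y → LL Φ (Complex.mk t (-y)) ≤ C) :
    ∃ K : ℝ, 0 ≤ K ∧ ∀ lam m : ℝ, 0 < lam → 0 ≤ m →
      (∀ t y : ℝ, t ∉ E → 0 ≤ y → y ≤ 1 →
        LL Φ (Complex.mk t (-y)) ≤ lam * WW α (α / (1 + α)) E u t + m) →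
      ∀ t y : ℝ, t ∉ E → 0 ≤ y → y ≤ 1 →
        LL Φ (Complex.mk t (-y)) ≤ lam * WW α (α / (1 + α)) E u t + (3 / 4 * m + K) := by
  obtain ⟨C₀, hC₀, hcore⟩ := core
  set β : ℝ := α / (1 + α) with hβdef
  have h1α : 0 < 1 + α := by linarith
  have hβ : 0 < β := div_pos hα h1α
  have hβ1 : β ≤ 1 / 2 := by
    rw [hβdef, div_le_div_iff₀ h1α (by norm_num)]
    linarith
  have hβinv : 1 / β = 1 + 1 / α := by
    rw [hβdef]
    field_simp
    try ring
  set η₁ : ℝ := min (1 / 128) (1 / (16 * C₀ * 33 ^ 2 * 9 * C₁)) with hη₁def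
  have hC₁0 : 0 < C₁ := by linarith
  have hη₁ : 0 < η₁ := lt_min (by norm_num) (by positivity)
  have hη₁a : η₁ ≤ 1 / 128 := min_le_left _ _
  have hη₁b : C₀ * (33 ^ 2 * (9 * C₁ * η₁)) ≤ 1 / 16 := by
    have h := min_le_right (1 / 128) (1 / (16 * C₀ * 33 ^ 2 * 9 * C₁))
    rw [← hη₁def] at h
    calc C₀ * (33 ^ 2 * (9 * C₁ * η₁)) = (C₀ * 33 ^ 2 * 9 * C₁) * η₁ := by ring
      _ ≤ (C₀ * 33 ^ 2 * 9 * C₁) * (1 / (16 * C₀ * 33 ^ 2 * 9 * C₁)) :=
          mul_le_mul_of_nonneg_left h (by positivity)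
      _ = 1 / 16 := by field_simp
  obtain ⟨K₁, hK₁, hout₁⟩ := hout (1 / 16 * η₁) (by positivity)
  set c : ℝ := (16 / 15 : ℝ) ^ (-(1 / α)) with hcdef
  have hc : 0 < c := Real.rpow_pos_of_pos (by norm_num) _
  obtain ⟨K₂, hK₂, hout₂⟩ := hout (1 / 16 * η₁ * c) (by positivity)
  refine ⟨K₁ + K₂, by positivity, ?_⟩
  intro lam m hlam hm hbd t y ht hy hy1
  set W : ℝ → ℝ := WW α β E u with hWdef
  have hWge : ∀ s, (dE E s) ^ (-α) ≤ W s := fun s =>
    le_add_of_nonneg_right (Real.rpow_nonneg (Jr_nonneg hu) _)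
  have hWJ : ∀ s, (Jr (dE E) u s) ^ β ≤ W s := fun s =>
    le_add_of_nonneg_left (Real.rpow_nonneg (dE_nonneg E s) _)
  have hWpos : ∀ s, s ∉ E → 0 < W s := fun s hs =>
    lt_of_lt_of_le (Real.rpow_pos_of_pos (dE_pos hE hne hs) _) (hWge s)
  have hd : 0 < dE E t := dE_pos hE hne ht
  have hdpi : dE E t ≤ π := dE_le_pi hE hne t
  have hWt : 0 < W t := hWpos t ht
  -- `W^(-1/α) ≤ d`
  have hWd : (W t) ^ (-(1 / α)) ≤ dE E t := by
    have h1 : (W t) ^ (-(1 / α)) ≤ ((dE E t) ^ (-α)) ^ (-(1 / α)) :=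
      Real.rpow_le_rpow_of_nonpos (Real.rpow_pos_of_pos hd _) (hWge t)
        (by rw [neg_nonpos]; positivity)
    refine h1.trans (le_of_eq ?_)
    rw [← Real.rpow_mul hd.le]
    have : -α * -(1 / α) = 1 := by field_simp
    rw [this, Real.rpow_one]
  set ρ : ℝ := η₁ * (W t) ^ (-(1 / α)) with hρdef
  have hWr : 0 < (W t) ^ (-(1 / α)) := Real.rpow_pos_of_pos hWt _
  have hρ : 0 < ρ := mul_pos hη₁ hWr
  have hρd : ρ ≤ η₁ * dE E t := mul_le_mul_of_nonneg_left hWd hη₁.le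
  have hρd' : ρ ≤ 1 / 128 * dE E t := hρd.trans (mul_le_mul_of_nonneg_right hη₁a hd.le)
  set R : ℝ := 1 / 32 * dE E t with hRdef
  have hR : 0 < R := by positivity
  have h4 : 4 * ρ ≤ R := by rw [hRdef]; linarith
  have hRd : R ≤ dE E t := by rw [hRdef]; linarith
  have hR1 : R ≤ 1 := by
    have := Real.pi_le_four
    rw [hRdef]; linarith
  have hlamW : 0 ≤ lam * W t := by positivity
  by_cases hcase : 1 / 16 * ρ ≤ y
  · -- far from the circle
    have hy0 : 0 < y := lt_of_lt_of_le (by positivity) hcase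
    have := hout₁ t y ht hy0 hy1 (by
      calc 1 / 16 * η₁ * W t ^ (-(1 / α)) = 1 / 16 * ρ := by rw [hρdef]; ring
        _ ≤ y := hcase)
    linarith
  · push Not at hcase
    have hi : ∀ t' y' : ℝ, |t' - t| < R → 0 ≤ y' → y' ≤ 1 →
        LL Φ (Complex.mk t' (-y')) ≤ 16 / 15 * (lam * W t + m) := by
      intro t' y' ht' hy' hy1'
      have hn : t' ∉ E := notMem_of_lt_dE hE (lt_of_lt_of_le ht' hRd)
      have h1 := hbd t' y' hn hy' hy1'
      have h2 : W t' ≤ W t / (1 - 2 * (1 / 32)) :=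
        WW_harnack hα hα1 hβ hβ1 hE hne hu ht (by norm_num) (by norm_num) ht'.le
      have h3 : W t' ≤ 16 / 15 * W t := by
        refine h2.trans (le_of_eq ?_)
        norm_num
        ring
      have h4 : lam * W t' ≤ lam * (16 / 15 * W t) := mul_le_mul_of_nonneg_left h3 hlam.le
      calc LL Φ (Complex.mk t' (-y')) ≤ lam * W t' + m := h1
        _ ≤ lam * (16 / 15 * W t) + m := by linarith
        _ ≤ 16 / 15 * (lam * W t + m) := by nlinarith
    have hii : ∀ t' y' : ℝ, |t' - t| ≤ 2 * ρ → 1 / 16 * ρ ≤ y' → y' ≤ 2 * ρ →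
        LL Φ (Complex.mk t' (-y')) ≤ K₂ := by
      intro t' y' ht' hy' hy2
      have hlt : |t' - t| < dE E t := by linarith
      have hn : t' ∉ E := notMem_of_lt_dE hE hlt
      have hy0 : 0 < y' := lt_of_lt_of_le (by positivity) hy'
      have hy1' : y' ≤ 1 := by linarith
      have hdd : |dE E t' - dE E t| ≤ |t' - t| := dE_lip E t' t
      have hdt' : dE E t - 2 * ρ ≤ dE E t' := by
        have := (abs_le.mp (hdd.trans ht')).1
        linarith
      have hWn : 0 < W t' := hWpos t' hn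
      have h2 : W t ≤ W t' / (1 - 2 * (1 / 32)) := by
        refine WW_harnack hα hα1 hβ hβ1 hE hne hu hn (by norm_num) (by norm_num) ?_
        rw [abs_sub_comm]
        linarith
      have h3 : W t ≤ 16 / 15 * W t' := by
        refine h2.trans (le_of_eq ?_)
        norm_num
        ring
      have h5 : (16 / 15 * W t') ^ (-(1 / α)) ≤ (W t) ^ (-(1 / α)) :=
        Real.rpow_le_rpow_of_nonpos hWt h3 (by rw [neg_nonpos]; positivity)
      rw [Real.mul_rpow (by norm_num) hWn.le] at h5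
      refine hout₂ t' y' hn hy0 hy1' ?_
      calc 1 / 16 * η₁ * c * W t' ^ (-(1 / α))
          = 1 / 16 * η₁ * ((16 / 15 : ℝ) ^ (-(1 / α)) * W t' ^ (-(1 / α))) := by
            rw [hcdef]; ring
        _ ≤ 1 / 16 * η₁ * (W t) ^ (-(1 / α)) := mul_le_mul_of_nonneg_left h5 (by positivity)
        _ = 1 / 16 * ρ := by rw [hρdef]; ring
        _ ≤ y' := hy'
    have hcr := hcore α E Φ hE hne hΦ t ρ R (1 / 16) y (16 / 15 * (lam * W t + m)) K₂
      (by norm_num) (by norm_num) hρ h4 hRd hR1 hy hcase.le (by positivity) hK₂ hi hii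
    -- the tail
    set X : ℝ → ℝ := fun s : ℝ => LL Φ (s : ℂ) with hXdef
    have hT : ∫ s in {s : ℝ | R ≤ |s - t| ∧ |s - t| ≤ π}, LL Φ (s : ℂ) / |s - t| ^ 2 ≤
        (32 + 1) ^ 2 * Jr (dE E) X t := by
      refine tail_le_Jr hE hne hΦ.px ht hR ?_
      rw [sub_self, abs_zero, hRdef]
      linarith
    have hae : ∀ᵐ s : ℝ, X s ≤ (lam * C₁) * u s + (lam * C₁ + m) := by
      have hEn : ∀ᵐ s : ℝ, s ∉ E := by
        rw [ae_iff]
        simpa using hE.null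
      filter_upwards [hW, hEn] with s hs hsE
      have h1 := hbd s 0 hsE le_rfl zero_le_one
      rw [← last_mk] at h1
      have h2 : lam * W s ≤ lam * (C₁ * (u s + 1)) := mul_le_mul_of_nonneg_left hs hlam.le
      calc X s ≤ lam * W s + m := h1
        _ ≤ lam * (C₁ * (u s + 1)) + m := by linarith
        _ = (lam * C₁) * u s + (lam * C₁ + m) := by ring
    have hPu : PX (fun s => (lam * C₁) * u s) := PX.smul (by positivity) hu
    have hPc : PX (fun _ : ℝ => lam * C₁ + m) := PX.const (by positivity)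
    have hJX : Jr (dE E) X t ≤ lam * C₁ * Jr (dE E) u t + (lam * C₁ + m) * (2 / dE E t) := by
      calc Jr (dE E) X t ≤ Jr (dE E) (fun s => (lam * C₁) * u s + (lam * C₁ + m)) t :=
            Jr_mono_ae hE hne hΦ.px (hPu.add hPc) ht hae
        _ = Jr (dE E) (fun s => (lam * C₁) * u s) t + Jr (dE E) (fun _ => lam * C₁ + m) t :=
            Jr_add hE hne hPu hPc ht
        _ = lam * C₁ * Jr (dE E) u t + (lam * C₁ + m) * Jr (dE E) (fun _ => 1) t := by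
            rw [Jr_smul]
            have : (fun _ : ℝ => lam * C₁ + m) = fun s : ℝ => (lam * C₁ + m) * (fun _ : ℝ => (1 : ℝ)) s := by
              funext s; simp
            rw [this, Jr_smul]
        _ ≤ _ := by
            have := mul_le_mul_of_nonneg_left (Jr_one_le hE hne ht) (by positivity : 0 ≤ lam * C₁ + m)
            linarith
    have hJu : Jr (dE E) u t ≤ (W t) ^ (1 + 1 / α) := by
      have h0 : 0 ≤ Jr (dE E) u t := Jr_nonneg hu
      have h1 : ((Jr (dE E) u t) ^ β) ^ (1 / β) ≤ (W t) ^ (1 / β) :=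
        Real.rpow_le_rpow (Real.rpow_nonneg h0 _) (hWJ t) (by positivity)
      rw [← Real.rpow_mul h0, mul_one_div_cancel hβ.ne', Real.rpow_one, hβinv] at h1
      exact h1
    have hρJ : ρ * Jr (dE E) u t ≤ η₁ * W t := by
      calc ρ * Jr (dE E) u t ≤ ρ * (W t) ^ (1 + 1 / α) := mul_le_mul_of_nonneg_left hJu hρ.le
        _ = η₁ * ((W t) ^ (-(1 / α)) * (W t) ^ (1 + 1 / α)) := by rw [hρdef]; ring
        _ = η₁ * W t := by
            rw [← Real.rpow_add hWt]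
            have : -(1 / α) + (1 + 1 / α) = 1 := by ring
            rw [this, Real.rpow_one]
    have hρd2 : ρ * (2 / dE E t) ≤ 2 * η₁ := by
      have h := hρd
      calc ρ * (2 / dE E t) ≤ (η₁ * dE E t) * (2 / dE E t) :=
            mul_le_mul_of_nonneg_right h (by positivity)
        _ = 2 * η₁ := by field_simp
    have hW4 : 1 ≤ 4 * W t := by
      have h1 : (π : ℝ) ^ (-α) ≤ (dE E t) ^ (-α) :=
        Real.rpow_le_rpow_of_nonpos hd hdpi (by linarith)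
      have h2 : (4 : ℝ) ^ (-α) ≤ (π : ℝ) ^ (-α) :=
        Real.rpow_le_rpow_of_nonpos Real.pi_pos Real.pi_le_four (by linarith)
      have h3 : (4 : ℝ) ^ (-1 : ℝ) ≤ (4 : ℝ) ^ (-α) :=
        Real.rpow_le_rpow_of_exponent_le (by norm_num) (by linarith)
      have h4 : (4 : ℝ) ^ (-1 : ℝ) = 1 / 4 := by
        rw [Real.rpow_neg_one]; norm_num
      have h5 : (1 : ℝ) / 4 ≤ W t := by
        rw [h4] at h3
        exact ((h3.trans h2).trans h1).trans (hWge t)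
      linarith
    have hJX0 : 0 ≤ Jr (dE E) X t := Jr_nonneg hΦ.px
    have hρJX : ρ * Jr (dE E) X t ≤ 9 * C₁ * η₁ * (lam * W t + m) := by
      have h1 : ρ * Jr (dE E) X t ≤
          lam * C₁ * (ρ * Jr (dE E) u t) + (lam * C₁ + m) * (ρ * (2 / dE E t)) := by
        calc ρ * Jr (dE E) X t ≤ ρ * (lam * C₁ * Jr (dE E) u t + (lam * C₁ + m) * (2 / dE E t)) :=
              mul_le_mul_of_nonneg_left hJX hρ.le
          _ = _ := by ring
      have h2 : lam * C₁ * (ρ * Jr (dE E) u t) ≤ lam * C₁ * (η₁ * W t) :=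
        mul_le_mul_of_nonneg_left hρJ (by positivity)
      have h3 : (lam * C₁ + m) * (ρ * (2 / dE E t)) ≤ (lam * C₁ + m) * (2 * η₁) :=
        mul_le_mul_of_nonneg_left hρd2 (by positivity)
      have h5 : lam * C₁ * η₁ * 1 ≤ lam * C₁ * η₁ * (4 * W t) :=
        mul_le_mul_of_nonneg_left hW4 (by positivity)
      have h6 : m * η₁ * 1 ≤ m * η₁ * C₁ := mul_le_mul_of_nonneg_left hC₁ (by positivity)
      have h7 : 0 ≤ m * η₁ * C₁ := by positivity
      nlinarith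
    have hfin : C₀ * ρ * ∫ s in {s : ℝ | R ≤ |s - t| ∧ |s - t| ≤ π}, LL Φ (s : ℂ) / |s - t| ^ 2 ≤
        1 / 16 * (lam * W t + m) := by
      calc C₀ * ρ * ∫ s in {s : ℝ | R ≤ |s - t| ∧ |s - t| ≤ π}, LL Φ (s : ℂ) / |s - t| ^ 2
          ≤ C₀ * ρ * ((32 + 1) ^ 2 * Jr (dE E) X t) := mul_le_mul_of_nonneg_left hT (by positivity)
        _ = C₀ * (33 ^ 2 * (ρ * Jr (dE E) X t)) := by ring
        _ ≤ C₀ * (33 ^ 2 * (9 * C₁ * η₁ * (lam * W t + m))) := by gcongr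
        _ = C₀ * (33 ^ 2 * (9 * C₁ * η₁)) * (lam * W t + m) := by ring
        _ ≤ 1 / 16 * (lam * W t + m) := mul_le_mul_of_nonneg_right hη₁b (by positivity)
    have : LL Φ (Complex.mk t (-y)) ≤
        (1 / 2 + 1 / 16) * (16 / 15 * (lam * W t + m)) + K₂ + 1 / 16 * (lam * W t + m) := by
      linarith
    nlinarith

theorem last_step {α C₁ : ℝ} (hα : 0 < α) (hα1 : α < 1) {E : Set ℝ} (hE : GE E) (hne : E.Nonempty)
    {Φ : ℂ → ℂ} (hΦ : PhiD α E Φ) {u : ℝ → ℝ} (hu : PX u) (hC₁ : 1 ≤ C₁)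
    (hW : ∀ᵐ t : ℝ, WW α (α / (1 + α)) E u t ≤ C₁ * (u t + 1))
    (hap : ∀ lam : ℝ, 0 < lam → ∃ C : ℝ, 0 ≤ C ∧ ∀ t y : ℝ, t ∉ E → 0 ≤ y → y ≤ 1 →
      LL Φ (Complex.mk t (-y)) ≤ lam * WW α (α / (1 + α)) E u t + C)
    (hout : ∀ η : ℝ, 0 < η → ∃ C : ℝ, 0 ≤ C ∧ ∀ t y : ℝ, t ∉ E → 0 < y → y ≤ 1 →
      η * (WW α (α / (1 + α)) E u t) ^ (-(1 / α)) ≤ y → LL Φ (Complex.mk t (-y)) ≤ C) :
    ∃ K : ℝ, 0 ≤ K ∧ ∀ t y : ℝ, t ∉ E → 0 ≤ y → y ≤ 1 → LL Φ (Complex.mk t (-y)) ≤ K := by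
  obtain ⟨K, hK, himp⟩ := last_improve hα hα1 hE hne hΦ hu hC₁ hW hout
  refine ⟨4 * K, by positivity, ?_⟩
  intro t y ht hy hy1
  -- iterate
  have hlim : ∀ lam : ℝ, 0 < lam →
      LL Φ (Complex.mk t (-y)) ≤ lam * WW α (α / (1 + α)) E u t + 4 * K := by
    intro lam hlam
    obtain ⟨C, hC, hbd⟩ := hap lam hlam
    have hn : ∀ n : ℕ, ∀ t y : ℝ, t ∉ E → 0 ≤ y → y ≤ 1 →
        LL Φ (Complex.mk t (-y)) ≤ lam * WW α (α / (1 + α)) E u t + ((3 / 4) ^ n * C + 4 * K) := by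
      intro n
      induction n with
      | zero =>
        intro t y ht hy hy1
        have := hbd t y ht hy hy1
        simp only [pow_zero, one_mul]
        linarith
      | succ n ih =>
        intro t y ht hy hy1
        have := himp lam ((3 / 4) ^ n * C + 4 * K) hlam (by positivity) ih t y ht hy hy1
        refine this.trans (le_of_eq ?_)
        rw [pow_succ]
        ring
    have htend : Tendsto (fun n : ℕ => lam * WW α (α / (1 + α)) E u t + ((3 / 4 : ℝ) ^ n * C + 4 * K))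
        atTop (𝓝 (lam * WW α (α / (1 + α)) E u t + (0 * C + 4 * K))) := by
      refine tendsto_const_nhds.add (Tendsto.add ?_ tendsto_const_nhds)
      exact (tendsto_pow_atTop_nhds_zero_of_lt_one (by norm_num) (by norm_num)).mul_const C
    have := ge_of_tendsto' htend (fun n => hn n t y ht hy hy1)
    linarith
  have htend : Tendsto (fun lam : ℝ => lam * WW α (α / (1 + α)) E u t + 4 * K)
      (𝓝[>] 0) (𝓝 (0 * WW α (α / (1 + α)) E u t + 4 * K)) := by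
    refine Tendsto.add ?_ tendsto_const_nhds
    exact (tendsto_id.mono_left nhdsWithin_le_nhds).mul_const _
  have := ge_of_tendsto htend (eventually_mem_nhdsWithin.mono fun lam hlam => hlim lam hlam)
  linarith

end MP_9d6c91_an
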