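import Pool.Agent.Lib.MP_9d6c91_an.Core
import Pool.Agent.Lib.MP_9d6c91_an.JJ

/-!
# JOB LOCAL : the local estimate

`d₀ = d(t₀)`, `J = Jr X t₀`, `X t = LL Φ t`, `β = α/(1+α)`, `V = κ + ε d₀^(-α) + ε^(1-β) J^β`.
Compact set `Q = {(t, y) : |t - t₀| ≤ d₀/4, 0 ≤ y ≤ 1}`, `m(t) = d₀/4 - |t - t₀|`; `LL Φ (t - iy)` is continuous on `Q`, so
`M = sup_Q LL Φ (t - iy) (m(t)/d₀)²` is finite (attained).  `J' = J + ε d₀^(-1-α)`, `ρ₀ = (ε/J')^(1/(1+α)) ≤ d₀`;
`ρ₀ J' = ε ρ₀^(-α) = ε^(1-β) J'^β ≤ ε^(1-β) J^β + ε d₀^(-α)`.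
Fix `(t, y) ∈ Q`, `m = m(t) > 0`, `R = m/16`, `ρ = min (m/64) ρ₀`, `η = 1/16`, `B = (16/15)² M (d₀/m)²`, `K = κ + ε (ηρ)^(-α)`.
* `y ≥ ηρ` : `LL ≤ κ + ε (ηρ)^(-α)`, `ρ^(-α) ≤ (m/64)^(-α) + ρ₀^(-α)`, `(m/d₀)² m^(-α) ≤ d₀^(-α)`: weighted value `≤ C V`.
* `y < ηρ` : `core`; (i) holds since `m(t') ≥ (15/16) m` for `|t'-t| < m/16`; (ii) by `out` since `2ρ ≤ 1`;
  `tail_le_Jr` with `A = 40 d₀/m` : tail `≤ C (d₀/m)² J`; weighted: `≤ (1/2+1/16)(16/15)² M + C V + C ρ₀ J ≤ 0.65 M + C V`.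
So `M ≤ C V`; at `t₀` the weight is `1/16`.
-/

set_option autoImplicit false

open MeasureTheory Complex Filter Topology Set
open scoped ENNReal Real

namespace MP_9d6c91_an

/-- elementary inequalities for the scale `ρ₀` -/
private theorem local_scale {α ε J d : ℝ} (hα : 0 < α) (hε : 0 < ε) (hJ : 0 ≤ J) (hd : 0 < d) :
    ∃ ρ₀ : ℝ, 0 < ρ₀ ∧ ρ₀ ≤ d ∧
      ε * ρ₀ ^ (-α) ≤ ε ^ (1 - α / (1 + α)) * J ^ (α / (1 + α)) + ε * d ^ (-α) ∧
      ρ₀ * J ≤ ε * ρ₀ ^ (-α) := by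
  have h1α : 0 < 1 + α := by linarith
  set β : ℝ := α / (1 + α) with hβ
  have hβ0 : 0 ≤ β := by positivity
  have hβ1 : β ≤ 1 := by rw [hβ, div_le_one h1α]; linarith
  set J' : ℝ := J + ε * d ^ (-(1 + α)) with hJ'
  have hdp : 0 < d ^ (-(1 + α)) := Real.rpow_pos_of_pos hd _
  have hJ'0 : 0 < J' := by positivity
  have hq : 0 < ε / J' := by positivity
  set ρ₀ : ℝ := (ε / J') ^ (1 / (1 + α)) with hρ₀
  have hρ0 : 0 < ρ₀ := Real.rpow_pos_of_pos hq _
  have hpow : ρ₀ ^ (1 + α) = ε / J' := by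
    rw [hρ₀, ← Real.rpow_mul hq.le, one_div, inv_mul_cancel₀ h1α.ne', Real.rpow_one]
  have hle : ρ₀ ≤ d := by
    have h1 : ρ₀ ^ (1 + α) ≤ d ^ (1 + α) := by
      rw [hpow, div_le_iff₀ hJ'0]
      have h2 : d ^ (1 + α) * (ε * d ^ (-(1 + α))) = ε := by
        rw [Real.rpow_neg hd.le]
        have := (Real.rpow_pos_of_pos hd (1 + α)).ne'
        field_simp
      have h3 : 0 ≤ d ^ (1 + α) * J := by positivity
      rw [hJ', mul_add, h2]; linarith
    exact (Real.rpow_le_rpow_iff hρ0.le hd.le h1α).1 h1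
  have hneg : ρ₀ ^ (-α) = ρ₀ / ρ₀ ^ (1 + α) := by
    rw [Real.rpow_neg hρ0.le, Real.rpow_add hρ0, Real.rpow_one]
    have := (Real.rpow_pos_of_pos hρ0 α).ne'
    field_simp
  have hprod : ε * ρ₀ ^ (-α) = ρ₀ * J' := by
    rw [hneg, hpow]; field_simp
  have heq : ε * ρ₀ ^ (-α) = ε ^ (1 - β) * J' ^ β := by
    have h1 : ρ₀ ^ (-α) = (ε / J') ^ (-β) := by
      rw [hρ₀, ← Real.rpow_mul hq.le]
      congr 1
      rw [hβ]; field_simp
    rw [h1, Real.rpow_neg hq.le, Real.div_rpow hε.le hJ'0.le, Real.rpow_sub hε, Real.rpow_one]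
    have := (Real.rpow_pos_of_pos hε β).ne'
    have := (Real.rpow_pos_of_pos hJ'0 β).ne'
    field_simp
  refine ⟨ρ₀, hρ0, hle, ?_, ?_⟩
  · rw [heq]
    have h1 : J' ^ β ≤ J ^ β + (ε * d ^ (-(1 + α))) ^ β :=
      Real.rpow_add_le_add_rpow hJ (by positivity) hβ0 hβ1
    have h2 : (ε * d ^ (-(1 + α))) ^ β = ε ^ β * d ^ (-α) := by
      rw [Real.mul_rpow hε.le hdp.le, ← Real.rpow_mul hd.le]
      congr 2
      rw [hβ]; field_simp
    have h3 : ε ^ (1 - β) * (ε ^ β * d ^ (-α)) = ε * d ^ (-α) := by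
      rw [← mul_assoc, ← Real.rpow_add hε]; simp
    calc ε ^ (1 - β) * J' ^ β ≤ ε ^ (1 - β) * (J ^ β + ε ^ β * d ^ (-α)) := by
          rw [← h2]; exact mul_le_mul_of_nonneg_left h1 (by positivity)
      _ = ε ^ (1 - β) * J ^ β + ε * d ^ (-α) := by rw [mul_add, h3]
  · rw [hprod]
    exact mul_le_mul_of_nonneg_left (by rw [hJ']; linarith [mul_pos hε hdp]) hρ0.le

theorem local_est {α : ℝ} (hα : 0 < α) (hα1 : α < 1) :
    ∃ C : ℝ, 1 ≤ C ∧ ∀ (E : Set ℝ) (Φ : ℂ → ℂ), GE E → E.Nonempty → PhiD α E Φ →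
      ∀ ε κ : ℝ, 0 < ε → ε ≤ 1 → 0 ≤ κ →
      (∀ w : ℂ, -1 ≤ w.im → w.im < 0 → LL Φ w ≤ κ + ε * (-w.im) ^ (-α)) →
      ∀ t₀ y : ℝ, t₀ ∉ E → 0 ≤ y → y ≤ 1 →
        LL Φ (Complex.mk t₀ (-y)) ≤ C * (κ + ε * (dE E t₀) ^ (-α) +
          ε ^ (1 - α / (1 + α)) * (Jr (dE E) (fun s : ℝ => LL Φ (s : ℂ)) t₀) ^ (α / (1 + α))) := by
  obtain ⟨C₀, hC₀, hcore⟩ := core
  refine ⟨48 * (1041 + 441 * C₀), by linarith, ?_⟩
  intro E Φ hE hne hΦ ε κ hε hε1 hκ hout t₀ y₀ ht₀ hy₀ hy₀1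
  set d : ℝ := dE E t₀ with hd
  have hd0 : 0 < d := dE_pos hE hne ht₀
  have hdpi : d ≤ π := dE_le_pi hE hne t₀
  set X : ℝ → ℝ := fun s : ℝ => LL Φ (s : ℂ) with hX
  have hPX : PX X := hΦ.px
  set J : ℝ := Jr (dE E) X t₀ with hJ
  have hJ0 : 0 ≤ J := Jr_nonneg hPX
  obtain ⟨ρ₀, hρ0, hρd, hρ1, hρ2⟩ := local_scale (J := J) hα hε hJ0 hd0
  set V : ℝ := κ + ε * d ^ (-α) + ε ^ (1 - α / (1 + α)) * J ^ (α / (1 + α)) with hV
  have hdα : 0 < d ^ (-α) := Real.rpow_pos_of_pos hd0 _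
  have hJβ : 0 ≤ J ^ (α / (1 + α)) := Real.rpow_nonneg hJ0 _
  have hεβ : 0 < ε ^ (1 - α / (1 + α)) := Real.rpow_pos_of_pos hε _
  have hVρ : ε * ρ₀ ^ (-α) ≤ V := by rw [hV]; linarith
  have hVd : ε * d ^ (-α) ≤ V := by rw [hV]; linarith [mul_nonneg hεβ.le hJβ]
  have hVκ : κ ≤ V := by rw [hV]; linarith [mul_nonneg hεβ.le hJβ, mul_nonneg hε.le hdα.le]
  have hV0 : 0 ≤ V := hκ.trans hVκ
  have hLL0 : ∀ w, 0 ≤ LL Φ w := fun w => Real.posLog_nonneg
  -- the weighted supremum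
  set F : ℝ × ℝ → ℝ := fun p => LL Φ (Complex.mk p.1 (-p.2)) with hF
  set m : ℝ → ℝ := fun t => d / 4 - |t - t₀| with hm
  set G : ℝ × ℝ → ℝ := fun p => F p * (m p.1 / d) ^ 2 with hG
  set Q : Set (ℝ × ℝ) := Set.Icc (t₀ - d / 4) (t₀ + d / 4) ×ˢ Set.Icc (0 : ℝ) 1 with hQ
  have hQc : IsCompact Q := isCompact_Icc.prod isCompact_Icc
  have hQne : Q.Nonempty := ⟨(t₀, 0), by simp [hQ]; linarith⟩
  have hmQ : ∀ t y : ℝ, (t, y) ∈ Q ↔ |t - t₀| ≤ d / 4 ∧ 0 ≤ y ∧ y ≤ 1 := by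
    intro t y
    rw [hQ, Set.mem_prod, Set.mem_Icc, Set.mem_Icc, abs_le]
    constructor
    · rintro ⟨⟨h1, h2⟩, h3, h4⟩; exact ⟨⟨by simpa using (by linarith : -(d / 4) ≤ t - t₀), by simpa using (by linarith : t - t₀ ≤ d / 4)⟩, h3, h4⟩
    · rintro ⟨⟨h1, h2⟩, h3, h4⟩; exact ⟨⟨by simp only; linarith, by simp only; linarith⟩, h3, h4⟩
  have hgood : ∀ t : ℝ, |t - t₀| ≤ d / 4 → t ∉ E := fun t ht =>
    notMem_of_lt_dE hE (lt_of_le_of_lt ht (by rw [← hd]; linarith))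
  have hFc : ContinuousOn F Q := by
    have h1 : ContinuousOn (fun w => Φ (ee w)) {w : ℂ | w.im ≠ 0 ∨ w.re ∉ E} :=
      (differentiableOn_comp_ee hE hΦ.dif).continuousOn
    have h2 : Continuous fun p : ℝ × ℝ => Complex.mk p.1 (-p.2) := by
      have : (fun p : ℝ × ℝ => Complex.mk p.1 (-p.2)) = fun p => (p.1 : ℂ) + (-p.2 : ℝ) * I := by
        funext p; apply Complex.ext <;> simp
      rw [this]; fun_prop
    have h3 : ContinuousOn (fun p : ℝ × ℝ => Φ (ee (Complex.mk p.1 (-p.2)))) Q :=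
      h1.comp h2.continuousOn (fun p hp => Or.inr (hgood p.1 ((hmQ p.1 p.2).1 hp).1))
    exact Real.continuous_posLog.comp_continuousOn h3.norm
  have hmc : Continuous m := by rw [hm]; fun_prop
  have hGc : ContinuousOn G Q := by
    refine hFc.mul ?_
    exact (((hmc.comp continuous_fst).div_const d).pow 2).continuousOn
  obtain ⟨⟨t, y⟩, htyQ, hmax⟩ := hQc.exists_isMaxOn hQne hGc
  have hmax' : ∀ t' y' : ℝ, |t' - t₀| ≤ d / 4 → 0 ≤ y' → y' ≤ 1 →
      LL Φ (Complex.mk t' (-y')) * (m t' / d) ^ 2 ≤ G (t, y) := by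
    intro t' y' h1 h2 h3
    exact hmax ((hmQ t' y').2 ⟨h1, h2, h3⟩)
  obtain ⟨htQ, hy0, hy1⟩ := (hmQ t y).1 htyQ
  set M : ℝ := G (t, y) with hM
  have hM0 : 0 ≤ M := mul_nonneg (hLL0 _) (sq_nonneg _)
  -- the main claim
  have hmain : M ≤ 16 / 25 * M + (1041 + 441 * C₀) * V := by
    have hmt0 : 0 ≤ m t := by simp only [hm]; linarith
    rcases hmt0.eq_or_lt with h0 | hmt
    · have : M = 0 := by rw [hM, hG]; simp only; rw [← h0]; simp
      rw [this]; positivity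
    set μ : ℝ := m t with hμ
    have hμ4 : μ ≤ d / 4 := by rw [hμ, hm]; simp only; linarith [abs_nonneg (t - t₀)]
    have hpi4 : π < 4 := Real.pi_lt_four
    set ρ : ℝ := min (μ / 64) ρ₀ with hρ
    have hρpos : 0 < ρ := lt_min (by positivity) hρ0
    have hρμ : ρ ≤ μ / 64 := min_le_left _ _
    have hρρ0 : ρ ≤ ρ₀ := min_le_right _ _
    set B : ℝ := (16 / 15) ^ 2 * M * (d / μ) ^ 2 with hB
    set K : ℝ := κ + ε * (1 / 16 * ρ) ^ (-α) with hK
    have hB0 : 0 ≤ B := by positivity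
    have hK0 : 0 ≤ K := by
      have : 0 < (1 / 16 * ρ) ^ (-α) := Real.rpow_pos_of_pos (by positivity) _
      positivity
    set T : ℝ := ∫ s in {s : ℝ | μ / 16 ≤ |s - t| ∧ |s - t| ≤ π}, X s / |s - t| ^ 2 with hT
    have hT0 : 0 ≤ T := by
      refine integral_nonneg fun s => ?_
      exact div_nonneg (hLL0 _) (by positivity)
    have hTJ : T ≤ (20 * (d / μ) + 1) ^ 2 * J := by
      refine tail_le_Jr hE hne hPX ht₀ (by positivity) ?_
      rw [← hd]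
      have h1 : 20 * (d / μ) * (μ / 16) = 5 / 4 * d := by field_simp; ring
      rw [h1]; linarith
    have hLLle : LL Φ (Complex.mk t (-y)) ≤ (9 / 16) * B + K + C₀ * ρ * T := by
      rcases le_or_gt (1 / 16 * ρ) y with hy | hy
      · have hypos : 0 < y := lt_of_lt_of_le (by positivity) hy
        have h1 := hout (Complex.mk t (-y)) (by simp; linarith) (by simpa using hypos)
        simp only [neg_neg] at h1
        have h2 : y ^ (-α) ≤ (1 / 16 * ρ) ^ (-α) :=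
          Real.rpow_le_rpow_of_nonpos (by positivity) hy (by linarith)
        have h3 : LL Φ (Complex.mk t (-y)) ≤ K := h1.trans (by
          rw [hK]; linarith [mul_le_mul_of_nonneg_left h2 hε.le])
        have h4 : 0 ≤ C₀ * ρ * T := by positivity
        linarith
      · have hdt : μ / 16 ≤ dE E t := by
          have h1 := dE_lip E t t₀
          rw [← hd] at h1
          have h2 := abs_le.1 h1
          linarith
        have h := hcore α E Φ hE hne hΦ t ρ (μ / 16) (1 / 16) y B K (by norm_num) (by norm_num)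
          hρpos (by linarith) hdt (by linarith) hy0 hy.le hB0 hK0 ?_ ?_
        · have : (1 / 2 + 1 / 16 : ℝ) = 9 / 16 := by norm_num
          rw [this] at h
          exact h
        · intro t' y' ht' hy' hy'1
          have hab : |t' - t₀| ≤ |t' - t| + |t - t₀| := abs_sub_le _ _ _
          have hm' : 15 / 16 * μ ≤ m t' := by
            have : m t' = d / 4 - |t' - t₀| := rfl
            have h2 : μ = d / 4 - |t - t₀| := rfl
            rw [this]; linarith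
          have h1 := hmax' t' y' (by
            have : m t' = d / 4 - |t' - t₀| := rfl
            linarith) hy' hy'1
          have h2 : (15 / 16 * μ / d) ^ 2 ≤ (m t' / d) ^ 2 := by gcongr
          have h3 : LL Φ (Complex.mk t' (-y')) * (15 / 16 * μ / d) ^ 2 ≤ M :=
            (mul_le_mul_of_nonneg_left h2 (hLL0 _)).trans h1
          have h4 : LL Φ (Complex.mk t' (-y')) ≤ M / (15 / 16 * μ / d) ^ 2 :=
            (le_div_iff₀ (by positivity)).2 h3
          refine h4.trans (le_of_eq ?_)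
          rw [hB]; field_simp
        · intro t' y' ht' hy' hy'1
          have hy'pos : 0 < y' := lt_of_lt_of_le (by positivity) hy'
          have h1 := hout (Complex.mk t' (-y')) (by simp; linarith) (by simpa using hy'pos)
          simp only [neg_neg] at h1
          have h2 : y' ^ (-α) ≤ (1 / 16 * ρ) ^ (-α) :=
            Real.rpow_le_rpow_of_nonpos (by positivity) hy' (by linarith)
          exact h1.trans (by rw [hK]; linarith [mul_le_mul_of_nonneg_left h2 hε.le])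
    -- weighted estimate
    have hMeq : M = LL Φ (Complex.mk t (-y)) * (μ / d) ^ 2 := rfl
    have hw1 : (μ / d) ^ 2 ≤ 1 / 16 := by
      have : μ / d ≤ 1 / 4 := by rw [div_le_iff₀ hd0]; linarith
      calc (μ / d) ^ 2 ≤ (1 / 4) ^ 2 := by gcongr
        _ = 1 / 16 := by norm_num
    have hstep : M ≤ ((9 / 16) * B + K + C₀ * ρ * T) * (μ / d) ^ 2 := by
      rw [hMeq]; exact mul_le_mul_of_nonneg_right hLLle (sq_nonneg _)
    have hBw : (9 / 16) * B * (μ / d) ^ 2 = 16 / 25 * M := by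
      rw [hB]; field_simp; ring
    have hKw : K * (μ / d) ^ 2 ≤ 1041 * V := by
      have hr1 : (1 / 16 * ρ) ^ (-α) ≤ 16 * ρ ^ (-α) := by
        rw [Real.mul_rpow (by norm_num) hρpos.le]
        refine mul_le_mul_of_nonneg_right ?_ (Real.rpow_nonneg hρpos.le _)
        rw [one_div, Real.inv_rpow (by norm_num), ← Real.rpow_neg (by norm_num), neg_neg]
        calc (16 : ℝ) ^ α ≤ (16 : ℝ) ^ (1 : ℝ) :=
              Real.rpow_le_rpow_of_exponent_le (by norm_num) hα1.le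
          _ = 16 := Real.rpow_one _
      have hr2 : ρ ^ (-α) ≤ (μ / 64) ^ (-α) + ρ₀ ^ (-α) := by
        rcases min_choice (μ / 64) ρ₀ with h | h
        · rw [hρ, h]; linarith [Real.rpow_pos_of_pos hρ0 (-α)]
        · rw [hρ, h]; linarith [Real.rpow_pos_of_pos (by positivity : 0 < μ / 64) (-α)]
      have hr3 : (μ / 64) ^ (-α) ≤ 64 * μ ^ (-α) := by
        rw [div_eq_mul_inv, Real.mul_rpow hmt.le (by norm_num), mul_comm]
        refine mul_le_mul_of_nonneg_right ?_ (Real.rpow_nonneg hmt.le _)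
        rw [Real.inv_rpow (by norm_num), ← Real.rpow_neg (by norm_num), neg_neg]
        calc (64 : ℝ) ^ α ≤ (64 : ℝ) ^ (1 : ℝ) :=
              Real.rpow_le_rpow_of_exponent_le (by norm_num) hα1.le
          _ = 64 := Real.rpow_one _
      have hr4 : μ ^ (-α) * (μ / d) ^ 2 ≤ d ^ (-α) := by
        have hq : 0 < μ / d := by positivity
        have hq1 : μ / d ≤ 1 := by rw [div_le_one hd0]; linarith
        have h1 : (μ / d) ^ 2 ≤ (μ / d) ^ α := by
          rw [← Real.rpow_natCast]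
          exact Real.rpow_le_rpow_of_exponent_ge hq hq1 (by push_cast; linarith)
        have h2 : μ ^ (-α) * (μ / d) ^ α = d ^ (-α) := by
          rw [Real.div_rpow hmt.le hd0.le, Real.rpow_neg hmt.le, Real.rpow_neg hd0.le]
          have := (Real.rpow_pos_of_pos hmt α).ne'
          have := (Real.rpow_pos_of_pos hd0 α).ne'
          field_simp
        rw [← h2]
        exact mul_le_mul_of_nonneg_left h1 (Real.rpow_nonneg hmt.le _)
      have hμα : 0 ≤ μ ^ (-α) := Real.rpow_nonneg hmt.le _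
      have hρα : 0 ≤ ρ₀ ^ (-α) := Real.rpow_nonneg hρ0.le _
      have hw0 : 0 ≤ (μ / d) ^ 2 := sq_nonneg _
      have h5 : (1 / 16 * ρ) ^ (-α) ≤ 16 * (64 * μ ^ (-α) + ρ₀ ^ (-α)) := by linarith
      have h6 : (1 / 16 * ρ) ^ (-α) * (μ / d) ^ 2 ≤ 1024 * d ^ (-α) + 16 * ρ₀ ^ (-α) := by
        calc (1 / 16 * ρ) ^ (-α) * (μ / d) ^ 2
            ≤ 16 * (64 * μ ^ (-α) + ρ₀ ^ (-α)) * (μ / d) ^ 2 :=
              mul_le_mul_of_nonneg_right h5 hw0
          _ = 1024 * (μ ^ (-α) * (μ / d) ^ 2) + 16 * (ρ₀ ^ (-α) * (μ / d) ^ 2) := by ring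
          _ ≤ 1024 * d ^ (-α) + 16 * (ρ₀ ^ (-α) * 1) := by
              have : ρ₀ ^ (-α) * (μ / d) ^ 2 ≤ ρ₀ ^ (-α) * 1 :=
                mul_le_mul_of_nonneg_left (by linarith) hρα
              linarith
          _ = 1024 * d ^ (-α) + 16 * ρ₀ ^ (-α) := by ring
      calc K * (μ / d) ^ 2 = κ * (μ / d) ^ 2 + ε * ((1 / 16 * ρ) ^ (-α) * (μ / d) ^ 2) := by
            rw [hK]; ring
        _ ≤ κ * 1 + ε * (1024 * d ^ (-α) + 16 * ρ₀ ^ (-α)) := by
            have h7 : κ * (μ / d) ^ 2 ≤ κ * 1 := mul_le_mul_of_nonneg_left (by linarith) hκ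
            have h8 := mul_le_mul_of_nonneg_left h6 hε.le
            linarith
        _ = κ + 1024 * (ε * d ^ (-α)) + 16 * (ε * ρ₀ ^ (-α)) := by ring
        _ ≤ 1041 * V := by linarith
    have hTw : C₀ * ρ * T * (μ / d) ^ 2 ≤ 441 * C₀ * V := by
      have h1 : T * (μ / d) ^ 2 ≤ 441 * J := by
        have h2 : 20 * (d / μ) + 1 ≤ 21 * (d / μ) := by
          have : 1 ≤ d / μ := by rw [le_div_iff₀ hmt]; linarith
          linarith
        have h3 : (20 * (d / μ) + 1) ^ 2 ≤ (21 * (d / μ)) ^ 2 := by gcongr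
        calc T * (μ / d) ^ 2 ≤ ((21 * (d / μ)) ^ 2 * J) * (μ / d) ^ 2 := by
              refine mul_le_mul_of_nonneg_right (hTJ.trans ?_) (sq_nonneg _)
              exact mul_le_mul_of_nonneg_right h3 hJ0
          _ = 441 * J := by field_simp; ring
      calc C₀ * ρ * T * (μ / d) ^ 2 = C₀ * (ρ * (T * (μ / d) ^ 2)) := by ring
        _ ≤ C₀ * (ρ₀ * (441 * J)) := by
            refine mul_le_mul_of_nonneg_left ?_ hC₀.le
            refine mul_le_mul hρρ0 h1 (by positivity) hρ0.le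
        _ = 441 * C₀ * (ρ₀ * J) := by ring
        _ ≤ 441 * C₀ * V := by
            refine mul_le_mul_of_nonneg_left (hρ2.trans hVρ) (by positivity)
    calc M ≤ ((9 / 16) * B + K + C₀ * ρ * T) * (μ / d) ^ 2 := hstep
      _ = (9 / 16) * B * (μ / d) ^ 2 + K * (μ / d) ^ 2 + C₀ * ρ * T * (μ / d) ^ 2 := by ring
      _ ≤ 16 / 25 * M + 1041 * V + 441 * C₀ * V := by rw [hBw]; linarith
      _ = 16 / 25 * M + (1041 + 441 * C₀) * V := by ring
  -- conclusion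
  have hfin : LL Φ (Complex.mk t₀ (-y₀)) * (1 / 16) ≤ M := by
    have h1 := hmax' t₀ y₀ (by simp; linarith) hy₀ hy₀1
    have h2 : (m t₀ / d) ^ 2 = 1 / 16 := by
      simp only [hm, sub_self, abs_zero, sub_zero]
      field_simp; norm_num
    rwa [h2] at h1
  have hCV : 0 ≤ (1041 + 441 * C₀) * V := by positivity
  linarith

end MP_9d6c91_an
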