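import Pool.Agent.Lib.MP_9d6c91_an.JJ

/-!
# JOB MAXIB : maximal function with respect to an arbitrary measure on the line

* `weak_type` : Besicovitch covering theorem (Mathlib `Besicovitch.exist_disjoint_covering_families`, instance for `ℝ`,
  `Besicovitch.exists_goodδ`, see `HasBesicovitchCovering.no_satelliteConfig`): there are `N` families of disjoint closed balls, centred at points of `S`, covering `S`,
  with `Λ U(B) ≤ X(B)`; the balls are contained in `[-2π, 2π]`.
* `Jr_ratio` : layer cake: for the measure `μ_X = X ds`, `∫⁻ k dμ_X = ∫⁻_λ μ_X {k > λ} dλ` and the superlevel sets of the kernel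
  `k(s) = 1/(d+|t-s|)²` are empty or balls `B(t, r)` (open; approximate by closed balls or compare open balls).  For `r > π`
  (periodicity): `X(B(t,r)) ≤ ⌈r/π⌉ X(B(t,π)) ≤ 2 (r/π) m U(B(t,π)) ≤ 4 m U(B(t,r))`, since `U(B(t,r)) ≥ ⌊r/π⌋ U(B(t,π))`.
-/

set_option autoImplicit false

open MeasureTheory Complex Filter Topology Set
open scoped ENNReal Real

namespace MP_9d6c91_an

private theorem maxib_shift {f : ℝ → ℝ≥0∞} (hf : Measurable f) (hper : ∀ x, f (x + 2 * π) = f x)
    (a b : ℝ) : ∫⁻ x in Ioc (a + 2 * π) (b + 2 * π), f x = ∫⁻ x in Ioc a b, f x := by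
  have h := (measurePreserving_add_right (volume : Measure ℝ) (2 * π)).setLIntegral_comp_preimage
    (measurableSet_Ioc (a := a + 2 * π) (b := b + 2 * π)) hf
  have h2 : (fun x : ℝ => x + 2 * π) ⁻¹' Ioc (a + 2 * π) (b + 2 * π) = Ioc a b := by
    ext x
    simp only [mem_preimage, mem_Ioc]
    constructor
    · rintro ⟨h1, h2⟩
      exact ⟨by linarith, by linarith⟩
    · rintro ⟨h1, h2⟩
      exact ⟨by linarith, by linarith⟩
  rw [h2] at h
  rw [← h]
  simp only [hper]

private theorem maxib_shift_nat {f : ℝ → ℝ≥0∞} (hf : Measurable f)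
    (hper : ∀ x, f (x + 2 * π) = f x) (a b : ℝ) (n : ℕ) :
    ∫⁻ x in Ioc (a + n * (2 * π)) (b + n * (2 * π)), f x = ∫⁻ x in Ioc a b, f x := by
  induction n with
  | zero => simp
  | succ n ih =>
    rw [← ih, ← maxib_shift hf hper (a + n * (2 * π)) (b + n * (2 * π))]
    congr 2
    push_cast
    congr 1 <;> ring

private theorem maxib_mul {f : ℝ → ℝ≥0∞} (hf : Measurable f) (hper : ∀ x, f (x + 2 * π) = f x)
    (a : ℝ) (n : ℕ) :
    ∫⁻ x in Ioc a (a + n * (2 * π)), f x = n * ∫⁻ x in Ioc a (a + 2 * π), f x := by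
  have hpi := Real.pi_pos
  induction n with
  | zero => simp
  | succ n ih =>
    have hn : (0 : ℝ) ≤ n * (2 * π) := by positivity
    have h1 : Ioc a (a + (n + 1 : ℕ) * (2 * π)) =
        Ioc a (a + n * (2 * π)) ∪ Ioc (a + n * (2 * π)) (a + (n + 1 : ℕ) * (2 * π)) := by
      rw [Ioc_union_Ioc_eq_Ioc (by linarith) (by push_cast; linarith)]
    rw [h1, lintegral_union measurableSet_Ioc (Ioc_disjoint_Ioc_of_le le_rfl), ih]
    have h2 : a + ((n + 1 : ℕ) : ℝ) * (2 * π) = (a + 2 * π) + n * (2 * π) := by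
      push_cast; ring
    rw [h2, maxib_shift_nat hf hper a (a + 2 * π) n]
    push_cast
    rw [add_mul, one_mul]

private theorem maxib_icc {f : ℝ → ℝ≥0∞} (t r : ℝ) :
    ∫⁻ x in Metric.closedBall t r, f x = ∫⁻ x in Ioc (t - r) (t + r), f x := by
  rw [Real.closedBall_eq_Icc]
  exact (setLIntegral_congr Ioc_ae_eq_Icc).symm

private theorem maxib_odd {f : ℝ → ℝ≥0∞} (hf : Measurable f) (hper : ∀ x, f (x + 2 * π) = f x)
    (t : ℝ) (K : ℕ) :
    ∫⁻ x in Metric.closedBall t ((2 * K + 1) * π), f x =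
      ((2 * K + 1 : ℕ) : ℝ≥0∞) * ∫⁻ x in Metric.closedBall t π, f x := by
  rw [maxib_icc, maxib_icc]
  have h1 : t + (2 * (K : ℝ) + 1) * π =
      (t - (2 * (K : ℝ) + 1) * π) + ((2 * K + 1 : ℕ) : ℝ) * (2 * π) := by
    push_cast; ring
  rw [h1, maxib_mul hf hper]
  congr 1
  rw [← maxib_shift_nat hf hper (t - (2 * (K : ℝ) + 1) * π) _ K]
  congr 2
  congr 1 <;> ring

private theorem maxib_ball {f g : ℝ → ℝ≥0∞} (hf : Measurable f) (hg : Measurable g)
    (hfp : ∀ x, f (x + 2 * π) = f x) (hgp : ∀ x, g (x + 2 * π) = g x) (t : ℝ) (m : ℝ≥0∞)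
    (h : ∀ r : ℝ, 0 < r → r ≤ π → ∫⁻ s in Metric.closedBall t r, f s ≤
      m * ∫⁻ s in Metric.closedBall t r, g s) (r : ℝ) (hr : 0 < r) :
    ∫⁻ s in Metric.closedBall t r, f s ≤ (4 * m) * ∫⁻ s in Metric.closedBall t r, g s := by
  have hpi := Real.pi_pos
  rcases le_or_gt r π with hrπ | hrπ
  · refine (h r hr hrπ).trans ?_
    gcongr
    calc m = 1 * m := (one_mul m).symm
      _ ≤ 4 * m := by gcongr; norm_num
  · -- `K = ⌈(r / π - 1) / 2⌉₊ ≥ 1`
    obtain ⟨K, hK1, hK2⟩ : ∃ K : ℕ, r ≤ (2 * ((K + 1 : ℕ) : ℝ) + 1) * π ∧ (2 * (K : ℝ) + 1) * π ≤ r := by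
      have hpos : 0 < (r / π - 1) / 2 := by
        have : 1 < r / π := by rwa [one_lt_div hpi]
        linarith
      have hc1 := Nat.le_ceil ((r / π - 1) / 2)
      have hc2 := Nat.ceil_lt_add_one hpos.le
      have hc3 : 0 < ⌈(r / π - 1) / 2⌉₊ := Nat.ceil_pos.2 hpos
      obtain ⟨K, hK⟩ : ∃ K, ⌈(r / π - 1) / 2⌉₊ = K + 1 := ⟨_, (Nat.succ_pred_eq_of_pos hc3).symm⟩
      rw [hK] at hc1 hc2
      refine ⟨K, ?_, ?_⟩
      · have h1 : r / π ≤ 2 * ((K + 1 : ℕ) : ℝ) + 1 := by linarith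
        rwa [div_le_iff₀ hpi] at h1
      · have h1 : (2 * (K : ℝ) + 1) ≤ r / π := by
          push_cast at hc2
          linarith
        rwa [le_div_iff₀ hpi] at h1
    have hm := h π hpi le_rfl
    calc ∫⁻ s in Metric.closedBall t r, f s
        ≤ ∫⁻ s in Metric.closedBall t ((2 * ((K + 1 : ℕ) : ℝ) + 1) * π), f s :=
          lintegral_mono_set (Metric.closedBall_subset_closedBall hK1)
      _ = ((2 * (K + 1) + 1 : ℕ) : ℝ≥0∞) * ∫⁻ x in Metric.closedBall t π, f x :=
          maxib_odd hf hfp t (K + 1)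
      _ ≤ ((4 * (2 * K + 1) : ℕ) : ℝ≥0∞) * (m * ∫⁻ x in Metric.closedBall t π, g x) := by
          gcongr
          omega
      _ = (4 * m) * (((2 * K + 1 : ℕ) : ℝ≥0∞) * ∫⁻ x in Metric.closedBall t π, g x) := by
          push_cast
          ring
      _ = (4 * m) * ∫⁻ x in Metric.closedBall t ((2 * K + 1) * π), g x := by
          rw [maxib_odd hg hgp t K]
      _ ≤ (4 * m) * ∫⁻ x in Metric.closedBall t r, g x := by
          gcongr

theorem Jr_ratio {E : Set ℝ} (hE : GE E) (hne : E.Nonempty) {X U : ℝ → ℝ} (hX : PX X) (hU : PX U) {t : ℝ}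
    (ht : t ∉ E) {m : ℝ} (hm : 0 ≤ m)
    (h : ∀ r : ℝ, 0 < r → r ≤ π → ∫⁻ s in Metric.closedBall t r, ENNReal.ofReal (X s) ≤
      ENNReal.ofReal m * ∫⁻ s in Metric.closedBall t r, ENNReal.ofReal (U s)) :
    Jr (dE E) X t ≤ 4 * m * Jr (dE E) U t := by
  have hd : 0 < dE E t := dE_pos hE hne ht
  set d := dE E t with hd_def
  have hXm : Measurable fun s => ENNReal.ofReal (X s) := ENNReal.measurable_ofReal.comp hX.meas
  have hUm : Measurable fun s => ENNReal.ofReal (U s) := ENNReal.measurable_ofReal.comp hU.meas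
  have hball := maxib_ball hXm hUm (fun x => by rw [hX.per]) (fun x => by rw [hU.per]) t
    (ENNReal.ofReal m) h
  -- the kernel
  have hkm : Measurable fun s : ℝ => 1 / (d + |t - s|) ^ 2 := by fun_prop
  have hset : ∀ lam : ℝ, 0 < lam → {s : ℝ | lam < 1 / (d + |t - s|) ^ 2} =
      Ioo (t - (1 / √lam - d)) (t + (1 / √lam - d)) := by
    intro lam hlam
    ext s
    have hpos : 0 < d + |t - s| := by positivity
    have hsq : 0 < √lam := Real.sqrt_pos.2 hlam
    rw [mem_ofPred_eq, mem_Ioo]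
    have h1 : lam < 1 / (d + |t - s|) ^ 2 ↔ d + |t - s| < 1 / √lam := by
      rw [lt_div_iff₀ (by positivity), lt_div_iff₀ hsq]
      constructor
      · intro h
        have h2 : ((d + |t - s|) * √lam) ^ 2 < 1 := by
          rw [mul_pow, Real.sq_sqrt hlam.le]; linarith
        nlinarith [mul_pos hpos hsq]
      · intro h
        have h2 : ((d + |t - s|) * √lam) ^ 2 < 1 := by
          nlinarith [mul_pos hpos hsq]
        rw [mul_pow, Real.sq_sqrt hlam.le] at h2
        linarith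
    rw [h1]
    have h3 : d + |t - s| < 1 / √lam ↔ |t - s| < 1 / √lam - d := by
      constructor <;> intro h <;> linarith
    rw [h3, abs_lt]
    constructor
    · rintro ⟨h4, h5⟩
      exact ⟨by linarith, by linarith⟩
    · rintro ⟨h4, h5⟩
      exact ⟨by linarith, by linarith⟩
  have hset2 : ∀ (f : ℝ → ℝ≥0∞), ∀ lam : ℝ, 0 < lam →
      (volume.withDensity f) {s : ℝ | lam < 1 / (d + |t - s|) ^ 2} =
      ∫⁻ s in Metric.closedBall t (1 / √lam - d), f s := by
    intro f lam hlam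
    rw [hset lam hlam, withDensity_apply _ measurableSet_Ioo, Real.closedBall_eq_Icc]
    exact setLIntegral_congr Ioo_ae_eq_Icc
  have hlay : ∀ (f : ℝ → ℝ≥0∞), Measurable f →
      ∫⁻ s, f s * ENNReal.ofReal (1 / (d + |t - s|) ^ 2) =
      ∫⁻ lam in Ioi (0 : ℝ), (volume.withDensity f) {s : ℝ | lam < 1 / (d + |t - s|) ^ 2} := by
    intro f hf
    rw [← lintegral_eq_lintegral_meas_lt (volume.withDensity f)
      (Eventually.of_forall fun s => by positivity) hkm.aemeasurable]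
    exact (lintegral_withDensity_eq_lintegral_mul volume hf
      (ENNReal.measurable_ofReal.comp hkm)).symm
  have hmain : ENNReal.ofReal (Jr (dE E) X t) ≤ ENNReal.ofReal (4 * m * Jr (dE E) U t) := by
    rw [ENNReal.ofReal_mul (by positivity), ENNReal.ofReal_mul (by norm_num), ofReal_Jr hE hne hX ht,
      ofReal_Jr hE hne hU ht, ← hd_def, hlay _ hXm, hlay _ hUm]
    have h4 : ENNReal.ofReal 4 = 4 := by norm_num
    rw [h4, ← lintegral_const_mul' _ _ (ENNReal.mul_ne_top (by norm_num) ENNReal.ofReal_ne_top)]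
    apply setLIntegral_mono' measurableSet_Ioi
    intro lam hlam
    rw [hset2 _ lam hlam, hset2 _ lam hlam]
    rcases le_or_gt (1 / √lam - d) 0 with h0 | h0
    · have hz : ∫⁻ s in Metric.closedBall t (1 / √lam - d), ENNReal.ofReal (X s) = 0 := by
        rw [maxib_icc, Ioc_eq_empty (by linarith)]
        simp
      rw [hz]
      exact zero_le
    · exact hball _ h0
  rwa [ENNReal.ofReal_le_ofReal_iff (mul_nonneg (by positivity) (Jr_nonneg hU))] at hmain

end MP_9d6c91_an
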