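import Pool.Agent.Lib.MP_9d6c91_an.Defs

/-!
# JOB MAXIA : maximal function with respect to an arbitrary measure on the line

* `weak_type` : Besicovitch covering theorem (Mathlib `Besicovitch.exist_disjoint_covering_families`, instance for `ℝ`,
  `Besicovitch.exists_goodδ`, see `HasBesicovitchCovering.no_satelliteConfig`): there are `N` families of disjoint closed balls, centred at points of `S`, covering `S`,
  with `Λ U(B) ≤ X(B)`; the balls are contained in `[-2π, 2π]`.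
* `Jr_ratio` : layer cake: for the measure `μ_X = X ds`, `∫⁻ k dμ_X = ∫⁻_λ μ_X {k > λ} dλ` and the superlevel sets of the kernel
  `k(s) = 1/(d+|t-s|)²` are empty or balls `B(t, r)` (open; approximate by closed balls or compare open balls).  For `r > π`
  (periodicity): `X(B(t,r)) ≤ ⌈r/π⌉ X(B(t,π)) ≤ 2 (r/π) m U(B(t,π)) ≤ 4 m U(B(t,r))`, since `U(B(t,r)) ≥ ⌊r/π⌋ U(B(t,π))`.
-/

set_option autoImplicit false

open MeasureTheory Complex Filter Topology Set
open scoped ENNReal Real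

namespace MP_9d6c91_an

theorem weak_type : ∃ N : ℕ, ∀ (X U : ℝ → ℝ≥0∞), Measurable X → Measurable U → ∀ (Λ : ℝ≥0∞) (S : Set ℝ),
    S ⊆ Icc (-π) π →
    (∀ t ∈ S, ∃ r : ℝ, 0 < r ∧ r ≤ π ∧
      Λ * ∫⁻ s in Metric.closedBall t r, U s ≤ ∫⁻ s in Metric.closedBall t r, X s) →
    Λ * ∫⁻ s in S, U s ≤ N * ∫⁻ s in Icc (-(2 * π)) (2 * π), X s := by
  obtain ⟨N, τ, hτ, hN⟩ := HasBesicovitchCovering.no_satelliteConfig (α := ℝ)
  refine ⟨N, ?_⟩
  intro X U hX hU Λ S hS h
  choose! r hr0 hrπ hr using h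
  let q : Besicovitch.BallPackage S ℝ :=
    { c := fun t => t.1
      r := fun t => r t.1
      rpos := fun t => hr0 t.1 t.2
      r_bound := π
      r_le := fun t => hrπ t.1 t.2 }
  obtain ⟨s, hs1, hs2⟩ := Besicovitch.exist_disjoint_covering_families hτ hN q
  have hcount : ∀ i, (s i).Countable := by
    intro i
    apply (hs1 i).countable_of_nonempty_interior
    intro j _
    exact ⟨q.c j, Metric.ball_subset_interior_closedBall (Metric.mem_ball_self (q.rpos j))⟩
  have hSsub : S ⊆ ⋃ i : Fin N, ⋃ j ∈ s i, Metric.closedBall (q.c j) (q.r j) := by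
    intro t ht
    have h1 := hs2 ⟨⟨t, ht⟩, rfl⟩
    simp only [mem_iUnion] at h1 ⊢
    obtain ⟨i, j, hj, hjt⟩ := h1
    exact ⟨i, j, hj, Metric.ball_subset_closedBall hjt⟩
  have hball : ∀ j : S, Metric.closedBall (q.c j) (q.r j) ⊆ Icc (-(2 * π)) (2 * π) := by
    intro j x hx
    have h1 := hS j.2
    have h2 := q.r_le j
    have h3 : dist x (j : ℝ) ≤ π := (Metric.mem_closedBall.1 hx).trans h2
    rw [Real.dist_eq, abs_le] at h3
    exact ⟨by linarith [h1.1, h3.1], by linarith [h1.2, h3.2]⟩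
  have hi : ∀ i : Fin N, Λ * ∫⁻ x in ⋃ j ∈ s i, Metric.closedBall (q.c j) (q.r j), U x ≤
      ∫⁻ x in Icc (-(2 * π)) (2 * π), X x := by
    intro i
    rw [lintegral_biUnion (hcount i) (fun j _ => measurableSet_closedBall) (hs1 i),
      ← ENNReal.tsum_mul_left]
    calc ∑' j : s i, Λ * ∫⁻ x in Metric.closedBall (q.c j) (q.r j), U x
        ≤ ∑' j : s i, ∫⁻ x in Metric.closedBall (q.c j) (q.r j), X x :=
          ENNReal.tsum_le_tsum fun j => hr _ j.1.2
      _ = ∫⁻ x in ⋃ j ∈ s i, Metric.closedBall (q.c j) (q.r j), X x := by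
          rw [lintegral_biUnion (hcount i) (fun j _ => measurableSet_closedBall) (hs1 i)]
      _ ≤ ∫⁻ x in Icc (-(2 * π)) (2 * π), X x :=
          lintegral_mono_set (iUnion₂_subset fun j _ => hball j)
  calc Λ * ∫⁻ x in S, U x
      ≤ Λ * ∫⁻ x in ⋃ i : Fin N, ⋃ j ∈ s i, Metric.closedBall (q.c j) (q.r j), U x := by
        gcongr
    _ ≤ Λ * ∑' i : Fin N, ∫⁻ x in ⋃ j ∈ s i, Metric.closedBall (q.c j) (q.r j), U x := by
        gcongr
        exact lintegral_iUnion_le _ _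
    _ = ∑ i : Fin N, Λ * ∫⁻ x in ⋃ j ∈ s i, Metric.closedBall (q.c j) (q.r j), U x := by
        rw [tsum_fintype, Finset.mul_sum]
    _ ≤ ∑ _i : Fin N, ∫⁻ x in Icc (-(2 * π)) (2 * π), X x :=
        Finset.sum_le_sum fun i _ => hi i
    _ = N * ∫⁻ x in Icc (-(2 * π)) (2 * π), X x := by
        rw [Finset.sum_const, Finset.card_univ, Fintype.card_fin, nsmul_eq_mul]

end MP_9d6c91_an
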