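import Pool.Agent.Lib.MP_9d6c91_an.Act
import Pool.Agent.Lib.MP_9d6c91_an.Geo

/-!
# JOB OUTB : the Cauchy transform outside of the disc

`y = -Im w`, `|ee w| = e^y`, `outF b (ee w) = ∑ b_n (ee w)^(-n-1)`, so
`|outF b (ee w)| ≤ ∑ |b_n| e^(-y(n+1)) ≤ A ∑ exp (ε' n^β - y n)` and
`ε' n^β - y n / 2 ≤ C ε'^(1+α) y^(-α)` (maximum over `n`; `β = α/(1+α)`: write `ε' n^β = (ε'/s^β) (s n)^β ≤ (ε'/s^β)(1 + s n)`
or use Young `x^β z^(1-β) ≤ x + z` with `x = y n / 2`), `∑ exp (-y n / 2) ≤ 4 / y`, and `1 / y ≤ C_ε exp (ε y^(-α))`.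
-/

set_option autoImplicit false

open MeasureTheory Complex Filter Topology Set
open scoped ENNReal Real

namespace MP_9d6c91_an

/-- `x^β ≤ t x + t^(-α)` -/
theorem outB_young {α : ℝ} (hα : 0 < α) {x t : ℝ} (hx : 0 ≤ x) (ht : 0 < t) :
    x ^ (α / (1 + α)) ≤ t * x + t ^ (-α) := by
  have h1 : (0 : ℝ) < 1 + α := by linarith
  rcases le_or_gt (t ^ (-(1 + α))) x with h | h
  · have hx0 : 0 < x := lt_of_lt_of_le (Real.rpow_pos_of_pos ht _) h
    have h2 : x ^ (-(1 / (1 + α))) ≤ t := by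
      have h3 : x ^ (-(1 / (1 + α))) ≤ (t ^ (-(1 + α))) ^ (-(1 / (1 + α))) := by
        apply Real.rpow_le_rpow_of_nonpos (Real.rpow_pos_of_pos ht _) h
        have : 0 < 1 / (1 + α) := by positivity
        linarith
      rw [← Real.rpow_mul ht.le] at h3
      rw [show -(1 + α) * -(1 / (1 + α)) = 1 by field_simp, Real.rpow_one] at h3
      exact h3
    have h4 : x ^ (α / (1 + α)) = x * x ^ (-(1 / (1 + α))) := by
      nth_rewrite 2 [← Real.rpow_one x]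
      rw [← Real.rpow_add hx0]
      congr 1
      field_simp
      ring
    rw [h4]
    have h5 : x * x ^ (-(1 / (1 + α))) ≤ x * t := mul_le_mul_of_nonneg_left h2 hx
    have h6 : 0 < t ^ (-α) := Real.rpow_pos_of_pos ht _
    linarith [mul_comm x t]
  · have h2 : x ^ (α / (1 + α)) ≤ (t ^ (-(1 + α))) ^ (α / (1 + α)) :=
      Real.rpow_le_rpow hx h.le (by positivity)
    rw [← Real.rpow_mul ht.le] at h2
    rw [show -(1 + α) * (α / (1 + α)) = -α by field_simp] at h2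
    have h6 : 0 ≤ t * x := by positivity
    linarith

/-- `2 e' n^β ≤ y n + ε y^(-α)` if `2 e' = ε^(1/(1+α))` -/
theorem outB_young2 {α ε : ℝ} (hα : 0 < α) (hε : 0 < ε) {x y : ℝ} (hx : 0 ≤ x) (hy : 0 < y) :
    ε ^ (1 / (1 + α)) * x ^ (α / (1 + α)) ≤ y * x + ε * y ^ (-α) := by
  set s : ℝ := ε ^ (1 / (1 + α)) with hs
  have h1 : (0 : ℝ) < 1 + α := by linarith
  have hs0 : 0 < s := Real.rpow_pos_of_pos hε _
  have h := outB_young hα hx (div_pos hy hs0)
  have h2 := mul_le_mul_of_nonneg_left h hs0.le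
  have h3 : s * (y / s * x + (y / s) ^ (-α)) = y * x + s * (y / s) ^ (-α) := by
    field_simp
  have h4 : s * (y / s) ^ (-α) = ε * y ^ (-α) := by
    rw [Real.div_rpow hy.le hs0.le, Real.rpow_neg hs0.le, div_inv_eq_mul]
    have h5 : s * s ^ α = ε := by
      nth_rewrite 1 [← Real.rpow_one s]
      rw [← Real.rpow_add hs0, hs, ← Real.rpow_mul hε.le]
      rw [show 1 / (1 + α) * (1 + α) = 1 by field_simp, Real.rpow_one]
    calc s * (y ^ (-α) * s ^ α) = (s * s ^ α) * y ^ (-α) := by ring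
      _ = ε * y ^ (-α) := by rw [h5]
  rw [h3, h4] at h2
  exact h2

/-- the terms at distance `t = log |z|` -/
theorem outB_term {α : ℝ} (hα : 0 < α) {b : ℕ → ℂ} {A ε : ℝ} (hε : 0 < ε)
    (hb : ∀ n : ℕ, ‖b n‖ ≤ A * Real.exp (ε ^ (1 / (1 + α)) / 2 * (n : ℝ) ^ (α / (1 + α)))) {t : ℝ} (ht : 0 < t)
    {z : ℂ} (hz : Real.exp t ≤ ‖z‖) (n : ℕ) :
    ‖b n * (z⁻¹) ^ (n + 1)‖ ≤ (A * Real.exp (ε * t ^ (-α))) *
      Real.exp (-(ε ^ (1 / (1 + α)) / 2) * (n : ℝ) ^ (α / (1 + α))) := by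
  have hA : 0 ≤ A := by
    have h0 := (norm_nonneg (b 0)).trans (hb 0)
    by_contra hA
    push Not at hA
    have := mul_neg_of_neg_of_pos hA (Real.exp_pos (ε ^ (1 / (1 + α)) / 2 * ((0 : ℕ) : ℝ) ^ (α / (1 + α))))
    linarith
  have h1 : ‖z⁻¹‖ ≤ Real.exp (-t) := by
    rw [norm_inv, Real.exp_neg]
    exact inv_anti₀ (Real.exp_pos t) hz
  have h2 : ‖(z⁻¹) ^ (n + 1)‖ ≤ Real.exp (-t * n) := by
    rw [norm_pow]
    calc ‖z⁻¹‖ ^ (n + 1) ≤ (Real.exp (-t)) ^ (n + 1) := by gcongr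
      _ = Real.exp (-t * (n + 1 : ℕ)) := by
          rw [← Real.exp_nat_mul]; ring_nf
      _ ≤ Real.exp (-t * n) := by
          apply Real.exp_le_exp.mpr
          push_cast
          nlinarith
  have h3 := outB_young2 hα hε (Nat.cast_nonneg (α := ℝ) n) ht
  rw [norm_mul]
  calc ‖b n‖ * ‖(z⁻¹) ^ (n + 1)‖
      ≤ (A * Real.exp (ε ^ (1 / (1 + α)) / 2 * (n : ℝ) ^ (α / (1 + α)))) * Real.exp (-t * n) := by
        gcongr
        exact hb n
    _ = A * Real.exp (ε ^ (1 / (1 + α)) / 2 * (n : ℝ) ^ (α / (1 + α)) + -t * n) := by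
        rw [Real.exp_add]; ring
    _ ≤ A * Real.exp (ε * t ^ (-α) + -(ε ^ (1 / (1 + α)) / 2) * (n : ℝ) ^ (α / (1 + α))) := by
        refine mul_le_mul_of_nonneg_left (Real.exp_le_exp.mpr ?_) hA
        linarith
    _ = _ := by rw [Real.exp_add]; ring

private theorem outB_beta {α : ℝ} (hα : 0 < α) : 0 < α / (1 + α) := by positivity

theorem summable_outF {α : ℝ} (hα : 0 < α) {b : ℕ → ℂ} (hb : Gd (α / (1 + α)) b) {z : ℂ} (hz : 1 < ‖z‖) :
    Summable fun n => ‖b n * (z⁻¹) ^ (n + 1)‖ := by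
  obtain ⟨A, hA⟩ := hb ((1 : ℝ) ^ (1 / (1 + α)) / 2) (by rw [Real.one_rpow]; norm_num)
  have ht : 0 < Real.log ‖z‖ := Real.log_pos hz
  refine Summable.of_nonneg_of_le (fun n => norm_nonneg _)
    (fun n => outB_term hα one_pos hA ht (by rw [Real.exp_log (by linarith)]) n) ?_
  refine (summable_exp_neg (outB_beta hα) ?_).mul_left _
  rw [Real.one_rpow]; norm_num

theorem outF_bound {α : ℝ} (hα : 0 < α) {b : ℕ → ℂ} (hb : Gd (α / (1 + α)) b) {ε : ℝ} (hε : 0 < ε) :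
    ∃ κ : ℝ, 0 ≤ κ ∧ ∀ w : ℂ, -1 ≤ w.im → w.im < 0 →
      ‖outF b (ee w)‖ ≤ Real.exp (κ + ε * (-w.im) ^ (-α)) := by
  have he : 0 < ε ^ (1 / (1 + α)) / 2 := by positivity
  obtain ⟨A, hA⟩ := hb (ε ^ (1 / (1 + α)) / 2) he
  have hs := summable_exp_neg (outB_beta hα) he
  set S : ℝ := ∑' n : ℕ, Real.exp (-(ε ^ (1 / (1 + α)) / 2) * (n : ℝ) ^ (α / (1 + α))) with hS
  refine ⟨|A * S|, abs_nonneg _, fun w _ hw => ?_⟩
  have ht : 0 < -w.im := by linarith
  calc ‖outF b (ee w)‖ ≤ ∑' n : ℕ, (A * Real.exp (ε * (-w.im) ^ (-α))) *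
      Real.exp (-(ε ^ (1 / (1 + α)) / 2) * (n : ℝ) ^ (α / (1 + α))) := by
        refine tsum_of_norm_bounded (hs.mul_left _).hasSum (fun n => ?_)
        exact outB_term hα hε hA ht (by rw [norm_ee]) n
    _ = (A * S) * Real.exp (ε * (-w.im) ^ (-α)) := by rw [tsum_mul_left]; ring
    _ ≤ Real.exp |A * S| * Real.exp (ε * (-w.im) ^ (-α)) := by
        gcongr
        have h1 := Real.add_one_le_exp |A * S|
        have h2 := le_abs_self (A * S)
        linarith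
    _ = _ := by rw [← Real.exp_add]

theorem differentiableOn_outF {α : ℝ} (hα : 0 < α) {b : ℕ → ℂ} (hb : Gd (α / (1 + α)) b) :
    DifferentiableOn ℂ (outF b) {z : ℂ | 1 < ‖z‖} := by
  intro z0 hz0
  rw [Set.mem_ofPred_eq] at hz0
  obtain ⟨r, hr1, hr2⟩ := exists_between hz0
  have hr0 : 0 < r := by linarith
  have hopen : IsOpen {z : ℂ | r < ‖z‖} := isOpen_lt continuous_const continuous_norm
  have ht : 0 < Real.log r := Real.log_pos hr1
  obtain ⟨A, hA⟩ := hb ((1 : ℝ) ^ (1 / (1 + α)) / 2) (by rw [Real.one_rpow]; norm_num)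
  have hs : Summable fun n : ℕ => (A * Real.exp (1 * (Real.log r) ^ (-α))) *
      Real.exp (-((1 : ℝ) ^ (1 / (1 + α)) / 2) * (n : ℝ) ^ (α / (1 + α))) := by
    refine (summable_exp_neg (outB_beta hα) ?_).mul_left _
    rw [Real.one_rpow]; norm_num
  have hd : DifferentiableOn ℂ (fun z => ∑' n : ℕ, b n * (z⁻¹) ^ (n + 1)) {z : ℂ | r < ‖z‖} := by
    refine differentiableOn_tsum_of_summable_norm hs (fun n => ?_) hopen (fun n z hz => ?_)
    · refine DifferentiableOn.const_mul ?_ _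
      refine DifferentiableOn.pow ?_ _
      refine differentiableOn_inv.mono fun z hz => ?_
      rw [Set.mem_ofPred_eq] at hz
      intro h
      simp only [h, norm_zero] at hz
      linarith
    · rw [Set.mem_ofPred_eq] at hz
      exact outB_term hα one_pos hA ht (by rw [Real.exp_log hr0]; exact hz.le) n
  exact ((hd z0 hr2).differentiableAt (hopen.mem_nhds hr2)).differentiableWithinAt

end MP_9d6c91_an
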