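import Pool.Agent.Lib.MP_9d6c91_an.Super

/-!
# JOB OUTG : the Cauchy transform of `act g c` is bounded outside, away from the circle at the natural scale

`W = WW α β E u`, `u = uu M g`, `z = ee (t - iy)`.  If `y ≥ 1/4` use `outF_bound` (with `Gd_act`, `ε = 1`).  Let `y < 1/4`, `y ≥ η W^(-1/α)`, i.e. `y^(-α) ≤ η^(-α) W`.
Case 1: `d(t) ≤ L y` (`L ≥ 1` depending on `η, α`): by `flat_bound` at the point `x ∈ E`, `|t - x| = d(t)`: `‖ev g (ee w)‖ ≤ C exp (-c' y^(-α))` for
`|Re w - t| ≤ 2y`, `y/2 ≤ Im w ≤ 2y` (`‖ee w - ee x‖ ≤ ‖w - x‖ ≤ (L+4) y`).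
Case 2: `d(t) > L y ≥ y` : then `d^(-α) ≤ L^(-α) y^(-α) ≤ (1/2) η^α y^(-α) ≤ W/2` for suitable `L`, so `J^β ≥ W/2 ≥ c y^(-α)`, `J ≥ c y^(-(1+α))`, and `upper_J` gives
the same bound.
`propag` (`κ = c' y^(-α)`, after enlarging `M`; `y₁ = y`): `‖ev (tr N g) z‖ ≤ C exp (-c₃ y^(-α))`, and
`‖outF c z‖ ≤ exp (κ + c₃ y^(-α))` by `outF_bound` with `ε = c₃`; `out_split`.
-/

set_option autoImplicit false

open MeasureTheory Complex Filter Topology Set
open scoped ENNReal Real

namespace MP_9d6c91_an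

private theorem outG_posLog {x C : ℝ} (hx : 0 ≤ x) (hC : 0 ≤ C) (h : x ≤ Real.exp C) :
    Real.posLog x ≤ C := by
  rw [Real.posLog]
  refine max_le hC ?_
  rcases hx.eq_or_lt with h0 | h0
  · rw [← h0, Real.log_zero]; exact hC
  · calc Real.log x ≤ Real.log (Real.exp C) := Real.log_le_log h0 h
      _ = C := Real.log_exp C

theorem outG {α M : ℝ} (hα : 0 < α) (hα1 : α < 1) {g c : ℕ → ℂ} (hg : Gv (α / (1 + α)) g) (hg0 : g ≠ 0)
    (hc : Gd (α / (1 + α)) c)
    (hM0 : 0 < M) (hM : ∀ z : ℂ, ‖z‖ ≤ 1 → ‖ev g z‖ ≤ M) {E : Set ℝ} (hE : GE E) (hne : E.Nonempty)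
    (hflat : Flat E g) (η : ℝ) (hη : 0 < η) :
    ∃ C : ℝ, 0 ≤ C ∧ ∀ t y : ℝ, t ∉ E → 0 < y → y ≤ 1 →
      η * (WW α (α / (1 + α)) E (uu M g) t) ^ (-(1 / α)) ≤ y →
      Real.posLog ‖outF (act g c) (ee (Complex.mk t (-y)))‖ ≤ C := by
  have hβ : 0 < α / (1 + α) := by positivity
  have hβ1 : α / (1 + α) ≤ 1 := by rw [div_le_one (by positivity)]; linarith
  have h1α : 0 < 1 + α := by positivity
  obtain ⟨A, δ, hδ, hgC⟩ := hg
  have hg' : Gv (α / (1 + α)) g := ⟨A, δ, hδ, hgC⟩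
  have hsum := Gv.summable_norm hβ hg'
  have hPX : PX (uu M g) := (pj hsum hg0 hM0 hM).1
  have hb : Gd (α / (1 + α)) (act g c) := Gd_act hβ hβ1 hg' hc
  obtain ⟨κ₁, hκ₁, hb1⟩ := outF_bound hα hb one_pos
  obtain ⟨Cf, cf, hCf, hcf, hfb⟩ := flat_bound hα hg'
  obtain ⟨Cp, cp, hCp, hcp, hprop⟩ := propag (M := max M Cf) hα hδ hgC (lt_max_of_lt_left hM0)
  have hup := upper_J hsum hg0 hM0 hM hE hne
  obtain ⟨Cs, hCs, hsplit⟩ := out_split hα hδ hgC hc
  -- constants
  set L : ℝ := max 1 (2 ^ (1 / α) / η) with hL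
  have hL1 : 1 ≤ L := le_max_left _ _
  have hL2 : 2 ^ (1 / α) / η ≤ L := le_max_right _ _
  set c₁ : ℝ := cf * (L + 4) ^ (-α) with hc₁
  set cJ : ℝ := (1 / 2 * η ^ α) ^ (1 + 1 / α) with hcJ
  set c₀ : ℝ := min c₁ (cJ / 5000) with hc₀
  have hηα : 0 < η ^ α := Real.rpow_pos_of_pos hη _
  have hc₁0 : 0 < c₁ := mul_pos hcf (Real.rpow_pos_of_pos (by linarith) _)
  have hcJ0 : 0 < cJ := Real.rpow_pos_of_pos (by positivity) _
  have hc₀0 : 0 < c₀ := lt_min hc₁0 (by positivity)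
  set c₃ : ℝ := min (cp * c₀) cp with hc₃
  have hc₃0 : 0 < c₃ := lt_min (by positivity) hcp
  obtain ⟨κ₃, hκ₃, hb3⟩ := outF_bound hα hc hc₃0
  have h4α : 0 < (4 : ℝ) ^ α := Real.rpow_pos_of_pos (by norm_num) _
  set C₄ : ℝ := Real.log (1 + Cs + 2 * Cp * Real.exp κ₃) with hC₄
  have hargpos : 1 ≤ 1 + Cs + 2 * Cp * Real.exp κ₃ := by
    have : 0 ≤ 2 * Cp * Real.exp κ₃ := by positivity
    linarith
  have hC₄0 : 0 ≤ C₄ := Real.log_nonneg hargpos
  refine ⟨max (κ₁ + 4 ^ α) C₄, le_max_of_le_right hC₄0, ?_⟩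
  intro t y ht hy hy1 hηy
  have hdpos : 0 < dE E t := dE_pos hE hne ht
  have hJ0 : 0 ≤ Jr (dE E) (uu M g) t := Jr_nonneg hPX
  by_cases hy4 : 1 / 4 ≤ y
  · -- large y
    refine le_trans ?_ (le_max_left _ _)
    refine outG_posLog (norm_nonneg _) (by positivity) ?_
    have h1 := hb1 (Complex.mk t (-y)) (by simp; linarith) (by simp; linarith)
    refine h1.trans (Real.exp_le_exp.mpr ?_)
    have h2 : (-(Complex.mk t (-y)).im) ^ (-α) ≤ 4 ^ α := by
      simp only [neg_neg]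
      calc y ^ (-α) ≤ (1 / 4 : ℝ) ^ (-α) := Real.rpow_le_rpow_of_nonpos (by norm_num) hy4 (by linarith)
        _ = 4 ^ α := by rw [one_div, Real.inv_rpow (by norm_num), Real.rpow_neg (by norm_num), inv_inv]
    linarith
  push Not at hy4
  refine le_trans ?_ (le_max_right _ _)
  -- W
  set d := dE E t with hd
  set J := Jr (dE E) (uu M g) t with hJ
  have hWdef : WW α (α / (1 + α)) E (uu M g) t = d ^ (-α) + J ^ (α / (1 + α)) := rfl
  set W := WW α (α / (1 + α)) E (uu M g) t with hW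
  have hdα : 0 < d ^ (-α) := Real.rpow_pos_of_pos hdpos _
  have hJβ : 0 ≤ J ^ (α / (1 + α)) := Real.rpow_nonneg hJ0 _
  have hWpos : 0 < W := by rw [hWdef]; linarith
  set Y := y ^ (-α) with hY
  have hYpos : 0 < Y := Real.rpow_pos_of_pos hy _
  have hηW : η ^ α * Y ≤ W := by
    have h1 : 0 < η * W ^ (-(1 / α)) := mul_pos hη (Real.rpow_pos_of_pos hWpos _)
    have h2 : Y ≤ (η * W ^ (-(1 / α))) ^ (-α) :=
      Real.rpow_le_rpow_of_nonpos h1 hηy (by linarith)
    have h3 : (η * W ^ (-(1 / α))) ^ (-α) = (η ^ α)⁻¹ * W := by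
      rw [Real.mul_rpow hη.le (Real.rpow_pos_of_pos hWpos _).le, ← Real.rpow_mul hWpos.le,
        Real.rpow_neg hη.le]
      congr 1
      have : -(1 / α) * -α = 1 := by field_simp
      rw [this, Real.rpow_one]
    rw [h3] at h2
    calc η ^ α * Y ≤ η ^ α * ((η ^ α)⁻¹ * W) := mul_le_mul_of_nonneg_left h2 hηα.le
      _ = W := by rw [← mul_assoc, mul_inv_cancel₀ hηα.ne', one_mul]
  -- smallness of g in the box
  have hbox : ∀ w : ℂ, |w.re - t| ≤ 2 * y → y / 2 ≤ w.im → w.im ≤ 2 * y →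
      ‖ev g (ee w)‖ ≤ max M Cf * Real.exp (-(c₀ * Y)) := by
    intro w hw1 hw2 hw3
    by_cases hcase : d ≤ L * y
    · obtain ⟨x, hx, hxd⟩ := exists_dE hE hne t
      have hwim : 0 < w.im := by linarith
      have hbnd := hfb (ee (x : ℂ)) (norm_ee_real x) (hflat x hx) (ee w)
        (mem_ball_zero_iff.mp (ee_mem_ball hwim)).le
      have hpos : 0 < ‖ee w - ee (x : ℂ)‖ := by
        apply norm_pos_iff.mpr
        intro h
        have h1 : ‖ee w‖ = ‖ee (x : ℂ)‖ := by rw [sub_eq_zero.mp h]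
        have h2 := mem_ball_zero_iff.mp (ee_mem_ball hwim)
        rw [norm_ee_real] at h1
        linarith
      have hle : ‖ee w - ee (x : ℂ)‖ ≤ (L + 4) * y := by
        calc ‖ee w - ee (x : ℂ)‖ ≤ ‖w - (x : ℂ)‖ := norm_ee_sub_le hwim.le (by simp)
          _ ≤ |(w - (x : ℂ)).re| + |(w - (x : ℂ)).im| := Complex.norm_le_abs_re_add_abs_im _
          _ = |w.re - x| + |w.im| := by simp
          _ ≤ (|w.re - t| + |t - x|) + w.im := by
              have h1 : |w.re - x| ≤ |w.re - t| + |t - x| := by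
                have := abs_add_le (w.re - t) (t - x)
                simpa using this
              rw [abs_of_pos hwim]; linarith
          _ ≤ (L + 4) * y := by rw [hxd]; nlinarith
      have hpow : (L + 4) ^ (-α) * Y ≤ ‖ee w - ee (x : ℂ)‖ ^ (-α) := by
        rw [hY, ← Real.mul_rpow (by linarith) hy.le]
        exact Real.rpow_le_rpow_of_nonpos hpos hle (by linarith)
      refine hbnd.trans ?_
      refine mul_le_mul (le_max_right _ _) (Real.exp_le_exp.mpr ?_) (Real.exp_pos _).le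
        (le_trans hM0.le (le_max_left _ _))
      have h1 : c₀ * Y ≤ c₁ * Y := mul_le_mul_of_nonneg_right (min_le_left _ _) hYpos.le
      have h2 : c₁ * Y = cf * ((L + 4) ^ (-α) * Y) := by rw [hc₁]; ring
      have h3 := mul_le_mul_of_nonneg_left hpow hcf.le
      linarith
    · push Not at hcase
      have hyd : y ≤ d := by nlinarith
      have hbnd := hup t y ht hy (by linarith) hyd w hw1 hw2 hw3
      -- d^(-α) ≤ W / 2
      have hdW : d ^ (-α) ≤ W / 2 := by
        have h1 : d ^ (-α) ≤ (L * y) ^ (-α) :=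
          Real.rpow_le_rpow_of_nonpos (by positivity) hcase.le (by linarith)
        have h2 : (L * y) ^ (-α) = L ^ (-α) * Y := Real.mul_rpow (by linarith) hy.le
        have h3 : L ^ (-α) ≤ (2 ^ (1 / α) / η) ^ (-α) :=
          Real.rpow_le_rpow_of_nonpos (by positivity) hL2 (by linarith)
        have h4 : (2 ^ (1 / α) / η) ^ (-α) = 1 / 2 * η ^ α := by
          rw [Real.div_rpow (by positivity) hη.le, ← Real.rpow_mul (by norm_num),
            Real.rpow_neg hη.le]
          have : 1 / α * -α = -1 := by field_simp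
          rw [this, Real.rpow_neg_one]
          field_simp
        rw [h2] at h1
        rw [h4] at h3
        have h5 : L ^ (-α) * Y ≤ 1 / 2 * η ^ α * Y := mul_le_mul_of_nonneg_right h3 hYpos.le
        nlinarith
      have hJW : 1 / 2 * η ^ α * Y ≤ J ^ (α / (1 + α)) := by
        have : W / 2 ≤ J ^ (α / (1 + α)) := by rw [hWdef] at hdW ⊢; linarith
        nlinarith
      have hJlow : cJ * y ^ (-(1 + α)) ≤ J := by
        have h1 : (1 / 2 * η ^ α * Y) ^ (1 + 1 / α) ≤ (J ^ (α / (1 + α))) ^ (1 + 1 / α) :=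
          Real.rpow_le_rpow (by positivity) hJW (by positivity)
        have h2 : (J ^ (α / (1 + α))) ^ (1 + 1 / α) = J := by
          rw [← Real.rpow_mul hJ0]
          have : α / (1 + α) * (1 + 1 / α) = 1 := by field_simp; ring
          rw [this, Real.rpow_one]
        have h3 : (1 / 2 * η ^ α * Y) ^ (1 + 1 / α) = cJ * y ^ (-(1 + α)) := by
          rw [Real.mul_rpow (by positivity) hYpos.le, hcJ, hY, ← Real.rpow_mul hy.le]
          congr 2
          field_simp; ring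
        rw [h2, h3] at h1
        exact h1
      have hyJ : cJ * Y ≤ y * J := by
        have h1 := mul_le_mul_of_nonneg_left hJlow hy.le
        have h2 : y * (cJ * y ^ (-(1 + α))) = cJ * Y := by
          have h3 : y * y ^ (-(1 + α)) = Y := by
            have h4 : y * y ^ (-(1 + α)) = y ^ (1 : ℝ) * y ^ (-(1 + α)) := by rw [Real.rpow_one]
            rw [h4, ← Real.rpow_add hy, hY]
            congr 1; ring
          calc y * (cJ * y ^ (-(1 + α))) = cJ * (y * y ^ (-(1 + α))) := by ring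
            _ = cJ * Y := by rw [h3]
        linarith
      refine hbnd.trans ?_
      refine mul_le_mul (le_max_left _ _) (Real.exp_le_exp.mpr ?_) (Real.exp_pos _).le
        (le_trans hM0.le (le_max_left _ _))
      have h1 : c₀ * Y ≤ cJ / 5000 * Y := mul_le_mul_of_nonneg_right (min_le_right _ _) hYpos.le
      have h2 : cJ / 5000 * Y = 1 / 5000 * (cJ * Y) := by ring
      have h3 : 1 / 5000 * (cJ * Y) ≤ 1 / 5000 * (y * J) := by linarith
      linarith
  have hp := hprop t y (c₀ * Y) hy hy4.le (by positivity) hbox y hy.le le_rfl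
  have hp' : ‖ev (tr (NN α δ y) g) (ee (Complex.mk t (-y)))‖ ≤ 2 * Cp * Real.exp (-(c₃ * Y)) := by
    refine hp.trans ?_
    have e1 : Real.exp (-cp * (c₀ * Y)) ≤ Real.exp (-(c₃ * Y)) := by
      apply Real.exp_le_exp.mpr
      have : c₃ ≤ cp * c₀ := min_le_left _ _
      nlinarith
    have e2 : Real.exp (-cp * y ^ (-α)) ≤ Real.exp (-(c₃ * Y)) := by
      apply Real.exp_le_exp.mpr
      have : c₃ ≤ cp := min_le_right _ _
      nlinarith
    calc Cp * (Real.exp (-cp * (c₀ * Y)) + Real.exp (-cp * y ^ (-α)))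
        ≤ Cp * (Real.exp (-(c₃ * Y)) + Real.exp (-(c₃ * Y))) := by gcongr
      _ = 2 * Cp * Real.exp (-(c₃ * Y)) := by ring
  have h3 := hb3 (Complex.mk t (-y)) (by simp; linarith) (by simp; linarith)
  simp only [neg_neg] at h3
  have hs := hsplit y hy hy1 (Complex.mk t (-y)) rfl
  have hfin : ‖outF (act g c) (ee (Complex.mk t (-y)))‖ ≤ Real.exp C₄ := by
    rw [hC₄, Real.exp_log (by linarith)]
    calc ‖outF (act g c) (ee (Complex.mk t (-y)))‖
        = ‖(outF (act g c) (ee (Complex.mk t (-y))) -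
            ev (tr (NN α δ y) g) (ee (Complex.mk t (-y))) * outF c (ee (Complex.mk t (-y)))) +
            ev (tr (NN α δ y) g) (ee (Complex.mk t (-y))) * outF c (ee (Complex.mk t (-y)))‖ := by
          ring_nf
      _ ≤ Cs + ‖ev (tr (NN α δ y) g) (ee (Complex.mk t (-y))) * outF c (ee (Complex.mk t (-y)))‖ :=
          (norm_add_le _ _).trans (by linarith)
      _ ≤ Cs + (2 * Cp * Real.exp (-(c₃ * Y))) * Real.exp (κ₃ + c₃ * Y) := by
          rw [norm_mul]
          have := mul_le_mul hp' h3 (norm_nonneg _) (by positivity)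
          linarith
      _ = Cs + 2 * Cp * Real.exp κ₃ := by
          rw [mul_assoc, ← Real.exp_add]
          congr 3; ring
      _ ≤ 1 + Cs + 2 * Cp * Real.exp κ₃ := by linarith
  exact outG_posLog (norm_nonneg _) hC₄0 hfin

end MP_9d6c91_an
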