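import Pool.Agent.Lib.MP_9d6c91_an.PLA
import Pool.Agent.Lib.MP_9d6c91_an.PJ
import Pool.Agent.Lib.MP_9d6c91_an.Glue

/-!
# JOB PLB : from the glued function to `PhiD`

* `px` : `X t = LL Φ t` is measurable (continuous on the open set `Eᶜ`, zero on `E`), periodic, nonnegative.  Take `a ∈ K(b)` with
  `ev a 0 ≠ 0` (`H1` at `z = 0`), `M ≥ 1` a bound for `ev a` and `H` a bound of `ev (hh a b)` on the closed disc.  For `t ∉ E`, `ev a (ee t) ≠ 0`:
  `‖Φ (ee t)‖ = ‖ev (hh a b) (ee t)‖ / ‖ev a (ee t)‖`, so `X t ≤ log⁺ H + uu M a t`; integrable by `pj`.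
* `pl` : for `k ∈ K(b)` let `q z = exp (- HI X z) * ev (hh k b) z = exp (- HI X z) * Φ z * ev k z` : analytic and bounded in the disc (`|exp (-HI X)| = exp (-PI X) ≤ 1`);
  for `t ∉ E`: `X` is continuous at `t`, so the radial limit of `‖q‖` is `exp (-X t) ‖ev (hh k b) (ee t)‖ = exp (-X t) ‖Φ (ee t)‖ ‖ev k (ee t)‖ ≤ ‖ev k (ee t)‖`.
  `norm_le_PI`: `‖q z‖ ≤ PI (‖ev k (ee ·)‖) z ≤ 1 + PI (‖ev k (ee ·) - 1‖) z ≤ 1 + C_z (∑ ‖k n - one1 n‖²)^(1/2)` (Cauchy-Schwarz on the circle and
  Parseval: `(1/2π) ∫ ‖ev k (ee t) - 1‖² = ∑ ‖k n - one1 n‖²`; Mathlib has Parseval for `fourierCoeff`, or prove the inequality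
  directly from orthogonality since `k` is absolutely summable), and `ev k z → 1` when `∑ ‖k n - one1 n‖² → 0`.
  Hence `exp (- PI X z) ‖Φ z‖ ≤ 1`.
* `out` : `outF_bound`.
-/

set_option autoImplicit false

open MeasureTheory Complex Filter Topology Set
open scoped ENNReal Real

namespace MP_9d6c91_an

private theorem plb_continuous_ee_real : Continuous fun s : ℝ => ee (s : ℂ) :=
  differentiable_ee.continuous.comp continuous_ofReal

private theorem plb_continuous_ev {k : ℕ → ℂ} (hk : Summable fun n => ‖k n‖) :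
    Continuous fun s : ℝ => ev k (ee (s : ℂ)) :=
  (continuousOn_ev hk).comp_continuous plb_continuous_ee_real
    (fun s => by simp [norm_ee_real])

private theorem plb_ee_per (t : ℝ) : ee ((t + 2 * π : ℝ) : ℂ) = ee (t : ℂ) := by
  have : ((t + 2 * π : ℝ) : ℂ) = (t : ℂ) + 2 * π := by push_cast; ring
  rw [this, ee_periodic]

private theorem plb_vk_PX {k : ℕ → ℂ} (hk : Summable fun n => ‖k n‖) :
    PX (fun s : ℝ => ‖ev k (ee (s : ℂ))‖) := by
  have hc := (plb_continuous_ev hk).norm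
  refine ⟨hc.measurable, fun t => norm_nonneg _, fun t => ?_, hc.intervalIntegrable _ _⟩
  simp only [plb_ee_per]

private theorem plb_exp_posLog {x : ℝ} (hx : 0 ≤ x) : Real.exp (-Real.posLog x) * x ≤ 1 := by
  rcases hx.eq_or_lt with h | h
  · rw [← h]; simp
  · have h1 : Real.log x ≤ Real.posLog x := le_max_right _ _
    calc Real.exp (-Real.posLog x) * x ≤ Real.exp (-Real.log x) * x := by gcongr
      _ = 1 := by rw [Real.exp_neg, Real.exp_log h]; field_simp

private theorem plb_PI_le {f : ℝ → ℝ} (hf : Continuous f) (hf0 : ∀ t, 0 ≤ f t) {z : ℂ}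
    (hz : z ∈ Metric.ball (0 : ℂ) 1) {ε : ℝ} (hε : 0 < ε)
    (h : ∫ t in (-π)..π, f t ^ 2 ≤ 2 * π * ε ^ 2) : PI f z ≤ 2 * π * ε / (1 - ‖z‖) := by
  have hz1 : 0 < 1 - ‖z‖ := by simpa using hz
  have hpi : (-π : ℝ) ≤ π := by linarith [Real.pi_pos]
  have h1 : ∫ t in (-π)..π, f t ≤ 2 * π * ε := by
    have h2 : ∫ t in (-π)..π, f t ≤ ∫ t in (-π)..π, (ε / 2 + (2 * ε)⁻¹ * f t ^ 2) := by
      refine intervalIntegral.integral_mono_on hpi (hf.intervalIntegrable _ _)
        ((by fun_prop : Continuous fun t => (ε / 2 + (2 * ε)⁻¹ * f t ^ 2)).intervalIntegrable _ _)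
        (fun t _ => ?_)
      have h3 : 0 ≤ (2 * ε)⁻¹ * (f t - ε) ^ 2 := by positivity
      have h4 : (2 * ε)⁻¹ * (f t - ε) ^ 2 = ε / 2 + (2 * ε)⁻¹ * f t ^ 2 - f t := by
        field_simp; ring
      linarith
    rw [intervalIntegral.integral_add (by simp)
      ((by fun_prop : Continuous fun t => ((2 * ε)⁻¹ * f t ^ 2)).intervalIntegrable _ _),
      intervalIntegral.integral_const, intervalIntegral.integral_const_mul] at h2
    have h5 : (2 * ε)⁻¹ * ∫ t in (-π)..π, f t ^ 2 ≤ (2 * ε)⁻¹ * (2 * π * ε ^ 2) :=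
      mul_le_mul_of_nonneg_left h (by positivity)
    have h6 : (2 * ε)⁻¹ * (2 * π * ε ^ 2) = π * ε := by field_simp
    have h7 : (π - -π) • (ε / 2) = π * ε := by simp; ring
    rw [h7] at h2
    linarith
  have hk : ∫ t in (-π)..π, f t * Pk z t ≤ ∫ t in (-π)..π, f t * (1 / (1 - ‖z‖)) := by
    refine intervalIntegral.integral_mono_on hpi
      ((hf.mul (continuous_Pk hz)).intervalIntegrable _ _)
      ((hf.mul continuous_const).intervalIntegrable _ _) (fun t _ => ?_)
    exact mul_le_mul_of_nonneg_left (Pk_le_of_norm hz t) (hf0 t)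
  rw [intervalIntegral.integral_mul_const] at hk
  calc PI f z ≤ (∫ t in (-π)..π, f t) * (1 / (1 - ‖z‖)) := hk
    _ ≤ (2 * π * ε) * (1 / (1 - ‖z‖)) := mul_le_mul_of_nonneg_right h1 (by positivity)
    _ = 2 * π * ε / (1 - ‖z‖) := by ring

theorem phiD_of_glue {α : ℝ} (hα : 0 < α) {b : ℕ → ℂ} (hb : Gd (α / (1 + α)) b) {E : Set ℝ} (hE : GE E)
    (H1 : ∀ z : ℂ, ‖z‖ ≤ 1 → z ∉ EE E → ∃ a, InK (α / (1 + α)) b a ∧ ev a z ≠ 0)
    (H2 : ∀ ε : ℝ, 0 < ε → ∃ a, InK (α / (1 + α)) b a ∧ ∑' n, ‖a n - one1 n‖ ^ 2 < ε)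
    {Φ : ℂ → ℂ} (hd : DifferentiableOn ℂ Φ (EE E)ᶜ) (hz : ∀ z ∈ EE E, Φ z = 0)
    (hout : ∀ z : ℂ, 1 < ‖z‖ → Φ z = outF b z)
    (hin : ∀ a, InK (α / (1 + α)) b a → ∀ z : ℂ, ‖z‖ ≤ 1 → z ∉ EE E → Φ z * ev a z = ev (hh a b) z) :
    PhiD α E Φ := by
  have h1α : 0 < 1 + α := by linarith
  have hβ : 0 < α / (1 + α) := by positivity
  have hβ1 : α / (1 + α) ≤ 1 := by rw [div_le_one h1α]; linarith
  set X : ℝ → ℝ := fun t : ℝ => LL Φ (t : ℂ) with hX
  have hX0 : ∀ t, 0 ≤ X t := fun t => Real.posLog_nonneg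
  -- continuity off E
  have hXc : ∀ t : ℝ, t ∉ E → ContinuousAt X t := by
    intro t ht
    have h1 : ee (t : ℂ) ∈ (EE E)ᶜ := fun h => ht ((ee_mem_EE_iff hE t).1 h)
    have h2 : ContinuousAt Φ (ee (t : ℂ)) :=
      (hd.differentiableAt ((isClosed_EE hE).isOpen_compl.mem_nhds h1)).continuousAt
    have h3 : ContinuousAt (fun s : ℝ => Φ (ee (s : ℂ))) t :=
      ContinuousAt.comp (f := fun s : ℝ => ee (s : ℂ)) h2 plb_continuous_ee_real.continuousAt
    exact Real.continuous_posLog.continuousAt.comp h3.norm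
  have hXE : ∀ t ∈ E, X t = 0 := by
    intro t ht
    simp only [hX, LL]
    rw [hz _ ((ee_mem_EE_iff hE t).2 ht)]; simp
  have hae : ∀ᵐ t : ℝ, t ∉ E := by
    rw [ae_iff]; simpa using hE.null
  have hpx : PX X := by
    classical
    have hmeas : Measurable X := by
      have h1 : X = E.piecewise (fun _ => 0) X := by
        funext t
        by_cases ht : t ∈ E
        · rw [Set.piecewise_eq_of_mem _ _ _ ht, hXE t ht]
        · rw [Set.piecewise_eq_of_notMem _ _ _ ht]
      rw [h1]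
      refine ContinuousOn.measurable_piecewise continuousOn_const ?_ hE.closed.measurableSet
      exact fun t ht => (hXc t ht).continuousWithinAt
    refine ⟨hmeas, hX0, fun t => ?_, ?_⟩
    · simp only [hX, LL, plb_ee_per]
    · have h0 : (0 : ℂ) ∉ EE E := fun h => by
        have := norm_of_mem_EE h
        simp at this
      obtain ⟨a, ha, ha0⟩ := H1 0 (by simp) h0
      have has := ha.1.summable_norm hβ
      have hane : a ≠ 0 := by
        rintro rfl
        exact ha0 (ev_zero' 0)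
      set M : ℝ := ∑' n, ‖a n‖ + 1 with hM
      have hM0 : 0 < M := by
        have : 0 ≤ ∑' n, ‖a n‖ := tsum_nonneg fun n => norm_nonneg _
        linarith
      have hMb : ∀ z : ℂ, ‖z‖ ≤ 1 → ‖ev a z‖ ≤ M := fun z hz =>
        (norm_ev_le has hz).trans (by linarith)
      obtain ⟨hu, hune, -⟩ := pj has hane hM0 hMb
      have hhs := (Gv_hh hβ hβ1 ha.1 hb).summable_norm hβ
      set H : ℝ := ∑' n, ‖hh a b n‖ with hH
      have hH0 : 0 ≤ H := tsum_nonneg fun n => norm_nonneg _
      have hbd : ∀ᵐ t : ℝ, X t ≤ Real.posLog (H / M) + uu M a t := by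
        filter_upwards [hae, hune] with t ht htne
        have h1 := hin a ha (ee (t : ℂ)) (norm_ee_real t).le
          (fun h => ht ((ee_mem_EE_iff hE t).1 h))
        have hpos : 0 < ‖ev a (ee (t : ℂ))‖ := norm_pos_iff.2 htne
        have h2 : ‖Φ (ee (t : ℂ))‖ ≤ H / M * (M / ‖ev a (ee (t : ℂ))‖) := by
          have h3 : ‖Φ (ee (t : ℂ))‖ * ‖ev a (ee (t : ℂ))‖ ≤ H := by
            rw [← norm_mul, h1]
            exact norm_ev_le hhs (norm_ee_real t).le
          have h4 : H / M * (M / ‖ev a (ee (t : ℂ))‖) = H / ‖ev a (ee (t : ℂ))‖ := by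
            field_simp
          rw [h4, le_div_iff₀ hpos]; exact h3
        have h5 : (1 : ℝ) ≤ M / ‖ev a (ee (t : ℂ))‖ := by
          rw [le_div_iff₀ hpos, one_mul]; exact hMb _ (norm_ee_real t).le
        calc X t ≤ Real.posLog (H / M * (M / ‖ev a (ee (t : ℂ))‖)) :=
              Real.posLog_le_posLog (norm_nonneg _) h2
          _ ≤ Real.posLog (H / M) + Real.posLog (M / ‖ev a (ee (t : ℂ))‖) := Real.posLog_mul
          _ = Real.posLog (H / M) + uu M a t := by
              rw [Real.posLog_eq_log (x := M / ‖ev a (ee (t : ℂ))‖)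
                (by rw [abs_of_nonneg (by linarith)]; exact h5), uu]
      have hint : IntervalIntegrable (fun t => Real.posLog (H / M) + uu M a t) volume (-π) π :=
        (intervalIntegrable_const).add hu.int
      refine hint.mono_fun' hmeas.aestronglyMeasurable ?_
      refine Filter.Eventually.filter_mono (ae_mono Measure.restrict_le_self) ?_
      filter_upwards [hbd] with t ht
      rw [Real.norm_eq_abs, abs_of_nonneg (hX0 t)]
      exact ht
  -- the estimate in the disc
  have hpl : ∀ z ∈ Metric.ball (0 : ℂ) 1, Real.exp (-PI X z) * ‖Φ z‖ ≤ 1 := by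
    intro z hzb
    have hz1 : 0 < 1 - ‖z‖ := by simpa using hzb
    have hzle : ‖z‖ ≤ 1 := by linarith
    have hzE : z ∉ EE E := fun h => by
      have := norm_of_mem_EE h
      linarith
    set P : ℝ := Real.exp (-PI X z) * ‖Φ z‖ with hP
    have hP0 : 0 ≤ P := by positivity
    -- for every k
    have hkey : ∀ k, InK (α / (1 + α)) b k → ∀ ε : ℝ, 0 < ε → ∑' n, ‖k n - one1 n‖ ^ 2 < ε ^ 2 →
        P * (1 - 2 * π * ε / (1 - ‖z‖)) ≤ 1 + 2 * π * ε / (1 - ‖z‖) := by
      intro k hk ε hε hkε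
      have hks := hk.1.summable_norm hβ
      have hone := (Gv_one1 (α / (1 + α))).summable_norm hβ
      have hks1 : Summable fun n => ‖(k - one1) n‖ :=
        (hk.1.sub (Gv_one1 (α / (1 + α)))).summable_norm hβ
      set f : ℝ → ℝ := fun s => ‖ev (k - one1) (ee (s : ℂ))‖ with hf
      have hfc : Continuous f := (plb_continuous_ev hks1).norm
      have hfPX : PX f := plb_vk_PX hks1
      have hD : PI f z ≤ 2 * π * ε / (1 - ‖z‖) := by
        refine plb_PI_le hfc (fun t => norm_nonneg _) hzb hε ?_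
        refine (parseval_le hks1).trans ?_
        refine mul_le_mul_of_nonneg_left ?_ (by positivity)
        simpa using hkε.le
      -- bound for q
      have hhs := (Gv_hh hβ hβ1 hk.1 hb).summable_norm hβ
      have hvk := plb_vk_PX hks
      set q : ℂ → ℂ := fun ζ => Complex.exp (-HI X ζ) * ev (hh k b) ζ with hq
      have hqn : ∀ ζ ∈ Metric.ball (0 : ℂ) 1, ‖q ζ‖ = Real.exp (-PI X ζ) * ‖ev (hh k b) ζ‖ := by
        intro ζ hζ
        rw [hq]
        simp only [norm_mul, Complex.norm_exp, Complex.neg_re, re_HI hpx hζ]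
      have hqd : DifferentiableOn ℂ q (Metric.ball 0 1) :=
        ((differentiableOn_HI hpx).neg.cexp).mul (differentiableOn_ev hhs)
      have hqB : ∀ ζ ∈ Metric.ball (0 : ℂ) 1, ‖q ζ‖ ≤ ∑' n, ‖hh k b n‖ := by
        intro ζ hζ
        rw [hqn ζ hζ]
        have h1 : Real.exp (-PI X ζ) ≤ 1 := by
          rw [Real.exp_le_one_iff]; linarith [PI_nonneg hpx hζ]
        have h2 : ‖ev (hh k b) ζ‖ ≤ ∑' n, ‖hh k b n‖ := norm_ev_le hhs (by
          have : ‖ζ‖ < 1 := by simpa using hζ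
          exact this.le)
        calc Real.exp (-PI X ζ) * ‖ev (hh k b) ζ‖ ≤ 1 * ∑' n, ‖hh k b n‖ :=
              mul_le_mul h1 h2 (norm_nonneg _) zero_le_one
          _ = _ := one_mul _
      have hqlim : ∀ᵐ t : ℝ, ∀ η : ℝ, 0 < η → ∀ᶠ r : ℝ in 𝓝[<] 1,
          ‖q (r * ee (t : ℂ))‖ ≤ ‖ev k (ee (t : ℂ))‖ + η := by
        filter_upwards [hae] with t ht η hη
        have hr01 : ∀ᶠ r : ℝ in 𝓝[<] 1, 0 < r ∧ r < 1 := by
          have h1 : ∀ᶠ r : ℝ in 𝓝[<] 1, r < 1 := self_mem_nhdsWithin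
          have h2 : ∀ᶠ r : ℝ in 𝓝[<] 1, 0 < r :=
            mem_nhdsWithin_of_mem_nhds (lt_mem_nhds one_pos)
          exact h2.and h1
        have hrball : ∀ r : ℝ, 0 < r ∧ r < 1 → (r : ℂ) * ee (t : ℂ) ∈ Metric.ball (0 : ℂ) 1 := by
          rintro r ⟨h0, h1⟩
          simp [norm_ee_real, abs_of_pos h0, h1]
        have hl1 : Tendsto (fun r : ℝ => Real.exp (-PI X (r * ee (t : ℂ)))) (𝓝[<] 1)
            (𝓝 (Real.exp (-X t))) :=
          (Real.continuous_exp.tendsto _).comp (tendsto_PI hpx (hXc t ht)).neg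
        have hl2 : Tendsto (fun r : ℝ => ‖ev (hh k b) (r * ee (t : ℂ))‖) (𝓝[<] 1)
            (𝓝 ‖ev (hh k b) (ee (t : ℂ))‖) := by
          have h1 : ContinuousWithinAt (ev (hh k b)) (Metric.closedBall 0 1) (ee (t : ℂ)) :=
            continuousOn_ev hhs _ (by simp [norm_ee_real])
          have h2 : Tendsto (fun r : ℝ => (r : ℂ) * ee (t : ℂ)) (𝓝[<] 1)
              (𝓝[Metric.closedBall 0 1] (ee (t : ℂ))) := by
            refine tendsto_nhdsWithin_iff.2 ⟨?_, ?_⟩
            · have h3 : Continuous fun r : ℝ => (r : ℂ) * ee (t : ℂ) := by fun_prop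
              have h4 := h3.tendsto 1
              simp only [ofReal_one, one_mul] at h4
              exact h4.mono_left nhdsWithin_le_nhds
            · filter_upwards [hr01] with r hr
              exact Metric.ball_subset_closedBall (hrball r hr)
          exact (h1.tendsto.comp h2).norm
        have hl := hl1.mul hl2
        have hlim : Real.exp (-X t) * ‖ev (hh k b) (ee (t : ℂ))‖ < ‖ev k (ee (t : ℂ))‖ + η := by
          rw [← hin k hk (ee (t : ℂ)) (norm_ee_real t).le
            (fun h => ht ((ee_mem_EE_iff hE t).1 h)), norm_mul, ← mul_assoc]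
          have h1 : Real.exp (-X t) * ‖Φ (ee (t : ℂ))‖ ≤ 1 := plb_exp_posLog (norm_nonneg _)
          have h2 : Real.exp (-X t) * ‖Φ (ee (t : ℂ))‖ * ‖ev k (ee (t : ℂ))‖
              ≤ 1 * ‖ev k (ee (t : ℂ))‖ := mul_le_mul_of_nonneg_right h1 (norm_nonneg _)
          linarith
        filter_upwards [hl.eventually_lt_const hlim, hr01] with r hr hr1
        rw [hqn _ (hrball r hr1)]
        exact hr.le
      have hq1 : ‖q z‖ ≤ PI (fun s : ℝ => ‖ev k (ee (s : ℂ))‖) z :=
        norm_le_PI hqd hqB hvk hqlim hzb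
      have hq2 : PI (fun s : ℝ => ‖ev k (ee (s : ℂ))‖) z ≤ 1 + PI f z := by
        have h1 : ∀ s : ℝ, ‖ev k (ee (s : ℂ))‖ ≤ 1 + f s := by
          intro s
          have h2 : ev (k - one1) (ee (s : ℂ)) = ev k (ee (s : ℂ)) - 1 := by
            rw [ev_sub hks hone (norm_ee_real s).le, ev_one1]
          have h3 : ev k (ee (s : ℂ)) = 1 + ev (k - one1) (ee (s : ℂ)) := by rw [h2]; ring
          calc ‖ev k (ee (s : ℂ))‖ = ‖1 + ev (k - one1) (ee (s : ℂ))‖ := by rw [← h3]
            _ ≤ ‖(1 : ℂ)‖ + ‖ev (k - one1) (ee (s : ℂ))‖ := norm_add_le _ _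
            _ = 1 + f s := by simp [hf]
        have hpi : (-π : ℝ) ≤ π := by linarith [Real.pi_pos]
        have h4 : PI (fun s : ℝ => ‖ev k (ee (s : ℂ))‖) z
            ≤ ∫ s in (-π)..π, (Pk z s + f s * Pk z s) := by
          refine intervalIntegral.integral_mono_on hpi (hvk.intPk hzb _ _)
            (((continuous_Pk hzb).intervalIntegrable _ _).add (hfPX.intPk hzb _ _)) (fun s _ => ?_)
          have h5 := mul_le_mul_of_nonneg_right (h1 s) (Pk_nonneg hzle s)
          linarith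
        rw [intervalIntegral.integral_add ((continuous_Pk hzb).intervalIntegrable _ _)
          (hfPX.intPk hzb _ _), integral_Pk hzb] at h4
        exact h4
      have hevz : 1 - PI f z ≤ ‖ev k z‖ := by
        have h1 : ‖ev (k - one1) z‖ ≤ PI f z := by
          refine norm_le_PI (differentiableOn_ev hks1) (B := ∑' n, ‖(k - one1) n‖)
            (fun ζ hζ => norm_ev_le hks1 ?_) hfPX ?_ hzb
          · have : ‖ζ‖ < 1 := by simpa using hζ
            exact this.le
          · refine Filter.Eventually.of_forall fun t η hη => ?_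
            have hc : ContinuousWithinAt (ev (k - one1)) (Metric.closedBall 0 1) (ee (t : ℂ)) :=
              continuousOn_ev hks1 _ (by simp [norm_ee_real])
            have h2 : Tendsto (fun r : ℝ => (r : ℂ) * ee (t : ℂ)) (𝓝[<] 1)
                (𝓝[Metric.closedBall 0 1] (ee (t : ℂ))) := by
              refine tendsto_nhdsWithin_iff.2 ⟨?_, ?_⟩
              · have h3 : Continuous fun r : ℝ => (r : ℂ) * ee (t : ℂ) := by fun_prop
                have h4 := h3.tendsto 1
                simp only [ofReal_one, one_mul] at h4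
                exact h4.mono_left nhdsWithin_le_nhds
              · have h1 : ∀ᶠ r : ℝ in 𝓝[<] 1, r < 1 := self_mem_nhdsWithin
                have h2 : ∀ᶠ r : ℝ in 𝓝[<] 1, 0 < r :=
                  mem_nhdsWithin_of_mem_nhds (lt_mem_nhds one_pos)
                filter_upwards [h1, h2] with r hr1 hr0
                simp [norm_ee_real, abs_of_pos hr0, hr1.le]
            exact (((hc.tendsto.comp h2).norm.eventually_lt_const
              (show ‖ev (k - one1) (ee (t : ℂ))‖ < ‖ev (k - one1) (ee (t : ℂ))‖ + η by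
                linarith)).mono fun r hr => hr.le)
        have h2 : ev (k - one1) z = ev k z - 1 := by rw [ev_sub hks hone hzle, ev_one1]
        have h3 : (1 : ℝ) ≤ ‖ev k z‖ + ‖ev (k - one1) z‖ := by
          have h4 : (1 : ℂ) = ev k z - ev (k - one1) z := by rw [h2]; ring
          calc (1 : ℝ) = ‖(1 : ℂ)‖ := by simp
            _ = ‖ev k z - ev (k - one1) z‖ := by rw [← h4]
            _ ≤ _ := norm_sub_le _ _
        linarith
      have hPk : P * ‖ev k z‖ ≤ 1 + PI f z := by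
        have h1 : P * ‖ev k z‖ = ‖q z‖ := by
          rw [hqn z hzb, ← hin k hk z hzle hzE, norm_mul, hP]; ring
        rw [h1]; exact hq1.trans hq2
      calc P * (1 - 2 * π * ε / (1 - ‖z‖)) ≤ P * ‖ev k z‖ :=
            mul_le_mul_of_nonneg_left (by linarith) hP0
        _ ≤ 1 + PI f z := hPk
        _ ≤ 1 + 2 * π * ε / (1 - ‖z‖) := by linarith
    -- let ε tend to zero
    have hlim : Tendsto (fun ε : ℝ => (1 + 2 * π * ε / (1 - ‖z‖)) -
        P * (1 - 2 * π * ε / (1 - ‖z‖))) (𝓝[>] 0) (𝓝 (1 - P)) := by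
      have h1 : Continuous (fun ε : ℝ => (1 + 2 * π * ε / (1 - ‖z‖)) -
        P * (1 - 2 * π * ε / (1 - ‖z‖))) := by fun_prop
      have h2 := h1.tendsto 0
      simp only [mul_zero, zero_div, add_zero, sub_zero, mul_one] at h2
      exact h2.mono_left nhdsWithin_le_nhds
    have h0 : 0 ≤ 1 - P := by
      refine ge_of_tendsto hlim ?_
      filter_upwards [self_mem_nhdsWithin] with ε (hε : 0 < ε)
      obtain ⟨k, hk, hkε⟩ := H2 (ε ^ 2) (by positivity)
      have := hkey k hk ε hε hkε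
      linarith
    linarith
  refine ⟨hd, hz, ?_, hpx, ?_⟩
  · intro ε hε
    obtain ⟨κ, hκ, h⟩ := outF_bound hα hb hε
    refine ⟨κ, hκ, fun w hw1 hw2 => ?_⟩
    have h1 : 1 < ‖ee w‖ := by
      rw [norm_ee, Real.one_lt_exp_iff]; linarith
    have h2 := h w hw1 hw2
    have h3 : 0 ≤ κ + ε * (-w.im) ^ (-α) := by
      have : 0 ≤ (-w.im) ^ (-α) := Real.rpow_nonneg (by linarith) _
      positivity
    rw [LL, hout _ h1]
    calc Real.posLog ‖outF b (ee w)‖ ≤ Real.posLog (Real.exp (κ + ε * (-w.im) ^ (-α))) :=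
          Real.posLog_le_posLog (norm_nonneg _) h2
      _ = κ + ε * (-w.im) ^ (-α) := by
          rw [Real.posLog_eq_log (by rw [abs_of_pos (Real.exp_pos _)]; exact Real.one_le_exp h3),
            Real.log_exp]
  · intro w hw
    have hb' := ee_mem_ball hw
    have h1 := hpl _ hb'
    have h2 : ‖Φ (ee w)‖ ≤ Real.exp (PI X (ee w)) := by
      rw [Real.exp_neg] at h1
      have h3 := Real.exp_pos (PI X (ee w))
      rwa [inv_mul_le_iff₀ h3, mul_one] at h1
    have h3 : 0 ≤ PI X (ee w) := PI_nonneg hpx hb'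
    calc LL Φ w = Real.posLog ‖Φ (ee w)‖ := rfl
      _ ≤ Real.posLog (Real.exp (PI X (ee w))) := Real.posLog_le_posLog (norm_nonneg _) h2
      _ = PI X (ee w) := by
          rw [Real.posLog_eq_log (by rw [abs_of_pos (Real.exp_pos _)]; exact Real.one_le_exp h3),
            Real.log_exp]

end MP_9d6c91_an
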