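import Pool.Agent.Lib.MP_9d6c91_an.Geo
import Pool.Agent.Lib.MP_9d6c91_an.Seq

/-!
# JOB PLA : from the glued function to `PhiD`

Parseval inequality for absolutely summable coefficients: termwise integration of `f * conj f`, twice.
-/

set_option autoImplicit false

open MeasureTheory Complex Filter Topology Set
open scoped ENNReal Real ComplexConjugate

namespace MP_9d6c91_an

/-- orthogonality of the characters -/
private theorem pla_orth (n m : ℕ) :
    ∫ t in (-π)..π, (ee (t : ℂ)) ^ n * conj ((ee (t : ℂ)) ^ m) = if n = m then 2 * (π : ℂ) else 0 := by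
  have h1 : ∀ t : ℝ, (ee (t : ℂ)) ^ n * conj ((ee (t : ℂ)) ^ m) =
      Complex.exp ((((n : ℂ) - m) * I) * t) := by
    intro t
    unfold ee
    rw [map_pow, ← Complex.exp_conj, ← Complex.exp_nat_mul, ← Complex.exp_nat_mul,
      ← Complex.exp_add]
    congr 1
    rw [map_mul, Complex.conj_I, Complex.conj_ofReal]
    ring
  simp only [h1]
  by_cases h : n = m
  · rw [if_pos h, h]
    simp only [sub_self, zero_mul, Complex.exp_zero, intervalIntegral.integral_const]
    rw [Complex.real_smul]
    push_cast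
    ring
  · rw [if_neg h]
    have hc : (((n : ℂ) - m) * I) ≠ 0 := by
      refine mul_ne_zero ?_ Complex.I_ne_zero
      intro h0
      apply h
      have : (n : ℂ) = m := sub_eq_zero.1 h0
      exact_mod_cast this
    rw [integral_exp_mul_complex hc]
    have h2 : Complex.exp ((((n : ℂ) - m) * I) * (π : ℝ)) =
        Complex.exp ((((n : ℂ) - m) * I) * ((-π : ℝ) : ℂ)) := by
      rw [Complex.exp_eq_exp_iff_exists_int]
      refine ⟨(n : ℤ) - m, ?_⟩
      push_cast
      ring
    rw [h2, sub_self, zero_div]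

/-- termwise integration against a bounded continuous function -/
private theorem pla_term {k : ℕ → ℂ} (hk : Summable fun n => ‖k n‖) {g : ℝ → ℂ} (hg : Continuous g)
    {B : ℝ} (hB : ∀ t, ‖g t‖ ≤ B) :
    HasSum (fun n => k n * ∫ t in (-π)..π, (ee (t : ℂ)) ^ n * g t)
      (∫ t in (-π)..π, ev k (ee (t : ℂ)) * g t) := by
  have hee : Continuous fun t : ℝ => ee (t : ℂ) :=
    differentiable_ee.continuous.comp Complex.continuous_ofReal
  have h := intervalIntegral.hasSum_integral_of_dominated_convergence (a := -π) (b := π)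
    (μ := volume) (F := fun n t => k n * ((ee ((t : ℝ) : ℂ)) ^ n * g t))
    (f := fun t => ev k (ee ((t : ℝ) : ℂ)) * g t) (fun n _ => ‖k n‖ * B) ?_ ?_ ?_ ?_ ?_
  · simpa only [intervalIntegral.integral_const_mul] using h
  · intro n
    exact (continuous_const.mul ((hee.pow n).mul hg)).aestronglyMeasurable
  · intro n
    refine Filter.Eventually.of_forall ?_
    intro t _
    rw [norm_mul, norm_mul, norm_pow, norm_ee_real, one_pow, one_mul]
    exact mul_le_mul_of_nonneg_left (hB t) (norm_nonneg _)
  · exact Filter.Eventually.of_forall fun t _ => hk.mul_right B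
  · exact intervalIntegrable_const
  · refine Filter.Eventually.of_forall ?_
    intro t _
    have hs : Summable fun n => k n * (ee ((t : ℝ) : ℂ)) ^ n := by
      refine Summable.of_norm ?_
      have e : (fun n => ‖k n * (ee ((t : ℝ) : ℂ)) ^ n‖) = fun n => ‖k n‖ := by
        funext n
        rw [norm_mul, norm_pow, norm_ee_real, one_pow, mul_one]
      rw [e]
      exact hk
    have h1 := hs.hasSum.mul_right (g t)
    have e : (fun n => k n * (ee ((t : ℝ) : ℂ) ^ n * g t)) =
        fun n => k n * (ee ((t : ℝ) : ℂ)) ^ n * g t := by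
      funext n
      rw [mul_assoc]
    rw [e]
    exact h1

private theorem pla_cont {k : ℕ → ℂ} (hk : Summable fun n => ‖k n‖) :
    Continuous fun t : ℝ => ev k (ee (t : ℂ)) := by
  have hee : Continuous fun t : ℝ => ee (t : ℂ) :=
    differentiable_ee.continuous.comp Complex.continuous_ofReal
  unfold ev
  refine continuous_tsum (fun n => continuous_const.mul (hee.pow n)) hk ?_
  intro n t
  rw [norm_mul, norm_pow, norm_ee_real, one_pow, mul_one]

/-- Parseval inequality -/
theorem parseval_le {k : ℕ → ℂ} (hk : Summable fun n => ‖k n‖) :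
    ∫ t in (-π)..π, ‖ev k (ee (t : ℂ))‖ ^ 2 ≤ 2 * π * ∑' n, ‖k n‖ ^ 2 := by
  have hcont := pla_cont hk
  have hee : Continuous fun t : ℝ => ee (t : ℂ) :=
    differentiable_ee.continuous.comp Complex.continuous_ofReal
  -- coefficients
  have hcoef : ∀ m : ℕ, ∫ t in (-π)..π, ev k (ee (t : ℂ)) * conj ((ee (t : ℂ)) ^ m) =
      2 * (π : ℂ) * k m := by
    intro m
    have h := pla_term hk (g := fun t : ℝ => conj ((ee (t : ℂ)) ^ m))
      (Complex.continuous_conj.comp (hee.pow m)) (B := 1) (by
        intro t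
        rw [Complex.norm_conj, norm_pow, norm_ee_real, one_pow])
    simp only [pla_orth] at h
    have h2 : HasSum (fun n => k n * if n = m then 2 * (π : ℂ) else 0)
        (k m * if m = m then 2 * (π : ℂ) else 0) := by
      refine hasSum_single m ?_
      intro n hn
      rw [if_neg hn, mul_zero]
    rw [h.unique h2, if_pos rfl]
    ring
  have h := pla_term hk (g := fun t : ℝ => conj (ev k (ee (t : ℂ))))
    (Complex.continuous_conj.comp hcont) (B := ∑' n, ‖k n‖) (by
      intro t
      rw [Complex.norm_conj]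
      exact norm_ev_le hk (by rw [norm_ee_real]))
  have hcoef' : ∀ m : ℕ, ∫ t in (-π)..π, (ee (t : ℂ)) ^ m * conj (ev k (ee (t : ℂ))) =
      2 * (π : ℂ) * conj (k m) := by
    intro m
    have h1 : ∫ t in (-π)..π, (ee (t : ℂ)) ^ m * conj (ev k (ee (t : ℂ))) =
        ∫ t in (-π)..π, conj (ev k (ee (t : ℂ)) * conj ((ee (t : ℂ)) ^ m)) := by
      refine intervalIntegral.integral_congr ?_
      intro t _
      simp only [map_mul, Complex.conj_conj]
      ring
    rw [h1]
    have h2 : ∫ t in (-π)..π, conj (ev k (ee (t : ℂ)) * conj ((ee (t : ℂ)) ^ m)) =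
        conj (∫ t in (-π)..π, ev k (ee (t : ℂ)) * conj ((ee (t : ℂ)) ^ m)) := by
      rw [intervalIntegral.integral_of_le (by linarith [Real.pi_pos]),
        intervalIntegral.integral_of_le (by linarith [Real.pi_pos])]
      exact integral_conj
    rw [h2, hcoef m, map_mul, map_mul, Complex.conj_ofReal]
    congr 2
    exact Complex.conj_ofReal 2
  simp only [hcoef'] at h
  have h3 : ∀ n, k n * (2 * (π : ℂ) * conj (k n)) = ((2 * π * ‖k n‖ ^ 2 : ℝ) : ℂ) := by
    intro n
    have : k n * conj (k n) = ((‖k n‖ ^ 2 : ℝ) : ℂ) := by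
      rw [Complex.mul_conj, Complex.normSq_eq_norm_sq]
    calc k n * (2 * (π : ℂ) * conj (k n)) = 2 * (π : ℂ) * (k n * conj (k n)) := by ring
      _ = _ := by rw [this]; push_cast; ring
  have h4 : ∀ t : ℝ, ev k (ee (t : ℂ)) * conj (ev k (ee (t : ℂ))) =
      ((‖ev k (ee (t : ℂ))‖ ^ 2 : ℝ) : ℂ) := by
    intro t
    rw [Complex.mul_conj, Complex.normSq_eq_norm_sq]
  simp only [h3, h4] at h
  rw [intervalIntegral.integral_ofReal] at h
  have h5 : HasSum (fun n => 2 * π * ‖k n‖ ^ 2) (∫ t in (-π)..π, ‖ev k (ee (t : ℂ))‖ ^ 2) :=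
    (Complex.hasSum_ofReal).1 h
  rw [← h5.tsum_eq, tsum_mul_left]

end MP_9d6c91_an
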