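import Pool.Agent.Lib.MP_9d6c91_an.Geo

/-!
# JOB POISA1 : elementary properties of the Poisson kernel

`z = ee w`, `w = x + i y`, `0 < y ≤ 1`: `|e^{is} - z|² = (1 - e^{-y})² + 4 e^{-y} sin² ((s-x)/2)`.
`1 - e^{-2y} ≤ 2 y`, `1 - e^{-2y} ≥ 0.86 y`, `1 - e^{-y} ≥ 0.63 y`, `sin u ≥ (2/5) u` on `[0, 2]`.
Mathlib: `DiffContOnCl.circleAverage_poissonKernel_smul` (Poisson formula; with the constant function `1` it gives
`integral_Pk`), `circleMap 0 1 s = exp (s I) = ee s`.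
-/

set_option autoImplicit false

open MeasureTheory Complex Filter Topology Set
open scoped ENNReal Real

namespace MP_9d6c91_an

private theorem poisA1_ne {z : ℂ} (hz : z ∈ Metric.ball (0 : ℂ) 1) (s : ℝ) : 0 < ‖ee (s : ℂ) - z‖ := by
  rw [norm_pos_iff, sub_ne_zero]
  rintro rfl
  rw [mem_ball_zero_iff, norm_ee_real] at hz
  exact lt_irrefl _ hz

private theorem poisA1_ge {z : ℂ} (s : ℝ) : 1 - ‖z‖ ≤ ‖ee (s : ℂ) - z‖ := by
  have h := norm_sub_norm_le (ee (s : ℂ)) z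
  rwa [norm_ee_real] at h

theorem Pk_nonneg {z : ℂ} (hz : ‖z‖ ≤ 1) (s : ℝ) : 0 ≤ Pk z s := by
  unfold Pk
  have h1 : 0 ≤ 1 - ‖z‖ ^ 2 := by nlinarith [norm_nonneg z]
  have := Real.pi_pos
  positivity

theorem continuous_Pk {z : ℂ} (hz : z ∈ Metric.ball (0 : ℂ) 1) : Continuous (Pk z) := by
  unfold Pk
  have h1 : Continuous fun s : ℝ => ee (s : ℂ) := differentiable_ee.continuous.comp continuous_ofReal
  have h2 : ∀ s : ℝ, ‖ee (s : ℂ) - z‖ ^ 2 ≠ 0 := fun s => (pow_pos (poisA1_ne hz s) 2).ne'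
  exact (continuous_const.div ((h1.sub continuous_const).norm.pow 2) h2).div_const _

theorem Pk_per (z : ℂ) (s : ℝ) : Pk z (s + 2 * π) = Pk z s := by
  unfold Pk
  have h : ee ((s + 2 * π : ℝ) : ℂ) = ee (s : ℂ) := by
    push_cast
    exact ee_periodic _
  rw [h]

theorem Pk_le_of_norm {z : ℂ} (hz : z ∈ Metric.ball (0 : ℂ) 1) (s : ℝ) : Pk z s ≤ 1 / (1 - ‖z‖) := by
  have hz1 : ‖z‖ < 1 := mem_ball_zero_iff.mp hz
  have hr : 0 < 1 - ‖z‖ := by linarith
  have h1 := poisA1_ge (z := z) s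
  have h2 := poisA1_ne hz s
  unfold Pk
  rw [div_div, div_le_div_iff₀ (by positivity) hr]
  have h3 : (1 - ‖z‖) ^ 2 ≤ ‖ee (s : ℂ) - z‖ ^ 2 := by
    apply pow_le_pow_left₀ hr.le h1
  have hpi : 3 < π := Real.pi_gt_three
  have h4 : 0 ≤ ‖z‖ := norm_nonneg z
  have h5 : (1 - ‖z‖ ^ 2) * (1 - ‖z‖) = (1 + ‖z‖) * (1 - ‖z‖) ^ 2 := by ring
  rw [h5]
  have h6 : (1 + ‖z‖) * (1 - ‖z‖) ^ 2 ≤ 2 * (1 - ‖z‖) ^ 2 := by
    apply mul_le_mul_of_nonneg_right (by linarith) (by positivity)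
  have h7 : ‖ee (s : ℂ) - z‖ ^ 2 * 2 ≤ ‖ee (s : ℂ) - z‖ ^ 2 * (2 * π) := by
    apply mul_le_mul_of_nonneg_left (by linarith) (by positivity)
  linarith

private theorem poisA1_circleMap (s : ℝ) : circleMap 0 1 s = ee (s : ℂ) := by
  unfold circleMap ee
  simp [mul_comm]

private theorem poisA1_formula {f : ℂ → ℂ} (hf : DiffContOnCl ℂ f (Metric.ball 0 1)) {z : ℂ}
    (hz : z ∈ Metric.ball (0 : ℂ) 1) :
    f z = ∫ s in (-π)..π, (Pk z s : ℂ) * f (ee (s : ℂ)) := by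
  have h1 := hf.circleAverage_poissonKernel_smul' (w := z) hz
  rw [Real.circleAverage_def] at h1
  rw [← h1]
  have h2 : ∀ s : ℝ, ((Pk z s : ℝ) : ℂ) * f (ee (s : ℂ)) = (2 * π)⁻¹ •
      (((‖circleMap 0 1 s - 0‖ ^ 2 - ‖z - 0‖ ^ 2) / ‖(circleMap 0 1 s - 0) - (z - 0)‖ ^ 2) •
        f (circleMap 0 1 s)) := by
    intro s
    rw [poisA1_circleMap, sub_zero, sub_zero, norm_ee_real]
    unfold Pk
    rw [smul_smul, Complex.real_smul]
    congr 2
    rw [div_eq_inv_mul, one_pow]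
  simp_rw [h2]
  rw [intervalIntegral.integral_smul]
  congr 1
  have hper : Function.Periodic (fun s : ℝ => (((‖circleMap 0 1 s - 0‖ ^ 2 - ‖z - 0‖ ^ 2) /
      ‖(circleMap 0 1 s - 0) - (z - 0)‖ ^ 2) • f (circleMap 0 1 s))) (2 * π) := by
    intro s
    simp only [periodic_circleMap (0 : ℂ) 1 s]
  have h3 := hper.intervalIntegral_add_eq 0 (-π)
  rw [zero_add] at h3
  have h4 : -π + 2 * π = π := by ring
  rw [h4] at h3
  exact h3

theorem integral_Pk {z : ℂ} (hz : z ∈ Metric.ball (0 : ℂ) 1) : ∫ s in (-π)..π, Pk z s = 1 := by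
  have h := poisA1_formula (f := fun _ => (1 : ℂ)) (by
    exact (differentiable_const _).diffContOnCl) hz
  simp only [mul_one] at h
  rw [intervalIntegral.integral_ofReal] at h
  exact_mod_cast h.symm

private theorem poisA1_normSq (w : ℂ) (s : ℝ) : ‖ee (s : ℂ) - ee w‖ ^ 2 =
    (1 - Real.exp (-w.im)) ^ 2 + Real.exp (-w.im) * ‖ee (s : ℂ) - ee (w.re : ℂ)‖ ^ 2 := by
  have hre : ∀ w : ℂ, (ee w).re = Real.exp (-w.im) * Real.cos w.re := by
    intro w
    unfold ee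
    rw [Complex.exp_re]
    simp
  have him : ∀ w : ℂ, (ee w).im = Real.exp (-w.im) * Real.sin w.re := by
    intro w
    unfold ee
    rw [Complex.exp_im]
    simp
  rw [Complex.sq_norm, Complex.sq_norm, Complex.normSq_apply, Complex.normSq_apply]
  simp only [Complex.sub_re, Complex.sub_im, hre, him, Complex.ofReal_re, Complex.ofReal_im, neg_zero,
    Real.exp_zero, one_mul]
  have h1 := Real.sin_sq_add_cos_sq s
  have h2 := Real.sin_sq_add_cos_sq w.re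
  generalize Real.exp (-w.im) = e at *
  generalize Real.sin s = a at *
  generalize Real.cos s = b at *
  generalize Real.sin w.re = c at *
  generalize Real.cos w.re = d at *
  linear_combination (1 - e) * h1 + (e ^ 2 - e) * h2

private theorem poisA1_exp_le {y : ℝ} (h0 : 0 < y) (h1 : y ≤ 1) {a : ℝ} :
    Real.exp (-(a * y)) ≤ 1 - y + y * Real.exp (-a) := by
  have h := convexOn_exp.2 (mem_univ (0 : ℝ)) (mem_univ (-a)) (sub_nonneg.mpr h1) h0.le (by ring)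
  simp only [smul_eq_mul, mul_zero, zero_add, Real.exp_zero, mul_one] at h
  have h2 : y * -a = -(a * y) := by ring
  rwa [h2] at h

theorem Pk_le {w : ℂ} {s : ℝ} (h0 : 0 < w.im) (h1 : w.im ≤ 1) (hs : |s - w.re| ≤ 4) :
    Pk (ee w) s ≤ 20 * (w.im / (w.im + |s - w.re|) ^ 2) := by
  unfold Pk
  rw [poisA1_normSq, norm_ee]
  have hc := norm_ee_sub_ge hs
  set d := |s - w.re| with hd
  have hd0 : 0 ≤ d := abs_nonneg _
  set y := w.im with hy
  have e1 : Real.exp (-1) < 0.3678794412 := Real.exp_neg_one_lt_d9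
  have e1' : 0.36787944116 < Real.exp (-1) := Real.exp_neg_one_gt_d9
  have h2 : Real.exp (-y) ≤ 1 - y + y * Real.exp (-1) := by
    have := poisA1_exp_le h0 h1 (a := 1)
    rwa [one_mul] at this
  have h3 : 0.36 ≤ Real.exp (-y) := by
    have : Real.exp (-1) ≤ Real.exp (-y) := Real.exp_le_exp.mpr (by linarith)
    linarith
  have h4 : 0.63 * y ≤ 1 - Real.exp (-y) := by nlinarith
  have h5 : 1 - Real.exp (-y) ^ 2 ≤ 2 * y := by
    have h6 : Real.exp (-y) ^ 2 = Real.exp (-(2 * y)) := by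
      rw [← Real.exp_nat_mul]; congr 1; push_cast; ring
    rw [h6]
    have := Real.add_one_le_exp (-(2 * y))
    linarith
  have h7 : (4 / 25) * d ^ 2 ≤ ‖ee (s : ℂ) - ee (w.re : ℂ)‖ ^ 2 := by
    have := pow_le_pow_left₀ (by positivity) hc 2
    calc (4 / 25) * d ^ 2 = (2 / 5 * d) ^ 2 := by ring
      _ ≤ _ := this
  have h8 : (0.63 * y) ^ 2 ≤ (1 - Real.exp (-y)) ^ 2 := pow_le_pow_left₀ (by positivity) h4 2
  have h9 : 0.36 * ((4 / 25) * d ^ 2) ≤ Real.exp (-y) * ‖ee (s : ℂ) - ee (w.re : ℂ)‖ ^ 2 :=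
    mul_le_mul h3 h7 (by positivity) (by positivity)
  set D := (1 - Real.exp (-y)) ^ 2 + Real.exp (-y) * ‖ee (s : ℂ) - ee (w.re : ℂ)‖ ^ 2 with hD
  have h10 : 0.05 * (y + d) ^ 2 / 2 ≤ D := by
    have : 0 ≤ (y - d) ^ 2 := sq_nonneg _
    have hyy : 0 ≤ y ^ 2 := sq_nonneg _
    have hdd : 0 ≤ d ^ 2 := sq_nonneg _
    have : 0.05 * (y + d) ^ 2 / 2 ≤ 0.05 * (y ^ 2 + d ^ 2) := by nlinarith
    rw [hD]
    linarith
  have hDpos : 0 < D := by
    have : 0 < (y + d) ^ 2 := by positivity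
    linarith
  have hpi : 3 < π := Real.pi_gt_three
  have hyd : 0 < (y + d) ^ 2 := by positivity
  rw [div_div, ← mul_div_assoc, div_le_div_iff₀ (by positivity) hyd]
  have hE : (1 - Real.exp (-y) ^ 2) * (y + d) ^ 2 ≤ 2 * y * (y + d) ^ 2 :=
    mul_le_mul_of_nonneg_right h5 hyd.le
  have hF : 20 * y * (0.05 * (y + d) ^ 2 / 2 * 6) ≤ 20 * y * (D * (2 * π)) := by
    apply mul_le_mul_of_nonneg_left _ (by positivity)
    apply mul_le_mul h10 (by linarith) (by norm_num) hDpos.le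
  nlinarith [mul_pos h0 hyd]

theorem Pk_ge {w : ℂ} {s : ℝ} (h0 : 0 < w.im) (h1 : w.im ≤ 1) :
    w.im / (w.im + |s - w.re|) ^ 2 ≤ 8 * Pk (ee w) s := by
  unfold Pk
  rw [poisA1_normSq, norm_ee]
  have hc := norm_ee_sub_real_le s w.re
  set d := |s - w.re| with hd
  have hd0 : 0 ≤ d := abs_nonneg _
  set y := w.im with hy
  have e1 : Real.exp (-1) < 0.3678794412 := Real.exp_neg_one_lt_d9
  have e2 : Real.exp (-2) < 0.1354 := by
    have h6 : Real.exp (-2) = Real.exp (-1) ^ 2 := by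
      rw [← Real.exp_nat_mul]; congr 1; norm_num
    rw [h6]
    have h0e : 0 < Real.exp (-1) := Real.exp_pos _
    nlinarith
  have h2 : Real.exp (-(2 * y)) ≤ 1 - y + y * Real.exp (-2) := poisA1_exp_le h0 h1 (a := 2)
  have h6 : Real.exp (-y) ^ 2 = Real.exp (-(2 * y)) := by
    rw [← Real.exp_nat_mul]; congr 1; push_cast; ring
  have h5 : 0.8646 * y ≤ 1 - Real.exp (-y) ^ 2 := by
    rw [h6]
    nlinarith
  have h4 : 1 - Real.exp (-y) ≤ y := by
    have := Real.add_one_le_exp (-y)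
    linarith
  have h4' : 0 ≤ 1 - Real.exp (-y) := by
    have : Real.exp (-y) ≤ 1 := Real.exp_le_one_iff.mpr (by linarith)
    linarith
  have h7 : ‖ee (s : ℂ) - ee (w.re : ℂ)‖ ^ 2 ≤ d ^ 2 := pow_le_pow_left₀ (norm_nonneg _) hc 2
  have h8 : (1 - Real.exp (-y)) ^ 2 ≤ y ^ 2 := pow_le_pow_left₀ h4' h4 2
  have h9 : Real.exp (-y) * ‖ee (s : ℂ) - ee (w.re : ℂ)‖ ^ 2 ≤ 1 * d ^ 2 := by
    apply mul_le_mul (Real.exp_le_one_iff.mpr (by linarith)) h7 (by positivity) zero_le_one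
  have hne : 0 < 1 - Real.exp (-y) := by
    have : Real.exp (-y) < 1 := Real.exp_lt_one_iff.mpr (by linarith)
    linarith
  set D := (1 - Real.exp (-y)) ^ 2 + Real.exp (-y) * ‖ee (s : ℂ) - ee (w.re : ℂ)‖ ^ 2 with hD
  have hDpos : 0 < D := by positivity
  have h10 : D ≤ (y + d) ^ 2 := by
    have : 0 ≤ y * d := by positivity
    rw [hD]
    nlinarith
  have hpi : π < 3.15 := Real.pi_lt_d2
  have hyd : 0 < (y + d) ^ 2 := by positivity
  have hpp : 0 < π := Real.pi_pos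
  rw [div_div, ← mul_div_assoc, div_le_div_iff₀ hyd (by positivity)]
  have hE : y * (D * (2 * π)) ≤ y * ((y + d) ^ 2 * 6.3) := by
    apply mul_le_mul_of_nonneg_left _ h0.le
    apply mul_le_mul h10 (by linarith) (by positivity) hyd.le
  have hF : 0.8646 * y * (y + d) ^ 2 ≤ (1 - Real.exp (-y) ^ 2) * (y + d) ^ 2 :=
    mul_le_mul_of_nonneg_right h5 hyd.le
  nlinarith [mul_pos h0 hyd]

/-- Poisson formula for analytic functions -/
theorem poisson_formula {q : ℂ → ℂ} {r : ℝ} (hr : 0 < r)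
    (hq : DifferentiableOn ℂ q (Metric.ball 0 1)) (hr1 : r < 1) {z : ℂ} (hz : z ∈ Metric.ball (0 : ℂ) 1) :
    q (r * z) = ∫ s in (-π)..π, (Pk z s : ℂ) * q (r * ee (s : ℂ)) := by
  have hd : DiffContOnCl ℂ (fun u : ℂ => q (r * u)) (Metric.ball 0 1) := by
    apply DifferentiableOn.diffContOnCl
    rw [closure_ball _ one_ne_zero]
    intro u hu
    have hu1 : ‖u‖ ≤ 1 := mem_closedBall_zero_iff.mp hu
    have hmem : (r : ℂ) * u ∈ Metric.ball (0 : ℂ) 1 := by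
      rw [mem_ball_zero_iff, norm_mul, Complex.norm_real, Real.norm_of_nonneg hr.le]
      nlinarith [norm_nonneg u]
    have h1 : DifferentiableAt ℂ q ((r : ℂ) * u) :=
      (hq _ hmem).differentiableAt (Metric.isOpen_ball.mem_nhds hmem)
    have h2 : DifferentiableAt ℂ (fun u : ℂ => (r : ℂ) * u) u :=
      (differentiableAt_id.const_mul _)
    exact (DifferentiableAt.comp u h1 h2).differentiableWithinAt
  exact poisA1_formula hd hz

end MP_9d6c91_an
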