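import Pool.Agent.Lib.MP_9d6c91_an.PoisA

/-!
# JOB POISB2 : boundary values, Herglotz integral, and the boundary comparison tool

* `tendsto_PI` : approximate identity: for `|s - t| ≥ η`, `|s| ≤ π` (mod `2π`) the kernel `Pk (r e^{it}) s` tends to `0` uniformly
  (`≤ (1 - r²)/c_η`); near `t` use continuity and `integral_Pk`; shift the window with `PI_window`.
* `re_HI`, `differentiableOn_HI` : compare Mathlib `poissonKernel_eq_re_herglotzRieszKernel`,
  `differentiableOn_circleAverage_herglotzRieszKernel_smul` (`HI X z` is this circle average, up to the order of factors and the window).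
* `norm_le_PI` : `poisson_formula` gives `‖q (r z)‖ ≤ ∫ Pk z s ‖q (r ee s)‖ ds`; let `r = 1 - 1/n → 1`: reverse Fatou / dominated convergence
  (integrand bounded by `B / (1 - ‖z‖)`), `limsup ‖q (r ee s)‖ ≤ v s` for a.e. `s`.
-/

set_option autoImplicit false

open MeasureTheory Complex Filter Topology Set
open scoped ENNReal Real

namespace MP_9d6c91_an

theorem poisB2_sub_ge {z : ℂ} (s : ℝ) : 1 - ‖z‖ ≤ ‖ee (s : ℂ) - z‖ := by
  have h := norm_sub_norm_le (ee (s : ℂ)) z
  rw [norm_ee_real] at h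
  exact h

theorem poisB2_sub_ne {z : ℂ} (hz : z ∈ Metric.ball (0 : ℂ) 1) (s : ℝ) : ee (s : ℂ) - z ≠ 0 := by
  have h := poisB2_sub_ge (z := z) s
  have hz' : ‖z‖ < 1 := by simpa using hz
  intro h0
  rw [h0, norm_zero] at h
  linarith

theorem poisB2_continuous_ee : Continuous fun s : ℝ => ee (s : ℂ) :=
  differentiable_ee.continuous.comp Complex.continuous_ofReal

theorem poisB2_continuous_ker {z : ℂ} (hz : z ∈ Metric.ball (0 : ℂ) 1) :
    Continuous fun s : ℝ => ((ee (s : ℂ) + z) / (ee (s : ℂ) - z) / (2 * π) : ℂ) := by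
  refine Continuous.div_const ?_ _
  exact (poisB2_continuous_ee.add continuous_const).div
    (poisB2_continuous_ee.sub continuous_const) (fun s => poisB2_sub_ne hz s)

theorem poisB2_re_ker {z : ℂ} (s : ℝ) :
    ((ee (s : ℂ) + z) / (ee (s : ℂ) - z) / (2 * π) : ℂ).re = Pk z s := by
  have h1 : ((ee (s : ℂ) + z) / (ee (s : ℂ) - z) / (2 * π) : ℂ)
      = ((1 / (2 * π) : ℝ) : ℂ) * ((ee (s : ℂ) + z) / (ee (s : ℂ) - z)) := by
    push_cast
    ring
  rw [h1, Complex.re_ofReal_mul]
  have h2 : ((ee (s : ℂ) + z) / (ee (s : ℂ) - z)).re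
      = (‖ee (s : ℂ)‖ ^ 2 - ‖z‖ ^ 2) / ‖ee (s : ℂ) - z‖ ^ 2 := by
    have := congrFun (poissonKernel_eq_re_herglotzRieszKernel (c := 0) (w := z)) (ee (s : ℂ))
    simp only [poissonKernel_def, Function.comp_apply, herglotzRieszKernel_def, sub_zero] at this
    exact this.symm
  rw [h2, norm_ee_real, Pk]
  ring

theorem poisB2_int {v : ℝ → ℝ} (hv : PX v) {k : ℝ → ℂ} (hk : Continuous k) (a b : ℝ) :
    IntervalIntegrable (fun s => (v s : ℂ) * k s) volume a b := by
  have h0 := hv.integrableOn a b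
  have h1 : IntervalIntegrable (fun s => (v s : ℂ)) volume a b :=
    ⟨Integrable.ofReal h0.1, Integrable.ofReal h0.2⟩
  exact h1.mul_continuousOn hk.continuousOn

theorem poisB2_meas {f : ℝ → ℂ} (h : IntervalIntegrable f volume (-π) π) :
    AEStronglyMeasurable f (volume.restrict (uIoc (-π) π)) := by
  rw [uIoc_of_le (by linarith [Real.pi_pos])]
  exact h.1.aestronglyMeasurable

theorem re_HI {v : ℝ → ℝ} (hv : PX v) {z : ℂ} (hz : z ∈ Metric.ball (0 : ℂ) 1) :
    (HI v z).re = PI v z := by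
  have hint := poisB2_int hv (poisB2_continuous_ker hz) (-π) π
  have h := Complex.reCLM.intervalIntegral_comp_comm hint
  simp only [Complex.reCLM_apply] at h
  rw [HI, ← h, PI]
  refine intervalIntegral.integral_congr fun s _ => ?_
  rw [Complex.re_ofReal_mul, poisB2_re_ker]

theorem differentiableOn_HI {v : ℝ → ℝ} (hv : PX v) :
    DifferentiableOn ℂ (HI v) (Metric.ball (0 : ℂ) 1) := by
  intro z₀ hz₀
  have hz₀' : ‖z₀‖ < 1 := by simpa using hz₀
  set η : ℝ := (1 - ‖z₀‖) / 2 with hη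
  have hη0 : 0 < η := by rw [hη]; linarith
  have hball : ∀ z ∈ Metric.ball z₀ η, ‖z‖ < 1 - η := by
    intro z hz
    have h1 : ‖z - z₀‖ < η := by simpa [dist_eq_norm] using hz
    have h2 : ‖z‖ ≤ ‖z₀‖ + ‖z - z₀‖ := by
      have := norm_add_le z₀ (z - z₀)
      simpa using this
    rw [hη] at h1 ⊢
    linarith
  have hball' : ∀ z ∈ Metric.ball z₀ η, z ∈ Metric.ball (0 : ℂ) 1 := by
    intro z hz
    have := hball z hz
    simp only [Metric.mem_ball, dist_zero_right]
    linarith
  have key := intervalIntegral.hasDerivAt_integral_of_dominated_loc_of_deriv_le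
    (μ := volume) (a := -π) (b := π) (𝕜 := ℂ) (s := Metric.ball z₀ η) (x₀ := z₀)
    (F := fun z s => (v s : ℂ) * ((ee (s : ℂ) + z) / (ee (s : ℂ) - z) / (2 * π)))
    (F' := fun z s => (v s : ℂ) * (2 * ee (s : ℂ) / (ee (s : ℂ) - z) ^ 2 / (2 * π)))
    (bound := fun s => |v s| * (2 / η ^ 2 / (2 * π)))
    (Metric.ball_mem_nhds z₀ hη0) ?_ ?_ ?_ ?_ ?_ ?_
  · exact key.2.differentiableAt.differentiableWithinAt
  · filter_upwards [Metric.ball_mem_nhds z₀ hη0] with z hz
    exact poisB2_meas (poisB2_int hv (poisB2_continuous_ker (hball' z hz)) (-π) π)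
  · exact poisB2_int hv (poisB2_continuous_ker hz₀) (-π) π
  · have hc : Continuous fun s : ℝ => (2 * ee (s : ℂ) / (ee (s : ℂ) - z₀) ^ 2 / (2 * π) : ℂ) := by
      refine Continuous.div_const ?_ _
      refine (continuous_const.mul poisB2_continuous_ee).div
        ((poisB2_continuous_ee.sub continuous_const).pow 2) (fun s => ?_)
      exact pow_ne_zero 2 (poisB2_sub_ne hz₀ s)
    exact poisB2_meas (poisB2_int hv hc (-π) π)
  · refine Filter.Eventually.of_forall fun s _ z hz => ?_
    rw [norm_mul, Complex.norm_real, Real.norm_eq_abs]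
    refine mul_le_mul_of_nonneg_left ?_ (abs_nonneg _)
    have h1 : η ≤ ‖ee (s : ℂ) - z‖ := by
      have := poisB2_sub_ge (z := z) s
      have := hball z hz
      linarith
    rw [norm_div, norm_div, norm_mul, norm_pow, norm_ee_real]
    have h2 : ‖(2 * π : ℂ)‖ = 2 * π := by
      rw [norm_mul]
      simp [abs_of_pos Real.pi_pos]
    rw [h2]
    have hpi := Real.pi_pos
    simp only [Complex.norm_ofNat, mul_one]
    gcongr
  · exact ((hv.integrableOn (-π) π).norm.mul_const _)
  · refine Filter.Eventually.of_forall fun s _ z hz => ?_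
    have hne : ee (s : ℂ) - z ≠ 0 := poisB2_sub_ne (hball' z hz) s
    have h1 : HasDerivAt (fun z : ℂ => ee (s : ℂ) + z) 1 z := by
      simpa using (hasDerivAt_id z).const_add (ee (s : ℂ))
    have h2 : HasDerivAt (fun z : ℂ => ee (s : ℂ) - z) (-1) z := by
      simpa using (hasDerivAt_id z).const_sub (ee (s : ℂ))
    have h3 := ((h1.div h2 hne).div_const (2 * π : ℂ)).const_mul (v s : ℂ)
    have h4 : (1 * (ee (s : ℂ) - z) - (ee (s : ℂ) + z) * -1) = 2 * ee (s : ℂ) := by ring
    rw [h4] at h3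
    exact h3

theorem norm_le_PI {q : ℂ → ℂ} (hq : DifferentiableOn ℂ q (Metric.ball 0 1)) {B : ℝ}
    (hB : ∀ z ∈ Metric.ball (0 : ℂ) 1, ‖q z‖ ≤ B) {v : ℝ → ℝ} (hv : PX v)
    (hlim : ∀ᵐ t : ℝ, ∀ η : ℝ, 0 < η → ∀ᶠ r : ℝ in 𝓝[<] 1, ‖q (r * ee (t : ℂ))‖ ≤ v t + η) {z : ℂ}
    (hz : z ∈ Metric.ball (0 : ℂ) 1) : ‖q z‖ ≤ PI v z := by
  have hz' : ‖z‖ < 1 := by simpa using hz
  have hpi : -π ≤ π := by linarith [Real.pi_pos]
  -- points `r * ee s` are in the ball
  have hmem : ∀ r : ℝ, 0 < r → r < 1 → ∀ s : ℝ, (r : ℂ) * ee (s : ℂ) ∈ Metric.ball (0 : ℂ) 1 := by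
    intro r h0 h1 s
    simp only [Metric.mem_ball, dist_zero_right, norm_mul, norm_ee_real, mul_one,
      Complex.norm_real, Real.norm_eq_abs, abs_of_pos h0]
    exact h1
  have hcont : ∀ r : ℝ, 0 < r → r < 1 → Continuous fun s : ℝ => q ((r : ℂ) * ee (s : ℂ)) := by
    intro r h0 h1
    exact hq.continuousOn.comp_continuous (continuous_const.mul poisB2_continuous_ee)
      (hmem r h0 h1)
  have hev : ∀ᶠ r : ℝ in 𝓝[<] 1, 0 < r ∧ r < 1 := by
    have h1 : ∀ᶠ r : ℝ in 𝓝[<] 1, r < 1 := eventually_mem_nhdsWithin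
    have h2 : ∀ᶠ r : ℝ in 𝓝[<] 1, 0 < r :=
      nhdsWithin_le_nhds (lt_mem_nhds zero_lt_one)
    exact h2.and h1
  have hB0 : 0 ≤ B := (norm_nonneg _).trans (hB 0 (by simp))
  -- the error term
  set G : ℝ → ℝ → ℝ := fun r s => Pk z s * max (‖q ((r : ℂ) * ee (s : ℂ))‖ - v s) 0 with hG
  have hPkc := continuous_Pk hz
  have hGmeas : ∀ r : ℝ, 0 < r → r < 1 →
      AEStronglyMeasurable (G r) (volume.restrict (uIoc (-π) π)) := by
    intro r h0 h1
    have : Measurable (G r) := by
      refine hPkc.measurable.mul (Measurable.max ?_ measurable_const)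
      exact (hcont r h0 h1).norm.measurable.sub hv.meas
    exact this.aestronglyMeasurable
  have hGle : ∀ r : ℝ, 0 < r → r < 1 → ∀ s, ‖G r s‖ ≤ Pk z s * B := by
    intro r h0 h1 s
    have hP := Pk_nonneg hz'.le s
    have hm : 0 ≤ max (‖q ((r : ℂ) * ee (s : ℂ))‖ - v s) 0 := le_max_right _ _
    rw [hG, Real.norm_eq_abs, abs_of_nonneg (mul_nonneg hP hm)]
    refine mul_le_mul_of_nonneg_left (max_le ?_ hB0) hP
    have := hB _ (hmem r h0 h1 s)
    have := hv.nonneg s
    linarith
  have hGint : ∀ r : ℝ, 0 < r → r < 1 → IntervalIntegrable (G r) volume (-π) π := by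
    intro r h0 h1
    refine IntervalIntegrable.mono_fun ((hPkc.mul continuous_const).intervalIntegrable (-π) π
      : IntervalIntegrable (fun s => Pk z s * B) volume (-π) π) (hGmeas r h0 h1) ?_
    refine Filter.Eventually.of_forall fun s => ?_
    refine (hGle r h0 h1 s).trans ?_
    exact le_abs_self _
  have hGlim : Tendsto (fun r => ∫ s in (-π)..π, G r s) (𝓝[<] 1) (𝓝 0) := by
    have h0 : (0 : ℝ) = ∫ s in (-π)..π, (fun _ : ℝ => (0 : ℝ)) s := by simp
    rw [h0]
    refine intervalIntegral.tendsto_integral_filter_of_dominated_convergence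
      (fun s => Pk z s * B) ?_ ?_ ?_ ?_
    · filter_upwards [hev] with r hr
      exact hGmeas r hr.1 hr.2
    · filter_upwards [hev] with r hr
      exact Filter.Eventually.of_forall fun s _ => hGle r hr.1 hr.2 s
    · exact (hPkc.mul continuous_const).intervalIntegrable (-π) π
    · filter_upwards [hlim] with t ht _
      have h1 : Tendsto (fun r : ℝ => max (‖q ((r : ℂ) * ee (t : ℂ))‖ - v t) 0) (𝓝[<] 1)
          (𝓝 0) := by
        rw [Metric.tendsto_nhds]
        intro ε hε
        filter_upwards [ht (ε / 2) (by linarith)] with r hr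
        rw [dist_zero_right, Real.norm_eq_abs, abs_of_nonneg (le_max_right _ _)]
        refine (max_le (c := ε / 2) ?_ (by linarith)).trans_lt (by linarith)
        linarith
      have h2 := h1.const_mul (Pk z t)
      rw [mul_zero] at h2
      exact h2
  -- the main inequality
  have hmain : ∀ᶠ r : ℝ in 𝓝[<] 1, ‖q ((r : ℂ) * z)‖ ≤ PI v z + ∫ s in (-π)..π, G r s := by
    filter_upwards [hev] with r hr
    rw [poisson_formula hr.1 hq hr.2 hz]
    refine (intervalIntegral.norm_integral_le_integral_norm hpi).trans ?_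
    rw [PI, ← intervalIntegral.integral_add (hv.intPk hz (-π) π) (hGint r hr.1 hr.2)]
    refine intervalIntegral.integral_mono_on hpi ?_ ?_ ?_
    · refine Continuous.intervalIntegrable ?_ _ _
      exact ((Complex.continuous_ofReal.comp hPkc).mul (hcont r hr.1 hr.2)).norm
    · exact (hv.intPk hz (-π) π).add (hGint r hr.1 hr.2)
    · intro s _
      have hP := Pk_nonneg hz'.le s
      rw [norm_mul, Complex.norm_real, Real.norm_eq_abs, abs_of_nonneg hP, hG]
      have hm := le_max_left (‖q ((r : ℂ) * ee (s : ℂ))‖ - v s) 0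
      nlinarith
  have hleft : Tendsto (fun r : ℝ => ‖q ((r : ℂ) * z)‖) (𝓝[<] 1) (𝓝 ‖q z‖) := by
    have hc : ContinuousAt q z := (hq.differentiableAt (Metric.isOpen_ball.mem_nhds hz)).continuousAt
    have h1 : Tendsto (fun r : ℝ => (r : ℂ) * z) (𝓝 1) (𝓝 z) := by
      have : Continuous fun r : ℝ => (r : ℂ) * z := Complex.continuous_ofReal.mul continuous_const
      have h := this.tendsto 1
      simpa using h
    exact ((hc.tendsto.comp (h1.mono_left nhdsWithin_le_nhds))).norm
  have hright : Tendsto (fun r : ℝ => PI v z + ∫ s in (-π)..π, G r s) (𝓝[<] 1) (𝓝 (PI v z + 0)) :=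
    tendsto_const_nhds.add hGlim
  rw [add_zero] at hright
  exact le_of_tendsto_of_tendsto hleft hright hmain

end MP_9d6c91_an
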