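import Pool.Agent.Lib.MP_9d6c91_an.PoisA

/-!
# JOB POISB1 : boundary values, Herglotz integral, and the boundary comparison tool

* `tendsto_PI` : approximate identity: for `|s - t| ≥ η`, `|s| ≤ π` (mod `2π`) the kernel `Pk (r e^{it}) s` tends to `0` uniformly
  (`≤ (1 - r²)/c_η`); near `t` use continuity and `integral_Pk`; shift the window with `PI_window`.
* `re_HI`, `differentiableOn_HI` : compare Mathlib `poissonKernel_eq_re_herglotzRieszKernel`,
  `differentiableOn_circleAverage_herglotzRieszKernel_smul` (`HI X z` is this circle average, up to the order of factors and the window).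
* `norm_le_PI` : `poisson_formula` gives `‖q (r z)‖ ≤ ∫ Pk z s ‖q (r ee s)‖ ds`; let `r = 1 - 1/n → 1`: reverse Fatou / dominated convergence
  (integrand bounded by `B / (1 - ‖z‖)`), `limsup ‖q (r ee s)‖ ≤ v s` for a.e. `s`.
-/

set_option autoImplicit false

open MeasureTheory Complex Filter Topology Set
open scoped ENNReal Real

namespace MP_9d6c91_an

private theorem poisB1_PX_one : PX (fun _ : ℝ => (1 : ℝ)) :=
  ⟨measurable_const, fun _ => zero_le_one, fun _ => rfl, intervalIntegrable_const⟩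

private theorem poisB1_mem {r t : ℝ} (h0 : 0 < r) (h1 : r < 1) :
    (r : ℂ) * ee (t : ℂ) ∈ Metric.ball (0 : ℂ) 1 := by
  rw [mem_ball_zero_iff, norm_mul, norm_ee_real, mul_one, Complex.norm_real, Real.norm_of_nonneg h0.le]
  exact h1

private theorem poisB1_window {z : ℂ} (hz : z ∈ Metric.ball (0 : ℂ) 1) (t : ℝ) :
    ∫ s in (t - π)..(t + π), Pk z s = 1 := by
  have h1 := PI_window poisB1_PX_one z t
  have h2 := PI_const 1 hz
  rw [h1] at h2
  simpa using h2

private theorem poisB1_far {r t s η : ℝ} (h0 : 0 < r) (h1 : r < 1) (hη : 0 < η) (hs : η ≤ |s - t|)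
    (hs' : |s - t| ≤ 4) : Pk ((r : ℂ) * ee (t : ℂ)) s ≤ (1 - r ^ 2) * (25 / (2 * π * η ^ 2)) := by
  unfold Pk
  have hn : ‖(r : ℂ) * ee (t : ℂ)‖ = r := by
    rw [norm_mul, norm_ee_real, mul_one, Complex.norm_real, Real.norm_of_nonneg h0.le]
  rw [hn]
  have hd : η / 5 ≤ ‖ee (s : ℂ) - r * ee (t : ℂ)‖ := by
    have h2 := norm_ee_sub_ge hs'
    have h3 : ‖ee (s : ℂ) - ee (t : ℂ)‖ ≤ ‖ee (s : ℂ) - r * ee (t : ℂ)‖ + ‖(r : ℂ) * ee (t : ℂ) - ee (t : ℂ)‖ := by
      have := norm_add_le (ee (s : ℂ) - r * ee (t : ℂ)) ((r : ℂ) * ee (t : ℂ) - ee (t : ℂ))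
      simpa using this
    have h4 : ‖(r : ℂ) * ee (t : ℂ) - ee (t : ℂ)‖ = 1 - r := by
      have h5 : (r : ℂ) * ee (t : ℂ) - ee (t : ℂ) = ((r - 1 : ℝ) : ℂ) * ee (t : ℂ) := by
        push_cast
        ring
      rw [h5, norm_mul, norm_ee_real, mul_one, Complex.norm_real, Real.norm_eq_abs, abs_of_neg (by linarith)]
      ring
    have h6 : 1 - r ≤ ‖ee (s : ℂ) - r * ee (t : ℂ)‖ := by
      have h7 := norm_sub_norm_le (ee (s : ℂ)) (r * ee (t : ℂ))
      rw [norm_ee_real, hn] at h7
      exact h7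
    linarith
  have hpos : 0 < η / 5 := by positivity
  have h8 : (η / 5) ^ 2 ≤ ‖ee (s : ℂ) - r * ee (t : ℂ)‖ ^ 2 := by
    exact pow_le_pow_left₀ hpos.le hd 2
  have hr2 : 0 ≤ 1 - r ^ 2 := by nlinarith
  have hpi : 0 < 2 * π := by positivity
  calc (1 - r ^ 2) / ‖ee (s : ℂ) - r * ee (t : ℂ)‖ ^ 2 / (2 * π)
      ≤ (1 - r ^ 2) / (η / 5) ^ 2 / (2 * π) := by
        gcongr
    _ = (1 - r ^ 2) * (25 / (2 * π * η ^ 2)) := by
        field_simp
        ring

theorem tendsto_PI {v : ℝ → ℝ} (hv : PX v) {t : ℝ} (ht : ContinuousAt v t) :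
    Tendsto (fun r : ℝ => PI v (r * ee (t : ℂ))) (𝓝[<] 1) (𝓝 (v t)) := by
  rw [Metric.tendsto_nhds]
  intro ε hε
  obtain ⟨η, hη, hcont⟩ := Metric.continuousAt_iff.mp ht (ε / 4) (by positivity)
  set K : ℝ := 25 / (2 * π * η ^ 2) with hK
  have hKpos : 0 < K := by positivity
  have hvint : IntervalIntegrable (fun s => v s - v t) volume (t - π) (t + π) :=
    (PX.integrableOn hv _ _).sub intervalIntegrable_const
  have hvabs : IntervalIntegrable (fun s => |v s - v t|) volume (t - π) (t + π) := hvint.norm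
  set M : ℝ := ∫ s in (t - π)..(t + π), |v s - v t| with hM
  have hab : t - π ≤ t + π := by linarith [Real.pi_pos]
  have hM0 : 0 ≤ M := intervalIntegral.integral_nonneg hab (fun _ _ => abs_nonneg _)
  have hev : ∀ᶠ r : ℝ in 𝓝[<] 1, 0 < r ∧ r < 1 ∧ (1 - r ^ 2) * (K * M) < ε / 4 := by
    have h1 : Tendsto (fun r : ℝ => (1 - r ^ 2) * (K * M)) (𝓝 1) (𝓝 ((1 - 1 ^ 2) * (K * M))) := by
      apply Continuous.tendsto
      fun_prop
    have h2 : (1 - (1 : ℝ) ^ 2) * (K * M) < ε / 4 := by
      norm_num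
      exact hε
    have h3 : ∀ᶠ r : ℝ in 𝓝 1, (1 - r ^ 2) * (K * M) < ε / 4 := h1.eventually_lt_const h2
    have h4 : ∀ᶠ r : ℝ in 𝓝[<] (1 : ℝ), 0 < r :=
      nhdsWithin_le_nhds (lt_mem_nhds (by norm_num : (0 : ℝ) < 1))
    filter_upwards [self_mem_nhdsWithin, h4, nhdsWithin_le_nhds h3] with r h5 h6 h7
    exact ⟨h6, h5, h7⟩
  filter_upwards [hev] with r hr
  obtain ⟨hr0, hr1, hrM⟩ := hr
  have hz := poisB1_mem (t := t) hr0 hr1
  set z : ℂ := (r : ℂ) * ee (t : ℂ) with hzdef
  have hPkint : IntervalIntegrable (Pk z) volume (t - π) (t + π) :=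
    (continuous_Pk hz).intervalIntegrable _ _
  have hvPk : IntervalIntegrable (fun s => v s * Pk z s) volume (t - π) (t + π) := hv.intPk hz _ _
  have hdiffPk : IntervalIntegrable (fun s => (v s - v t) * Pk z s) volume (t - π) (t + π) := by
    have h1 := hvPk.sub (hPkint.const_mul (v t))
    refine h1.congr ?_
    intro s _
    simp only
    ring
  have hkey : PI v z - v t = ∫ s in (t - π)..(t + π), (v s - v t) * Pk z s := by
    have h1 : ∫ s in (t - π)..(t + π), (v s - v t) * Pk z s
        = (∫ s in (t - π)..(t + π), v s * Pk z s) - ∫ s in (t - π)..(t + π), v t * Pk z s := by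
      rw [← intervalIntegral.integral_sub hvPk (hPkint.const_mul (v t))]
      refine intervalIntegral.integral_congr fun s _ => ?_
      ring
    rw [h1, intervalIntegral.integral_const_mul, poisB1_window hz, mul_one, PI_window hv z t]
  have hptw : ∀ s ∈ Icc (t - π) (t + π), |v s - v t| * Pk z s
      ≤ ε / 4 * Pk z s + ((1 - r ^ 2) * K) * |v s - v t| := by
    intro s hs
    have hPk0 : 0 ≤ Pk z s := Pk_nonneg (le_of_lt (by simpa using hz)) s
    have hr2 : 0 ≤ 1 - r ^ 2 := by nlinarith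
    by_cases hst : |s - t| < η
    · have h1 : |v s - v t| < ε / 4 := by
        have := hcont (x := s) (by rw [Real.dist_eq]; exact hst)
        rwa [Real.dist_eq] at this
      have h2 : 0 ≤ ((1 - r ^ 2) * K) * |v s - v t| := by positivity
      nlinarith [mul_le_mul_of_nonneg_right h1.le hPk0]
    · push Not at hst
      have hs4 : |s - t| ≤ 4 := by
        rw [abs_le]
        have := Real.pi_le_four
        constructor <;> linarith [hs.1, hs.2]
      have h1 := poisB1_far hr0 hr1 hη hst hs4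
      have h2 : |v s - v t| * Pk z s ≤ |v s - v t| * ((1 - r ^ 2) * K) :=
        mul_le_mul_of_nonneg_left h1 (abs_nonneg _)
      have h3 : 0 ≤ ε / 4 * Pk z s := by positivity
      linarith
  have habs : IntervalIntegrable (fun s => |v s - v t| * Pk z s) volume (t - π) (t + π) := by
    have h1 := hdiffPk.norm
    refine h1.congr ?_
    intro s _
    simp only
    rw [norm_mul, Real.norm_eq_abs, Real.norm_eq_abs, abs_of_nonneg (Pk_nonneg (le_of_lt (by simpa using hz)) s)]
  have hbound : |PI v z - v t| ≤ ε / 4 + (1 - r ^ 2) * (K * M) := by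
    rw [hkey]
    calc |∫ s in (t - π)..(t + π), (v s - v t) * Pk z s|
        ≤ ∫ s in (t - π)..(t + π), |v s - v t| * Pk z s := by
          have h1 := intervalIntegral.abs_integral_le_integral_abs (f := fun s => (v s - v t) * Pk z s)
            (μ := volume) hab
          refine h1.trans (le_of_eq ?_)
          refine intervalIntegral.integral_congr fun s _ => ?_
          rw [abs_mul, abs_of_nonneg (Pk_nonneg (le_of_lt (by simpa using hz)) s)]
      _ ≤ ∫ s in (t - π)..(t + π), (ε / 4 * Pk z s + ((1 - r ^ 2) * K) * |v s - v t|) :=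
          intervalIntegral.integral_mono_on hab habs
            ((hPkint.const_mul _).add (hvabs.const_mul _)) hptw
      _ = ε / 4 + (1 - r ^ 2) * (K * M) := by
          rw [intervalIntegral.integral_add (hPkint.const_mul _) (hvabs.const_mul _),
            intervalIntegral.integral_const_mul, intervalIntegral.integral_const_mul, poisB1_window hz]
          ring
  rw [Real.dist_eq]
  linarith

end MP_9d6c91_an
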