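import Pool.Agent.Lib.MP_9d6c91_an.Defs

/-!
# JOB SEQA : power series with rapidly decreasing coefficients

All elementary.  `(x + y)^β ≤ x^β + y^β` for `0 < β ≤ 1` gives the product estimate
`|∑_{k≤n} a_k b_(n-k)| ≤ (n+1) A A' exp (-min δ δ' n^β) ≤ C exp (-(min δ δ' / 2) n^β)`.
-/

set_option autoImplicit false

open MeasureTheory Complex Filter Topology Set
open scoped ENNReal Real

namespace MP_9d6c91_an

/-- polynomial factors do not matter -/
theorem summable_pow_exp_neg {β δ : ℝ} (hβ : 0 < β) (hδ : 0 < δ) (k : ℕ) :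
    Summable fun n : ℕ => ((n : ℝ) + 1) ^ k * Real.exp (-δ * (n : ℝ) ^ β) := by
  have hnat : Tendsto (fun n : ℕ => (n : ℝ) ^ β) atTop atTop :=
    (tendsto_rpow_atTop hβ).comp tendsto_natCast_atTop_atTop
  have h1 : (fun n : ℕ => Real.exp (-δ * (n : ℝ) ^ β)) =O[atTop]
      (fun n : ℕ => ((n : ℝ) ^ β) ^ (-((k : ℝ) + 2) / β)) :=
    ((isLittleO_exp_neg_mul_rpow_atTop hδ (-((k : ℝ) + 2) / β)).comp_tendsto hnat).isBigO
  have h2 : (fun n : ℕ => ((n : ℝ) + 1) ^ k) =O[atTop] (fun n : ℕ => (n : ℝ) ^ k) := by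
    apply Asymptotics.IsBigO.pow
    refine Asymptotics.IsBigO.of_bound 2 ?_
    filter_upwards [Filter.eventually_ge_atTop 1] with n hn
    have h3 : (1 : ℝ) ≤ n := by exact_mod_cast hn
    rw [Real.norm_of_nonneg (by positivity), Real.norm_of_nonneg (by positivity)]
    linarith
  have h3 : (fun n : ℕ => (n : ℝ) ^ k * ((n : ℝ) ^ β) ^ (-((k : ℝ) + 2) / β)) =O[atTop]
      (fun n : ℕ => (n : ℝ) ^ (-2 : ℝ)) := by
    refine Asymptotics.IsBigO.of_bound 1 ?_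
    filter_upwards [Filter.eventually_ge_atTop 1] with n hn
    have h4 : (0 : ℝ) < n := by exact_mod_cast hn
    have h5 : (n : ℝ) ^ k * ((n : ℝ) ^ β) ^ (-((k : ℝ) + 2) / β) = (n : ℝ) ^ (-2 : ℝ) := by
      rw [← Real.rpow_mul h4.le, ← Real.rpow_natCast, ← Real.rpow_add h4]
      congr 1
      field_simp
      ring
    rw [h5, one_mul]
  exact summable_of_isBigO_nat (Real.summable_nat_rpow.2 (by norm_num)) ((h2.mul h1).trans h3)

theorem summable_exp_neg {β δ : ℝ} (hβ : 0 < β) (hδ : 0 < δ) :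
    Summable fun n : ℕ => Real.exp (-δ * (n : ℝ) ^ β) := by
  refine (summable_pow_exp_neg hβ hδ 0).congr (fun n => ?_)
  rw [pow_zero, one_mul]

private theorem seqA_nonneg {β A δ : ℝ} {a : ℕ → ℂ} (h : GvC β A δ a) : 0 ≤ A := by
  by_contra hA
  push Not at hA
  have h1 := (norm_nonneg _).trans (h 0)
  have h3 := mul_neg_of_neg_of_pos hA (Real.exp_pos (-δ * ((0 : ℕ) : ℝ) ^ β))
  linarith

private theorem seqA_exp {β δ δ' : ℝ} (h : δ' ≤ δ) (n : ℕ) :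
    Real.exp (-δ * (n : ℝ) ^ β) ≤ Real.exp (-δ' * (n : ℝ) ^ β) := by
  apply Real.exp_le_exp.2
  have h1 : (0 : ℝ) ≤ (n : ℝ) ^ β := Real.rpow_nonneg (Nat.cast_nonneg n) β
  nlinarith

private theorem seqA_mono {β A δ δ' : ℝ} {a : ℕ → ℂ} (h : GvC β A δ a) (hδ : δ' ≤ δ) :
    GvC β A δ' a := fun n =>
  (h n).trans (mul_le_mul_of_nonneg_left (seqA_exp hδ n) (seqA_nonneg h))

theorem Gv.zero (β : ℝ) : Gv β 0 := ⟨0, 1, one_pos, fun n => by simp⟩

theorem Gv.add {β : ℝ} {a b : ℕ → ℂ} (ha : Gv β a) (hb : Gv β b) : Gv β (a + b) := by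
  obtain ⟨A, δ, hδ, hA⟩ := ha
  obtain ⟨B, η, hη, hB⟩ := hb
  refine ⟨A + B, min δ η, lt_min hδ hη, fun n => ?_⟩
  rw [Pi.add_apply, add_mul]
  exact (norm_add_le _ _).trans
    (add_le_add (seqA_mono hA (min_le_left _ _) n) (seqA_mono hB (min_le_right _ _) n))

theorem Gv.smul {β : ℝ} {a : ℕ → ℂ} (c : ℂ) (ha : Gv β a) : Gv β (c • a) := by
  obtain ⟨A, δ, hδ, hA⟩ := ha
  refine ⟨‖c‖ * A, δ, hδ, fun n => ?_⟩
  rw [Pi.smul_apply, smul_eq_mul, norm_mul, mul_assoc]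
  exact mul_le_mul_of_nonneg_left (hA n) (norm_nonneg _)

theorem Gv.sub {β : ℝ} {a b : ℕ → ℂ} (ha : Gv β a) (hb : Gv β b) : Gv β (a - b) := by
  have h := ha.add (hb.smul (-1))
  rwa [neg_one_smul, ← sub_eq_add_neg] at h

theorem Gv_one1 (β : ℝ) : Gv β one1 := by
  refine ⟨Real.exp ((0 : ℝ) ^ β), 1, one_pos, fun n => ?_⟩
  unfold one1
  by_cases h : n = 0
  · subst h
    rw [if_pos rfl, ← Real.exp_add, norm_one]
    simp
  · rw [if_neg h, norm_zero]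
    positivity

private theorem seqA_pow {β : ℝ} (hβ : 0 < β) (hβ1 : β ≤ 1) (k m : ℕ) :
    ((k + m : ℕ) : ℝ) ^ β ≤ (k : ℝ) ^ β + (m : ℝ) ^ β := by
  push_cast
  exact Real.rpow_add_le_add_rpow (Nat.cast_nonneg k) (Nat.cast_nonneg m) hβ.le hβ1

theorem Gv.cmul {β : ℝ} (hβ : 0 < β) (hβ1 : β ≤ 1) {a b : ℕ → ℂ} (ha : Gv β a) (hb : Gv β b) :
    Gv β (cmul a b) := by
  obtain ⟨A, δ, hδ, hA⟩ := ha
  obtain ⟨B, η, hη, hB⟩ := hb
  have hA0 := seqA_nonneg hA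
  have hB0 := seqA_nonneg hB
  set θ : ℝ := min δ η with hθ
  have hθ0 : 0 < θ := lt_min hδ hη
  have hs := summable_pow_exp_neg hβ (half_pos hθ0) 1
  refine ⟨(∑' n : ℕ, ((n : ℝ) + 1) ^ 1 * Real.exp (-(θ / 2) * (n : ℝ) ^ β)) * (A * B), θ / 2,
    half_pos hθ0, fun n => ?_⟩
  unfold MP_9d6c91_an.cmul
  have h1 : ∀ k ∈ Finset.range (n + 1),
      ‖a k * b (n - k)‖ ≤ A * B * Real.exp (-θ * (n : ℝ) ^ β) := by
    intro k hk
    have hkn : k + (n - k) = n := by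
      have := Finset.mem_range.1 hk
      omega
    have h2 := seqA_pow hβ hβ1 k (n - k)
    rw [hkn] at h2
    rw [norm_mul]
    calc ‖a k‖ * ‖b (n - k)‖
        ≤ (A * Real.exp (-θ * (k : ℝ) ^ β)) * (B * Real.exp (-θ * ((n - k : ℕ) : ℝ) ^ β)) :=
          mul_le_mul (seqA_mono hA (min_le_left _ _) k) (seqA_mono hB (min_le_right _ _) (n - k))
            (norm_nonneg _) (by positivity)
      _ = A * B * Real.exp (-θ * ((k : ℝ) ^ β + ((n - k : ℕ) : ℝ) ^ β)) := by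
          rw [mul_add, Real.exp_add]
          ring
      _ ≤ A * B * Real.exp (-θ * (n : ℝ) ^ β) := by
          apply mul_le_mul_of_nonneg_left _ (mul_nonneg hA0 hB0)
          apply Real.exp_le_exp.2
          nlinarith
  calc ‖∑ k ∈ Finset.range (n + 1), a k * b (n - k)‖
      ≤ ∑ k ∈ Finset.range (n + 1), ‖a k * b (n - k)‖ := norm_sum_le _ _
    _ ≤ ∑ k ∈ Finset.range (n + 1), A * B * Real.exp (-θ * (n : ℝ) ^ β) :=
        Finset.sum_le_sum h1
    _ = (((n : ℝ) + 1) ^ 1 * Real.exp (-(θ / 2) * (n : ℝ) ^ β)) * (A * B) *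
          Real.exp (-(θ / 2) * (n : ℝ) ^ β) := by
        rw [Finset.sum_const, Finset.card_range, nsmul_eq_mul]
        have h3 : Real.exp (-θ * (n : ℝ) ^ β) =
            Real.exp (-(θ / 2) * (n : ℝ) ^ β) * Real.exp (-(θ / 2) * (n : ℝ) ^ β) := by
          rw [← Real.exp_add]
          congr 1
          ring
        rw [h3]
        push_cast
        ring
    _ ≤ _ := by
        apply mul_le_mul_of_nonneg_right _ (Real.exp_pos _).le
        apply mul_le_mul_of_nonneg_right _ (mul_nonneg hA0 hB0)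
        exact hs.le_tsum n (fun m _ => by positivity)

theorem Gv.sh {β : ℝ} (hβ : 0 < β) (hβ1 : β ≤ 1) {a : ℕ → ℂ} (m : ℕ) (ha : Gv β a) :
    Gv β (sh m a) := by
  obtain ⟨A, δ, hδ, hA⟩ := ha
  have hA0 := seqA_nonneg hA
  refine ⟨A * Real.exp (δ * (m : ℝ) ^ β), δ, hδ, fun n => ?_⟩
  unfold MP_9d6c91_an.sh
  by_cases h : m ≤ n
  · rw [if_pos h]
    refine (hA (n - m)).trans ?_
    rw [mul_assoc, ← Real.exp_add]
    apply mul_le_mul_of_nonneg_left _ hA0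
    apply Real.exp_le_exp.2
    have h2 := seqA_pow hβ hβ1 m (n - m)
    rw [Nat.add_sub_cancel' h] at h2
    nlinarith
  · rw [if_neg h, norm_zero]
    positivity

/-- derivatives: the series defining `dv j a z` converges absolutely for `‖z‖ ≤ 1` -/
theorem Gv.summable_dv {β : ℝ} (hβ : 0 < β) {a : ℕ → ℂ} (ha : Gv β a) (j : ℕ) :
    Summable fun n : ℕ => ((n : ℝ) + 1) ^ j * ‖a n‖ := by
  obtain ⟨A, δ, hδ, hA⟩ := ha
  refine Summable.of_nonneg_of_le (fun n => by positivity) (fun n => ?_)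
    ((summable_pow_exp_neg hβ hδ j).mul_left A)
  calc ((n : ℝ) + 1) ^ j * ‖a n‖ ≤ ((n : ℝ) + 1) ^ j * (A * Real.exp (-δ * (n : ℝ) ^ β)) :=
        mul_le_mul_of_nonneg_left (hA n) (by positivity)
    _ = _ := by ring

theorem Gv.summable_norm {β : ℝ} (hβ : 0 < β) {a : ℕ → ℂ} (ha : Gv β a) :
    Summable fun n => ‖a n‖ := by
  refine (ha.summable_dv hβ 0).congr (fun n => ?_)
  rw [pow_zero, one_mul]

end MP_9d6c91_an
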