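import Pool.Agent.Lib.MP_9d6c91_an.PJ
import Pool.Agent.Lib.MP_9d6c91_an.JJ

/-!
# JOB SUPERB : lower bound for `u = log (M/|g|)`

`β = α/(1+α)`, `W = WW α β E u = d^(-α) + J[u]^β`.
* `propag` : `H(w) = ev (tr (NN α δ y) g) (ee w)` is entire, `‖H‖ ≤ C` for `|Im w| ≤ 4y` (`trunc_upper`).  Circle with centre `t - i y₁`, radius `2y`
  (`Im ∈ [-3y, 2y]`); for `θ ∈ [π/3, 2π/3]` the point `w = t - i y₁ + 2y e^{iθ}` has `Im w ≥ 2y sin θ - y ≥ y/2`, `Im w ≤ 2y`, `|Re w - t| ≤ y`; there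
  `‖H‖ ≤ M e^{-κ} + C e^{-c y^(-α)}` (`trunc_tail`); `log_le_mean_arc`.
* `upper_J` : `pj` and `Pk_ge` : `PI u (ee w) ≥ (1/8) ∫_{|s-t|≤π} u(s) Im w/(Im w + |s - Re w|)² ds`, and for `|Re w - t| ≤ 2y`, `y/2 ≤ Im w ≤ 2y`,
  `y ≤ d(t)` : `Im w + |s - Re w| ≤ 4y + |s-t| ≤ 4 (d(t) + |t - s|)`; then `Jr_window`.
* `super` : `d^(-α) ≤ C (u + 1)` by `flat_bound` at `z = ee t`, `e = ee x`, `|t - x| = d(t)`, `‖ee t - ee x‖ ≤ d(t)`.
  For `J = J[u](t)`: if `J^β ≤ d^(-α)` or `J ≤ 4^(1+α)` done; otherwise `y = J^(-1/(1+α)) < d(t)`, `y ≤ 1/4`, `y J = J^β = y^(-α)`: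
  `upper_J`, `propag` with `y₁ = 0`, `trunc_tail` at `w = t` : `‖ev g (ee t)‖ ≤ C e^{-c J^β}`.
-/

set_option autoImplicit false

open MeasureTheory Complex Filter Topology Set
open scoped ENNReal Real

namespace MP_9d6c91_an

theorem upper_J {g : ℕ → ℂ} (hg : Summable fun n => ‖g n‖) (hg0 : g ≠ 0) {M : ℝ} (hM0 : 0 < M)
    (hM : ∀ z : ℂ, ‖z‖ ≤ 1 → ‖ev g z‖ ≤ M) {E : Set ℝ} (hE : GE E) (hne : E.Nonempty) :
    ∀ t y : ℝ, t ∉ E → 0 < y → y ≤ 1 / 4 → y ≤ dE E t →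
      ∀ w : ℂ, |w.re - t| ≤ 2 * y → y / 2 ≤ w.im → w.im ≤ 2 * y →
        ‖ev g (ee w)‖ ≤ M * Real.exp (-(1 / 5000) * (y * Jr (dE E) (uu M g) t)) := by
  obtain ⟨hX, -, hpj⟩ := pj hg hg0 hM0 hM
  intro t y ht hy hy4 hyd w hwre hwim1 hwim2
  have him : 0 < w.im := by linarith
  have him1 : w.im ≤ 1 := by linarith
  have hball : ee w ∈ Metric.ball (0 : ℂ) 1 := ee_mem_ball him
  refine (hpj _ hball).trans ?_
  refine mul_le_mul_of_nonneg_left (Real.exp_le_exp.mpr ?_) hM0.le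
  have hd : 0 < dE E t := dE_pos hE hne ht
  have hJ := Jr_window hE hne hX ht
  have hπ : 0 < π := Real.pi_pos
  -- pointwise comparison of the kernels
  have hker : ∀ s : ℝ, (y / 256) * (1 / (dE E t + |t - s|) ^ 2) ≤ Pk (ee w) s := by
    intro s
    have h1 := Pk_ge (w := w) (s := s) him him1
    have h2 : w.im + |s - w.re| ≤ 4 * (dE E t + |t - s|) := by
      have h3 : |s - w.re| ≤ |t - s| + |w.re - t| := by
        have h4 : s - w.re = -((t - s) + (w.re - t)) := by ring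
        rw [h4, abs_neg]
        exact abs_add_le _ _
      have h5 : 0 ≤ |t - s| := abs_nonneg _
      linarith
    have h0 : 0 ≤ |s - w.re| := abs_nonneg _
    have h5 : 0 ≤ |t - s| := abs_nonneg _
    have h6 : 0 < w.im + |s - w.re| := by linarith
    have h7 : 0 < dE E t + |t - s| := by linarith
    have h8 : (w.im + |s - w.re|) ^ 2 ≤ 16 * (dE E t + |t - s|) ^ 2 := by
      have := pow_le_pow_left₀ h6.le h2 2
      nlinarith [this]
    have h9 : (y / 2) / (16 * (dE E t + |t - s|) ^ 2) ≤ w.im / (w.im + |s - w.re|) ^ 2 := by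
      apply div_le_div₀ him.le hwim1 (by positivity) h8
    have h10 : (y / 256) * (1 / (dE E t + |t - s|) ^ 2)
        = (1 / 8) * ((y / 2) / (16 * (dE E t + |t - s|) ^ 2)) := by
      field_simp
      norm_num
    rw [h10]
    linarith
  -- integrability
  have hint1 : IntervalIntegrable (fun s => (uu M g) s * Pk (ee w) s) volume (t - π) (t + π) :=
    hX.intPk hball _ _
  have hint2 : IntervalIntegrable (fun s => (y / 256) * ((uu M g) s * (1 / (dE E t + |t - s|) ^ 2)))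
      volume (t - π) (t + π) :=
    ((Jr_integrable hE hne hX ht).intervalIntegrable).const_mul _
  have hmono : ∫ s in (t - π)..(t + π), (y / 256) * ((uu M g) s * (1 / (dE E t + |t - s|) ^ 2))
      ≤ ∫ s in (t - π)..(t + π), (uu M g) s * Pk (ee w) s := by
    apply intervalIntegral.integral_mono_on (by linarith) hint2 hint1
    intro s _
    have h1 := hker s
    have h2 := hX.nonneg s
    calc (y / 256) * ((uu M g) s * (1 / (dE E t + |t - s|) ^ 2))
        = (uu M g) s * ((y / 256) * (1 / (dE E t + |t - s|) ^ 2)) := by ring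
      _ ≤ (uu M g) s * Pk (ee w) s := mul_le_mul_of_nonneg_left h1 h2
  rw [intervalIntegral.integral_const_mul] at hmono
  rw [← PI_window hX (ee w) t] at hmono
  have hJ0 : 0 ≤ Jr (dE E) (uu M g) t := Jr_nonneg hX
  have h3 : (y / 256) * (Jr (dE E) (uu M g) t / 15)
      ≤ (y / 256) * ∫ s in (t - π)..(t + π), (uu M g) s * (1 / (dE E t + |t - s|) ^ 2) := by
    apply mul_le_mul_of_nonneg_left _ (by positivity)
    linarith
  have h4 : (1 / 5000) * (y * Jr (dE E) (uu M g) t) ≤ (y / 256) * (Jr (dE E) (uu M g) t / 15) := by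
    have h5 : 0 ≤ y * Jr (dE E) (uu M g) t := mul_nonneg hy.le hJ0
    linarith
  linarith

end MP_9d6c91_an
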