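import Pool.Agent.Lib.MP_9d6c91_an.SuperA
import Pool.Agent.Lib.MP_9d6c91_an.SuperB
import Pool.Agent.Lib.MP_9d6c91_an.Flatb

/-!
# JOB SUPERC : lower bound for `u = log (M/|g|)`

`β = α/(1+α)`, `W = WW α β E u = d^(-α) + J[u]^β`.
* `propag` : `H(w) = ev (tr (NN α δ y) g) (ee w)` is entire, `‖H‖ ≤ C` for `|Im w| ≤ 4y` (`trunc_upper`).  Circle with centre `t - i y₁`, radius `2y`
  (`Im ∈ [-3y, 2y]`); for `θ ∈ [π/3, 2π/3]` the point `w = t - i y₁ + 2y e^{iθ}` has `Im w ≥ 2y sin θ - y ≥ y/2`, `Im w ≤ 2y`, `|Re w - t| ≤ y`; there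
  `‖H‖ ≤ M e^{-κ} + C e^{-c y^(-α)}` (`trunc_tail`); `log_le_mean_arc`.
* `upper_J` : `pj` and `Pk_ge` : `PI u (ee w) ≥ (1/8) ∫_{|s-t|≤π} u(s) Im w/(Im w + |s - Re w|)² ds`, and for `|Re w - t| ≤ 2y`, `y/2 ≤ Im w ≤ 2y`,
  `y ≤ d(t)` : `Im w + |s - Re w| ≤ 4y + |s-t| ≤ 4 (d(t) + |t - s|)`; then `Jr_window`.
* `super` : `d^(-α) ≤ C (u + 1)` by `flat_bound` at `z = ee t`, `e = ee x`, `|t - x| = d(t)`, `‖ee t - ee x‖ ≤ d(t)`.
  For `J = J[u](t)`: if `J^β ≤ d^(-α)` or `J ≤ 4^(1+α)` done; otherwise `y = J^(-1/(1+α)) < d(t)`, `y ≤ 1/4`, `y J = J^β = y^(-α)`: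
  `upper_J`, `propag` with `y₁ = 0`, `trunc_tail` at `w = t` : `‖ev g (ee t)‖ ≤ C e^{-c J^β}`.
-/

set_option autoImplicit false

open MeasureTheory Complex Filter Topology Set
open scoped ENNReal Real

namespace MP_9d6c91_an

/-- from an exponential upper bound for `G` to a lower bound for `log (M/G)` -/
private theorem superC_aux {M K G x : ℝ} (hM : 0 < M) (hK : 0 < K) (hG : 0 < G) (hGM : G ≤ M)
    (h : G ≤ K * Real.exp (-x)) : x ≤ (1 + |Real.log (M / K)|) * (Real.log (M / G) + 1) := by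
  have hu : 0 ≤ Real.log (M / G) := Real.log_nonneg (by rw [le_div_iff₀ hG]; linarith)
  have h1 : Real.log G ≤ Real.log K - x := by
    calc Real.log G ≤ Real.log (K * Real.exp (-x)) := Real.log_le_log hG h
      _ = Real.log K - x := by rw [Real.log_mul hK.ne' (Real.exp_pos _).ne', Real.log_exp]; ring
  have h2 : Real.log (M / G) = Real.log M - Real.log G := Real.log_div hM.ne' hG.ne'
  have h3 : Real.log (M / K) = Real.log M - Real.log K := Real.log_div hM.ne' hK.ne'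
  have h4 : -|Real.log (M / K)| ≤ Real.log (M / K) := neg_abs_le _
  have h5 : 0 ≤ |Real.log (M / K)| := abs_nonneg _
  nlinarith

theorem super {α M : ℝ} (hα : 0 < α) (hα1 : α < 1) {g : ℕ → ℂ} (hg : Gv (α / (1 + α)) g) (hg0 : g ≠ 0)
    (hM0 : 0 < M) (hM : ∀ z : ℂ, ‖z‖ ≤ 1 → ‖ev g z‖ ≤ M) {E : Set ℝ} (hE : GE E) (hne : E.Nonempty)
    (hflat : Flat E g) :
    ∃ C₁ : ℝ, 1 ≤ C₁ ∧ ∀ t : ℝ, t ∉ E → ev g (ee (t : ℂ)) ≠ 0 →
      WW α (α / (1 + α)) E (uu M g) t ≤ C₁ * (uu M g t + 1) := by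
  have hβ : 0 < α / (1 + α) := by positivity
  have h1α : 0 < 1 + α := by positivity
  obtain ⟨A, δ, hδ, hgC⟩ := hg
  have hg' : Gv (α / (1 + α)) g := ⟨A, δ, hδ, hgC⟩
  have hsum := Gv.summable_norm hβ hg'
  obtain ⟨Cf, cf, hCf, hcf, hfb⟩ := flat_bound hα hg'
  obtain ⟨Ct, ct, hCt, hct, htail⟩ := trunc_tail hα hδ hgC
  obtain ⟨Cp, cp, hCp, hcp, hprop⟩ := propag (M := M) hα hδ hgC hM0
  have hup := upper_J hsum hg0 hM0 hM hE hne
  -- constants
  set K₁ : ℝ := 1 + |Real.log (M / Cf)| with hK₁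
  set K₂ : ℝ := 1 + |Real.log (M / (2 * Cp + Ct))| with hK₂
  set c₂ : ℝ := min (cp / 5000) ct with hc₂
  have hK₁0 : 1 ≤ K₁ := by rw [hK₁]; linarith [abs_nonneg (Real.log (M / Cf))]
  have hK₂0 : 1 ≤ K₂ := by rw [hK₂]; linarith [abs_nonneg (Real.log (M / (2 * Cp + Ct)))]
  have hc₂0 : 0 < c₂ := lt_min (by positivity) hct
  have h4α : 0 < (4 : ℝ) ^ α := Real.rpow_pos_of_pos (by norm_num) _
  refine ⟨1 + 2 * (K₁ / cf) + K₂ / c₂ + 4 ^ α, ?_, ?_⟩
  · have : 0 ≤ K₁ / cf := by positivity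
    have : 0 ≤ K₂ / c₂ := by positivity
    linarith
  intro t ht hgt
  set u := uu M g with hu
  set d := dE E t with hd
  set J := Jr (dE E) u t with hJ
  have hd0 : 0 < d := dE_pos hE hne ht
  have hG0 : 0 < ‖ev g (ee (t : ℂ))‖ := norm_pos_iff.mpr hgt
  have hGM : ‖ev g (ee (t : ℂ))‖ ≤ M := hM _ (norm_ee_real t).le
  have hut : u t = Real.log (M / ‖ev g (ee (t : ℂ))‖) := rfl
  have hu0 : 0 ≤ u t := by rw [hut]; exact Real.log_nonneg (by rw [le_div_iff₀ hG0]; linarith)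
  have hPX : PX u := (pj hsum hg0 hM0 hM).1
  have hJ0 : 0 ≤ J := Jr_nonneg hPX
  -- part 1
  have part1 : d ^ (-α) ≤ K₁ / cf * (u t + 1) := by
    obtain ⟨x, hx, hxd⟩ := exists_dE hE hne t
    have hb := hfb (ee (x : ℂ)) (norm_ee_real x) (hflat x hx) (ee (t : ℂ)) (norm_ee_real t).le
    have hne' : ee (t : ℂ) ≠ ee (x : ℂ) := by
      intro h
      apply hgt
      rw [h]
      have := hflat x hx 0
      simpa [dv, ev] using this
    have hpos : 0 < ‖ee (t : ℂ) - ee (x : ℂ)‖ := norm_pos_iff.mpr (sub_ne_zero.mpr hne')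
    have hle : ‖ee (t : ℂ) - ee (x : ℂ)‖ ≤ d := by
      rw [hd, ← hxd]; exact norm_ee_sub_real_le t x
    have hpow : d ^ (-α) ≤ ‖ee (t : ℂ) - ee (x : ℂ)‖ ^ (-α) :=
      Real.rpow_le_rpow_of_nonpos hpos hle (by linarith)
    have h1 : ‖ev g (ee (t : ℂ))‖ ≤ Cf * Real.exp (-(cf * d ^ (-α))) := by
      refine hb.trans (mul_le_mul_of_nonneg_left (Real.exp_le_exp.mpr ?_) (by linarith))
      have := mul_le_mul_of_nonneg_left hpow hcf.le
      linarith
    have h2 := superC_aux hM0 (by linarith) hG0 hGM h1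
    rw [div_mul_eq_mul_div, le_div_iff₀ hcf]
    rw [hut]
    linarith
  -- part 2
  have part2 : J ^ (α / (1 + α)) ≤ (K₁ / cf + K₂ / c₂ + 4 ^ α) * (u t + 1) := by
    have hK1c : 0 ≤ K₁ / cf := by positivity
    have hK2c : 0 ≤ K₂ / c₂ := by positivity
    by_cases hcase1 : J ^ (α / (1 + α)) ≤ d ^ (-α)
    · calc J ^ (α / (1 + α)) ≤ d ^ (-α) := hcase1
        _ ≤ K₁ / cf * (u t + 1) := part1
        _ ≤ (K₁ / cf + K₂ / c₂ + 4 ^ α) * (u t + 1) := by
            apply mul_le_mul_of_nonneg_right _ (by linarith)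
            linarith
    by_cases hcase2 : J ≤ 4 ^ (1 + α)
    · calc J ^ (α / (1 + α)) ≤ (4 ^ (1 + α)) ^ (α / (1 + α)) :=
            Real.rpow_le_rpow hJ0 hcase2 hβ.le
        _ = 4 ^ α := by
            rw [← Real.rpow_mul (by norm_num)]
            congr 1; field_simp
        _ ≤ (K₁ / cf + K₂ / c₂ + 4 ^ α) * 1 := by linarith
        _ ≤ (K₁ / cf + K₂ / c₂ + 4 ^ α) * (u t + 1) := by
            apply mul_le_mul_of_nonneg_left (by linarith)
            linarith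
    push Not at hcase1 hcase2
    have hJpos : 0 < J := lt_trans (Real.rpow_pos_of_pos (by norm_num) _) hcase2
    set y : ℝ := J ^ (-(1 / (1 + α))) with hy
    have hy0 : 0 < y := Real.rpow_pos_of_pos hJpos _
    have hyα : y ^ (-α) = J ^ (α / (1 + α)) := by
      rw [hy, ← Real.rpow_mul hJpos.le]
      congr 1; field_simp
    have hyJ : y * J = J ^ (α / (1 + α)) := by
      have : y * J = J ^ (-(1 / (1 + α))) * J ^ (1 : ℝ) := by rw [Real.rpow_one]
      rw [this, ← Real.rpow_add hJpos]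
      congr 1; field_simp; ring
    have hy4 : y ≤ 1 / 4 := by
      have h1 : y ≤ ((4 : ℝ) ^ (1 + α)) ^ (-(1 / (1 + α))) :=
        Real.rpow_le_rpow_of_nonpos (Real.rpow_pos_of_pos (by norm_num) _) hcase2.le
          (by have : 0 < 1 / (1 + α) := by positivity
              linarith)
      have h2 : ((4 : ℝ) ^ (1 + α)) ^ (-(1 / (1 + α))) = 1 / 4 := by
        rw [← Real.rpow_mul (by norm_num)]
        have : (1 + α) * -(1 / (1 + α)) = -1 := by field_simp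
        rw [this, Real.rpow_neg_one]; norm_num
      linarith
    have hyd : y ≤ d := by
      by_contra hcon
      push Not at hcon
      have : y ^ (-α) ≤ d ^ (-α) := Real.rpow_le_rpow_of_nonpos hd0 hcon.le (by linarith)
      rw [hyα] at this
      linarith
    have hκ : 0 ≤ 1 / 5000 * (y * J) := by positivity
    have hp := hprop t y (1 / 5000 * (y * J)) hy0 hy4 hκ
      (fun w h1 h2 h3 => by
        have := hup t y ht hy0 hy4 hyd w h1 h2 h3
        rw [show -(1 / 5000 * (y * J)) = -(1 / 5000) * (y * J) by ring]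
        exact this) 0 le_rfl hy0.le
    have hmk : Complex.mk t (-0) = (t : ℂ) := by apply Complex.ext <;> simp
    rw [hmk] at hp
    have ht' := htail y hy0 (by linarith) (t : ℂ) (by simp)
    rw [hyJ, hyα] at hp
    rw [hyα] at ht'
    set V := J ^ (α / (1 + α)) with hV
    have hV0 : 0 ≤ V := Real.rpow_nonneg hJ0 _
    have e1 : Real.exp (-cp * (1 / 5000 * V)) ≤ Real.exp (-(c₂ * V)) := by
      apply Real.exp_le_exp.mpr
      have : c₂ ≤ cp / 5000 := min_le_left _ _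
      nlinarith
    have e2 : Real.exp (-cp * V) ≤ Real.exp (-(c₂ * V)) := by
      apply Real.exp_le_exp.mpr
      have : c₂ ≤ cp / 5000 := min_le_left _ _
      have : c₂ ≤ cp := by linarith
      nlinarith
    have e3 : Real.exp (-ct * V) ≤ Real.exp (-(c₂ * V)) := by
      apply Real.exp_le_exp.mpr
      have : c₂ ≤ ct := min_le_right _ _
      nlinarith
    have h1 : ‖ev g (ee (t : ℂ))‖ ≤ (2 * Cp + Ct) * Real.exp (-(c₂ * V)) := by
      calc ‖ev g (ee (t : ℂ))‖ = ‖(ev g (ee (t : ℂ)) - ev (tr (NN α δ y) g) (ee (t : ℂ))) +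
            ev (tr (NN α δ y) g) (ee (t : ℂ))‖ := by ring_nf
        _ ≤ ‖ev g (ee (t : ℂ)) - ev (tr (NN α δ y) g) (ee (t : ℂ))‖ +
            ‖ev (tr (NN α δ y) g) (ee (t : ℂ))‖ := norm_add_le _ _
        _ ≤ Ct * Real.exp (-ct * V) +
            Cp * (Real.exp (-cp * (1 / 5000 * V)) + Real.exp (-cp * V)) := add_le_add ht' hp
        _ ≤ Ct * Real.exp (-(c₂ * V)) +
            Cp * (Real.exp (-(c₂ * V)) + Real.exp (-(c₂ * V))) := by gcongr
        _ = (2 * Cp + Ct) * Real.exp (-(c₂ * V)) := by ring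
    have h2 := superC_aux hM0 (by linarith) hG0 hGM h1
    have h3 : V ≤ K₂ / c₂ * (u t + 1) := by
      rw [div_mul_eq_mul_div, le_div_iff₀ hc₂0, hut]
      linarith
    calc V ≤ K₂ / c₂ * (u t + 1) := h3
      _ ≤ (K₁ / cf + K₂ / c₂ + 4 ^ α) * (u t + 1) := by
          apply mul_le_mul_of_nonneg_right _ (by linarith)
          linarith
  have hWW : WW α (α / (1 + α)) E u t = d ^ (-α) + J ^ (α / (1 + α)) := rfl
  rw [hWW]
  nlinarith [part1, part2]

end MP_9d6c91_an
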