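import Pool.Agent.Lib.MP_9d6c91_an.CoreA
import Pool.Agent.Lib.MP_9d6c91_an.Trunc

/-!
# JOB SUPERA : propagation of smallness through the circle

* `propag` : `H(w) = ev (tr (NN α δ y) g) (ee w)` is entire, `‖H‖ ≤ C` for `|Im w| ≤ 4y` (`trunc_upper`).  Circle with centre `t - i y₁`, radius `2y`
  (`Im ∈ [-3y, 2y]`); for `θ ∈ [π/3, 2π/3]` the point `w = t - i y₁ + 2y e^{iθ}` has `Im w ≥ 2y sin θ - y ≥ y/2`, `Im w ≤ 2y`, `|Re w - t| ≤ y`; there
  `‖H‖ ≤ M e^{-κ} + C e^{-c y^(-α)}` (`trunc_tail`); `log_le_mean_arc`.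
-/

set_option autoImplicit false

open MeasureTheory Complex Filter Topology Set
open scoped ENNReal Real

namespace MP_9d6c91_an

private theorem supera_ee (θ : ℝ) : (ee (θ : ℂ)).re = Real.cos θ ∧ (ee (θ : ℂ)).im = Real.sin θ := by
  unfold ee
  rw [mul_comm]
  exact ⟨Complex.exp_ofReal_mul_I_re θ, Complex.exp_ofReal_mul_I_im θ⟩

private theorem supera_ev (N : ℕ) (g : ℕ → ℂ) (z : ℂ) :
    ev (tr N g) z = ∑ n ∈ Finset.range (N + 1), g n * z ^ n := by
  unfold ev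
  rw [tsum_eq_sum (s := Finset.range (N + 1))]
  · apply Finset.sum_congr rfl
    intro n hn
    have : n ≤ N := Nat.lt_succ_iff.1 (Finset.mem_range.1 hn)
    rw [tr, if_pos this]
  · intro n hn
    have : ¬ n ≤ N := fun h => hn (Finset.mem_range.2 (Nat.lt_succ_iff.2 h))
    rw [tr, if_neg this, zero_mul]

private theorem supera_sin {θ : ℝ} (h1 : π / 3 ≤ θ) (h2 : θ ≤ 2 * π / 3) : 3 / 4 ≤ Real.sin θ := by
  have hpi := Real.pi_pos
  have h3 : Real.sin θ = Real.cos |θ - π / 2| := by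
    rw [Real.cos_abs, Real.cos_sub_pi_div_two]
  have h4 : |θ - π / 2| ≤ π / 6 := by
    rw [abs_le]
    constructor <;> linarith
  have h5 : Real.cos (π / 6) ≤ Real.cos |θ - π / 2| :=
    Real.cos_le_cos_of_nonneg_of_le_pi (abs_nonneg _) (by linarith) h4
  rw [Real.cos_pi_div_six] at h5
  have h6 : (3 / 2 : ℝ) ≤ Real.sqrt 3 := by
    apply Real.le_sqrt_of_sq_le
    norm_num
  rw [h3]
  linarith

theorem propag {α A δ M : ℝ} (hα : 0 < α) (hδ : 0 < δ) {g : ℕ → ℂ} (hg : GvC (α / (1 + α)) A δ g)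
    (hM0 : 0 < M) :
    ∃ C c : ℝ, 1 ≤ C ∧ 0 < c ∧ ∀ t y κ : ℝ, 0 < y → y ≤ 1 / 4 → 0 ≤ κ →
      (∀ w : ℂ, |w.re - t| ≤ 2 * y → y / 2 ≤ w.im → w.im ≤ 2 * y →
        ‖ev g (ee w)‖ ≤ M * Real.exp (-κ)) →
      ∀ y₁ : ℝ, 0 ≤ y₁ → y₁ ≤ y →
        ‖ev (tr (NN α δ y) g) (ee (Complex.mk t (-y₁)))‖ ≤
          C * (Real.exp (-c * κ) + Real.exp (-c * y ^ (-α))) := by
  obtain ⟨C₁, hC₁, hup⟩ := trunc_upper hα hδ hg
  obtain ⟨C₂, c₂, hC₂, hc₂, htail⟩ := trunc_tail hα hδ hg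
  set C : ℝ := C₁ + M + C₂ with hCdef
  refine ⟨C, min (1 / 6) (c₂ / 6), by linarith, lt_min (by norm_num) (by positivity), ?_⟩
  intro t y κ hy hy4 hκ hbd y₁ hy₁ hy₁y
  set c : ℝ := min (1 / 6) (c₂ / 6) with hc
  set N := NN α δ y with hN
  set H : ℂ → ℂ := fun w => ev (tr N g) (ee w) with hH
  have hC0 : 0 < C := by linarith
  have hHd : Differentiable ℂ H := by
    have e : H = fun w => ∑ n ∈ Finset.range (N + 1), g n * (ee w) ^ n := by
      funext w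
      exact supera_ev N g (ee w)
    rw [e]
    have := differentiable_ee
    fun_prop
  have hyα : 0 < y ^ (-α) := Real.rpow_pos_of_pos hy _
  set m : ℝ := M * Real.exp (-κ) + C₂ * Real.exp (-c₂ * y ^ (-α)) with hm
  have hm0 : 0 < m := by
    have := Real.exp_pos (-κ)
    have := Real.exp_pos (-c₂ * y ^ (-α))
    positivity
  have he1 : Real.exp (-κ) ≤ 1 := Real.exp_le_one_iff.2 (by linarith)
  have he2 : Real.exp (-c₂ * y ^ (-α)) ≤ 1 := Real.exp_le_one_iff.2 (by nlinarith)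
  have hmC : m ≤ C := by
    have h1 : M * Real.exp (-κ) ≤ M := mul_le_of_le_one_right hM0.le he1
    have h2 : C₂ * Real.exp (-c₂ * y ^ (-α)) ≤ C₂ := mul_le_of_le_one_right (by linarith) he2
    linarith
  set w₀ : ℂ := Complex.mk t (-y₁) with hw₀
  have h2y : 0 < 2 * y := by linarith
  have hCs : ∀ w ∈ Metric.sphere w₀ (2 * y), ‖H w‖ ≤ C := by
    intro w hw
    have h1 : ‖H w‖ ≤ C₁ := by
      apply hup y hy (by linarith) w
      have h3 : |(w - w₀).im| ≤ ‖w - w₀‖ := Complex.abs_im_le_norm _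
      have h4 : ‖w - w₀‖ = 2 * y := by simpa [mem_sphere_iff_norm] using hw
      have h5 : |w.im + y₁| ≤ 2 * y := by
        have : (w - w₀).im = w.im + y₁ := by simp [hw₀]
        rw [this, h4] at h3
        exact h3
      rw [abs_le] at h5 ⊢
      constructor <;> linarith [h5.1, h5.2]
    linarith
  have hms : ∀ θ : ℝ, π / 3 ≤ θ → θ ≤ 2 * π / 3 → ‖H (w₀ + (2 * y : ℝ) * ee (θ : ℂ))‖ ≤ m := by
    intro θ h1 h2
    set w : ℂ := w₀ + (2 * y : ℝ) * ee (θ : ℂ) with hw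
    have hre : w.re = t + 2 * y * Real.cos θ := by
      rw [hw]
      simp [hw₀, (supera_ee θ).1, (supera_ee θ).2]
    have him : w.im = -y₁ + 2 * y * Real.sin θ := by
      rw [hw]
      simp [hw₀, (supera_ee θ).1, (supera_ee θ).2]
    have hs := supera_sin h1 h2
    have hs1 := Real.sin_le_one θ
    have hw1 : |w.re - t| ≤ 2 * y := by
      rw [hre, add_sub_cancel_left, abs_mul, abs_of_pos h2y]
      exact mul_le_of_le_one_right h2y.le (Real.abs_cos_le_one θ)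
    have hw2 : y / 2 ≤ w.im := by
      rw [him]
      nlinarith
    have hw3 : w.im ≤ 2 * y := by
      rw [him]
      nlinarith
    have hb := hbd w hw1 hw2 hw3
    have ht := htail y hy (by linarith) w (by linarith)
    have : H w = ev g (ee w) - (ev g (ee w) - ev (tr N g) (ee w)) := by
      rw [hH]; ring
    rw [this]
    refine (norm_sub_le _ _).trans ?_
    rw [hm]
    exact add_le_add hb ht
  have key := log_le_mean_arc h2y isOpen_univ (subset_univ _) hHd.differentiableOn hm0 hmC hCs hms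
  refine key.trans ?_
  have hm6 : m ^ (1 / 6 : ℝ) ≤ (C * Real.exp (-κ)) ^ (1 / 6 : ℝ) + (C * Real.exp (-c₂ * y ^ (-α))) ^ (1 / 6 : ℝ) := by
    have hp1 := Real.exp_pos (-κ)
    have hp2 := Real.exp_pos (-c₂ * y ^ (-α))
    calc m ^ (1 / 6 : ℝ) ≤ (C * Real.exp (-κ) + C * Real.exp (-c₂ * y ^ (-α))) ^ (1 / 6 : ℝ) := by
          apply Real.rpow_le_rpow hm0.le _ (by norm_num)
          rw [hm]
          apply add_le_add
          · exact mul_le_mul_of_nonneg_right (by linarith) hp1.le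
          · exact mul_le_mul_of_nonneg_right (by linarith) hp2.le
      _ ≤ _ := Real.rpow_add_le_add_rpow (by positivity) (by positivity) (by norm_num) (by norm_num)
  have hexp : ∀ x : ℝ, (C * Real.exp (-x)) ^ (1 / 6 : ℝ) = C ^ (1 / 6 : ℝ) * Real.exp (-(x / 6)) := by
    intro x
    rw [Real.mul_rpow hC0.le (Real.exp_pos _).le, ← Real.exp_mul]
    congr 2
    ring
  have hexp1 := hexp κ
  have hexp2 := hexp (c₂ * y ^ (-α))
  rw [← neg_mul] at hexp2
  rw [hexp1, hexp2] at hm6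
  have hq1 : Real.exp (-(κ / 6)) ≤ Real.exp (-c * κ) := by
    apply Real.exp_le_exp.2
    have : c ≤ 1 / 6 := min_le_left _ _
    nlinarith
  have hq2 : Real.exp (-(c₂ * y ^ (-α) / 6)) ≤ Real.exp (-c * y ^ (-α)) := by
    apply Real.exp_le_exp.2
    have : c ≤ c₂ / 6 := min_le_right _ _
    nlinarith
  have hCp : 0 < C ^ (1 / 6 : ℝ) := Real.rpow_pos_of_pos hC0 _
  have hCp5 : 0 < C ^ (5 / 6 : ℝ) := Real.rpow_pos_of_pos hC0 _
  have hCC : C ^ (5 / 6 : ℝ) * C ^ (1 / 6 : ℝ) = C := by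
    rw [← Real.rpow_add hC0]
    norm_num
  calc C ^ (5 / 6 : ℝ) * m ^ (1 / 6 : ℝ)
      ≤ C ^ (5 / 6 : ℝ) * (C ^ (1 / 6 : ℝ) * Real.exp (-(κ / 6)) +
          C ^ (1 / 6 : ℝ) * Real.exp (-(c₂ * y ^ (-α) / 6))) := mul_le_mul_of_nonneg_left hm6 hCp5.le
    _ = (C ^ (5 / 6 : ℝ) * C ^ (1 / 6 : ℝ)) * (Real.exp (-(κ / 6)) + Real.exp (-(c₂ * y ^ (-α) / 6))) := by ring
    _ = C * (Real.exp (-(κ / 6)) + Real.exp (-(c₂ * y ^ (-α) / 6))) := by rw [hCC]
    _ ≤ C * (Real.exp (-c * κ) + Real.exp (-c * y ^ (-α))) :=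
        mul_le_mul_of_nonneg_left (add_le_add hq1 hq2) hC0.le

end MP_9d6c91_an
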