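import Pool.Agent.Lib.MP_9d6c91_an.OutB

/-!
# JOB ZERO : bounded Cauchy transform implies `b = 0`

For `1 < R ≤ 2`: `(1/2π) ∫ Φ(R e^{it}) e^{i(n+1)t} dt = b_n R^(-n-1)` (term by term integration of `outF`).
For `0 < r < 1`: `∫ Φ(r e^{it}) e^{i(n+1)t} dt = 0` (Cauchy / mean value property of `z^(n+1) Φ(z)` at `0`).
For a.e. `t` (`t ∉ E`) `Φ` is continuous at `e^{it}`; `‖Φ‖ ≤ C`, dominated convergence for `R → 1+` and `r → 1-`: both limits are
`∫ Φ(e^{it}) e^{i(n+1)t} dt`, so `b_n = 0`.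
-/

set_option autoImplicit false

open MeasureTheory Complex Filter Topology Set
open scoped ENNReal Real

namespace MP_9d6c91_an

private theorem zero_ee_cont : Continuous (fun t : ℝ => ee (t : ℂ)) :=
  differentiable_ee.continuous.comp Complex.continuous_ofReal

/-- orthogonality -/
private theorem zero_int_pow (k : ℤ) (hk : k ≠ 0) :
    ∫ t in (0 : ℝ)..(2 * π), (ee (t : ℂ)) ^ k = 0 := by
  have h1 : ∀ t : ℝ, (ee (t : ℂ)) ^ k = Complex.exp ((k * I) * t) := by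
    intro t
    unfold ee
    rw [← Complex.exp_int_mul]
    congr 1
    ring
  simp_rw [h1]
  have hc : ((k : ℂ) * I) ≠ 0 := by
    simp [hk]
  rw [integral_exp_mul_complex hc]
  have h2 : Complex.exp ((k : ℂ) * I * ((2 * π : ℝ) : ℂ)) = 1 := by
    have := Complex.exp_int_mul_two_pi_mul_I k
    rw [← this]
    congr 1
    push_cast
    ring
  rw [h2]
  simp

private theorem zero_outside {α : ℝ} (hα : 0 < α) {b : ℕ → ℂ} (hb : Gd (α / (1 + α)) b) (n : ℕ) {R : ℝ}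
    (hR : 1 < R) :
    ∫ t in (0 : ℝ)..(2 * π), outF b (R * ee (t : ℂ)) * (ee (t : ℂ)) ^ (n + 1)
      = 2 * π * (b n * ((R : ℂ)⁻¹) ^ (n + 1)) := by
  have hR0 : (0 : ℝ) < R := by linarith
  have hRC : (R : ℂ) ≠ 0 := by exact_mod_cast hR0.ne'
  have hRn : ‖(R : ℂ)‖ = R := by
    rw [Complex.norm_real, Real.norm_of_nonneg hR0.le]
  have hsum : Summable fun m => ‖b m * (((R : ℂ))⁻¹) ^ (m + 1)‖ :=
    summable_outF hα hb (z := (R : ℂ)) (by rw [hRn]; exact hR)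
  let f : ℕ → C(ℝ, ℂ) := fun m =>
    ⟨fun t : ℝ => (b m * ((R * ee (t : ℂ))⁻¹) ^ (m + 1)) * (ee (t : ℂ)) ^ (n + 1), by
      have hc := zero_ee_cont
      have hne : ∀ t : ℝ, (R : ℂ) * ee (t : ℂ) ≠ 0 := fun t => mul_ne_zero hRC (ee_ne_zero _)
      refine Continuous.mul (Continuous.mul continuous_const ?_) (hc.pow _)
      exact ((continuous_const.mul hc).inv₀ hne).pow _⟩
  have hfn : ∀ m t, ‖f m t‖ = ‖b m * (((R : ℂ))⁻¹) ^ (m + 1)‖ := by
    intro m t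
    show ‖(b m * ((R * ee (t : ℂ))⁻¹) ^ (m + 1)) * (ee (t : ℂ)) ^ (n + 1)‖ = _
    rw [norm_mul, norm_mul, norm_pow, norm_inv, norm_mul, norm_pow, norm_ee_real, one_pow, mul_one, mul_one,
      norm_mul, norm_pow, norm_inv]
  have hfs : Summable fun i =>
      ‖(f i).restrict (⟨uIcc (0 : ℝ) (2 * π), isCompact_uIcc⟩ : TopologicalSpace.Compacts ℝ)‖ := by
    refine Summable.of_nonneg_of_le (fun _ => norm_nonneg _) (fun m => ?_) hsum
    rw [ContinuousMap.norm_le _ (norm_nonneg _)]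
    intro x
    have := hfn m x
    exact le_of_eq this
  have hmain := intervalIntegral.hasSum_intervalIntegral_of_summable_norm hfs
  have h1 : ∀ t : ℝ, ∑' i, f i t = outF b (R * ee (t : ℂ)) * (ee (t : ℂ)) ^ (n + 1) := by
    intro t
    unfold outF
    rw [← tsum_mul_right]
    rfl
  simp_rw [h1] at hmain
  have h2 : ∀ m : ℕ, m ≠ n → ∫ t in (0 : ℝ)..(2 * π), f m t = 0 := by
    intro m hm
    have h3 : ∀ t : ℝ, f m t = (b m * (((R : ℂ))⁻¹) ^ (m + 1)) * (ee (t : ℂ)) ^ ((n : ℤ) - m) := by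
      intro t
      show (b m * ((R * ee (t : ℂ))⁻¹) ^ (m + 1)) * (ee (t : ℂ)) ^ (n + 1) = _
      rw [mul_inv, mul_pow]
      have h4 : ((ee (t : ℂ))⁻¹) ^ (m + 1) * (ee (t : ℂ)) ^ (n + 1) = (ee (t : ℂ)) ^ ((n : ℤ) - m) := by
        rw [← zpow_natCast, ← zpow_natCast, inv_zpow', ← zpow_add₀ (ee_ne_zero _)]
        congr 1
        push_cast
        ring
      rw [← h4]
      ring
    simp_rw [h3]
    rw [intervalIntegral.integral_const_mul, zero_int_pow _ (by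
      intro h
      apply hm
      omega), mul_zero]
  have h5 : ∫ t in (0 : ℝ)..(2 * π), f n t = 2 * π * (b n * ((R : ℂ)⁻¹) ^ (n + 1)) := by
    have h3 : ∀ t : ℝ, f n t = (b n * (((R : ℂ))⁻¹) ^ (n + 1)) := by
      intro t
      show (b n * ((R * ee (t : ℂ))⁻¹) ^ (n + 1)) * (ee (t : ℂ)) ^ (n + 1) = _
      rw [mul_inv, mul_pow]
      have h4 : ((ee (t : ℂ))⁻¹) ^ (n + 1) * (ee (t : ℂ)) ^ (n + 1) = 1 := by
        rw [← mul_pow, inv_mul_cancel₀ (ee_ne_zero _), one_pow]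
      calc _ = (b n * (((R : ℂ))⁻¹) ^ (n + 1)) * (((ee (t : ℂ))⁻¹) ^ (n + 1) * (ee (t : ℂ)) ^ (n + 1)) := by ring
        _ = _ := by rw [h4, mul_one]
    simp_rw [h3]
    rw [intervalIntegral.integral_const]
    simp
  have h6 : ∑' m, ∫ t in (0 : ℝ)..(2 * π), f m t = ∫ t in (0 : ℝ)..(2 * π), f n t :=
    tsum_eq_single n (fun m hm => h2 m hm)
  rw [← hmain.tsum_eq, h6, h5]

private theorem zero_inside {E : Set ℝ}
    {Φ : ℂ → ℂ} (hd : DifferentiableOn ℂ Φ (EE E)ᶜ) (n : ℕ) {r : ℝ} (hr0 : 0 < r) (hr : r < 1) :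
    ∫ t in (0 : ℝ)..(2 * π), Φ (r * ee (t : ℂ)) * (ee (t : ℂ)) ^ (n + 1) = 0 := by
  have hsub : Metric.closedBall (0 : ℂ) r ⊆ (EE E)ᶜ := by
    intro z hz hzE
    have h1 := norm_of_mem_EE hzE
    have h2 : ‖z‖ ≤ r := by simpa using hz
    linarith
  have hdiff : DifferentiableOn ℂ (fun z => z ^ n * Φ z) (Metric.closedBall (0 : ℂ) r) :=
    (differentiable_pow n).differentiableOn.mul (hd.mono hsub)
  have hdc : DiffContOnCl ℂ (fun z => z ^ n * Φ z) (Metric.ball (0 : ℂ) r) := by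
    apply DifferentiableOn.diffContOnCl
    rw [closure_ball _ hr0.ne']
    exact hdiff
  have h0 := hdc.circleIntegral_eq_zero hr0.le
  unfold circleIntegral at h0
  have h1 : ∀ θ : ℝ, deriv (circleMap 0 r) θ • ((fun z => z ^ n * Φ z) (circleMap 0 r θ))
      = (I * (r : ℂ) ^ (n + 1)) * (Φ (r * ee (θ : ℂ)) * (ee (θ : ℂ)) ^ (n + 1)) := by
    intro θ
    have h2 : circleMap 0 r θ = r * ee (θ : ℂ) := by
      unfold circleMap ee
      rw [zero_add, mul_comm (θ : ℂ) I]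
    rw [deriv_circleMap, h2, smul_eq_mul]
    simp only
    ring
  simp_rw [h1] at h0
  rw [intervalIntegral.integral_const_mul] at h0
  have h3 : (I * (r : ℂ) ^ (n + 1)) ≠ 0 :=
    mul_ne_zero I_ne_zero (pow_ne_zero _ (by exact_mod_cast hr0.ne'))
  exact (mul_eq_zero.mp h0).resolve_left h3

private theorem zero_tendsto {E : Set ℝ} (hE : GE E)
    {Φ : ℂ → ℂ} (hd : DifferentiableOn ℂ Φ (EE E)ᶜ) {C : ℝ}
    (hC : ∀ z : ℂ, z ∉ EE E → ‖z‖ ≤ 2 → ‖Φ z‖ ≤ C) (n : ℕ) (l : Filter ℝ) [l.IsCountablyGenerated]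
    (hl : l ≤ 𝓝 1) (hl1 : ∀ᶠ r in l, r ≠ 1) :
    Tendsto (fun r : ℝ => ∫ t in (0 : ℝ)..(2 * π), Φ (r * ee (t : ℂ)) * (ee (t : ℂ)) ^ (n + 1)) l
      (𝓝 (∫ t in (0 : ℝ)..(2 * π), Φ ((1 : ℝ) * ee (t : ℂ)) * (ee (t : ℂ)) ^ (n + 1))) := by
  have hmem : ∀ᶠ r in l, r ≠ 1 ∧ 0 < r ∧ r < 2 := by
    have h1 : ∀ᶠ r in l, 0 < r ∧ r < 2 := by
      apply hl
      exact (lt_mem_nhds (by norm_num : (0 : ℝ) < 1)).and (gt_mem_nhds (by norm_num : (1 : ℝ) < 2))
    filter_upwards [hl1, h1] with r h2 h3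
    exact ⟨h2, h3⟩
  have hnorm : ∀ (r : ℝ), 0 < r → ∀ t : ℝ, ‖(r : ℂ) * ee (t : ℂ)‖ = r := by
    intro r hr t
    rw [norm_mul, norm_ee_real, mul_one, Complex.norm_real, Real.norm_of_nonneg hr.le]
  refine intervalIntegral.tendsto_integral_filter_of_dominated_convergence (fun _ => C) ?_ ?_ ?_ ?_
  · filter_upwards [hmem] with r hr
    have hcont : Continuous fun t : ℝ => Φ (r * ee (t : ℂ)) * (ee (t : ℂ)) ^ (n + 1) := by
      refine Continuous.mul ?_ (zero_ee_cont.pow _)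
      have h1 : ∀ t : ℝ, (r : ℂ) * ee (t : ℂ) ∈ (EE E)ᶜ := by
        intro t ht
        have h2 := norm_of_mem_EE ht
        rw [hnorm r hr.2.1 t] at h2
        exact hr.1 h2
      exact hd.continuousOn.comp_continuous (continuous_const.mul zero_ee_cont) h1
    exact hcont.aestronglyMeasurable
  · filter_upwards [hmem] with r hr
    refine Eventually.of_forall fun t _ => ?_
    have h1 : (r : ℂ) * ee (t : ℂ) ∉ EE E := by
      intro ht
      have h2 := norm_of_mem_EE ht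
      rw [hnorm r hr.2.1 t] at h2
      exact hr.1 h2
    rw [norm_mul, norm_pow, norm_ee_real, one_pow, mul_one]
    exact hC _ h1 (by rw [hnorm r hr.2.1 t]; exact hr.2.2.le)
  · exact intervalIntegrable_const
  · have hnull : ∀ᵐ t : ℝ, t ∉ E := by
      rw [ae_iff]
      simpa using hE.null
    filter_upwards [hnull] with t ht _
    have h1 : ee (t : ℂ) ∉ EE E := by
      rw [ee_mem_EE_iff hE]
      exact ht
    have hopen : IsOpen (EE E)ᶜ := (isClosed_EE hE).isOpen_compl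
    have hca : ContinuousAt Φ (ee (t : ℂ)) :=
      (hd.differentiableAt (hopen.mem_nhds h1)).continuousAt
    have hca' : ContinuousAt Φ (((1 : ℝ) : ℂ) * ee (t : ℂ)) := by
      simpa using hca
    refine Tendsto.mul_const _ ?_
    refine hca'.tendsto.comp ?_
    refine Tendsto.mul_const _ ?_
    exact (Complex.continuous_ofReal.tendsto (1 : ℝ)).comp hl

theorem zero_of_bdd {α : ℝ} (hα : 0 < α) {b : ℕ → ℂ} (hb : Gd (α / (1 + α)) b) {E : Set ℝ} (hE : GE E)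
    {Φ : ℂ → ℂ} (hd : DifferentiableOn ℂ Φ (EE E)ᶜ) (hout : ∀ z : ℂ, 1 < ‖z‖ → Φ z = outF b z) {C : ℝ}
    (hC : ∀ z : ℂ, z ∉ EE E → ‖z‖ ≤ 2 → ‖Φ z‖ ≤ C) : b = 0 := by
  funext n
  have hR := zero_tendsto hE hd hC n (𝓝[>] 1) nhdsWithin_le_nhds
    (by filter_upwards [self_mem_nhdsWithin] with r hr using ne_of_gt hr)
  have hr := zero_tendsto hE hd hC n (𝓝[<] 1) nhdsWithin_le_nhds
    (by filter_upwards [self_mem_nhdsWithin] with r hr using ne_of_lt hr)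
  set L := ∫ t in (0 : ℝ)..(2 * π), Φ ((1 : ℝ) * ee (t : ℂ)) * (ee (t : ℂ)) ^ (n + 1) with hL
  have h1 : L = 0 := by
    have h2 : Tendsto (fun _ : ℝ => (0 : ℂ)) (𝓝[<] (1 : ℝ)) (𝓝 L) := by
      refine hr.congr' ?_
      have h3 : ∀ᶠ r : ℝ in 𝓝[<] 1, 0 < r :=
        nhdsWithin_le_nhds (lt_mem_nhds (by norm_num : (0 : ℝ) < 1))
      filter_upwards [self_mem_nhdsWithin, h3] with r hr1 hr0
      exact zero_inside hd n hr0 hr1
    exact (tendsto_nhds_unique h2 tendsto_const_nhds)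
  have h4 : L = 2 * π * b n := by
    have h2 : Tendsto (fun r : ℝ => 2 * (π : ℂ) * (b n * ((r : ℂ)⁻¹) ^ (n + 1))) (𝓝[>] (1 : ℝ)) (𝓝 L) := by
      refine hR.congr' ?_
      filter_upwards [self_mem_nhdsWithin] with r hr1
      have hr1' : (1 : ℝ) < r := hr1
      rw [← zero_outside hα hb n hr1']
      refine intervalIntegral.integral_congr fun t _ => ?_
      rw [hout]
      rw [norm_mul, norm_ee_real, mul_one, Complex.norm_real, Real.norm_of_nonneg (by linarith)]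
      exact hr1'
    have h3 : Tendsto (fun r : ℝ => 2 * (π : ℂ) * (b n * ((r : ℂ)⁻¹) ^ (n + 1))) (𝓝[>] (1 : ℝ))
        (𝓝 (2 * (π : ℂ) * (b n * (((1 : ℝ) : ℂ)⁻¹) ^ (n + 1)))) := by
      refine Tendsto.const_mul _ (Tendsto.const_mul _ (Tendsto.pow ?_ _))
      refine Tendsto.inv₀ ?_ (by simp)
      exact (Complex.continuous_ofReal.tendsto (1 : ℝ)).mono_left nhdsWithin_le_nhds
    have h5 := tendsto_nhds_unique h2 h3
    rw [h5]
    simp
  have h6 : 2 * (π : ℂ) * b n = 0 := by rw [← h4, h1]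
  have h7 : (2 * (π : ℂ)) ≠ 0 := by
    simp [Real.pi_ne_zero]
  simpa using (mul_eq_zero.mp h6).resolve_left h7

end MP_9d6c91_an
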