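import Pool.Agent.Lib.MP_9d6c91_an.PL
import Pool.Agent.Lib.MP_9d6c91_an.OutG
import Pool.Agent.Lib.MP_9d6c91_an.Apri
import Pool.Agent.Lib.MP_9d6c91_an.Last
import Pool.Agent.Lib.MP_9d6c91_an.Zero

/-!
# JOB THMM : assembly of Theorem M
-/

set_option autoImplicit false

open MeasureTheory Complex Filter Topology Set
open scoped ENNReal Real

namespace MP_9d6c91_an

/-- from a bound near the circle to a bound on `‖z‖ ≤ 2` -/
private theorem thmM_bdd {α : ℝ} {E : Set ℝ} (hE : GE E) {Φ : ℂ → ℂ} (hΦ : PhiD α E Φ) {K : ℝ} (hK0 : 0 ≤ K)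
    (hK : ∀ t y : ℝ, t ∉ E → 0 ≤ y → y ≤ 1 → LL Φ (Complex.mk t (-y)) ≤ K) :
    ∀ z : ℂ, z ∉ EE E → ‖z‖ ≤ 2 → ‖Φ z‖ ≤ Real.exp K := by
  have key : ∀ x : ℝ, Real.posLog x ≤ K → 0 ≤ x → x ≤ Real.exp K := by
    intro x hx hx0
    rcases hx0.eq_or_lt with h | h
    · rw [← h]; exact (Real.exp_pos K).le
    · have : Real.log x ≤ K := le_trans (by simp [Real.posLog]) hx
      calc x = Real.exp (Real.log x) := (Real.exp_log h).symm
        _ ≤ Real.exp K := Real.exp_le_exp.mpr this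
  have hae : ∀ᵐ t : ℝ, t ∉ E := by
    rw [ae_iff]; simpa using hE.null
  have hXK : ∀ᵐ t : ℝ, LL Φ (t : ℂ) ≤ K := by
    filter_upwards [hae] with t ht
    have := hK t 0 ht le_rfl zero_le_one
    have h2 : Complex.mk t (-0) = (t : ℂ) := by apply Complex.ext <;> simp
    rwa [h2] at this
  -- inside
  have hin : ∀ w : ℂ, 0 < w.im → ‖Φ (ee w)‖ ≤ Real.exp K := by
    intro w hw
    apply key _ _ (norm_nonneg _)
    have h1 := hΦ.pl w hw
    have h2 : PI (fun t : ℝ => LL Φ (t : ℂ)) (ee w) ≤ K := by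
      calc PI (fun t : ℝ => LL Φ (t : ℂ)) (ee w) ≤ PI (fun _ => K) (ee w) :=
            PI_mono_ae hΦ.px (PX.const hK0) hXK (ee_mem_ball hw)
        _ = K := PI_const K (ee_mem_ball hw)
    exact le_trans h1 h2
  -- outside, off the rays over E
  have hout1 : ∀ t y : ℝ, t ∉ E → 0 ≤ y → y ≤ 1 → ‖Φ (ee (Complex.mk t (-y)))‖ ≤ Real.exp K := by
    intro t y ht h0 h1
    exact key _ (hK t y ht h0 h1) (norm_nonneg _)
  -- outside
  have hdense : Dense Eᶜ := by
    rw [← interior_eq_empty_iff_dense_compl]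
    by_contra h
    have hne : (interior E).Nonempty := nonempty_iff_ne_empty.mpr h
    have := isOpen_interior.measure_pos volume hne
    have h0 : volume (interior E) = 0 := measure_mono_null interior_subset hE.null
    exact absurd h0 this.ne'
  have hout2 : ∀ t y : ℝ, 0 < y → y ≤ 1 → ‖Φ (ee (Complex.mk t (-y)))‖ ≤ Real.exp K := by
    intro t y h0 h1
    have hcont : Continuous fun s : ℝ => Φ (ee (Complex.mk s (-y))) := by
      have hc : ContinuousOn Φ (EE E)ᶜ := hΦ.dif.continuousOn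
      have hmk : Continuous fun s : ℝ => ee (Complex.mk s (-y)) := by
        have : (fun s : ℝ => ee (Complex.mk s (-y))) = fun s : ℝ => ee ((s : ℂ) + Complex.mk 0 (-y)) := by
          funext s; congr 1; apply Complex.ext <;> simp
        rw [this]
        exact differentiable_ee.continuous.comp (Complex.continuous_ofReal.add continuous_const)
      refine hc.comp_continuous hmk (fun s => ?_)
      exact ee_notMem_EE hE (Or.inl (by simp; exact h0.ne'))
    have hcl : IsClosed {s : ℝ | ‖Φ (ee (Complex.mk s (-y)))‖ ≤ Real.exp K} :=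
      isClosed_le hcont.norm continuous_const
    have hsub : Eᶜ ⊆ {s : ℝ | ‖Φ (ee (Complex.mk s (-y)))‖ ≤ Real.exp K} :=
      fun s hs => hout1 s y hs h0.le h1
    have : closure Eᶜ ⊆ {s : ℝ | ‖Φ (ee (Complex.mk s (-y)))‖ ≤ Real.exp K} := hcl.closure_subset_iff.mpr hsub
    exact this (hdense t)
  intro z hz hz2
  by_cases hz0 : z = 0
  · -- continuity at 0
    subst hz0
    have hc : ContinuousAt Φ 0 := by
      have : DifferentiableAt ℂ Φ 0 :=
        (hΦ.dif 0 hz).differentiableAt ((isClosed_EE hE).isOpen_compl.mem_nhds hz)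
      exact this.continuousAt
    have hev : ∀ᶠ z : ℂ in 𝓝[≠] 0, ‖Φ z‖ ≤ Real.exp K := by
      have hb : Metric.ball (0 : ℂ) 1 ∈ 𝓝 (0 : ℂ) := Metric.ball_mem_nhds _ one_pos
      filter_upwards [self_mem_nhdsWithin, mem_nhdsWithin_of_mem_nhds hb] with z hz hzb
      obtain ⟨w, hw, _, _, hwim⟩ := exists_ee (z := z) hz
      rw [← hw]
      apply hin
      rw [hwim]
      have hz1 : ‖z‖ < 1 := by simpa using hzb
      have : Real.log ‖z‖ < 0 := Real.log_neg (norm_pos_iff.mpr hz) hz1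
      linarith
    exact le_of_tendsto ((hc.tendsto.mono_left nhdsWithin_le_nhds).norm) hev
  · obtain ⟨w, hw, _, _, hwim⟩ := exists_ee hz0
    rcases lt_trichotomy ‖z‖ 1 with h | h | h
    · rw [← hw]
      apply hin
      rw [hwim]
      have : Real.log ‖z‖ < 0 := Real.log_neg (norm_pos_iff.mpr hz0) h
      linarith
    · have him : w.im = 0 := by rw [hwim, h]; simp
      have hwr : w = (w.re : ℂ) := by apply Complex.ext <;> simp [him]
      have hre : w.re ∉ E := by
        intro hmem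
        apply hz
        rw [← hw, hwr]
        exact (ee_mem_EE_iff hE w.re).mpr hmem
      have := hout1 w.re 0 hre le_rfl zero_le_one
      have h2 : Complex.mk w.re (-0) = w := by apply Complex.ext <;> simp [him]
      rw [h2, hw] at this
      exact this
    · have hpos : 0 < Real.log ‖z‖ := Real.log_pos h
      have hle : Real.log ‖z‖ ≤ 1 := by
        calc Real.log ‖z‖ ≤ Real.log 2 := Real.log_le_log (by linarith) hz2
          _ ≤ 1 := by linarith [Real.log_two_lt_d9]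
      have := hout2 w.re (Real.log ‖z‖) hpos hle
      have h2 : Complex.mk w.re (-Real.log ‖z‖) = w := by apply Complex.ext <;> simp [hwim]
      rw [h2, hw] at this
      exact this

theorem thmM {α : ℝ} (hα : 0 < α) (hα1 : α < 1) {g c : ℕ → ℂ} (hg : Gv (α / (1 + α)) g) (hg0 : g ≠ 0)
    (hc : Gd (α / (1 + α)) c) {E : Set ℝ} (hE : GE E) (hflat : Flat E g)
    (H1 : ∀ z : ℂ, ‖z‖ ≤ 1 → z ∉ EE E → ∃ a, InK (α / (1 + α)) (act g c) a ∧ ev a z ≠ 0)
    (H2 : ∀ ε : ℝ, 0 < ε → ∃ a, InK (α / (1 + α)) (act g c) a ∧ ∑' n, ‖a n - one1 n‖ ^ 2 < ε) :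
    act g c = 0 := by
  have hβ : 0 < α / (1 + α) := by positivity
  have hβ1 : α / (1 + α) ≤ 1 := by rw [div_le_one (by positivity)]; linarith
  have hb : Gd (α / (1 + α)) (act g c) := Gd_act hβ hβ1 hg hc
  obtain ⟨Φ, hd, hz, hout, hin⟩ := glue hα hb hE H1
  by_cases hne : E.Nonempty
  swap
  · -- `E = ∅`
    have hEe : E = ∅ := Set.not_nonempty_iff_eq_empty.mp hne
    have hEE : EE E = ∅ := by simp [EE, hEe]
    have hdiff : DifferentiableOn ℂ Φ Set.univ := by simpa [hEE] using hd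
    obtain ⟨C, hC⟩ := (isCompact_closedBall (0 : ℂ) 2).exists_bound_of_continuousOn
      (hdiff.continuousOn.mono (Set.subset_univ _))
    exact zero_of_bdd hα hb hE hd hout (C := C) (fun z _ hz2 => hC z (by simpa using hz2))
  -- main case
  have hsum : Summable fun n => ‖g n‖ := Gv.summable_norm hβ hg
  have hΦ : PhiD α E Φ := phiD_of_glue hα hb hE H1 H2 hd hz hout hin
  obtain ⟨M, hM0, hM⟩ : ∃ M : ℝ, 0 < M ∧ ∀ z : ℂ, ‖z‖ ≤ 1 → ‖ev g z‖ ≤ M := by
    refine ⟨(∑' n, ‖g n‖) + 1, ?_, fun z hz => ?_⟩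
    · have : 0 ≤ ∑' n, ‖g n‖ := tsum_nonneg (fun n => norm_nonneg _)
      linarith
    · have := norm_ev_le hsum hz
      linarith
  obtain ⟨hu, hae, -⟩ := pj hsum hg0 hM0 hM
  obtain ⟨C₁, hC₁, hsup⟩ := super hα hα1 hg hg0 hM0 hM hE hne hflat
  have haeE : ∀ᵐ t : ℝ, t ∉ E := by
    rw [ae_iff]; simpa using hE.null
  have hW : ∀ᵐ t : ℝ, WW α (α / (1 + α)) E (uu M g) t ≤ C₁ * (uu M g t + 1) := by
    filter_upwards [hae, haeE] with t h1 h2 using hsup t h2 h1
  have hap := apriori hα hα1 hE hne hΦ hu hC₁ hW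
  have hlast := last_step hα hα1 hE hne hΦ hu hC₁ hW hap (fun η hη => by
    obtain ⟨C, hC0, hC⟩ := outG hα hα1 hg hg0 hc hM0 hM hE hne hflat η hη
    refine ⟨C, hC0, fun t y ht hy hy1 hη' => ?_⟩
    have h1 := hC t y ht hy hy1 hη'
    have h2 : 1 < ‖ee (Complex.mk t (-y))‖ := by
      rw [norm_ee]; simp [hy]
    rw [LL, hout _ h2]
    exact h1)
  obtain ⟨K, hK0, hK⟩ := hlast
  exact zero_of_bdd hα hb hE hd hout (C := Real.exp K) (thmM_bdd hE hΦ hK0 hK)

end MP_9d6c91_an
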