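import Pool.Agent.Lib.MP_9d6c91_an.OutB

/-!
# JOB TRUNCA : truncated power series near the circle

`β = α/(1+α)`, `(1+α)(1-β) = 1`, `(1+α) β = α`, `N = NN α δ y = ⌊(δ/(16 y))^(1+α)⌋`.
* `n ≤ N` : `n^(1-β) ≤ δ/(16 y)`, so `4 y n = 4 y n^(1-β) n^β ≤ (δ/4) n^β` : the terms of the truncation are
  `≤ A exp (-(3δ/4) n^β)` on `|Im w| ≤ 4 y` (`trunc_upper`).
* `n > N` : `n ≥ (δ/(16y))^(1+α)`, `n^β ≥ (δ/16)^α y^(-α)`, so `|g_n| ≤ A exp (-(δ/2) n^β) exp (-c y^(-α))` (`trunc_tail`).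
-/

set_option autoImplicit false

open MeasureTheory Complex Filter Topology Set
open scoped ENNReal Real

namespace MP_9d6c91_an

private theorem trunca_ev (N : ℕ) (g : ℕ → ℂ) (z : ℂ) :
    ev (tr N g) z = ∑ n ∈ Finset.range (N + 1), g n * z ^ n := by
  unfold ev
  rw [tsum_eq_sum (s := Finset.range (N + 1))]
  · apply Finset.sum_congr rfl
    intro n hn
    have : n ≤ N := Nat.lt_succ_iff.1 (Finset.mem_range.1 hn)
    rw [tr, if_pos this]
  · intro n hn
    have : ¬ n ≤ N := fun h => hn (Finset.mem_range.2 (Nat.lt_succ_iff.2 h))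
    rw [tr, if_neg this, zero_mul]

/-- the constant `A` is nonnegative -/
private theorem trunca_A {β A δ : ℝ} {g : ℕ → ℂ} (hβ : 0 < β) (hg : GvC β A δ g) : 0 ≤ A := by
  have h := hg 0
  simp only [Nat.cast_zero, Real.zero_rpow hβ.ne', mul_zero, Real.exp_zero, mul_one] at h
  exact (norm_nonneg _).trans h

/-- the linear term is controlled below the truncation degree -/
private theorem trunca_lin {α δ y : ℝ} (hα : 0 < α) (hδ : 0 < δ) (hy : 0 < y) {n : ℕ}
    (hn : n ≤ NN α δ y) : 4 * y * n ≤ δ / 4 * (n : ℝ) ^ (α / (1 + α)) := by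
  have h1α : 0 < 1 + α := by linarith
  rcases Nat.eq_zero_or_pos n with rfl | hpos
  · have : α / (1 + α) ≠ 0 := by positivity
    simp [Real.zero_rpow this]
  have hn0 : (0 : ℝ) < n := by exact_mod_cast hpos
  set β := α / (1 + α) with hβ
  have hx : 0 < δ / (16 * y) := by positivity
  have h1 : (n : ℝ) ≤ (δ / (16 * y)) ^ (1 + α) := by
    have h2 : (NN α δ y : ℝ) ≤ (δ / (16 * y)) ^ (1 + α) := Nat.floor_le (by positivity)
    have h3 : (n : ℝ) ≤ NN α δ y := by exact_mod_cast hn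
    linarith
  have hβ1 : 0 < 1 - β := by
    rw [hβ, sub_pos, div_lt_one h1α]
    linarith
  have h2 : (n : ℝ) ^ (1 - β) ≤ δ / (16 * y) := by
    calc (n : ℝ) ^ (1 - β) ≤ ((δ / (16 * y)) ^ (1 + α)) ^ (1 - β) := Real.rpow_le_rpow hn0.le h1 hβ1.le
      _ = (δ / (16 * y)) ^ ((1 + α) * (1 - β)) := by rw [← Real.rpow_mul hx.le]
      _ = δ / (16 * y) := by
          have : (1 + α) * (1 - β) = 1 := by
            rw [hβ]; field_simp; ring
          rw [this, Real.rpow_one]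
  have h3 : (n : ℝ) = (n : ℝ) ^ (1 - β) * (n : ℝ) ^ β := by
    rw [← Real.rpow_add hn0]
    simp
  have hnβ : 0 < (n : ℝ) ^ β := Real.rpow_pos_of_pos hn0 _
  calc 4 * y * n = 4 * y * ((n : ℝ) ^ (1 - β) * (n : ℝ) ^ β) := by rw [← h3]
    _ ≤ 4 * y * (δ / (16 * y) * (n : ℝ) ^ β) := by
        apply mul_le_mul_of_nonneg_left _ (by positivity)
        exact mul_le_mul_of_nonneg_right h2 hnβ.le
    _ = δ / 4 * (n : ℝ) ^ β := by field_simp; ring

/-- above the truncation degree -/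
private theorem trunca_big {α δ y : ℝ} (hα : 0 < α) (hδ : 0 < δ) (hy : 0 < y) {n : ℕ}
    (hn : ¬ n ≤ NN α δ y) : (δ / 16) ^ α * y ^ (-α) ≤ (n : ℝ) ^ (α / (1 + α)) := by
  have h1α : 0 < 1 + α := by linarith
  have hx : 0 < δ / (16 * y) := by positivity
  have h1 : (δ / (16 * y)) ^ (1 + α) ≤ (n : ℝ) := by
    have h2 : (δ / (16 * y)) ^ (1 + α) < (NN α δ y : ℝ) + 1 := Nat.lt_floor_add_one _
    have h3 : NN α δ y + 1 ≤ n := by omega
    have h4 : ((NN α δ y : ℝ) + 1) ≤ n := by exact_mod_cast h3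
    linarith
  calc (δ / 16) ^ α * y ^ (-α) = (δ / (16 * y)) ^ α := by
        have : δ / (16 * y) = (δ / 16) / y := by field_simp
        rw [this, Real.div_rpow (by positivity) hy.le, Real.rpow_neg hy.le,
          div_eq_mul_inv ((δ / 16) ^ α) (y ^ α)]
    _ = ((δ / (16 * y)) ^ (1 + α)) ^ (α / (1 + α)) := by
        rw [← Real.rpow_mul hx.le]
        congr 1
        field_simp
    _ ≤ (n : ℝ) ^ (α / (1 + α)) := Real.rpow_le_rpow (by positivity) h1 (by positivity)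

theorem trunc_upper {α A δ : ℝ} (hα : 0 < α) (hδ : 0 < δ) {g : ℕ → ℂ} (hg : GvC (α / (1 + α)) A δ g) :
    ∃ C : ℝ, 1 ≤ C ∧ ∀ y : ℝ, 0 < y → y ≤ 1 → ∀ w : ℂ, |w.im| ≤ 4 * y →
      ‖ev (tr (NN α δ y) g) (ee w)‖ ≤ C := by
  have hβ0 : 0 < α / (1 + α) := by positivity
  set β := α / (1 + α) with hβ
  have hA := trunca_A hβ0 hg
  have hsum := summable_exp_neg hβ0 (show 0 < 3 * δ / 4 by positivity)
  set S : ℝ := ∑' n : ℕ, Real.exp (-(3 * δ / 4) * (n : ℝ) ^ β) with hS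
  have hS0 : 0 ≤ S := tsum_nonneg (fun n => (Real.exp_pos _).le)
  refine ⟨A * S + 1, by nlinarith [mul_nonneg hA hS0], ?_⟩
  intro y hy _ w hw
  rw [trunca_ev]
  calc ‖∑ n ∈ Finset.range (NN α δ y + 1), g n * (ee w) ^ n‖
      ≤ ∑ n ∈ Finset.range (NN α δ y + 1), ‖g n * (ee w) ^ n‖ := norm_sum_le _ _
    _ ≤ ∑ n ∈ Finset.range (NN α δ y + 1), A * Real.exp (-(3 * δ / 4) * (n : ℝ) ^ β) := by
        apply Finset.sum_le_sum
        intro n hn
        have hn' : n ≤ NN α δ y := Nat.lt_succ_iff.1 (Finset.mem_range.1 hn)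
        have hlin := trunca_lin hα hδ hy hn'
        rw [norm_mul, norm_pow, norm_ee, ← Real.exp_nat_mul]
        have h1 : Real.exp ((n : ℝ) * -w.im) ≤ Real.exp (δ / 4 * (n : ℝ) ^ β) := by
          apply Real.exp_le_exp.2
          have h2 : -w.im ≤ 4 * y := (neg_le_abs _).trans hw
          have hn0 : (0 : ℝ) ≤ n := Nat.cast_nonneg n
          nlinarith
        calc ‖g n‖ * Real.exp ((n : ℝ) * -w.im)
            ≤ (A * Real.exp (-δ * (n : ℝ) ^ β)) * Real.exp (δ / 4 * (n : ℝ) ^ β) :=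
              mul_le_mul (hg n) h1 (Real.exp_pos _).le (by positivity)
          _ = A * Real.exp (-(3 * δ / 4) * (n : ℝ) ^ β) := by
              rw [mul_assoc, ← Real.exp_add]
              congr 2
              ring
    _ = A * ∑ n ∈ Finset.range (NN α δ y + 1), Real.exp (-(3 * δ / 4) * (n : ℝ) ^ β) := by
        rw [Finset.mul_sum]
    _ ≤ A * S := by
        apply mul_le_mul_of_nonneg_left _ hA
        exact hsum.sum_le_tsum _ (fun n _ => (Real.exp_pos _).le)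
    _ ≤ A * S + 1 := by linarith

theorem trunc_tail {α A δ : ℝ} (hα : 0 < α) (hδ : 0 < δ) {g : ℕ → ℂ} (hg : GvC (α / (1 + α)) A δ g) :
    ∃ C c : ℝ, 1 ≤ C ∧ 0 < c ∧ ∀ y : ℝ, 0 < y → y ≤ 1 → ∀ w : ℂ, 0 ≤ w.im →
      ‖ev g (ee w) - ev (tr (NN α δ y) g) (ee w)‖ ≤ C * Real.exp (-c * y ^ (-α)) := by
  have hβ0 : 0 < α / (1 + α) := by positivity
  set β := α / (1 + α) with hβ
  have hA := trunca_A hβ0 hg
  have hsum := summable_exp_neg hβ0 (show 0 < δ / 2 by positivity)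
  have hsum1 := summable_exp_neg hβ0 hδ
  set S : ℝ := ∑' n : ℕ, Real.exp (-(δ / 2) * (n : ℝ) ^ β) with hS
  have hS0 : 0 ≤ S := tsum_nonneg (fun n => (Real.exp_pos _).le)
  set c : ℝ := δ / 2 * (δ / 16) ^ α with hc
  have hc0 : 0 < c := by
    have : 0 < (δ / 16) ^ α := Real.rpow_pos_of_pos (by positivity) _
    positivity
  refine ⟨A * S + 1, c, by nlinarith [mul_nonneg hA hS0], hc0, ?_⟩
  intro y hy _ w hw
  have hz : ‖ee w‖ ≤ 1 := by
    rw [norm_ee]
    exact Real.exp_le_one_iff.2 (by linarith)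
  have hs1 : Summable fun n => g n * (ee w) ^ n := by
    apply Summable.of_norm_bounded (hsum1.mul_left A)
    intro n
    rw [norm_mul, norm_pow]
    calc ‖g n‖ * ‖ee w‖ ^ n ≤ ‖g n‖ * 1 :=
          mul_le_mul_of_nonneg_left (pow_le_one₀ (norm_nonneg _) hz) (norm_nonneg _)
      _ ≤ A * Real.exp (-δ * (n : ℝ) ^ β) := by rw [mul_one]; exact hg n
  have hs2 : Summable fun n => tr (NN α δ y) g n * (ee w) ^ n := by
    apply summable_of_ne_finset_zero (s := Finset.range (NN α δ y + 1))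
    intro n hn
    have : ¬ n ≤ NN α δ y := fun h => hn (Finset.mem_range.2 (Nat.lt_succ_iff.2 h))
    rw [tr, if_neg this, zero_mul]
  have hyα : 0 < y ^ (-α) := Real.rpow_pos_of_pos hy _
  have hsub : ev g (ee w) - ev (tr (NN α δ y) g) (ee w) =
      ∑' n, (g n * (ee w) ^ n - tr (NN α δ y) g n * (ee w) ^ n) := (hs1.tsum_sub hs2).symm
  rw [hsub]
  have hb : ∀ n, ‖g n * (ee w) ^ n - tr (NN α δ y) g n * (ee w) ^ n‖ ≤
      (A * Real.exp (-c * y ^ (-α))) * Real.exp (-(δ / 2) * (n : ℝ) ^ β) := by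
    intro n
    by_cases hn : n ≤ NN α δ y
    · rw [tr, if_pos hn, sub_self, norm_zero]
      positivity
    · rw [tr, if_neg hn, zero_mul, sub_zero, norm_mul, norm_pow]
      have hbig := trunca_big hα hδ hy hn
      rw [← hβ] at hbig
      calc ‖g n‖ * ‖ee w‖ ^ n ≤ ‖g n‖ * 1 :=
            mul_le_mul_of_nonneg_left (pow_le_one₀ (norm_nonneg _) hz) (norm_nonneg _)
        _ ≤ A * Real.exp (-δ * (n : ℝ) ^ β) := by rw [mul_one]; exact hg n
        _ ≤ A * (Real.exp (-c * y ^ (-α)) * Real.exp (-(δ / 2) * (n : ℝ) ^ β)) := by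
            apply mul_le_mul_of_nonneg_left _ hA
            rw [← Real.exp_add]
            apply Real.exp_le_exp.2
            rw [hc]
            nlinarith
        _ = (A * Real.exp (-c * y ^ (-α))) * Real.exp (-(δ / 2) * (n : ℝ) ^ β) := by ring
  have hfin := tsum_of_norm_bounded ((hsum.mul_left (A * Real.exp (-c * y ^ (-α)))).hasSum) hb
  refine hfin.trans ?_
  rw [tsum_mul_left]
  have hep := Real.exp_pos (-c * y ^ (-α))
  calc A * Real.exp (-c * y ^ (-α)) * S = (A * S) * Real.exp (-c * y ^ (-α)) := by ring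
    _ ≤ (A * S + 1) * Real.exp (-c * y ^ (-α)) := mul_le_mul_of_nonneg_right (by linarith) hep.le

end MP_9d6c91_an
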